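import Mathlib
import Pool.Agent.Helper330.DPK.Coh
import Pool.Agent.H151.Combi

/-!
A Luzin family and a countable compact `T1` hyperconnected space in which compact sets are closed.
-/

set_option autoImplicit false

namespace Pool.Agent.X200.Luzin

open Set Topology Filter Pool.Agent.Helper330.DPK.Coh

/-- recursion along a well-founded relation with choice -/
theorem exists_rec {W : Type} [Preorder W] [WellFoundedLT W] {D : Type*}
    (P : (α : W) → ((β : W) → β < α → D) → D → Prop)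
    (h : ∀ α g, ∃ x, P α g x) : ∃ y : W → D, ∀ α, P α (fun β _ => y β) (y α) := by
  choose f hf using h
  let y : W → D := (wellFounded_lt (α := W)).fix (fun α g => f α g)
  refine ⟨y, fun α => ?_⟩
  have h1 : y α = f α (fun β _ => y β) := (wellFounded_lt (α := W)).fix_eq _ α
  rw [h1]
  exact hf α _

/-- the columns -/
def C (n : ℕ) : Set ℕ := {x | (Nat.unpair x).1 = n}

theorem C_infinite (n : ℕ) : (C n).Infinite := by
  have h : range (fun m => Nat.pair n m) ⊆ C n := by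
    rintro _ ⟨m, rfl⟩; simp [C]
  refine Set.Infinite.mono h (Set.infinite_range_of_injective ?_)
  intro a b hab
  have := congrArg (fun x => (Nat.unpair x).2) hab
  simpa using this

theorem C_disj {n m : ℕ} (h : n ≠ m) : (C n ∩ C m).Finite := by
  have : C n ∩ C m = ∅ := by
    ext x
    constructor
    · rintro ⟨h1, h2⟩
      exact h (h1.symm.trans h2)
    · exact fun h => h.elim
  rw [this]; exact finite_empty

/-- the step of the construction -/
theorem step {K : Type} [Countable K] [Infinite K] (M : K → Set ℕ) (hM : ∀ κ, (M κ).Infinite)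
    (hAD : ∀ κ κ', κ ≠ κ' → (M κ ∩ M κ').Finite) :
    ∃ L : Set ℕ, L.Infinite ∧ (∀ κ, (L ∩ M κ).Finite) ∧
      ∀ n : ℕ, {κ | ∀ x ∈ L ∩ M κ, x < n}.Finite := by
  classical
  obtain ⟨e⟩ : Nonempty (K ≃ ℕ) := by
    obtain ⟨h⟩ := nonempty_denumerable K
    exact ⟨Denumerable.eqv K⟩
  have h1 : ∀ k : ℕ, ∃ x ∈ M (e.symm k), k ≤ x ∧ ∀ j < k, x ∉ M (e.symm j) := by
    intro k
    have h2 : (⋃ j ∈ Finset.range k, M (e.symm k) ∩ M (e.symm j)).Finite := by
      refine (Finset.range k).finite_toSet.biUnion fun j hj => hAD _ _ fun h => ?_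
      have := e.symm.injective h
      have hj' : j < k := Finset.mem_range.1 hj
      omega
    have h3 : (M (e.symm k) \ ((⋃ j ∈ Finset.range k, M (e.symm k) ∩ M (e.symm j)) ∪ Iio k)).Infinite :=
      (hM _).sdiff (h2.union (finite_Iio k))
    obtain ⟨x, hx, hx'⟩ := h3.nonempty
    refine ⟨x, hx, ?_, fun j hj hxj => ?_⟩
    · by_contra h; exact hx' (Or.inr (not_le.1 h))
    · exact hx' (Or.inl (mem_iUnion₂.2 ⟨j, Finset.mem_range.2 hj, hx, hxj⟩))
  choose x hxM hxk hxj using h1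
  refine ⟨range x, ?_, ?_, ?_⟩
  · intro hfin
    obtain ⟨b, hb⟩ := hfin.bddAbove
    have := hb ⟨b + 1, rfl⟩
    have := hxk (b + 1)
    omega
  · intro κ
    refine ((finite_Iic (e κ)).image x).subset ?_
    rintro _ ⟨⟨k, rfl⟩, hk⟩
    refine ⟨k, ?_, rfl⟩
    by_contra h
    have := hxj k (e κ) (not_le.1 h)
    rw [e.symm_apply_apply] at this
    exact this hk
  · intro n
    refine Set.Finite.of_injOn (f := e) (t := Iio n) ?_ e.injective.injOn (finite_Iio n)
    intro κ hκ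
    have h2 : x (e κ) ∈ range x ∩ M κ := by
      refine ⟨⟨_, rfl⟩, ?_⟩
      have := hxM (e κ)
      rwa [e.symm_apply_apply] at this
    have h3 := hκ _ h2
    have h4 := hxk (e κ)
    show e κ < n
    omega

theorem luzin : ∃ L : W → Set ℕ, (∀ α, (L α).Infinite) ∧
    (∀ α β, α ≠ β → (L α ∩ L β).Finite) ∧
    ∀ α (n : ℕ), {β | β < α ∧ ∀ x ∈ L α ∩ L β, x < n}.Finite := by
  classical
  obtain ⟨L, hL⟩ := exists_rec (W := W) (D := Set ℕ) (fun α y x =>
      ((∀ β hβ, (y β hβ).Infinite ∧ ∀ n, (y β hβ ∩ C n).Finite) ∧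
        ∀ β hβ γ hγ, β ≠ γ → (y β hβ ∩ y γ hγ).Finite) →
      (x.Infinite ∧ (∀ n, (x ∩ C n).Finite) ∧ (∀ β hβ, (x ∩ y β hβ).Finite) ∧
        ∀ n : ℕ, {β : {β // β < α} | ∀ z ∈ x ∩ y β.1 β.2, z < n}.Finite)) (by
    intro α y
    by_cases hy : (∀ β hβ, (y β hβ).Infinite ∧ ∀ n, (y β hβ ∩ C n).Finite) ∧
        ∀ β hβ γ hγ, β ≠ γ → (y β hβ ∩ y γ hγ).Finite
    swap
    · exact ⟨∅, fun h => (hy h).elim⟩
    obtain ⟨h1, h2⟩ := hy
    have : Countable {β // β < α} := (countable_Iio α).to_subtype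
    let M : ℕ ⊕ {β // β < α} → Set ℕ := Sum.elim C fun β => y β.1 β.2
    obtain ⟨x, hx1, hx2, hx3⟩ := step M (by
      rintro (n | β)
      · exact C_infinite n
      · exact (h1 β.1 β.2).1) (by
      rintro (n | β) (m | γ) hne
      · exact C_disj fun h => hne (by rw [h])
      · rw [inter_comm]; exact (h1 γ.1 γ.2).2 n
      · exact (h1 β.1 β.2).2 m
      · exact h2 _ _ _ _ fun h => hne (by rw [Subtype.ext h]))
    refine ⟨x, fun _ => ⟨hx1, fun n => hx2 (Sum.inl n), fun β hβ => hx2 (Sum.inr ⟨β, hβ⟩), fun n => ?_⟩⟩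
    exact Set.Finite.preimage (Sum.inr_injective.injOn) (hx3 n))
  have key : ∀ α, (L α).Infinite ∧ (∀ n, (L α ∩ C n).Finite) ∧ (∀ β < α, (L α ∩ L β).Finite) ∧
      ∀ n : ℕ, {β : {β // β < α} | ∀ z ∈ L α ∩ L β.1, z < n}.Finite := by
    intro α
    induction α using WellFoundedLT.induction with
    | ind α ih =>
      refine hL α ⟨fun β hβ => ⟨(ih β hβ).1, (ih β hβ).2.1⟩, fun β hβ γ hγ hne => ?_⟩
      rcases lt_or_gt_of_ne hne with h | h
      · rw [inter_comm]; exact (ih γ hγ).2.2.1 β h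
      · exact (ih β hβ).2.2.1 γ h
  refine ⟨L, fun α => (key α).1, fun α β hne => ?_, fun α n => ?_⟩
  · rcases lt_or_gt_of_ne hne with h | h
    · rw [inter_comm]; exact (key β).2.2.1 α h
    · exact (key α).2.2.1 β h
  · refine (((key α).2.2.2 n).image Subtype.val).subset ?_
    rintro β ⟨hβ, h⟩
    exact ⟨⟨β, hβ⟩, h, rfl⟩

/-- uncountable subfamilies of a Luzin family cannot be separated -/
theorem not_separated {L : W → Set ℕ}
    (hL : ∀ α (n : ℕ), {β | β < α ∧ ∀ x ∈ L α ∩ L β, x < n}.Finite)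
    {B B' : Set W} (hB : ¬ B.Countable) (hB' : ¬ B'.Countable) (U : Set ℕ)
    (h1 : ∀ β ∈ B, (L β \ U).Finite) (h2 : ∀ γ ∈ B', (L γ ∩ U).Finite) : False := by
  classical
  obtain ⟨n, hn⟩ := Pool.Agent.H151.uncountable_fiber' (fun β (n : ℕ) => ∀ x ∈ L β \ U, x < n) B hB
    (by
      intro β hβ
      obtain ⟨b, hb⟩ := (h1 β hβ).bddAbove
      exact ⟨b + 1, fun x hx => Nat.lt_succ_of_le (hb hx)⟩)
  obtain ⟨m, hm⟩ := Pool.Agent.H151.uncountable_fiber' (fun β (n : ℕ) => ∀ x ∈ L β ∩ U, x < n) B' hB'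
    (by
      intro β hβ
      obtain ⟨b, hb⟩ := (h2 β hβ).bddAbove
      exact ⟨b + 1, fun x hx => Nat.lt_succ_of_le (hb hx)⟩)
  have hinf : {i ∈ B | ∀ x ∈ L i \ U, x < n}.Infinite := fun h => hn h.countable
  let e := hinf.natEmbedding
  obtain ⟨δ, hδ⟩ : ∃ δ : W, ∀ k, (e k : W) < δ := by
    by_contra hcon
    push Not at hcon
    have h3 : (univ : Set W) ⊆ ⋃ k, Iic (e k : W) := by
      intro δ _
      obtain ⟨k, hk⟩ := hcon δ
      exact mem_iUnion.2 ⟨k, hk⟩
    have h4 : (univ : Set W).Countable := (countable_iUnion fun k => countable_Iic _).mono h3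
    exact hn (h4.mono (subset_univ _))
  obtain ⟨γ, hγ, hγδ⟩ : ∃ γ ∈ {i ∈ B' | ∀ x ∈ L i ∩ U, x < m}, δ < γ := by
    by_contra hcon
    push Not at hcon
    exact hm ((countable_Iic δ).mono fun γ hγ => hcon γ hγ)
  have h5 := hL γ (max n m)
  have h6 : range (fun k => (e k : W)) ⊆ {β | β < γ ∧ ∀ x ∈ L γ ∩ L β, x < max n m} := by
    rintro _ ⟨k, rfl⟩
    refine ⟨(hδ k).trans hγδ, ?_⟩
    rintro x ⟨hx1, hx2⟩
    by_cases hxU : x ∈ U
    · exact (hγ.2 x ⟨hx1, hxU⟩).trans_le (le_max_right _ _)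
    · exact ((e k).2.2 x ⟨hx2, hxU⟩).trans_le (le_max_left _ _)
  exact (Set.infinite_range_of_injective (fun a b h => e.injective (Subtype.ext h))) (h5.subset h6)

theorem exists_color : ∃ ν : W → ℕ, ∀ n, ¬ (ν ⁻¹' {n}).Countable := by
  have h1 : Cardinal.mk (W × ℕ) = Cardinal.mk W := by
    have h2 : Cardinal.mk W = Cardinal.aleph 1 := by
      rw [Cardinal.mk_toType, Cardinal.card_ord]
    rw [Cardinal.mk_prod, Cardinal.lift_id, Cardinal.lift_id, Cardinal.mk_nat, h2,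
      Cardinal.mul_aleph0_eq (Cardinal.aleph0_le_aleph 1)]
  obtain ⟨e⟩ := Cardinal.eq.1 h1
  refine ⟨fun α => (e.symm α).2, fun n h => ?_⟩
  have h3 : (range fun β : W => e (β, n)) ⊆ (fun α => (e.symm α).2) ⁻¹' {n} := by
    rintro _ ⟨β, rfl⟩
    simp
  have h4 : (range fun β : W => e (β, n)).Countable := h.mono h3
  have h5 : (univ : Set W).Countable := by
    refine Set.countable_of_injective_of_countable_image (f := fun β : W => e (β, n)) ?_ ?_
    · intro a _ b _ hab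
      have := e.injective hab
      simpa using this
    · rw [image_univ]; exact h4
  have h6 : Cardinal.mk W ≤ Cardinal.aleph0 := by
    rw [← Cardinal.mk_univ]; exact Cardinal.le_aleph0_iff_set_countable.2 h5
  rw [Cardinal.mk_toType, Cardinal.card_ord] at h6
  exact absurd h6 (not_le.2 Cardinal.aleph0_lt_aleph_one)

/-- almost disjoint families -/
def ADF (𝒟 : Set (Set ℕ)) : Prop :=
  (∀ D ∈ 𝒟, D.Infinite) ∧ ∀ D ∈ 𝒟, ∀ E ∈ 𝒟, D ≠ E → (D ∩ E).Finite

theorem exists_mad {𝒟₀ : Set (Set ℕ)} (h0 : ADF 𝒟₀) : ∃ 𝒟, 𝒟₀ ⊆ 𝒟 ∧ ADF 𝒟 ∧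
    ∀ A : Set ℕ, A.Infinite → ∃ D ∈ 𝒟, (D ∩ A).Infinite := by
  obtain ⟨𝒟, h1, h2⟩ := zorn_subset_nonempty {𝒟 | ADF 𝒟} (by
    intro c hc hchain hne
    refine ⟨⋃₀ c, ⟨?_, ?_⟩, fun s hs => subset_sUnion_of_mem hs⟩
    · rintro D ⟨s, hs, hD⟩
      exact (hc hs).1 D hD
    · rintro D ⟨s, hs, hD⟩ E ⟨t, ht, hE⟩ hDE
      rcases hchain.total hs ht with h | h
      · exact (hc ht).2 D (h hD) E hE hDE
      · exact (hc hs).2 D hD E (h hE) hDE) 𝒟₀ h0
  refine ⟨𝒟, h1, h2.prop, fun A hA => ?_⟩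
  by_contra hcon
  push Not at hcon
  have h3 : ADF (insert A 𝒟) := by
    refine ⟨?_, ?_⟩
    · rintro D (rfl | hD)
      · exact hA
      · exact h2.prop.1 D hD
    · rintro D (rfl | hD) E (rfl | hE) hDE
      · exact (hDE rfl).elim
      · rw [inter_comm]; exact hcon E hE
      · exact hcon D hD
      · exact h2.prop.2 D hD E hE hDE
  have h4 : A ∈ 𝒟 := h2.le_of_ge h3 (subset_insert _ _) (mem_insert _ _)
  have h5 := hcon A h4
  rw [inter_self] at h5
  exact hA h5

/-- There is a compact `T1` space on the natural numbers which is hyperconnected and in which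
compact sets are closed. -/
theorem exists_space : ∃ t : TopologicalSpace ℕ, @T1Space ℕ t ∧ @CompactSpace ℕ t ∧
    (∀ A B : Set ℕ, IsClosed[t] A → IsClosed[t] B → A ∪ B = univ → A = univ ∨ B = univ) ∧
    ∀ K : Set ℕ, @IsCompact ℕ t K → IsClosed[t] K := by
  classical
  obtain ⟨L, hL1, hL2, hL3⟩ := luzin
  obtain ⟨ν, hν⟩ := exists_color
  obtain ⟨𝒟, h𝒟0, h𝒟1, h𝒟2⟩ := exists_mad (𝒟₀ := range L) ⟨by rintro _ ⟨α, rfl⟩; exact hL1 α, by
    rintro _ ⟨α, rfl⟩ _ ⟨β, rfl⟩ h
    exact hL2 α β fun h' => h (by rw [h'])⟩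
  have hLinj : Function.Injective L := by
    intro α β h
    by_contra hne
    have := hL2 α β hne
    rw [h, inter_self] at this
    exact hL1 β this
  let x : Set ℕ → ℕ := fun D => if h : ∃ α, L α = D then ν h.choose else 0
  have hx : ∀ α, x (L α) = ν α := by
    intro α
    have h : ∃ β, L β = L α := ⟨α, rfl⟩
    have h1 : h.choose = α := hLinj h.choose_spec
    simp only [x, dif_pos h, h1]
  let t : TopologicalSpace ℕ :=
    { IsOpen := fun U => ∀ D ∈ 𝒟, x D ∈ U → (D \ U).Finite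
      isOpen_univ := fun D _ _ => by simp
      isOpen_inter := fun U V hU hV D hD hx => by
        rw [sdiff_inter]
        exact (hU D hD hx.1).union (hV D hD hx.2)
      isOpen_sUnion := fun s hs D hD => by
        rintro ⟨U, hU, hx⟩
        exact (hs U hU D hD hx).subset (sdiff_subset_sdiff_right (subset_sUnion_of_mem hU)) }
  have ht : ∀ U, IsOpen[t] U ↔ ∀ D ∈ 𝒟, x D ∈ U → (D \ U).Finite := fun U => Iff.rfl
  refine ⟨t, ?_, ?_, ?_, ?_⟩
  · refine @T1Space.mk ℕ t fun n => ?_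
    rw [← @isOpen_compl_iff _ _ t, ht]
    intro D _ _
    refine (finite_singleton n).subset ?_
    rintro m ⟨_, hm⟩
    exact not_not.1 hm
  · refine @CompactSpace.mk ℕ t ?_
    refine @isCompact_of_finite_subcover ℕ t univ fun {ι} U hU hcov => ?_
    have h1 : ∀ s : ℕ, ∃ i, s ∈ U i := fun s => mem_iUnion.1 (hcov (mem_univ s))
    choose i hi using h1
    by_contra hcon
    push Not at hcon
    have h2 : ∀ n : ℕ, ∃ s, ∀ m ≤ n, s ∉ U (i m) := by
      intro n
      have h3 := hcon ((Finset.range (n + 1)).image i)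
      rw [not_subset] at h3
      obtain ⟨s, -, hs⟩ := h3
      refine ⟨s, fun m hm hsm => hs ?_⟩
      exact mem_iUnion₂.2 ⟨i m, Finset.mem_image_of_mem i (Finset.mem_range.2 (by omega)), hsm⟩
    choose s hs using h2
    have hs2 : ∀ n, n < s n := by
      intro n
      by_contra h
      exact hs n (s n) (not_lt.1 h) (hi (s n))
    have hinf : (range s).Infinite := by
      intro hfin
      obtain ⟨b, hb⟩ := hfin.bddAbove
      have := hb ⟨b, rfl⟩
      have := hs2 b
      omega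
    obtain ⟨D, hD, hDs⟩ := h𝒟2 _ hinf
    have h4 := (ht _).1 (hU (i (x D))) D hD (hi (x D))
    apply hDs
    refine (h4.union ((Finset.range (x D)).finite_toSet.image s)).subset ?_
    rintro _ ⟨hz, ⟨n, rfl⟩⟩
    by_cases hn : x D ≤ n
    · exact Or.inl ⟨hz, hs n _ hn⟩
    · exact Or.inr ⟨n, by simpa using hn, rfl⟩
  · intro A B hA hB hAB
    by_contra hcon
    push Not at hcon
    obtain ⟨hA', hB'⟩ := hcon
    obtain ⟨a, ha⟩ := (ne_univ_iff_exists_notMem _).1 hA'
    obtain ⟨b, hb⟩ := (ne_univ_iff_exists_notMem _).1 hB'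
    have hAo := (ht _).1 (@IsClosed.isOpen_compl _ t _ hA)
    have hBo := (ht _).1 (@IsClosed.isOpen_compl _ t _ hB)
    refine not_separated hL3 (hν a) (hν b) Aᶜ ?_ ?_
    · intro β hβ
      refine hAo _ (h𝒟0 ⟨β, rfl⟩) ?_
      rw [hx, show ν β = a from hβ]; exact ha
    · intro γ hγ
      refine (hBo (L γ) (h𝒟0 ⟨γ, rfl⟩) ?_).subset ?_
      · rw [hx, show ν γ = b from hγ]; exact hb
      · rintro z ⟨hz, hzA⟩
        refine ⟨hz, fun hzB => ?_⟩
        have : z ∈ A ∪ B := by rw [hAB]; trivial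
        rcases this with h | h
        · exact hzA h
        · exact hzB h
  · intro K hK
    rw [← @isOpen_compl_iff _ _ t, ht]
    intro D hD hxD
    by_contra hinf
    let E : Set ℕ := D ∩ K
    have hE : D \ Kᶜ = E := by ext z; simp [E]
    rw [hE] at hinf
    let U : ℕ → Set ℕ := fun a => (E ∪ {x D})ᶜ ∪ {a}
    have hU : ∀ a : K, IsOpen[t] (U a) := by
      rintro ⟨a, ha⟩
      rw [ht]
      intro D' hD' hxD'
      by_cases hDD : D' = D
      · subst hDD
        rcases hxD' with h | h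
        · exact (h (Or.inr rfl)).elim
        · have : x D' = a := h
          exact (hxD (this ▸ ha)).elim
      · refine ((h𝒟1.2 D' hD' D hD hDD).union (finite_singleton (x D))).subset ?_
        rintro z ⟨hz, hzU⟩
        have h1 : z ∈ E ∪ {x D} := by
          by_contra h; exact hzU (Or.inl h)
        rcases h1 with h1 | h1
        · exact Or.inl ⟨hz, h1.1⟩
        · exact Or.inr h1
    obtain ⟨F, hF⟩ := @IsCompact.elim_finite_subcover ℕ t K K hK (fun a => U a) hU (by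
      intro a ha
      exact mem_iUnion.2 ⟨⟨a, ha⟩, Or.inr rfl⟩)
    apply hinf
    refine (F.finite_toSet.image Subtype.val).subset ?_
    rintro z ⟨hzD, hzK⟩
    obtain ⟨a, haF, hza⟩ := mem_iUnion₂.1 (hF hzK)
    rcases hza with h | h
    · exact (h (Or.inl ⟨hzD, hzK⟩)).elim
    · exact ⟨a, haF, (show z = a from h).symm⟩

end Pool.Agent.X200.Luzin
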