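import Mathlib
import Pool.Agent.Helper330.DPK.Coh

/-!
An uncountable Tychonoff space `X` which is not a Lusin space and has a Frechet-Urysohn space
`Q_p(X, ℝ)`.
-/

set_option autoImplicit false

namespace Pool.Agent.X200.QpLusin

open Set Topology Filter Pool.Agent.Helper330.DPK.Coh

/-- quasicontinuous functions -/
def QC {X : Type*} [TopologicalSpace X] (f : X → ℝ) : Prop :=
  ∀ (x : X) (U : Set X), IsOpen U → x ∈ U → ∀ V : Set ℝ, IsOpen V → f x ∈ V →
    ∃ W : Set X, IsOpen W ∧ W.Nonempty ∧ W ⊆ U ∧ f '' W ⊆ V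

/-- `Q_p(X, ℝ)` -/
def Qp (X : Type*) [TopologicalSpace X] : Type _ := {f : X → ℝ // QC f}

instance (X : Type*) [TopologicalSpace X] : TopologicalSpace (Qp X) :=
  inferInstanceAs (TopologicalSpace {f : X → ℝ // QC f})

/-- Lusin spaces -/
def Lusin (X : Type*) [TopologicalSpace X] : Prop :=
  (∀ N : Set X, IsNowhereDense N → N.Countable) ∧ {x : X | IsOpen ({x} : Set X)}.Countable ∧
    ¬ Countable X

/-- the Cantor cube -/
abbrev Z : Type := W → Bool

/-- the group operation -/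
def ad (x z : Z) : Z := fun w => xor (x w) (z w)

/-- zero -/
def o : Z := fun _ => false

theorem ad_ad (x z : Z) : ad x (ad x z) = z := by
  funext w; simp [ad]

theorem ad_o (x : Z) : ad x o = x := by
  funext w; simp [ad, o]

theorem ad_cont (x : Z) : Continuous (ad x) := by
  refine continuous_pi fun w => ?_
  exact (continuous_of_discreteTopology (f := fun b : Bool => xor (x w) b)).comp (continuous_apply w)

/-- translation as a homeomorphism -/
def adH (x : Z) : Z ≃ₜ Z where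
  toFun := ad x
  invFun := ad x
  left_inv := ad_ad x
  right_inv := ad_ad x
  continuous_toFun := ad_cont x
  continuous_invFun := ad_cont x

theorem nhds_Z {x : Z} {U : Set Z} (hU : IsOpen U) (hx : x ∈ U) :
    ∃ F : Finset W, ∀ g : Z, (∀ w ∈ F, g w = x w) → g ∈ U := by
  have hV := hU.mem_nhds hx
  rw [nhds_pi, Filter.mem_pi] at hV
  obtain ⟨I, hI, t, ht, hsub⟩ := hV
  refine ⟨hI.toFinset, fun g hg => hsub fun i hi => ?_⟩
  rw [hg i (hI.mem_toFinset.2 hi)]
  exact mem_of_mem_nhds (ht i)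

theorem box_clopen (F : Finset W) (x : Z) : IsClopen {g : Z | ∀ w ∈ F, g w = x w} := by
  have : {g : Z | ∀ w ∈ F, g w = x w} = ⋂ w ∈ F, (fun g : Z => g w) ⁻¹' {x w} := by
    ext g; simp
  rw [this]
  refine isClopen_biInter_finset fun w _ => ?_
  exact (isClopen_discrete _).preimage (continuous_apply w)

theorem exists_dense : ∃ Q : Set Z, Q.Countable ∧ Dense Q := by
  classical
  have h1 : Cardinal.mk W ≤ Cardinal.mk ℝ := by
    rw [Cardinal.mk_toType, Cardinal.card_ord, Cardinal.mk_real]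
    exact Cardinal.aleph_one_le_continuum
  obtain ⟨e⟩ := (Cardinal.le_def _ _).1 h1
  let Φ : C(ℝ, ℝ) → Z := fun f w => decide (0 < f (e w))
  obtain ⟨S, hSc, hSd⟩ := TopologicalSpace.exists_countable_dense C(ℝ, ℝ)
  refine ⟨Φ '' S, hSc.image _, fun x => ?_⟩
  rw [mem_closure_iff]
  intro U hU hx
  obtain ⟨F, hF⟩ := nhds_Z hU hx
  let v : W → ℝ := fun w => if x w = true then 1 else -1
  let p : Polynomial ℝ := Lagrange.interpolate F e v
  let P : C(ℝ, ℝ) := ⟨fun t => p.eval t, p.continuous⟩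
  have hP : ∀ w ∈ F, P (e w) = v w := fun w hw =>
    Lagrange.eval_interpolate_at_node v e.injective.injOn hw
  let O : Set C(ℝ, ℝ) := ⋂ w ∈ F, {f : C(ℝ, ℝ) | |f (e w) - v w| < 1}
  have hO : IsOpen O := isOpen_biInter_finset fun w _ =>
    isOpen_lt ((continuous_eval_const (e w)).sub continuous_const).abs continuous_const
  have hPO : P ∈ O := by
    refine mem_iInter₂.2 fun w hw => ?_
    show |P (e w) - v w| < 1
    rw [hP w hw]; simp
  obtain ⟨f, hfO, hfS⟩ := hSd.inter_open_nonempty O hO ⟨P, hPO⟩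
  refine ⟨Φ f, hF _ fun w hw => ?_, ⟨f, hfS, rfl⟩⟩
  have h2 : |f (e w) - v w| < 1 := mem_iInter₂.1 hfO w hw
  rw [abs_lt] at h2
  show decide (0 < f (e w)) = x w
  cases hx : x w
  · have h3 : v w = -1 := by simp [v, hx]
    rw [h3] at h2
    simp only [decide_eq_false_iff_not, not_lt]
    linarith [h2.2]
  · have h3 : v w = 1 := by simp [v, hx]
    rw [h3] at h2
    simp only [decide_eq_true_eq]
    linarith [h2.1]

/-- the dense set -/
noncomputable def Q : Set Z := exists_dense.choose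

theorem Q_countable : Q.Countable := exists_dense.choose_spec.1
theorem Q_dense : Dense Q := exists_dense.choose_spec.2

instance neBot : (𝓝 o ⊓ residual Z).NeBot := by
  rw [Filter.inf_neBot_iff]
  intro U hU S hS
  have h1 : Dense S := dense_of_mem_residual hS
  obtain ⟨V, hVU, hV, hoV⟩ := mem_nhds_iff.1 hU
  obtain ⟨x, hx1, hx2⟩ := h1.inter_open_nonempty V hV ⟨o, hoV⟩
  exact ⟨x, hVU hx1, hx2⟩

/-- the ultrafilter -/
noncomputable def u : Ultrafilter Z := Ultrafilter.of (𝓝 o ⊓ residual Z)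

theorem u_nhds : (u : Filter Z) ≤ 𝓝 o := (Ultrafilter.of_le _).trans inf_le_left

theorem u_res : (u : Filter Z) ≤ residual Z := (Ultrafilter.of_le _).trans inf_le_right

/-- `G ∈ p x` -/
def P (x : Z) (G : Set Z) : Prop := ad x ⁻¹' G ∈ u

theorem P_inter {x : Z} {G H : Set Z} (h1 : P x G) (h2 : P x H) : P x (G ∩ H) := by
  have := Filter.inter_mem (f := (u : Filter Z)) h1 h2
  exact this

theorem P_mono {x : Z} {G H : Set Z} (h1 : P x G) (h2 : G ⊆ H) : P x H :=
  Filter.mem_of_superset (f := (u : Filter Z)) h1 (preimage_mono h2)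

theorem P_empty {x : Z} : ¬ P x ∅ := by
  intro h
  have h1 : (∅ : Set Z) ∈ (u : Filter Z) := by
    have : ad x ⁻¹' (∅ : Set Z) ∈ (u : Filter Z) := h
    rwa [preimage_empty] at this
  exact Filter.empty_notMem _ h1

theorem P_open {x : Z} {G : Set Z} (hG : IsOpen G) (hx : x ∈ G) : P x G := by
  refine u_nhds ?_
  refine (hG.preimage (ad_cont x)).mem_nhds ?_
  show ad x o ∈ G
  rwa [ad_o]

theorem P_dense {x : Z} {G : Set Z} (hG : IsOpen G) (hd : Dense G) : P x G := by
  refine u_res ?_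
  have h1 : IsOpen (ad x ⁻¹' G) := hG.preimage (ad_cont x)
  have h2 : Dense (ad x ⁻¹' G) := hd.preimage (adH x).isOpenMap
  exact residual_of_dense_open h1 h2

theorem P_or {x : Z} {G : Set Z} (hG : IsOpen G) : P x G ∨ P x (closure G)ᶜ := by
  have h1 : P x (G ∪ (closure G)ᶜ) := by
    refine P_dense (hG.union isClosed_closure.isOpen_compl) ?_
    intro z
    by_cases hz : z ∈ closure G
    · exact closure_mono subset_union_left hz
    · exact subset_closure (Or.inr hz)
  have h2 : ad x ⁻¹' G ∪ ad x ⁻¹' (closure G)ᶜ ∈ u := h1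
  exact Ultrafilter.union_mem_iff.1 h2

theorem P_supp {G : Set Z} (hG : IsOpen G) : ∃ C : Set W, C.Countable ∧
    ∀ x y : Z, (∀ w ∈ C, x w = y w) → P x G → P y G := by
  classical
  have h1 : ∀ q : Z, ∃ F : Finset W, q ∈ G → ∀ g : Z, (∀ w ∈ F, g w = q w) → g ∈ G := by
    intro q
    by_cases hq : q ∈ G
    · obtain ⟨F, hF⟩ := nhds_Z hG hq
      exact ⟨F, fun _ => hF⟩
    · exact ⟨∅, fun h => (hq h).elim⟩
  choose F hF using h1
  let G' : Set Z := ⋃ q ∈ Q ∩ G, {g : Z | ∀ w ∈ F q, g w = q w}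
  have hG'o : IsOpen G' := isOpen_biUnion fun q _ => (box_clopen _ _).isOpen
  have hG'G : G' ⊆ G := iUnion₂_subset fun q hq g hg => hF q hq.2 g hg
  have hGG' : G ⊆ closure G' := by
    refine (Q_dense.open_subset_closure_inter hG).trans (closure_mono ?_)
    rintro q ⟨hq1, hq2⟩
    exact mem_iUnion₂.2 ⟨q, ⟨hq2, hq1⟩, fun _ _ => rfl⟩
  refine ⟨⋃ q ∈ Q ∩ G, (F q : Set W), (Q_countable.mono inter_subset_left).biUnion fun q _ =>
    (F q).countable_toSet, fun x y hxy hx => ?_⟩
  have h2 : P x G' := by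
    rcases P_or (x := x) hG'o with h | h
    · exact h
    · exfalso
      refine P_empty (x := x) (P_mono (P_inter hx h) ?_)
      rintro z ⟨hz1, hz2⟩
      exact hz2 (hGG' hz1)
  have h3 : ad x ⁻¹' G' = ad y ⁻¹' G' := by
    have h4 : ∀ x y : Z, (∀ w ∈ ⋃ q ∈ Q ∩ G, (F q : Set W), x w = y w) →
        ad x ⁻¹' G' ⊆ ad y ⁻¹' G' := by
      intro x y hxy z hz
      obtain ⟨q, hq, hz⟩ := mem_iUnion₂.1 hz
      refine mem_iUnion₂.2 ⟨q, hq, fun w hw => ?_⟩
      rw [← hz w hw]
      show xor (y w) (z w) = xor (x w) (z w)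
      rw [hxy w (mem_iUnion₂.2 ⟨q, hq, hw⟩)]
    exact Subset.antisymm (h4 x y hxy) (h4 y x fun w hw => (hxy w hw).symm)
  have h5 : P y G' := by
    show ad y ⁻¹' G' ∈ u
    rw [← h3]; exact h2
  exact P_mono h5 hG'G

/-- unit vectors -/
noncomputable def e (α : W) : Z := by classical exact fun w => decide (w = α)

/-- the underlying set of the example -/
def S : Set Z := Q ∪ {o} ∪ range e

/-- the example -/
def X : Type := S

/-- the basic open sets -/
def Bs (G : Set Z) : Set X := {x : S | P x.1 G}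

instance : TopologicalSpace X where
  IsOpen U := ∀ x ∈ U, ∃ G : Set Z, IsOpen G ∧ x ∈ Bs G ∧ Bs G ⊆ U
  isOpen_univ := fun x _ => ⟨univ, isOpen_univ, P_open isOpen_univ trivial, subset_univ _⟩
  isOpen_inter := by
    rintro U V hU hV x ⟨hx1, hx2⟩
    obtain ⟨G, hG, hxG, hGU⟩ := hU x hx1
    obtain ⟨H, hH, hxH, hHV⟩ := hV x hx2
    exact ⟨G ∩ H, hG.inter hH, P_inter hxG hxH, fun y hy =>
      ⟨hGU (P_mono hy inter_subset_left), hHV (P_mono hy inter_subset_right)⟩⟩
  isOpen_sUnion := by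
    rintro 𝒮 h𝒮 x ⟨U, hU, hx⟩
    obtain ⟨G, hG, hxG, hGU⟩ := h𝒮 U hU x hx
    exact ⟨G, hG, hxG, hGU.trans (subset_sUnion_of_mem hU)⟩

theorem isOpen_X {U : Set X} : IsOpen U ↔ ∀ x ∈ U, ∃ G : Set Z, IsOpen G ∧ x ∈ Bs G ∧ Bs G ⊆ U :=
  Iff.rfl

theorem Bs_open {G : Set Z} (hG : IsOpen G) : IsOpen (Bs G) :=
  isOpen_X.2 fun _ hx => ⟨G, hG, hx, le_rfl⟩

theorem Bs_compl {G : Set Z} (hG : IsOpen G) : (Bs G)ᶜ = Bs (closure G)ᶜ := by
  ext x
  constructor
  · intro h
    exact (P_or hG).resolve_left h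
  · intro h h'
    refine P_empty (x := x.1) (P_mono (P_inter h' h) ?_)
    rintro z ⟨h1, h2⟩
    exact h2 (subset_closure h1)

theorem Bs_clopen {G : Set Z} (hG : IsOpen G) : IsClopen (Bs G) := by
  refine ⟨⟨?_⟩, Bs_open hG⟩
  rw [Bs_compl hG]
  exact Bs_open isClosed_closure.isOpen_compl

/-- nonempty open sets of `Z` contain points of `Q` -/
theorem Bs_nonempty {G : Set Z} (hG : IsOpen G) (hne : G.Nonempty) : ∃ x : X, x ∈ Bs G ∧ x.1 ∈ G := by
  obtain ⟨q, hq1, hq2⟩ := Q_dense.inter_open_nonempty G hG hne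
  exact ⟨⟨q, Or.inl (Or.inl hq2)⟩, P_open hG hq1, hq1⟩

theorem P_nonempty {x : Z} {G : Set Z} (h : P x G) : G.Nonempty := by
  by_contra hne
  rw [not_nonempty_iff_eq_empty] at hne
  subst hne
  exact P_empty h

/-- the open set of `Z` attached to an open set of the example -/
def GU (U : Set X) : Set Z := ⋃₀ {G | IsOpen G ∧ Bs G ⊆ U}

theorem GU_open (U : Set X) : IsOpen (GU U) := isOpen_sUnion fun _ h => h.1

theorem closure_sub_GU {U : Set X} (hU : IsOpen U) : closure U ⊆ Bs (GU U) := by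
  refine closure_minimal ?_ (Bs_clopen (GU_open U)).1
  intro x hx
  obtain ⟨G, hG, hxG, hGU⟩ := isOpen_X.1 hU x hx
  exact P_mono hxG (subset_sUnion_of_mem ⟨hG, hGU⟩)

theorem disj_GU {U V : Set X} (hV : IsOpen V) (hUV : Disjoint U V) :
    Disjoint (Bs (GU U)) (closure V) := by
  have h1 : Disjoint (Bs (GU U)) V := by
    rw [disjoint_left]
    intro x hx hxV
    obtain ⟨H, hH, hxH, hHV⟩ := isOpen_X.1 hV x hxV
    obtain ⟨z, hz1, hz2⟩ := P_nonempty (P_inter hx hxH)
    obtain ⟨G, ⟨hG, hGU⟩, hzG⟩ := hz1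
    obtain ⟨q, hq, -⟩ := Bs_nonempty (hG.inter hH) ⟨z, hzG, hz2⟩
    exact disjoint_left.1 hUV (hGU (P_mono hq inter_subset_left)) (hHV (P_mono hq inter_subset_right))
  exact h1.closure_right (Bs_open (GU_open U))

theorem qc_supp {f : X → ℝ} (hf : QC f) : ∃ C : Set W, C.Countable ∧
    ∀ x y : X, (∀ w ∈ C, x.1 w = y.1 w) → f x = f y := by
  have hcl : ∀ V : Set ℝ, IsOpen V → ∀ x, f x ∈ V → x ∈ closure (interior (f ⁻¹' V)) := by
    intro V hV x hx
    rw [mem_closure_iff]
    intro U hU hxU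
    obtain ⟨O, hO, hOne, hOU, hOV⟩ := hf x U hU hxU V hV hx
    obtain ⟨y, hy⟩ := hOne
    refine ⟨y, hOU hy, ?_⟩
    exact mem_interior.2 ⟨O, fun z hz => hOV ⟨z, hz, rfl⟩, hO, hy⟩
  have h1 : ∀ q : ℚ, ∃ C : Set W, C.Countable ∧ ∀ x y : Z, (∀ w ∈ C, x w = y w) →
      P x (GU (interior (f ⁻¹' Iio (q : ℝ)))) → P y (GU (interior (f ⁻¹' Iio (q : ℝ)))) :=
    fun q => P_supp (GU_open _)
  choose C hC hC' using h1
  refine ⟨⋃ q, C q, countable_iUnion hC, ?_⟩
  have key : ∀ x y : X, (∀ w ∈ ⋃ q, C q, x.1 w = y.1 w) → ¬ f x < f y := by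
    intro x y hxy hlt
    obtain ⟨q, hq1, hq2⟩ := exists_rat_btwn hlt
    have h2 : P x.1 (GU (interior (f ⁻¹' Iio (q : ℝ)))) :=
      closure_sub_GU isOpen_interior (hcl _ isOpen_Iio x hq1)
    have h3 := hC' q x.1 y.1 (fun w hw => hxy w (mem_iUnion.2 ⟨q, hw⟩)) h2
    have h4 := hcl _ isOpen_Ioi y hq2
    refine disjoint_left.1 (disj_GU isOpen_interior ?_) h3 h4
    rw [disjoint_left]
    intro z hz1 hz2
    have h5 : z ∈ f ⁻¹' Iio (q : ℝ) := interior_subset hz1
    have h6 : z ∈ f ⁻¹' Ioi (q : ℝ) := interior_subset hz2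
    exact lt_asymm (show f z < q from h5) (show (q : ℝ) < f z from h6)
  intro x y hxy
  have h2 := key x y hxy
  have h3 := key y x fun w hw => (hxy w hw).symm
  linarith [not_lt.1 h2, not_lt.1 h3]

theorem e_inj : Function.Injective e := by
  intro α β h
  have h1 := congrFun h α
  simpa [e] using h1

theorem e_ne_o (α : W) : e α ≠ o := by
  intro h
  have h1 := congrFun h α
  simp [e, o] at h1

/-- points of the example -/
noncomputable def eX (α : W) : X := ⟨e α, Or.inr ⟨α, rfl⟩⟩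
def oX : X := ⟨o, Or.inl (Or.inr rfl)⟩

theorem eX_inj : Function.Injective eX := fun _ _ h => e_inj (congrArg Subtype.val h)

theorem W_uncountable : ¬ (univ : Set W).Countable := by
  intro h5
  have h6 : Cardinal.mk W ≤ Cardinal.aleph0 := by
    rw [← Cardinal.mk_univ]; exact Cardinal.le_aleph0_iff_set_countable.2 h5
  rw [Cardinal.mk_toType, Cardinal.card_ord] at h6
  exact absurd h6 (not_le.2 Cardinal.aleph0_lt_aleph_one)

theorem range_eX : ¬ (range eX).Countable := by
  intro h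
  refine W_uncountable (Set.countable_of_injective_of_countable_image (f := eX) eX_inj.injOn ?_)
  rwa [image_univ]

theorem X_uncountable : ¬ Countable X := by
  intro h
  exact range_eX (Set.to_countable _)

theorem nowhere : IsNowhereDense (range eX) := by
  rw [IsNowhereDense, eq_empty_iff_forall_notMem]
  intro x hx
  obtain ⟨G, hG, hxG, hGU⟩ := isOpen_X.1 isOpen_interior x hx
  obtain ⟨z, hz⟩ := P_nonempty hxG
  obtain ⟨F, hF⟩ := nhds_Z hG hz
  -- two indices outside of `F`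
  have hinf : (F : Set W)ᶜ.Infinite := by
    intro hfin
    refine W_uncountable ?_
    rw [← union_compl_self (F : Set W)]
    exact F.countable_toSet.union hfin.countable
  obtain ⟨β₁, hβ₁⟩ := hinf.nonempty
  obtain ⟨β₂, hβ₂, hne⟩ := (hinf.sdiff (finite_singleton β₁)).nonempty
  have hne : β₂ ≠ β₁ := hne
  let B : Set Z := G ∩ {g | g β₁ = true ∧ g β₂ = true}
  have hBc : IsClopen {g : Z | g β₁ = true ∧ g β₂ = true} := by
    have : {g : Z | g β₁ = true ∧ g β₂ = true} =
        (fun g : Z => g β₁) ⁻¹' {true} ∩ (fun g : Z => g β₂) ⁻¹' {true} := by ext g; simp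
    rw [this]
    exact ((isClopen_discrete _).preimage (continuous_apply β₁)).inter
      ((isClopen_discrete _).preimage (continuous_apply β₂))
  have hBo : IsOpen B := hG.inter hBc.isOpen
  have hBne : B.Nonempty := by
    classical
    let g : Z := fun w => if w = β₁ ∨ w = β₂ then true else z w
    refine ⟨g, hF g fun w hw => ?_, ?_, ?_⟩
    · have h1 : w ≠ β₁ := fun h => hβ₁ (h ▸ hw)
      have h2 : w ≠ β₂ := fun h => hβ₂ (h ▸ hw)
      simp [g, h1, h2]
    · simp [g]
    · simp [g]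
  obtain ⟨y, hyB, -⟩ := Bs_nonempty hBo hBne
  have hy1 : y ∈ interior (closure (range eX)) := hGU (P_mono hyB inter_subset_left)
  have hy2 : y ∈ closure (range eX) := interior_subset hy1
  rw [mem_closure_iff] at hy2
  obtain ⟨v, hv, ⟨α, rfl⟩⟩ := hy2 _ (Bs_open hBo) hyB
  -- `e α` is not in `B` in the strong sense
  have h3 : P (e α) {g : Z | g β₁ = true ∧ g β₂ = true} := P_mono hv inter_subset_right
  have h4 : P (e α) {g : Z | g β₁ = true ∧ g β₂ = true}ᶜ := by
    refine P_open hBc.compl.isOpen ?_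
    rintro ⟨h5, h6⟩
    simp only [e, decide_eq_true_eq] at h5 h6
    exact hne (h6.trans h5.symm)
  refine P_empty (P_mono (P_inter h3 h4) ?_)
  rintro g ⟨h5, h6⟩
  exact h6 h5

theorem t2 : T2Space X := by
  refine ⟨fun x y hxy => ?_⟩
  have h1 : x.1 ≠ y.1 := fun h => hxy (Subtype.ext h)
  obtain ⟨w, hw⟩ := Function.ne_iff.1 h1
  have hB : IsClopen {g : Z | g w = x.1 w} :=
    (isClopen_discrete ({x.1 w} : Set Bool)).preimage (continuous_apply w)
  refine ⟨Bs {g : Z | g w = x.1 w}, Bs {g : Z | g w = x.1 w}ᶜ, Bs_open hB.isOpen,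
    Bs_open hB.compl.isOpen, P_open hB.isOpen rfl, P_open hB.compl.isOpen fun h => hw h.symm, ?_⟩
  rw [disjoint_left]
  intro z h1 h2
  refine P_empty (P_mono (P_inter h1 h2) ?_)
  rintro g ⟨h5, h6⟩
  exact h6 h5

theorem t35 : T35Space X := by
  classical
  have := t2
  have h1 : CompletelyRegularSpace X := by
    refine ⟨fun x K hK hx => ?_⟩
    obtain ⟨G, hG, hxG, hGU⟩ := isOpen_X.1 hK.isOpen_compl x hx
    refine ⟨fun y => if y ∈ Bs G then 0 else 1, ?_, if_pos hxG, fun y hy => if_neg fun h => hGU h hy⟩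
    refine continuous_const.if ?_ continuous_const
    intro a ha
    have ha' : a ∈ frontier (Bs G) := ha
    rw [(Bs_clopen hG).frontier_eq] at ha'
    exact ha'.elim
  exact { }

/-- closing off -/
theorem close_off (Φ : Finset W → Set W) (hΦ : ∀ s, (Φ s).Countable) (D₀ : Set W)
    (hD₀ : D₀.Countable) : ∃ D : Set W, D₀ ⊆ D ∧ D.Countable ∧
      ∀ s : Finset W, (s : Set W) ⊆ D → Φ s ⊆ D := by
  let step : Set W → Set W := fun D => D ∪ ⋃ s ∈ {s : Finset W | (s : Set W) ⊆ D}, Φ s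
  let Dn : ℕ → Set W := fun n => step^[n] D₀
  have hs : ∀ n, Dn (n + 1) = step (Dn n) := fun n => Function.iterate_succ_apply' step n D₀
  have hc : ∀ n, (Dn n).Countable := by
    intro n
    induction n with
    | zero => exact hD₀
    | succ n ih =>
      rw [hs]
      refine ih.union (Set.Countable.biUnion ?_ fun s _ => hΦ s)
      have hmaps : MapsTo (fun s : Finset W => (s : Set W))
        {s : Finset W | (s : Set W) ⊆ Dn n} {t | t.Finite ∧ t ⊆ Dn n} :=
        fun s hs => ⟨s.finite_toSet, hs⟩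
      exact hmaps.countable_of_injOn
        (fun a _ b _ h => Finset.coe_injective h) (Set.countable_setOf_finite_subset ih)
  have hm : ∀ n, Dn n ⊆ Dn (n + 1) := fun n => by rw [hs]; exact subset_union_left
  have hmono : Monotone Dn := monotone_nat_of_le_succ hm
  refine ⟨⋃ n, Dn n, subset_iUnion Dn 0, countable_iUnion hc, fun s hsD => ?_⟩
  obtain ⟨n, hn⟩ : ∃ n, (s : Set W) ⊆ Dn n :=
    hmono.directed_le.exists_mem_subset_of_finset_subset_biUnion hsD
  refine Subset.trans ?_ (subset_iUnion Dn (n + 1))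
  rw [hs]
  intro w hw
  exact Or.inr (mem_iUnion₂.2 ⟨s, hn, hw⟩)

/-- the part of the example with supports in `D` -/
def Y (D : Set W) : Set X := {x | x.1 ∈ Q ∨ x = oX ∨ ∃ α ∈ D, x = eX α}

theorem Y_countable {D : Set W} (hD : D.Countable) : (Y D).Countable := by
  have h1 : Y D = (Subtype.val : S → Z) ⁻¹' Q ∪ {oX} ∪ eX '' D := by
    ext x
    constructor
    · rintro (h | h | ⟨α, hα, h⟩)
      · exact Or.inl (Or.inl h)
      · exact Or.inl (Or.inr h)
      · exact Or.inr ⟨α, hα, h.symm⟩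
    · rintro ((h | h) | ⟨α, hα, h⟩)
      · exact Or.inl h
      · exact Or.inr (Or.inl h)
      · exact Or.inr (Or.inr ⟨α, hα, h.symm⟩)
  rw [h1]
  exact ((Q_countable.preimage Subtype.val_injective).union (countable_singleton _)).union
    (hD.image _)

theorem fu : FrechetUrysohnSpace (Qp X) := by
  classical
  refine ⟨fun 𝒜 g hg => ?_⟩
  have hev : ∀ x : X, Continuous fun f : Qp X => f.1 x := fun x =>
    (continuous_apply x).comp continuous_subtype_val
  have h1 : ∀ (F : Finset X) (m : ℕ), ∃ f ∈ 𝒜, ∀ x ∈ F, |f.1 x - g.1 x| < 1 / (m + 1 : ℝ) := by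
    intro F m
    have hO : IsOpen (⋂ x ∈ F, {f : Qp X | |f.1 x - g.1 x| < 1 / (m + 1 : ℝ)}) :=
      isOpen_biInter_finset fun x _ => isOpen_lt ((hev x).sub continuous_const).abs continuous_const
    obtain ⟨f, hf1, hf2⟩ := mem_closure_iff.1 hg _ hO (mem_iInter₂.2 fun x _ => by
      show |g.1 x - g.1 x| < 1 / (m + 1 : ℝ)
      rw [sub_self, abs_zero]; positivity)
    exact ⟨f, hf2, fun x hx => mem_iInter₂.1 hf1 x hx⟩
  choose φ hφ1 hφ2 using h1
  have h2 := fun f : Qp X => qc_supp f.2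
  choose C hC1 hC2 using h2
  let Φ : Finset W → Set W := fun s => ⋃ F ∈ {F : Finset X | (F : Set X) ⊆ Y (s : Set W)},
    ⋃ m : ℕ, C (φ F m)
  have hΦ : ∀ s, (Φ s).Countable := by
    intro s
    refine Set.Countable.biUnion ?_ fun F _ => countable_iUnion fun m => hC1 _
    have hmaps : MapsTo (fun F : Finset X => (F : Set X))
        {F : Finset X | (F : Set X) ⊆ Y (s : Set W)} {t | t.Finite ∧ t ⊆ Y (s : Set W)} :=
        fun F hF => ⟨F.finite_toSet, hF⟩
    exact hmaps.countable_of_injOn (fun a _ b _ h => Finset.coe_injective h)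
        (Set.countable_setOf_finite_subset (Y_countable s.countable_toSet))
  obtain ⟨D, hD0, hDc, hD⟩ := close_off Φ hΦ (C g) (hC1 g)
  have hDF : ∀ (F : Finset X) (m : ℕ), (F : Set X) ⊆ Y D → C (φ F m) ⊆ D := by
    intro F m hF
    let s : Finset W := (F.preimage eX eX_inj.injOn).filter (· ∈ D)
    have hs : (s : Set W) ⊆ D := fun w hw => by
      simp only [s, Finset.coe_filter] at hw
      exact hw.2
    refine Subset.trans ?_ (hD s hs)
    intro w hw
    refine mem_iUnion₂.2 ⟨F, fun x hx => ?_, mem_iUnion.2 ⟨m, hw⟩⟩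
    rcases hF hx with h | h | ⟨α, hα, h⟩
    · exact Or.inl h
    · exact Or.inr (Or.inl h)
    · refine Or.inr (Or.inr ⟨α, ?_, h⟩)
      simp only [s, Finset.coe_filter, Finset.mem_preimage]
      exact ⟨h ▸ hx, hα⟩
  have hne : (Y D).Nonempty := ⟨oX, Or.inr (Or.inl rfl)⟩
  obtain ⟨y, hy⟩ := (Y_countable hDc).exists_eq_range hne
  let f : ℕ → Qp X := fun n => φ ((Finset.range (n + 1)).image y) n
  have hfD : ∀ n, C (f n) ⊆ D := by
    intro n
    refine hDF _ _ ?_
    intro x hx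
    simp only [Finset.coe_image] at hx
    obtain ⟨j, _, rfl⟩ := hx
    rw [hy]; exact ⟨j, rfl⟩
  have hY : ∀ x ∈ Y D, Tendsto (fun n => (f n).1 x) atTop (𝓝 (g.1 x)) := by
    intro x hx
    rw [hy] at hx
    obtain ⟨j, rfl⟩ := hx
    rw [Metric.tendsto_atTop]
    intro ε hε
    obtain ⟨m, hm⟩ := exists_nat_one_div_lt hε
    refine ⟨max j m, fun n hn => ?_⟩
    rw [Real.dist_eq]
    have h3 := hφ2 ((Finset.range (n + 1)).image y) n (y j)
      (Finset.mem_image_of_mem _ (Finset.mem_range.2 (by have := le_max_left j m; omega)))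
    refine h3.trans (lt_of_le_of_lt ?_ hm)
    have h4 : (m : ℝ) ≤ n := by exact_mod_cast (le_max_right j m).trans hn
    exact one_div_le_one_div_of_le (by positivity) (by linarith)
  refine ⟨f, fun n => hφ1 _ _, ?_⟩
  rw [show Tendsto f atTop (𝓝 g) ↔ Tendsto (fun n => (f n).1) atTop (𝓝 g.1) from
    tendsto_subtype_rng, tendsto_pi_nhds]
  intro x
  by_cases hx : x ∈ Y D
  · exact hY x hx
  · -- `x = e α` with `α ∉ D`
    have h3 : ∃ α, α ∉ D ∧ x = eX α := by
      rcases x.2 with (h | h) | ⟨α, h⟩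
      · exact (hx (Or.inl h)).elim
      · exact (hx (Or.inr (Or.inl (Subtype.ext h)))).elim
      · have h' : x = eX α := Subtype.ext h.symm
        exact ⟨α, fun hα => hx (Or.inr (Or.inr ⟨α, hα, h'⟩)), h'⟩
    obtain ⟨α, hα, rfl⟩ := h3
    have h4 : ∀ w ∈ D, (eX α).1 w = oX.1 w := by
      intro w hw
      have : w ≠ α := fun h => hα (h ▸ hw)
      simp [eX, oX, e, o, this]
    have h5 : ∀ n, (f n).1 (eX α) = (f n).1 oX := fun n =>
      hC2 (f n) _ _ fun w hw => h4 w (hfD n hw)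
    have h6 : g.1 (eX α) = g.1 oX := hC2 g _ _ fun w hw => h4 w (hD0 hw)
    simp only [h5, h6]
    exact hY oX (Or.inr (Or.inl rfl))

theorem main : ∃ (X : Type) (_ : TopologicalSpace X), T35Space X ∧ FrechetUrysohnSpace (Qp X) ∧
    ¬ Countable X ∧ ¬ Lusin X :=
  ⟨X, inferInstance, t35, fu, X_uncountable, fun h => range_eX (h.1 _ nowhere)⟩

end Pool.Agent.X200.QpLusin
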