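import Mathlib
import Pool.Agent.X200.QpLusin

/-!
A Hausdorff space `X` such that `Q_p(X, ℝ)` is Frechet-Urysohn at zero but not everywhere.
-/

set_option autoImplicit false

namespace Pool.Agent.X200.QpNonhom

open Set Topology Filter Pool.Agent.Helper330.DPK.Coh Pool.Agent.X200.QpLusin

/-- Frechet-Urysohn at a point -/
def FUat {Y : Type*} [TopologicalSpace Y] (y : Y) : Prop :=
  ∀ A : Set Y, y ∈ closure A → ∃ s : ℕ → Y, (∀ n, s n ∈ A) ∧ Tendsto s atTop (𝓝 y)

/-- minimally bounded sets -/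
def MB {X : Type*} [TopologicalSpace X] (A : Set X) : Prop :=
  A ⊆ closure (interior A) ∧ interior (closure A) ⊆ A

/-- `Ω^s` -/
def OmegaS {X : Type*} [TopologicalSpace X] (𝒰 : Set (Set X)) : Prop :=
  (∀ U ∈ 𝒰, MB U) ∧ ∀ F : Set X, F.Finite → ∃ U ∈ 𝒰, F ⊆ U

/-- `Γ^s` -/
def GammaS {X : Type*} [TopologicalSpace X] (𝒰 : Set (Set X)) : Prop :=
  (∀ U ∈ 𝒰, MB U) ∧ ⋃₀ 𝒰 = univ ∧ ∀ x : X, {U ∈ 𝒰 | x ∉ U}.Finite

/-- `S_1(Ω^s, Γ^s)` -/
def S1 (X : Type*) [TopologicalSpace X] : Prop :=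
  ∀ 𝒰 : ℕ → Set (Set X), (∀ n, OmegaS (𝒰 n)) →
    ∃ U : ℕ → Set X, (∀ n, U n ∈ 𝒰 n) ∧ GammaS (range U)

/-- strong form of `S_1(Ω^s, Γ^s)` -/
def S1s (X : Type*) [TopologicalSpace X] : Prop :=
  ∀ 𝒰 : ℕ → Set (Set X), (∀ n, OmegaS (𝒰 n)) →
    ∃ U : ℕ → Set X, (∀ n, U n ∈ 𝒰 n) ∧ ∀ x, ∀ᶠ n in atTop, x ∈ U n

theorem s1_of_s1s {X : Type*} [TopologicalSpace X] (h : S1s X) : S1 X := by
  intro 𝒰 h𝒰
  obtain ⟨U, hU, hU'⟩ := h 𝒰 h𝒰
  refine ⟨U, hU, ?_, ?_, ?_⟩
  · rintro _ ⟨n, rfl⟩
    exact (h𝒰 n).1 _ (hU n)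
  · refine eq_univ_of_forall fun x => ?_
    obtain ⟨n, hn⟩ := (hU' x).exists
    exact ⟨U n, ⟨n, rfl⟩, hn⟩
  · intro x
    have h1 := hU' x
    rw [← Nat.cofinite_eq_atTop, eventually_cofinite] at h1
    refine (h1.image U).subset ?_
    rintro _ ⟨⟨n, rfl⟩, hn⟩
    exact ⟨n, hn, rfl⟩

/-- the countable dense part -/
def Q' : Set Z := {q | q ∈ Q ∧ q ≠ o ∧ ∀ α, q ≠ e α}

/-- the example -/
inductive Pt : Type
  | m (q : Q') (i : Bool) : Pt
  | a (α : W) : Pt
  | l (i : Bool) : Pt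

open Pt

/-- the ends of the points -/
noncomputable def ends : Pt → Set (Z × Bool)
  | m q i => {(q.1, i)}
  | a α => {(e α, false), (e α, true)}
  | l i => {(o, i)}

theorem ends_ne (z : Pt) : (ends z).Nonempty := by
  cases z <;> simp [ends]

/-- basic open sets -/
def Bs (G : Bool → Set Z) : Set Pt := {z | ∀ p ∈ ends z, P p.1 (G p.2)}

instance : TopologicalSpace Pt where
  IsOpen U := ∀ z ∈ U, ∃ G : Bool → Set Z, (∀ i, IsOpen (G i)) ∧ z ∈ Bs G ∧ Bs G ⊆ U
  isOpen_univ := fun z _ => ⟨fun _ => univ, fun _ => isOpen_univ,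
    fun _ _ => P_open isOpen_univ trivial, subset_univ _⟩
  isOpen_inter := by
    rintro U V hU hV z ⟨hz1, hz2⟩
    obtain ⟨G, hG, hzG, hGU⟩ := hU z hz1
    obtain ⟨H, hH, hzH, hHV⟩ := hV z hz2
    exact ⟨fun i => G i ∩ H i, fun i => (hG i).inter (hH i),
      fun p hp => P_inter (hzG p hp) (hzH p hp), fun y hy =>
      ⟨hGU fun p hp => P_mono (hy p hp) inter_subset_left,
        hHV fun p hp => P_mono (hy p hp) inter_subset_right⟩⟩
  isOpen_sUnion := by
    rintro 𝒮 h𝒮 z ⟨U, hU, hz⟩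
    obtain ⟨G, hG, hzG, hGU⟩ := h𝒮 U hU z hz
    exact ⟨G, hG, hzG, hGU.trans (subset_sUnion_of_mem hU)⟩

theorem isOpen_Pt {U : Set Pt} : IsOpen U ↔
    ∀ z ∈ U, ∃ G : Bool → Set Z, (∀ i, IsOpen (G i)) ∧ z ∈ Bs G ∧ Bs G ⊆ U := Iff.rfl

theorem Bs_open {G : Bool → Set Z} (hG : ∀ i, IsOpen (G i)) : IsOpen (Bs G) :=
  isOpen_Pt.2 fun _ hz => ⟨G, hG, hz, le_rfl⟩

theorem Bs_mono {G H : Bool → Set Z} (h : ∀ i, G i ⊆ H i) : Bs G ⊆ Bs H :=
  fun _ hz p hp => P_mono (hz p hp) (h p.2)

theorem exists_Q' {G : Set Z} (hG : IsOpen G) (hne : G.Nonempty) : ∃ q : Q', q.1 ∈ G := by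
  obtain ⟨z, hz⟩ := hne
  obtain ⟨F, hF⟩ := nhds_Z hG hz
  have hinf : (F : Set W)ᶜ.Infinite := by
    intro hfin
    refine W_uncountable ?_
    rw [← union_compl_self (F : Set W)]
    exact F.countable_toSet.union hfin.countable
  obtain ⟨β₁, hβ₁⟩ := hinf.nonempty
  obtain ⟨β₂, hβ₂, hne⟩ := (hinf.sdiff (finite_singleton β₁)).nonempty
  have hne : β₂ ≠ β₁ := hne
  let B : Set Z := G ∩ {g | g β₁ = true ∧ g β₂ = true}
  have hBc : IsClopen {g : Z | g β₁ = true ∧ g β₂ = true} := by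
    have : {g : Z | g β₁ = true ∧ g β₂ = true} =
        (fun g : Z => g β₁) ⁻¹' {true} ∩ (fun g : Z => g β₂) ⁻¹' {true} := by ext g; simp
    rw [this]
    exact ((isClopen_discrete _).preimage (continuous_apply β₁)).inter
      ((isClopen_discrete _).preimage (continuous_apply β₂))
  have hBo : IsOpen B := hG.inter hBc.isOpen
  have hBne : B.Nonempty := by
    classical
    let g : Z := fun w => if w = β₁ ∨ w = β₂ then true else z w
    refine ⟨g, hF g fun w hw => ?_, ?_, ?_⟩
    · have h1 : w ≠ β₁ := fun h => hβ₁ (h ▸ hw)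
      have h2 : w ≠ β₂ := fun h => hβ₂ (h ▸ hw)
      simp [g, h1, h2]
    · simp [g]
    · simp [g]
  obtain ⟨q, hq1, hq2⟩ := Q_dense.inter_open_nonempty B hBo hBne
  refine ⟨⟨q, hq2, ?_, ?_⟩, hq1.1⟩
  · rintro rfl
    have := hq1.2.1
    simp [o] at this
  · rintro α rfl
    have h5 := hq1.2.1
    have h6 := hq1.2.2
    simp only [e, decide_eq_true_eq] at h5 h6
    exact hne (h6.trans h5.symm)

/-- the open sets of `Z` attached to an open set of the example -/
def GU (U : Set Pt) (i : Bool) : Set Z :=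
  ⋃₀ {O | ∃ G : Bool → Set Z, (∀ j, IsOpen (G j)) ∧ Bs G ⊆ U ∧ O = G i}

theorem GU_open (U : Set Pt) (i : Bool) : IsOpen (GU U i) := by
  refine isOpen_sUnion ?_
  rintro _ ⟨G, hG, -, rfl⟩
  exact hG i

theorem mem_GU {U : Set Pt} (hU : IsOpen U) {z : Pt} (hz : z ∈ U) :
    ∀ p ∈ ends z, P p.1 (GU U p.2) := by
  intro p hp
  obtain ⟨G, hG, hzG, hGU⟩ := isOpen_Pt.1 hU z hz
  exact P_mono (hzG p hp) (subset_sUnion_of_mem ⟨G, hG, hGU, rfl⟩)

theorem mem_closure_GU {U : Set Pt} (hU : IsOpen U) {z : Pt} (hz : z ∈ closure U) :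
    ∃ p ∈ ends z, P p.1 (GU U p.2) := by
  by_contra hcon
  push Not at hcon
  have h1 : z ∈ Bs fun i => (closure (GU U i))ᶜ := fun p hp =>
    (P_or (GU_open U p.2)).resolve_left (hcon p hp)
  have h2 : IsOpen (Bs fun i => (closure (GU U i))ᶜ) :=
    Bs_open fun i => isClosed_closure.isOpen_compl
  obtain ⟨y, hy1, hy2⟩ := mem_closure_iff.1 hz _ h2 h1
  obtain ⟨p, hp⟩ := ends_ne y
  refine P_empty (P_mono (P_inter (hy1 p hp) (mem_GU hU hy2 p hp)) ?_)
  rintro g ⟨h5, h6⟩
  exact h5 (subset_closure h6)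

theorem GU_disj {U V : Set Pt} (hUV : Disjoint U V) (i : Bool) : GU U i ∩ GU V i = ∅ := by
  rw [eq_empty_iff_forall_notMem]
  rintro g ⟨⟨_, ⟨G, hG, hGU, rfl⟩, hg1⟩, ⟨_, ⟨H, hH, hHV, rfl⟩, hg2⟩⟩
  obtain ⟨q, hq⟩ := exists_Q' ((hG i).inter (hH i)) ⟨g, hg1, hg2⟩
  have h1 : m q i ∈ Bs G := by
    intro p hp
    have hp' : p = (q.1, i) := hp
    subst hp'
    exact P_open (hG i) hq.1
  have h2 : m q i ∈ Bs H := by
    intro p hp
    have hp' : p = (q.1, i) := hp
    subst hp'
    exact P_open (hH i) hq.2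
  exact disjoint_left.1 hUV (hGU h1) (hHV h2)

theorem supp (U : Set Pt) : ∃ C : Set W, C.Countable ∧
    ∀ i, ∀ x y : Z, (∀ w ∈ C, x w = y w) → P x (GU U i) → P y (GU U i) := by
  have h1 := fun i => P_supp (GU_open U i)
  choose C hC hC' using h1
  exact ⟨⋃ i, C i, countable_iUnion hC, fun i x y hxy =>
    hC' i x y fun w hw => hxy w (mem_iUnion.2 ⟨i, hw⟩)⟩

theorem e_agree {C : Set W} {α : W} (hα : α ∉ C) : ∀ w ∈ C, e α w = o w := by
  intro w hw
  have : w ≠ α := fun h => hα (h ▸ hw)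
  simp [e, o, this]

theorem compl_semi {X : Type*} [TopologicalSpace X] {A : Set X} (h : interior (closure A) ⊆ A) :
    Aᶜ ⊆ closure (interior Aᶜ) := by
  intro x hx
  rw [interior_compl]
  rw [closure_compl]
  exact fun h' => hx (h h')

theorem mb_supp {A : Set Pt} (hA : MB A) : ∃ C : Set W, C.Countable ∧
    ∀ α ∉ C, l false ∈ A → l true ∈ A → a α ∈ A := by
  obtain ⟨C, hC, hC'⟩ := supp (interior Aᶜ)
  refine ⟨C, hC, fun α hα h0 h1 => ?_⟩
  by_contra hcon
  have h2 : a α ∈ closure (interior Aᶜ) := compl_semi hA.2 hcon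
  obtain ⟨p, hp, hpP⟩ := mem_closure_GU isOpen_interior h2
  have hp1 : p.1 = e α := by
    rcases hp with rfl | rfl <;> rfl
  rw [hp1] at hpP
  have h3 := hC' p.2 _ _ (e_agree hα) hpP
  have h4 : l p.2 ∈ A := by
    cases p.2
    · exact h0
    · exact h1
  obtain ⟨p', hp', hpP'⟩ := mem_closure_GU isOpen_interior (hA.1 h4)
  have hp'' : p' = (o, p.2) := hp'
  subst hp''
  have hd : Disjoint (interior A) (interior Aᶜ) :=
    (disjoint_compl_right (a := A)).mono interior_subset interior_subset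
  have h5 := P_inter hpP' h3
  rw [GU_disj hd] at h5
  exact P_empty h5

theorem qc_cl {X : Type*} [TopologicalSpace X] {f : X → ℝ} (hf : QC f) {V : Set ℝ} (hV : IsOpen V)
    {x : X} (hx : f x ∈ V) : x ∈ closure (interior (f ⁻¹' V)) := by
  rw [mem_closure_iff]
  intro U hU hxU
  obtain ⟨O, hO, hOne, hOU, hOV⟩ := hf x U hU hxU V hV hx
  obtain ⟨y, hy⟩ := hOne
  refine ⟨y, hOU hy, ?_⟩
  exact mem_interior.2 ⟨O, fun z hz => hOV ⟨z, hz, rfl⟩, hO, hy⟩

theorem qc_supp {f : Pt → ℝ} (hf : QC f) : ∃ C : Set W, C.Countable ∧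
    ∀ α ∉ C, |f (a α)| ≤ max |f (l false)| |f (l true)| := by
  have h1 := fun q : ℚ => supp (interior (f ⁻¹' Iio (q : ℝ)))
  have h2 := fun q : ℚ => supp (interior (f ⁻¹' Ioi (q : ℝ)))
  choose C1 hC1 hC1' using h1
  choose C2 hC2 hC2' using h2
  refine ⟨(⋃ q, C1 q) ∪ ⋃ q, C2 q, (countable_iUnion hC1).union (countable_iUnion hC2),
    fun α hα => ?_⟩
  have hdisj : ∀ q : ℝ, Disjoint (interior (f ⁻¹' Iio q)) (interior (f ⁻¹' Ioi q)) := by
    intro q
    rw [disjoint_left]
    intro z hz1 hz2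
    have h5 : z ∈ f ⁻¹' Iio q := interior_subset hz1
    have h6 : z ∈ f ⁻¹' Ioi q := interior_subset hz2
    exact lt_asymm (show f z < q from h5) (show q < f z from h6)
  have hlt : ∀ i, ∀ q : ℚ, f (l i) < q → P o (GU (interior (f ⁻¹' Iio (q : ℝ))) i) := by
    intro i q hq
    obtain ⟨p, hp, hpP⟩ := mem_closure_GU isOpen_interior (qc_cl hf isOpen_Iio hq)
    have hp' : p = (o, i) := hp
    subst hp'
    exact hpP
  have hgt : ∀ i, ∀ q : ℚ, (q : ℝ) < f (l i) → P o (GU (interior (f ⁻¹' Ioi (q : ℝ))) i) := by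
    intro i q hq
    obtain ⟨p, hp, hpP⟩ := mem_closure_GU isOpen_interior (qc_cl hf isOpen_Ioi hq)
    have hp' : p = (o, i) := hp
    subst hp'
    exact hpP
  have h3 : ∃ i, f (a α) ≤ f (l i) := by
    by_contra hcon
    push Not at hcon
    obtain ⟨q, hq1, hq2⟩ := exists_rat_btwn (max_lt (hcon false) (hcon true))
    obtain ⟨p, hp, hpP⟩ := mem_closure_GU isOpen_interior (qc_cl hf isOpen_Ioi hq2)
    have hp1 : p.1 = e α := by
      rcases hp with rfl | rfl <;> rfl
    rw [hp1] at hpP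
    have h4 := hC2' q p.2 _ _ (e_agree fun h => hα (Or.inr (mem_iUnion.2 ⟨q, h⟩))) hpP
    have h5 := hlt p.2 q (by
      cases p.2
      · exact (le_max_left _ _).trans_lt hq1
      · exact (le_max_right _ _).trans_lt hq1)
    have h6 := P_inter h5 h4
    rw [GU_disj (hdisj q)] at h6
    exact P_empty h6
  have h4 : ∃ i, f (l i) ≤ f (a α) := by
    by_contra hcon
    push Not at hcon
    obtain ⟨q, hq1, hq2⟩ := exists_rat_btwn (lt_min (hcon false) (hcon true))
    obtain ⟨p, hp, hpP⟩ := mem_closure_GU isOpen_interior (qc_cl hf isOpen_Iio hq1)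
    have hp1 : p.1 = e α := by
      rcases hp with rfl | rfl <;> rfl
    rw [hp1] at hpP
    have h4 := hC1' q p.2 _ _ (e_agree fun h => hα (Or.inl (mem_iUnion.2 ⟨q, h⟩))) hpP
    have h5 := hgt p.2 q (by
      cases p.2
      · exact hq2.trans_le (min_le_left _ _)
      · exact hq2.trans_le (min_le_right _ _))
    have h6 := P_inter h4 h5
    rw [GU_disj (hdisj q)] at h6
    exact P_empty h6
  have h5 : ∀ i, |f (l i)| ≤ max |f (l false)| |f (l true)| := by
    intro i
    cases i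
    · exact le_max_left _ _
    · exact le_max_right _ _
  obtain ⟨i, hi⟩ := h3
  obtain ⟨j, hj⟩ := h4
  have h6 := h5 i
  have h7 := h5 j
  rw [abs_le] at h6 h7 ⊢
  exact ⟨h7.1.trans hj, hi.trans h6.2⟩

/-- the part of the example with supports in `D` -/
def Y (D : Set W) : Set Pt := {z | ∀ α, z = a α → α ∈ D}

theorem Y_countable {D : Set W} (hD : D.Countable) : (Y D).Countable := by
  have hQ' : Countable Q' := (Q_countable.mono fun q hq => hq.1).to_subtype
  have h1 : Y D ⊆ (range fun p : Q' × Bool => m p.1 p.2) ∪ range l ∪ a '' D := by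
    intro z hz
    cases z with
    | m q i => exact Or.inl (Or.inl ⟨(q, i), rfl⟩)
    | a α => exact Or.inr ⟨α, hz α rfl, rfl⟩
    | l i => exact Or.inl (Or.inr ⟨i, rfl⟩)
  exact (((countable_range _).union (countable_range _)).union (hD.image _)).mono h1

/-- closing off -/
theorem seq_exists {T : Type*} (C : T → Set W) (hC : ∀ t, (C t).Countable)
    (c : Finset Pt → ℕ → T) : ∃ (D : Set W) (y : ℕ → Pt), range y = Y D ∧
      ∀ n, C (c (by classical exact (Finset.range (n + 1)).image y) n) ⊆ D := by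
  classical
  let Φ : Finset W → Set W := fun s => ⋃ F ∈ {F : Finset Pt | (F : Set Pt) ⊆ Y (s : Set W)},
    ⋃ m : ℕ, C (c F m)
  have hΦ : ∀ s, (Φ s).Countable := by
    intro s
    refine Set.Countable.biUnion ?_ fun F _ => countable_iUnion fun m => hC _
    have hmaps : MapsTo (fun F : Finset Pt => (F : Set Pt))
        {F : Finset Pt | (F : Set Pt) ⊆ Y (s : Set W)} {t | t.Finite ∧ t ⊆ Y (s : Set W)} :=
        fun F hF => ⟨F.finite_toSet, hF⟩
    exact hmaps.countable_of_injOn (fun a _ b _ h => Finset.coe_injective h)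
        (Set.countable_setOf_finite_subset (Y_countable s.countable_toSet))
  obtain ⟨D, -, hDc, hD⟩ := close_off Φ hΦ ∅ countable_empty
  have ha : Function.Injective a := fun α β h => by injection h
  have hDF : ∀ (F : Finset Pt) (m : ℕ), (F : Set Pt) ⊆ Y D → C (c F m) ⊆ D := by
    intro F m hF
    let s : Finset W := F.preimage a ha.injOn
    have hs : (s : Set W) ⊆ D := fun w hw => by
      simp only [s, Finset.coe_preimage] at hw
      exact hF hw w rfl
    refine Subset.trans ?_ (hD s hs)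
    intro w hw
    refine mem_iUnion₂.2 ⟨F, fun x hx α hα => ?_, mem_iUnion.2 ⟨m, hw⟩⟩
    simp only [s, Finset.coe_preimage]
    show a α ∈ F
    rw [← hα]; exact hx
  have hne : (Y D).Nonempty := ⟨l false, fun α h => by cases h⟩
  obtain ⟨y, hy⟩ := (Y_countable hDc).exists_eq_range hne
  refine ⟨D, y, hy.symm, fun n => hDF _ _ ?_⟩
  intro x hx
  simp only [Finset.coe_image] at hx
  obtain ⟨j, _, rfl⟩ := hx
  rw [hy]; exact ⟨j, rfl⟩

theorem cases_Y (D : Set W) (z : Pt) : z ∈ Y D ∨ ∃ α, α ∉ D ∧ z = a α := by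
  by_cases h : z ∈ Y D
  · exact Or.inl h
  · simp only [Y, mem_ofPred_eq, not_forall] at h
    obtain ⟨α, h1, h2⟩ := h
    exact Or.inr ⟨α, h2, h1⟩

theorem l_mem (D : Set W) (i : Bool) : l i ∈ Y D := fun α h => by cases h

theorem s1s : S1s Pt := by
  classical
  intro 𝒰 h𝒰
  have h1 : ∀ (F : Finset Pt) (n : ℕ), ∃ U : {U : Set Pt // MB U}, U.1 ∈ 𝒰 n ∧ (F : Set Pt) ⊆ U.1 := by
    intro F n
    obtain ⟨U, hU, hFU⟩ := (h𝒰 n).2 F F.finite_toSet
    exact ⟨⟨U, (h𝒰 n).1 U hU⟩, hU, hFU⟩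
  choose c hc1 hc2 using h1
  have h2 := fun A : {U : Set Pt // MB U} => mb_supp A.2
  choose C hC hC' using h2
  obtain ⟨D, y, hy, hD⟩ := seq_exists C hC c
  have key : ∀ z ∈ Y D, ∀ᶠ n in atTop, z ∈ (c ((Finset.range (n + 1)).image y) n).1 := by
    intro z hz
    rw [← hy] at hz
    obtain ⟨j, rfl⟩ := hz
    filter_upwards [eventually_ge_atTop j] with n hn
    exact hc2 _ n (Finset.mem_coe.2 (Finset.mem_image_of_mem _ (Finset.mem_range.2 (by omega))))
  refine ⟨fun n => (c ((Finset.range (n + 1)).image y) n).1, fun n => hc1 _ n, fun z => ?_⟩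
  rcases cases_Y D z with hz | ⟨α, hα, rfl⟩
  · exact key z hz
  · filter_upwards [key _ (l_mem D false), key _ (l_mem D true)] with n h3 h4
    exact hC' _ α (fun h => hα (hD n h)) h3 h4

/-- the zero function -/
def zero : Qp Pt := ⟨fun _ => 0, fun x U hU hx V _ hV =>
  ⟨U, hU, ⟨x, hx⟩, le_rfl, by rintro _ ⟨y, _, rfl⟩; exact hV⟩⟩

theorem fu_zero : FUat zero := by
  classical
  intro 𝒜 hz
  have hev : ∀ x : Pt, Continuous fun f : Qp Pt => f.1 x := fun x =>
    (continuous_apply x).comp continuous_subtype_val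
  have h1 : ∀ (F : Finset Pt) (m : ℕ), ∃ f : Qp Pt, f ∈ 𝒜 ∧ ∀ x ∈ F, |f.1 x| < 1 / (m + 1 : ℝ) := by
    intro F m
    have hO : IsOpen (⋂ x ∈ F, {f : Qp Pt | |f.1 x| < 1 / (m + 1 : ℝ)}) :=
      isOpen_biInter_finset fun x _ => isOpen_lt (hev x).abs continuous_const
    obtain ⟨f, hf1, hf2⟩ := mem_closure_iff.1 hz _ hO (mem_iInter₂.2 fun x _ => by
      show |(0 : ℝ)| < 1 / (m + 1 : ℝ)
      rw [abs_zero]; positivity)
    exact ⟨f, hf2, fun x hx => mem_iInter₂.1 hf1 x hx⟩
  choose c hc1 hc2 using h1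
  have h2 := fun f : Qp Pt => qc_supp f.2
  choose C hC hC' using h2
  obtain ⟨D, y, hy, hD⟩ := seq_exists C hC c
  have key : ∀ z ∈ Y D, ∀ ε : ℝ, 0 < ε → ∀ᶠ n in atTop,
      |(c ((Finset.range (n + 1)).image y) n).1 z| < ε := by
    intro z hz ε hε
    rw [← hy] at hz
    obtain ⟨j, rfl⟩ := hz
    obtain ⟨N, hN⟩ := exists_nat_one_div_lt hε
    filter_upwards [eventually_ge_atTop j, eventually_ge_atTop N] with n hn hn'
    refine (hc2 _ n _ (Finset.mem_image_of_mem _ (Finset.mem_range.2 (by omega)))).trans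
      (lt_of_le_of_lt ?_ hN)
    have h4 : (N : ℝ) ≤ n := by exact_mod_cast hn'
    exact one_div_le_one_div_of_le (by positivity) (by linarith)
  refine ⟨fun n => c ((Finset.range (n + 1)).image y) n, fun n => hc1 _ n, ?_⟩
  rw [show Tendsto (fun n => c ((Finset.range (n + 1)).image y) n) atTop (𝓝 zero) ↔
    Tendsto (fun n => (c ((Finset.range (n + 1)).image y) n).1) atTop (𝓝 zero.1) from
    tendsto_subtype_rng, tendsto_pi_nhds]
  intro z
  rw [Metric.tendsto_nhds]
  intro ε hε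
  have h5 : ∀ᶠ n in atTop, |(c ((Finset.range (n + 1)).image y) n).1 z| < ε := by
    rcases cases_Y D z with hz | ⟨α, hα, rfl⟩
    · exact key z hz ε hε
    · filter_upwards [key _ (l_mem D false) ε hε, key _ (l_mem D true) ε hε] with n h3 h4
      exact (hC' _ α fun h => hα (hD n h)).trans_lt (max_lt h3 h4)
  filter_upwards [h5] with n hn
  rw [Real.dist_eq]
  show |_ - (0 : ℝ)| < ε
  rw [sub_zero]
  exact hn

/-- value of a side -/
def val (i : Bool) : ℝ := if i then 1 else 0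

/-- the functions witnessing the failure -/
noncomputable def fE (E : Set W) : Pt → ℝ := by
  classical
  exact fun z => match z with
  | m _ i => val i
  | a α => if α ∈ E then 1 else 0
  | l i => val i

theorem fE_end (E : Set W) (z : Pt) : ∃ p ∈ ends z, fE E z = val p.2 := by
  classical
  cases z with
  | m q i => exact ⟨_, rfl, rfl⟩
  | a α =>
    by_cases h : α ∈ E
    · exact ⟨(e α, true), Or.inr rfl, by simp [fE, val, h]⟩
    · exact ⟨(e α, false), Or.inl rfl, by simp [fE, val, h]⟩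
  | l i => exact ⟨_, rfl, rfl⟩

theorem fE_qc (E : Set W) : QC (fE E) := by
  intro z U hU hzU V hV hzV
  obtain ⟨G, hG, hzG, hGU⟩ := isOpen_Pt.1 hU z hzU
  obtain ⟨p, hp, hpv⟩ := fE_end E z
  let G' : Bool → Set Z := fun i => if i = p.2 then G i else ∅
  have hG' : ∀ i, IsOpen (G' i) := by
    intro i
    by_cases h : i = p.2
    · simp only [G', if_pos h]; exact hG i
    · simp only [G', if_neg h]; exact isOpen_empty
  have hsub : Bs G' ⊆ Bs G := Bs_mono fun i => by
    by_cases h : i = p.2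
    · simp only [G', if_pos h]; exact le_rfl
    · simp only [G', if_neg h]; exact empty_subset _
  have hside : ∀ y ∈ Bs G', ∀ r ∈ ends y, r.2 = p.2 := by
    intro y hy r hr
    by_contra h
    have := hy r hr
    simp only [G', if_neg h] at this
    exact P_empty this
  refine ⟨Bs G', Bs_open hG', ?_, hsub.trans hGU, ?_⟩
  · obtain ⟨q, hq⟩ := exists_Q' (hG p.2) (P_nonempty (hzG p hp))
    refine ⟨m q p.2, fun r hr => ?_⟩
    have hr' : r = (q.1, p.2) := hr
    subst hr'
    simp only [G', if_true]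
    exact P_open (hG p.2) hq
  · rintro _ ⟨y, hy, rfl⟩
    have h1 : fE E y = val p.2 := by
      obtain ⟨r, hr, hrv⟩ := fE_end E y
      rw [hrv, hside y hy r hr]
    rw [h1, ← hpv]
    exact hzV

/-- the functions as elements of `Q_p` -/
noncomputable def fQ (E : Set W) : Qp Pt := ⟨fE E, fE_qc E⟩

theorem not_fu : ¬ FUat (fQ univ) := by
  classical
  intro h
  let 𝒜 : Set (Qp Pt) := {f | ∃ E : Set W, E.Finite ∧ f = fQ E}
  have h1 : fQ univ ∈ closure 𝒜 := by
    rw [mem_closure_iff_nhds]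
    intro U hU
    have hU' : U ∈ comap (Subtype.val : Qp Pt → Pt → ℝ) (𝓝 (fE univ)) := by
      have : 𝓝 (fQ univ) =
        comap (Subtype.val : Qp Pt → Pt → ℝ) (𝓝 (fE univ)) := nhds_induced _ _
      rwa [← this]
    obtain ⟨V, hV, hVU⟩ := hU'
    rw [nhds_pi, Filter.mem_pi] at hV
    obtain ⟨I, hI, t, ht, hsub⟩ := hV
    let E : Set W := a ⁻¹' I
    have hE : E.Finite := hI.preimage fun α _ β _ h => by injection h
    refine ⟨fQ E, hVU (hsub fun z hz => ?_), E, hE, rfl⟩
    have h2 : fE E z = fE univ z := by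
      cases z with
      | m q i => rfl
      | a α =>
        have : α ∈ E := hz
        simp [fE, this]
      | l i => rfl
    show fE E z ∈ t z
    rw [h2]
    exact mem_of_mem_nhds (ht z)
  obtain ⟨s, hs, hst⟩ := h _ h1
  choose E hE hsE using hs
  have h2 : (⋃ n, E n).Countable := countable_iUnion fun n => (hE n).countable
  refine W_uncountable (h2.mono fun α _ => ?_)
  by_contra hα
  rw [show Tendsto s atTop (𝓝 (fQ univ)) ↔
    Tendsto (fun n => (s n).1) atTop (𝓝 (fE univ)) from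
    tendsto_subtype_rng, tendsto_pi_nhds] at hst
  have h3 := hst (a α)
  have h4 : ∀ n, (s n).1 (a α) = 0 := by
    intro n
    rw [hsE n]
    have : α ∉ E n := fun h => hα (mem_iUnion.2 ⟨n, h⟩)
    simp [fQ, fE, this]
  simp only [h4] at h3
  have h5 := tendsto_nhds_unique h3 tendsto_const_nhds
  simp [fE] at h5

theorem t2 : T2Space Pt := by
  refine ⟨fun x y hxy => ?_⟩
  -- separating coordinates
  have h1 : ∀ i, ∃ B : Set Z, IsClopen B ∧ (∀ p ∈ ends x, p.2 = i → p.1 ∈ B) ∧
      ∀ p ∈ ends y, p.2 = i → p.1 ∉ B := by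
    intro i
    have key : ∀ z z' : Z, z ≠ z' → ∃ B : Set Z, IsClopen B ∧ z ∈ B ∧ z' ∉ B := by
      intro z z' hne
      obtain ⟨w, hw⟩ := Function.ne_iff.1 hne
      exact ⟨{g | g w = z w}, (isClopen_discrete ({z w} : Set Bool)).preimage (continuous_apply w),
        rfl, fun h => hw h.symm⟩
    have huniq : ∀ (z : Pt) (p r : Z × Bool), p ∈ ends z → r ∈ ends z → p.1 = r.1 := by
      intro z p r hp hr
      cases z with
      | m q j => rw [show p = (q.1, j) from hp, show r = (q.1, j) from hr]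
      | a α => rcases hp with rfl | rfl <;> rcases hr with rfl | rfl <;> rfl
      | l j => rw [show p = (o, j) from hp, show r = (o, j) from hr]
    by_cases hx : ∃ p ∈ ends x, p.2 = i
    · by_cases hy : ∃ p ∈ ends y, p.2 = i
      · obtain ⟨p, hp, hpi⟩ := hx
        obtain ⟨r, hr, hri⟩ := hy
        have hne : p.1 ≠ r.1 := by
          intro hpr
          apply hxy
          have hpr' : p = r := Prod.ext hpr (hpi.trans hri.symm)
          subst hpr'
          cases x with
          | m q j =>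
            have h2 : p = (q.1, j) := hp
            subst h2
            cases y with
            | m q' j' =>
              have h3 : (q.1, j) = (q'.1, j') := hr
              rw [Prod.mk.injEq] at h3
              rw [Subtype.ext h3.1, h3.2]
            | a α =>
              exfalso
              rcases hr with h3 | h3
              · exact q.2.2.2 α (congrArg Prod.fst h3)
              · exact q.2.2.2 α (congrArg Prod.fst h3)
            | l j' =>
              exfalso
              have h3 : (q.1, j) = (o, j') := hr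
              exact q.2.2.1 (congrArg Prod.fst h3)
          | a α =>
            have h2 : p.1 = e α := by rcases hp with rfl | rfl <;> rfl
            cases y with
            | m q' j' =>
              exfalso
              have h3 : p = (q'.1, j') := hr
              rw [h3] at h2
              exact q'.2.2.2 α h2
            | a β =>
              have h3 : p.1 = e β := by rcases hr with rfl | rfl <;> rfl
              rw [e_inj (h2.symm.trans h3)]
            | l j' =>
              exfalso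
              have h3 : p = (o, j') := hr
              rw [h3] at h2
              exact e_ne_o α h2.symm
          | l j =>
            have h2 : p = (o, j) := hp
            subst h2
            cases y with
            | m q' j' =>
              exfalso
              have h3 : (o, j) = (q'.1, j') := hr
              exact q'.2.2.1 (congrArg Prod.fst h3).symm
            | a β =>
              exfalso
              rcases hr with h3 | h3
              · exact e_ne_o β (congrArg Prod.fst h3).symm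
              · exact e_ne_o β (congrArg Prod.fst h3).symm
            | l j' =>
              have h3 : (o, j) = (o, j') := hr
              rw [Prod.mk.injEq] at h3
              rw [h3.2]
        obtain ⟨B, hB, h2, h3⟩ := key _ _ hne
        exact ⟨B, hB, fun p' hp' _ => huniq x p' p hp' hp ▸ h2,
          fun r' hr' _ => huniq y r' r hr' hr ▸ h3⟩
      · push Not at hy
        exact ⟨univ, isClopen_univ, fun _ _ _ => trivial, fun p hp h => (hy p hp h).elim⟩
    · push Not at hx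
      exact ⟨∅, isClopen_empty, fun p hp h => (hx p hp h).elim, fun _ _ _ h => h⟩
  choose B hB hB1 hB2 using h1
  refine ⟨Bs B, Bs fun i => (B i)ᶜ, Bs_open fun i => (hB i).isOpen,
    Bs_open fun i => (hB i).compl.isOpen, fun p hp => P_open (hB _).isOpen (hB1 p.2 p hp rfl),
    fun p hp => P_open (hB _).compl.isOpen (hB2 p.2 p hp rfl), ?_⟩
  rw [disjoint_left]
  intro z h1 h2
  obtain ⟨p, hp⟩ := ends_ne z
  refine P_empty (P_mono (P_inter (h1 p hp) (h2 p hp)) ?_)
  rintro g ⟨h5, h6⟩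
  exact h6 h5

theorem main : ∃ (X : Type) (_ : TopologicalSpace X), T2Space X ∧ S1 X ∧
    (∀ z : Qp X, (∀ x, z.1 x = 0) → FUat z) ∧ ∃ f : Qp X, ¬ FUat f := by
  refine ⟨Pt, inferInstance, t2, s1_of_s1s s1s, fun z hz => ?_, _, not_fu⟩
  have : z = zero := Subtype.ext (funext hz)
  rw [this]; exact fu_zero

end Pool.Agent.X200.QpNonhom
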