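import Mathlib
import Pool.Agent.X200.QpNonhom

/-!
For open Whyburn spaces, `S_1(Ω^s, Γ^s)` implies that `Q_p(X, ℝ)` is Frechet-Urysohn.
-/

set_option autoImplicit false

namespace Pool.Agent.X200.QpWhy

open Set Topology Filter Pool.Agent.X200.QpLusin Pool.Agent.X200.QpNonhom

/-- open Whyburn spaces -/
def OpenWhyburn (X : Type*) [TopologicalSpace X] : Prop :=
  ∀ A : Set X, IsOpen A → ∀ x ∈ closure A \ A, ∃ B : Set X, IsOpen B ∧ B ⊆ A ∧ closure B \ A = {x}

variable {X : Type*} [TopologicalSpace X]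

theorem mb_open {T F : Set X} (hT : IsOpen T) (hF : F ⊆ closure T) :
    MB (interior (closure T) ∪ F) := by
  have h0 : T ⊆ interior (closure T) := hT.subset_interior_closure
  constructor
  · have h1 : closure T ⊆ closure (interior (interior (closure T) ∪ F)) := by
      refine closure_mono (h0.trans ?_)
      exact interior_maximal subset_union_left isOpen_interior
    rintro x (hx | hx)
    · exact h1 (interior_subset hx)
    · exact h1 (hF hx)
  · have h1 : closure (interior (closure T) ∪ F) ⊆ closure T :=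
      closure_minimal (union_subset interior_subset hF) isClosed_closure
    exact (interior_mono h1).trans subset_union_left

theorem mb_closure {T : Set X} (hT : IsOpen T) : MB (closure T) := by
  constructor
  · exact closure_mono hT.subset_interior_closure
  · rw [closure_closure]; exact interior_subset

/-- separation of a point from a finite set -/
theorem sep_pt [T2Space X] {F : Set X} (hF : F.Finite) {z : X} (hz : z ∉ F) :
    ∃ P : Set X, IsOpen P ∧ z ∈ P ∧ Disjoint (closure P) F := by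
  obtain ⟨U, hU, hdisj⟩ := (hF.insert z).t2_separation
  refine ⟨U z, (hU z).2, (hU z).1, ?_⟩
  rw [disjoint_left]
  intro x hx hxF
  have hne : z ≠ x := fun h => hz (h ▸ hxF)
  have h1 := hdisj (mem_insert z F) (mem_insert_of_mem z hxF) hne
  obtain ⟨y, hy1, hy2⟩ := mem_closure_iff.1 hx (U x) (hU x).2 (hU x).1
  exact disjoint_left.1 h1 hy2 hy1

theorem s1s_of_s1 [T2Space X] (h : S1 X) : S1s X := by
  classical
  intro 𝒰 h𝒰
  rcases finite_or_infinite X with hfin | hinf
  · have h1 : ∀ n, ∃ U ∈ 𝒰 n, (univ : Set X) ⊆ U := fun n => (h𝒰 n).2 univ finite_univ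
    choose U hU hU' using h1
    exact ⟨U, hU, fun x => Eventually.of_forall fun n => hU' n trivial⟩
  let z : ℕ ↪ X := Infinite.natEmbedding X
  let 𝒱 : ℕ → Set (Set X) := fun n => {V | MB V ∧ ∃ U ∈ 𝒰 n, V ⊆ U ∧ ∃ m ≥ n, z m ∉ V ∧
    ∀ j < m, z j ∈ V}
  have h𝒱 : ∀ n, OmegaS (𝒱 n) := by
    intro n
    refine ⟨fun V hV => hV.1, fun F hF => ?_⟩
    obtain ⟨m, hm, hmF⟩ : ∃ m, n ≤ m ∧ z m ∉ F := by
      have h1 : (z ⁻¹' F).Finite := hF.preimage z.injective.injOn
      obtain ⟨m, hm, hm'⟩ := ((Set.Ici_infinite n).sdiff h1).nonempty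
      exact ⟨m, hm, hm'⟩
    let F' : Set X := F ∪ z '' Iio m
    have hF' : F'.Finite := hF.union ((finite_Iio m).image _)
    have hzF' : z m ∉ F' := by
      rintro (h | ⟨j, hj, h⟩)
      · exact hmF h
      · exact absurd (z.injective h) (ne_of_lt hj)
    obtain ⟨U, hU, hFU⟩ := (h𝒰 n).2 F' hF'
    have hUMB := (h𝒰 n).1 U hU
    obtain ⟨P, hP, hzP, hPF⟩ := sep_pt hF' hzF'
    let T : Set X := interior U \ closure P
    have hT : IsOpen T := isOpen_interior.sdiff isClosed_closure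
    have hFT : F' ⊆ closure T := by
      intro x hx
      have h1 : x ∈ closure (interior U) := hUMB.1 (hFU hx)
      have h2 : x ∉ closure P := fun h => disjoint_left.1 hPF h hx
      rw [mem_closure_iff] at h1 ⊢
      intro O hO hxO
      obtain ⟨y, ⟨hy1, hy2⟩, hy3⟩ := h1 (O \ closure P) (hO.sdiff isClosed_closure) ⟨hxO, h2⟩
      exact ⟨y, hy1, hy3, hy2⟩
    refine ⟨interior (closure T) ∪ F', ⟨mb_open hT hFT, U, hU, ?_, m, hm, ?_, fun j hj => ?_⟩, ?_⟩
    · refine union_subset ?_ hFU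
      exact (interior_mono (closure_mono (sdiff_subset.trans interior_subset))).trans hUMB.2
    · rintro (h | h)
      · have h1 : z m ∈ closure T := interior_subset h
        obtain ⟨y, hy1, hy2⟩ := mem_closure_iff.1 h1 P hP hzP
        exact hy2.2 (subset_closure hy1)
      · exact hzF' h
    · exact Or.inr (Or.inr ⟨j, hj, rfl⟩)
    · exact subset_union_left.trans subset_union_right
  obtain ⟨V, hV, -, -, hfin⟩ := h 𝒱 h𝒱
  have h2 := fun n => (hV n).2
  choose U hU hVU m hm hzm hzj using h2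
  refine ⟨U, hU, fun x => ?_⟩
  have h3 : ∀ᶠ n in atTop, x ∈ V n := by
    rw [← Nat.cofinite_eq_atTop, eventually_cofinite]
    have h4 : {n | x ∉ V n} ⊆ ⋃ S ∈ {S ∈ range V | x ∉ S}, {n | V n = S} := by
      intro n hn
      exact mem_iUnion₂.2 ⟨V n, ⟨⟨n, rfl⟩, hn⟩, rfl⟩
    refine ((hfin x).biUnion fun S hS => ?_).subset h4
    obtain ⟨⟨n₀, rfl⟩, -⟩ := hS
    refine (finite_Iic (m n₀)).subset fun n hn => ?_
    have hn' : V n = V n₀ := hn
    have h5 : m n = m n₀ := by
      rcases lt_trichotomy (m n) (m n₀) with h | h | h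
      · exact absurd (hn' ▸ hzj n₀ _ h) (hzm n)
      · exact h
      · exact absurd (hn'.symm ▸ hzj n _ h) (hzm n₀)
    show n ≤ m n₀
    rw [← h5]; exact hm n
  filter_upwards [h3] with n hn
  exact hVU n hn

theorem countable_nowhere [T2Space X] (hW : OpenWhyburn X) (h : S1s X) {N : Set X}
    (hN : IsClosed N) (hN' : interior N = ∅) : N.Countable := by
  classical
  have h1 : ∀ x : X, ∃ B : Set X, IsOpen B ∧ x ∈ closure B ∧ closure B ∩ N ⊆ {x} := by
    intro x
    by_cases hx : IsOpen ({x} : Set X)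
    · exact ⟨{x}, hx, subset_closure rfl, by rw [closure_singleton]; exact inter_subset_left⟩
    · let A : Set X := (N ∪ {x})ᶜ
      have hA : IsOpen A := (hN.union isClosed_singleton).isOpen_compl
      have hxA : x ∉ A := fun h => h (Or.inr rfl)
      have hxcl : x ∈ closure A := by
        rw [mem_closure_iff]
        intro O hO hxO
        by_contra hne
        rw [not_nonempty_iff_eq_empty] at hne
        have h2 : O \ N ⊆ {x} := by
          intro y hy
          by_contra hyx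
          have : y ∈ O ∩ A := ⟨hy.1, fun h => h.elim hy.2 hyx⟩
          rw [hne] at this
          exact this
        have h3 : (O \ N).Nonempty := by
          by_contra h4
          rw [not_nonempty_iff_eq_empty, sdiff_eq_empty] at h4
          have h5 : O ⊆ interior N := interior_maximal h4 hO
          rw [hN'] at h5
          exact h5 hxO
        have h4 : O \ N = {x} := by
          obtain ⟨y, hy⟩ := h3
          refine Subset.antisymm h2 ?_
          rintro _ rfl
          have := h2 hy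
          rw [mem_singleton_iff] at this
          rwa [this] at hy
        exact hx (h4 ▸ hO.sdiff hN)
      obtain ⟨B, hB, hBA, hBx⟩ := hW A hA x ⟨hxcl, hxA⟩
      have hxB : x ∈ closure B \ A := by rw [hBx]; rfl
      refine ⟨B, hB, hxB.1, fun y hy => ?_⟩
      rw [← hBx]
      exact ⟨hy.1, fun h => h (Or.inl hy.2)⟩
  choose B hB hxB hBN using h1
  let 𝒰 : Set (Set X) := {A | MB A ∧ (A ∩ N).Finite}
  have h𝒰 : OmegaS 𝒰 := by
    refine ⟨fun U hU => hU.1, fun F hF => ?_⟩
    let V : Set X := ⋃ x ∈ F, B x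
    have hV : IsOpen V := isOpen_biUnion fun x _ => hB x
    have hFV : F ⊆ closure V := fun x hx =>
      closure_mono (subset_biUnion_of_mem hx) (hxB x)
    refine ⟨interior (closure V) ∪ F, ⟨mb_open hV hFV, ?_⟩, subset_union_right⟩
    refine hF.subset ?_
    rintro x ⟨hx | hx, hxN⟩
    · have h2 : x ∈ closure V := interior_subset hx
      rw [hF.closure_biUnion] at h2
      obtain ⟨y, hy, hxy⟩ := mem_iUnion₂.1 h2
      have h3 := hBN y ⟨hxy, hxN⟩
      rw [mem_singleton_iff] at h3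
      rwa [h3]
    · exact hx
  obtain ⟨U, hU, hU'⟩ := h (fun _ => 𝒰) fun _ => h𝒰
  refine (countable_iUnion fun n => (hU n).2.countable).mono fun x hx => ?_
  obtain ⟨n, hn⟩ := (hU' x).exists
  exact mem_iUnion.2 ⟨n, hn, hx⟩

theorem frontier_countable [T2Space X] (hW : OpenWhyburn X) (h : S1s X) (O : Set X)
    (hO : IsOpen O) : (frontier O).Countable := by
  refine countable_nowhere hW h isClosed_frontier ?_
  have := interior_frontier hO.isClosed_compl
  rwa [frontier_compl] at this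

theorem disc_countable (hfr : ∀ O : Set X, IsOpen O → (frontier O).Countable) {f : X → ℝ}
    (hf : QC f) : {x | ¬ ContinuousAt f x}.Countable := by
  have h1 : {x | ¬ ContinuousAt f x} ⊆ (⋃ q : ℚ, frontier (interior (f ⁻¹' Iio (q : ℝ)))) ∪
      ⋃ q : ℚ, frontier (interior (f ⁻¹' Ioi (q : ℝ))) := by
    intro x hx
    by_contra hcon
    apply hx
    rw [ContinuousAt, Metric.tendsto_nhds]
    intro ε hε
    obtain ⟨q, hq1, hq2⟩ := exists_rat_btwn (show f x - ε < f x by linarith)
    obtain ⟨r, hr1, hr2⟩ := exists_rat_btwn (show f x < f x + ε by linarith)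
    have h2 : x ∈ interior (f ⁻¹' Iio (r : ℝ)) := by
      have h3 : x ∈ closure (interior (f ⁻¹' Iio (r : ℝ))) := qc_cl hf isOpen_Iio hr1
      by_contra h4
      exact hcon (Or.inl (mem_iUnion.2 ⟨r, h3, by rwa [interior_interior]⟩))
    have h2' : x ∈ interior (f ⁻¹' Ioi (q : ℝ)) := by
      have h3 : x ∈ closure (interior (f ⁻¹' Ioi (q : ℝ))) := qc_cl hf isOpen_Ioi hq2
      by_contra h4
      exact hcon (Or.inr (mem_iUnion.2 ⟨q, h3, by rwa [interior_interior]⟩))
    filter_upwards [isOpen_interior.mem_nhds h2, isOpen_interior.mem_nhds h2'] with y hy hy'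
    have h5 : y ∈ f ⁻¹' Iio (r : ℝ) := interior_subset hy
    have h6 : y ∈ f ⁻¹' Ioi (q : ℝ) := interior_subset hy'
    have h5' : f y < r := h5
    have h6' : (q : ℝ) < f y := h6
    rw [Real.dist_eq, abs_lt]
    constructor <;> linarith
  exact ((countable_iUnion fun q => hfr _ isOpen_interior).union
    (countable_iUnion fun q => hfr _ isOpen_interior)).mono h1

/-- two disjoint open sets at a discontinuity point -/
theorem two_sides {f : X → ℝ} (hf : QC f) {x : X} (hx : ¬ ContinuousAt f x) :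
    ∃ E₀ E₁ : Set X, IsOpen E₀ ∧ IsOpen E₁ ∧ Disjoint E₀ E₁ ∧ x ∈ closure E₀ ∧ x ∈ closure E₁ := by
  rw [ContinuousAt, Metric.tendsto_nhds] at hx
  push Not at hx
  obtain ⟨ε, hε, hx⟩ := hx
  have hV0 : IsOpen {t : ℝ | |t - f x| < ε / 2} :=
    isOpen_lt (continuous_id.sub continuous_const).abs continuous_const
  have hV1 : IsOpen {t : ℝ | ε / 2 < |t - f x|} :=
    isOpen_lt continuous_const (continuous_id.sub continuous_const).abs
  refine ⟨interior (f ⁻¹' {t : ℝ | |t - f x| < ε / 2}), interior (f ⁻¹' {t : ℝ | ε / 2 < |t - f x|}),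
    isOpen_interior, isOpen_interior, ?_, ?_, ?_⟩
  · rw [disjoint_left]
    intro y h1 h2
    have h3 : y ∈ f ⁻¹' {t : ℝ | |t - f x| < ε / 2} := interior_subset h1
    have h4 : y ∈ f ⁻¹' {t : ℝ | ε / 2 < |t - f x|} := interior_subset h2
    exact lt_asymm (show |f y - f x| < ε / 2 from h3) (show ε / 2 < |f y - f x| from h4)
  · refine qc_cl hf hV0 ?_
    show |f x - f x| < ε / 2
    rw [sub_self, abs_zero]; linarith
  · rw [mem_closure_iff]
    intro U hU hxU
    obtain ⟨y, hyU, hy⟩ : ∃ y ∈ U, ε ≤ dist (f y) (f x) := by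
      by_contra hcon
      push Not at hcon
      apply hx
      filter_upwards [hU.mem_nhds hxU] with y hy
      exact not_le.2 (hcon y hy)
    rw [Real.dist_eq] at hy
    have h1 : y ∈ closure (interior (f ⁻¹' {t : ℝ | ε / 2 < |t - f x|})) := qc_cl hf hV1 (by
      show ε / 2 < |f y - f x|
      linarith)
    exact mem_closure_iff.1 h1 U hU hyU

theorem fu_of [T2Space X] (hS : S1s X) (hfr : ∀ O : Set X, IsOpen O → (frontier O).Countable)
    (f : Qp X) : FUat f := by
  classical
  intro A hA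
  let D : Set X := {x | ¬ ContinuousAt f.1 x}
  have hD : D.Countable := disc_countable hfr f.2
  obtain ⟨c, hc⟩ := countable_iff_exists_injOn.1 hD
  have hDm : ∀ m, {x ∈ D | c x ≤ m}.Finite := by
    intro m
    refine Set.Finite.of_injOn (f := c) (t := Iic m) (fun x hx => hx.2)
      (hc.mono fun x hx => hx.1) (finite_Iic m)
  -- first step
  let 𝒱 : ℕ → Set (Set X) := fun m => {V | MB V ∧ ∃ O : Set X, IsOpen O ∧
    (∀ x ∈ D, c x ≤ m → x ∈ closure O) ∧ Disjoint V O}
  have h𝒱 : ∀ m, OmegaS (𝒱 m) := by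
    intro m
    refine ⟨fun V hV => hV.1, fun F hF => ?_⟩
    obtain ⟨N, hN, hNd⟩ := (hF.union (hDm m)).t2_separation
    have h1 : ∀ x : X, ∃ E₀ E₁ : Set X, x ∈ D → IsOpen E₀ ∧ IsOpen E₁ ∧ Disjoint E₀ E₁ ∧
        x ∈ closure E₀ ∧ x ∈ closure E₁ := by
      intro x
      by_cases hx : x ∈ D
      · obtain ⟨E₀, E₁, h⟩ := two_sides f.2 hx
        exact ⟨E₀, E₁, fun _ => h⟩
      · exact ⟨∅, ∅, fun h => (hx h).elim⟩
    choose E₀ E₁ hE using h1
    let O : Set X := ⋃ x ∈ {x ∈ D | c x ≤ m}, E₀ x ∩ N x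
    have hO : IsOpen O := isOpen_biUnion fun x hx => (hE x hx.1).1.inter (hN x).2
    refine ⟨closure (closure O)ᶜ, ⟨mb_closure isClosed_closure.isOpen_compl, O, hO, ?_, ?_⟩, ?_⟩
    · intro x hx hxm
      have h2 : x ∈ closure (E₀ x ∩ N x) := by
        have h3 := (hE x hx).2.2.2.1
        rw [mem_closure_iff] at h3 ⊢
        intro U hU hxU
        obtain ⟨y, hy1, hy2⟩ := h3 (U ∩ N x) (hU.inter (hN x).2) ⟨hxU, (hN x).1⟩
        exact ⟨y, hy1.1, hy2, hy1.2⟩
      exact closure_mono (subset_biUnion_of_mem (u := fun x => E₀ x ∩ N x) (⟨hx, hxm⟩ :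
        x ∈ {x ∈ D | c x ≤ m})) h2
    · rw [closure_compl, disjoint_left]
      intro y hy hyO
      exact hy (hO.subset_interior_closure hyO)
    · intro x hx
      by_cases hxD : x ∈ {x ∈ D | c x ≤ m}
      · have h3 := (hE x hxD.1).2.2.2.2
        rw [mem_closure_iff] at h3 ⊢
        intro U hU hxU
        obtain ⟨y, hy1, hy2⟩ := h3 (U ∩ N x) (hU.inter (hN x).2) ⟨hxU, (hN x).1⟩
        refine ⟨y, hy1.1, fun hyO => ?_⟩
        -- a neighbourhood of `y` missing `O`
        obtain ⟨w, ⟨hw1, hw2⟩, hw3⟩ := mem_closure_iff.1 hyO (E₁ x ∩ N x)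
          ((hE x hxD.1).2.1.inter (hN x).2) ⟨hy2, hy1.2⟩
        obtain ⟨x', hx', hw4, hw5⟩ := mem_iUnion₂.1 hw3
        by_cases hxx : x' = x
        · subst hxx
          exact disjoint_left.1 (hE x' hxD.1).2.2.1 hw4 hw1
        · exact disjoint_left.1 (hNd (Or.inr hx') (Or.inl hx) hxx) hw5 hw2
      · refine subset_closure fun hxO => ?_
        obtain ⟨w, hw1, hw3⟩ := mem_closure_iff.1 hxO (N x) (hN x).2 (hN x).1
        obtain ⟨x', hx', hw4, hw5⟩ := mem_iUnion₂.1 hw3
        have hxx : x' ≠ x := fun h => hxD (h ▸ hx')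
        exact disjoint_left.1 (hNd (Or.inr hx') (Or.inl hx) hxx) hw5 hw1
  obtain ⟨V, hV, hVx⟩ := hS 𝒱 h𝒱
  have h1 := fun m => (hV m).2
  choose O hO hOD hOV using h1
  have hOx : ∀ x, ∀ᶠ m in atTop, x ∉ O m := by
    intro x
    filter_upwards [hVx x] with m hm h
    exact disjoint_left.1 (hOV m) hm h
  -- second step
  let K : Set X := D ∪ ⋃ m, frontier (O m)
  have hK : K.Countable := hD.union (countable_iUnion fun m => hfr _ (hO m))
  obtain ⟨c', hc'⟩ := countable_iff_exists_injOn.1 hK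
  have hKm : ∀ m, {x ∈ K | c' x ≤ m}.Finite := by
    intro m
    refine Set.Finite.of_injOn (f := c') (t := Iic m) (fun x hx => hx.2)
      (hc'.mono fun x hx => hx.1) (finite_Iic m)
  let 𝒰 : ℕ → Set (Set X) := fun n => {U | MB U ∧ ∃ m ≥ n, ∃ g ∈ A,
    (∀ x ∈ K, c' x ≤ m → |g.1 x - f.1 x| < 1 / (m + 1 : ℝ)) ∧
    ∀ x ∈ U, x ∉ K → x ∉ O m → |g.1 x - f.1 x| ≤ 1 / (m + 1 : ℝ)}
  have hev : ∀ x : X, Continuous fun f : Qp X => f.1 x := fun x =>
    (continuous_apply x).comp continuous_subtype_val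
  have h𝒰 : ∀ n, OmegaS (𝒰 n) := by
    intro n
    refine ⟨fun V hV => hV.1, fun F hF => ?_⟩
    obtain ⟨m, hmn, hmF⟩ : ∃ m, n ≤ m ∧ ∀ x ∈ F, c x ≤ m := by
      obtain ⟨b, hb⟩ := (hF.image c).bddAbove
      exact ⟨max n b, le_max_left _ _, fun x hx => (hb ⟨x, hx, rfl⟩).trans (le_max_right _ _)⟩
    have hm0 : (0 : ℝ) < 1 / (m + 1 : ℝ) := by positivity
    have hGo : IsOpen (⋂ x ∈ (hF.union (hKm m)).toFinset,
        {g : Qp X | |g.1 x - f.1 x| < 1 / (m + 1 : ℝ)}) :=
      isOpen_biInter_finset fun x _ => isOpen_lt ((hev x).sub continuous_const).abs continuous_const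
    obtain ⟨g, hg1, hgA⟩ := mem_closure_iff.1 hA _ hGo (mem_iInter₂.2 fun x _ => by
      show |f.1 x - f.1 x| < 1 / (m + 1 : ℝ)
      rw [sub_self, abs_zero]; exact hm0)
    have hg : ∀ x ∈ F ∪ {x ∈ K | c' x ≤ m}, |g.1 x - f.1 x| < 1 / (m + 1 : ℝ) := fun x hx =>
      mem_iInter₂.1 hg1 x ((hF.union (hKm m)).mem_toFinset.2 hx)
    let R : Set X := interior {x | |g.1 x - f.1 x| < 1 / (m + 1 : ℝ)}
    let T : Set X := R ∪ O m
    have hT : IsOpen T := isOpen_interior.union (hO m)
    -- local behaviour at continuity points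
    have hloc : ∀ x, ContinuousAt f.1 x → ∀ U : Set X, IsOpen U → x ∈ U → ∀ δ : ℝ, 0 < δ →
        ∃ S : Set X, IsOpen S ∧ S.Nonempty ∧ S ⊆ U ∧
          ∀ y ∈ S, |(g.1 y - f.1 y) - (g.1 x - f.1 x)| < δ := by
      intro x hx U hU hxU δ hδ
      have h2 : {y | |f.1 y - f.1 x| < δ / 2} ∈ 𝓝 x := by
        have := Metric.tendsto_nhds.1 hx (δ / 2) (by linarith)
        filter_upwards [this] with y hy
        rwa [Real.dist_eq] at hy
      obtain ⟨U', hU'1, hU'2, hxU'⟩ := mem_nhds_iff.1 h2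
      have hVo : IsOpen {t : ℝ | |t - g.1 x| < δ / 2} :=
        isOpen_lt (continuous_id.sub continuous_const).abs continuous_const
      obtain ⟨S, hS, hSne, hSU, hSV⟩ := g.2 x (U ∩ U') (hU.inter hU'2) ⟨hxU, hxU'⟩ _ hVo (by
        show |g.1 x - g.1 x| < δ / 2
        rw [sub_self, abs_zero]; linarith)
      refine ⟨S, hS, hSne, hSU.trans inter_subset_left, fun y hy => ?_⟩
      have h3 : |g.1 y - g.1 x| < δ / 2 := hSV ⟨y, hy, rfl⟩
      have h4 : |f.1 y - f.1 x| < δ / 2 := hU'1 (hSU hy).2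
      rw [abs_lt] at h3 h4 ⊢
      constructor <;> linarith [h3.1, h3.2, h4.1, h4.2]
    have hFT : F ⊆ closure T := by
      intro x hx
      by_cases hxD : x ∈ D
      · exact closure_mono subset_union_right (hOD m x hxD (hmF x hx))
      · have hxc : ContinuousAt f.1 x := not_not.1 hxD
        refine closure_mono subset_union_left ?_
        rw [mem_closure_iff]
        intro U hU hxU
        have h2 := hg x (Or.inl hx)
        obtain ⟨S, hS, ⟨y, hy⟩, hSU, hSg⟩ := hloc x hxc U hU hxU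
          (1 / (m + 1 : ℝ) - |g.1 x - f.1 x|) (by linarith)
        refine ⟨y, hSU hy, mem_interior.2 ⟨S, fun w hw => ?_, hS, hy⟩⟩
        have h3 := hSg w hw
        show |g.1 w - f.1 w| < 1 / (m + 1 : ℝ)
        have h4 := abs_sub_abs_le_abs_sub (g.1 w - f.1 w) (g.1 x - f.1 x)
        linarith
    refine ⟨interior (closure T) ∪ F, ⟨mb_open hT hFT, m, hmn, g, hgA,
      fun x hx hxm => hg x (Or.inr ⟨hx, hxm⟩), ?_⟩, subset_union_right⟩
    rintro x (hx | hx) hxK hxO
    · by_contra hcon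
      push Not at hcon
      have hxc : ContinuousAt f.1 x := not_not.1 fun h => hxK (Or.inl h)
      have hxO' : x ∉ closure (O m) := by
        intro h
        refine hxK (Or.inr (mem_iUnion.2 ⟨m, h, ?_⟩))
        rwa [(hO m).interior_eq]
      obtain ⟨S, hS, ⟨y, hy⟩, hSU, hSg⟩ := hloc x hxc (interior (closure T) \ closure (O m))
        (isOpen_interior.sdiff isClosed_closure) ⟨hx, hxO'⟩
        (|g.1 x - f.1 x| - 1 / (m + 1 : ℝ)) (by linarith)
      obtain ⟨w, hwS, hwT⟩ := mem_closure_iff.1 (interior_subset (hSU hy).1) S hS hy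
      rcases hwT with hwR | hwO
      · have h3 := hSg w hwS
        have h4 : w ∈ {x | |g.1 x - f.1 x| < 1 / (m + 1 : ℝ)} := interior_subset hwR
        have h4' : |g.1 w - f.1 w| < 1 / (m + 1 : ℝ) := h4
        have h5 := abs_sub_abs_le_abs_sub (g.1 x - f.1 x) (g.1 w - f.1 w)
        rw [abs_sub_comm] at h3
        linarith
      · exact (hSU hwS).2 (subset_closure hwO)
    · exact (hg x (Or.inl hx)).le
  obtain ⟨U, hU, hUx⟩ := hS 𝒰 h𝒰
  have h2 := fun n => (hU n).2
  choose m hm g hgA hgK hgU using h2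
  refine ⟨g, hgA, ?_⟩
  rw [show Tendsto g atTop (𝓝 f) ↔ Tendsto (fun n => (g n).1) atTop (𝓝 f.1) from
    tendsto_subtype_rng, tendsto_pi_nhds]
  intro x
  rw [Metric.tendsto_nhds]
  intro ε hε
  obtain ⟨M, hM⟩ := exists_nat_one_div_lt hε
  have hle : ∀ n ≥ M, 1 / ((m n : ℝ) + 1) < ε := by
    intro n hn
    refine lt_of_le_of_lt ?_ hM
    have h4 : (M : ℝ) ≤ m n := by exact_mod_cast hn.trans (hm n)
    exact one_div_le_one_div_of_le (by positivity) (by linarith)
  by_cases hxK : x ∈ K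
  · filter_upwards [eventually_ge_atTop M, eventually_ge_atTop (c' x)] with n hn hn'
    rw [Real.dist_eq]
    exact (hgK n x hxK (hn'.trans (hm n))).trans (hle n hn)
  · have h3 : ∀ᶠ n in atTop, x ∉ O (m n) := by
      have h4 : Tendsto m atTop atTop := tendsto_atTop_mono hm tendsto_id
      exact h4.eventually (hOx x)
    filter_upwards [eventually_ge_atTop M, hUx x, h3] with n hn hn1 hn2
    rw [Real.dist_eq]
    exact (hgU n x hn1 hxK hn2).trans_lt (hle n hn)

theorem main [T2Space X] (hW : OpenWhyburn X) (hS : S1 X) (f : Qp X) : FUat f :=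
  fu_of (s1s_of_s1 hS) (frontier_countable hW (s1s_of_s1 hS)) f

end Pool.Agent.X200.QpWhy
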