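import Mathlib
import Pool.Agent.X200.Luzin
import Pool.Agent.X200.QpWhy

/-!
Under diamond there is an uncountable first countable regular open Whyburn space `X` whose space of
quasicontinuous functions is Frechet-Urysohn.
-/

set_option autoImplicit false

namespace Pool.Agent.X200.FullSus

open Set Topology Filter Pool.Agent.Helper330.DPK.Coh Pool.Agent.X200.QpLusin Pool.Agent.X200.QpWhy

/-- closed unbounded subsets of `ω₁` -/
def IsClubSet (C : Set W) : Prop :=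
  (∀ a, ∃ b, a < b ∧ b ∈ C) ∧
    ∀ a, (∃ b, b < a) → (∀ b, b < a → ∃ c, (b < c ∧ c < a) ∧ c ∈ C) → a ∈ C

/-- Jensen's principle -/
def Diamond : Prop :=
  ∃ A : W → Set W, ∀ S C : Set W, IsClubSet C → ∃ a ∈ C, ∀ b < a, (b ∈ S ↔ b ∈ A a)

theorem mk_W : Cardinal.mk W = Cardinal.aleph 1 := by simp

theorem uncountable_W : ¬ (univ : Set W).Countable := by
  intro h
  rw [Set.countable_univ_iff, ← Cardinal.mk_le_aleph0_iff, mk_W] at h
  exact absurd h (not_le.2 Cardinal.aleph0_lt_aleph_one)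

theorem exists_ub {S : Set W} (hS : S.Countable) : ∃ b, ∀ a ∈ S, a < b := by
  by_contra hc
  push Not at hc
  have h1 : (univ : Set W) ⊆ ⋃ a ∈ S, Iic a := fun b _ => by
    obtain ⟨a, ha, hb⟩ := hc b
    exact mem_iUnion₂.2 ⟨a, ha, hb⟩
  exact uncountable_W ((hS.biUnion fun a _ => countable_Iic a).mono h1)

theorem exists_lub (f : ℕ → W) : ∃ b, (∀ n, f n < b) ∧ ∀ c < b, ∃ n, c ≤ f n := by
  have hne : {a | ∀ n, f n < a}.Nonempty := by
    obtain ⟨b, hb⟩ := exists_ub (countable_range f)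
    exact ⟨b, fun n => hb _ ⟨n, rfl⟩⟩
  refine ⟨(wellFounded_lt (α := W)).min _ hne, (wellFounded_lt (α := W)).min_mem _ hne,
    fun c hc => ?_⟩
  by_contra hcon
  push Not at hcon
  exact (wellFounded_lt (α := W)).not_lt_min (s := {a | ∀ n, f n < a}) hcon hc

/-- the closure points of a function form a closed unbounded set -/
theorem club_closure (G : W → W) : IsClubSet {α | (∃ β, β < α) ∧ ∀ β < α, G β < α} := by
  refine ⟨fun a => ?_, fun a ha h => ⟨ha, fun β hβ => ?_⟩⟩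
  · have h1 : ∀ β : W, ∃ γ, β < γ ∧ ∀ δ ≤ β, G δ < γ := by
      intro β
      obtain ⟨b, hb⟩ := exists_ub (((countable_Iic β).image G).union (countable_singleton β))
      exact ⟨b, hb _ (Or.inr rfl), fun δ hδ => hb _ (Or.inl ⟨δ, hδ, rfl⟩)⟩
    choose H hH1 hH2 using h1
    let s : ℕ → W := fun n => H^[n] a
    have hs : ∀ n, s (n + 1) = H (s n) := fun n => Function.iterate_succ_apply' H n a
    obtain ⟨b, hb1, hb2⟩ := exists_lub s
    refine ⟨b, hb1 0, ⟨s 0, hb1 0⟩, fun β hβ => ?_⟩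
    obtain ⟨n, hn⟩ := hb2 β hβ
    refine (hH2 (s n) β hn).trans ?_
    rw [← hs n]
    exact hb1 (n + 1)
  · obtain ⟨c, ⟨h1, h2⟩, h3⟩ := h β hβ
    exact (h3.2 β h1).trans h2

/-- nodes -/
structure Nd where
  lv : W
  ix : ℕ

theorem Nd.ext' {s t : Nd} (h1 : s.lv = t.lv) (h2 : s.ix = t.ix) : s = t := by
  cases s; cases t; cases h1; cases h2; rfl

/-- coding of nodes -/
def eNd : Nd ≃ W × ℕ := ⟨fun t => (t.lv, t.ix), fun p => ⟨p.1, p.2⟩, fun _ => rfl, fun _ => rfl⟩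

theorem countable_nd {S : Set W} (hS : S.Countable) : {t : Nd | t.lv ∈ S}.Countable := by
  have h1 : (eNd ⁻¹' (S ×ˢ (univ : Set ℕ))).Countable :=
    (hS.prod countable_univ).preimage eNd.injective
  refine h1.mono ?_
  intro t ht
  exact ⟨ht, trivial⟩

theorem countable_fin {S : Set W} (hS : S.Countable) :
    {p : Finset Nd | ∀ t ∈ p, t.lv ∈ S}.Countable := by
  have h1 := Set.countable_ofPred_finite_subset (countable_nd hS)
  have h2 : ((fun p : Finset Nd => (p : Set Nd)) ⁻¹'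
      {t | t.Finite ∧ t ⊆ {t : Nd | t.lv ∈ S}}).Countable :=
    h1.preimage Finset.coe_injective
  refine h2.mono ?_
  intro p hp
  exact ⟨p.finite_toSet, fun t ht => hp t ht⟩

theorem exists_code : ∃ e : Finset Nd → W, Function.Injective e := by
  have h0 : Infinite W := by
    rw [Cardinal.infinite_iff, mk_W]; exact Cardinal.aleph0_le_aleph 1
  have h1 : Cardinal.mk Nd = Cardinal.aleph 1 := by
    rw [Cardinal.mk_congr eNd, Cardinal.mk_prod, Cardinal.lift_id, Cardinal.lift_id, mk_W,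
      Cardinal.mk_nat, Cardinal.mul_eq_left (Cardinal.aleph0_le_aleph 1)
        (Cardinal.aleph0_le_aleph 1) Cardinal.aleph0_ne_zero]
  have h2 : Infinite Nd := by
    rw [Cardinal.infinite_iff, h1]; exact Cardinal.aleph0_le_aleph 1
  have h3 : Cardinal.mk (Finset Nd) ≤ Cardinal.mk W := by
    rw [Cardinal.mk_finset_of_infinite, h1, mk_W]
  obtain ⟨g⟩ := Cardinal.le_def _ _ |>.1 h3
  exact ⟨g, g.injective⟩

theorem max_level {α : W} (hα : ∃ β, β < α) (p : Finset Nd) (hp : ∀ t ∈ p, t.lv < α) :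
    ∃ β < α, ∀ t ∈ p, t.lv ≤ β := by
  classical
  induction p using Finset.induction_on with
  | empty => obtain ⟨β, hβ⟩ := hα; exact ⟨β, hβ, by simp⟩
  | insert a s ha ih =>
    obtain ⟨β, hβ, h⟩ := ih fun t ht => hp t (Finset.mem_insert_of_mem ht)
    refine ⟨max β a.lv, max_lt hβ (hp a (Finset.mem_insert_self _ _)), fun t ht => ?_⟩
    rcases Finset.mem_insert.1 ht with rfl | ht
    · exact le_max_right _ _
    · exact (h t ht).trans (le_max_left _ _)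

/-- diamond for sets of finite sets of nodes -/
theorem diamond_fin (hD : Diamond) : ∃ 𝒜 : W → Set (Finset Nd), ∀ (S : Set (Finset Nd))
    (F : W → W), ∃ α, (∃ β, β < α) ∧ (∀ β < α, F β < α) ∧
      ∀ p : Finset Nd, (∀ t ∈ p, t.lv < α) → (p ∈ S ↔ p ∈ 𝒜 α) := by
  obtain ⟨A, hA⟩ := hD
  obtain ⟨e, he⟩ := exists_code
  refine ⟨fun α => {p | e p ∈ A α}, fun S F => ?_⟩
  have h1 : ∀ β : W, ∃ γ, F β < γ ∧ ∀ p : Finset Nd, (∀ t ∈ p, t.lv ≤ β) → e p < γ := by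
    intro β
    obtain ⟨γ, hγ⟩ := exists_ub (((countable_fin (countable_Iic β)).image e).union
      (countable_singleton (F β)))
    exact ⟨γ, hγ _ (Or.inr rfl), fun p hp => hγ _ (Or.inl ⟨p, hp, rfl⟩)⟩
  choose G hG1 hG2 using h1
  obtain ⟨α, ⟨hα1, hα2⟩, hα3⟩ := hA (e '' S) _ (club_closure G)
  refine ⟨α, hα1, fun β hβ => (hG1 β).trans (hα2 β hβ), fun p hp => ?_⟩
  obtain ⟨β, hβ, hβp⟩ := max_level hα1 p hp
  rw [mem_ofPred_eq, ← hα3 (e p) ((hG2 β p hβp).trans (hα2 _ hβ))]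
  exact (he.mem_set_image).symm

/-! ### trees -/

/-- the index of the predecessor -/
noncomputable def pr (D : W → W → ℕ → ℕ) (α β : W) (n : ℕ) : ℕ := open Classical in if β < α then D α β n else n

/-- the order of the tree -/
def le (D : W → W → ℕ → ℕ) (s t : Nd) : Prop := s.lv ≤ t.lv ∧ pr D t.lv s.lv t.ix = s.ix

theorem pr_self (D : W → W → ℕ → ℕ) (α : W) (n : ℕ) : pr D α α n = n := by
  simp [pr]

theorem pr_lt (D : W → W → ℕ → ℕ) {α β : W} (h : β < α) (n : ℕ) : pr D α β n = D α β n := by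
  simp [pr, h]

/-- coherence below `α` -/
def CohB (D : W → W → ℕ → ℕ) (α : W) : Prop :=
  ∀ β < α, ∀ γ < β, ∀ δ < γ, ∀ n, D γ δ (D β γ n) = D β δ n

theorem pr_pr {D : W → W → ℕ → ℕ} {α : W} (hc : CohB D α) {β γ δ : W} (hβ : β < α) (hγ : γ ≤ β)
    (hδ : δ ≤ γ) (n : ℕ) : pr D γ δ (pr D β γ n) = pr D β δ n := by
  rcases hγ.eq_or_lt with rfl | hγ'
  · rw [pr_self]
  rcases hδ.eq_or_lt with rfl | hδ'
  · rw [pr_self]
  rw [pr_lt D hγ', pr_lt D hδ', pr_lt D (hδ'.trans hγ'), hc β hβ γ hγ' δ hδ']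

theorem le_rfl' (D : W → W → ℕ → ℕ) (t : Nd) : le D t t := ⟨le_rfl, pr_self D _ _⟩

theorem le_tr {D : W → W → ℕ → ℕ} {α : W} (hc : CohB D α) {s t u : Nd} (hu : u.lv < α)
    (h1 : le D s t) (h2 : le D t u) : le D s u :=
  ⟨h1.1.trans h2.1, by rw [← pr_pr hc hu h2.1 h1.1, h2.2, h1.2]⟩

/-- density below `α` -/
def DenseB (D : W → W → ℕ → ℕ) (α : W) (E : Set (Finset Nd)) : Prop :=
  ∀ F : Finset Nd, (∀ t ∈ F, t.lv < α) → ∃ F' ∈ E, (∀ t ∈ F', t.lv < α) ∧
    ∀ t ∈ F, ∃ t' ∈ F', le D t t'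

/-- the requirements on the level `α` -/
def Req (𝒜 : W → Set (Finset Nd)) (D : W → W → ℕ → ℕ) (α : W) (h : W → ℕ → ℕ) : Prop :=
  (∀ β < α, ∀ γ < β, ∀ n, D β γ (h β n) = h γ n) ∧ (∀ β < α, ∀ m, {n | h β n = m}.Infinite) ∧
    ((∃ β, β < α) → DenseB D α (𝒜 α) → ∀ S : Finset ℕ, ∃ F' ∈ 𝒜 α, (∀ t ∈ F', t.lv < α) ∧
      ∀ n ∈ S, ∃ t' ∈ F', h t'.lv n = t'.ix)

theorem le_congr {D D' : W → W → ℕ → ℕ} {α : W} (h : ∀ β < α, D β = D' β) {s t : Nd}
    (ht : t.lv < α) (hle : le D s t) : le D' s t :=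
  ⟨hle.1, by rw [← hle.2, pr, pr, h _ ht]⟩

theorem DenseB.congr {D D' : W → W → ℕ → ℕ} {α : W} (h : ∀ β < α, D β = D' β)
    {E : Set (Finset Nd)} (hd : DenseB D α E) : DenseB D' α E := by
  intro F hF
  obtain ⟨F', h1, h2, h3⟩ := hd F hF
  refine ⟨F', h1, h2, fun t ht => ?_⟩
  obtain ⟨t', ht', h4⟩ := h3 t ht
  exact ⟨t', ht', le_congr h (h2 t' ht') h4⟩

theorem Req.congr {𝒜 : W → Set (Finset Nd)} {D D' : W → W → ℕ → ℕ} {α : W}
    (h : ∀ β < α, D β = D' β) {g : W → ℕ → ℕ} (hr : Req 𝒜 D α g) : Req 𝒜 D' α g := by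
  refine ⟨fun β hβ γ hγ n => ?_, hr.2.1, fun hα hD => ?_⟩
  · rw [← h β hβ]; exact hr.1 β hβ γ hγ n
  · exact hr.2.2 hα (hD.congr fun β hβ => (h β hβ).symm)

theorem exists_req (𝒜 : W → Set (Finset Nd)) {D : W → W → ℕ → ℕ} {α : W}
    (hr : ∀ β < α, Req 𝒜 D β (D β)) : ∃ h, Req 𝒜 D α h := by
  classical
  by_cases hα : ∃ β, β < α
  swap
  · exact ⟨fun _ _ => 0, fun β hβ => absurd ⟨β, hβ⟩ hα, fun β hβ => absurd ⟨β, hβ⟩ hα,
      fun h => absurd h hα⟩
  have hc : CohB D α := fun β hβ γ hγ δ hδ n => (hr β hβ).1 γ hγ δ hδ n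
  let N : Type := {t : Nd // t.lv < α}
  have hNc : Countable N := (countable_nd (countable_Iio α)).to_subtype
  have hNne : Nonempty N := by
    obtain ⟨β, hβ⟩ := hα
    exact ⟨⟨⟨β, 0⟩, hβ⟩⟩
  obtain ⟨e, he⟩ := exists_surjective_nat N
  have hWc : Countable {β // β < α} := (countable_Iio α).to_subtype
  -- tasks
  let Task : Type := ({β // β < α} × ℕ) ⊕ Finset ℕ
  have hTne : Nonempty Task := ⟨Sum.inr ∅⟩
  obtain ⟨τ, hτ⟩ := exists_surjective_nat Task
  let Sat : Task → (ℕ → N) → Prop := fun a q => Sum.elim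
    (fun b => b.1.1 ≤ (q b.2).1.lv)
    (fun S => DenseB D α (𝒜 α) → ∃ F' ∈ 𝒜 α, (∀ t ∈ F', t.lv < α) ∧
      ∀ n ∈ S, ∃ t' ∈ F', le D t' (q n).1) a
  have hstep : ∀ (a : Task) (p : ℕ → N), ∃ q : ℕ → N, (∀ n, le D (p n).1 (q n).1) ∧ Sat a q := by
    rintro (⟨⟨β, hβ⟩, n⟩ | S) p
    · rcases le_or_gt β (p n).1.lv with h | h
      · exact ⟨p, fun n => le_rfl' D _, h⟩
      · obtain ⟨k, hk⟩ := ((hr β hβ).2.1 (p n).1.lv h (p n).1.ix).nonempty
        refine ⟨Function.update p n ⟨⟨β, k⟩, hβ⟩, fun m => ?_, ?_⟩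
        · by_cases hm : m = n
          · subst hm
            rw [Function.update_self]
            exact ⟨h.le, by rw [pr_lt D h]; exact hk⟩
          · rw [Function.update_of_ne hm]
            exact le_rfl' D _
        · show β ≤ (Function.update p n _ n).1.lv
          rw [Function.update_self]
    · by_cases hd : DenseB D α (𝒜 α)
      swap
      · exact ⟨p, fun n => le_rfl' D _, fun h => absurd h hd⟩
      obtain ⟨F', hF', hF1, hF2⟩ := hd (S.image fun n => (p n).1) (by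
        intro t ht
        obtain ⟨n, -, rfl⟩ := Finset.mem_image.1 ht
        exact (p n).2)
      have h3 : ∀ n, ∃ q : N, le D (p n).1 q.1 ∧ (n ∈ S → q.1 ∈ F') := by
        intro n
        by_cases hn : n ∈ S
        · obtain ⟨t', ht', h4⟩ := hF2 (p n).1 (Finset.mem_image.2 ⟨n, hn, rfl⟩)
          exact ⟨⟨t', hF1 t' ht'⟩, h4, fun _ => ht'⟩
        · exact ⟨p n, le_rfl' D _, fun h => absurd h hn⟩
      choose q hq1 hq2 using h3
      exact ⟨q, hq1, fun _ => ⟨F', hF', hF1, fun n hn => ⟨(q n).1, hq2 n hn, le_rfl' D _⟩⟩⟩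
  choose Q hQ1 hQ2 using hstep
  let p : ℕ → ℕ → N := fun s => Nat.rec (fun n => e (Nat.unpair n).1) (fun s q => Q (τ s) q) s
  have hp : ∀ s, p (s + 1) = Q (τ s) (p s) := fun s => rfl
  have hmono1 : ∀ s n, le D (p s n).1 (p (s + 1) n).1 := by
    intro s n; rw [hp]; exact hQ1 _ _ n
  have hmono : ∀ s t, s ≤ t → ∀ n, le D (p s n).1 (p t n).1 := by
    intro s t hst n
    induction t, hst using Nat.le_induction with
    | base => exact le_rfl' D _
    | succ t _ ih => exact le_tr hc (p (t + 1) n).2 ih (hmono1 t n)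
  have hlev : ∀ β, β < α → ∀ n, ∃ s, β ≤ (p s n).1.lv := by
    intro β hβ n
    obtain ⟨s, hs⟩ := hτ (Sum.inl (⟨β, hβ⟩, n))
    refine ⟨s + 1, ?_⟩
    have := hQ2 (τ s) (p s)
    rw [← hp, hs] at this
    exact this
  let st : W → ℕ → ℕ := fun β n => if h : ∃ s, β ≤ (p s n).1.lv then h.choose else 0
  have hst : ∀ β, β < α → ∀ n, β ≤ (p (st β n) n).1.lv := by
    intro β hβ n
    have h1 := hlev β hβ n
    simp only [st, dif_pos h1]
    exact h1.choose_spec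
  let h : W → ℕ → ℕ := fun β n => pr D (p (st β n) n).1.lv β (p (st β n) n).1.ix
  have key0 : ∀ s t, s ≤ t → ∀ n β, β ≤ (p s n).1.lv →
      pr D (p t n).1.lv β (p t n).1.ix = pr D (p s n).1.lv β (p s n).1.ix := by
    intro s t hst' n β hβ
    obtain ⟨h1, h2⟩ := hmono s t hst' n
    rw [← pr_pr hc (p t n).2 h1 hβ, h2]
  have key : ∀ β, β < α → ∀ n s, β ≤ (p s n).1.lv →
      pr D (p s n).1.lv β (p s n).1.ix = h β n := by
    intro β hβ n s hs
    rcases le_total s (st β n) with h1 | h1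
    · exact (key0 _ _ h1 n β hs).symm
    · exact key0 _ _ h1 n β (hst β hβ n)
  refine ⟨h, ?_, ?_, ?_⟩
  · intro β hβ γ hγ n
    have h1 := hst β hβ n
    rw [← key β hβ n _ h1, ← key γ (hγ.trans hβ) n _ (hγ.le.trans h1), ← pr_lt D hγ]
    exact pr_pr hc (p _ n).2 h1 hγ.le _
  · intro β hβ m
    obtain ⟨k, hk⟩ := he ⟨⟨β, m⟩, hβ⟩
    have h1 : range (fun j => Nat.pair k j) ⊆ {n | h β n = m} := by
      rintro _ ⟨j, rfl⟩
      have h2 : (p 0 (Nat.pair k j)).1 = ⟨β, m⟩ := by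
        show (e (Nat.unpair (Nat.pair k j)).1).1 = _
        rw [Nat.unpair_pair, hk]
      have h3 := key β hβ (Nat.pair k j) 0 (by rw [h2])
      show h β (Nat.pair k j) = m
      rw [← h3, h2, pr_self]
    refine Set.Infinite.mono h1 (Set.infinite_range_of_injective ?_)
    intro a b hab
    have := congrArg (fun x => (Nat.unpair x).2) hab
    simpa using this
  · intro _ hd S
    obtain ⟨s, hs⟩ := hτ (Sum.inr S)
    have h1 := hQ2 (τ s) (p s)
    rw [← hp, hs] at h1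
    obtain ⟨F', hF', hF1, hF2⟩ := h1 hd
    refine ⟨F', hF', hF1, fun n hn => ?_⟩
    obtain ⟨t', ht', h2, h3⟩ := hF2 n hn
    exact ⟨t', ht', by rw [← h3]; exact (key _ (hF1 t' ht') n (s + 1) h2).symm⟩

theorem exists_rec' {V : Type} [Inhabited V] (R : (W → V) → W → V → Prop)
    (hc : ∀ f f' α v, (∀ β < α, f β = f' β) → R f α v → R f' α v)
    (he : ∀ f α, (∀ β < α, R f β (f β)) → ∃ v, R f α v) : ∃ f : W → V, ∀ α, R f α (f α) := by
  classical
  obtain ⟨y, hy⟩ := Pool.Agent.X200.Luzin.exists_rec (W := W) (D := V) (fun α g x =>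
    (∀ β < α, R (fun β => if h : β < α then g β h else default) β
      (if h : β < α then g β h else default)) →
    R (fun β => if h : β < α then g β h else default) α x) (by
      intro α g
      by_cases h1 : ∀ β < α, R (fun β => if h : β < α then g β h else default) β
          (if h : β < α then g β h else default)
      · obtain ⟨v, hv⟩ := he _ α h1
        exact ⟨v, fun _ => hv⟩
      · exact ⟨default, fun h => absurd h h1⟩)
  refine ⟨y, fun α => ?_⟩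
  induction α using (wellFounded_lt (α := W)).induction with
  | h α ih =>
    refine hc _ y α _ (fun β hβ => dif_pos hβ) (hy α fun β hβ => ?_)
    rw [dif_pos hβ]
    exact hc y _ β _ (fun γ hγ => by rw [dif_pos (hγ.trans hβ)]) (ih β hβ)

/-- trees of height `ω₁` with infinite branching -/
structure Good (D : W → W → ℕ → ℕ) : Prop where
  coh : ∀ α, ∀ β < α, ∀ γ < β, ∀ n, D β γ (D α β n) = D α γ n
  inf : ∀ α, ∀ β < α, ∀ m, {n | D α β n = m}.Infinite

/-- full Suslin trees -/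
def Full (D : W → W → ℕ → ℕ) : Prop :=
  ∀ E : Set (Finset Nd), (∀ F : Finset Nd, ∃ F' ∈ E, ∀ t ∈ F, ∃ t' ∈ F', le D t t') →
    ∃ α, ∀ S : Finset ℕ, ∃ F' ∈ E, ∀ n ∈ S, ∃ t' ∈ F', le D t' ⟨α, n⟩

theorem exists_full (hD : Diamond) : ∃ D : W → W → ℕ → ℕ, Good D ∧ Full D := by
  obtain ⟨𝒜, h𝒜⟩ := diamond_fin hD
  obtain ⟨D, hr⟩ := exists_rec' (V := W → ℕ → ℕ) (fun D α h => Req 𝒜 D α h)
    (fun D D' α v h1 h2 => h2.congr h1) (fun D α h => exists_req 𝒜 h)
  refine ⟨D, ⟨fun α => (hr α).1, fun α => (hr α).2.1⟩, fun E hE => ?_⟩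
  choose φ hφ1 hφ2 using hE
  have h1 : ∀ β : W, ∃ γ, ∀ p : Finset Nd, (∀ t ∈ p, t.lv ≤ β) → ∀ t ∈ φ p, t.lv < γ := by
    intro β
    have h2 : (⋃ p ∈ {p : Finset Nd | ∀ t ∈ p, t.lv ∈ Iic β},
        ((φ p : Set Nd).image fun t => t.lv)).Countable :=
      (countable_fin (countable_Iic β)).biUnion fun p _ => ((φ p).countable_toSet.image _)
    obtain ⟨γ, hγ⟩ := exists_ub h2
    exact ⟨γ, fun p hp t ht => hγ _ (mem_iUnion₂.2 ⟨p, hp, t, ht, rfl⟩)⟩
  choose G hG using h1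
  obtain ⟨α, hα1, hα2, hα3⟩ := h𝒜 E G
  have hdense : DenseB D α (𝒜 α) := by
    intro F hF
    obtain ⟨β, hβ, hβF⟩ := max_level hα1 F hF
    have h2 : ∀ t ∈ φ F, t.lv < α := fun t ht => (hG β F hβF t ht).trans (hα2 β hβ)
    exact ⟨φ F, (hα3 _ h2).1 (hφ1 F), h2, hφ2 F⟩
  refine ⟨α, fun S => ?_⟩
  obtain ⟨F', h1, h2, h3⟩ := (hr α).2.2 hα1 hdense S
  refine ⟨F', (hα3 _ h2).2 h1, fun n hn => ?_⟩
  obtain ⟨t', ht', h4⟩ := h3 n hn
  exact ⟨t', ht', (h2 t' ht').le, by rw [pr_lt D (h2 t' ht')]; exact h4⟩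

end Pool.Agent.X200.FullSus
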