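import Mathlib
import Pool.Agent.X200.FullSus

/-!
The fan topology on a full Suslin tree.
-/

set_option autoImplicit false

namespace Pool.Agent.X200.FullSus

open Set Topology TopologicalSpace Filter Pool.Agent.Helper330.DPK.Coh Pool.Agent.X200.QpLusin Pool.Agent.X200.QpWhy

/-- the successor -/
noncomputable def sc (a : W) : W := (wellFounded_lt (α := W)).min (Ioi a) (exists_gt a)

theorem lt_sc (a : W) : a < sc a := (wellFounded_lt (α := W)).min_mem (Ioi a) (exists_gt a)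

theorem sc_le {a b : W} (h : a < b) : sc a ≤ b := by
  by_contra hcon
  exact (wellFounded_lt (α := W)).not_lt_min (s := Ioi a) h (not_le.1 hcon)

/-- the underlying set of the space -/
def Sp (_ : W → W → ℕ → ℕ) : Type := Nd

variable {D : W → W → ℕ → ℕ}

/-- cones -/
def cone (t : Sp D) : Set (Sp D) := {s | le D t s}

noncomputable instance : TopologicalSpace (Sp D) where
  IsOpen U := ∀ t ∈ U, ∃ F : Finset ℕ, ∀ m ∉ F, D (sc (Nd.lv t)) (Nd.lv t) m = Nd.ix t →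
    cone (D := D) ⟨sc (Nd.lv t), m⟩ ⊆ U
  isOpen_univ := fun t _ => ⟨∅, fun m _ _ => subset_univ _⟩
  isOpen_inter := by
    classical
    intro U V hU hV t ht
    obtain ⟨F, hF⟩ := hU t ht.1
    obtain ⟨G, hG⟩ := hV t ht.2
    refine ⟨F ∪ G, fun m hm h => subset_inter (hF m ?_ h) (hG m ?_ h)⟩
    · exact fun h => hm (Finset.mem_union_left _ h)
    · exact fun h => hm (Finset.mem_union_right _ h)
  isOpen_sUnion := by
    intro 𝒰 h𝒰 t ht
    obtain ⟨U, hU, htU⟩ := ht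
    obtain ⟨F, hF⟩ := h𝒰 U hU t htU
    exact ⟨F, fun m hm h => (hF m hm h).trans (subset_sUnion_of_mem hU)⟩

theorem isOpen_iff {U : Set (Sp D)} : IsOpen U ↔ ∀ t ∈ U, ∃ F : Finset ℕ, ∀ m ∉ F,
    D (sc (Nd.lv t)) (Nd.lv t) m = Nd.ix t → cone (D := D) ⟨sc (Nd.lv t), m⟩ ⊆ U := Iff.rfl

variable (hG : Good D)
include hG

theorem Good.prpr {β γ δ : W} (hγ : γ ≤ β) (hδ : δ ≤ γ) (n : ℕ) :
    pr D γ δ (pr D β γ n) = pr D β δ n :=
  pr_pr (α := sc β) (fun β _ γ hγ δ hδ n => hG.coh β γ hγ δ hδ n) (lt_sc β) hγ hδ n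

theorem Good.tr {s t u : Nd} (h1 : le D s t) (h2 : le D t u) : le D s u :=
  ⟨h1.1.trans h2.1, by rw [← hG.prpr h2.1 h1.1, h2.2, h1.2]⟩

omit hG in
theorem anti {s t : Nd} (h1 : le D s t) (h2 : le D t s) : s = t := by
  have h3 := le_antisymm h1.1 h2.1
  refine Nd.ext' h3 ?_
  rw [← h1.2, h3, pr_self]

theorem Good.cmp {s t u : Nd} (h1 : le D s u) (h2 : le D t u) (h : s.lv ≤ t.lv) : le D s t :=
  ⟨h, by rw [← h2.2, hG.prpr h2.1 h, h1.2]⟩

theorem Good.cone_sub {s t : Sp D} (h : le D s t) : cone t ⊆ cone s := fun _ hu => hG.tr h hu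

omit hG in
theorem mem_cone (t : Sp D) : t ∈ cone t := le_rfl' D t

/-- the predecessor at a lower level -/
theorem Good.pred (s : Sp D) {β : W} (h : β ≤ Nd.lv s) :
    s ∈ cone (D := D) ⟨β, pr D (Nd.lv s) β (Nd.ix s)⟩ := ⟨h, rfl⟩

omit hG in
theorem succ_le {t : Sp D} {m : ℕ} (h : D (sc (Nd.lv t)) (Nd.lv t) m = Nd.ix t) :
    (⟨sc (Nd.lv t), m⟩ : Nd) ∈ cone t :=
  ⟨(lt_sc _).le, by
    show pr D (sc (Nd.lv t)) (Nd.lv t) m = Nd.ix t
    rw [pr_lt D (lt_sc _)]; exact h⟩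

/-- immediate successors below a given node -/
theorem Good.via {s t : Sp D} (h : s ∈ cone t) (hne : s ≠ t) : ∃ m,
    D (sc (Nd.lv t)) (Nd.lv t) m = Nd.ix t ∧ s ∈ cone (D := D) ⟨sc (Nd.lv t), m⟩ := by
  have h1 : Nd.lv t < Nd.lv s := by
    refine lt_of_le_of_ne h.1 fun h2 => hne ?_
    refine Nd.ext' h2.symm ?_
    have h3 := h.2
    rw [← h2, pr_self] at h3
    exact h3
  have h2 := sc_le h1
  refine ⟨pr D (Nd.lv s) (sc (Nd.lv t)) (Nd.ix s), ?_, hG.pred s h2⟩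
  rw [← pr_lt D (lt_sc _), hG.prpr h2 (lt_sc _).le]
  exact h.2

omit hG in
theorem cone_uniq {β : W} {m n : ℕ} {s : Sp D} (h1 : s ∈ cone (D := D) ⟨β, m⟩)
    (h2 : s ∈ cone (D := D) ⟨β, n⟩) : m = n := h1.2.symm.trans h2.2

theorem Good.isOpen_cone (t : Sp D) : IsOpen (cone t) := by
  rw [isOpen_iff]
  intro s hs
  exact ⟨∅, fun m _ hm => (hG.cone_sub (succ_le hm)).trans (hG.cone_sub hs)⟩

theorem Good.isClosed_cone (t : Sp D) : IsClosed (cone t) := by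
  rw [← isOpen_compl_iff, isOpen_iff]
  intro s hs
  refine ⟨{pr D (Nd.lv t) (sc (Nd.lv s)) (Nd.ix t)}, fun m hm hms u hu hut => ?_⟩
  rcases le_or_gt (sc (Nd.lv s)) (Nd.lv t) with h | h
  · apply hm
    rw [Finset.mem_singleton]
    have h1 := hG.cmp hu hut h
    exact h1.2.symm
  · have h1 : Nd.lv t ≤ Nd.lv s := by
      by_contra hcon
      exact absurd (sc_le (not_le.1 hcon)) (not_le.2 h)
    exact hs (hG.cmp hut (hG.tr (succ_le hms) hu) h1)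

omit hG in
/-- basic neighbourhoods -/
def Nb (t : Sp D) (F : Finset ℕ) : Set (Sp D) :=
  cone t \ ⋃ m ∈ F, cone (D := D) ⟨sc (Nd.lv t), m⟩

theorem Good.isOpen_Nb (t : Sp D) (F : Finset ℕ) : IsOpen (Nb t F) :=
  (hG.isOpen_cone t).sdiff (F.finite_toSet.isClosed_biUnion fun _ _ => hG.isClosed_cone _)

theorem Good.isClosed_Nb (t : Sp D) (F : Finset ℕ) : IsClosed (Nb t F) :=
  (hG.isClosed_cone t).sdiff (isOpen_biUnion fun _ _ => hG.isOpen_cone _)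

omit hG in
theorem mem_Nb (t : Sp D) (F : Finset ℕ) : t ∈ Nb t F := by
  refine ⟨mem_cone t, fun h => ?_⟩
  obtain ⟨m, -, h1⟩ := mem_iUnion₂.1 h
  exact absurd h1.1 (not_le.2 (lt_sc _))

theorem Good.Nb_sub {t : Sp D} {U : Set (Sp D)} (hU : IsOpen U) (ht : t ∈ U) :
    ∃ F, Nb t F ⊆ U := by
  obtain ⟨F, hF⟩ := isOpen_iff.1 hU t ht
  refine ⟨F, fun s hs => ?_⟩
  by_cases hst : s = t
  · rw [hst]; exact ht
  obtain ⟨m, hm, hsm⟩ := hG.via hs.1 hst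
  refine hF m (fun h => hs.2 (mem_iUnion₂.2 ⟨m, h, hsm⟩)) hm hsm

theorem Good.hasBasis (t : Sp D) : (𝓝 t).HasBasis (fun _ : Finset ℕ => True) (Nb t) := by
  refine ⟨fun U => ⟨fun h => ?_, fun ⟨F, _, hF⟩ => ?_⟩⟩
  · obtain ⟨V, hVU, hV, htV⟩ := mem_nhds_iff.1 h
    obtain ⟨F, hF⟩ := hG.Nb_sub hV htV
    exact ⟨F, trivial, hF.trans hVU⟩
  · exact mem_of_superset ((hG.isOpen_Nb t F).mem_nhds (mem_Nb t F)) hF

theorem Good.firstCountable : FirstCountableTopology (Sp D) :=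
  ⟨fun t => (hG.hasBasis t).isCountablyGenerated⟩

theorem Good.regular : RegularSpace (Sp D) :=
  RegularSpace.of_hasBasis (fun t => hG.hasBasis t) fun t F _ => hG.isClosed_Nb t F

theorem Good.t2 : T2Space (Sp D) := by
  refine ⟨fun s t hne => ?_⟩
  by_cases h : t ∈ cone s
  · have h1 : s ∉ cone t := fun h1 => hne (anti h h1)
    exact ⟨(cone t)ᶜ, cone t, (hG.isClosed_cone t).isOpen_compl, hG.isOpen_cone t, h1, mem_cone t,
      disjoint_compl_left⟩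
  · exact ⟨cone s, (cone s)ᶜ, hG.isOpen_cone s, (hG.isClosed_cone s).isOpen_compl, mem_cone s, h,
      disjoint_compl_right⟩

theorem Good.basis : IsTopologicalBasis {U : Set (Sp D) | IsClopen U} := by
  refine isTopologicalBasis_of_isOpen_of_nhds (fun U hU => hU.2) fun t U ht hU => ?_
  obtain ⟨F, hF⟩ := hG.Nb_sub hU ht
  exact ⟨Nb t F, ⟨hG.isClosed_Nb t F, hG.isOpen_Nb t F⟩, mem_Nb t F, hF⟩

/-- every nonempty open set contains a cone -/
theorem Good.cone_in {U : Set (Sp D)} (hU : IsOpen U) {t : Sp D} (ht : t ∈ U) :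
    ∃ c : Sp D, c ∈ cone t ∧ cone c ⊆ U := by
  obtain ⟨F, hF⟩ := isOpen_iff.1 hU t ht
  obtain ⟨m, hm, hmF⟩ := ((hG.inf _ _ (lt_sc (Nd.lv t)) (Nd.ix t)).sdiff F.finite_toSet).nonempty
  exact ⟨⟨sc (Nd.lv t), m⟩, succ_le hm, hF m hmF hm⟩

theorem Good.openWhyburn : OpenWhyburn (Sp D) := by
  intro A hA x hx
  have h1 : ∀ m, (cone (D := D) ⟨sc (Nd.lv x), m⟩ ∩ A).Nonempty →
      ∃ c : Sp D, cone c ⊆ cone (D := D) ⟨sc (Nd.lv x), m⟩ ∩ A := by
    intro m ⟨a, ha, haA⟩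
    obtain ⟨c, -, hc⟩ := hG.cone_in ((hG.isOpen_cone _).inter hA) ⟨ha, haA⟩
    exact ⟨c, hc⟩
  have h2 : ∀ m, ∃ c : Sp D, (cone (D := D) ⟨sc (Nd.lv x), m⟩ ∩ A).Nonempty →
      cone c ⊆ cone (D := D) ⟨sc (Nd.lv x), m⟩ ∩ A := by
    intro m
    by_cases h : (cone (D := D) ⟨sc (Nd.lv x), m⟩ ∩ A).Nonempty
    · obtain ⟨c, hc⟩ := h1 m h; exact ⟨c, fun _ => hc⟩
    · exact ⟨x, fun h' => absurd h' h⟩
  choose c hc using h2
  let S : Set ℕ := {m | D (sc (Nd.lv x)) (Nd.lv x) m = Nd.ix x ∧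
    (cone (D := D) ⟨sc (Nd.lv x), m⟩ ∩ A).Nonempty}
  let B : Set (Sp D) := ⋃ m ∈ S, cone (c m)
  have hBx : B ⊆ cone x := by
    refine iUnion₂_subset fun m hm => (hc m hm.2).trans (inter_subset_left.trans ?_)
    exact hG.cone_sub (succ_le hm.1)
  refine ⟨B, isOpen_biUnion fun m _ => hG.isOpen_cone _, ?_, ?_⟩
  · exact iUnion₂_subset fun m hm => (hc m hm.2).trans inter_subset_right
  apply subset_antisymm
  · rintro y ⟨hyB, hyA⟩
    by_contra hyx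
    have hyx' : y ≠ x := hyx
    have h3 : y ∈ cone x := (closure_minimal hBx (hG.isClosed_cone x)) hyB
    obtain ⟨m, hm, hym⟩ := hG.via h3 hyx'
    apply hyA
    have h4 : y ∈ closure (cone (D := D) ⟨sc (Nd.lv x), m⟩ ∩ B) :=
      (hG.isOpen_cone _).inter_closure ⟨hym, hyB⟩
    by_cases hmS : m ∈ S
    · have h5 : cone (D := D) ⟨sc (Nd.lv x), m⟩ ∩ B ⊆ cone (c m) := by
        rintro u ⟨hu1, hu2⟩
        obtain ⟨m', hm', hu3⟩ := mem_iUnion₂.1 hu2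
        have h6 := cone_uniq hu1 ((hc m' hm'.2) hu3).1
        rw [h6]
        exact hu3
      exact (hc m hmS.2 (closure_minimal h5 (hG.isClosed_cone _) h4)).2
    · have h5 : cone (D := D) ⟨sc (Nd.lv x), m⟩ ∩ B = ∅ := by
        rw [Set.eq_empty_iff_forall_notMem]
        rintro u ⟨hu1, hu2⟩
        obtain ⟨m', hm', hu3⟩ := mem_iUnion₂.1 hu2
        have h6 := cone_uniq hu1 ((hc m' hm'.2) hu3).1
        rw [h6] at hmS
        exact hmS hm'
      rw [h5, closure_empty] at h4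
      exact h4.elim
  · rintro y rfl
    refine ⟨?_, hx.2⟩
    rw [mem_closure_iff_nhds_basis (hG.hasBasis y)]
    intro F _
    obtain ⟨a, haA, haN⟩ := ((mem_closure_iff_nhds_basis (hG.hasBasis y)).1 hx.1) F trivial
    have hay : a ≠ y := fun h => hx.2 (h ▸ haA)
    obtain ⟨m, hm, ham⟩ := hG.via haN.1 hay
    have hmS : m ∈ S := ⟨hm, a, ham, haA⟩
    have hmF : m ∉ F := fun h => haN.2 (mem_iUnion₂.2 ⟨m, h, ham⟩)
    refine ⟨c m, mem_iUnion₂.2 ⟨m, hmS, mem_cone _⟩, hBx (mem_iUnion₂.2 ⟨m, hmS, mem_cone _⟩),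
      fun h => ?_⟩
    obtain ⟨m', hm', h3⟩ := mem_iUnion₂.1 h
    have h4 := (hc m hmS.2 (mem_cone _)).1
    rw [cone_uniq h4 h3] at hmF
    exact hmF hm'

omit hG in
theorem uncountable_Sp : ¬ Countable (Sp D) := by
  intro h
  apply uncountable_W
  have h1 : (range (fun t : Sp D => Nd.lv t)).Countable := countable_range _
  refine h1.mono ?_
  intro a _
  exact ⟨(⟨a, 0⟩ : Nd), rfl⟩

end Pool.Agent.X200.FullSus
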