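import Mathlib
import Pool.Agent.X200.FullSusX

/-!
Quasicontinuous functions on the full Suslin tree.
-/

set_option autoImplicit false

namespace Pool.Agent.X200.FullSus

open Set Topology TopologicalSpace Filter Pool.Agent.Helper330.DPK.Coh Pool.Agent.X200.QpLusin
open Pool.Agent.X200.QpWhy

variable {D : W → W → ℕ → ℕ}

theorem Good.above (hG : Good D) (t : Sp D) {β : W} (h : Nd.lv t ≤ β) :
    ∃ z : Sp D, Nd.lv z = β ∧ z ∈ cone t := by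
  rcases h.eq_or_lt with h | h
  · exact ⟨t, h, mem_cone t⟩
  · obtain ⟨n, hn⟩ := (hG.inf β _ h (Nd.ix t)).nonempty
    exact ⟨⟨β, n⟩, rfl, h.le, (pr_lt D h n).trans hn⟩

/-- a quasicontinuous function is almost constant on a cone -/
theorem Good.qc_small (hG : Good D) {f : Sp D → ℝ} (hf : QC f) (t : Sp D) {V : Set ℝ}
    (hV : IsOpen V) (ht : f t ∈ V) : ∃ c : Sp D, c ∈ cone t ∧ ∀ s ∈ cone c, f s ∈ V := by
  obtain ⟨O, hO, ⟨w, hw⟩, hOU, hOV⟩ := hf t (cone t) (hG.isOpen_cone t) (mem_cone t) V hV ht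
  obtain ⟨c, hc, hcO⟩ := hG.cone_in hO hw
  exact ⟨c, hG.cone_sub (hOU hw) hc, fun s hs => hOV ⟨s, hcO hs, rfl⟩⟩

theorem Good.full' (hG : Good D) (hF : Full D) {E : Set (Finset Nd)}
    (hE : ∀ F : Finset Nd, ∃ F' ∈ E, ∀ t ∈ F, ∃ t' ∈ F', le D t t') :
    ∃ α, ∀ β ≥ α, ∀ S : Finset ℕ, ∃ F' ∈ E, ∀ n ∈ S, ∃ t' ∈ F', le D t' ⟨β, n⟩ := by
  obtain ⟨α, hα⟩ := hF E hE
  refine ⟨α, fun β hβ S => ?_⟩
  obtain ⟨F', hF', h1⟩ := hα (S.image fun n => pr D β α n)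
  refine ⟨F', hF', fun n hn => ?_⟩
  obtain ⟨t', ht', h2⟩ := h1 _ (Finset.mem_image.2 ⟨n, hn, rfl⟩)
  exact ⟨t', ht', hG.tr h2 ⟨hβ, rfl⟩⟩

/-- choosing finite sets of extensions -/
theorem ext_fin {P : Nd → Nd → Prop} (F : Finset Nd) (h : ∀ t ∈ F, ∃ c, P t c) :
    ∃ F' : Finset Nd, (∀ t ∈ F, ∃ c ∈ F', P t c) ∧ ∀ c ∈ F', ∃ t ∈ F, P t c := by
  classical
  choose! c hc using h
  refine ⟨F.image c, fun t ht => ⟨c t, Finset.mem_image_of_mem _ ht, hc t ht⟩, fun c' hc' => ?_⟩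
  obtain ⟨t, ht, rfl⟩ := Finset.mem_image.1 hc'
  exact ⟨t, ht, hc t ht⟩

theorem exists_ub_nat (a : ℕ → W) : ∃ b, ∀ n, a n ≤ b := by
  obtain ⟨b, hb, -⟩ := exists_lub a
  exact ⟨b, fun n => (hb n).le⟩

/-- quasicontinuous functions are constant on the cones of some level -/
theorem Good.const (hG : Good D) (hF : Full D) {g : Sp D → ℝ} (hg : QC g) :
    ∃ α, ∀ t : Sp D, α ≤ Nd.lv t → ∀ s ∈ cone t, g s = g t := by
  have h1 : ∀ k : ℕ, ∃ α, ∀ β ≥ α, ∀ S : Finset ℕ,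
      ∃ F' ∈ {F : Finset Nd | ∀ t ∈ F, ∀ s ∈ cone (D := D) t, |g s - g t| < 1 / ((k : ℝ) + 1)},
        ∀ n ∈ S, ∃ t' ∈ F', le D t' ⟨β, n⟩ := by
    intro k
    have hk : (0 : ℝ) < 1 / ((k : ℝ) + 1) := by positivity
    refine hG.full' hF fun F => ?_
    obtain ⟨F', h1, h2⟩ := ext_fin (P := fun t c => le D t c ∧
      ∀ s ∈ cone (D := D) c, |g s - g c| < 1 / ((k : ℝ) + 1)) F (by
        intro t _
        obtain ⟨c, hc, h3⟩ := hG.qc_small hg t (V := Metric.ball (g t) (1 / ((k : ℝ) + 1) / 2))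
          Metric.isOpen_ball (Metric.mem_ball_self (by positivity))
        refine ⟨c, hc, fun s hs => ?_⟩
        have h4 := h3 s hs
        have h5 := h3 c (mem_cone c)
        rw [Metric.mem_ball, Real.dist_eq, abs_lt] at h4 h5
        rw [abs_lt]
        constructor <;> linarith [h4.1, h4.2, h5.1, h5.2])
    refine ⟨F', fun c hc => ?_, fun t ht => ?_⟩
    · obtain ⟨t, -, -, h3⟩ := h2 c hc
      exact h3
    · obtain ⟨c, hc, h3, -⟩ := h1 t ht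
      exact ⟨c, hc, h3⟩
  choose a ha using h1
  obtain ⟨α, hα⟩ := exists_ub_nat a
  refine ⟨α, fun t ht s hs => ?_⟩
  by_contra hne
  obtain ⟨k, hk⟩ := exists_nat_one_div_lt (show (0 : ℝ) < |g s - g t| / 2 by
    have := abs_pos.2 (sub_ne_zero.2 hne)
    positivity)
  obtain ⟨F', h1, h2⟩ := ha k (Nd.lv t) ((hα k).trans ht) {Nd.ix t}
  obtain ⟨t', ht', h3⟩ := h2 _ (Finset.mem_singleton_self _)
  have h3' : t ∈ cone (D := D) t' := h3
  have h4 := h1 t' ht' s (hG.cone_sub h3' hs)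
  have h5 := h1 t' ht' t h3'
  have h6 : |g s - g t| ≤ |g s - g t'| + |g t - g t'| := by
    rw [abs_sub_comm (g t)]
    exact abs_sub_le _ _ _
  linarith

theorem Good.dag (hG : Good D) (hF : Full D) {g : Sp D → ℝ} (hg : QC g) {A : Set (Sp D → ℝ)}
    (hA : ∀ f ∈ A, QC f) (hgA : ∀ (F : Finset Nd) (ε : ℝ), 0 < ε →
      ∃ f ∈ A, ∀ x ∈ F, |f x - g x| < ε) :
    ∃ α, ∀ β ≥ α, ∀ (S : Finset ℕ) (k : ℕ), ∃ f ∈ A, ∀ n ∈ S, ∀ s ∈ cone (D := D) ⟨β, n⟩,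
      |f s - g s| < 1 / ((k : ℝ) + 1) := by
  obtain ⟨α₀, hα₀⟩ := hG.const hF hg
  have h1 : ∀ k : ℕ, ∃ α, ∀ β ≥ α, ∀ S : Finset ℕ,
      ∃ F' ∈ {F : Finset Nd | ∃ f ∈ A, ∀ t ∈ F, ∀ s ∈ cone (D := D) t,
        |f s - g s| < 1 / ((k : ℝ) + 1)},
        ∀ n ∈ S, ∃ t' ∈ F', le D t' ⟨β, n⟩ := by
    intro k
    have hk : (0 : ℝ) < 1 / ((k : ℝ) + 1) := by positivity
    refine hG.full' hF fun F => ?_
    obtain ⟨Z, hZ1, hZ2⟩ := ext_fin (P := fun t c => le D t c ∧ α₀ ≤ Nd.lv c) F (by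
      intro t _
      obtain ⟨z, hz, hz2⟩ := hG.above (D := D) t (le_max_left (Nd.lv t) α₀)
      exact ⟨z, hz2, by rw [hz]; exact le_max_right _ _⟩)
    obtain ⟨f, hf, hfZ⟩ := hgA Z _ hk
    obtain ⟨F', h1, h2⟩ := ext_fin (P := fun z c => le D z c ∧
      ∀ s ∈ cone (D := D) c, |f s - g s| < 1 / ((k : ℝ) + 1)) Z (by
        intro z hz
        obtain ⟨c, hc, h3⟩ := hG.qc_small (hA f hf) z
          (V := Metric.ball (g z) (1 / ((k : ℝ) + 1))) Metric.isOpen_ball (by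
            rw [Metric.mem_ball, Real.dist_eq]; exact hfZ z hz)
        refine ⟨c, hc, fun s hs => ?_⟩
        have h4 := h3 s hs
        obtain ⟨t, -, -, hzl⟩ := hZ2 z hz
        have hc' : c ∈ cone (D := D) z := hc
        rw [Metric.mem_ball, Real.dist_eq, ← hα₀ z hzl s (hG.cone_sub hc' hs)] at h4
        exact h4)
    refine ⟨F', ⟨f, hf, fun c hc => ?_⟩, fun t ht => ?_⟩
    · obtain ⟨z, -, -, h3⟩ := h2 c hc
      exact h3
    · obtain ⟨z, hz, h3, -⟩ := hZ1 t ht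
      obtain ⟨c, hc, h4, -⟩ := h1 z hz
      exact ⟨c, hc, hG.tr h3 h4⟩
  choose a ha using h1
  obtain ⟨α, hα⟩ := exists_ub_nat a
  refine ⟨α, fun β hβ S k => ?_⟩
  obtain ⟨F', ⟨f, hf, h1⟩, h2⟩ := ha k β ((hα k).trans hβ) S
  refine ⟨f, hf, fun n hn s hs => ?_⟩
  obtain ⟨t', ht', h3⟩ := h2 n hn
  exact h1 t' ht' s (hG.tr h3 hs)

theorem Qp_near {A : Set (Qp (Sp D))} {g : Qp (Sp D)} (hg : g ∈ closure A) (F : Finset Nd)
    {ε : ℝ} (hε : 0 < ε) : ∃ f ∈ A, ∀ x ∈ F, |f.1 x - g.1 x| < ε := by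
  have h1 : IsOpen {h : Qp (Sp D) | ∀ x ∈ F, |h.1 x - g.1 x| < ε} := by
    have h2 : {h : Qp (Sp D) | ∀ x ∈ F, |h.1 x - g.1 x| < ε} =
        ⋂ x ∈ F, {h : Qp (Sp D) | |h.1 x - g.1 x| < ε} := by
      ext h; simp
    rw [h2]
    refine isOpen_biInter_finset fun x _ => ?_
    have h3 : Continuous fun h : Qp (Sp D) => |h.1 x - g.1 x| := by
      have h4 : Continuous fun h : Qp (Sp D) => h.1 x :=
        (continuous_apply (A := fun _ : Sp D => ℝ) x).comp continuous_subtype_val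
      exact (h4.sub continuous_const).abs
    exact isOpen_lt h3 continuous_const
  obtain ⟨f, hf1, hf2⟩ := mem_closure_iff.1 hg _ h1 (fun x _ => by simpa using hε)
  exact ⟨f, hf2, hf1⟩

theorem Good.fu (hG : Good D) (hF : Full D) : FrechetUrysohnSpace (Qp (Sp D)) := by
  classical
  refine ⟨fun A g hg => ?_⟩
  -- the bounds
  have h1 : ∀ (F₀ : Finset Nd) (k : ℕ), ∃ α, ∀ β ≥ α, ∀ S : Finset ℕ, ∃ f ∈ A,
      (∀ x ∈ F₀, |f.1 x - g.1 x| < 1 / ((k : ℝ) + 1)) ∧ ∀ n ∈ S, ∀ s ∈ cone (D := D) ⟨β, n⟩,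
      |f.1 s - g.1 s| < 1 / ((k : ℝ) + 1) := by
    intro F₀ k
    have hk : (0 : ℝ) < 1 / ((k : ℝ) + 1) := by positivity
    let A' : Set (Sp D → ℝ) := {f | ∃ h ∈ A, h.1 = f ∧ ∀ x ∈ F₀, |f x - g.1 x| < 1 / ((k : ℝ) + 1)}
    obtain ⟨α, hα⟩ := hG.dag hF g.2 (A := A') (by rintro _ ⟨h, -, rfl, -⟩; exact h.2) (by
      intro F ε hε
      obtain ⟨f, hf, hfF⟩ := Qp_near hg (F ∪ F₀) (lt_min hε hk)
      refine ⟨f.1, ⟨f, hf, rfl, fun x hx => ?_⟩, fun x hx => ?_⟩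
      · exact (hfF x (Finset.mem_union_right _ hx)).trans_le (min_le_right _ _)
      · exact (hfF x (Finset.mem_union_left _ hx)).trans_le (min_le_left _ _))
    refine ⟨α, fun β hβ S => ?_⟩
    obtain ⟨_, ⟨h, hh, rfl, h2⟩, h3⟩ := hα β hβ S k
    exact ⟨h, hh, h2, h3⟩
  choose a ha using h1
  -- closing off
  have h2 : ∀ β : W, ∃ γ, β < γ ∧ ∀ F₀ : Finset Nd, (∀ t ∈ F₀, t.lv ≤ β) → ∀ k, a F₀ k < γ := by
    intro β
    have h3 : (⋃ p ∈ {p : Finset Nd | ∀ t ∈ p, t.lv ∈ Iic β}, range (a p)).Countable :=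
      (countable_fin (countable_Iic β)).biUnion fun p _ => countable_range _
    obtain ⟨γ, hγ⟩ := exists_ub (h3.union (countable_singleton β))
    exact ⟨γ, hγ _ (Or.inr rfl), fun p hp k => hγ _ (Or.inl (mem_iUnion₂.2 ⟨p, hp, k, rfl⟩))⟩
  choose G hG1 hG2 using h2
  let s : ℕ → W := fun n => G^[n] (Classical.arbitrary W)
  have hs : ∀ n, s (n + 1) = G (s n) := fun n => Function.iterate_succ_apply' G n _
  obtain ⟨α, hα1, hα2⟩ := exists_lub s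
  have hαa : ∀ F₀ : Finset Nd, (∀ t ∈ F₀, t.lv < α) → ∀ k, a F₀ k ≤ α := by
    intro F₀ hF₀ k
    obtain ⟨β, hβ, hβF⟩ := max_level ⟨s 0, hα1 0⟩ F₀ hF₀
    obtain ⟨n, hn⟩ := hα2 β hβ
    have h3 := hG2 (s n) F₀ (fun t ht => (hβF t ht).trans hn) k
    rw [← hs] at h3
    exact (h3.trans (hα1 (n + 1))).le
  obtain ⟨e, he⟩ := (countable_nd (countable_Iio α)).exists_eq_range ⟨⟨s 0, 0⟩, hα1 0⟩
  have heα : ∀ n, (e n).lv < α := fun n => by
    have : e n ∈ {t : Nd | t.lv ∈ Iio α} := he ▸ mem_range_self n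
    exact this
  have h3 : ∀ j : ℕ, ∃ f ∈ A, (∀ i ≤ j, |f.1 (e i) - g.1 (e i)| < 1 / ((j : ℝ) + 1)) ∧
      ∀ n < j, ∀ s ∈ cone (D := D) ⟨α, n⟩, |f.1 s - g.1 s| < 1 / ((j : ℝ) + 1) := by
    intro j
    obtain ⟨f, hf, h4, h5⟩ := ha ((Finset.range (j + 1)).image e) j α (hαa _ (by
      intro t ht
      obtain ⟨i, -, rfl⟩ := Finset.mem_image.1 ht
      exact heα i) j) (Finset.range j)
    exact ⟨f, hf, fun i hi => h4 _ (Finset.mem_image.2 ⟨i, Finset.mem_range.2 (by omega), rfl⟩),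
      fun n hn => h5 n (Finset.mem_range.2 hn)⟩
  choose f hf hf1 hf2 using h3
  refine ⟨f, hf, ?_⟩
  have hconv : ∀ x : Sp D, ∃ N : ℕ, ∀ j ≥ N, |(f j).1 x - g.1 x| < 1 / ((j : ℝ) + 1) := by
    intro x
    rcases lt_or_ge (Nd.lv x) α with h | h
    · have h4 : x ∈ range e := by rw [← he]; exact h
      obtain ⟨i, rfl⟩ := h4
      exact ⟨i, fun j hj => hf1 j i hj⟩
    · exact ⟨pr D (Nd.lv x) α (Nd.ix x) + 1, fun j hj => hf2 j _ (by omega) x (hG.pred x h)⟩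
  refine tendsto_subtype_rng.2 (tendsto_pi_nhds.2 fun x => ?_)
  obtain ⟨N, hN⟩ := hconv x
  rw [Metric.tendsto_atTop]
  intro ε hε
  obtain ⟨M, hM⟩ := exists_nat_one_div_lt hε
  refine ⟨max N M, fun j hj => ?_⟩
  rw [Real.dist_eq]
  refine (hN j ((le_max_left _ _).trans hj)).trans (lt_of_le_of_lt ?_ hM)
  have h5 : M ≤ j := (le_max_right _ _).trans hj
  exact Nat.one_div_le_one_div h5

/-- semi-regular spaces -/
def SemiRegular (X : Type*) [TopologicalSpace X] : Prop :=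
  IsTopologicalBasis {U : Set X | interior (closure U) = U}

theorem Good.semi (hG : Good D) : SemiRegular (Sp D) := by
  refine isTopologicalBasis_of_isOpen_of_nhds ?_ fun t U ht hU => ?_
  · intro U hU
    have hU' : interior (closure U) = U := hU
    rw [← hU']; exact isOpen_interior
  · obtain ⟨F, hF⟩ := hG.Nb_sub hU ht
    refine ⟨Nb t F, ?_, mem_Nb t F, hF⟩
    show interior (closure (Nb t F)) = Nb t F
    rw [(hG.isClosed_Nb t F).closure_eq, (hG.isOpen_Nb t F).interior_eq]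

theorem main (hD : Diamond) : ∃ (X : Type) (_ : TopologicalSpace X), T2Space X ∧ SemiRegular X ∧
    OpenWhyburn X ∧ FrechetUrysohnSpace (Qp X) ∧ ¬ Countable X ∧
    RegularSpace X ∧ FirstCountableTopology X := by
  obtain ⟨D, hG, hF⟩ := exists_full hD
  exact ⟨Sp D, inferInstance, hG.t2, hG.semi, hG.openWhyburn, hG.fu hF, uncountable_Sp, hG.regular,
    hG.firstCountable⟩

end Pool.Agent.X200.FullSus
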