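import Mathlib

/-!
A fusion lemma for countable families of perfect sets.
-/

set_option autoImplicit false

namespace Pool.Agent.X200.Jens

open Set Topology TopologicalSpace Filter

abbrev K : Type := ℕ → Bool

/-- a form of perfectness -/
def Pf (A : Set K) : Prop := ∀ C : Set K, IsClopen C → (A ∩ C).Nonempty → (A ∩ C).Nontrivial

theorem exists_clopen {U : Set K} (hU : IsOpen U) {y : K} (hy : y ∈ U) :
    ∃ C : Set K, IsClopen C ∧ y ∈ C ∧ C ⊆ U := compact_exists_isClopen_in_isOpen hU hy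

theorem Pf.infinite {A : Set K} (hA : Pf A) (hne : A.Nonempty) : A.Infinite := by
  intro hfin
  obtain ⟨y, hy⟩ := hne
  have h1 : IsOpen (A \ {y})ᶜ := (hfin.sdiff).isClosed.isOpen_compl
  obtain ⟨C, hC, hyC, hCA⟩ := exists_clopen h1 (y := y) (by simp)
  obtain ⟨z, hz, hzy⟩ := (hA C hC ⟨y, hy, hyC⟩).exists_ne y
  exact hCA hz.2 ⟨hz.1, hzy⟩

theorem Pf.inter {A C : Set K} (hA : Pf A) (hC : IsClopen C) : Pf (A ∩ C) := by
  intro C' hC' h
  rw [inter_assoc] at h ⊢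
  exact hA _ (hC.inter hC') h

theorem exists_inj {ι : Type} (I : Finset ι) (A : ι → Set K) (hA : ∀ i ∈ I, (A i).Infinite) :
    ∃ y : ι → K, (∀ i ∈ I, y i ∈ A i) ∧ InjOn y I := by
  classical
  induction I using Finset.induction_on with
  | empty => exact ⟨fun _ _ => false, by simp, by simp⟩
  | insert a s ha ih =>
    obtain ⟨y, hy1, hy2⟩ := ih fun i hi => hA i (Finset.mem_insert_of_mem hi)
    obtain ⟨z, hz, hz'⟩ := ((hA a (Finset.mem_insert_self a s)).sdiff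
      ((s.finite_toSet).image y)).nonempty
    have hup : ∀ i ∈ s, Function.update y a z i = y i := by
      intro i hi
      have hia : i ≠ a := by rintro rfl; exact ha hi
      rw [Function.update_of_ne hia]
    refine ⟨Function.update y a z, fun i hi => ?_, ?_⟩
    · rcases Finset.mem_insert.1 hi with rfl | hi
      · rw [Function.update_self]; exact hz
      · rw [hup i hi]; exact hy1 i hi
    · intro i hi j hj hij
      have hi' := Finset.mem_insert.1 (Finset.mem_coe.1 hi)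
      have hj' := Finset.mem_insert.1 (Finset.mem_coe.1 hj)
      rcases hi' with rfl | hi' <;> rcases hj' with rfl | hj'
      · rfl
      · exfalso
        rw [Function.update_self, hup j hj'] at hij
        exact hz' ⟨j, hj', hij.symm⟩
      · exfalso
        rw [Function.update_self, hup i hi'] at hij
        exact hz' ⟨i, hi', hij⟩
      · rw [hup i hi', hup j hj'] at hij
        exact hy2 hi' hj' hij

/-- cylinders -/
def cyl (y : K) (n : ℕ) : Set K := {z | ∀ k < n, z k = y k}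

theorem isClopen_cyl (y : K) (n : ℕ) : IsClopen (cyl y n) := by
  have h1 : cyl y n = ⋂ k ∈ Finset.range n, {z : K | z k = y k} := by
    ext z; simp [cyl]
  rw [h1]
  refine isClopen_biInter_finset fun k _ => ?_
  exact (isClopen_discrete {y k}).preimage (continuous_apply k)

theorem mem_cyl (y : K) (n : ℕ) : y ∈ cyl y n := fun _ _ => rfl

theorem cyl_anti (y : K) {m n : ℕ} (h : m ≤ n) : cyl y n ⊆ cyl y m :=
  fun _ hz k hk => hz k (hk.trans_le h)

theorem cyl_sub {y : K} {U : Set K} (hU : IsOpen U) (hy : y ∈ U) : ∃ n, cyl y n ⊆ U := by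
  obtain ⟨F, u, hu, hF⟩ := isOpen_pi_iff.1 hU y hy
  refine ⟨F.sup id + 1, fun z hz => hF fun k hk => ?_⟩
  rw [hz k (Nat.lt_succ_of_le (Finset.le_sup (f := id) hk))]
  exact (hu k hk).2

theorem cyl_sep {y z : K} (h : z ≠ y) : ∃ n, z ∉ cyl y n := by
  by_contra hcon
  push Not at hcon
  exact h (funext fun k => hcon (k + 1) k (Nat.lt_succ_self k))

theorem exists_sep {ι : Type} (I : Finset ι) (A : ι → Set K) (hA : ∀ i ∈ I, (A i).Infinite) :
    ∃ C : ι → Set K, (∀ i, IsClopen (C i)) ∧ (∀ i ∈ I, (A i ∩ C i).Nonempty) ∧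
      ∀ i ∈ I, ∀ j ∈ I, i ≠ j → Disjoint (C i) (C j) := by
  classical
  obtain ⟨y, hy1, hy2⟩ := exists_inj I A hA
  have h1 : ∀ i j, ∃ n, i ∈ I → j ∈ I → i ≠ j → y i n ≠ y j n := by
    intro i j
    by_cases h : i ∈ I ∧ j ∈ I ∧ i ≠ j
    · obtain ⟨hi, hj, hij⟩ := h
      obtain ⟨n, hn⟩ := Function.ne_iff.1 (fun h => hij (hy2 hi hj h))
      exact ⟨n, fun _ _ _ => hn⟩
    · exact ⟨0, fun hi hj hij => absurd ⟨hi, hj, hij⟩ h⟩
  choose d hd using h1
  let N : ℕ := (I ×ˢ I).sup fun p => d p.1 p.2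
  have hN : ∀ i ∈ I, ∀ j ∈ I, d i j ≤ N := fun i hi j hj =>
    Finset.le_sup (f := fun p : ι × ι => d p.1 p.2) (Finset.mk_mem_product hi hj)
  refine ⟨fun i => cyl (y i) (N + 1), fun i => isClopen_cyl _ _,
    fun i hi => ⟨y i, hy1 i hi, mem_cyl _ _⟩, fun i hi j hj hij => ?_⟩
  rw [disjoint_left]
  intro z hz1 hz2
  have h2 := hd i j hi hj hij
  have h3 : d i j < N + 1 := Nat.lt_succ_of_le (hN i hi j hj)
  exact h2 ((hz1 _ h3).symm.trans (hz2 _ h3))

theorem pf_clopen {C : Set K} (hC : IsClopen C) : Pf C := by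
  intro C' hC' ⟨y, hy⟩
  obtain ⟨n, hn⟩ := cyl_sub (hC.inter hC').isOpen hy
  refine ⟨y, hy, Function.update y n (!y n), hn ?_, ?_⟩
  · intro k hk
    rw [Function.update_of_ne hk.ne]
  · intro h
    have := congrFun h n
    rw [Function.update_self] at this
    cases h' : y n <;> simp [h'] at this

section fusion

variable {N : Type} (Q : N → Set K) (hcl : ∀ t, IsClosed (Q t)) (hne : ∀ t, (Q t).Nonempty)
  (hpf : ∀ t, Pf (Q t))
  (hcut : ∀ t C, IsClopen C → (Q t ∩ C).Nonempty → ∃ t', Q t' = Q t ∩ C)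
  (G : ℕ → Set N) (hGd : ∀ k t, ∃ t', Q t' ⊆ Q t ∧ t' ∈ G k)
  (hGo : ∀ k t t', t ∈ G k → Q t' ⊆ Q t → t' ∈ G k)
  (E : Set (Finset N)) (hE : ∀ F : Finset N, ∃ F' ∈ E, ∀ t ∈ F, ∃ t' ∈ F', Q t' ⊆ Q t)

include hGd hGo in
theorem meet_fin (s : ℕ) (t : N) : ∃ t', Q t' ⊆ Q t ∧ ∀ k ≤ s, t' ∈ G k := by
  induction s with
  | zero =>
    obtain ⟨t', h1, h2⟩ := hGd 0 t
    exact ⟨t', h1, fun k hk => by rw [Nat.le_zero.1 hk]; exact h2⟩
  | succ s ih =>
    obtain ⟨t', h1, h2⟩ := ih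
    obtain ⟨t'', h3, h4⟩ := hGd (s + 1) t'
    refine ⟨t'', h3.trans h1, fun k hk => ?_⟩
    rcases Nat.le_succ_iff.1 hk with h | h
    · exact hGo k t' t'' (h2 k h) h3
    · rw [h]; exact h4

include hne hpf hcut hGd hGo hE in
theorem stage {ι : Type} (t : ι → N) (I : Finset ι) (s : ℕ) : ∃ t' : ι → N,
    (∀ i, Q (t' i) ⊆ Q (t i)) ∧ (∀ i ∈ I, ∀ j ∈ I, i ≠ j → Disjoint (Q (t' i)) (Q (t' j))) ∧
      (∀ i ∈ I, ∀ k ≤ s, t' i ∈ G k) ∧ ∃ F' ∈ E, ∀ i ∈ I, t' i ∈ F' := by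
  classical
  obtain ⟨C, hC1, hC2, hC3⟩ := exists_sep I (fun i => Q (t i))
    (fun i _ => (hpf (t i)).infinite (hne _))
  have h1 : ∀ i, ∃ t1, Q t1 ⊆ Q (t i) ∧ (i ∈ I → Q t1 ⊆ C i) := by
    intro i
    by_cases hi : i ∈ I
    · obtain ⟨t', ht'⟩ := hcut (t i) (C i) (hC1 i) (hC2 i hi)
      exact ⟨t', ht' ▸ inter_subset_left, fun _ => ht' ▸ inter_subset_right⟩
    · exact ⟨t i, Subset.rfl, fun h => absurd h hi⟩
  choose t1 ht1 ht1' using h1
  have h2 := fun i => meet_fin Q G hGd hGo s (t1 i)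
  choose t2 ht2 ht2' using h2
  obtain ⟨F', hF', hF2⟩ := hE (I.image t2)
  have h3 : ∀ i, ∃ t3, Q t3 ⊆ Q (t2 i) ∧ (i ∈ I → t3 ∈ F') := by
    intro i
    by_cases hi : i ∈ I
    · obtain ⟨t', ht', h⟩ := hF2 (t2 i) (Finset.mem_image_of_mem _ hi)
      exact ⟨t', h, fun _ => ht'⟩
    · exact ⟨t2 i, Subset.rfl, fun h => absurd h hi⟩
  choose t3 ht3 ht3' using h3
  refine ⟨t3, fun i => (ht3 i).trans ((ht2 i).trans (ht1 i)), fun i hi j hj hij => ?_,
    fun i hi k hk => hGo k _ _ (ht2' i k hk) (ht3 i), F', hF', ht3'⟩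
  exact (hC3 i hi j hj hij).mono ((ht3 i).trans ((ht2 i).trans (ht1' i hi)))
    ((ht3 j).trans ((ht2 j).trans (ht1' j hj)))

/-- lists of length `n` -/
def V : ℕ → Finset (List Bool)
  | 0 => {[]}
  | n + 1 => (V n ×ˢ (Finset.univ : Finset Bool)).image fun p => p.2 :: p.1

theorem mem_V {n : ℕ} {v : List Bool} : v ∈ V n ↔ v.length = n := by
  induction n generalizing v with
  | zero => simp [V]
  | succ n ih =>
    rw [V, Finset.mem_image]
    constructor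
    · rintro ⟨⟨u, b⟩, h, rfl⟩
      rw [Finset.mem_product, ih] at h
      simp [h.1]
    · intro h
      cases v with
      | nil => simp at h
      | cons b u =>
        refine ⟨(u, b), ?_, rfl⟩
        rw [Finset.mem_product, ih]
        simp at h
        simp [h]

include hcl hne hpf hcut hGd hGo hE in
theorem fusion [Countable N] [Nonempty N] (hC : ∀ C, IsClopen C → ∃ k, ∀ t ∈ G k,
    Q t ⊆ C ∨ Disjoint (Q t) C) :
    ∃ r : ℕ → Set K, (∀ j, IsClosed (r j)) ∧ (∀ j, Pf (r j)) ∧ (∀ j, (r j).Nonempty) ∧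
      (∀ i j, i ≠ j → Disjoint (r i) (r j)) ∧ (∀ t, ∃ j, r j ⊆ Q t) ∧
      (∀ j k, ∃ F : Finset N, (∀ t ∈ F, t ∈ G k) ∧ r j ⊆ ⋃ t ∈ F, Q t ∧
        ∀ t ∈ F, ∀ t' ∈ F, t ≠ t' → Disjoint (Q t) (Q t')) ∧
      ∀ s, ∃ F' ∈ E, ∀ j < s, r j ⊆ ⋃ t ∈ F', Q t := by
  classical
  obtain ⟨e, he⟩ := exists_surjective_nat N
  let I : ℕ → Finset (ℕ × List Bool) := fun s => Finset.range (s + 1) ×ˢ V (s + 1)
  have h1 := fun (s : ℕ) (t : ℕ × List Bool → N) =>
    stage Q hne hpf hcut G hGd hGo E hE (fun i : ℕ × List Bool => t (i.1, i.2.tail)) (I s) s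
  choose T hT1 hT2 hT3 hT4 using h1
  let P : ℕ → ℕ × List Bool → N := fun s => Nat.rec (fun i => e i.1) (fun s t => T s t) s
  have hP : ∀ s, P (s + 1) = T s (P s) := fun _ => rfl
  have hP1 : ∀ s j v, Q (P (s + 1) (j, v)) ⊆ Q (P s (j, v.tail)) := by
    intro s j v; rw [hP]; exact hT1 s _ (j, v)
  have hP2 : ∀ s, ∀ i ≤ s, ∀ j ≤ s, ∀ u ∈ V (s + 1), ∀ v ∈ V (s + 1), (i, u) ≠ (j, v) →
      Disjoint (Q (P (s + 1) (i, u))) (Q (P (s + 1) (j, v))) := by
    intro s i hi j hj u hu v hv hne'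
    rw [hP]
    exact hT2 s _ _ (Finset.mk_mem_product (Finset.mem_range.2 (by omega)) hu) _
      (Finset.mk_mem_product (Finset.mem_range.2 (by omega)) hv) hne'
  have hP3 : ∀ s, ∀ i ≤ s, ∀ u ∈ V (s + 1), ∀ k ≤ s, P (s + 1) (i, u) ∈ G k := by
    intro s i hi u hu k hk
    rw [hP]
    exact hT3 s _ _ (Finset.mk_mem_product (Finset.mem_range.2 (by omega)) hu) k hk
  have hP4 : ∀ s, ∃ F' ∈ E, ∀ i ≤ s, ∀ u ∈ V (s + 1), P (s + 1) (i, u) ∈ F' := by
    intro s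
    obtain ⟨F', hF', h⟩ := hT4 s (P s)
    refine ⟨F', hF', fun i hi u hu => ?_⟩
    rw [hP]
    exact h _ (Finset.mk_mem_product (Finset.mem_range.2 (by omega)) hu)
  have tail_V : ∀ {s : ℕ} {v : List Bool}, v ∈ V (s + 1) → v.tail ∈ V s := by
    intro s v hv
    rw [mem_V] at hv ⊢
    rw [List.length_tail, hv]; rfl
  let U : ℕ → ℕ → Set K := fun j s => ⋃ v ∈ V s, Q (P s (j, v))
  have hU : ∀ j s, U j (s + 1) ⊆ U j s := by
    intro j s y hy
    obtain ⟨v, hv, hyv⟩ := mem_iUnion₂.1 hy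
    exact mem_iUnion₂.2 ⟨v.tail, tail_V hv, hP1 s j v hyv⟩
  have hUa : ∀ j, Antitone (U j) := fun j => antitone_nat_of_succ_le (hU j)
  let r : ℕ → Set K := fun j => ⋂ s, U j s
  have hrU : ∀ j s, r j ⊆ U j s := fun j s => iInter_subset _ s
  have hUcl : ∀ j s, IsClosed (U j s) := fun j s =>
    (V s).finite_toSet.isClosed_biUnion fun v _ => hcl _
  have hrcl : ∀ j, IsClosed (r j) := fun j => isClosed_iInter (hUcl j)
  -- every piece meets `r j`
  have hrne : ∀ j s, ∀ v ∈ V s, (r j ∩ Q (P s (j, v))).Nonempty := by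
    intro j s v hv
    let w : ℕ → List Bool := fun n => List.replicate n false ++ v
    have hw : ∀ n, w n ∈ V (n + s) := by
      intro n; rw [mem_V] at hv ⊢; simp [w, hv]
    have hwt : ∀ n, (w (n + 1)).tail = w n := fun n => by simp [w, List.replicate_succ]
    have h2 : ∀ n, Q (P ((n + 1) + s) (j, w (n + 1))) ⊆ Q (P (n + s) (j, w n)) := by
      intro n
      have := hP1 (n + s) j (w (n + 1))
      rw [hwt] at this
      rwa [show n + 1 + s = n + s + 1 by omega]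
    obtain ⟨y, hy⟩ := IsCompact.nonempty_iInter_of_sequence_nonempty_isCompact_isClosed
      (fun n => Q (P (n + s) (j, w n))) h2 (fun n => hne _) (hcl _).isCompact (fun n => hcl _)
    rw [mem_iInter] at hy
    refine ⟨y, mem_iInter.2 fun n => ?_, ?_⟩
    · exact hUa j (Nat.le_add_right n s) (mem_iUnion₂.2 ⟨w n, hw n, hy n⟩)
    · have := hy 0
      simpa [w] using this
  have hrsub : ∀ j, r j ⊆ Q (e j) := by
    intro j y hy
    obtain ⟨v, -, hyv⟩ := mem_iUnion₂.1 (hrU j 0 hy)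
    exact hyv
  refine ⟨r, hrcl, ?_, ?_, ?_, ?_, ?_, ?_⟩
  · -- perfect
    intro j C hCc ⟨y, hyr, hyC⟩
    obtain ⟨k, hk⟩ := hC C hCc
    let s := max j k
    obtain ⟨v, hv, hyv⟩ := mem_iUnion₂.1 (hrU j (s + 1) hyr)
    have h2 := hP3 s j (le_max_left _ _) v hv k (le_max_right _ _)
    have h3 : Q (P (s + 1) (j, v)) ⊆ C := by
      rcases hk _ h2 with h | h
      · exact h
      · exact absurd hyC (disjoint_left.1 h hyv)
    have hv' : ∀ b : Bool, (b :: v) ∈ V (s + 2) := by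
      intro b; rw [mem_V] at hv ⊢; simp [hv]
    obtain ⟨y0, hy0, hy0'⟩ := hrne j (s + 2) _ (hv' false)
    obtain ⟨y1, hy1, hy1'⟩ := hrne j (s + 2) _ (hv' true)
    have h4 : ∀ b, Q (P (s + 2) (j, b :: v)) ⊆ C := fun b => (hP1 (s + 1) j (b :: v)).trans h3
    refine ⟨y0, ⟨hy0, h4 _ hy0'⟩, y1, ⟨hy1, h4 _ hy1'⟩, ?_⟩
    have h5 := hP2 (s + 1) j ((le_max_left _ _).trans (Nat.le_succ _)) j
      ((le_max_left _ _).trans (Nat.le_succ _)) _ (hv' false) _ (hv' true) (by simp)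
    exact h5.ne_of_mem hy0' hy1'
  · intro j
    obtain ⟨y, hy, -⟩ := hrne j 0 [] (mem_V.2 rfl)
    exact ⟨y, hy⟩
  · intro i j hij
    rw [disjoint_left]
    intro y hyi hyj
    let s := max i j
    obtain ⟨u, hu, hyu⟩ := mem_iUnion₂.1 (hrU i (s + 1) hyi)
    obtain ⟨v, hv, hyv⟩ := mem_iUnion₂.1 (hrU j (s + 1) hyj)
    exact disjoint_left.1 (hP2 s i (le_max_left _ _) j (le_max_right _ _) u hu v hv
      (fun h => hij (congrArg Prod.fst h))) hyu hyv
  · intro t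
    obtain ⟨j, rfl⟩ := he t
    exact ⟨j, hrsub j⟩
  · intro j k
    let s := max j k
    refine ⟨(V (s + 1)).image fun v => P (s + 1) (j, v), ?_, ?_, ?_⟩
    · intro t ht
      obtain ⟨v, hv, rfl⟩ := Finset.mem_image.1 ht
      exact hP3 s j (le_max_left _ _) v hv k (le_max_right _ _)
    · intro y hy
      obtain ⟨v, hv, hyv⟩ := mem_iUnion₂.1 (hrU j (s + 1) hy)
      exact mem_iUnion₂.2 ⟨_, Finset.mem_image_of_mem _ hv, hyv⟩
    · intro t ht t' ht' htt
      obtain ⟨u, hu, rfl⟩ := Finset.mem_image.1 ht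
      obtain ⟨v, hv, rfl⟩ := Finset.mem_image.1 ht'
      exact hP2 s j (le_max_left _ _) j (le_max_left _ _) u hu v hv
        (fun h => htt (by rw [h]))
  · intro s
    obtain ⟨F', hF', h⟩ := hP4 s
    refine ⟨F', hF', fun j hj y hy => ?_⟩
    obtain ⟨v, hv, hyv⟩ := mem_iUnion₂.1 (hrU j (s + 1) hy)
    exact mem_iUnion₂.2 ⟨_, h j hj.le v hv, hyv⟩

end fusion

end Pool.Agent.X200.Jens
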