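import Mathlib
import Pool.Agent.X200.FullSus
import Pool.Agent.X200.JensFus

/-!
The recursive construction of a system of perfect sets under diamond.
-/

set_option autoImplicit false

namespace Pool.Agent.X200.Jens

open Set Topology TopologicalSpace Filter Pool.Agent.Helper330.DPK.Coh
open Pool.Agent.X200.FullSus (Nd Diamond diamond_fin max_level exists_rec' exists_ub exists_lub
  countable_nd countable_fin)

/-- the data of a level -/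
abbrev Vt : Type := ℕ → Set K × K

/-- the perfect set of a node -/
def q (Φ : W → Vt) (t : Nd) : Set K := (Φ t.lv t.ix).1

/-- a single level -/
structure Lev (v : Vt) : Prop where
  closed : ∀ n, IsClosed (v n).1
  pf : ∀ n, Pf (v n).1
  mem : ∀ n, (v n).2 ∈ (v n).1
  cut : ∀ n C, IsClopen C → ((v n).1 ∩ C).Nonempty → ∃ m, (v m).1 = (v n).1 ∩ C
  same : ∀ n m, ∀ y ∈ (v n).1, y ∈ (v m).1 → ∃ C, IsClopen C ∧ y ∈ C ∧ (v m).1 ∩ C ⊆ (v n).1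

/-- the relation between a lower level `u` and a higher level `v` -/
structure Rel (u v : Vt) : Prop where
  low : ∀ m n, ∀ y ∈ (u m).1, y ∈ (v n).1 → ∃ C, IsClopen C ∧ y ∈ C ∧ (v n).1 ∩ C ⊆ (u m).1
  cov : ∀ n, ∃ F : Finset ℕ, (v n).1 ⊆ ⋃ m ∈ F, (u m).1
  ref : ∀ m, ∃ n, (v n).1 ⊆ (u m).1
  avoid : ∀ m n, (u m).2 ∉ (v n).1

/-- density below `α` -/
def DenseB (Φ : W → Vt) (α : W) (E : Set (Finset Nd)) : Prop :=
  ∀ F : Finset Nd, (∀ t ∈ F, t.lv < α) → ∃ F' ∈ E, (∀ t ∈ F', t.lv < α) ∧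
    ∀ t ∈ F, ∃ t' ∈ F', q Φ t' ⊆ q Φ t

/-- the requirements -/
structure Req (𝒜 : W → Set (Finset Nd)) (Φ : W → Vt) (α : W) (v : Vt) : Prop where
  lev : Lev v
  rel : ∀ β < α, Rel (Φ β) v
  gen : (∃ β, β < α) → DenseB Φ α (𝒜 α) → ∀ S : Finset ℕ, ∃ F' ∈ 𝒜 α, (∀ t ∈ F', t.lv < α) ∧
    ∀ n ∈ S, (v n).1 ⊆ ⋃ t ∈ F', q Φ t

theorem Req.congr {𝒜 : W → Set (Finset Nd)} {Φ Φ' : W → Vt} {α : W} {v : Vt}
    (h : ∀ β < α, Φ β = Φ' β) (hr : Req 𝒜 Φ α v) : Req 𝒜 Φ' α v := by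
  have hq : ∀ t : Nd, t.lv < α → q Φ t = q Φ' t := fun t ht => by rw [q, q, h _ ht]
  refine ⟨hr.lev, fun β hβ => h β hβ ▸ hr.rel β hβ, fun hα hD S => ?_⟩
  obtain ⟨F', hF', h1, h2⟩ := hr.gen hα (fun F hF => by
    obtain ⟨F', hF', h1, h2⟩ := hD F hF
    refine ⟨F', hF', h1, fun t ht => ?_⟩
    obtain ⟨t', ht', h3⟩ := h2 t ht
    refine ⟨t', ht', ?_⟩
    rw [hq t' (h1 t' ht'), hq t (hF t ht)]
    exact h3) S
  refine ⟨F', hF', h1, fun n hn y hy => ?_⟩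
  obtain ⟨t, ht, hyt⟩ := mem_iUnion₂.1 (h2 n hn hy)
  rw [hq t (h1 t ht)] at hyt
  exact mem_iUnion₂.2 ⟨t, ht, hyt⟩

theorem mkLev (r : ℕ → Set K) (hcl : ∀ j, IsClosed (r j)) (hpf : ∀ j, Pf (r j))
    (hne : ∀ j, (r j).Nonempty) (hdis : ∀ i j, i ≠ j → Disjoint (r i) (r j)) :
    ∃ v : Vt, Lev v ∧ (∀ n, ∃ j, (v n).1 ⊆ r j) ∧ ∀ j, ∃ n, (v n).1 = r j := by
  classical
  have : Countable (Clopens K) :=
    TopologicalSpace.Clopens.countable_iff_secondCountable.2 inferInstance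
  let I : Type := {p : ℕ × Clopens K // (r p.1 ∩ (p.2 : Set K)).Nonempty}
  have hI : Nonempty I := ⟨⟨(0, ⊤), by simpa using hne 0⟩⟩
  obtain ⟨g, hg⟩ := exists_surjective_nat I
  refine ⟨fun n => (r (g n).1.1 ∩ ((g n).1.2 : Set K), (g n).2.choose), ⟨?_, ?_, ?_, ?_, ?_⟩, ?_, ?_⟩
  · exact fun n => (hcl _).inter (g n).1.2.isClopen.isClosed
  · exact fun n => (hpf _).inter (g n).1.2.isClopen
  · exact fun n => (g n).2.choose_spec
  · intro n C hC h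
    have h' : (r (g n).1.1 ∩ (((g n).1.2 : Set K) ∩ C)).Nonempty := by
      rw [← inter_assoc]; exact h
    obtain ⟨m, hm⟩ := hg ⟨((g n).1.1, (g n).1.2 ⊓ ⟨C, hC⟩), h'⟩
    refine ⟨m, ?_⟩
    show r (g m).1.1 ∩ ((g m).1.2 : Set K) = (r (g n).1.1 ∩ ((g n).1.2 : Set K)) ∩ C
    rw [hm]
    exact (inter_assoc _ _ _).symm
  · rintro n m y ⟨h1, h2⟩ ⟨h3, h4⟩
    have h5 : (g n).1.1 = (g m).1.1 := by
      by_contra hcon
      exact disjoint_left.1 (hdis _ _ hcon) h1 h3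
    refine ⟨((g n).1.2 : Set K), (g n).1.2.isClopen, h2, ?_⟩
    rintro z ⟨⟨hz1, -⟩, hz2⟩
    exact ⟨by rw [h5]; exact hz1, hz2⟩
  · exact fun n => ⟨_, inter_subset_left⟩
  · intro j
    obtain ⟨n, hn⟩ := hg ⟨(j, ⊤), by simpa using hne j⟩
    refine ⟨n, ?_⟩
    show r (g n).1.1 ∩ ((g n).1.2 : Set K) = r j
    rw [hn]
    simp

theorem exists_bottom : ∃ v : Vt, Lev v := by
  obtain ⟨v, hv, -⟩ := mkLev (fun j => cyl (fun k => decide (k = j)) (j + 1))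
    (fun j => (isClopen_cyl _ _).isClosed) (fun j => pf_clopen (isClopen_cyl _ _))
    (fun j => ⟨_, mem_cyl _ _⟩) (by
      have key : ∀ i j, i < j → Disjoint (cyl (fun k => decide (k = i)) (i + 1))
          (cyl (fun k => decide (k = j)) (j + 1)) := by
        intro i j hij
        rw [disjoint_left]
        intro z h1 h2
        have h3 := h1 i (Nat.lt_succ_self i)
        have h4 := h2 i (by omega)
        rw [h3] at h4
        simp [hij.ne] at h4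
      intro i j hij
      rcases lt_or_gt_of_ne hij with h | h
      · exact key i j h
      · exact (key j i h).symm)
  exact ⟨v, hv⟩

theorem exists_req (𝒜 : W → Set (Finset Nd)) {Φ : W → Vt} {α : W}
    (hr : ∀ β < α, Req 𝒜 Φ β (Φ β)) : ∃ v, Req 𝒜 Φ α v := by
  classical
  by_cases hα : ∃ β, β < α
  swap
  · obtain ⟨v, hv⟩ := exists_bottom
    exact ⟨v, hv, fun β hβ => absurd ⟨β, hβ⟩ hα, fun h => absurd h hα⟩
  have : Countable (Clopens K) :=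
    TopologicalSpace.Clopens.countable_iff_secondCountable.2 inferInstance
  let N : Type := {t : Nd // t.lv < α}
  have hNc : Countable N := (countable_nd (countable_Iio α)).to_subtype
  have hNne : Nonempty N := by
    obtain ⟨β, hβ⟩ := hα
    exact ⟨⟨⟨β, 0⟩, hβ⟩⟩
  have hWc : Countable {β // β < α} := (countable_Iio α).to_subtype
  let Q : N → Set K := fun t => q Φ t.1
  let x : N → K := fun t => (Φ t.1.lv t.1.ix).2
  have hlev : ∀ t : N, Lev (Φ t.1.lv) := fun t => (hr _ t.2).lev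
  have hcl : ∀ t, IsClosed (Q t) := fun t => (hlev t).closed _
  have hpf : ∀ t, Pf (Q t) := fun t => (hlev t).pf _
  have hne : ∀ t, (Q t).Nonempty := fun t => ⟨_, (hlev t).mem _⟩
  have hcut : ∀ t C, IsClopen C → (Q t ∩ C).Nonempty → ∃ t', Q t' = Q t ∩ C := by
    intro t C hC h
    obtain ⟨m, hm⟩ := (hlev t).cut _ C hC h
    exact ⟨⟨⟨t.1.lv, m⟩, t.2⟩, hm⟩
  have hrel : ∀ β γ, β < γ → γ < α → Rel (Φ β) (Φ γ) := fun β γ h1 h2 => (hr γ h2).rel β h1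
  have hdec : ∀ Z : Set K, IsClosed Z → ∀ t : N, ∃ t' : N, Q t' ⊆ Q t ∧
      (Q t' ⊆ Z ∨ Disjoint (Q t') Z) := by
    intro Z hZ t
    by_cases h : Q t ⊆ Z
    · exact ⟨t, Subset.rfl, Or.inl h⟩
    · obtain ⟨y, hy, hyZ⟩ := not_subset.1 h
      obtain ⟨C, hC, hyC, hCZ⟩ := exists_clopen hZ.isOpen_compl hyZ
      obtain ⟨t', ht'⟩ := hcut t C hC ⟨y, hy, hyC⟩
      refine ⟨t', ht' ▸ inter_subset_left, Or.inr ?_⟩
      rw [disjoint_left]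
      intro z hz hzZ
      rw [ht'] at hz
      exact hCZ hz.2 hzZ
  have havoid : ∀ (p : K) (t : N), ∃ t' : N, Q t' ⊆ Q t ∧ p ∉ Q t' := by
    intro p t
    obtain ⟨y, hy, hyp⟩ := (hpf t univ isClopen_univ (by simpa using hne t)).exists_ne p
    obtain ⟨C, hC, hyC, hCp⟩ := exists_clopen (isOpen_compl_singleton (x := p)) (y := y) hyp
    obtain ⟨t', ht'⟩ := hcut t C hC ⟨y, hy.1, hyC⟩
    refine ⟨t', ht' ▸ inter_subset_left, fun h => ?_⟩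
    rw [ht'] at h
    exact hCp h.2 rfl
  have hdown : ∀ (β : {β // β < α}) (t : N), ∃ t' : N, Q t' ⊆ Q t ∧ ∃ m, Q t' ⊆ (Φ β.1 m).1 := by
    rintro ⟨β, hβ⟩ t
    rcases lt_trichotomy t.1.lv β with h | h | h
    · obtain ⟨n, hn⟩ := (hrel _ _ h hβ).ref t.1.ix
      exact ⟨⟨⟨β, n⟩, hβ⟩, hn, n, Subset.rfl⟩
    · exact ⟨t, Subset.rfl, t.1.ix, by subst h; exact Subset.rfl⟩
    · obtain ⟨F, hF⟩ := (hrel _ _ h t.2).cov t.1.ix
      obtain ⟨y, hy⟩ := hne t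
      obtain ⟨m, -, hym⟩ := mem_iUnion₂.1 (hF hy)
      obtain ⟨C, hC, hyC, hCs⟩ := (hrel _ _ h t.2).low m t.1.ix y hym hy
      obtain ⟨t', ht'⟩ := hcut t C hC ⟨y, hy, hyC⟩
      exact ⟨t', ht' ▸ inter_subset_left, m, ht' ▸ hCs⟩
  let Γ : Type := Clopens K ⊕ N ⊕ N ⊕ {β // β < α}
  have hΓ : Nonempty Γ := ⟨Sum.inl ⊤⟩
  obtain ⟨g, hg⟩ := exists_surjective_nat Γ
  let GΓ : Γ → Set N := fun γ => Sum.elim (fun C : Clopens K => {t | Q t ⊆ C ∨ Disjoint (Q t) C})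
    (Sum.elim (fun s => {t | Q t ⊆ Q s ∨ Disjoint (Q t) (Q s)})
      (Sum.elim (fun s => {t | x s ∉ Q t}) fun β => {t | ∃ m, Q t ⊆ (Φ β.1 m).1})) γ
  have hGd : ∀ k t, ∃ t', Q t' ⊆ Q t ∧ t' ∈ GΓ (g k) := by
    intro k t
    rcases g k with C | s | s | β
    · exact hdec _ C.isClopen.isClosed t
    · exact hdec _ (hcl s) t
    · exact havoid _ t
    · exact hdown β t
  have hGo : ∀ k t t', t ∈ GΓ (g k) → Q t' ⊆ Q t → t' ∈ GΓ (g k) := by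
    intro k t t' h htt
    rcases hgk : g k with C | s | s | β <;> rw [hgk] at h
    · exact h.imp (fun h => htt.trans h) fun h => h.mono_left htt
    · exact h.imp (fun h => htt.trans h) fun h => h.mono_left htt
    · exact fun h' => h (htt h')
    · obtain ⟨m, hm⟩ := h; exact ⟨m, htt.trans hm⟩
  let up : Finset N → Finset Nd := fun F => F.map ⟨Subtype.val, Subtype.val_injective⟩
  have hup : ∀ (F : Finset N) (t : Nd), t ∈ up F ↔ ∃ h : t.lv < α, (⟨t, h⟩ : N) ∈ F := by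
    intro F t
    simp only [up, Finset.mem_map, Function.Embedding.coeFn_mk]
    constructor
    · rintro ⟨s, hs, rfl⟩; exact ⟨s.2, hs⟩
    · rintro ⟨h, ht⟩; exact ⟨_, ht, rfl⟩
  let E : Set (Finset N) := {F | DenseB Φ α (𝒜 α) → up F ∈ 𝒜 α}
  have hE : ∀ F : Finset N, ∃ F' ∈ E, ∀ t ∈ F, ∃ t' ∈ F', Q t' ⊆ Q t := by
    intro F
    by_cases hd : DenseB Φ α (𝒜 α)
    · obtain ⟨F', hF', h1, h2⟩ := hd (up F) (fun t ht => ((hup F t).1 ht).1)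
      have h3 : up (F'.subtype fun t => t.lv < α) = F' := by
        ext t
        rw [hup]
        constructor
        · rintro ⟨h, ht⟩
          exact Finset.mem_subtype.1 ht
        · intro ht
          exact ⟨h1 t ht, Finset.mem_subtype.2 ht⟩
      refine ⟨F'.subtype fun t => t.lv < α, fun _ => h3.symm ▸ hF', fun t ht => ?_⟩
      obtain ⟨t', ht', h4⟩ := h2 t.1 ((hup F t.1).2 ⟨t.2, ht⟩)
      exact ⟨⟨t', h1 t' ht'⟩, Finset.mem_subtype.2 ht', h4⟩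
    · exact ⟨F, fun h => absurd h hd, fun t ht => ⟨t, ht, Subset.rfl⟩⟩
  obtain ⟨r, hr1, hr2, hr3, hr4, hr5, hr6, hr7⟩ := fusion Q hcl hne hpf hcut (fun k => GΓ (g k)) hGd
    hGo E hE (by
      intro C hC
      obtain ⟨k, hk⟩ := hg (Sum.inl ⟨C, hC⟩)
      refine ⟨k, fun t ht => ?_⟩
      rw [hk] at ht
      exact ht)
  obtain ⟨v, hv1, hv2, hv3⟩ := mkLev r hr1 hr2 hr3 hr4
  refine ⟨v, hv1, fun β hβ => ⟨?_, ?_, ?_, ?_⟩, ?_⟩
  · intro m n y hy1 hy2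
    obtain ⟨j, hj⟩ := hv2 n
    obtain ⟨k, hk⟩ := hg (Sum.inr (Sum.inl ⟨⟨β, m⟩, hβ⟩))
    obtain ⟨F, hF1, hF2, hF3⟩ := hr6 j k
    obtain ⟨t, ht, hyt⟩ := mem_iUnion₂.1 (hF2 (hj hy2))
    have h1 := hF1 t ht
    rw [hk] at h1
    have h2 : Q t ⊆ (Φ β m).1 := by
      rcases h1 with h | h
      · exact h
      · exact absurd hy1 (disjoint_left.1 h hyt)
    have h3 : IsClosed (⋃ t' ∈ F.erase t, Q t') :=
      (F.erase t).finite_toSet.isClosed_biUnion fun t' _ => hcl t'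
    obtain ⟨C, hC, hyC, hCs⟩ := exists_clopen h3.isOpen_compl (y := y) (by
      intro h
      obtain ⟨t', ht', hyt'⟩ := mem_iUnion₂.1 h
      exact disjoint_left.1 (hF3 t ht t' (Finset.mem_of_mem_erase ht')
        (Finset.ne_of_mem_erase ht').symm) hyt hyt')
    refine ⟨C, hC, hyC, fun z hz => ?_⟩
    obtain ⟨t', ht', hzt'⟩ := mem_iUnion₂.1 (hF2 (hj hz.1))
    by_cases htt : t' = t
    · subst htt; exact h2 hzt'
    · exact absurd (mem_iUnion₂.2 ⟨t', Finset.mem_erase.2 ⟨htt, ht'⟩, hzt'⟩) (hCs hz.2)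
  · intro n
    obtain ⟨j, hj⟩ := hv2 n
    obtain ⟨k, hk⟩ := hg (Sum.inr (Sum.inr (Sum.inr ⟨β, hβ⟩)))
    obtain ⟨F, hF1, hF2, -⟩ := hr6 j k
    have h1 : ∀ t ∈ F, ∃ m, Q t ⊆ (Φ β m).1 := by
      intro t ht
      have h1 := hF1 t ht
      rw [hk] at h1
      exact h1
    choose! m hm using h1
    refine ⟨F.image m, fun y hy => ?_⟩
    obtain ⟨t, ht, hyt⟩ := mem_iUnion₂.1 (hF2 (hj hy))
    exact mem_iUnion₂.2 ⟨m t, Finset.mem_image_of_mem _ ht, hm t ht hyt⟩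
  · intro m
    obtain ⟨j, hj⟩ := hr5 ⟨⟨β, m⟩, hβ⟩
    obtain ⟨n, hn⟩ := hv3 j
    exact ⟨n, hn ▸ hj⟩
  · intro m n h
    obtain ⟨j, hj⟩ := hv2 n
    obtain ⟨k, hk⟩ := hg (Sum.inr (Sum.inr (Sum.inl ⟨⟨β, m⟩, hβ⟩)))
    obtain ⟨F, hF1, hF2, -⟩ := hr6 j k
    obtain ⟨t, ht, hyt⟩ := mem_iUnion₂.1 (hF2 (hj h))
    have h1 := hF1 t ht
    rw [hk] at h1
    exact h1 hyt
  · intro _ hd S
    choose j hj using hv2
    obtain ⟨F', hF', h1⟩ := hr7 (S.sup j + 1)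
    refine ⟨up F', hF' hd, fun t ht => ((hup F' t).1 ht).1, fun n hn y hy => ?_⟩
    obtain ⟨t, ht, hyt⟩ := mem_iUnion₂.1
      (h1 (j n) (Nat.lt_succ_of_le (Finset.le_sup hn)) (hj n hy))
    exact mem_iUnion₂.2 ⟨t.1, (hup F' t.1).2 ⟨t.2, ht⟩, hyt⟩

/-- the systems of perfect sets -/
structure Sys (Φ : W → Vt) : Prop where
  lev : ∀ α, Lev (Φ α)
  rel : ∀ α, ∀ β < α, Rel (Φ β) (Φ α)

/-- genericity -/
def FullJ (Φ : W → Vt) : Prop :=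
  ∀ E : Set (Finset Nd), (∀ F : Finset Nd, ∃ F' ∈ E, ∀ t ∈ F, ∃ t' ∈ F', q Φ t' ⊆ q Φ t) →
    ∃ α, ∀ S : Finset ℕ, ∃ F' ∈ E, ∀ n ∈ S, (Φ α n).1 ⊆ ⋃ t ∈ F', q Φ t

theorem exists_jens (hD : Diamond) : ∃ Φ : W → Vt, Sys Φ ∧ FullJ Φ := by
  obtain ⟨𝒜, h𝒜⟩ := diamond_fin hD
  obtain ⟨Φ, hr⟩ := exists_rec' (V := Vt) (fun Φ α v => Req 𝒜 Φ α v)
    (fun Φ Φ' α v h1 h2 => h2.congr h1) (fun Φ α h => exists_req 𝒜 h)
  refine ⟨Φ, ⟨fun α => (hr α).lev, fun α => (hr α).rel⟩, fun E hE => ?_⟩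
  choose φ hφ1 hφ2 using hE
  have h1 : ∀ β : W, ∃ γ, ∀ p : Finset Nd, (∀ t ∈ p, t.lv ≤ β) → ∀ t ∈ φ p, t.lv < γ := by
    intro β
    have h2 : (⋃ p ∈ {p : Finset Nd | ∀ t ∈ p, t.lv ∈ Iic β},
        ((φ p : Set Nd).image fun t => t.lv)).Countable :=
      (countable_fin (countable_Iic β)).biUnion fun p _ => ((φ p).countable_toSet.image _)
    obtain ⟨γ, hγ⟩ := exists_ub h2
    exact ⟨γ, fun p hp t ht => hγ _ (mem_iUnion₂.2 ⟨p, hp, t, ht, rfl⟩)⟩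
  choose G hG using h1
  obtain ⟨α, hα1, hα2, hα3⟩ := h𝒜 E G
  have hdense : DenseB Φ α (𝒜 α) := by
    intro F hF
    obtain ⟨β, hβ, hβF⟩ := max_level hα1 F hF
    have h2 : ∀ t ∈ φ F, t.lv < α := fun t ht => (hG β F hβF t ht).trans (hα2 β hβ)
    exact ⟨φ F, (hα3 _ h2).1 (hφ1 F), h2, hφ2 F⟩
  refine ⟨α, fun S => ?_⟩
  obtain ⟨F', h1, h2, h3⟩ := (hr α).gen hα1 hdense S
  exact ⟨F', (hα3 _ h2).2 h1, h3⟩

end Pool.Agent.X200.Jens
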