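import Mathlib
import Pool.Agent.X200.FullSusQ
import Pool.Agent.X200.JensRec

/-!
A submetrizable first countable regular uncountable space with a Frechet-Urysohn space of
quasicontinuous functions, from diamond.
-/

set_option autoImplicit false

namespace Pool.Agent.X200.Jens

open Set Topology TopologicalSpace Filter Pool.Agent.Helper330.DPK.Coh Pool.Agent.X200.QpLusin
open Pool.Agent.X200.FullSus (Nd Diamond max_level exists_ub exists_lub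
  countable_nd countable_fin sc lt_sc sc_le ext_fin exists_ub_nat uncountable_W)

/-- the systems used in the construction -/
structure JS where
  Φ : W → Vt
  sys : Sys Φ
  full : FullJ Φ

variable (J : JS)

/-- the points -/
def JS.x (t : Nd) : K := (J.Φ t.lv t.ix).2

/-- the space -/
def Sp : Type := {y : K // ∃ t : Nd, y = J.x t}

variable {J}

/-- the node of a point -/
noncomputable def nd (y : Sp J) : Nd := y.2.choose

theorem nd_spec (y : Sp J) : y.1 = J.x (nd y) := y.2.choose_spec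

theorem x_mem (t : Nd) : J.x t ∈ q J.Φ t := (J.sys.lev t.lv).mem t.ix

theorem nd_mem (y : Sp J) : y.1 ∈ q J.Φ (nd y) := by
  rw [nd_spec y]; exact x_mem _

/-- the point of a node -/
def pt (t : Nd) : Sp J := ⟨J.x t, t, rfl⟩

theorem exists_c (y : Sp J) (k : ℕ) : ∃ t : Nd, t.lv = sc (nd y).lv ∧
    q J.Φ t ⊆ q J.Φ (nd y) ∩ cyl y.1 k := by
  obtain ⟨m, hm⟩ := (J.sys.lev (nd y).lv).cut (nd y).ix _ (isClopen_cyl y.1 k)
    ⟨y.1, nd_mem y, mem_cyl _ _⟩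
  obtain ⟨n, hn⟩ := (J.sys.rel _ _ (lt_sc (nd y).lv)).ref m
  refine ⟨⟨sc (nd y).lv, n⟩, rfl, ?_⟩
  rw [hm] at hn
  exact hn

/-- the chosen nodes near a point -/
noncomputable def c (y : Sp J) (k : ℕ) : Nd := (exists_c y k).choose

theorem c_sub (y : Sp J) (k : ℕ) : q J.Φ (c y k) ⊆ q J.Φ (nd y) ∩ cyl y.1 k :=
  (exists_c y k).choose_spec.2

/-- cones -/
def cone (t : Nd) : Set (Sp J) := {z | z.1 ∈ q J.Φ t}

noncomputable instance : TopologicalSpace (Sp J) where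
  IsOpen U := ∀ y ∈ U, ∃ k₀, ∀ k ≥ k₀, cone (c y k) ⊆ U
  isOpen_univ := fun y _ => ⟨0, fun k _ => subset_univ _⟩
  isOpen_inter := by
    intro U V hU hV y hy
    obtain ⟨k, hk⟩ := hU y hy.1
    obtain ⟨l, hl⟩ := hV y hy.2
    exact ⟨max k l, fun m hm => subset_inter (hk m ((le_max_left _ _).trans hm))
      (hl m ((le_max_right _ _).trans hm))⟩
  isOpen_sUnion := by
    intro 𝒰 h𝒰 y hy
    obtain ⟨U, hU, hyU⟩ := hy
    obtain ⟨k, hk⟩ := h𝒰 U hU y hyU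
    exact ⟨k, fun m hm => (hk m hm).trans (subset_sUnion_of_mem hU)⟩

theorem isOpen_iff {U : Set (Sp J)} : IsOpen U ↔ ∀ y ∈ U, ∃ k₀, ∀ k ≥ k₀, cone (c y k) ⊆ U :=
  Iff.rfl

theorem lv_le {y : Sp J} {t : Nd} (h : y.1 ∈ q J.Φ t) : t.lv ≤ (nd y).lv := by
  by_contra hcon
  apply (J.sys.rel _ _ (not_le.1 hcon)).avoid (nd y).ix t.ix
  rw [nd_spec y] at h
  exact h

theorem c_ev {y : Sp J} {t : Nd} (h : y.1 ∈ q J.Φ t) : ∃ k₀, ∀ k ≥ k₀,
    q J.Φ (c y k) ⊆ q J.Φ t := by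
  have h1 : ∃ C, IsClopen C ∧ y.1 ∈ C ∧ q J.Φ (nd y) ∩ C ⊆ q J.Φ t := by
    rcases (lv_le h).eq_or_lt with h2 | h2
    · have h3 := (J.sys.lev t.lv).same t.ix (nd y).ix y.1 h (by rw [h2]; exact nd_mem y)
      rw [h2] at h3
      obtain ⟨C, hC, hyC, hCs⟩ := h3
      refine ⟨C, hC, hyC, ?_⟩
      have h4 : q J.Φ t = (J.Φ (nd y).lv t.ix).1 := by rw [← h2]; rfl
      rw [h4]
      exact hCs
    · exact (J.sys.rel _ _ h2).low t.ix (nd y).ix y.1 h (nd_mem y)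
  obtain ⟨C, hC, hyC, hCs⟩ := h1
  obtain ⟨k₀, hk₀⟩ := cyl_sub hC.isOpen hyC
  refine ⟨k₀, fun k hk => ?_⟩
  refine (c_sub y k).trans ?_
  exact (inter_subset_inter_right _ ((cyl_anti _ hk).trans hk₀)).trans hCs

theorem isOpen_cone (t : Nd) : IsOpen (cone t : Set (Sp J)) := by
  rw [isOpen_iff]
  intro y hy
  obtain ⟨k₀, hk⟩ := c_ev hy
  exact ⟨k₀, fun k hkk z hz => hk k hkk hz⟩

theorem continuous_val : Continuous (fun y : Sp J => y.1) := by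
  refine continuous_def.2 fun V hV => ?_
  rw [isOpen_iff]
  intro y hy
  obtain ⟨k₀, hk₀⟩ := cyl_sub hV hy
  exact ⟨k₀, fun k hk z hz => hk₀ (cyl_anti _ hk (c_sub y k hz).2)⟩

theorem isClosed_cone (t : Nd) : IsClosed (cone t : Set (Sp J)) :=
  ((J.sys.lev t.lv).closed t.ix).preimage continuous_val

/-- basic neighbourhoods -/
def Nb (y : Sp J) (n : ℕ) : Set (Sp J) := {z | z = y ∨ ∃ k ≥ n, z ∈ cone (c y k)}

theorem isOpen_Nb (y : Sp J) (n : ℕ) : IsOpen (Nb y n) := by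
  rw [isOpen_iff]
  rintro z (rfl | ⟨k, hk, hz⟩)
  · exact ⟨n, fun k hk w hw => Or.inr ⟨k, hk, hw⟩⟩
  · obtain ⟨k₀, hk₀⟩ := isOpen_iff.1 (isOpen_cone (c y k)) z hz
    exact ⟨k₀, fun l hl => (hk₀ l hl).trans fun w hw => Or.inr ⟨k, hk, hw⟩⟩

theorem isClosed_Nb (y : Sp J) (n : ℕ) : IsClosed (Nb y n) := by
  classical
  rw [← isOpen_compl_iff, isOpen_iff_forall_mem_open]
  intro z hz
  have hzy : z.1 ≠ y.1 := fun h => hz (Or.inl (Subtype.ext h))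
  obtain ⟨k₁, hk₁⟩ := cyl_sep hzy
  let A : Set (Sp J) := (fun y : Sp J => y.1) ⁻¹' (cyl y.1 k₁) ∪
    ⋃ k ∈ (Finset.range k₁).filter (n ≤ ·), cone (c y k)
  have hA : IsClosed A := by
    refine ((isClopen_cyl y.1 k₁).isClosed.preimage continuous_val).union ?_
    exact (Finset.finite_toSet _).isClosed_biUnion fun k _ => isClosed_cone _
  refine ⟨Aᶜ, ?_, hA.isOpen_compl, ?_⟩
  · apply compl_subset_compl.2
    rintro w (rfl | ⟨k, hk, hw⟩)
    · exact Or.inl (mem_cyl _ _)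
    · rcases lt_or_ge k k₁ with h | h
      · exact Or.inr (mem_iUnion₂.2 ⟨k, Finset.mem_filter.2 ⟨Finset.mem_range.2 h, hk⟩, hw⟩)
      · exact Or.inl (cyl_anti _ h (c_sub y k hw).2)
  · rintro (h | h)
    · exact hk₁ h
    · obtain ⟨k, hk, hzk⟩ := mem_iUnion₂.1 h
      exact hz (Or.inr ⟨k, (Finset.mem_filter.1 hk).2, hzk⟩)

theorem hasBasis (y : Sp J) : (𝓝 y).HasBasis (fun _ : ℕ => True) (Nb y) := by
  refine ⟨fun U => ⟨fun h => ?_, fun ⟨n, _, hn⟩ => ?_⟩⟩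
  · obtain ⟨V, hVU, hV, hyV⟩ := mem_nhds_iff.1 h
    obtain ⟨k₀, hk₀⟩ := isOpen_iff.1 hV y hyV
    refine ⟨k₀, trivial, ?_⟩
    rintro z (rfl | ⟨k, hk, hz⟩)
    · exact hVU hyV
    · exact hVU (hk₀ k hk hz)
  · exact mem_of_superset ((isOpen_Nb y n).mem_nhds (Or.inl rfl)) hn

theorem firstCountable : FirstCountableTopology (Sp J) :=
  ⟨fun y => (hasBasis y).isCountablyGenerated⟩

theorem regular : RegularSpace (Sp J) :=
  RegularSpace.of_hasBasis (fun y => hasBasis y) fun y n _ => isClosed_Nb y n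

/-- submetrizable spaces -/
def Submetrizable (X : Type*) [t : TopologicalSpace X] : Prop :=
  ∃ m : TopologicalSpace X, @MetrizableSpace X m ∧ t ≤ m

theorem submetrizable : Submetrizable (Sp J) := by
  refine ⟨TopologicalSpace.induced (fun y : Sp J => y.1) inferInstance, ?_, ?_⟩
  · letI : TopologicalSpace (Sp J) := TopologicalSpace.induced (fun y : Sp J => y.1) inferInstance
    have h : IsEmbedding (fun y : Sp J => y.1) := ⟨⟨rfl⟩, Subtype.val_injective⟩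
    exact h.metrizableSpace
  · exact continuous_iff_le_induced.1 continuous_val

theorem lv_pt (t : Nd) : (nd (pt t : Sp J)).lv = t.lv := by
  refine le_antisymm ?_ (lv_le (x_mem t))
  by_contra hcon
  apply (J.sys.rel _ _ (not_le.1 hcon)).avoid t.ix (nd (pt t : Sp J)).ix
  have h1 : J.x t = J.x (nd (pt t : Sp J)) := nd_spec (pt t : Sp J)
  show J.x t ∈ q J.Φ (nd (pt t : Sp J))
  rw [h1]
  exact x_mem _

theorem uncountable_Sp : ¬ Countable (Sp J) := by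
  intro h
  apply uncountable_W
  have h1 : (range (fun y : Sp J => (nd y).lv)).Countable := countable_range _
  refine h1.mono ?_
  intro a _
  exact ⟨pt ⟨a, 0⟩, lv_pt _⟩

theorem exists_ix (z : Sp J) {α : W} (h : α ≤ (nd z).lv) : ∃ n, z ∈ (cone ⟨α, n⟩ : Set (Sp J)) := by
  rcases h.eq_or_lt with rfl | h
  · exact ⟨_, nd_mem z⟩
  · obtain ⟨F, hF⟩ := (J.sys.rel _ _ h).cov (nd z).ix
    obtain ⟨m, -, hm⟩ := mem_iUnion₂.1 (hF (nd_mem z))
    exact ⟨m, hm⟩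

theorem full' {E : Set (Finset Nd)}
    (hE : ∀ F : Finset Nd, ∃ F' ∈ E, ∀ t ∈ F, ∃ t' ∈ F', q J.Φ t' ⊆ q J.Φ t) :
    ∃ α, ∀ β ≥ α, ∀ S : Finset ℕ, ∃ F' ∈ E, ∀ n ∈ S, (J.Φ β n).1 ⊆ ⋃ t ∈ F', q J.Φ t := by
  classical
  obtain ⟨α, hα⟩ := J.full E hE
  refine ⟨α, fun β hβ S => ?_⟩
  rcases (show α ≤ β from hβ).eq_or_lt with rfl | hlt
  · exact hα S
  choose F hF using (J.sys.rel _ _ hlt).cov
  obtain ⟨F', hF', h1⟩ := hα (S.biUnion F)
  refine ⟨F', hF', fun n hn y hy => ?_⟩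
  obtain ⟨m, hm, hym⟩ := mem_iUnion₂.1 (hF n hy)
  exact h1 m (Finset.mem_biUnion.2 ⟨n, hn, hm⟩) hym

theorem dag {g : Sp J → ℝ} (hg : QC g) {A : Set (Sp J → ℝ)} (hA : ∀ f ∈ A, QC f)
    (hgA : ∀ (F : Finset (Sp J)) (ε : ℝ), 0 < ε → ∃ f ∈ A, ∀ x ∈ F, |f x - g x| < ε) :
    ∃ α, ∀ β ≥ α, ∀ (S : Finset ℕ) (k : ℕ), ∃ f ∈ A, ∀ n ∈ S, ∀ s ∈ (cone ⟨β, n⟩ : Set (Sp J)),
      |f s - g s| < 1 / ((k : ℝ) + 1) := by
  classical
  have h1 : ∀ k : ℕ, ∃ α, ∀ β ≥ α, ∀ S : Finset ℕ,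
      ∃ F' ∈ {F : Finset Nd | ∃ f ∈ A, ∀ t ∈ F, ∀ s ∈ (cone t : Set (Sp J)),
        |f s - g s| < 1 / ((k : ℝ) + 1)},
        ∀ n ∈ S, (J.Φ β n).1 ⊆ ⋃ t ∈ F', q J.Φ t := by
    intro k
    have hk : (0 : ℝ) < 1 / ((k : ℝ) + 1) := by positivity
    obtain ⟨ε, hε, hε4⟩ : ∃ ε : ℝ, 0 < ε ∧ 4 * ε = 1 / ((k : ℝ) + 1) :=
      ⟨1 / ((k : ℝ) + 1) / 4, by positivity, by ring⟩
    refine full' fun F => ?_
    have h2 : ∀ t : Nd, ∃ O : Set (Sp J), IsOpen O ∧ O.Nonempty ∧ O ⊆ cone t ∧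
        g '' O ⊆ Metric.ball (g (pt t)) ε := fun t =>
      hg (pt t) (cone t) (isOpen_cone t) (x_mem t) _ Metric.isOpen_ball (Metric.mem_ball_self hε)
    choose O hO hOne hOc hOg using h2
    choose z hz using hOne
    obtain ⟨f, hf, hfz⟩ := hgA (F.image z) ε hε
    obtain ⟨F', h1, h2⟩ := ext_fin (P := fun t d => q J.Φ d ⊆ q J.Φ t ∧
      ∀ s ∈ (cone d : Set (Sp J)), |f s - g s| < 1 / ((k : ℝ) + 1)) F (by
        intro t ht
        obtain ⟨O', hO', ⟨w, hw⟩, hOO, hOf⟩ := hA f hf (z t) (O t) (hO t) (hz t)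
          (Metric.ball (f (z t)) ε) Metric.isOpen_ball (Metric.mem_ball_self hε)
        obtain ⟨k₁, hk₁⟩ := isOpen_iff.1 hO' w hw
        obtain ⟨k₂, hk₂⟩ := c_ev (hOc t (hOO hw))
        refine ⟨c w (max k₁ k₂), hk₂ _ (le_max_right _ _), fun s hs => ?_⟩
        have hsO := hk₁ _ (le_max_left _ _) hs
        have e1 := hOf ⟨s, hsO, rfl⟩
        have e2 := hOg t ⟨s, hOO hsO, rfl⟩
        have e3 := hOg t ⟨z t, hz t, rfl⟩
        have e4 := hfz (z t) (Finset.mem_image_of_mem z ht)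
        rw [Metric.mem_ball, Real.dist_eq, abs_lt] at e1 e2 e3
        rw [abs_lt] at e4
        rw [← hε4, abs_lt]
        constructor <;> linarith [e1.1, e1.2, e2.1, e2.2, e3.1, e3.2, e4.1, e4.2])
    refine ⟨F', ⟨f, hf, fun d hd => ?_⟩, fun t ht => ?_⟩
    · obtain ⟨t, -, -, h3⟩ := h2 d hd
      exact h3
    · obtain ⟨d, hd, h3, -⟩ := h1 t ht
      exact ⟨d, hd, h3⟩
  choose a ha using h1
  obtain ⟨α, hα⟩ := exists_ub_nat a
  refine ⟨α, fun β hβ S k => ?_⟩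
  obtain ⟨F', ⟨f, hf, h1⟩, h2⟩ := ha k β ((hα k).trans hβ) S
  refine ⟨f, hf, fun n hn s hs => ?_⟩
  obtain ⟨t', ht', h3⟩ := mem_iUnion₂.1 (h2 n hn hs)
  exact h1 t' ht' s h3

theorem Qp_near {X : Type} [TopologicalSpace X] {A : Set (Qp X)} {g : Qp X} (hg : g ∈ closure A)
    (F : Finset X) {ε : ℝ} (hε : 0 < ε) : ∃ f ∈ A, ∀ x ∈ F, |f.1 x - g.1 x| < ε := by
  have h1 : IsOpen {h : Qp X | ∀ x ∈ F, |h.1 x - g.1 x| < ε} := by
    have h2 : {h : Qp X | ∀ x ∈ F, |h.1 x - g.1 x| < ε} =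
        ⋂ x ∈ F, {h : Qp X | |h.1 x - g.1 x| < ε} := by
      ext h; simp
    rw [h2]
    refine isOpen_biInter_finset fun x _ => ?_
    have h3 : Continuous fun h : Qp X => |h.1 x - g.1 x| := by
      have h4 : Continuous fun h : Qp X => h.1 x :=
        (continuous_apply (A := fun _ : X => ℝ) x).comp continuous_subtype_val
      exact (h4.sub continuous_const).abs
    exact isOpen_lt h3 continuous_const
  obtain ⟨f, hf1, hf2⟩ := mem_closure_iff.1 hg _ h1 (fun x _ => by simpa using hε)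
  exact ⟨f, hf2, hf1⟩

theorem fu : FrechetUrysohnSpace (Qp (Sp J)) := by
  classical
  refine ⟨fun A g hg => ?_⟩
  -- the bounds
  have h1 : ∀ (F₀ : Finset Nd) (k : ℕ), ∃ α, ∀ β ≥ α, ∀ S : Finset ℕ, ∃ f ∈ A,
      (∀ t ∈ F₀, |f.1 (pt t) - g.1 (pt t)| < 1 / ((k : ℝ) + 1)) ∧
      ∀ n ∈ S, ∀ s ∈ (cone ⟨β, n⟩ : Set (Sp J)), |f.1 s - g.1 s| < 1 / ((k : ℝ) + 1) := by
    intro F₀ k
    have hk : (0 : ℝ) < 1 / ((k : ℝ) + 1) := by positivity
    let A' : Set (Sp J → ℝ) := {f | ∃ h ∈ A, h.1 = f ∧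
      ∀ t ∈ F₀, |f (pt t) - g.1 (pt t)| < 1 / ((k : ℝ) + 1)}
    obtain ⟨α, hα⟩ := dag g.2 (A := A') (by rintro _ ⟨h, -, rfl, -⟩; exact h.2) (by
      intro F ε hε
      obtain ⟨f, hf, hfF⟩ := Qp_near hg (F ∪ F₀.image pt) (lt_min hε hk)
      refine ⟨f.1, ⟨f, hf, rfl, fun t ht => ?_⟩, fun x hx => ?_⟩
      · exact (hfF _ (Finset.mem_union_right _ (Finset.mem_image_of_mem _ ht))).trans_le
          (min_le_right _ _)
      · exact (hfF x (Finset.mem_union_left _ hx)).trans_le (min_le_left _ _))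
    refine ⟨α, fun β hβ S => ?_⟩
    obtain ⟨_, ⟨h, hh, rfl, h2⟩, h3⟩ := hα β hβ S k
    exact ⟨h, hh, h2, h3⟩
  choose a ha using h1
  -- closing off
  have h2 : ∀ β : W, ∃ γ, β < γ ∧ ∀ F₀ : Finset Nd, (∀ t ∈ F₀, t.lv ≤ β) → ∀ k, a F₀ k < γ := by
    intro β
    have h3 : (⋃ p ∈ {p : Finset Nd | ∀ t ∈ p, t.lv ∈ Iic β}, range (a p)).Countable :=
      (countable_fin (countable_Iic β)).biUnion fun p _ => countable_range _
    obtain ⟨γ, hγ⟩ := exists_ub (h3.union (countable_singleton β))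
    exact ⟨γ, hγ _ (Or.inr rfl), fun p hp k => hγ _ (Or.inl (mem_iUnion₂.2 ⟨p, hp, k, rfl⟩))⟩
  choose G hG1 hG2 using h2
  let s : ℕ → W := fun n => G^[n] (Classical.arbitrary W)
  have hs : ∀ n, s (n + 1) = G (s n) := fun n => Function.iterate_succ_apply' G n _
  obtain ⟨α, hα1, hα2⟩ := exists_lub s
  have hαa : ∀ F₀ : Finset Nd, (∀ t ∈ F₀, t.lv < α) → ∀ k, a F₀ k ≤ α := by
    intro F₀ hF₀ k
    obtain ⟨β, hβ, hβF⟩ := max_level ⟨s 0, hα1 0⟩ F₀ hF₀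
    obtain ⟨n, hn⟩ := hα2 β hβ
    have h3 := hG2 (s n) F₀ (fun t ht => (hβF t ht).trans hn) k
    rw [← hs] at h3
    exact (h3.trans (hα1 (n + 1))).le
  obtain ⟨e, he⟩ := (countable_nd (countable_Iio α)).exists_eq_range ⟨⟨s 0, 0⟩, hα1 0⟩
  have heα : ∀ n, (e n).lv < α := fun n => by
    have : e n ∈ {t : Nd | t.lv ∈ Iio α} := he ▸ mem_range_self n
    exact this
  have h3 : ∀ j : ℕ, ∃ f ∈ A, (∀ i ≤ j, |f.1 (pt (e i)) - g.1 (pt (e i))| < 1 / ((j : ℝ) + 1)) ∧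
      ∀ n < j, ∀ s ∈ (cone ⟨α, n⟩ : Set (Sp J)), |f.1 s - g.1 s| < 1 / ((j : ℝ) + 1) := by
    intro j
    obtain ⟨f, hf, h4, h5⟩ := ha ((Finset.range (j + 1)).image e) j α (hαa _ (by
      intro t ht
      obtain ⟨i, -, rfl⟩ := Finset.mem_image.1 ht
      exact heα i) j) (Finset.range j)
    exact ⟨f, hf, fun i hi => h4 _ (Finset.mem_image.2 ⟨i, Finset.mem_range.2 (by omega), rfl⟩),
      fun n hn => h5 n (Finset.mem_range.2 hn)⟩
  choose f hf hf1 hf2 using h3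
  refine ⟨f, hf, ?_⟩
  have hconv : ∀ x : Sp J, ∃ N : ℕ, ∀ j ≥ N, |(f j).1 x - g.1 x| < 1 / ((j : ℝ) + 1) := by
    intro x
    rcases lt_or_ge (nd x).lv α with h | h
    · have h4 : nd x ∈ range e := by rw [← he]; exact h
      obtain ⟨i, hi⟩ := h4
      have h5 : x = pt (e i) := Subtype.ext (by rw [nd_spec x, hi]; rfl)
      exact ⟨i, fun j hj => by rw [h5]; exact hf1 j i hj⟩
    · obtain ⟨n, hn⟩ := exists_ix x h
      exact ⟨n + 1, fun j hj => hf2 j n (by omega) x hn⟩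
  refine tendsto_subtype_rng.2 (tendsto_pi_nhds.2 fun x => ?_)
  obtain ⟨N, hN⟩ := hconv x
  rw [Metric.tendsto_atTop]
  intro ε hε
  obtain ⟨M, hM⟩ := exists_nat_one_div_lt hε
  refine ⟨max N M, fun j hj => ?_⟩
  rw [Real.dist_eq]
  refine (hN j ((le_max_left _ _).trans hj)).trans (lt_of_le_of_lt ?_ hM)
  have h5 : M ≤ j := (le_max_right _ _).trans hj
  exact Nat.one_div_le_one_div h5

theorem main (hD : Diamond) : ∃ (X : Type) (_ : TopologicalSpace X), FirstCountableTopology X ∧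
    RegularSpace X ∧ Submetrizable X ∧ FrechetUrysohnSpace (Qp X) ∧ ¬ Countable X := by
  obtain ⟨Φ, h1, h2⟩ := exists_jens hD
  exact ⟨Sp ⟨Φ, h1, h2⟩, inferInstance, firstCountable, regular, submetrizable, fu, uncountable_Sp⟩

end Pool.Agent.X200.Jens
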