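import Mathlib
import Pool.Agent.X200.JensTop

/-!
The space constructed from diamond is a Lusin space and a gamma-space.
-/

set_option autoImplicit false

namespace Pool.Agent.X200.Jens

open Set Topology TopologicalSpace Filter Pool.Agent.Helper330.DPK.Coh
open Pool.Agent.X200.FullSus (Nd Diamond max_level exists_ub exists_lub
  countable_nd countable_fin sc lt_sc sc_le ext_fin exists_ub_nat uncountable_W)

/-- Lusin spaces -/
def LusinK (X : Type*) [TopologicalSpace X] : Prop :=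
  T2Space X ∧ (∀ N : Set X, IsNowhereDense N → N.Countable) ∧
    {x : X | IsOpen ({x} : Set X)}.Countable ∧ ¬ Countable X

/-- open omega-covers -/
def OmegaCover {X : Type*} [TopologicalSpace X] (𝒰 : Set (Set X)) : Prop :=
  (∀ U ∈ 𝒰, IsOpen U) ∧ univ ∉ 𝒰 ∧ ⋃₀ 𝒰 = univ ∧ ∀ F : Set X, F.Finite → ∃ U ∈ 𝒰, F ⊆ U

/-- open gamma-covers -/
def GammaCover {X : Type*} [TopologicalSpace X] (𝒰 : Set (Set X)) : Prop :=
  (∀ U ∈ 𝒰, IsOpen U) ∧ univ ∉ 𝒰 ∧ ⋃₀ 𝒰 = univ ∧ ∀ x : X, {U ∈ 𝒰 | x ∉ U}.Finite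

/-- gamma-spaces -/
def GammaSpace (X : Type*) [TopologicalSpace X] : Prop :=
  ∀ 𝒰 : Set (Set X), OmegaCover 𝒰 → ∃ 𝒱 ⊆ 𝒰, GammaCover 𝒱

variable {J : JS}

theorem t2 : T2Space (Sp J) := by
  refine ⟨fun x y hne => ?_⟩
  have h1 : x.1 ≠ y.1 := fun h => hne (Subtype.ext h)
  obtain ⟨U, V, hU, hV, hx, hy, hd⟩ := t2_separation h1
  exact ⟨_, _, hU.preimage continuous_val, hV.preimage continuous_val, hx, hy,
    hd.preimage _⟩

theorem c_lv (y : Sp J) (k : ℕ) : (c y k).lv = sc (nd y).lv := (exists_c y k).choose_spec.1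

/-- every nonempty open subset of a cone contains a smaller cone -/
theorem cone_in {O : Set (Sp J)} (hO : IsOpen O) {w : Sp J} (hw : w ∈ O) {t : Nd}
    (ht : w ∈ (cone t : Set (Sp J))) : ∃ t' : Nd, q J.Φ t' ⊆ q J.Φ t ∧
      (cone t' : Set (Sp J)) ⊆ O := by
  obtain ⟨k₁, hk₁⟩ := isOpen_iff.1 hO w hw
  obtain ⟨k₂, hk₂⟩ := c_ev ht
  exact ⟨c w (max k₁ k₂), hk₂ _ (le_max_right _ _), hk₁ _ (le_max_left _ _)⟩

theorem countable_below (α : W) : {y : Sp J | (nd y).lv < α}.Countable := by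
  have h1 : {y : Sp J | (nd y).lv < α} ⊆ pt '' {t : Nd | t.lv ∈ Iio α} := by
    intro y hy
    exact ⟨nd y, hy, Subtype.ext (nd_spec y).symm⟩
  exact ((countable_nd (countable_Iio α)).image _).mono h1

theorem nwd_countable {N : Set (Sp J)} (hN : IsNowhereDense N) : N.Countable := by
  have h0 : ∀ t : Nd, ∃ t' : Nd, q J.Φ t' ⊆ q J.Φ t ∧ (cone t' : Set (Sp J)) ∩ N = ∅ := by
    intro t
    have h1 : ¬ (cone t : Set (Sp J)) ⊆ closure N := by
      intro h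
      have h2 : (pt t : Sp J) ∈ interior (closure N) :=
        mem_interior.2 ⟨_, h, isOpen_cone t, x_mem t⟩
      rw [hN] at h2
      exact h2
    obtain ⟨w, hw1, hw2⟩ := not_subset.1 h1
    obtain ⟨t', h3, h4⟩ := cone_in (isClosed_closure.isOpen_compl) hw2 hw1
    refine ⟨t', h3, ?_⟩
    rw [Set.eq_empty_iff_forall_notMem]
    rintro z ⟨hz1, hz2⟩
    exact h4 hz1 (subset_closure hz2)
  choose φ hφ1 hφ2 using h0
  classical
  obtain ⟨α, hα⟩ := full' (J := J) (E := {F : Finset Nd | ∀ t ∈ F, (cone t : Set (Sp J)) ∩ N = ∅})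
    (fun F => ⟨F.image φ, fun t ht => by
      obtain ⟨s, -, rfl⟩ := Finset.mem_image.1 ht
      exact hφ2 s, fun t ht => ⟨φ t, Finset.mem_image_of_mem _ ht, hφ1 t⟩⟩)
  refine (countable_below α).mono fun y hy => ?_
  by_contra hcon
  obtain ⟨n, hn⟩ := exists_ix y (not_lt.1 hcon)
  obtain ⟨F', hF', h1⟩ := hα α le_rfl {n}
  obtain ⟨t, ht, hyt⟩ := mem_iUnion₂.1 (h1 n (Finset.mem_singleton_self n) hn)
  have h2 := hF' t ht
  rw [Set.eq_empty_iff_forall_notMem] at h2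
  exact h2 y ⟨hyt, hy⟩

theorem not_isolated (y : Sp J) : ¬ IsOpen ({y} : Set (Sp J)) := by
  intro h
  obtain ⟨k₀, hk₀⟩ := isOpen_iff.1 h y rfl
  have h1 : (pt (c y k₀) : Sp J) = y := hk₀ k₀ le_rfl (x_mem (c y k₀))
  have h2 := lv_pt (J := J) (c y k₀)
  rw [h1, c_lv] at h2
  exact (lt_sc (nd y).lv).ne h2

theorem lusin : LusinK (Sp J) := by
  refine ⟨t2, fun N hN => nwd_countable hN, ?_, uncountable_Sp⟩
  have h1 : {x : Sp J | IsOpen ({x} : Set (Sp J))} = ∅ := by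
    rw [Set.eq_empty_iff_forall_notMem]
    exact fun x hx => not_isolated x hx
  rw [h1]
  exact countable_empty

theorem gamma : GammaSpace (Sp J) := by
  classical
  rintro 𝒰 ⟨hop, huniv, -, hω⟩
  have h1 : ∀ F₀ : Finset Nd, ∃ α, ∀ β ≥ α, ∀ S : Finset ℕ, ∃ U ∈ 𝒰,
      (∀ t ∈ F₀, (pt t : Sp J) ∈ U) ∧ ∀ n ∈ S, (cone ⟨β, n⟩ : Set (Sp J)) ⊆ U := by
    intro F₀
    obtain ⟨α, hα⟩ := full' (J := J) (E := {F : Finset Nd | ∃ U ∈ 𝒰,
      (∀ t ∈ F₀, (pt t : Sp J) ∈ U) ∧ ∀ t ∈ F, (cone t : Set (Sp J)) ⊆ U}) (by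
        intro F
        obtain ⟨U, hU, hFU⟩ := hω ((F ∪ F₀).image (pt : Nd → Sp J)) (Finset.finite_toSet _)
        have h2 : ∀ t, ∃ t' : Nd, t ∈ F → q J.Φ t' ⊆ q J.Φ t ∧ (cone t' : Set (Sp J)) ⊆ U := by
          intro t
          by_cases ht : t ∈ F
          · have h3 : (pt t : Sp J) ∈ U := hFU (Finset.mem_coe.2 (Finset.mem_image_of_mem _
              (Finset.mem_union_left _ ht)))
            obtain ⟨t', h4⟩ := cone_in (hop U hU) h3 (x_mem t)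
            exact ⟨t', fun _ => h4⟩
          · exact ⟨t, fun h => absurd h ht⟩
        choose φ hφ using h2
        refine ⟨F.image φ, ⟨U, hU, fun t ht => hFU (Finset.mem_coe.2 (Finset.mem_image_of_mem _
          (Finset.mem_union_right _ ht))), fun t ht => ?_⟩,
          fun t ht => ⟨φ t, Finset.mem_image_of_mem _ ht, (hφ t ht).1⟩⟩
        obtain ⟨s, hs, rfl⟩ := Finset.mem_image.1 ht
        exact (hφ s hs).2)
    refine ⟨α, fun β hβ S => ?_⟩
    obtain ⟨F', ⟨U, hU, h2, h3⟩, h4⟩ := hα β hβ S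
    refine ⟨U, hU, h2, fun n hn y hy => ?_⟩
    obtain ⟨t, ht, hyt⟩ := mem_iUnion₂.1 (h4 n hn hy)
    exact h3 t ht hyt
  choose a ha using h1
  -- closing off
  have h2 : ∀ β : W, ∃ γ, β < γ ∧ ∀ F₀ : Finset Nd, (∀ t ∈ F₀, t.lv ≤ β) → a F₀ < γ := by
    intro β
    obtain ⟨γ, hγ⟩ := exists_ub (((countable_fin (countable_Iic β)).image a).union
      (countable_singleton β))
    exact ⟨γ, hγ _ (Or.inr rfl), fun p hp => hγ _ (Or.inl ⟨p, hp, rfl⟩)⟩
  choose G hG1 hG2 using h2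
  let s : ℕ → W := fun n => G^[n] (Classical.arbitrary W)
  have hs : ∀ n, s (n + 1) = G (s n) := fun n => Function.iterate_succ_apply' G n _
  obtain ⟨α, hα1, hα2⟩ := exists_lub s
  have hαa : ∀ F₀ : Finset Nd, (∀ t ∈ F₀, t.lv < α) → a F₀ ≤ α := by
    intro F₀ hF₀
    obtain ⟨β, hβ, hβF⟩ := max_level ⟨s 0, hα1 0⟩ F₀ hF₀
    obtain ⟨n, hn⟩ := hα2 β hβ
    have h3 := hG2 (s n) F₀ (fun t ht => (hβF t ht).trans hn)
    rw [← hs] at h3
    exact (h3.trans (hα1 (n + 1))).le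
  obtain ⟨e, he⟩ := (countable_nd (countable_Iio α)).exists_eq_range ⟨⟨s 0, 0⟩, hα1 0⟩
  have heα : ∀ n, (e n).lv < α := fun n => by
    have : e n ∈ {t : Nd | t.lv ∈ Iio α} := he ▸ mem_range_self n
    exact this
  have h3 : ∀ j : ℕ, ∃ U ∈ 𝒰, (∀ i ≤ j, (pt (e i) : Sp J) ∈ U) ∧
      ∀ n < j, (cone ⟨α, n⟩ : Set (Sp J)) ⊆ U := by
    intro j
    obtain ⟨U, hU, h4, h5⟩ := ha ((Finset.range (j + 1)).image e) α (hαa _ (by
      intro t ht
      obtain ⟨i, -, rfl⟩ := Finset.mem_image.1 ht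
      exact heα i)) (Finset.range j)
    exact ⟨U, hU, fun i hi => h4 _ (Finset.mem_image.2 ⟨i, Finset.mem_range.2 (by omega), rfl⟩),
      fun n hn => h5 n (Finset.mem_range.2 hn)⟩
  choose U hU hU1 hU2 using h3
  have hconv : ∀ x : Sp J, ∃ N : ℕ, ∀ j ≥ N, x ∈ U j := by
    intro x
    rcases lt_or_ge (nd x).lv α with h | h
    · have h4 : nd x ∈ range e := by rw [← he]; exact h
      obtain ⟨i, hi⟩ := h4
      have h5 : x = pt (e i) := Subtype.ext (by rw [nd_spec x, hi]; rfl)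
      exact ⟨i, fun j hj => by rw [h5]; exact hU1 j i hj⟩
    · obtain ⟨n, hn⟩ := exists_ix x h
      exact ⟨n + 1, fun j hj => hU2 j n (by omega) hn⟩
  refine ⟨range U, ?_, ?_, ?_, ?_, ?_⟩
  · rintro _ ⟨j, rfl⟩; exact hU j
  · rintro _ ⟨j, rfl⟩; exact hop _ (hU j)
  · rintro ⟨j, hj⟩
    exact huniv (hj ▸ hU j)
  · rw [eq_univ_iff_forall]
    intro x
    obtain ⟨N, hN⟩ := hconv x
    exact ⟨U N, ⟨N, rfl⟩, hN N le_rfl⟩
  · intro x
    obtain ⟨N, hN⟩ := hconv x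
    refine ((finite_Iio N).image U).subset ?_
    rintro _ ⟨⟨j, rfl⟩, hj⟩
    refine ⟨j, ?_, rfl⟩
    by_contra hcon
    exact hj (hN j (not_lt.1 hcon))

theorem main2 (hD : Diamond) : ∃ (X : Type) (_ : TopologicalSpace X), LusinK X ∧ GammaSpace X ∧
    RegularSpace X ∧ FirstCountableTopology X ∧ Submetrizable X := by
  obtain ⟨Φ, h1, h2⟩ := exists_jens hD
  exact ⟨Sp ⟨Φ, h1, h2⟩, inferInstance, lusin, gamma, regular, firstCountable, submetrizable⟩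

end Pool.Agent.X200.Jens
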