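import Mathlib

namespace Pool.Agent.X200.CompactLots

open Set

/-- A linear order in which every subset has a least upper bound is compact in its order
topology. -/
theorem compactSpace_of_isLUB {X : Type*} [L : LinearOrder X] [TopologicalSpace X]
    [OrderTopology X] (h : ∀ s : Set X, ∃ b, IsLUB s b) : CompactSpace X := by
  classical
  choose f hf using h
  letI CL : CompleteLattice X :=
    { L.toLattice with
      sSup := f
      sInf := fun s => f (lowerBounds s)
      top := f univ
      le_top := fun x => (hf univ).1 trivial
      bot := f ∅
      bot_le := fun x => (hf ∅).2 (by simp)
      isLUB_sSup := hf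
      isGLB_sInf := fun s => isLUB_lowerBounds.mp (hf _) }
  letI : CompleteLinearOrder X :=
    { L, CL, LinearOrder.toBiheytingAlgebra X with }
  infer_instance

end Pool.Agent.X200.CompactLots
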