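import Mathlib

/-!
Elementary combinatorics of a well-order `Ω` of type `ω₁`: stationary sets in the form needed.
-/

namespace Pool.Agent.X200.Stat

open Set

variable {Ω : Type*} [LinearOrder Ω] [WellFoundedLT Ω]

/-- `S` is stationary: for every `g` some nonminimal point of `S` is closed under `g`. -/
def Stat (S : Set Ω) : Prop :=
  ∀ g : Ω → Ω, ∃ δ ∈ S, (∃ β, β < δ) ∧ ∀ β < δ, g β < δ

/-- `Ω` is an uncountable well-order with countable initial segments. -/
structure IsOm1 (Ω : Type*) [LinearOrder Ω] : Prop where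
  cI : ∀ a : Ω, (Iio a).Countable
  unc : ¬ (univ : Set Ω).Countable

theorem IsOm1.bound (h : IsOm1 Ω) (C : Set Ω) (hC : C.Countable) : ∃ b, ∀ c ∈ C, c < b := by
  by_contra hcon
  push Not at hcon
  apply h.unc
  have : (univ : Set Ω) ⊆ ⋃ c ∈ C, insert c (Iio c) := by
    intro b _
    obtain ⟨c, hc, hbc⟩ := hcon b
    refine mem_biUnion hc ?_
    rcases hbc.eq_or_lt with rfl | hlt
    · exact mem_insert _ _
    · exact mem_insert_of_mem _ hlt
  exact (hC.biUnion fun c _ => (h.cI c).insert c).mono this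

theorem IsOm1.seqBound (h : IsOm1 Ω) (u : ℕ → Ω) : ∃ b, ∀ n, u n < b := by
  obtain ⟨b, hb⟩ := h.bound (range u) (countable_range u)
  exact ⟨b, fun n => hb _ (mem_range_self n)⟩

/-- above every point there is a point closed under `g`. -/
theorem IsOm1.exists_closed (h : IsOm1 Ω) (g : Ω → Ω) (ξ : Ω) :
    ∃ δ, ξ < δ ∧ ∀ β < δ, g β < δ := by
  have h1 : ∀ β, ∃ b, β < b ∧ ∀ γ ≤ β, g γ < b := by
    intro β
    obtain ⟨b, hb⟩ := h.bound (insert β (g '' (insert β (Iio β))))
      ((((h.cI β).insert β).image g).insert β)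
    refine ⟨b, hb _ (mem_insert _ _), fun γ hγ => hb _ (mem_insert_of_mem _ ⟨γ, ?_, rfl⟩)⟩
    rcases hγ.eq_or_lt with rfl | hlt
    · exact mem_insert _ _
    · exact mem_insert_of_mem _ hlt
  choose k hk hkg using h1
  let d : ℕ → Ω := fun n => k^[n] ξ
  have hd : ∀ n, d (n+1) = k (d n) := fun n => Function.iterate_succ_apply' k n ξ
  obtain ⟨b, hb⟩ := h.seqBound d
  let P : Set Ω := {b | ∀ n, d n < b}
  have hP : P.Nonempty := ⟨b, hb⟩
  let δ := WellFounded.min (wellFounded_lt (α := Ω)) P hP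
  have hδ : δ ∈ P := WellFounded.min_mem _ _ _
  refine ⟨δ, hδ 0, fun β hβ => ?_⟩
  have hβP : β ∉ P := fun hβ' => WellFounded.not_lt_min (wellFounded_lt (α := Ω)) P hβ' hβ
  have : ∃ n, β ≤ d n := by
    by_contra hcon
    push Not at hcon
    exact hβP hcon
  obtain ⟨n, hn⟩ := this
  have h2 : g β < k (d n) := hkg (d n) β hn
  rw [← hd] at h2
  exact h2.trans (hδ (n+1))

/-- Every uncountable well-order with countable initial segments has a stationary set with
stationary complement. -/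
theorem IsOm1.exists_split (h : IsOm1 Ω) : ∃ S : Set Ω, Stat S ∧ Stat Sᶜ := by
  have hf : ∀ α : Ω, ∃ f : Ω → ℕ, InjOn f (Iio α) := fun α =>
    countable_iff_exists_injOn.1 (h.cI α)
  choose f hf using hf
  let A : ℕ → Ω → Set Ω := fun n ξ => {α | ξ < α ∧ f α ξ = n}
  have h1 : ∀ ξ, ∃ n, Stat (A n ξ) := by
    intro ξ
    by_contra hcon
    push Not at hcon
    unfold Stat at hcon
    push Not at hcon
    choose g hg using hcon
    have hub : ∀ β, ∃ b, ∀ n, g n β < b := fun β => h.seqBound fun n => g n β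
    choose G hG using hub
    obtain ⟨δ, hξδ, hδ⟩ := h.exists_closed G ξ
    obtain ⟨β, hβ, hβ'⟩ := hg (f δ ξ) δ ⟨hξδ, rfl⟩ ⟨ξ, hξδ⟩
    exact absurd ((hG β _).trans (hδ β hβ)) (not_lt.2 hβ')
  choose n hn using h1
  have h2 : ¬ Function.Injective n := by
    intro hinj
    exact h.unc (countable_iff_exists_injOn.2 ⟨n, hinj.injOn⟩)
  unfold Function.Injective at h2
  push Not at h2
  obtain ⟨ξ, ξ', hnn, hne⟩ := h2
  refine ⟨A (n ξ) ξ, hn ξ, ?_⟩
  intro g
  obtain ⟨δ, hδ, h3, h4⟩ := hn ξ' g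
  refine ⟨δ, ?_, h3, h4⟩
  intro hδ'
  apply hne
  refine hf δ hδ'.1 hδ.1 ?_
  rw [hδ'.2, hnn, ← hδ.2]

end Pool.Agent.X200.Stat
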