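import Mathlib
import Pool.Agent.X200.Stat
import Pool.Agent.X200.CompactLots

/-!
The space of subsets of a stationary co-stationary set which are closed below their supremum,
in the lexicographic order.
-/

namespace Pool.Agent.X200.BlumSpace

open Set Pool.Agent.X200.Stat Pool.Agent.X200.CompactLots

variable {Ω : Type*} [LinearOrder Ω] [WellFoundedLT Ω]

/-- limit point -/
def LP (A : Ω → Prop) (δ : Ω) : Prop := (∃ β, β < δ) ∧ ∀ β < δ, ∃ ξ, A ξ ∧ β < ξ ∧ ξ < δ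

/-- The points of the space. -/
def Pt (S : Set Ω) : Type _ :=
  {a : Lex (Ω → Prop) // (∀ ξ, a ξ → ξ ∈ S) ∧ ∀ δ ξ, LP a δ → δ ≤ ξ → a ξ → a δ}

variable {S : Set Ω}

noncomputable instance : LinearOrder (Pt S) :=
  inferInstanceAs (LinearOrder {a : Lex (Ω → Prop) // _})

noncomputable instance : TopologicalSpace (Pt S) := Preorder.topology _
instance : OrderTopology (Pt S) := ⟨rfl⟩

/-- agreement below `η` -/
def Agree (a b : Ω → Prop) (η : Ω) : Prop := ∀ ξ < η, (a ξ ↔ b ξ)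

theorem prop_lt (p q : Prop) : p < q ↔ ¬ p ∧ q := by
  rw [lt_iff_le_not_ge]
  constructor
  · rintro ⟨_, h2⟩
    by_contra hcon
    apply h2
    intro hq
    by_contra hp
    exact hcon ⟨hp, hq⟩
  · rintro ⟨h1, h2⟩
    exact ⟨fun _ => h2, fun h => h1 (h h2)⟩

theorem lt_iff {a b : Pt S} : a < b ↔ ∃ i, Agree a.1 b.1 i ∧ ¬ a.1 i ∧ b.1 i := by
  have h1 : a < b ↔ a.1 < b.1 := Iff.rfl
  rw [h1]
  constructor
  · rintro ⟨i, hi, hlt⟩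
    exact ⟨i, fun ξ hξ => iff_of_eq (hi ξ hξ), (prop_lt _ _).1 hlt⟩
  · rintro ⟨i, hi, hlt⟩
    exact ⟨i, fun ξ hξ => propext (hi ξ hξ), (prop_lt _ _).2 hlt⟩

theorem ext_iff' {a b : Pt S} : a = b ↔ ∀ ξ, (a.1 ξ ↔ b.1 ξ) := by
  constructor
  · rintro rfl ξ; rfl
  · intro h
    apply Subtype.ext
    funext ξ
    exact propext (h ξ)

theorem LP.congr {a b : Ω → Prop} {η δ : Ω} (h : Agree a b η) (hδ : δ ≤ η) (hL : LP a δ) :
    LP b δ := by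
  refine ⟨hL.1, fun β hβ => ?_⟩
  obtain ⟨ξ, ha, h1, h2⟩ := hL.2 β hβ
  exact ⟨ξ, (h ξ (h2.trans_le hδ)).1 ha, h1, h2⟩

/-- every set of points has a least upper bound -/
theorem exists_isLUB (s : Set (Pt S)) : ∃ b, IsLUB s b := by
  -- recursive definition
  let F : (ξ : Ω) → ((η : Ω) → η < ξ → Prop) → Prop := fun ξ r =>
    ∃ A ∈ s, (∀ (η : Ω) (h : η < ξ), (A.1 η ↔ r η h)) ∧ A.1 ξ
  let b : Ω → Prop := (wellFounded_lt (α := Ω)).fix F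
  have hb : ∀ ξ, b ξ ↔ ∃ A ∈ s, Agree A.1 b ξ ∧ A.1 ξ := by
    intro ξ
    have : b ξ = F ξ (fun η _ => b η) := (wellFounded_lt (α := Ω)).fix_eq F ξ
    rw [this]
    rfl
  have hbX : (∀ ξ, b ξ → ξ ∈ S) ∧ ∀ δ ξ, LP b δ → δ ≤ ξ → b ξ → b δ := by
    constructor
    · intro ξ hξ
      obtain ⟨A, -, -, hA⟩ := (hb ξ).1 hξ
      exact A.2.1 ξ hA
    · intro δ ξ hL hle hξ
      obtain ⟨A, hAs, hag, hA⟩ := (hb ξ).1 hξ
      have hL' : LP A.1 δ := hL.congr (η := ξ) (fun η hη => (hag η hη).symm) hle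
      have hAδ : A.1 δ := A.2.2 δ ξ hL' hle hA
      rcases hle.eq_or_lt with rfl | hlt
      · exact hξ
      · exact (hag δ hlt).1 hAδ
  let B : Pt S := ⟨b, hbX⟩
  refine ⟨B, ?_, ?_⟩
  · intro A hA
    by_contra hcon
    rw [not_le] at hcon
    obtain ⟨i, hi, h1, h2⟩ := lt_iff.1 hcon
    apply h1
    exact (hb i).2 ⟨A, hA, fun ξ hξ => (hi ξ hξ).symm, h2⟩
  · intro C hC
    by_contra hcon
    rw [not_le] at hcon
    obtain ⟨i, hi, h1, h2⟩ := lt_iff.1 hcon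
    obtain ⟨A, hA, hag, hAi⟩ := (hb i).1 h2
    have : C < A := lt_iff.2 ⟨i, fun ξ hξ => (hi ξ hξ).trans (hag ξ hξ).symm, h1, hAi⟩
    exact absurd (hC hA) (not_le.2 this)

instance : CompactSpace (Pt S) := compactSpace_of_isLUB exists_isLUB

/-- bounded points -/
def N (α : Ω) : Set (Pt S) := {a | ∀ ξ, a.1 ξ → ξ < α}

/-- closed points -/
def Cl (a : Pt S) : Prop := ∀ δ, LP a.1 δ → a.1 δ

/-- A neighbourhood contains everything agreeing far enough -/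
theorem agree_nhd' [Nonempty Ω] (hΩ : ∀ β : Ω, ∃ γ, β < γ) {U : Set (Pt S)}
    (hU : TopologicalSpace.GenerateOpen {s : Set (Pt S) | ∃ a, s = Ioi a ∨ s = Iio a} U) :
    ∀ c ∈ U, ∃ η, ∀ y : Pt S, Agree c.1 y.1 η → y ∈ U := by
  induction hU with
  | basic s hs =>
    obtain ⟨a, rfl | rfl⟩ := hs
    · intro c hc
      obtain ⟨i, hi, h1, h2⟩ := lt_iff.1 (mem_Ioi.1 hc)
      obtain ⟨γ, hγ⟩ := hΩ i
      refine ⟨γ, fun y hy => lt_iff.2 ⟨i, fun ξ hξ => ?_, h1, (hy i hγ).1 h2⟩⟩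
      exact (hi ξ hξ).trans (hy ξ (hξ.trans hγ))
    · intro c hc
      obtain ⟨i, hi, h1, h2⟩ := lt_iff.1 (mem_Iio.1 hc)
      obtain ⟨γ, hγ⟩ := hΩ i
      refine ⟨γ, fun y hy => lt_iff.2 ⟨i, fun ξ hξ => ?_, fun h => h1 ((hy i hγ).2 h), h2⟩⟩
      exact (hy ξ (hξ.trans hγ)).symm.trans (hi ξ hξ)
  | univ =>
    intro c _
    exact ⟨Classical.arbitrary Ω, fun _ _ => trivial⟩
  | inter s t _ _ ihs iht =>
    rintro c ⟨hcs, hct⟩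
    obtain ⟨η, hη⟩ := ihs c hcs
    obtain ⟨η', hη'⟩ := iht c hct
    refine ⟨max η η', fun y hy => ⟨hη y fun ξ hξ => hy ξ (hξ.trans_le (le_max_left _ _)),
      hη' y fun ξ hξ => hy ξ (hξ.trans_le (le_max_right _ _))⟩⟩
  | sUnion K _ ih =>
    rintro c ⟨s, hs, hcs⟩
    obtain ⟨η, hη⟩ := ih s hs c hcs
    exact ⟨η, fun y hy => ⟨s, hs, hη y hy⟩⟩

theorem agree_nhd [Nonempty Ω] (hΩ : ∀ β : Ω, ∃ γ, β < γ) {U : Set (Pt S)} (hU : IsOpen U) :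
    ∀ c ∈ U, ∃ η, ∀ y : Pt S, Agree c.1 y.1 η → y ∈ U :=
  agree_nhd' hΩ hU

/-- Standing hypotheses on `S`. -/
structure Good (S : Set Ω) : Prop where
  om1 : IsOm1 Ω
  st : Stat S
  cst : Stat Sᶜ

theorem Good.nomax (h : Good S) (β : Ω) : ∃ γ, β < γ := by
  obtain ⟨b, hb⟩ := h.om1.bound {β} (countable_singleton β)
  exact ⟨b, hb β rfl⟩

theorem Good.nonempty (h : Good S) : Nonempty Ω := by
  by_contra hne
  rw [not_nonempty_iff] at hne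
  apply h.om1.unc
  exact Set.countable_univ_iff.2 (Finite.to_countable)

theorem Good.unbdd (h : Good S) (β : Ω) : ∃ γ ∈ S, β < γ := by
  obtain ⟨γ, hγ⟩ := h.nomax β
  obtain ⟨δ, hδ, ⟨ρ, hρ⟩, hg⟩ := h.st (fun _ => γ)
  exact ⟨δ, hδ, hγ.trans (hg ρ hρ)⟩

/-- every point is bounded -/
theorem Good.bounded (h : Good S) (a : Pt S) : ∃ α, a ∈ N α := by
  by_contra hcon
  have h1 : ∀ α, ∃ ξ, a.1 ξ ∧ α < ξ := by
    intro α
    obtain ⟨γ, hγ⟩ := h.nomax α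
    by_contra h2
    push Not at h2
    exact hcon ⟨γ, fun ξ hξ => (h2 ξ hξ).trans_lt hγ⟩
  choose g hga hg using h1
  obtain ⟨δ, hδ, hne, hδg⟩ := h.cst g
  have hL : LP a.1 δ := ⟨hne, fun β hβ => ⟨g β, hga β, hg β, hδg β hβ⟩⟩
  exact hδ (a.2.1 δ (a.2.2 δ (g δ) hL (hg δ).le (hga δ)))

/-- truncation -/
def trunc (a : Pt S) (η : Ω) : Pt S :=
  ⟨fun ξ => a.1 ξ ∧ ξ < η, fun ξ h => a.2.1 ξ h.1, fun δ ξ hL hle hξ => by
    refine ⟨a.2.2 δ ξ ⟨hL.1, fun β hβ => ?_⟩ hle hξ.1, hle.trans_lt hξ.2⟩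
    obtain ⟨ζ, h1, h2, h3⟩ := hL.2 β hβ
    exact ⟨ζ, h1.1, h2, h3⟩⟩

theorem trunc_apply (a : Pt S) (η ξ : Ω) : (trunc a η).1 ξ ↔ (a.1 ξ ∧ ξ < η) := Iff.rfl

/-- adding one point above a closed set -/
def add (a : Pt S) (ha : Cl a) (ζ : Ω) (hζ : ζ ∈ S) (hb : ∀ ξ, a.1 ξ → ξ < ζ) : Pt S :=
  ⟨fun ξ => a.1 ξ ∨ ξ = ζ, fun ξ h => by
      rcases h with h | rfl
      · exact a.2.1 ξ h
      · exact hζ, fun δ ξ hL hle hξ => by
    have hδζ : δ ≤ ζ := by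
      rcases hξ with h | rfl
      · exact hle.trans (hb ξ h).le
      · exact hle
    rcases hδζ.eq_or_lt with rfl | hlt
    · exact Or.inr rfl
    · refine Or.inl (ha δ ⟨hL.1, fun β hβ => ?_⟩)
      obtain ⟨ρ, h1, h2, h3⟩ := hL.2 β hβ
      rcases h1 with h1 | rfl
      · exact ⟨ρ, h1, h2, h3⟩
      · exact absurd h3 (not_lt.2 hlt.le)⟩

theorem add_apply (a : Pt S) (ha : Cl a) (ζ : Ω) (hζ : ζ ∈ S) (hb : ∀ ξ, a.1 ξ → ξ < ζ) (ξ : Ω) :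
    (add a ha ζ hζ hb).1 ξ ↔ (a.1 ξ ∨ ξ = ζ) := Iff.rfl

theorem add_closed (a : Pt S) (ha : Cl a) (ζ : Ω) (hζ : ζ ∈ S) (hb : ∀ ξ, a.1 ξ → ξ < ζ) :
    Cl (add a ha ζ hζ hb) := by
  intro δ hL
  obtain ⟨⟨β, hβ⟩, h⟩ := hL
  obtain ⟨ξ, hξ, -, hξδ⟩ := h β hβ
  rcases lt_trichotomy δ ζ with hlt | rfl | hgt
  · refine Or.inl (ha δ ⟨⟨β, hβ⟩, fun γ hγ => ?_⟩)
    obtain ⟨ρ, h1, h2, h3⟩ := h γ hγ
    rcases h1 with h1 | rfl
    · exact ⟨ρ, h1, h2, h3⟩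
    · exact absurd h3 (not_lt.2 hlt.le)
  · exact Or.inr rfl
  · obtain ⟨ρ, h1, h2, h3⟩ := h ζ hgt
    rcases h1 with h1 | rfl
    · exact absurd (hb ρ h1) (not_lt.2 h2.le)
    · exact absurd h2 (lt_irrefl _)

theorem lt_add (a : Pt S) (ha : Cl a) (ζ : Ω) (hζ : ζ ∈ S) (hb : ∀ ξ, a.1 ξ → ξ < ζ) :
    a < add a ha ζ hζ hb := by
  refine lt_iff.2 ⟨ζ, fun ξ hξ => ⟨Or.inl, ?_⟩, fun h => lt_irrefl _ (hb ζ h), Or.inr rfl⟩
  rintro (h | rfl)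
  · exact h
  · exact absurd hξ (lt_irrefl _)

/-- basic set of a node -/
def B (x : Pt S) (α : Ω) : Set (Pt S) := {y | Agree x.1 y.1 α}

/-- the interval `(x, x ∪ {ζ})` lies in the basic set. -/
theorem Ioo_subset_B (x : Pt S) (hx : Cl x) (α ζ : Ω) (hζ : ζ ∈ S) (hb : ∀ ξ, x.1 ξ → ξ < ζ)
    (hα : α ≤ ζ) : Ioo x (add x hx ζ hζ hb) ⊆ B x α := by
  rintro y ⟨h1, h2⟩
  obtain ⟨i, hi, hxi, hyi⟩ := lt_iff.1 h1
  by_cases hiα : α ≤ i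
  · exact fun ξ hξ => hi ξ (hξ.trans_le hiα)
  · rw [not_le] at hiα
    exfalso
    have : add x hx ζ hζ hb < y := by
      refine lt_iff.2 ⟨i, fun ξ hξ => ?_, ?_, hyi⟩
      · rw [add_apply, ← hi ξ hξ]
        constructor
        · rintro (h | rfl)
          · exact h
          · exact absurd (hξ.trans hiα) (not_lt.2 hα)
        · exact Or.inl
      · rw [add_apply]
        rintro (h | rfl)
        · exact hxi h
        · exact absurd hiα (not_lt.2 hα)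
    exact absurd h2 (not_lt.2 this.le)

/-- the interval is nonempty. -/
theorem Ioo_nonempty (h : Good S) (x : Pt S) (hx : Cl x) (ζ : Ω) (hζ : ζ ∈ S)
    (hb : ∀ ξ, x.1 ξ → ξ < ζ) : (Ioo x (add x hx ζ hζ hb)).Nonempty := by
  obtain ⟨γ, hγ, hζγ⟩ := h.unbdd ζ
  have hb' : ∀ ξ, x.1 ξ → ξ < γ := fun ξ hξ => (hb ξ hξ).trans hζγ
  refine ⟨add x hx γ hγ hb', lt_add _ _ _ _ _, ?_⟩
  refine lt_iff.2 ⟨ζ, fun ξ hξ => ?_, ?_, Or.inr rfl⟩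
  · rw [add_apply, add_apply]
    constructor
    · rintro (h | rfl)
      · exact Or.inl h
      · exact absurd (hξ.trans hζγ) (lt_irrefl _)
    · rintro (h | rfl)
      · exact Or.inl h
      · exact absurd hξ (lt_irrefl _)
  · rw [add_apply]
    rintro (h | rfl)
    · exact lt_irrefl _ (hb ζ h)
    · exact lt_irrefl _ hζγ

/-- the empty set as a point -/
def empty : Pt S := ⟨fun _ => False, fun _ h => h.elim, fun _ _ _ _ h => h⟩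

theorem empty_closed : Cl (empty : Pt S) := by
  rintro δ ⟨⟨β, hβ⟩, h⟩
  obtain ⟨ξ, hξ, -⟩ := h β hβ
  exact hξ

/-- every nonempty open set contains a closed point. -/
theorem exists_closed_mem (h : Good S) {U : Set (Pt S)} (hU : IsOpen U) (hne : U.Nonempty) :
    ∃ c ∈ U, Cl c := by
  obtain ⟨c, hc⟩ := hne
  by_cases hcl : Cl c
  · exact ⟨c, hc, hcl⟩
  unfold Cl at hcl
  push Not at hcl
  obtain ⟨δ, hL, hδ⟩ := hcl
  -- all elements of `c` are below `δ`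
  have hcδ : ∀ ξ, c.1 ξ → ξ < δ := by
    intro ξ hξ
    by_contra hcon
    exact hδ (c.2.2 δ ξ hL (not_lt.1 hcon) hξ)
  obtain ⟨⟨β, hβ⟩, hLδ⟩ := hL
  have hlt : (empty : Pt S) < c := by
    obtain ⟨ξ, hξ, -⟩ := hLδ β hβ
    have hne : {ξ | c.1 ξ}.Nonempty := ⟨ξ, hξ⟩
    refine lt_iff.2 ⟨WellFounded.min (wellFounded_lt (α := Ω)) _ hne, fun η hη => ?_, id,
      WellFounded.min_mem _ _ hne⟩
    constructor
    · exact fun h => h.elim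
    · intro h
      exact absurd hη (WellFounded.not_lt_min (wellFounded_lt (α := Ω)) _ h)
  obtain ⟨a, hac, ha⟩ := exists_Ioc_subset_of_mem_nhds (hU.mem_nhds hc) ⟨_, hlt⟩
  obtain ⟨i, hi, hai, hci⟩ := lt_iff.1 hac
  -- the next element of `c` after `i`
  have hne : {ξ | c.1 ξ ∧ i < ξ}.Nonempty := by
    obtain ⟨ξ, hξ, h1, -⟩ := hLδ i (hcδ i hci)
    exact ⟨ξ, hξ, h1⟩
  set η := WellFounded.min (wellFounded_lt (α := Ω)) _ hne with hη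
  have hηm : c.1 η ∧ i < η := WellFounded.min_mem _ _ hne
  have hηmin : ∀ ξ, c.1 ξ → i < ξ → η ≤ ξ := fun ξ h1 h2 =>
    not_lt.1 (WellFounded.not_lt_min (wellFounded_lt (α := Ω)) {ξ | c.1 ξ ∧ i < ξ}
      (show ξ ∈ {ξ | c.1 ξ ∧ i < ξ} from ⟨h1, h2⟩))
  refine ⟨trunc c η, ha ⟨?_, ?_⟩, ?_⟩
  · refine lt_iff.2 ⟨i, fun ξ hξ => ?_, hai, ⟨hci, hηm.2⟩⟩
    rw [trunc_apply, hi ξ hξ]
    exact ⟨fun h => ⟨h, hξ.trans hηm.2⟩, And.left⟩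
  · refine (lt_iff.2 ⟨η, fun ξ hξ => ?_, ?_, hηm.1⟩).le
    · rw [trunc_apply]
      exact ⟨And.left, fun h => ⟨h, hξ⟩⟩
    · rintro ⟨-, h⟩; exact lt_irrefl _ h
  · rintro ρ ⟨hρ, hLρ⟩
    have hLc : LP c.1 ρ := ⟨hρ, fun γ hγ => by
      obtain ⟨ξ, h1, h2, h3⟩ := hLρ γ hγ
      exact ⟨ξ, h1.1, h2, h3⟩⟩
    have hρη : ρ ≤ η := by
      by_contra hcon
      rw [not_le] at hcon
      obtain ⟨ξ, h1, h2, -⟩ := hLρ η hcon
      exact lt_asymm h1.2 h2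
    have hρne : ρ ≠ η := by
      rintro rfl
      obtain ⟨ξ, h1, h2, h3⟩ := hLρ i hηm.2
      exact absurd h3 (not_lt.2 (hηmin ξ h1.1 h2))
    exact ⟨c.2.2 ρ η hLc hρη hηm.1, lt_of_le_of_ne hρη hρne⟩

end Pool.Agent.X200.BlumSpace
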