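import Mathlib
import Pool.Agent.X200.BlumSpace

namespace Pool.Agent.X200.BlumSpace

open Set Pool.Agent.X200.Stat

variable {Ω : Type*} [LinearOrder Ω] [WellFoundedLT Ω] {S : Set Ω}

structure Node (S : Set Ω) where
  x : Pt S
  len : Ω
  closed : Cl x
  bd : ∀ ξ, x.1 ξ → ξ < len

def Node.Ext (s t : Node S) : Prop := s.len ≤ t.len ∧ Agree s.x.1 t.x.1 s.len

theorem Node.Ext.subset {s t : Node S} (h : s.Ext t) : B t.x t.len ⊆ B s.x s.len :=
  fun _ hy ξ hξ => (h.2 ξ hξ).trans (hy ξ (hξ.trans_le h.1))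

theorem Node.Ext.trans {s t u : Node S} (h : s.Ext t) (h' : t.Ext u) : s.Ext u :=
  ⟨h.1.trans h'.1, fun ξ hξ => (h.2 ξ hξ).trans (h'.2 ξ (hξ.trans_le h.1))⟩

theorem Node.Ext.refl (s : Node S) : s.Ext s := ⟨le_rfl, fun _ _ => Iff.rfl⟩

/-- every nonempty open set inside a basic set contains the basic set of an extension -/
theorem exists_ext (h : Good S) (s : Node S) {W : Set (Pt S)} (hW : IsOpen W) (hne : W.Nonempty)
    (hWs : W ⊆ B s.x s.len) (ξ : Ω) :
    ∃ t : Node S, s.Ext t ∧ ξ < t.len ∧ B t.x t.len ⊆ W := by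
  have := h.nonempty
  obtain ⟨c, hc, hcl⟩ := exists_closed_mem h hW hne
  obtain ⟨η, hη⟩ := agree_nhd h.nomax hW c hc
  obtain ⟨β, hβ⟩ := h.bounded c
  obtain ⟨l, hl⟩ := h.nomax (max (max η β) (max s.len ξ))
  have h1 : η < l := lt_of_le_of_lt ((le_max_left _ _).trans (le_max_left _ _)) hl
  have h2 : β < l := lt_of_le_of_lt ((le_max_right _ _).trans (le_max_left _ _)) hl
  have h3 : s.len < l := lt_of_le_of_lt ((le_max_left _ _).trans (le_max_right _ _)) hl
  have h4 : ξ < l := lt_of_le_of_lt ((le_max_right _ _).trans (le_max_right _ _)) hl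
  refine ⟨⟨c, l, hcl, fun ζ hζ => (hβ ζ hζ).trans h2⟩, ⟨h3.le, hWs hc⟩, h4, ?_⟩
  intro y hy
  exact hη y fun ζ hζ => hy ζ (hζ.trans h1)

/-- an open nonempty subset of a basic set -/
theorem exists_open_in (h : Good S) (s : Node S) :
    ∃ V : Set (Pt S), IsOpen V ∧ V.Nonempty ∧ V ⊆ B s.x s.len := by
  obtain ⟨ζ, hζ, hlt⟩ := h.unbdd s.len
  have hb : ∀ ξ, s.x.1 ξ → ξ < ζ := fun ξ hξ => (s.bd ξ hξ).trans hlt
  exact ⟨_, isOpen_Ioo, Ioo_nonempty h s.x s.closed ζ hζ hb,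
    Ioo_subset_B s.x s.closed s.len ζ hζ hb hlt.le⟩

theorem decide_ext (h : Good S) (s : Node S) {U : Set (Pt S)} (hU : IsOpen U) (ξ : Ω) :
    ∃ t : Node S, s.Ext t ∧ ξ < t.len ∧ (B t.x t.len ⊆ U ∨ Disjoint (B t.x t.len) U) := by
  obtain ⟨V, hV, hVne, hVs⟩ := exists_open_in h s
  by_cases hne : (V ∩ U).Nonempty
  · obtain ⟨t, h1, h2, h3⟩ := exists_ext h s (hV.inter hU) hne (inter_subset_left.trans hVs) ξ
    exact ⟨t, h1, h2, Or.inl (h3.trans inter_subset_right)⟩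
  · obtain ⟨t, h1, h2, h3⟩ := exists_ext h s hV hVne hVs ξ
    refine ⟨t, h1, h2, Or.inr ?_⟩
    rw [not_nonempty_iff_eq_empty] at hne
    exact (disjoint_iff_inter_eq_empty.2 hne).mono_left h3

/-- countable distributivity -/
theorem decide_all (h : Good S) (U : ℕ → Set (Pt S)) (hU : ∀ n, IsOpen (U n)) :
    ∃ t : Node S, ∀ n, (B t.x t.len ⊆ U n ∨ Disjoint (B t.x t.len) (U n)) := by
  have hne := h.nonempty
  have hd : ∀ (n : ℕ) (s : Node S) (ξ : Ω), ∃ t : Node S, s.Ext t ∧ ξ < t.len ∧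
      (B t.x t.len ⊆ U n ∨ Disjoint (B t.x t.len) (U n)) := fun n s ξ => decide_ext h s (hU n) ξ
  choose e he1 he2 he3 using hd
  let s0 : Node S := ⟨empty, Classical.arbitrary Ω, empty_closed, fun _ h => h.elim⟩
  let E : List Ω → Node S := fun l => l.rec s0 (fun ξ l r => e l.length r ξ)
  have hE : ∀ ξ l, E (ξ :: l) = e l.length (E l) ξ := fun _ _ => rfl
  have hg : ∀ β : Ω, ∃ b, β < b ∧ ∀ l : List Ω, (∀ ξ ∈ l, ξ < β) → (E l).len < b := by
    intro β
    have hc : (insert β ((fun l => (E l).len) '' {l : List Ω | ∀ ξ ∈ l, ξ < β})).Countable := by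
      refine (Countable.image ?_ _).insert β
      have hcI := h.om1.cI β
      have : Countable (Iio β) := hcI
      have h5 : {l : List Ω | ∀ ξ ∈ l, ξ < β} = range (List.map ((↑) : Iio β → Ω)) := by
        rw [range_list_map_coe]; rfl
      rw [h5]
      exact countable_range _
    obtain ⟨b, hb⟩ := h.om1.bound _ hc
    exact ⟨b, hb _ (mem_insert _ _), fun l hl => hb _ (mem_insert_of_mem _ ⟨l, hl, rfl⟩)⟩
  choose g hg1 hg2 using hg
  obtain ⟨δ, hδS, hδne, hδ⟩ := h.st g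
  have hlist : ∀ l : List Ω, (∀ ξ ∈ l, ξ < δ) → (E l).len < δ := by
    intro l hl
    have : ∃ β < δ, ∀ ξ ∈ l, ξ < β := by
      induction l with
      | nil =>
        obtain ⟨β, hβ⟩ := hδne
        exact ⟨β, hβ, by simp⟩
      | cons ξ l ih =>
        obtain ⟨β, hβ, hβl⟩ := ih fun ζ hζ => hl ζ (List.mem_cons_of_mem _ hζ)
        refine ⟨max β (g ξ), max_lt hβ (hδ ξ (hl ξ (List.mem_cons_self))), fun ζ hζ => ?_⟩
        rcases List.mem_cons.1 hζ with rfl | hζ'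
        · exact lt_max_of_lt_right (hg1 ζ)
        · exact lt_max_of_lt_left (hβl ζ hζ')
    obtain ⟨β, hβ, hβl⟩ := this
    exact (hg2 β l hβl).trans (hδ β hβ)
  obtain ⟨u, hu⟩ := (h.om1.cI δ).exists_eq_range hδne
  have huδ : ∀ n, u n < δ := fun n => by
    have : u n ∈ Iio δ := by rw [hu]; exact mem_range_self n
    exact this
  let L : ℕ → List Ω := fun n => n.rec [] (fun n l => u n :: l)
  have hL : ∀ n, L (n+1) = u n :: L n := fun _ => rfl
  have hLlen : ∀ n, (L n).length = n := by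
    intro n
    induction n with
    | zero => rfl
    | succ n ih => rw [hL, List.length_cons, ih]
  have hLδ : ∀ n, ∀ ξ ∈ L n, ξ < δ := by
    intro n
    induction n with
    | zero => intro ξ hξ; simp [L] at hξ
    | succ n ih =>
      intro ξ hξ
      rw [hL] at hξ
      rcases List.mem_cons.1 hξ with rfl | hξ'
      · exact huδ n
      · exact ih ξ hξ'
  let s : ℕ → Node S := fun n => E (L n)
  have hs : ∀ n, s (n+1) = e n (s n) (u n) := by
    intro n
    show E (L (n+1)) = e n (E (L n)) (u n)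
    rw [hL, hE, hLlen]
  have hslt : ∀ n, (s n).len < δ := fun n => hlist _ (hLδ n)
  have hext1 : ∀ n, (s n).Ext (s (n+1)) := fun n => by rw [hs]; exact he1 _ _ _
  have hext : ∀ m n, m ≤ n → (s m).Ext (s n) := by
    intro m n hmn
    induction n, hmn using Nat.le_induction with
    | base => exact Node.Ext.refl _
    | succ n _ ih => exact ih.trans (hext1 n)
  have hul : ∀ n, u n < (s (n+1)).len := fun n => by rw [hs]; exact he2 _ _ _
  -- the union
  let X : Ω → Prop := fun ξ => ∃ n, (s n).x.1 ξ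
  have hX : ∀ n, Agree (s n).x.1 X (s n).len := by
    intro n ξ hξ
    refine ⟨fun hx => ⟨n, hx⟩, ?_⟩
    rintro ⟨m, hm⟩
    rcases le_total m n with hmn | hnm
    · exact ((hext m n hmn).2 ξ ((s m).bd ξ hm)).1 hm
    · exact ((hext n m hnm).2 ξ hξ).2 hm
  have hXδ : ∀ ξ, X ξ → ξ < δ := by
    rintro ξ ⟨n, hn⟩
    exact ((s n).bd ξ hn).trans (hslt n)
  let A : Ω → Prop := fun ξ => X ξ ∨ ξ = δ
  have hAcl : ∀ ρ, LP A ρ → A ρ := by
    rintro ρ ⟨⟨β, hβ⟩, hLρ⟩
    rcases lt_trichotomy ρ δ with hlt | heq | hgt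
    · have hρ : ρ ∈ range u := by rw [← hu]; exact hlt
      obtain ⟨n, rfl⟩ := hρ
      left
      refine ⟨n+1, (s (n+1)).closed _ ⟨⟨β, hβ⟩, fun γ hγ => ?_⟩⟩
      obtain ⟨ζ, h1, h2, h3⟩ := hLρ γ hγ
      refine ⟨ζ, ?_, h2, h3⟩
      rcases h1 with h1 | rfl
      · exact (hX (n+1) ζ (h3.trans (hul n))).2 h1
      · exact absurd (h3.trans hlt) (lt_irrefl _)
    · exact Or.inr heq
    · obtain ⟨ζ, h1, h2, h3⟩ := hLρ δ hgt
      rcases h1 with h1 | rfl
      · exact absurd (hXδ ζ h1) (lt_asymm h2)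
      · exact absurd h2 (lt_irrefl _)
  have hAS : ∀ ξ, A ξ → ξ ∈ S := by
    rintro ξ (⟨n, hn⟩ | rfl)
    · exact (s n).x.2.1 ξ hn
    · exact hδS
  obtain ⟨γ, hγ⟩ := h.nomax δ
  let t : Node S := ⟨⟨A, hAS, fun ρ _ hL _ _ => hAcl ρ hL⟩, γ, hAcl, by
    rintro ξ (hξ | rfl)
    · exact (hXδ ξ hξ).trans hγ
    · exact hγ⟩
  have ht : ∀ n, (s n).Ext t := by
    intro n
    refine ⟨((hslt n).trans hγ).le, fun ξ hξ => ?_⟩
    rw [hX n ξ hξ]
    constructor
    · exact Or.inl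
    · rintro (h1 | rfl)
      · exact h1
      · exact absurd hξ (lt_asymm (hslt n))
  refine ⟨t, fun n => ?_⟩
  have h6 := (ht (n+1)).subset
  have h7 := he3 n (s n) (u n)
  rw [← hs] at h7
  rcases h7 with h7 | h7
  · exact Or.inl (h6.trans h7)
  · exact Or.inr (h7.mono_left h6)

/-- `N α` is nowhere dense. -/
theorem N_nowhereDense (h : Good S) (α : Ω) : IsNowhereDense (N α : Set (Pt S)) := by
  rw [IsNowhereDense, eq_empty_iff_forall_notMem]
  intro c hc
  -- a closed point and a node inside the interior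
  have hopen : IsOpen (interior (closure (N α : Set (Pt S)))) := isOpen_interior
  have hne := h.nonempty
  obtain ⟨d, hd, hdcl⟩ := exists_closed_mem h hopen ⟨c, hc⟩
  obtain ⟨η, hη⟩ := agree_nhd h.nomax hopen d hd
  obtain ⟨β, hβ⟩ := h.bounded d
  obtain ⟨ζ, hζ, hlt⟩ := h.unbdd (max (max η β) α)
  have h1 : η < ζ := lt_of_le_of_lt ((le_max_left _ _).trans (le_max_left _ _)) hlt
  have h2 : β < ζ := lt_of_le_of_lt ((le_max_right _ _).trans (le_max_left _ _)) hlt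
  have h3 : α < ζ := lt_of_le_of_lt (le_max_right _ _) hlt
  have hb : ∀ ξ, d.1 ξ → ξ < ζ := fun ξ hξ => (hβ ξ hξ).trans h2
  obtain ⟨γ, hγ⟩ := h.nomax ζ
  let s : Node S := ⟨add d hdcl ζ hζ hb, γ, add_closed _ _ _ _ _, by
    rintro ξ (hξ | rfl)
    · exact (hb ξ hξ).trans hγ
    · exact hγ⟩
  obtain ⟨V, hV, ⟨v, hv⟩, hVs⟩ := exists_open_in h s
  have hvI : v ∈ closure (N α : Set (Pt S)) := by
    apply interior_subset
    refine hη v fun ξ hξ => ?_
    rw [← hVs hv ξ ((hξ.trans h1).trans hγ)]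
    constructor
    · exact Or.inl
    · rintro (h | rfl)
      · exact h
      · exact absurd hξ (lt_asymm h1)
  obtain ⟨w, hwV, hwN⟩ := mem_closure_iff.1 hvI V hV hv
  have hwζ : w.1 ζ := (hVs hwV ζ hγ).1 (Or.inr rfl)
  exact absurd (hwN ζ hwζ) (lt_asymm h3)

end Pool.Agent.X200.BlumSpace
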