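import Mathlib
import Pool.Agent.Helper330.DPK.Coh
import Pool.Agent.H151.Combi

/-!
Rothberger: the Borel conjecture implies that the bounding number is larger than `ℵ₁`.
-/

set_option autoImplicit false

namespace Pool.Agent.X200.FSep

open Set Topology Filter Pool.Agent.Helper330.DPK.Coh

/-- strong measure zero sets of reals -/
def SMZ (S : Set ℝ) : Prop :=
  ∀ ε : ℕ → ℝ, (∀ n, 0 < ε n) → ∃ c : ℕ → ℝ, S ⊆ ⋃ n, Metric.ball (c n) (ε n)

/-- the Borel conjecture -/
def BorelConjecture : Prop := ∀ S : Set ℝ, SMZ S → S.Countable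

/-- characteristic function -/
noncomputable def ch (D : Set ℕ) (n : ℕ) : Bool := by classical exact decide (n ∈ D)

/-- the real coding a set of natural numbers -/
noncomputable def code (D : Set ℕ) : ℝ := Cardinal.cantorFunction (1 / 3) (ch D)

theorem code_inj : Function.Injective code := by
  intro D E h
  have h1 := Cardinal.cantorFunction_injective (c := 1 / 3) (by norm_num) (by norm_num) h
  ext n
  have h2 := congrFun h1 n
  simpa [ch] using h2

theorem code_close (D E : Set ℕ) (N : ℕ) (h : ∀ n < N, (n ∈ D ↔ n ∈ E)) :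
    |code D - code E| ≤ 2 * (1 / 3 : ℝ) ^ N := by
  have hs : ∀ D : Set ℕ, Summable (Cardinal.cantorFunctionAux (1 / 3 : ℝ) (ch D)) := fun D =>
    Cardinal.summable_cantor_function _ (by norm_num) (by norm_num)
  have h1 : code D - code E =
      ∑' n, (Cardinal.cantorFunctionAux (1 / 3 : ℝ) (ch D) n -
        Cardinal.cantorFunctionAux (1 / 3 : ℝ) (ch E) n) := by
    rw [Summable.tsum_sub (hs D) (hs E)]; rfl
  have hg : Summable fun n : ℕ => (1 / 3 : ℝ) ^ n :=
    summable_geometric_of_lt_one (by norm_num) (by norm_num)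
  have hterm : ∀ (D : Set ℕ) n, 0 ≤ Cardinal.cantorFunctionAux (1 / 3 : ℝ) (ch D) n ∧
      Cardinal.cantorFunctionAux (1 / 3 : ℝ) (ch D) n ≤ (1 / 3 : ℝ) ^ n := by
    intro D n
    refine ⟨Cardinal.cantorFunctionAux_nonneg (by norm_num), ?_⟩
    cases hn : ch D n
    · rw [Cardinal.cantorFunctionAux_false hn]; positivity
    · rw [Cardinal.cantorFunctionAux_true hn]
  have hsum := (hs D).sub (hs E)
  have h2 : ∀ n < N, (Cardinal.cantorFunctionAux (1 / 3 : ℝ) (ch D) n -
        Cardinal.cantorFunctionAux (1 / 3 : ℝ) (ch E) n) = 0 := by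
    intro n hn
    rw [Cardinal.cantorFunctionAux_eq (f := ch D) (g := ch E), sub_self]
    simp [ch, h n hn]
  rw [h1, ← hsum.sum_add_tsum_nat_add N, Finset.sum_eq_zero (fun n hn => h2 n (Finset.mem_range.1 hn)),
    zero_add]
  have hg' : Summable fun n : ℕ => (1 / 3 : ℝ) ^ (n + N) := (summable_nat_add_iff N).2 hg
  have h3 : ∑' n : ℕ, (1 / 3 : ℝ) ^ (n + N) = (3 / 2) * (1 / 3 : ℝ) ^ N := by
    simp_rw [pow_add]
    rw [tsum_mul_right, tsum_geometric_of_lt_one (by norm_num) (by norm_num)]
    norm_num
  have h4 : ‖∑' n, (Cardinal.cantorFunctionAux (1 / 3 : ℝ) (ch D) (n + N) -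
      Cardinal.cantorFunctionAux (1 / 3 : ℝ) (ch E) (n + N))‖ ≤ (3 / 2) * (1 / 3 : ℝ) ^ N := by
    refine tsum_of_norm_bounded (h3 ▸ hg'.hasSum) fun n => ?_
    have hD := hterm D (n + N)
    have hE := hterm E (n + N)
    rw [Real.norm_eq_abs, abs_le]
    constructor <;> linarith
  rw [Real.norm_eq_abs] at h4
  have h5 : (0 : ℝ) ≤ (1 / 3 : ℝ) ^ N := by positivity
  linarith

theorem bounded_of_BC (hBC : BorelConjecture) (g : W → ℕ → ℕ) :
    ∃ h : ℕ → ℕ, ∀ i, ∀ᶠ n in atTop, g i n ≤ h n := by
  classical
  by_contra hcon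
  push Not at hcon
  -- bounds for the initial segments
  have h1 : ∀ α : W, ∃ G : ℕ → ℕ, ∀ β < α, ∀ᶠ n in atTop, g β n ≤ G n := by
    intro α
    rcases (Set.Iio α).eq_empty_or_nonempty with h0 | h0
    · refine ⟨fun _ => 0, fun β hβ => ?_⟩
      have : β ∈ Set.Iio α := hβ
      rw [h0] at this
      exact this.elim
    · obtain ⟨e, he⟩ := (countable_Iio α).exists_eq_range h0
      refine ⟨fun n => ∑ j ∈ Finset.range (n + 1), g (e j) n, fun β hβ => ?_⟩
      have : β ∈ range e := by rw [← he]; exact hβ
      obtain ⟨j, rfl⟩ := this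
      filter_upwards [eventually_ge_atTop j] with n hn
      exact Finset.single_le_sum (f := fun j => g (e j) n) (fun _ _ => Nat.zero_le _)
        (Finset.mem_range.2 (by omega))
  choose G hG using h1
  let d : W → ℕ → ℕ := fun α k => ∑ j ∈ Finset.range (k + 1), (G α j + 1)
  have hdG : ∀ α k, G α k ≤ d α k := by
    intro α k
    have := Finset.single_le_sum (f := fun j => G α j + 1) (fun _ _ => Nat.zero_le _)
      (Finset.mem_range.2 (Nat.lt_succ_self k))
    exact (Nat.le_succ _).trans this
  have hdmono : ∀ α, StrictMono (d α) := by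
    intro α
    refine strictMono_nat_of_lt_succ fun k => ?_
    show _ < ∑ j ∈ Finset.range (k + 1 + 1), (G α j + 1)
    rw [Finset.sum_range_succ _ (k + 1)]
    show d α k < d α k + (G α (k + 1) + 1)
    omega
  -- an uncountable set of indices cannot be bounded
  have key : ∀ (L : Set W) (H : ℕ → ℕ), (∀ α ∈ L, ∀ k, d α k ≤ H k) → L.Countable := by
    intro L H hL
    by_contra hunc
    obtain ⟨i, hi⟩ := hcon H
    obtain ⟨α, hα, hiα⟩ : ∃ α ∈ L, i < α := by
      by_contra hcon'
      push Not at hcon'
      exact hunc ((countable_Iic i).mono hcon')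
    refine hi ?_
    filter_upwards [hG α i hiα] with n hn
    exact not_lt.2 ((hn.trans (hdG α n)).trans (hL α hα n))
  let D : W → Set ℕ := fun α => range (d α)
  -- strong measure zero
  have hS : SMZ (range fun α => code (D α)) := by
    intro ε hε
    -- enumeration of the finite sets
    have hρ : ∀ k : ℕ, ∃ N : ℕ, 2 * (1 / 3 : ℝ) ^ N < ε (2 * k) := by
      intro k
      obtain ⟨N, hN⟩ := exists_pow_lt_of_lt_one (half_pos (hε (2 * k))) (y := (1 / 3 : ℝ))
        (by norm_num)
      exact ⟨N, by linarith⟩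
    choose ρ hρ using hρ
    let c₀ : ℕ → ℝ := fun k => match Encodable.decode (α := Finset ℕ) k with
      | some E => code E
      | none => 0
    have hc₀ : ∀ E : Finset ℕ, c₀ (Encodable.encode E) = code E := by
      intro E; simp [c₀]
    let L : Set W := {α | ∀ k, code (D α) ∉ Metric.ball (c₀ k) (ε (2 * k))}
    let hh : ℕ → ℕ := fun m => m + ∑ E ∈ (Finset.range m).powerset, ρ (Encodable.encode E)
    let H : ℕ → ℕ := fun k => Nat.rec 0 (fun _ m => hh m) k
    have hHs : ∀ k, H (k + 1) = hh (H k) := fun k => rfl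
    have hLc : L.Countable := by
      refine key L (fun k => H (k + 1)) ?_
      intro α hα
      have hblock : ∀ m, ∃ j, m ≤ d α j ∧ d α j < hh m := by
        intro m
        by_contra hno
        push Not at hno
        let E : Finset ℕ := (Finset.range m).filter (fun n => n ∈ D α)
        have hE : E ∈ (Finset.range m).powerset := Finset.mem_powerset.2 (Finset.filter_subset _ _)
        have h2 := code_close (D α) E (ρ (Encodable.encode E)) (by
          intro n hn
          have hle : ρ (Encodable.encode E) ≤ hh m := by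
            have := Finset.single_le_sum (f := fun E : Finset ℕ => ρ (Encodable.encode E))
              (fun _ _ => Nat.zero_le _) hE
            exact this.trans (Nat.le_add_left _ _)
          constructor
          · intro hnD
            obtain ⟨j, rfl⟩ := hnD
            by_cases hm : d α j < m
            · simp only [E, Finset.coe_filter, Finset.mem_range]
              exact ⟨hm, ⟨j, rfl⟩⟩
            · exact absurd (hno j (not_lt.1 hm)) (not_le.2 (hn.trans_le hle))
          · intro hnE
            simp only [E, Finset.coe_filter, Finset.mem_range] at hnE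
            exact hnE.2)
        refine hα (Encodable.encode E) ?_
        rw [Metric.mem_ball, Real.dist_eq, hc₀]
        exact h2.trans_lt (hρ _)
      have hlt : ∀ k, d α k < H (k + 1) := by
        intro k
        induction k with
        | zero =>
          obtain ⟨j, hj1, hj2⟩ := hblock (H 0)
          exact ((hdmono α).monotone (Nat.zero_le j)).trans_lt hj2
        | succ k ih =>
          obtain ⟨j, hj1, hj2⟩ := hblock (H (k + 1))
          have h3 : k < j := (hdmono α).lt_iff_lt.1 (ih.trans_le hj1)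
          exact ((hdmono α).monotone h3).trans_lt hj2
      exact fun k => (hlt k).le
    -- cover the rest
    obtain ⟨c₁, hc₁⟩ : ∃ c₁ : ℕ → ℝ, (fun α => code (D α)) '' L ⊆ range c₁ := by
      rcases ((fun α => code (D α)) '' L).eq_empty_or_nonempty with h0 | h0
      · exact ⟨fun _ => 0, by rw [h0]; exact empty_subset _⟩
      · obtain ⟨c₁, hc₁⟩ := (hLc.image _).exists_eq_range h0
        exact ⟨c₁, hc₁.le⟩
    refine ⟨fun n => if n % 2 = 0 then c₀ (n / 2) else c₁ (n / 2), ?_⟩
    rintro _ ⟨α, rfl⟩
    by_cases hα : α ∈ L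
    · obtain ⟨k, hk⟩ := hc₁ ⟨α, hα, rfl⟩
      refine mem_iUnion.2 ⟨2 * k + 1, ?_⟩
      have h4 : (2 * k + 1) % 2 ≠ 0 := by omega
      have h5 : (2 * k + 1) / 2 = k := by omega
      show code (D α) ∈ Metric.ball (if (2 * k + 1) % 2 = 0 then c₀ ((2 * k + 1) / 2) else
        c₁ ((2 * k + 1) / 2)) (ε (2 * k + 1))
      rw [if_neg h4, h5, hk]
      exact Metric.mem_ball_self (hε _)
    · have h6 : ∃ k, code (D α) ∈ Metric.ball (c₀ k) (ε (2 * k)) := by
        by_contra hcon'
        push Not at hcon'
        exact hα hcon'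
      obtain ⟨k, hk⟩ := h6
      refine mem_iUnion.2 ⟨2 * k, ?_⟩
      have h4 : (2 * k) % 2 = 0 := by omega
      have h5 : (2 * k) / 2 = k := by omega
      show code (D α) ∈ Metric.ball (if (2 * k) % 2 = 0 then c₀ ((2 * k) / 2) else
        c₁ ((2 * k) / 2)) (ε (2 * k))
      rw [if_pos h4, h5]
      exact hk
  -- the set is countable, so some fibre is uncountable
  have hSc := hBC _ hS
  have : Countable (range fun α => code (D α)) := hSc.to_subtype
  obtain ⟨⟨x, _⟩, hx⟩ := Pool.Agent.H151.uncountable_fiber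
    (fun α : W => (⟨code (D α), ⟨α, rfl⟩⟩ : range fun α => code (D α))) univ (by
      intro h
      have h6 : Cardinal.mk W ≤ Cardinal.aleph0 := by
        rw [← Cardinal.mk_univ]; exact Cardinal.le_aleph0_iff_set_countable.2 h
      rw [Cardinal.mk_toType, Cardinal.card_ord] at h6
      exact absurd h6 (not_le.2 Cardinal.aleph0_lt_aleph_one))
  have hne : ({i ∈ univ | (⟨code (D i), ⟨i, rfl⟩⟩ : range fun α => code (D α)) = ⟨x, by assumption⟩}).Nonempty := by
    rw [nonempty_iff_ne_empty]
    intro h
    rw [h] at hx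
    exact hx countable_empty
  obtain ⟨α₀, hα₀⟩ := hne
  refine hx (key _ (d α₀) ?_)
  rintro α ⟨-, hα⟩ k
  have h7 : D α = D α₀ := by
    apply code_inj
    have h8 := congrArg Subtype.val hα
    have h9 := congrArg Subtype.val hα₀.2
    exact h8.trans h9.symm
  have h10 : d α = d α₀ := ((hdmono α).range_inj (hdmono α₀)).1 h7
  rw [h10]

end Pool.Agent.X200.FSep
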