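import Mathlib
import Pool.Agent.X200.FSepBC

/-!
Under the Borel conjecture, if `C_p(X)` is `F`-separable, then `X` is countable.
-/

set_option autoImplicit false

namespace Pool.Agent.X200.FSep

open Set Topology Filter Pool.Agent.Helper330.DPK.Coh

/-- `C_p(X)` -/
def Cp (X : Type*) [TopologicalSpace X] : Type _ := {f : X → ℝ // Continuous f}

instance (X : Type*) [TopologicalSpace X] : TopologicalSpace (Cp X) :=
  inferInstanceAs (TopologicalSpace {f : X → ℝ // Continuous f})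

/-- `F`-dense sets -/
def FDense {Y : Type*} [TopologicalSpace Y] (A : Set Y) : Prop :=
  ∀ y, y ∈ closure A ∧ ∀ A' ⊆ A, y ∈ closure A' →
    ∃ s : ℕ → Y, (∀ n, s n ∈ A') ∧ Tendsto s atTop (𝓝 y)

/-- `F`-separable spaces -/
def FSeparable (Y : Type*) [TopologicalSpace Y] : Prop := ∃ A : Set Y, A.Countable ∧ FDense A

section cp
variable {X : Type*} [TopologicalSpace X]

theorem tendsto_cp {s : ℕ → Cp X} {f : Cp X} :
    Tendsto s atTop (𝓝 f) ↔ ∀ x, Tendsto (fun n => (s n).1 x) atTop (𝓝 (f.1 x)) := by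
  rw [show Tendsto s atTop (𝓝 f) ↔ Tendsto (fun n => (s n).1) atTop (𝓝 f.1) from
    tendsto_subtype_rng, tendsto_pi_nhds]

theorem nhds_cp {f : Cp X} {U : Set (Cp X)} (hU : U ∈ 𝓝 f) :
    ∃ F : Finset X, ∀ g : Cp X, (∀ x ∈ F, g.1 x = f.1 x) → g ∈ U := by
  have h1 : U ∈ comap (Subtype.val : Cp X → X → ℝ) (𝓝 f.1) := by
    have : 𝓝 f = comap (Subtype.val : Cp X → X → ℝ) (𝓝 f.1) := nhds_induced _ _
    rwa [← this]
  obtain ⟨V, hV, hVU⟩ := h1
  rw [nhds_pi, Filter.mem_pi] at hV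
  obtain ⟨I, hI, t, ht, hsub⟩ := hV
  refine ⟨hI.toFinset, fun g hg => hVU (hsub fun i hi => ?_)⟩
  rw [hg i (hI.mem_toFinset.2 hi)]
  exact mem_of_mem_nhds (ht i)

end cp

section level
variable {X : Type*} [TopologicalSpace X]

/-- index set -/
abbrev K : Type := Σ n : ℕ, (Fin n → ℚ) × ℕ

/-- the test functions -/
noncomputable def b (g : X → ℝ) (δ : ℕ → ℝ) (t : ℕ → ℝ) (k : K) (x : X) : ℝ :=
  max (∏ i : Fin k.1, min 1 (max 0 (2 * |g x - k.2.1 i| / δ k.1 - 1)))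
    (max 0 (1 - k.2.2 * |g x - t k.1|))

theorem b_cont {g : X → ℝ} (hg : Continuous g) (δ : ℕ → ℝ) (t : ℕ → ℝ) (k : K) :
    Continuous (b g δ t k) := by
  unfold b
  refine Continuous.max (continuous_finset_prod _ fun i _ => ?_) ?_
  · exact continuous_const.min (continuous_const.max (by fun_prop))
  · exact continuous_const.max (by fun_prop)

theorem b_lt_one {g : X → ℝ} {δ : ℕ → ℝ} (hδ : ∀ n, 0 < δ n) {t : ℕ → ℝ} {k : K} {x : X}
    (h : b g δ t k x < 1) : ∃ i : Fin k.1, |g x - k.2.1 i| < δ k.1 := by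
  by_contra hcon
  push Not at hcon
  have h1 : ∏ i : Fin k.1, min 1 (max 0 (2 * |g x - k.2.1 i| / δ k.1 - 1)) = 1 := by
    refine Finset.prod_eq_one fun i _ => ?_
    have h2 := hcon i
    have h3 : (1 : ℝ) ≤ 2 * |g x - k.2.1 i| / δ k.1 - 1 := by
      rw [le_sub_iff_add_le, le_div_iff₀ (hδ _)]; linarith
    rw [max_eq_right (by linarith), min_eq_left h3]
  have h2 : (1 : ℝ) ≤ b g δ t k x := by
    unfold b; rw [h1]; exact le_max_left _ _
  linarith

theorem b_pt {g : X → ℝ} {δ : ℕ → ℝ} {t : ℕ → ℝ} {k : K} {x : X} (h : g x = t k.1) :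
    1 ≤ b g δ t k x := by
  unfold b
  refine le_max_of_le_right ?_
  rw [h, sub_self, abs_zero, mul_zero, sub_zero]
  exact le_max_right _ _

theorem b_zero {g : X → ℝ} {δ : ℕ → ℝ} (hδ : ∀ n, 0 < δ n) {t : ℕ → ℝ} (ht : Function.Injective t)
    (F : Finset X) : ∃ k : K, ∀ x ∈ F, b g δ t k x = 0 := by
  classical
  rcases F.eq_empty_or_nonempty with rfl | hne
  · exact ⟨⟨0, fun _ => 0, 0⟩, by simp⟩
  -- level
  obtain ⟨n, hn, hnt⟩ : ∃ n, F.card ≤ n ∧ ∀ x ∈ F, g x ≠ t n := by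
    have h1 : {n | ∃ x ∈ F, g x = t n}.Finite := by
      have : {n | ∃ x ∈ F, g x = t n} ⊆ t ⁻¹' (F.image g : Set ℝ) := by
        rintro n ⟨x, hx, h⟩
        simp only [mem_preimage, Finset.coe_image]
        exact ⟨x, hx, h⟩
      exact ((F.image g).finite_toSet.preimage ht.injOn).subset this
    obtain ⟨n, hn, hn'⟩ := ((Set.Ici_infinite (F.card)).sdiff h1).nonempty
    exact ⟨n, hn, fun x hx h => hn' ⟨x, hx, h⟩⟩
  -- enumeration
  obtain ⟨x₀, hx₀⟩ := hne
  obtain ⟨e, he⟩ : ∃ e : Fin n → X, ∀ x ∈ F, ∃ i, e i = x := by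
    let φ := F.equivFin
    refine ⟨fun i => if h : i.1 < F.card then (φ.symm ⟨i.1, h⟩ : F).1 else x₀, fun x hx => ?_⟩
    refine ⟨⟨(φ ⟨x, hx⟩).1, (φ ⟨x, hx⟩).2.trans_le hn⟩, ?_⟩
    simp
  have hq : ∀ i : Fin n, ∃ q : ℚ, |g (e i) - q| < δ n / 2 := by
    intro i
    obtain ⟨q, hq1, hq2⟩ := exists_rat_btwn (show g (e i) < g (e i) + δ n / 2 by
      linarith [hδ n])
    exact ⟨q, by rw [abs_lt]; constructor <;> linarith⟩
  choose q hq using hq
  obtain ⟨r, hr⟩ : ∃ r : ℕ, ∀ x ∈ F, 1 ≤ r * |g x - t n| := by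
    have h1 : ∀ x : X, ∃ r : ℕ, x ∈ F → 1 ≤ r * |g x - t n| := by
      intro x
      by_cases hx : x ∈ F
      · have h2 : 0 < |g x - t n| := abs_pos.2 (sub_ne_zero.2 (hnt x hx))
        obtain ⟨r, hr⟩ := exists_nat_ge (1 / |g x - t n|)
        exact ⟨r, fun _ => by rwa [div_le_iff₀ h2] at hr⟩
      · exact ⟨0, fun h => (hx h).elim⟩
    choose r hr using h1
    refine ⟨∑ x ∈ F, r x, fun x hx => (hr x hx).trans ?_⟩
    have h3 : r x ≤ ∑ x ∈ F, r x := Finset.single_le_sum (fun _ _ => Nat.zero_le _) hx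
    exact mul_le_mul_of_nonneg_right (by exact_mod_cast h3) (abs_nonneg _)
  refine ⟨⟨n, q, r⟩, fun x hx => ?_⟩
  obtain ⟨i, hi⟩ := he x hx
  unfold b
  have h1 : ∏ i : Fin n, min 1 (max 0 (2 * |g x - q i| / δ n - 1)) = 0 := by
    refine Finset.prod_eq_zero (Finset.mem_univ i) ?_
    have h2 := hq i
    rw [hi] at h2
    have h3 : 2 * |g x - q i| / δ n - 1 ≤ 0 := by
      rw [sub_nonpos, div_le_one (hδ n)]; linarith
    rw [max_eq_left h3]; simp
  have h4 : max 0 (1 - (r : ℝ) * |g x - t n|) = 0 := max_eq_left (by linarith [hr x hx])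
  show max (∏ i : Fin n, min 1 (max 0 (2 * |g x - q i| / δ n - 1)))
    (max 0 (1 - (r : ℝ) * |g x - t n|)) = 0
  rw [h1, h4, max_self]

theorem smz_of_fdense (hb : ∀ g : W → ℕ → ℕ, ∃ h : ℕ → ℕ, ∀ i, ∀ᶠ n in atTop, g i n ≤ h n)
    {A : Set (Cp X)} (hA : FDense A) {g : X → ℝ} (hg : Continuous g) (y : W → X)
    (hy : Function.Injective fun w => g (y w)) : SMZ (range fun w => g (y w)) := by
  classical
  intro ε hε
  -- the radii
  have hδ : ∀ n : ℕ, ∃ δ : ℝ, 0 < δ ∧ ∀ m < (n + 1) ^ 2, δ ≤ ε m := by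
    intro n
    have hne : (Finset.range ((n + 1) ^ 2)).Nonempty := by simp
    refine ⟨(Finset.range ((n + 1) ^ 2)).inf' hne ε, ?_, ?_⟩
    · rw [Finset.lt_inf'_iff]; exact fun i _ => hε i
    · exact fun m hm => Finset.inf'_le _ (Finset.mem_range.2 hm)
  choose δ hδ0 hδε using hδ
  -- the points
  have : Infinite W := inferInstance
  let w : ℕ ↪ W := Infinite.natEmbedding W
  let t : ℕ → ℝ := fun n => g (y (w n))
  have ht : Function.Injective t := hy.comp w.injective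
  let B : K → Cp X := fun k => ⟨b g δ t k, b_cont hg δ t k⟩
  have hseq : ∀ k, ∃ s : ℕ → Cp X, (∀ n, s n ∈ A) ∧ Tendsto s atTop (𝓝 (B k)) := fun k =>
    (hA (B k)).2 A le_rfl (hA (B k)).1
  choose a ha1 ha2 using hseq
  have hrate : ∀ (v : W) (k : K), ∃ j₀ : ℕ, ∀ j ≥ j₀, |(a k j).1 (y v) - (B k).1 (y v)| < 1 / 2 := by
    intro v k
    have h1 := tendsto_cp.1 (ha2 k) (y v)
    rw [Metric.tendsto_atTop] at h1
    obtain ⟨N, hN⟩ := h1 (1 / 2) (by norm_num)
    exact ⟨N, fun j hj => by simpa [Real.dist_eq] using hN j hj⟩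
  choose r hr using hrate
  obtain ⟨h₀, hh₀⟩ := hb fun v m => match Encodable.decode (α := K) m with
    | some k => r v k
    | none => 0
  let h : K → ℕ := fun k => h₀ (Encodable.encode k)
  have hh : ∀ v, {k | h k < r v k}.Finite := by
    intro v
    have h1 := hh₀ v
    rw [← Nat.cofinite_eq_atTop, eventually_cofinite] at h1
    refine (h1.preimage (Encodable.encode_injective (α := K)).injOn).subset ?_
    intro k hk
    simp only [mem_preimage, mem_ofPred_eq, not_le, Encodable.encodek]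
    exact hk
  let h' : K → ℕ := fun k => max (h k) (r (w k.1) k)
  let A' : Set (Cp X) := {f | ∃ k, ∃ j ≥ h' k, f = a k j}
  have hA' : A' ⊆ A := by
    rintro _ ⟨k, j, _, rfl⟩
    exact ha1 k j
  let z : Cp X := ⟨fun _ => 0, continuous_const⟩
  have hBA : range B ⊆ closure A' := by
    rintro _ ⟨k, rfl⟩
    refine mem_closure_of_tendsto (ha2 k) ?_
    filter_upwards [eventually_ge_atTop (h' k)] with j hj
    exact ⟨k, j, hj, rfl⟩
  have hz : z ∈ closure A' := by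
    have h1 : z ∈ closure (range B) := by
      rw [mem_closure_iff_nhds]
      intro U hU
      obtain ⟨F, hF⟩ := nhds_cp hU
      obtain ⟨k, hk⟩ := b_zero (g := g) hδ0 ht F
      exact ⟨B k, hF (B k) fun x hx => hk x hx, ⟨k, rfl⟩⟩
    exact closure_minimal hBA isClosed_closure h1
  obtain ⟨s, hs1, hs2⟩ := (hA z).2 A' hA' hz
  choose k j hj hs using hs1
  have hs3 : ∀ x, ∀ᶠ i in atTop, |(s i).1 x| < 1 / 2 := by
    intro x
    have h1 := tendsto_cp.1 hs2 x
    rw [Metric.tendsto_atTop] at h1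
    obtain ⟨N, hN⟩ := h1 (1 / 2) (by norm_num)
    filter_upwards [eventually_ge_atTop N] with i hi
    have := hN i hi
    rw [Real.dist_eq] at this
    simpa [z] using this
  -- levels tend to infinity
  have hlev : ∀ n, {i | (k i).1 = n}.Finite := by
    intro n
    have h1 := hs3 (y (w n))
    rw [← Nat.cofinite_eq_atTop, eventually_cofinite] at h1
    refine h1.subset ?_
    intro i hi hlt
    have hi' : (k i).1 = n := hi
    have h2 := hr (w n) (k i) (j i) (by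
      have h3 := hj i
      have h4 : r (w (k i).1) (k i) ≤ h' (k i) := le_max_right _ _
      rw [hi'] at h4
      exact h4.trans h3)
    have h3 : 1 ≤ (B (k i)).1 (y (w n)) := b_pt (by rw [hi'])
    rw [hs i] at hlt
    rw [abs_lt] at h2 hlt
    linarith [h2.1, h2.2, hlt.1, hlt.2]
  have hlevt : Tendsto (fun i => (k i).1) atTop atTop := by
    rw [← Nat.cofinite_eq_atTop]
    intro S hS
    rw [mem_cofinite] at hS
    rw [mem_map, mem_cofinite]
    have : ((fun i => (k i).1) ⁻¹' S)ᶜ = ⋃ n ∈ Sᶜ, {i | (k i).1 = n} := by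
      ext i; simp
    rw [this]
    exact hS.biUnion fun n _ => hlev n
  obtain ⟨φ, hφ1, hφ2⟩ := strictMono_subseq_of_tendsto_atTop hlevt
  let kk : ℕ → K := fun l => k (φ l)
  have hkk : ∀ l, l ≤ (kk l).1 := fun l => hφ2.id_le l
  refine ⟨fun m => if hp : (Nat.unpair m).2 < (kk (Nat.unpair m).1).1 then
    ((kk (Nat.unpair m).1).2.1 ⟨(Nat.unpair m).2, hp⟩ : ℝ) else 0, ?_⟩
  rintro _ ⟨v, rfl⟩
  -- eventually good
  have h1 : ∀ᶠ l in atTop, |(s (φ l)).1 (y v)| < 1 / 2 := hφ1.tendsto_atTop.eventually (hs3 (y v))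
  have h2 : ∀ᶠ l in atTop, kk l ∉ {k | h k < r v k} := by
    have h3 : ((fun k : K => k.1) '' {k | h k < r v k}).Finite := (hh v).image _
    obtain ⟨M, hM⟩ := h3.bddAbove
    filter_upwards [eventually_gt_atTop M] with l hl hmem
    have := hM ⟨kk l, hmem, rfl⟩
    have := hkk l
    simp only at *
    omega
  obtain ⟨l, hl1, hl2⟩ := (h1.and h2).exists
  have h4 : r v (kk l) ≤ h (kk l) := not_lt.1 hl2
  have h5 := hr v (kk l) (j (φ l)) (by
    have h6 := hj (φ l)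
    have h7 : h (kk l) ≤ h' (kk l) := le_max_left _ _
    exact (h4.trans h7).trans h6)
  have h8 : (B (kk l)).1 (y v) < 1 := by
    rw [hs (φ l)] at hl1
    rw [abs_lt] at h5 hl1
    have : (a (k (φ l)) (j (φ l))).1 (y v) = (a (kk l) (j (φ l))).1 (y v) := rfl
    linarith [h5.1, h5.2, hl1.1, hl1.2]
  obtain ⟨p, hp⟩ := b_lt_one hδ0 h8
  refine mem_iUnion.2 ⟨Nat.pair l p.1, ?_⟩
  have h9 : (Nat.unpair (Nat.pair l p.1)).2 < (kk (Nat.unpair (Nat.pair l p.1)).1).1 := by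
    rw [Nat.unpair_pair]; exact p.2
  beta_reduce
  rw [dif_pos h9, Metric.mem_ball, Real.dist_eq]
  have h10 : δ (kk l).1 ≤ ε (Nat.pair l p.1) := by
    apply hδε
    refine (Nat.pair_lt_max_add_one_sq _ _).trans_le ?_
    refine Nat.pow_le_pow_left ?_ 2
    have := hkk l
    have := p.2
    omega
  refine lt_of_lt_of_le ?_ h10
  have h11 : ∀ (l' p' : ℕ) (h' : p' < (kk l').1), l' = l → p' = p.1 →
      ((kk l').2.1 ⟨p', h'⟩ : ℝ) = ((kk l).2.1 p : ℝ) := by
    rintro l' p' h' rfl rfl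
    rfl
  rw [h11 _ _ h9 (by rw [Nat.unpair_pair]) (by rw [Nat.unpair_pair])]
  exact hp

end level

end Pool.Agent.X200.FSep
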