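import Mathlib
import Pool.Agent.X200.FSepMain

/-!
Under the Borel conjecture, if `C_p(X)` is `F`-separable, then `X` is countable.
-/

set_option autoImplicit false

namespace Pool.Agent.X200.FSep

open Set Topology Filter Pool.Agent.Helper330.DPK.Coh

theorem range_countable (hBC : BorelConjecture) {X : Type*} [TopologicalSpace X]
    {A : Set (Cp X)} (hA : FDense A) {g : X → ℝ} (hg : Continuous g) : (range g).Countable := by
  by_contra hunc
  have h1 : Cardinal.aleph 1 ≤ Cardinal.mk (range g) := by
    rw [← Cardinal.le_aleph0_iff_set_countable, not_le] at hunc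
    have h2 : Cardinal.aleph 1 = Order.succ Cardinal.aleph0 := by
      rw [Cardinal.succ_aleph0]
    rw [h2]
    exact Order.succ_le_of_lt hunc
  have h2 : Cardinal.mk W ≤ Cardinal.mk (range g) := by
    rwa [Cardinal.mk_toType, Cardinal.card_ord]
  obtain ⟨e⟩ := (Cardinal.le_def _ _).1 h2
  have h3 : ∀ w : W, ∃ x, g x = (e w).1 := fun w => (e w).2
  choose y hy using h3
  have hinj : Function.Injective fun w => g (y w) := by
    intro a b hab
    have : (e a).1 = (e b).1 := by rw [← hy a, ← hy b]; exact hab
    exact e.injective (Subtype.ext this)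
  have h4 := hBC _ (smz_of_fdense (bounded_of_BC hBC) hA hg y hinj)
  have h5 : (univ : Set W).Countable := by
    refine Set.countable_of_injective_of_countable_image (f := fun w => g (y w)) hinj.injOn ?_
    rw [image_univ]; exact h4
  have h6 : Cardinal.mk W ≤ Cardinal.aleph0 := by
    rw [← Cardinal.mk_univ]; exact Cardinal.le_aleph0_iff_set_countable.2 h5
  rw [Cardinal.mk_toType, Cardinal.card_ord] at h6
  exact absurd h6 (not_le.2 Cardinal.aleph0_lt_aleph_one)

theorem countable_of_BC (hBC : BorelConjecture) {X : Type*} [TopologicalSpace X] [T35Space X]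
    (h : FSeparable (Cp X)) : Countable X := by
  classical
  obtain ⟨A, hAc, hA⟩ := h
  have hAc' : Countable A := hAc.to_subtype
  have hrange : ∀ a : A, (range a.1.1).Countable := fun a => range_countable hBC hA a.1.2
  have hcut : ∀ j : A × ℚ × ℚ, ∃ c : ℝ, c ∉ range j.1.1.1 ∧
      (j.2.1 < j.2.2 → c ∈ Ioo (j.2.1 : ℝ) j.2.2) := by
    rintro ⟨a, p, q⟩
    by_cases hpq : p < q
    · have h1 : (Ioo (p : ℝ) q).Nonempty ∧ ¬ (Ioo (p : ℝ) q).Countable := by
        have h2 : (p : ℝ) < q := by exact_mod_cast hpq
        refine ⟨nonempty_Ioo.2 h2, fun h3 => ?_⟩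
        rw [← Cardinal.le_aleph0_iff_set_countable, Cardinal.mk_Ioo_real h2] at h3
        exact absurd h3 (not_le.2 Cardinal.aleph0_lt_continuum)
      have h4 : ¬ (Ioo (p : ℝ) q) ⊆ range a.1.1 := fun h5 => h1.2 ((hrange a).mono h5)
      obtain ⟨c, hc, hc'⟩ := not_subset.1 h4
      exact ⟨c, hc', fun _ => hc⟩
    · have h4 : ¬ (univ : Set ℝ) ⊆ range a.1.1 := fun h5 =>
        Cardinal.not_countable_real ((hrange a).mono h5)
      obtain ⟨c, -, hc'⟩ := not_subset.1 h4
      exact ⟨c, hc', fun h => (hpq h).elim⟩
  choose c hc1 hc2 using hcut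
  let D : A × ℚ × ℚ → Set X := fun j => {x | j.1.1.1 x < c j}
  have hD : ∀ j, IsClopen (D j) := by
    intro j
    refine ⟨?_, isOpen_lt j.1.1.2 continuous_const⟩
    have : D j = {x | j.1.1.1 x ≤ c j} := by
      ext x
      constructor
      · intro h
        have h' : j.1.1.1 x < c j := h
        exact h'.le
      · intro h
        have h' : j.1.1.1 x ≤ c j := h
        exact lt_of_le_of_ne h' fun h' => hc1 j ⟨x, h'⟩
    rw [this]
    exact isClosed_le j.1.1.2 continuous_const
  have hsep : ∀ x x' : X, x ≠ x' → ∃ j, ¬ (x ∈ D j ↔ x' ∈ D j) := by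
    intro x x' hne
    -- an element of `A` separating the points
    obtain ⟨a, ha⟩ : ∃ a : A, a.1.1 x ≠ a.1.1 x' := by
      obtain ⟨f, hf, hf0, hf1⟩ := CompletelyRegularSpace.completely_regular x {x'}
        isClosed_singleton (by simpa using hne)
      let F : Cp X := ⟨fun z => (f z : ℝ), continuous_subtype_val.comp hf⟩
      have hF := (hA F).1
      rw [mem_closure_iff_nhds] at hF
      have hev : ∀ z : X, Continuous fun k : Cp X => k.1 z := fun z =>
        (continuous_apply z).comp continuous_subtype_val
      have hU : {k : Cp X | k.1 x < 1 / 2} ∩ {k : Cp X | 1 / 2 < k.1 x'} ∈ 𝓝 F := by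
        refine inter_mem ?_ ?_
        · refine (isOpen_lt (hev x) continuous_const).mem_nhds ?_
          show (f x : ℝ) < 1 / 2
          rw [hf0]; norm_num
        · refine (isOpen_lt continuous_const (hev x')).mem_nhds ?_
          show 1 / 2 < (f x' : ℝ)
          have : f x' = 1 := hf1 rfl
          rw [this]; norm_num
      obtain ⟨a, ⟨h1, h2⟩, haA⟩ := hF _ hU
      refine ⟨⟨a, haA⟩, fun h => ?_⟩
      have h1' : a.1 x < 1 / 2 := h1
      have h2' : 1 / 2 < a.1 x' := h2
      have h3 : a.1 x = a.1 x' := h
      linarith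
    have key : ∀ u v : X, a.1.1 u < a.1.1 v → ∃ j, u ∈ D j ∧ v ∉ D j := by
      intro u v huv
      obtain ⟨p, hp1, hp2⟩ := exists_rat_btwn huv
      obtain ⟨q, hq1, hq2⟩ := exists_rat_btwn hp2
      have hpq : p < q := by exact_mod_cast hq1
      have h1 := hc2 (a, p, q) hpq
      refine ⟨(a, p, q), ?_, ?_⟩
      · exact hp1.trans h1.1
      · exact not_lt.2 (h1.2.le.trans hq2.le)
    rcases lt_or_gt_of_ne ha with h | h
    · obtain ⟨j, h1, h2⟩ := key x x' h
      exact ⟨j, fun h3 => h2 (h3.1 h1)⟩
    · obtain ⟨j, h1, h2⟩ := key x' x h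
      exact ⟨j, fun h3 => h2 (h3.2 h1)⟩
  obtain ⟨e, he⟩ := exists_injective_nat (A × ℚ × ℚ)
  let N : X → Set ℕ := fun x => {n | ∃ j, e j = n ∧ x ∈ D j}
  let g : X → ℝ := fun x => code (N x)
  have hg : Continuous g := by
    show Continuous fun x => ∑' n, Cardinal.cantorFunctionAux (1 / 3 : ℝ) (ch (N x)) n
    refine continuous_tsum (u := fun n => (1 / 3 : ℝ) ^ n) ?_
      (summable_geometric_of_lt_one (by norm_num) (by norm_num)) ?_
    · intro n
      have hcl : IsClopen {x | n ∈ N x} := by
        by_cases hn : ∃ j, e j = n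
        · obtain ⟨j, rfl⟩ := hn
          have : {x | e j ∈ N x} = D j := by
            ext x
            constructor
            · rintro ⟨j', hj', h⟩
              rw [he hj'] at h; exact h
            · intro h; exact ⟨j, rfl, h⟩
          rw [this]; exact hD j
        · have : {x | n ∈ N x} = ∅ := by
            ext x
            constructor
            · rintro ⟨j, hj, _⟩
              exact (hn ⟨j, hj⟩).elim
            · intro h; exact h.elim
          rw [this]; exact isClopen_empty
      have : (fun x => Cardinal.cantorFunctionAux (1 / 3 : ℝ) (ch (N x)) n) =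
          fun x => if x ∈ {x | n ∈ N x} then ((1 / 3 : ℝ) ^ n) else 0 := by
        funext x
        by_cases hx : n ∈ N x
        · rw [Cardinal.cantorFunctionAux_true (by simp [ch, hx])]
          rw [if_pos (show x ∈ {x | n ∈ N x} from hx)]
        · rw [Cardinal.cantorFunctionAux_false (by simp [ch, hx])]
          rw [if_neg (show x ∉ {x | n ∈ N x} from hx)]
      rw [this]
      refine continuous_const.if ?_ continuous_const
      intro x hx
      have hx' : x ∈ frontier {x | n ∈ N x} := hx
      rw [hcl.frontier_eq] at hx'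
      exact hx'.elim
    · intro n x
      rw [Real.norm_eq_abs, abs_of_nonneg (Cardinal.cantorFunctionAux_nonneg (by norm_num))]
      cases hn : ch (N x) n
      · rw [Cardinal.cantorFunctionAux_false hn]; positivity
      · rw [Cardinal.cantorFunctionAux_true hn]
  have hginj : Function.Injective g := by
    intro x x' hxx
    by_contra hne
    obtain ⟨j, hj⟩ := hsep x x' hne
    have h1 : N x = N x' := code_inj hxx
    apply hj
    have h2 : ∀ z, e j ∈ N z ↔ z ∈ D j := by
      intro z
      constructor
      · rintro ⟨j', hj', h⟩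
        rw [he hj'] at h; exact h
      · intro h; exact ⟨j, rfl, h⟩
    rw [← h2, ← h2, h1]
  have h1 := range_countable hBC hA hg
  have : Countable (range g) := h1.to_subtype
  exact Function.Injective.countable (f := fun x => (⟨g x, ⟨x, rfl⟩⟩ : range g))
    fun x x' h => hginj (congrArg Subtype.val h)

theorem fu_of_countable {X : Type*} [TopologicalSpace X] [Countable X] :
    FrechetUrysohnSpace (Cp X) := by
  have h1 : FirstCountableTopology (X → ℝ) := inferInstance
  have h2 : FirstCountableTopology (Cp X) :=
    (Topology.IsInducing.subtypeVal (t := {f : X → ℝ | Continuous f})).firstCountableTopology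
  infer_instance

end Pool.Agent.X200.FSep
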