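import Mathlib
import Pool.Agent.X200.FSepMain

/-!
If `ω₁ < 𝔭`, then `C_p(D(ω₁))` is `F`-separable and not Fréchet-Urysohn.
-/

set_option autoImplicit false

namespace Pool.Agent.X200.FSep

open Set Topology Filter Pool.Agent.Helper330.DPK.Coh

/-- `ω₁ < 𝔭` -/
def OmegaOneLtP : Prop := ∀ (I : Type) (F : I → Set ℕ), Cardinal.mk I ≤ Cardinal.aleph 1 →
  (∀ s : Finset I, (⋂ i ∈ s, F i).Infinite) → ∃ P : Set ℕ, P.Infinite ∧ ∀ i, (P \ F i).Finite

/-- the discrete space of cardinality `ℵ₁` -/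
def D : Type := W

instance : TopologicalSpace D := ⊥
instance : DiscreteTopology D := ⟨rfl⟩

theorem D_uncountable : ¬ (univ : Set D).Countable := by
  intro h5
  have h6 : Cardinal.mk D ≤ Cardinal.aleph0 := by
    rw [← Cardinal.mk_univ]; exact Cardinal.le_aleph0_iff_set_countable.2 h5
  rw [show Cardinal.mk D = Cardinal.aleph 1 by
    show Cardinal.mk W = _
    rw [Cardinal.mk_toType, Cardinal.card_ord]] at h6
  exact absurd h6 (not_le.2 Cardinal.aleph0_lt_aleph_one)

/-- a function on the discrete space -/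
def mkD (f : D → ℝ) : Cp D := ⟨f, continuous_of_discreteTopology⟩

theorem exists_countable_dense : ∃ A : Set (Cp D), A.Countable ∧ Dense A := by
  classical
  have h1 : Cardinal.mk D ≤ Cardinal.mk ℝ := by
    rw [show Cardinal.mk D = Cardinal.aleph 1 by
      show Cardinal.mk W = _
      rw [Cardinal.mk_toType, Cardinal.card_ord], Cardinal.mk_real]
    exact Cardinal.aleph_one_le_continuum
  obtain ⟨e⟩ := (Cardinal.le_def _ _).1 h1
  let Φ : C(ℝ, ℝ) → Cp D := fun f => mkD fun x => f (e x)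
  have hΦ : Continuous Φ := by
    refine Continuous.subtype_mk (continuous_pi fun x => ?_) _
    exact continuous_eval_const (e x)
  obtain ⟨S, hSc, hSd⟩ := TopologicalSpace.exists_countable_dense C(ℝ, ℝ)
  refine ⟨Φ '' S, hSc.image _, ?_⟩
  refine DenseRange.dense_image ?_ hΦ hSd
  intro f
  rw [mem_closure_iff_nhds]
  intro U hU
  obtain ⟨F, hF⟩ := nhds_cp hU
  -- interpolation
  let p : Polynomial ℝ := Lagrange.interpolate F e f.1
  refine ⟨Φ ⟨fun t => p.eval t, p.continuous⟩, hF _ fun x hx => ?_, ⟨_, rfl⟩⟩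
  show p.eval (e x) = f.1 x
  exact Lagrange.eval_interpolate_at_node f.1 e.injective.injOn hx

theorem fdense_of_P (hP : OmegaOneLtP) {A : Set (Cp D)} (hAc : A.Countable) (hAd : Dense A) :
    FDense A := by
  classical
  intro y
  refine ⟨hAd y, fun A' hA' hy => ?_⟩
  by_cases hyA : y ∈ A'
  · exact ⟨fun _ => y, fun _ => hyA, tendsto_const_nhds⟩
  have hne : A'.Nonempty := by
    rw [← closure_nonempty_iff]; exact ⟨y, hy⟩
  obtain ⟨a, ha⟩ := (hAc.mono hA').exists_eq_range hne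
  have ha' : ∀ n, a n ∈ A' := fun n => by rw [ha]; exact ⟨n, rfl⟩
  -- the family
  let F : D × ℕ → Set ℕ := fun p => {n | |(a n).1 p.1 - y.1 p.1| < 1 / (p.2 + 1 : ℝ)}
  have hev : ∀ z : D, Continuous fun k : Cp D => k.1 z := fun z =>
    (continuous_apply z).comp continuous_subtype_val
  have hF : ∀ s : Finset (D × ℕ), (⋂ i ∈ s, F i).Infinite := by
    intro s hfin
    have h1 : (a '' (⋂ i ∈ s, F i)).Finite := hfin.image a
    haveI : T2Space (Cp D) := inferInstanceAs (T2Space {f : D → ℝ // Continuous f})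
    have h2 : (a '' (⋂ i ∈ s, F i))ᶜ ∈ 𝓝 y := by
      refine h1.isClosed.isOpen_compl.mem_nhds ?_
      rintro ⟨n, _, hn⟩
      exact hyA (hn ▸ ha' n)
    have h3 : (⋂ i ∈ s, {k : Cp D | |k.1 i.1 - y.1 i.1| < 1 / (i.2 + 1 : ℝ)}) ∈ 𝓝 y := by
      rw [biInter_finset_mem]
      intro i _
      refine (isOpen_lt (((hev i.1).sub continuous_const).abs) continuous_const).mem_nhds ?_
      show |y.1 i.1 - y.1 i.1| < 1 / (i.2 + 1 : ℝ)
      rw [sub_self, abs_zero]; positivity
    rw [mem_closure_iff_nhds] at hy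
    obtain ⟨k, ⟨hk1, hk2⟩, hkA⟩ := hy _ (inter_mem h2 h3)
    rw [ha] at hkA
    obtain ⟨n, rfl⟩ := hkA
    refine hk1 ⟨n, ?_, rfl⟩
    rw [mem_iInter₂] at hk2 ⊢
    exact hk2
  have hcard : Cardinal.mk (D × ℕ) ≤ Cardinal.aleph 1 := by
    rw [Cardinal.mk_prod, Cardinal.lift_id, Cardinal.lift_id, Cardinal.mk_nat,
      show Cardinal.mk D = Cardinal.aleph 1 by
        show Cardinal.mk W = _
        rw [Cardinal.mk_toType, Cardinal.card_ord],
      Cardinal.mul_aleph0_eq (Cardinal.aleph0_le_aleph 1)]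
  obtain ⟨P, hPinf, hPF⟩ := hP _ F hcard hF
  let e : ℕ → ℕ := Nat.nth (· ∈ P)
  have he1 : StrictMono e := Nat.nth_strictMono hPinf
  have he2 : ∀ n, e n ∈ P := fun n => Nat.nth_mem_of_infinite hPinf n
  refine ⟨fun n => a (e n), fun n => ha' _, ?_⟩
  rw [tendsto_cp]
  intro x
  rw [Metric.tendsto_atTop]
  intro ε hε
  obtain ⟨m, hm⟩ := exists_nat_one_div_lt hε
  obtain ⟨M, hM⟩ := (hPF (x, m)).bddAbove
  refine ⟨M + 1, fun n hn => ?_⟩
  have h1 : e n ∈ F (x, m) := by
    by_contra hcon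
    have h2 := hM ⟨he2 n, hcon⟩
    have h3 := he1.id_le n
    simp only [id] at h3
    omega
  rw [Real.dist_eq]
  have h2 : |(a (e n)).1 x - y.1 x| < 1 / (m + 1 : ℝ) := h1
  exact h2.trans hm

theorem not_fu : ¬ FrechetUrysohnSpace (Cp D) := by
  classical
  intro hfu
  let A : Set (Cp D) := {f | (Function.support f.1).Finite}
  let u : Cp D := mkD fun _ => 1
  have hu : u ∈ closure A := by
    rw [mem_closure_iff_nhds]
    intro U hU
    obtain ⟨F, hF⟩ := nhds_cp hU
    refine ⟨mkD fun x => if x ∈ F then 1 else 0, hF _ fun x hx => ?_, ?_⟩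
    · show (if x ∈ F then (1 : ℝ) else 0) = 1
      rw [if_pos hx]
    · refine F.finite_toSet.subset ?_
      intro x hx
      by_contra hxF
      exact hx (if_neg hxF)
  rw [mem_closure_iff_seq_limit] at hu
  obtain ⟨s, hs1, hs2⟩ := hu
  have h1 : (⋃ n, Function.support (s n).1).Countable := countable_iUnion fun n => (hs1 n).countable
  refine D_uncountable (h1.mono fun x _ => ?_)
  by_contra hx
  have h2 := tendsto_cp.1 hs2 x
  have h3 : ∀ n, (s n).1 x = 0 := by
    intro n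
    by_contra h
    exact hx (mem_iUnion.2 ⟨n, h⟩)
  simp only [h3] at h2
  have h4 := tendsto_nhds_unique h2 tendsto_const_nhds
  have h5 : (1 : ℝ) = 0 := h4
  norm_num at h5

theorem main_P (hP : OmegaOneLtP) : ∃ (X : Type) (_ : TopologicalSpace X), T35Space X ∧
    FSeparable (Cp X) ∧ ¬ FrechetUrysohnSpace (Cp X) := by
  obtain ⟨A, h1, h2⟩ := exists_countable_dense
  exact ⟨D, inferInstance, inferInstance, ⟨A, h1, fdense_of_P hP h1 h2⟩, not_fu⟩

end Pool.Agent.X200.FSep
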