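import Mathlib
import Pool.Agent.X200.FSepMain

/-!
If `C_p(X)` is `F`-separable, then sequentially continuous real functions on `C_p(X)` are
continuous. `C_p` of the Sorgenfrey line is not `F`-separable.
-/

set_option autoImplicit false

namespace Pool.Agent.X200.FSep

open Set Topology Filter MeasureTheory

theorem seqcont_cont {X : Type*} [TopologicalSpace X] (h : FSeparable (Cp X)) (Φ : Cp X → ℝ)
    (hΦ : ∀ (s : ℕ → Cp X) (f : Cp X), Tendsto s atTop (𝓝 f) →
      Tendsto (fun n => Φ (s n)) atTop (𝓝 (Φ f))) : Continuous Φ := by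
  obtain ⟨A, -, hA⟩ := h
  have hL : ∀ (f : Cp X) (ε : ℝ), 0 < ε → ∃ U : Set (Cp X), IsOpen U ∧ f ∈ U ∧
      ∀ a ∈ A ∩ U, |Φ a - Φ f| < ε := by
    intro f ε hε
    by_contra hcon
    push Not at hcon
    have h1 : f ∈ closure {a | a ∈ A ∧ ε ≤ |Φ a - Φ f|} := by
      rw [mem_closure_iff]
      intro U hU hfU
      obtain ⟨a, ha, hae⟩ := hcon U hU hfU
      exact ⟨a, ha.2, ha.1, hae⟩
    obtain ⟨s, hs1, hs2⟩ := (hA f).2 _ (fun a ha => ha.1) h1
    have h2 := hΦ s f hs2
    rw [Metric.tendsto_atTop] at h2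
    obtain ⟨N, hN⟩ := h2 ε hε
    have h3 := hN N le_rfl
    rw [Real.dist_eq] at h3
    exact absurd h3 (not_lt.2 (hs1 N).2)
  rw [continuous_iff_continuousAt]
  intro f
  rw [ContinuousAt, Metric.tendsto_nhds]
  intro ε hε
  obtain ⟨U, hU, hfU, hUA⟩ := hL f (ε / 2) (by linarith)
  filter_upwards [hU.mem_nhds hfU] with g hg
  obtain ⟨U', hU', hgU', hUA'⟩ := hL g (ε / 2) (by linarith)
  obtain ⟨a, ⟨ha1, ha2⟩, haA⟩ := mem_closure_iff.1 (hA g).1 _ (hU.inter hU') ⟨hg, hgU'⟩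
  have h1 := hUA a ⟨haA, ha1⟩
  have h2 := hUA' a ⟨haA, ha2⟩
  rw [Real.dist_eq]
  rw [abs_lt] at h1 h2 ⊢
  constructor <;> linarith [h1.1, h1.2, h2.1, h2.2]

/-- the Sorgenfrey line -/
def Sorgenfrey : Type := ℝ

instance : TopologicalSpace Sorgenfrey :=
  TopologicalSpace.generateFrom {S : Set ℝ | ∃ a b : ℝ, S = Ico a b}

theorem isOpen_Ico' (a b : ℝ) : IsOpen (X := Sorgenfrey) (Ico a b : Set ℝ) :=
  TopologicalSpace.isOpen_generateFrom_of_mem ⟨a, b, rfl⟩

theorem sorg_open {U : Set Sorgenfrey} (hU : IsOpen U) : ∀ x : ℝ, x ∈ (U : Set ℝ) →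
    ∃ y : ℝ, x < y ∧ (Ico x y : Set ℝ) ⊆ (U : Set ℝ) := by
  induction hU with
  | basic S hS =>
    obtain ⟨a, b, rfl⟩ := hS
    intro x hx
    exact ⟨b, hx.2, fun z hz => ⟨hx.1.trans hz.1, hz.2⟩⟩
  | univ => intro x _; exact ⟨x + 1, by linarith, subset_univ _⟩
  | inter S T _ _ ihS ihT =>
    rintro x ⟨h1, h2⟩
    obtain ⟨y, hy, hyS⟩ := ihS x h1
    obtain ⟨z, hz, hzT⟩ := ihT x h2
    exact ⟨min y z, lt_min hy hz, fun w hw => ⟨hyS ⟨hw.1, hw.2.trans_le (min_le_left _ _)⟩,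
      hzT ⟨hw.1, hw.2.trans_le (min_le_right _ _)⟩⟩⟩
  | sUnion 𝒮 _ ih =>
    rintro x ⟨S, hS, hx⟩
    obtain ⟨y, hy, hyS⟩ := ih S hS x hx
    exact ⟨y, hy, fun z hz => ⟨S, hS, hyS hz⟩⟩

/-- the underlying real -/
def toR (x : Sorgenfrey) : ℝ := x

/-- the underlying real function -/
def fn (f : Cp Sorgenfrey) : ℝ → ℝ := fun x => f.1 x

theorem sorg_meas (f : Cp Sorgenfrey) : Measurable (fn f) := by
  have h1 : ∀ n : ℕ, Measurable fun x : ℝ => fn f ((⌊(n + 1 : ℝ) * x⌋ + 1) / (n + 1)) := by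
    intro n
    have h2 : Measurable fun x : ℝ => ⌊(n + 1 : ℝ) * x⌋ :=
      Int.measurable_floor.comp (measurable_const.mul measurable_id)
    have h3 : Measurable fun k : ℤ => fn f (((k : ℝ) + 1) / (n + 1)) := measurable_from_top
    exact h3.comp h2
  refine measurable_of_tendsto_metrizable h1 ?_
  rw [tendsto_pi_nhds]
  intro x
  rw [Metric.tendsto_atTop]
  intro ε hε
  have h2 : IsOpen (f.1 ⁻¹' Metric.ball (f.1 x) ε) :=
    f.2.isOpen_preimage _ Metric.isOpen_ball
  obtain ⟨y, hy, hyU⟩ := sorg_open h2 x (Metric.mem_ball_self hε)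
  obtain ⟨N, hN⟩ := exists_nat_one_div_lt (sub_pos.2 hy)
  refine ⟨N, fun n hn => ?_⟩
  have hn1 : (0 : ℝ) < n + 1 := by positivity
  have h3 := Int.floor_le ((n + 1 : ℝ) * x)
  have h4 := Int.lt_floor_add_one ((n + 1 : ℝ) * x)
  have h5 : (⌊(n + 1 : ℝ) * x⌋ + 1 : ℝ) / (n + 1) ∈ Ico x y := by
    constructor
    · rw [le_div_iff₀ hn1]; linarith
    · rw [div_lt_iff₀ hn1]
      have h6 : (1 : ℝ) < (y - x) * (n + 1) := by
        have h7 : 1 / ((N : ℝ) + 1) < y - x := hN
        have h8 : (0 : ℝ) < N + 1 := by positivity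
        rw [div_lt_iff₀ h8] at h7
        have h9 : (N : ℝ) ≤ n := by exact_mod_cast hn
        nlinarith [sub_pos.2 hy]
      linarith
  exact hyU h5

theorem sorg_clopen (x η : ℝ) : IsClopen (X := Sorgenfrey) (Ico x (x + η) : Set ℝ) := by
  refine ⟨?_, isOpen_Ico' _ _⟩
  rw [← isOpen_compl_iff]
  have h1 : ((Ico x (x + η) : Set ℝ)ᶜ) =
      (⋃ n : ℕ, (Ico (x - n) x : Set ℝ)) ∪
        ⋃ n : ℕ, (Ico (x + η) (x + η + n) : Set ℝ) := by
    ext t
    simp only [mem_compl_iff, mem_Ico, mem_union, mem_iUnion, not_and, not_lt]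
    constructor
    · intro ht
      by_cases hxt : x ≤ t
      · right
        obtain ⟨n, hn⟩ := exists_nat_gt (t - (x + η))
        exact ⟨n, ht hxt, by linarith⟩
      · left
        obtain ⟨n, hn⟩ := exists_nat_gt (x - t)
        exact ⟨n, by linarith, not_le.1 hxt⟩
    · rintro (⟨n, h1, h2⟩ | ⟨n, h1, h2⟩) h3
      · linarith
      · exact h1
  have h2 : IsOpen (X := Sorgenfrey) ((⋃ n : ℕ, (Ico (x - n) x : Set ℝ)) ∪
        ⋃ n : ℕ, (Ico (x + η) (x + η + n) : Set ℝ)) :=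
    (isOpen_iUnion fun n => isOpen_Ico' _ _).union (isOpen_iUnion fun n => isOpen_Ico' _ _)
  exact (congrArg (fun S : Set ℝ => @IsOpen Sorgenfrey _ S) h1).mpr h2

theorem sorg_not : ¬ FSeparable (Cp Sorgenfrey) := by
  classical
  intro h
  let μ : Measure ℝ := volume.restrict (Icc (0 : ℝ) 1)
  have hμ : μ univ = 1 := by simp [μ]
  have : IsProbabilityMeasure μ := ⟨hμ⟩
  let Φ : Cp Sorgenfrey → ℝ := fun f => ∫ x, min |fn f x| 1 ∂μ
  have hmeas : ∀ f : Cp Sorgenfrey, Measurable fun x : ℝ => min |fn f x| 1 := fun f =>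
    ((sorg_meas f).abs).min measurable_const
  have hcont : Continuous Φ := by
    refine seqcont_cont h Φ fun s f hs => ?_
    refine tendsto_integral_of_dominated_convergence (fun _ => 1)
      (fun n => (hmeas (s n)).aestronglyMeasurable) (integrable_const _) ?_ ?_
    · intro n
      refine Eventually.of_forall fun x => ?_
      rw [Real.norm_eq_abs, abs_of_nonneg (le_min (abs_nonneg _) zero_le_one)]
      exact min_le_right _ _
    · refine Eventually.of_forall fun x => ?_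
      have h1 := tendsto_cp.1 hs x
      exact (h1.abs).min tendsto_const_nhds
  let z : Cp Sorgenfrey := ⟨fun _ => 0, continuous_const⟩
  have hz : Φ z = 0 := by simp [Φ, z, fn]
  have hU : Φ ⁻¹' Iio (1 / 2) ∈ 𝓝 z := by
    refine (isOpen_Iio.preimage hcont).mem_nhds ?_
    show Φ z < 1 / 2
    rw [hz]; norm_num
  obtain ⟨F, hF⟩ := nhds_cp hU
  -- a function vanishing on `F` which is `1` on a large set
  let η : ℝ := 1 / (2 * (F.card + 1))
  have hη : 0 < η := by positivity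
  let V : Set ℝ := ⋃ x ∈ F, Ico (toR x) (toR x + η)
  have hVclopen : IsClopen (X := Sorgenfrey) V := by
    refine F.finite_toSet.isClopen_biUnion fun x _ => ?_
    exact sorg_clopen (toR x) η
  have hfc : Continuous (X := Sorgenfrey) fun x => if x ∈ (V : Set Sorgenfrey) then (0 : ℝ) else 1 := by
    refine continuous_const.if ?_ continuous_const
    intro x hx
    have hx' : x ∈ frontier (X := Sorgenfrey) V := hx
    rw [hVclopen.frontier_eq] at hx'
    exact hx'.elim
  let f : Cp Sorgenfrey := ⟨_, hfc⟩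
  have hf0 : ∀ x : ℝ, x ∈ V → fn f x = 0 := fun x hx => if_pos hx
  have hf1 : ∀ x : ℝ, x ∉ V → fn f x = 1 := fun x hx => if_neg hx
  have h1 : f ∈ Φ ⁻¹' Iio (1 / 2) := by
    refine hF f fun x hx => ?_
    refine hf0 x ?_
    refine mem_iUnion₂.2 ⟨x, hx, ?_⟩
    have : toR x ∈ Ico (toR x) (toR x + η) := ⟨le_rfl, lt_add_of_pos_right _ hη⟩
    exact this
  have hVm : MeasurableSet V := by
    refine F.measurableSet_biUnion fun x _ => measurableSet_Ico
  have hVvol : volume V ≤ ENNReal.ofReal (1 / 2) := by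
    calc volume V ≤ ∑ x ∈ F, volume (Ico (toR x) (toR x + η)) := measure_biUnion_finset_le _ _
      _ = ∑ x ∈ F, ENNReal.ofReal η := by
        refine Finset.sum_congr rfl fun x _ => ?_
        rw [Real.volume_Ico, add_sub_cancel_left]
      _ = ENNReal.ofReal (F.card * η) := by
        rw [Finset.sum_const, nsmul_eq_mul, ENNReal.ofReal_mul (by positivity),
          ENNReal.ofReal_natCast]
      _ ≤ ENNReal.ofReal (1 / 2) := by
        refine ENNReal.ofReal_le_ofReal ?_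
        show (F.card : ℝ) * (1 / (2 * (F.card + 1))) ≤ 1 / 2
        rw [mul_one_div, div_le_div_iff₀ (by positivity) (by norm_num)]
        nlinarith
  have h2 : Φ f = (μ Vᶜ).toReal := by
    have h3 : (fun x : ℝ => min |fn f x| 1) = Vᶜ.indicator (fun _ => (1 : ℝ)) := by
      funext x
      by_cases hx : x ∈ V
      · rw [hf0 x hx, indicator_of_notMem (by simpa using hx)]; simp
      · rw [hf1 x hx, indicator_of_mem (by simpa using hx)]; simp
    show ∫ x, min |fn f x| 1 ∂μ = _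
    rw [h3, integral_indicator_const _ hVm.compl]
    simp [Measure.real]
  have h3 : μ V ≤ ENNReal.ofReal (1 / 2) := (Measure.restrict_apply_le _ _).trans hVvol
  have h4 : (μ Vᶜ).toReal = 1 - (μ V).toReal := by
    rw [prob_compl_eq_one_sub hVm, ENNReal.toReal_sub_of_le prob_le_one (by simp)]
    simp
  have h5 : (μ V).toReal ≤ 1 / 2 := by
    have := ENNReal.toReal_mono (by simp) h3
    rwa [ENNReal.toReal_ofReal (by norm_num)] at this
  have h6 : Φ f < 1 / 2 := h1
  rw [h2, h4] at h6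
  linarith

end Pool.Agent.X200.FSep
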