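import Mathlib
import Pool.Agent.H151.Combi

/-!
A non-normal Tychonoff space in which every subset is functionally `F_sigma`.
-/

namespace Pool.Agent.X200.OneEmb

open Set Topology Filter

section defs

variable {X : Type*} [TopologicalSpace X]

/-- functionally closed sets (zero sets) -/
def FClosed (A : Set X) : Prop :=
  ∃ f : X → ℝ, Continuous f ∧ (∀ x, 0 ≤ f x ∧ f x ≤ 1) ∧ A = {x | f x = 0}

/-- functionally open sets (cozero sets) -/
def FOpen (A : Set X) : Prop :=
  ∃ f : X → ℝ, Continuous f ∧ (∀ x, 0 ≤ f x ∧ f x ≤ 1) ∧ A = {x | 0 < f x}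

/-- functionally F-sigma sets -/
def FSigma (A : Set X) : Prop :=
  ∃ F : ℕ → Set X, (∀ n, FClosed (F n)) ∧ A = ⋃ n, F n

/-- functionally G-delta sets -/
def GDelta (A : Set X) : Prop :=
  ∃ F : ℕ → Set X, (∀ n, FOpen (F n)) ∧ A = ⋂ n, F n

/-- 1-embedded subsets -/
def OneEmbedded (E : Set X) : Prop :=
  (∀ A : Set E, FSigma A → ∃ B : Set X, FSigma B ∧ A = Subtype.val ⁻¹' B) ∧
  (∀ A : Set E, GDelta A → ∃ B : Set X, GDelta B ∧ A = Subtype.val ⁻¹' B)

theorem FClosed.compl {A : Set X} (h : FClosed A) : FOpen Aᶜ := by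
  obtain ⟨f, hf, h01, rfl⟩ := h
  refine ⟨f, hf, h01, ?_⟩
  ext x
  exact ⟨fun hx => lt_of_le_of_ne (h01 x).1 (Ne.symm hx), fun hx => ne_of_gt hx⟩

theorem FSigma.gDelta_compl {A : Set X} (h : FSigma Aᶜ) : GDelta A := by
  obtain ⟨F, hF, hA⟩ := h
  refine ⟨fun n => (F n)ᶜ, fun n => (hF n).compl, ?_⟩
  rw [← compl_iUnion, ← hA, compl_compl]

theorem continuous_ind {C : Set X} (hC : IsClopen C) (a b : ℝ) [DecidablePred (· ∈ C)] :
    Continuous (fun y => if y ∈ C then a else b) := by
  refine continuous_if ?_ continuous_const.continuousOn continuous_const.continuousOn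
  intro x hx
  have h1 : frontier {x | x ∈ C} = ∅ := hC.frontier_eq
  rw [h1] at hx
  exact hx.elim

/-- countable intersections of clopen sets are functionally closed -/
theorem fClosed_iInter {C : ℕ → Set X} (hC : ∀ n, IsClopen (C n)) : FClosed (⋂ n, C n) := by
  classical
  let t : ℕ → X → ℝ := fun n y => if y ∈ C n then 0 else (1 / 2) ^ n / 2
  have ht0 : ∀ n y, 0 ≤ t n y := by
    intro n y
    simp only [t]; split_ifs <;> positivity
  have htu : ∀ n y, t n y ≤ (1 / 2 : ℝ) ^ n / 2 := by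
    intro n y
    simp only [t]; split_ifs
    · positivity
    · exact le_rfl
  have hsu : Summable fun n : ℕ => (1 / 2 : ℝ) ^ n / 2 := (summable_geometric_two).div_const 2
  have hst : ∀ y, Summable fun n => t n y := fun y =>
    Summable.of_nonneg_of_le (fun n => ht0 n y) (fun n => htu n y) hsu
  refine ⟨fun y => ∑' n, t n y, ?_, fun y => ⟨tsum_nonneg fun n => ht0 n y, ?_⟩, ?_⟩
  · refine continuous_tsum (u := fun n => (1 / 2 : ℝ) ^ n / 2) (fun n => continuous_ind (hC n) _ _) hsu ?_
    intro n y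
    rw [Real.norm_of_nonneg (ht0 n y)]
    exact htu n y
  · refine (Summable.tsum_le_tsum (fun n => htu n y) (hst y) hsu).trans ?_
    rw [tsum_div_const, tsum_geometric_two]; norm_num
  · ext y
    simp only [mem_iInter, mem_setOf_eq]
    constructor
    · intro hy
      have : (fun n => t n y) = fun _ => 0 := by
        funext n; simp only [t, hy n, if_true]
      rw [this]; simp
    · intro hy n
      by_contra hn
      have h0 : HasSum (fun n => t n y) 0 := by
        rw [← hy]; exact (hst y).hasSum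
      have h1 : (fun n => t n y) = 0 := (hasSum_zero_iff_of_nonneg (fun n => ht0 n y)).1 h0
      have h2 : t n y = 0 := congrFun h1 n
      simp only [t, hn, if_false] at h2
      have h3 : (0 : ℝ) < (1 / 2) ^ n / 2 := by positivity
      linarith

theorem IsClopen.fClosed {C : Set X} (hC : IsClopen C) : FClosed C := by
  have := fClosed_iInter (C := fun _ : ℕ => C) fun _ => hC
  rwa [iInter_const] at this

end defs

variable (κ : Type)

/-- convergence of a two-valued function along a column -/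
def Conv (g : κ × Option ℕ → Bool) (α : κ) : Prop := ∃ N, ∀ n ≥ N, g (α, some n) = g (α, none)

/-- the functions that converge along all but countably many columns -/
def Fn : Type := {g : κ × Option ℕ → Bool // {α | ¬ Conv κ g α}.Countable}

/-- the space -/
inductive Sp : Type
  | a (d : κ × Option ℕ) : Sp
  | b (x : Fn κ → Bool) (k : ℕ) : Sp

variable {κ}

instance : TopologicalSpace (Sp κ) where
  IsOpen U := ∀ d, (Sp.a d) ∈ U → ∃ (F : Finset (Fn κ)) (m : ℕ), ∀ (x : Fn κ → Bool) k,
    m ≤ k → (∀ g ∈ F, x g = g.1 d) → (Sp.b x k) ∈ U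
  isOpen_univ := fun _ _ => ⟨∅, 0, fun _ _ _ _ => trivial⟩
  isOpen_inter := by
    classical
    intro U U' h h' d hd
    obtain ⟨F, m, hF⟩ := h d hd.1
    obtain ⟨F', m', hF'⟩ := h' d hd.2
    refine ⟨F ∪ F', max m m', fun x k hk hx => ⟨?_, ?_⟩⟩
    · exact hF x k ((le_max_left _ _).trans hk) fun g hg => hx g (Finset.mem_union_left _ hg)
    · exact hF' x k ((le_max_right _ _).trans hk) fun g hg => hx g (Finset.mem_union_right _ hg)
  isOpen_sUnion := by
    rintro s hs d ⟨U, hU, hd⟩
    obtain ⟨F, m, hF⟩ := hs U hU d hd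
    exact ⟨F, m, fun x k hk hx => ⟨U, hU, hF x k hk hx⟩⟩

theorem isOpen_def {U : Set (Sp κ)} : IsOpen U ↔ ∀ d, (Sp.a d) ∈ U →
    ∃ (F : Finset (Fn κ)) (m : ℕ), ∀ (x : Fn κ → Bool) k,
    m ≤ k → (∀ g ∈ F, x g = g.1 d) → (Sp.b x k) ∈ U := Iff.rfl

/-- the basic clopen sets -/
def Cl (g : Fn κ) (n : ℕ) : Set (Sp κ) :=
  {y | (∃ d, y = Sp.a d ∧ g.1 d = true) ∨ ∃ x k, y = Sp.b x k ∧ n ≤ k ∧ x g = true}

theorem inl_mem_Cl {g : Fn κ} {n : ℕ} {d} : (Sp.a d) ∈ Cl g n ↔ g.1 d = true := by
  constructor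
  · rintro (⟨d', h, h'⟩ | ⟨x, k, h, _⟩)
    · rw [Sp.a.inj h]; exact h'
    · cases h
  · intro h; exact Or.inl ⟨d, rfl, h⟩

theorem inr_mem_Cl {g : Fn κ} {n : ℕ} {x k} :
    (Sp.b x k) ∈ Cl g n ↔ n ≤ k ∧ x g = true := by
  constructor
  · rintro (⟨d', h, h'⟩ | ⟨x', k', h, h'⟩)
    · cases h
    · have := Sp.b.inj h
      rw [this.1, this.2]; exact h'
  · intro h; exact Or.inr ⟨x, k, rfl, h⟩

theorem isClopen_Cl (g : Fn κ) (n : ℕ) : IsClopen (Cl g n) := by
  constructor
  · rw [← isOpen_compl_iff, isOpen_def]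
    intro d hd
    refine ⟨{g}, 0, fun x k _ hx => ?_⟩
    rw [mem_compl_iff, inl_mem_Cl] at hd
    rw [mem_compl_iff, inr_mem_Cl]
    rintro ⟨_, h⟩
    rw [hx g (Finset.mem_singleton_self g)] at h
    exact hd h
  · rw [isOpen_def]
    intro d hd
    rw [inl_mem_Cl] at hd
    refine ⟨{g}, n, fun x k hk hx => ?_⟩
    rw [inr_mem_Cl]
    exact ⟨hk, by rw [hx g (Finset.mem_singleton_self g)]; exact hd⟩

/-- the level of isolated points -/
def Lev (k : ℕ) : Set (Sp κ) := {y | ∃ x, y = Sp.b x k}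

theorem isClopen_of_subset_Lev {S : Set (Sp κ)} {k : ℕ} (hS : S ⊆ Lev k) : IsClopen S := by
  constructor
  · rw [← isOpen_compl_iff, isOpen_def]
    intro d _
    refine ⟨∅, k + 1, fun x k' hk' _ h => ?_⟩
    obtain ⟨x', hx'⟩ := hS h
    have := Sp.b.inj hx'
    omega
  · rw [isOpen_def]
    intro d hd
    obtain ⟨x', hx'⟩ := hS hd
    cases hx'

/-- functions from column-wise convergent ones -/
def mkF (g : κ × Option ℕ → Bool) (h : ∀ α, Conv κ g α) : Fn κ :=
  ⟨g, by
    have : {α | ¬ Conv κ g α} = ∅ := by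
      ext α
      exact ⟨fun hα => (hα (h α)).elim, fun hα => hα.elim⟩
    rw [this]; exact countable_empty⟩

open Classical in
/-- every subset of the set of non-isolated points at one level is functionally closed -/
theorem fClosed_P (Y : Set (Sp κ)) : FClosed (Y ∩ {y | ∃ α : κ, y = Sp.a (α, none)}) := by
  let g : ℕ → κ × Option ℕ → Bool := fun n d =>
    match d with
    | (α, none) => decide ((Sp.a (α, none)) ∈ Y)
    | (α, some m) => decide (n ≤ m ∧ (Sp.a (α, none)) ∈ Y)
  have hg : ∀ n α, Conv κ (g n) α := by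
    intro n α
    refine ⟨n, fun m hm => ?_⟩
    simp only [g]
    have : n ≤ m := hm
    simp [this]
  have h1 := fClosed_iInter (C := fun n => Cl (mkF (g n) (hg n)) n) fun n => isClopen_Cl _ _
  have h2 : (⋂ n, Cl (mkF (g n) (hg n)) n) = Y ∩ {y | ∃ α : κ, y = Sp.a (α, none)} := by
    ext y
    rcases y with ⟨α, _ | m⟩ | ⟨x, k⟩
    · simp only [mem_iInter]
      constructor
      · intro h
        have := inl_mem_Cl.1 (h 0)
        exact ⟨by simpa [mkF, g] using this, α, rfl⟩
      · rintro ⟨h, _⟩ n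
        rw [inl_mem_Cl]
        simpa [mkF, g] using h
    · simp only [mem_iInter]
      constructor
      · intro h
        have := inl_mem_Cl.1 (h (m + 1))
        simp only [mkF, g, decide_eq_true_eq] at this
        omega
      · rintro ⟨_, β, h⟩
        have := Sp.a.inj h
        simp at this
    · simp only [mem_iInter]
      constructor
      · intro h
        have := inr_mem_Cl.1 (h (k + 1))
        omega
      · rintro ⟨_, β, h⟩
        cases h
  rw [← h2]; exact h1

open Classical in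
theorem fClosed_Q (Y : Set (Sp κ)) (n : ℕ) :
    FClosed (Y ∩ {y | ∃ α : κ, y = Sp.a (α, some n)}) := by
  let g : κ × Option ℕ → Bool := fun d =>
    match d with
    | (_, none) => false
    | (α, some m) => decide (m = n ∧ (Sp.a (α, some n)) ∈ Y)
  have hg : ∀ α, Conv κ g α := by
    intro α
    refine ⟨n + 1, fun m hm => ?_⟩
    simp only [g]
    have : ¬ m = n := by omega
    simp [this]
  have h1 := fClosed_iInter (C := fun m => Cl (mkF g hg) m) fun n => isClopen_Cl _ _
  have h2 : (⋂ m, Cl (mkF g hg) m) = Y ∩ {y | ∃ α : κ, y = Sp.a (α, some n)} := by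
    ext y
    rcases y with ⟨α, _ | m⟩ | ⟨x, k⟩
    · simp only [mem_iInter]
      constructor
      · intro h
        have := inl_mem_Cl.1 (h 0)
        simp [mkF, g] at this
      · rintro ⟨_, β, h⟩
        have := Sp.a.inj h
        simp at this
    · simp only [mem_iInter]
      constructor
      · intro h
        have := inl_mem_Cl.1 (h 0)
        simp only [mkF, g, decide_eq_true_eq] at this
        obtain ⟨rfl, h'⟩ := this
        exact ⟨h', α, rfl⟩
      · rintro ⟨h, β, h'⟩ j
        rw [inl_mem_Cl]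
        have := Sp.a.inj h'
        simp only [Prod.mk.injEq, Option.some.injEq] at this
        obtain ⟨rfl, rfl⟩ := this
        simpa [mkF, g] using h
    · simp only [mem_iInter]
      constructor
      · intro h
        have := inr_mem_Cl.1 (h (k + 1))
        omega
      · rintro ⟨_, β, h⟩
        cases h
  rw [← h2]; exact h1

/-- every subset is functionally F-sigma -/
theorem fSigma_all (Y : Set (Sp κ)) : FSigma Y := by
  obtain ⟨e, he⟩ := exists_surjective_nat (Option ℕ ⊕ ℕ)
  let piece : Option ℕ ⊕ ℕ → Set (Sp κ) := fun s =>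
    match s with
    | Sum.inl none => {y | ∃ α : κ, y = Sp.a (α, none)}
    | Sum.inl (some n) => {y | ∃ α : κ, y = Sp.a (α, some n)}
    | Sum.inr k => Lev k
  refine ⟨fun n => Y ∩ piece (e n), fun n => ?_, ?_⟩
  · show FClosed (Y ∩ piece (e n))
    rcases e n with (_ | m) | k
    · exact fClosed_P Y
    · exact fClosed_Q Y m
    · exact IsClopen.fClosed (isClopen_of_subset_Lev (k := k) inter_subset_right)
  · ext y
    constructor
    · intro hy
      have : ∃ s, y ∈ piece s := by
        rcases y with ⟨α, _ | m⟩ | ⟨x, k⟩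
        · exact ⟨Sum.inl none, α, rfl⟩
        · exact ⟨Sum.inl (some m), α, rfl⟩
        · exact ⟨Sum.inr k, x, rfl⟩
      obtain ⟨s, hs⟩ := this
      obtain ⟨n, rfl⟩ := he s
      exact mem_iUnion.2 ⟨n, hy, hs⟩
    · intro hy
      obtain ⟨n, hn⟩ := mem_iUnion.1 hy
      exact hn.1

instance : T1Space (Sp κ) := by
  refine ⟨fun z => ?_⟩
  rw [← isOpen_compl_iff, isOpen_def]
  intro d _
  rcases z with d' | ⟨x', k'⟩
  · refine ⟨∅, 0, fun x k _ _ h => ?_⟩
    cases h
  · refine ⟨∅, k' + 1, fun x k hk _ h => ?_⟩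
    have := Sp.b.inj h
    omega

open Classical in
/-- the indicator of a point -/
noncomputable def ind (d : κ × Option ℕ) : Fn κ :=
  ⟨fun d' => decide (d' = d), by
    refine (countable_singleton d.1).mono ?_
    intro α hα
    by_contra hne
    apply hα
    refine ⟨0, fun n _ => ?_⟩
    have h1 : ¬ ((α, some n) = d) := fun h => hne (by rw [← h]; rfl)
    have h2 : ¬ ((α, none) = d) := fun h => hne (by rw [← h]; rfl)
    simp [h1, h2]⟩

theorem cr : CompletelyRegularSpace (Sp κ) := by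
  classical
  have key : ∀ (y : Sp κ) (K : Set (Sp κ)), IsClosed K → y ∉ K →
      ∃ C : Set (Sp κ), IsClopen C ∧ y ∈ C ∧ Disjoint C K := by
    intro y K hK hy
    rcases y with d | ⟨x, k⟩
    · obtain ⟨F, m, hF⟩ := isOpen_def.1 hK.isOpen_compl d hy
      let C : Set (Sp κ) := {y | y = Sp.a d ∨ ∃ x k, y = Sp.b x k ∧ m ≤ k ∧
        (∀ g ∈ F, x g = g.1 d) ∧ x (ind d) = true}
      refine ⟨C, ⟨?_, ?_⟩, Or.inl rfl, ?_⟩
      · rw [← isOpen_compl_iff, isOpen_def]
        intro d' hd'
        have hne : d' ≠ d := fun h => hd' (Or.inl (by rw [h]))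
        refine ⟨{ind d}, 0, fun x k _ hx h => ?_⟩
        have h1 := hx _ (Finset.mem_singleton_self _)
        have h2 : (ind d).1 d' = false := by simp [ind, hne]
        rw [h2] at h1
        rcases h with h | ⟨x', k', h, _, _, h'⟩
        · cases h
        · have := Sp.b.inj h
          rw [this.1, h'] at h1
          cases h1
      · rw [isOpen_def]
        intro d' hd'
        have hdd : d' = d := by
          rcases hd' with h | ⟨x', k', h, _⟩
          · exact Sp.a.inj h
          · cases h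
        subst hdd
        refine ⟨insert (ind d') F, m, fun x k hk hx => Or.inr ⟨x, k, rfl, hk,
          fun g hg => hx g (Finset.mem_insert_of_mem hg), ?_⟩⟩
        rw [hx _ (Finset.mem_insert_self _ _)]
        simp [ind]
      · rw [disjoint_left]
        rintro y (rfl | ⟨x, k, rfl, hk, hx, _⟩) hyK
        · exact hy hyK
        · exact hF x k hk hx hyK
    · refine ⟨{Sp.b x k}, isClopen_of_subset_Lev (k := k) ?_, rfl, ?_⟩
      · rintro _ rfl; exact ⟨x, rfl⟩
      · rw [disjoint_left]; rintro _ rfl h; exact hy h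
  refine ⟨fun y K hK hy => ?_⟩
  obtain ⟨C, hC, hyC, hCK⟩ := key y K hK hy
  refine ⟨fun z => if z ∈ C then 0 else 1, ?_, ?_, ?_⟩
  · refine continuous_if ?_ continuous_const.continuousOn continuous_const.continuousOn
    intro x hx
    have h1 : frontier {x | x ∈ C} = ∅ := hC.frontier_eq
    rw [h1] at hx
    exact hx.elim
  · simp [hyC]
  · intro z hz
    have : z ∉ C := fun h => (disjoint_left.1 hCK) h hz
    simp [this]

theorem isClosed_of_subset_inl {S : Set (Sp κ)} (hS : ∀ y ∈ S, ∃ d, y = Sp.a d) :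
    IsClosed S := by
  rw [← isOpen_compl_iff, isOpen_def]
  intro d _
  refine ⟨∅, 0, fun x k _ _ h => ?_⟩
  obtain ⟨d', hd'⟩ := hS _ h
  cases hd'

theorem not_normal [Uncountable κ] : ¬ NormalSpace (Sp κ) := by
  classical
  intro hN
  let P : Set (Sp κ) := {y | ∃ α : κ, y = Sp.a (α, none)}
  let Q : Set (Sp κ) := {y | ∃ (α : κ) (n : ℕ), y = Sp.a (α, some n)}
  have hP : IsClosed P := isClosed_of_subset_inl (by rintro _ ⟨α, rfl⟩; exact ⟨_, rfl⟩)
  have hQ : IsClosed Q := isClosed_of_subset_inl (by rintro _ ⟨α, n, rfl⟩; exact ⟨_, rfl⟩)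
  have hPQ : Disjoint P Q := by
    rw [disjoint_left]
    rintro _ ⟨α, rfl⟩ ⟨β, n, h⟩
    have := Sp.a.inj h
    simp at this
  obtain ⟨U, V, hU, hV, hPU, hQV, hUV⟩ := normal_separation hP hQ hPQ
  choose F m hF using fun α => isOpen_def.1 hU (α, none) (hPU ⟨α, rfl⟩)
  choose F' m' hF' using fun α n => isOpen_def.1 hV (α, some n) (hQV ⟨α, n, rfl⟩)
  obtain ⟨J, R, -, hJ, hR, hJR⟩ := Pool.Agent.H151.delta_system F univ not_countable_univ
  -- constant patterns on the root
  obtain ⟨t, ht⟩ := Pool.Agent.H151.uncountable_fiber (fun α => fun g : R => g.1.1 (α, none)) J hJ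
  set A := {i ∈ J | (fun g : R => g.1.1 (i, none)) = t} with hA
  -- a column where all functions of the root converge
  have hex : (A \ ⋃ g ∈ R, {α | ¬ Conv κ g.1 α}).Nonempty := by
    by_contra hne
    rw [not_nonempty_iff_eq_empty, sdiff_eq_empty] at hne
    exact ht ((R.countable_toSet.biUnion fun g _ => g.2).mono hne)
  obtain ⟨β, hβA, hβ⟩ := hex
  have hconv : ∀ g ∈ R, Conv κ g.1 β := by
    intro g hg
    by_contra h
    exact hβ (mem_biUnion hg h)
  have hN : ∃ N, ∀ g ∈ R, g.1 (β, some N) = g.1 (β, none) := by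
    have h1 : ∀ g : Fn κ, ∃ N, g ∈ R → ∀ n ≥ N, g.1 (β, some n) = g.1 (β, none) := by
      intro g
      by_cases hg : g ∈ R
      · obtain ⟨N, hN⟩ := hconv g hg
        exact ⟨N, fun _ => hN⟩
      · exact ⟨0, fun h => (hg h).elim⟩
    choose N hN using h1
    exact ⟨R.sup N, fun g hg => hN g hg _ (Finset.le_sup hg)⟩
  obtain ⟨N, hN⟩ := hN
  -- another column
  have hfin : {α ∈ A | ∃ g ∈ F α, g ∈ F' β N ∧ g ∉ R}.Countable := by
    have h1 : {α ∈ A | ∃ g ∈ F α, g ∈ F' β N ∧ g ∉ R} ⊆
        ⋃ g ∈ F' β N, {α ∈ A | g ∈ F α ∧ g ∉ R} := by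
      rintro α ⟨hα, g, hg1, hg2, hg3⟩
      exact mem_biUnion hg2 ⟨hα, hg1, hg3⟩
    refine Countable.mono h1 ((F' β N).countable_toSet.biUnion fun g _ => ?_)
    refine Set.Subsingleton.countable ?_
    rintro a ⟨ha, ha1, ha2⟩ b ⟨hb, hb1, hb2⟩
    by_contra hab
    exact ha2 (hJR a ha.1 b hb.1 hab g ha1 hb1)
  obtain ⟨α, hαA, hα⟩ : (A \ {α ∈ A | ∃ g ∈ F α, g ∈ F' β N ∧ g ∉ R}).Nonempty := by
    by_contra hne
    rw [not_nonempty_iff_eq_empty, sdiff_eq_empty] at hne
    exact ht (hfin.mono hne)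
  let x : Fn κ → Bool := fun g => if g ∈ F α then g.1 (α, none) else g.1 (β, some N)
  have hx1 : ∀ g ∈ F α, x g = g.1 (α, none) := by
    intro g hg; simp only [x, hg, if_true]
  have hx2 : ∀ g ∈ F' β N, x g = g.1 (β, some N) := by
    intro g hg
    by_cases hgα : g ∈ F α
    · have hgR : g ∈ R := by
        by_contra hgR
        exact hα ⟨hαA, g, hgα, hg, hgR⟩
      rw [hx1 g hgα, hN g hgR]
      have h1 := congrFun hαA.2 ⟨g, hgR⟩
      have h2 := congrFun hβA.2 ⟨g, hgR⟩
      exact h1.trans h2.symm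
    · simp only [x, hgα, if_false]
  have h1 := hF α x (max (m α) (m' β N)) (le_max_left _ _) hx1
  have h2 := hF' β N x (max (m α) (m' β N)) (le_max_right _ _) hx2
  exact (disjoint_left.1 hUV) h1 h2

end Pool.Agent.X200.OneEmb
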