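import Mathlib

/-!
The structures `RG t` and their rigidity.
-/

set_option autoImplicit false

namespace Pool.Agent.X200.Gq

/-- the vertices of the model graph -/
inductive Role : Type
  | h : Role
  | q : Bool → Role
  | p : ℕ → Role
  deriving DecidableEq

open Role

/-- the vertices are numbered -/
def Role.equivNat : Role ≃ ℕ where
  toFun := fun r => match r with
    | h => 0
    | q false => 1
    | q true => 2
    | p i => i + 3
  invFun := fun n => match n with
    | 0 => h
    | 1 => q false
    | 2 => q true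
    | (i + 3) => p i
  left_inv := by
    rintro (_ | (_ | _) | i) <;> rfl
  right_inv := by
    rintro (_ | _ | _ | i) <;> rfl

/-- adjacency in the model graph -/
def RA (t : ℕ → Bool) : Role → Role → Prop
  | h, p i => i ≠ 0 ∧ (i % 2 = 0 ∨ t (i / 2) = true)
  | p i, h => i ≠ 0 ∧ (i % 2 = 0 ∨ t (i / 2) = true)
  | q b, q b' => b ≠ b'
  | q _, p i => i = 0
  | p i, q _ => i = 0
  | p i, p j => i + 1 = j ∨ j + 1 = i
  | _, _ => False

/-- the model graph -/
def RG (t : ℕ → Bool) : SimpleGraph Role where
  Adj := RA t
  symm := ⟨by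
    rintro (_ | b | i) (_ | b' | j) hh <;> simp only [RA] at hh ⊢ <;> first | exact hh | tauto⟩
  loopless := ⟨by
    rintro (_ | b | i) hh <;> simp only [RA] at hh
    · exact hh rfl
    · omega⟩

/-- the two triangle vertices other than the root of the path -/
def isQ : Role → Prop
  | q _ => True
  | _ => False

/-- a role with four neighbours is `h` -/
theorem eq_h_of_four {t : ℕ → Bool} {r a b c d : Role} (h1 : RA t r a) (h2 : RA t r b)
    (h3 : RA t r c) (h4 : RA t r d) (hab : a ≠ b) (hac : a ≠ c) (had : a ≠ d) (hbc : b ≠ c)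
    (hbd : b ≠ d) (hcd : c ≠ d) : r = h := by
  rcases r with _ | x | i
  · rfl
  · exfalso
    have key : ∀ y, RA t (q x) y → y = q (!x) ∨ y = p 0 := by
      rintro (_ | z | j) hy <;> simp only [RA] at hy
      · left; congr 1; cases x <;> cases z <;> simp_all
      · right; rw [hy]
    rcases key a h1 with rfl | rfl <;> rcases key b h2 with rfl | rfl <;>
      rcases key c h3 with rfl | rfl <;> simp_all
  · exfalso
    rcases i with _ | i
    · have key : ∀ y, RA t (p 0) y → y = q false ∨ y = q true ∨ y = p 1 := by
        rintro (_ | z | j) hy <;> simp only [RA] at hy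
        · exact absurd rfl hy.1
        · cases z <;> simp
        · right; right; congr 1; omega
      rcases key a h1 with rfl | rfl | rfl <;> rcases key b h2 with rfl | rfl | rfl <;>
        rcases key c h3 with rfl | rfl | rfl <;> rcases key d h4 with rfl | rfl | rfl <;> simp_all
    · have key : ∀ y, RA t (p (i + 1)) y → y = h ∨ y = p i ∨ y = p (i + 2) := by
        rintro (_ | z | j) hy <;> simp only [RA] at hy
        · simp
        · omega
        · rcases hy with hy | hy
          · right; right; congr 1; omega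
          · right; left; congr 1; omega
      rcases key a h1 with rfl | rfl | rfl <;> rcases key b h2 with rfl | rfl | rfl <;>
        rcases key c h3 with rfl | rfl | rfl <;> rcases key d h4 with rfl | rfl | rfl <;> simp_all

/-- three mutually adjacent roles other than `h` -/
theorem triangle {t : ℕ → Bool} {x y z : Role} (hx : x ≠ h) (hy : y ≠ h) (hz : z ≠ h)
    (h1 : RA t x y) (h2 : RA t y z) (h3 : RA t x z) :
    (x = p 0 ∧ isQ y ∧ isQ z) ∨ (y = p 0 ∧ isQ x ∧ isQ z) ∨ (z = p 0 ∧ isQ x ∧ isQ y) := by
  rcases x with _ | b | i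
  · exact absurd rfl hx
  · rcases y with _ | b' | j
    · exact absurd rfl hy
    · rcases z with _ | b'' | k
      · exact absurd rfl hz
      · simp only [RA] at h1 h2 h3
        cases b <;> cases b' <;> cases b'' <;> simp_all
      · simp only [RA] at h1 h2 h3
        subst h2
        simp [isQ]
    · rcases z with _ | b'' | k
      · exact absurd rfl hz
      · simp only [RA] at h1 h2 h3
        subst h1
        simp [isQ]
      · simp only [RA] at h1 h2 h3
        omega
  · rcases y with _ | b' | j
    · exact absurd rfl hy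
    · rcases z with _ | b'' | k
      · exact absurd rfl hz
      · simp only [RA] at h1 h2 h3
        subst h1
        simp [isQ]
      · simp only [RA] at h1 h2 h3
        omega
    · rcases z with _ | b'' | k
      · exact absurd rfl hz
      · simp only [RA] at h1 h2 h3
        omega
      · simp only [RA] at h1 h2 h3
        omega

/-- the three mutually adjacent roles exhaust -/
theorem exhaust {t : ℕ → Bool} {x y z w : Role} (hx : x ≠ h) (hy : y ≠ h) (hz : z ≠ h)
    (h1 : RA t x y) (h2 : RA t y z) (h3 : RA t x z) (hw : isQ w ∨ w = p 0) :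
    w = x ∨ w = y ∨ w = z := by
  rcases triangle hx hy hz h1 h2 h3 with ⟨rfl, h4, h5⟩ | ⟨rfl, h4, h5⟩ | ⟨rfl, h4, h5⟩
  · rcases y with _ | b | i <;> simp only [isQ] at h4
    rcases z with _ | b' | i <;> simp only [isQ] at h5
    rcases w with _ | c | i <;> simp only [isQ, RA, reduceCtorEq, or_false, false_or] at hw h2 ⊢
    · cases b <;> cases b' <;> cases c <;> simp_all
    · exact hw
  · rcases x with _ | b | i <;> simp only [isQ] at h4
    rcases z with _ | b' | i <;> simp only [isQ] at h5
    rcases w with _ | c | i <;> simp only [isQ, RA, reduceCtorEq, or_false, false_or] at hw h3 ⊢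
    · cases b <;> cases b' <;> cases c <;> simp_all
    · exact hw
  · rcases x with _ | b | i <;> simp only [isQ] at h4
    rcases y with _ | b' | i <;> simp only [isQ] at h5
    rcases w with _ | c | i <;> simp only [isQ, RA, reduceCtorEq, or_false, false_or] at hw h1 ⊢
    · cases b <;> cases b' <;> cases c <;> simp_all
    · exact hw

/-- positive information up to level `N` pins the roles -/
theorem pin {t : ℕ → Bool} {ρ : Role → Role} (hρ : Function.Injective ρ) (hh : ρ h = h)
    (h01 : RA t (ρ (q false)) (ρ (q true))) (h02 : RA t (ρ (q false)) (ρ (p 0)))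
    (h12 : RA t (ρ (q true)) (ρ (p 0))) {N : ℕ} (hN : 1 ≤ N)
    (hp : ∀ j < N, RA t (ρ (p j)) (ρ (p (j + 1)))) :
    (∀ j ≤ N, ρ (p j) = p j) ∧ ∀ b, isQ (ρ (q b)) := by
  have hne : ∀ r, r ≠ h → ρ r ≠ h := fun r hr h' => hr (hρ (h'.trans hh.symm))
  have hq0 := hne (q false) (by simp)
  have hq1 := hne (q true) (by simp)
  have hp' : ∀ i, ρ (p i) ≠ h := fun i => hne _ (by simp)
  have hex := fun w => exhaust (w := w) hq0 hq1 (hp' 0) h01 h12 h02
  -- the image of `p 1`
  have h1a : ρ (p 1) ≠ ρ (q false) := fun h' => by simpa using hρ h'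
  have h1b : ρ (p 1) ≠ ρ (q true) := fun h' => by simpa using hρ h'
  have h1c : ρ (p 1) ≠ ρ (p 0) := fun h' => by simpa using hρ h'
  have h2 : ¬ (isQ (ρ (p 1)) ∨ ρ (p 1) = p 0) := by
    intro h'
    rcases hex _ h' with h' | h' | h'
    · exact h1a h'
    · exact h1b h'
    · exact h1c h'
  have h3 := hp 0 (by omega)
  have h4 : ρ (p 0) = p 0 ∧ ρ (p 1) = p 1 := by
    rcases hr : ρ (p 1) with _ | b | i
    · exact absurd hr (hp' 1)
    · rw [hr] at h2
      simp [isQ] at h2
    · rw [zero_add, hr] at h3
      rw [hr] at h2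
      have hi : i ≠ 0 := by
        rintro rfl
        simp at h2
      rcases triangle hq0 hq1 (hp' 0) h01 h12 h02 with ⟨h5, h6, h7⟩ | ⟨h5, h6, h7⟩ | ⟨h5, h6, h7⟩
      · rcases hs : ρ (p 0) with _ | b | j
        · exact absurd hs (hp' 0)
        · rw [hs] at h3
          exact absurd h3 hi
        · rw [hs] at h7
          simp [isQ] at h7
      · rcases hs : ρ (p 0) with _ | b | j
        · exact absurd hs (hp' 0)
        · rw [hs] at h3
          exact absurd h3 hi
        · rw [hs] at h7
          simp [isQ] at h7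
      · rw [h5] at h3
        simp only [RA] at h3
        refine ⟨h5, ?_⟩
        congr 1
        omega
  refine ⟨?_, ?_⟩
  · have key : ∀ j, j + 1 ≤ N → ρ (p j) = p j ∧ ρ (p (j + 1)) = p (j + 1) := by
      intro j
      induction j with
      | zero => exact fun _ => h4
      | succ j ih =>
        intro hj
        obtain ⟨h5, h6⟩ := ih (by omega)
        refine ⟨h6, ?_⟩
        have h7 := hp (j + 1) (by omega)
        rw [h6] at h7
        rcases hr : ρ (p (j + 1 + 1)) with _ | b | i
        · exact absurd hr (hp' _)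
        · rw [hr] at h7
          simp only [RA] at h7
          omega
        · rw [hr] at h7
          simp only [RA] at h7
          have h8 : i ≠ j := by
            rintro rfl
            have := hρ (hr.trans h5.symm)
            simp only [p.injEq] at this
            omega
          congr 1
          omega
    intro j hj
    rcases j with _ | j
    · exact h4.1
    · exact (key j hj).2
  · intro b
    rcases triangle hq0 hq1 (hp' 0) h01 h12 h02 with ⟨h5, h6, h7⟩ | ⟨h5, h6, h7⟩ | ⟨h5, h6, h7⟩
    · exact absurd (hρ (h5.trans h4.1.symm)) (by simp)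
    · exact absurd (hρ (h5.trans h4.1.symm)) (by simp)
    · cases b
      · exact h6
      · exact h7

/-- a pair of roles whose adjacency depends on `t` -/
def Flex (a b : Role) : Prop := ∃ m, (a = h ∧ b = p (2 * m + 1)) ∨ (b = h ∧ a = p (2 * m + 1))

/-- same role up to a swap of the two triangle vertices -/
def Same (a b : Role) : Prop := a = b ∨ (isQ a ∧ isQ b)

theorem isQ.ne_h {a : Role} (ha : isQ a) : a ≠ h := by
  rintro rfl; exact ha

theorem isQ.ne_p {a : Role} (ha : isQ a) (i : ℕ) : a ≠ p i := by
  rintro rfl; exact ha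

/-- adjacency of non-flexible pairs depends only on the roles up to the swap -/
theorem RA_same {t t' : ℕ → Bool} {a b a' b' : Role} (ha : Same a a') (hb : Same b b')
    (hab : a ≠ b) (hab' : a' ≠ b') (hf : ¬ Flex a b) : RA t a b ↔ RA t' a' b' := by
  rcases ha with rfl | ⟨ha, ha'⟩
  · rcases hb with rfl | ⟨hb, hb'⟩
    · rcases a with _ | x | i <;> rcases b with _ | y | j <;> simp only [RA]
      · by_cases hj : j % 2 = 0
        · simp [hj]
        · exact absurd ⟨j / 2, Or.inl ⟨rfl, by congr 1; omega⟩⟩ hf
      · by_cases hj : i % 2 = 0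
        · simp [hj]
        · exact absurd ⟨i / 2, Or.inr ⟨rfl, by congr 1; omega⟩⟩ hf
    · rcases b with _ | y | j <;> simp only [isQ] at hb
      rcases b' with _ | y' | j' <;> simp only [isQ] at hb'
      rcases a with _ | x | i <;> simp only [RA]
      have h1 : x ≠ y := fun h => hab (by rw [h])
      have h2 : x ≠ y' := fun h => hab' (by rw [h])
      simp [h1, h2]
  · rcases a with _ | y | j <;> simp only [isQ] at ha
    rcases a' with _ | y' | j' <;> simp only [isQ] at ha'
    rcases hb with rfl | ⟨hb, hb'⟩
    · rcases b with _ | x | i <;> simp only [RA]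
      have h1 : y ≠ x := fun h => hab (by rw [h])
      have h2 : y' ≠ x := fun h => hab' (by rw [h])
      simp [h1, h2]
    · rcases b with _ | x | j <;> simp only [isQ] at hb
      rcases b' with _ | x' | j' <;> simp only [isQ] at hb'
      simp only [RA]
      have h1 : y ≠ x := fun h => hab (by rw [h])
      have h2 : y' ≠ x' := fun h => hab' (by rw [h])
      simp [h1, h2]

/-- the adjacencies used to pin the roles up to level `N` -/
structure Pos (N : ℕ) (t : ℕ → Bool) (ρ : Role → Role) : Prop where
  inj : Function.Injective ρ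
  h01 : RA t (ρ (q false)) (ρ (q true))
  h02 : RA t (ρ (q false)) (ρ (p 0))
  h12 : RA t (ρ (q true)) (ρ (p 0))
  pp : ∀ j < N, RA t (ρ (p j)) (ρ (p (j + 1)))

/-- if one model embeds spanningly into another then the roles agree -/
theorem rigid {t t' : ℕ → Bool} (ρ : Role ≃ Role) (hle : ∀ a b, RA t a b → RA t' (ρ a) (ρ b)) :
    ∀ a, Same a (ρ a) := by
  have h1 : ρ h = h := by
    have k : ∀ i, RA t h (p (2 * (i + 1))) := fun i => ⟨by omega, Or.inl (by omega)⟩
    refine eq_h_of_four (hle _ _ (k 0)) (hle _ _ (k 1)) (hle _ _ (k 2)) (hle _ _ (k 3))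
      ?_ ?_ ?_ ?_ ?_ ?_ <;> simp
  have h2 := fun N (hN : 1 ≤ N) => pin (N := N) ρ.injective h1 (hle _ _ (by simp [RA]))
    (hle _ _ (by simp [RA])) (hle _ _ (by simp [RA])) hN (fun j _ => hle _ _ (by simp [RA]))
  rintro (_ | b | i)
  · exact Or.inl h1.symm
  · exact Or.inr ⟨trivial, (h2 1 le_rfl).2 b⟩
  · exact Or.inl ((h2 (i + 1) (by omega)).1 i (by omega)).symm

/-- the adjacencies of a model are determined up to the flexible pairs -/
theorem same_symm {a b : Role} (hs : Same a b) : Same b a := by
  rcases hs with rfl | ⟨h1, h2⟩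
  · exact Or.inl rfl
  · exact Or.inr ⟨h2, h1⟩

theorem flex_same {a b a' b' : Role} (ha : Same a a') (hb : Same b b') (hf : Flex a' b') :
    Flex a b := by
  obtain ⟨m, ⟨rfl, rfl⟩ | ⟨rfl, rfl⟩⟩ := hf
  · refine ⟨m, Or.inl ⟨?_, ?_⟩⟩
    · rcases ha with rfl | ⟨-, h2⟩
      · rfl
      · exact absurd h2 (by simp [isQ])
    · rcases hb with rfl | ⟨-, h2⟩
      · rfl
      · exact absurd h2 (by simp [isQ])
  · refine ⟨m, Or.inr ⟨?_, ?_⟩⟩
    · rcases hb with rfl | ⟨-, h2⟩
      · rfl
      · exact absurd h2 (by simp [isQ])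
    · rcases ha with rfl | ⟨-, h2⟩
      · rfl
      · exact absurd h2 (by simp [isQ])

end Pool.Agent.X200.Gq
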