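import Mathlib
import Pool.Agent.X200.GqRole

/-!
The game and the chain lemma.
-/

set_option autoImplicit false

namespace Pool.Agent.X200.Gq

/-- an edge of the complete graph on the natural numbers -/
abbrev Pair : Type := {e : Sym2 ℕ // ¬ e.IsDiag}

/-- a finite position: the edges queried so far with their colours, latest first -/
abbrev Position : Type := List (Pair × Bool)

/-- the position after `n` turns of the run in which edge `e n` is queried and coloured `c n` -/
def position (e : ℕ → Pair) (c : ℕ → Bool) : ℕ → Position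
  | 0 => []
  | n + 1 => (e n, c n) :: position e c n

/-- the edge `w` is still white at the position `p` -/
def White (p : Position) (w : Pair) : Prop := ∀ b : Bool, (w, b) ∉ p

/-- the green edges at the end of the run -/
def greens (e : ℕ → Pair) (c : ℕ → Bool) : Set Pair := {x | ∃ n, e n = x ∧ c n = true}

/-- the white edges at the end of the run -/
def whites (e : ℕ → Pair) : Set Pair := {x | ∀ n, e n ≠ x}

/-- the graphs lying between the green edges and the green or white edges -/
def possible (e : ℕ → Pair) (c : ℕ → Bool) : Set (SimpleGraph ℕ) :=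
  {H | ∀ x : Pair, (x ∈ greens e c → x.1 ∈ H.edgeSet) ∧
    (x.1 ∈ H.edgeSet → x ∈ greens e c ∨ x ∈ whites e)}

/-- Seeker wins the run -/
def SeekerWins (S : Set (SimpleGraph ℕ)) (e : ℕ → Pair) (c : ℕ → Bool) : Prop :=
  (whites e).Nonempty ∧ (possible e c ⊆ S ∨ possible e c ∩ S = ∅)

/-- Hider's strategy `τ` is winning -/
def HWin (S : Set (SimpleGraph ℕ)) (τ : Position → Pair → Bool) : Prop :=
  ∀ (e : ℕ → Pair) (c : ℕ → Bool), (∀ n, White (position e c n) (e n)) →
    (∀ n, c n = τ (position e c n) (e n)) → ¬ SeekerWins S e c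

/-- agreement of a graph with a position -/
def Ag (G : SimpleGraph ℕ) (l : Position) : Prop := ∀ x ∈ l, (x.1.1 ∈ G.edgeSet ↔ x.2 = true)

/-- the position reached when the edges of the list (latest first) are queried against `τ` -/
def pos (τ : Position → Pair → Bool) : List Pair → Position
  | [] => []
  | e :: l => (e, τ (pos τ l) e) :: pos τ l

/-- the list of the first `k` terms, latest first -/
def lst {α : Type} (e : ℕ → α) : ℕ → List α
  | 0 => []
  | k + 1 => e k :: lst e k

theorem mem_lst {α : Type} {e : ℕ → α} {k : ℕ} {x : α} : x ∈ lst e k ↔ ∃ j < k, e j = x := by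
  induction k with
  | zero => simp [lst]
  | succ k ih =>
    simp only [lst, List.mem_cons, ih]
    constructor
    · rintro (rfl | ⟨j, hj, rfl⟩)
      · exact ⟨k, by omega, rfl⟩
      · exact ⟨j, by omega, rfl⟩
    · rintro ⟨j, hj, rfl⟩
      rcases Nat.lt_succ_iff_lt_or_eq.1 hj with h | rfl
      · exact Or.inr ⟨j, h, rfl⟩
      · exact Or.inl rfl

theorem lst_suffix {α : Type} (e : ℕ → α) {j k : ℕ} (h : j ≤ k) : lst e j <:+ lst e k := by
  induction k with
  | zero =>
    obtain rfl : j = 0 := by omega
    exact List.suffix_refl _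
  | succ k ih =>
    rcases Nat.le_succ_iff.1 h with h | rfl
    · exact (ih h).trans (List.suffix_cons _ _)
    · exact List.suffix_refl _

theorem suffix_mono {α : Type} {L : ℕ → List α} (h1 : ∀ n, L n <:+ L (n + 1)) {m n : ℕ}
    (h : m ≤ n) : L m <:+ L n := by
  induction n with
  | zero =>
    obtain rfl : m = 0 := by omega
    exact List.suffix_refl _
  | succ k ih =>
    rcases Nat.le_succ_iff.1 h with h | rfl
    · exact (ih h).trans (h1 k)
    · exact List.suffix_refl _

theorem eq_lst {α : Type} (e : ℕ → α) : ∀ l : List α,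
    (∀ k < l.length, l.reverse[k]? = some (e k)) → l = lst e l.length
  | [], _ => rfl
  | a :: l, h => by
    have h1 := eq_lst e l fun k hk => by
      have h2 := h k (by simp only [List.length_cons]; omega)
      rw [List.reverse_cons, List.getElem?_append_left (by simpa using hk)] at h2
      exact h2
    have h3 := h l.length (by simp)
    rw [List.reverse_cons, List.getElem?_append_right (by simp)] at h3
    simp only [List.length_reverse, Nat.sub_self, List.getElem?_cons_zero,
      Option.some.injEq] at h3
    simp only [List.length_cons, lst, ← h3, ← h1]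

theorem glue {α : Type} (L : ℕ → List α) (h1 : ∀ n, L n <:+ L (n + 1))
    (h2 : ∀ k, ∃ n, k ≤ (L n).length) : ∃ e : ℕ → α, ∀ n, L n = lst e (L n).length := by
  have h3 : ∀ k : ℕ, ∃ x : α, ∃ n : ℕ, (L n).reverse[k]? = some x := by
    intro k
    obtain ⟨n, hn⟩ := h2 (k + 1)
    exact ⟨_, n, List.getElem?_eq_getElem (by rw [List.length_reverse]; omega)⟩
  choose e N he using h3
  refine ⟨e, fun n => eq_lst e _ fun k hk => ?_⟩
  have h4 : ∀ {a b : ℕ} {x : α}, a ≤ b → (L a).reverse[k]? = some x →
      (L b).reverse[k]? = some x := by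
    intro a b x hab hx
    obtain ⟨s, hs⟩ := suffix_mono h1 hab
    rw [← hs, List.reverse_append, List.getElem?_append_left]
    · exact hx
    · exact (List.getElem?_eq_some_iff.1 hx).1
  rcases le_total (N k) n with h | h
  · exact h4 h (he k)
  · have h5 : (L n).reverse[k]? = some ((L n).reverse[k]'(by rw [List.length_reverse]; exact hk)) :=
      List.getElem?_eq_getElem _
    have h6 := h4 h h5
    rw [he k] at h6
    rw [h5, h6]

section

variable {τ : Position → Pair → Bool}

theorem of_mem_pos {l : List Pair} {x : Pair × Bool} (h : x ∈ pos τ l) : x.1 ∈ l := by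
  induction l with
  | nil => simp [pos] at h
  | cons a l ih =>
    simp only [pos, List.mem_cons] at h ⊢
    rcases h with rfl | h
    · exact Or.inl rfl
    · exact Or.inr (ih h)

theorem exists_mem_pos {l : List Pair} {w : Pair} (h : w ∈ l) : ∃ b, (w, b) ∈ pos τ l := by
  induction l with
  | nil => simp at h
  | cons a l ih =>
    simp only [pos, List.mem_cons] at h ⊢
    rcases h with rfl | h
    · exact ⟨_, Or.inl rfl⟩
    · obtain ⟨b, hb⟩ := ih h
      exact ⟨b, Or.inr hb⟩

theorem pos_suffix {l l' : List Pair} (h : l <:+ l') : pos τ l <:+ pos τ l' := by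
  obtain ⟨s, rfl⟩ := h
  induction s with
  | nil => exact List.suffix_refl _
  | cons a s ih => exact ih.trans (List.suffix_cons _ _)

theorem Ag.mono {G : SimpleGraph ℕ} {l l' : Position} (h : Ag G l') (hl : l <:+ l') : Ag G l :=
  fun x hx => h x (hl.subset hx)

theorem position_eq (e : ℕ → Pair) (c : ℕ → Bool) (hc : ∀ k, c k = τ (pos τ (lst e k)) (e k)) :
    ∀ k, position e c k = pos τ (lst e k) := by
  intro k
  induction k with
  | zero => rfl
  | succ k ih => simp only [position, lst, pos, ih, hc k]

/-- the chain lemma -/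
theorem chain {S : Set (SimpleGraph ℕ)} (hw : HWin S τ) (L : ℕ → List Pair)
    (h1 : ∀ n, L n <:+ L (n + 1)) (h2 : ∀ k, ∃ n, k ≤ (L n).length) (h3 : ∀ n, (L n).Nodup)
    (w : Pair) (h4 : ∀ n, w ∉ L n) :
    ∃ G ∈ S, ∃ G', G' ∉ S ∧ ∀ n, Ag G (pos τ (L n)) ∧ Ag G' (pos τ (L n)) := by
  obtain ⟨e, he⟩ := glue L h1 h2
  have h5 : ∀ k, ∃ n, lst e k <:+ L n := by
    intro k
    obtain ⟨n, hn⟩ := h2 k
    refine ⟨n, ?_⟩
    rw [he n]
    exact lst_suffix e hn
  have h6 : ∀ k, (lst e k).Nodup := by
    intro k
    obtain ⟨n, hn⟩ := h5 k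
    exact (h3 n).sublist hn.sublist
  have hinj : ∀ {i j : ℕ}, i < j → e i ≠ e j := by
    intro i j hij heq
    have h7 := h6 (j + 1)
    simp only [lst, List.nodup_cons] at h7
    exact h7.1 (mem_lst.2 ⟨i, hij, heq⟩)
  have hinj' : ∀ {i j : ℕ}, e i = e j → i = j := by
    intro i j hij
    rcases lt_trichotomy i j with h | h | h
    · exact absurd hij (hinj h)
    · exact h
    · exact absurd hij.symm (hinj h)
  let c : ℕ → Bool := fun k => τ (pos τ (lst e k)) (e k)
  have hpos := position_eq e c (fun k => rfl)
  have h7 := hw e c (fun n b hb => by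
    rw [hpos] at hb
    have h8 := mem_lst.1 (of_mem_pos hb)
    obtain ⟨j, hj, hj'⟩ := h8
    exact hinj hj hj') (fun n => by rw [hpos])
  have h8 : w ∈ whites e := by
    intro n hn
    obtain ⟨m, hm⟩ := h5 (n + 1)
    exact h4 m (hm.subset (mem_lst.2 ⟨n, by omega, hn⟩))
  have hag : ∀ G ∈ possible e c, ∀ n, Ag G (pos τ (L n)) := by
    intro G hG n
    rw [he n, ← hpos]
    generalize (L n).length = m
    induction m with
    | zero => intro x hx; simp [position] at hx
    | succ m ih =>
      intro x hx
      simp only [position, List.mem_cons] at hx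
      rcases hx with rfl | hx
      · constructor
        · intro hx
          rcases (hG _).2 hx with ⟨k, hk1, hk2⟩ | h
          · obtain rfl := hinj' hk1
            exact hk2
          · exact absurd rfl (h m)
        · intro hx
          exact (hG _).1 ⟨m, rfl, hx⟩
      · exact ih x hx
  have h9 : ¬ possible e c ⊆ S := fun h => h7 ⟨⟨w, h8⟩, Or.inl h⟩
  have h10 : (possible e c ∩ S).Nonempty := by
    rw [Set.nonempty_iff_ne_empty]
    exact fun h => h7 ⟨⟨w, h8⟩, Or.inr h⟩
  obtain ⟨G, hG1, hG2⟩ := h10
  obtain ⟨G', hG3, hG4⟩ := Set.not_subset.1 h9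
  exact ⟨G, hG2, G', hG4, fun n => ⟨hag G hG1 n, hag G' hG3 n⟩⟩

end

end Pool.Agent.X200.Gq
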