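import Mathlib
import Pool.Agent.X200.GqGame

/-!
From a winning strategy of Hider in the graph game to one in the index game.
-/

set_option autoImplicit false

namespace Pool.Agent.X200.Gq

open Role

/-- the pair of two vertices -/
def pr (a b : ℕ) : Pair := if h : a = b then ⟨s(a, a + 1), by simp⟩ else ⟨s(a, b), by simpa using h⟩

theorem pr_val {a b : ℕ} (h : a ≠ b) : (pr a b).1 = s(a, b) := by
  simp [pr, h]

theorem pr_comm {a b : ℕ} (h : a ≠ b) : pr a b = pr b a := by
  apply Subtype.ext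
  rw [pr_val h, pr_val h.symm, Sym2.eq_swap]

theorem pr_inj {u a b : ℕ} (ha : u ≠ a) (hb : u ≠ b) (h : pr u a = pr u b) : a = b := by
  have h1 := congrArg Subtype.val h
  rw [pr_val ha, pr_val hb] at h1
  have h2 : a = b ∨ u = b ∧ a = u := by simpa using h1
  rcases h2 with h2 | h2
  · exact h2
  · exact absurd h2.1 hb

theorem exists_pr (e : Pair) : ∃ a b, a ≠ b ∧ e = pr a b := by
  obtain ⟨e, he⟩ := e
  induction e with
  | h a b =>
    have h : a ≠ b := by simpa using he
    exact ⟨a, b, h, Subtype.ext (pr_val h).symm⟩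

/-- a model on the natural numbers -/
def Md (t : ℕ → Bool) (π : ℕ ≃ Role) : SimpleGraph ℕ := (RG t).comap π

theorem Md_adj {t : ℕ → Bool} {π : ℕ ≃ Role} {a b : ℕ} :
    (Md t π).Adj a b ↔ RA t (π a) (π b) := Iff.rfl

/-- the property given by a set of sequences -/
def ST (T : Set (ℕ → Bool)) : Set (SimpleGraph ℕ) :=
  {G | ∃ t ∈ T, ∃ π : ℕ ≃ Role, G = Md t π}

/-- every model agreeing with the position gives the vertex a role with the property -/
def Sure (l : Position) (P : Role → Prop) (x : ℕ) : Prop :=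
  ∀ (t : ℕ → Bool) (π : ℕ ≃ Role), Ag (Md t π) l → P (π x)

theorem Sure.mono {l l' : Position} {P : Role → Prop} {x : ℕ} (h : Sure l P x) (hl : l <:+ l') :
    Sure l' P x := fun t π ha => h t π (ha.mono hl)

theorem Ag.adj {G : SimpleGraph ℕ} {l : Position} (h : Ag G l) {a b : ℕ} (hab : a ≠ b) {c : Bool}
    (hm : (pr a b, c) ∈ l) : G.Adj a b ↔ c = true := by
  have := h _ hm
  rwa [pr_val hab, SimpleGraph.mem_edgeSet] at this

section

variable {τ : Position → Pair → Bool} {T : Set (ℕ → Bool)}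

theorem transfer {G G' : SimpleGraph ℕ} {l : List Pair} (h : Ag G (pos τ l))
    (h' : Ag G' (pos τ l)) {a b : ℕ} (hab : a ≠ b) (hm : pr a b ∈ l) :
    G.Adj a b ↔ G'.Adj a b := by
  obtain ⟨c, hc⟩ := exists_mem_pos (τ := τ) hm
  rw [h.adj hab hc, h'.adj hab hc]

theorem infinite_pairs (u : ℕ) : {e : Pair | u ∉ e.1}.Infinite := by
  refine Set.infinite_of_injective_forall_mem (f := fun n : ℕ => pr (u + 1) (u + 2 + n)) ?_ ?_
  · intro m n h
    have := pr_inj (by omega) (by omega) h
    omega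
  · intro n
    simp only [Set.mem_ofPred_eq]
    rw [pr_val (by omega), Sym2.mem_iff]
    omega

theorem exists_fresh (u : ℕ) (l : List Pair) : ∃ w : Pair, u ∈ w.1 ∧ w ∉ l := by
  have h1 : (Set.range fun n : ℕ => pr u (u + 1 + n)).Infinite := by
    refine Set.infinite_range_of_injective ?_
    intro m n h
    have := pr_inj (by omega) (by omega) h
    omega
  obtain ⟨w, ⟨n, rfl⟩, hw⟩ := h1.exists_notMem_finite (List.finite_toSet l)
  refine ⟨_, ?_, hw⟩
  show u ∈ (pr u (u + 1 + n)).1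
  rw [pr_val (by omega), Sym2.mem_iff]
  exact Or.inl rfl

theorem pair_enum : ∃ en : ℕ → Pair, Function.Surjective en := by
  have : Nonempty Pair := ⟨pr 0 1⟩
  exact exists_surjective_nat Pair

/-- exploration of a set of pairs -/
theorem explore (hw : HWin (ST T) τ) {l : List Pair} (hl : l.Nodup) {A : Set Pair}
    (hA : A.Infinite) {w : Pair} (hwA : w ∉ A) (hwl : w ∉ l) :
    ∃ t ∈ T, ∃ π : ℕ ≃ Role, ∀ F : Finset Pair, (∀ e ∈ F, e ∈ A) →
      ∃ l', l <:+ l' ∧ l'.Nodup ∧ (∀ e ∈ l', e ∈ l ∨ e ∈ A) ∧ (∀ e ∈ F, e ∈ l') ∧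
        Ag (Md t π) (pos τ l') := by
  classical
  obtain ⟨en, hen⟩ := pair_enum
  let nx : ℕ → List Pair → List Pair := fun n r => if en n ∈ A ∧ en n ∉ r then en n :: r else r
  let L : ℕ → List Pair := fun n => Nat.rec (motive := fun _ => List Pair) l nx n
  have hL : ∀ n : ℕ, L (n + 1) = nx n (L n) := fun n => rfl
  have h1 : ∀ n, L n <:+ L (n + 1) := by
    intro n
    rw [hL]
    simp only [nx]
    split_ifs
    · exact List.suffix_cons _ _
    · exact List.suffix_refl _
  have h3 : ∀ n, (L n).Nodup := by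
    intro n
    induction n with
    | zero => exact hl
    | succ n ih =>
      rw [hL]
      simp only [nx]
      split_ifs with h
      · exact List.nodup_cons.2 ⟨h.2, ih⟩
      · exact ih
  have h5 : ∀ n, ∀ e ∈ L n, e ∈ l ∨ e ∈ A := by
    intro n
    induction n with
    | zero => exact fun e he => Or.inl he
    | succ n ih =>
      intro e he
      rw [hL] at he
      simp only [nx] at he
      split_ifs at he with h
      · rcases List.mem_cons.1 he with rfl | he
        · exact Or.inr h.1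
        · exact ih e he
      · exact ih e he
  have h6 : ∀ e ∈ A, ∃ n, e ∈ L n := by
    intro e he
    obtain ⟨n, rfl⟩ := hen e
    refine ⟨n + 1, ?_⟩
    rw [hL]
    simp only [nx]
    split_ifs with h
    · exact List.mem_cons_self
    · by_contra hcon
      exact h ⟨he, hcon⟩
  have h7 : ∀ F : Finset Pair, (∀ e ∈ F, e ∈ A) → ∃ n, ∀ e ∈ F, e ∈ L n := by
    intro F
    induction F using Finset.induction_on with
    | empty => exact fun _ => ⟨0, by simp⟩
    | insert a s ha ih =>
      intro hF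
      obtain ⟨n, hn⟩ := ih fun e he => hF e (Finset.mem_insert_of_mem he)
      obtain ⟨m, hm⟩ := h6 a (hF a (Finset.mem_insert_self _ _))
      refine ⟨max n m, fun e he => ?_⟩
      rcases Finset.mem_insert.1 he with rfl | he
      · exact (suffix_mono h1 (le_max_right n m)).subset hm
      · exact (suffix_mono h1 (le_max_left n m)).subset (hn e he)
  have h2 : ∀ k, ∃ n, k ≤ (L n).length := by
    intro k
    obtain ⟨F, hF1, hF2⟩ := hA.exists_subset_card_eq k
    obtain ⟨n, hn⟩ := h7 F fun e he => hF1 he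
    refine ⟨n, ?_⟩
    rw [← hF2]
    refine le_trans (Finset.card_le_card (t := (L n).toFinset) fun e he => ?_)
      (List.toFinset_card_le _)
    exact List.mem_toFinset.2 (hn e he)
  obtain ⟨G, ⟨t, ht, π, rfl⟩, G', hG', h8⟩ := chain hw L h1 h2 h3 w fun n hn => by
    rcases h5 n w hn with h | h
    · exact hwl h
    · exact hwA h
  refine ⟨t, ht, π, fun F hF => ?_⟩
  obtain ⟨n, hn⟩ := h7 F hF
  exact ⟨L n, suffix_mono h1 (Nat.zero_le n), h3 n, h5 n, hn, (h8 n).1⟩

/-- every position without repetition agrees with a model in the property -/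
theorem nonvac (hw : HWin (ST T) τ) {l : List Pair} (hl : l.Nodup) :
    ∃ t ∈ T, ∃ π : ℕ ≃ Role, Ag (Md t π) (pos τ l) := by
  obtain ⟨w, hw1, hw2⟩ := exists_fresh 0 l
  obtain ⟨t, ht, π, h⟩ := explore hw hl (infinite_pairs 0) (w := w) (fun h => h hw1) hw2
  obtain ⟨l', h1, -, -, -, h2⟩ := h ∅ (by simp)
  exact ⟨t, ht, π, h2.mono (pos_suffix h1)⟩

/-- the hub is found -/
theorem find_hub (hw : HWin (ST T) τ) :
    ∃ (l : List Pair) (u : ℕ), l.Nodup ∧ Sure (pos τ l) (fun r => r = h) u := by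
  classical
  let w : Pair := pr 0 1
  have hA : {e : Pair | e ≠ w}.Infinite := by
    refine (infinite_pairs 0).mono ?_
    rintro e he rfl
    apply he
    show 0 ∈ (pr 0 1).1
    rw [pr_val (by omega), Sym2.mem_iff]
    exact Or.inl rfl
  obtain ⟨t, ht, π, hF⟩ := explore hw (l := []) List.nodup_nil hA (w := w) (fun h => h rfl)
    (by simp)
  let u := π.symm h
  let x : ℕ → ℕ := fun i => π.symm (p (2 * (i + 1)))
  have hux : ∀ i, u ≠ x i := fun i h' => by simpa using π.symm.injective h'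
  have hxx : ∀ {i j}, x i = x j → i = j := fun {i j} h' => by
    have := π.symm.injective h'
    simp only [p.injEq] at this
    omega
  obtain ⟨i0, hi0⟩ : ∃ i0, ∀ i ≥ i0, pr u (x i) ≠ w := by
    by_cases hex : ∃ j, pr u (x j) = w
    · obtain ⟨j, hj⟩ := hex
      refine ⟨j + 1, fun i hi h' => ?_⟩
      have := hxx (pr_inj (hux i) (hux j) (h'.trans hj.symm))
      omega
    · push Not at hex
      exact ⟨0, fun i _ => hex i⟩
  obtain ⟨l', -, h1, -, h2, h3⟩ := hF ((Finset.range 4).image fun i => pr u (x (i0 + i))) (by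
    intro e he
    obtain ⟨i, -, rfl⟩ := Finset.mem_image.1 he
    exact hi0 _ (by omega))
  refine ⟨l', u, h1, fun t' π' ha => ?_⟩
  have h4 : ∀ i < 4, RA t' (π' u) (π' (x (i0 + i))) := by
    intro i hi
    have h5 : pr u (x (i0 + i)) ∈ l' :=
      h2 _ (Finset.mem_image.2 ⟨i, Finset.mem_range.2 hi, rfl⟩)
    have h6 := (transfer h3 ha (hux _) h5).1 (by
      rw [Md_adj]
      simp only [u, x, Equiv.apply_symm_apply, RA]
      omega)
    exact h6
  have h5 : ∀ i j, i ≠ j → π' (x (i0 + i)) ≠ π' (x (i0 + j)) := by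
    intro i j hij h'
    have := hxx (π'.injective h')
    omega
  exact eq_h_of_four (h4 0 (by omega)) (h4 1 (by omega)) (h4 2 (by omega)) (h4 3 (by omega))
    (h5 0 1 (by omega)) (h5 0 2 (by omega)) (h5 0 3 (by omega)) (h5 1 2 (by omega))
    (h5 1 3 (by omega)) (h5 2 3 (by omega))

/-- the pairs pinning the roles up to level `N` -/
noncomputable def pins (π : ℕ ≃ Role) (N : ℕ) : Finset Pair := by
  classical
  exact {pr (π.symm (q false)) (π.symm (q true)), pr (π.symm (q false)) (π.symm (p 0)),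
    pr (π.symm (q true)) (π.symm (p 0))} ∪
    (Finset.range N).image fun j => pr (π.symm (p j)) (π.symm (p (j + 1)))

theorem pins_spec {π : ℕ ≃ Role} {N : ℕ} {e : Pair} (he : e ∈ pins π N) :
    π.symm h ∉ e.1 := by
  classical
  have key : ∀ r r' : Role, r ≠ h → r' ≠ h → r ≠ r' → π.symm h ∉ (pr (π.symm r) (π.symm r')).1 := by
    intro r r' h1 h2 h3
    rw [pr_val (fun h' => h3 (π.symm.injective h')), Sym2.mem_iff]
    rintro (h' | h')
    · exact h1 (π.symm.injective h').symm
    · exact h2 (π.symm.injective h').symm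
  simp only [pins, Finset.mem_union, Finset.mem_insert, Finset.mem_singleton,
    Finset.mem_image, Finset.mem_range] at he
  rcases he with (rfl | rfl | rfl) | ⟨j, -, rfl⟩
  · exact key _ _ (by simp) (by simp) (by simp)
  · exact key _ _ (by simp) (by simp) (by simp)
  · exact key _ _ (by simp) (by simp) (by simp)
  · exact key _ _ (by simp) (by simp) (by simp)

theorem pinned {t : ℕ → Bool} {π : ℕ ≃ Role} {l : List Pair} {u : ℕ}
    (ha : Ag (Md t π) (pos τ l)) (hu : Sure (pos τ l) (fun r => r = h) u) {N : ℕ} (hN : 1 ≤ N)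
    (hl : ∀ e ∈ pins π N, e ∈ l) :
    (∀ j ≤ N, Sure (pos τ l) (fun r => r = p j) (π.symm (p j))) ∧
      ∀ b, Sure (pos τ l) isQ (π.symm (q b)) := by
  classical
  have hu' : π.symm h = u := by
    rw [Equiv.symm_apply_eq]
    exact (hu t π ha).symm
  have main : ∀ (t' : ℕ → Bool) (π' : ℕ ≃ Role), Ag (Md t' π') (pos τ l) →
      (∀ j ≤ N, π' (π.symm (p j)) = p j) ∧ ∀ b, isQ (π' (π.symm (q b))) := by
    intro t' π' ha'
    have key : ∀ r r' : Role, r ≠ r' → RA t r r' → pr (π.symm r) (π.symm r') ∈ l →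
        RA t' (π' (π.symm r)) (π' (π.symm r')) := by
      intro r r' h1 h2 h3
      have h4 := (transfer ha ha' (fun h' => h1 (π.symm.injective h')) h3).1 (by
        rw [Md_adj]
        simpa using h2)
      exact h4
    refine pin (t := t') (ρ := fun r => π' (π.symm r)) (π'.injective.comp π.symm.injective) ?_
      ?_ ?_ ?_ hN ?_
    · show π' (π.symm h) = h
      rw [hu']
      exact hu t' π' ha'
    · exact key _ _ (by simp) (by simp [RA]) (hl _ (by simp [pins]))
    · exact key _ _ (by simp) (by simp [RA]) (hl _ (by simp [pins]))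
    · exact key _ _ (by simp) (by simp [RA]) (hl _ (by simp [pins]))
    · intro j hj
      exact key _ _ (by simp) (by simp [RA]) (hl _ (by
        simp only [pins, Finset.mem_union, Finset.mem_image, Finset.mem_range]
        exact Or.inr ⟨j, hj, rfl⟩))
  exact ⟨fun j hj t' π' ha' => (main t' π' ha').1 j hj, fun b t' π' ha' => (main t' π' ha').2 b⟩

/-- the state of the simulation -/
structure St (τ : Position → Pair → Bool) (u : ℕ) (l : List Pair) (I : Set ℕ) : Prop where
  nd : l.Nodup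
  su : Sure (pos τ l) (fun r => r = h) u
  ask : ∀ x, u ≠ x → pr u x ∈ l → Sure (pos τ l) isQ x ∨
    (∃ j, Sure (pos τ l) (fun r => r = p (2 * j)) x) ∨
    ∃ m ∈ I, Sure (pos τ l) (fun r => r = p (2 * m + 1)) x

/-- an asked flexible pair has its index in `I` -/
theorem St.mem {u : ℕ} {l : List Pair} {I : Set ℕ} (hs : St τ u l I) {t : ℕ → Bool}
    {π : ℕ ≃ Role} (ha : Ag (Md t π) (pos τ l)) {x m : ℕ} (hx : π x = p (2 * m + 1))
    (hm : pr u x ∈ l) (hux : u ≠ x) : m ∈ I := by
  rcases hs.ask x hux hm with h1 | ⟨j, h1⟩ | ⟨m', hm', h1⟩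
  · have h2 := h1 t π ha
    rw [hx] at h2
    exact h2.elim
  · have h2 := h1 t π ha
    rw [hx] at h2
    simp only [p.injEq] at h2
    omega
  · have h2 := h1 t π ha
    rw [hx] at h2
    simp only [p.injEq] at h2
    obtain rfl : m = m' := by omega
    exact hm'

/-- the start of the simulation -/
theorem start (hw : HWin (ST T) τ) :
    ∃ (u : ℕ) (l : List Pair) (I : Set ℕ) (t0 : ℕ → Bool), St τ u l I ∧ I.Finite ∧
      ∀ m ∈ I, ∀ (t : ℕ → Bool) (π : ℕ ≃ Role), Ag (Md t π) (pos τ l) → t m = t0 m := by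
  classical
  obtain ⟨l1, u, hl1, hu⟩ := find_hub hw
  obtain ⟨w, hw1, hw2⟩ := exists_fresh u l1
  obtain ⟨t, ht, π, hF⟩ := explore hw hl1 (infinite_pairs u) (w := w) (fun h => h hw1) hw2
  have hu' : π.symm h = u := by
    obtain ⟨l', h1, -, -, -, h2⟩ := hF ∅ (by simp)
    rw [Equiv.symm_apply_eq]
    exact (hu t π (h2.mono (pos_suffix h1))).symm
  have hne : ∀ j, u ≠ π.symm (p j) := by
    intro j h'
    rw [← hu'] at h'
    simpa using π.symm.injective h'
  have hB : {j : ℕ | pr u (π.symm (p j)) ∈ l1}.Finite := by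
    refine Set.Finite.preimage (f := fun j => pr u (π.symm (p j))) ?_ (List.finite_toSet l1)
    intro i _ j _ hij
    have := π.symm.injective (pr_inj (hne i) (hne j) hij)
    simpa using this
  obtain ⟨N, hN⟩ := hB.bddAbove
  obtain ⟨l2, h1, h2, h3, h4, h5⟩ := hF (pins π (N + 1)) (fun e he => by
    have := pins_spec he
    rwa [hu'] at this)
  have hu2 : Sure (pos τ l2) (fun r => r = h) u := hu.mono (pos_suffix h1)
  obtain ⟨h6, h7⟩ := pinned h5 hu2 (by omega) h4
  have hold : ∀ x, u ≠ x → pr u x ∈ l2 → pr u x ∈ l1 := by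
    intro x hx hm
    rcases h3 _ hm with h' | h'
    · exact h'
    · exfalso
      apply h'
      rw [pr_val hx, Sym2.mem_iff]
      exact Or.inl rfl
  refine ⟨u, l2, {m | ∃ x, u ≠ x ∧ pr u x ∈ l2 ∧ Sure (pos τ l2) (fun r => r = p (2 * m + 1)) x}, t,
    ⟨h2, hu2, ?_⟩, ?_, ?_⟩
  · intro x hx hm
    rcases hr : π x with _ | b | j
    · exfalso
      apply hx
      rw [← hu', ← hr]
      simp
    · left
      have := h7 b
      rw [← hr] at this
      simpa using this
    · right
      have hxj : x = π.symm (p j) := by rw [← hr]; simp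
      have hj : j ≤ N := hN (by
        show pr u (π.symm (p j)) ∈ l1
        rw [← hxj]
        exact hold x hx hm)
      have h8 := h6 j (by omega)
      rw [← hxj] at h8
      rcases Nat.even_or_odd' j with ⟨c, rfl | rfl⟩
      · exact Or.inl ⟨c, h8⟩
      · exact Or.inr ⟨c, ⟨x, hx, hm, h8⟩, h8⟩
  · have h8 : ∀ m ∈ {m | ∃ x, u ≠ x ∧ pr u x ∈ l2 ∧
        Sure (pos τ l2) (fun r => r = p (2 * m + 1)) x}, 2 * m + 1 ≤ N := by
      rintro m ⟨x, hx, hm, hs⟩
      have h9 := hs t π h5
      have hxj : x = π.symm (p (2 * m + 1)) := by rw [← h9]; simp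
      exact hN (by
        show pr u (π.symm (p _)) ∈ l1
        rw [← hxj]
        exact hold x hx hm)
    refine (Set.finite_Iic N).subset fun m hm => ?_
    have := h8 m hm
    simp only [Set.mem_Iic]
    omega
  · rintro m ⟨x, hx, hm, hs⟩ t' π' ha
    have h9 := hs t π h5
    have h10 := hs t' π' ha
    have h11 := transfer h5 ha hx hm
    rw [Md_adj, Md_adj, h9, h10, hu2 t π h5, hu2 t' π' ha] at h11
    simp only [RA] at h11
    have h12 : (2 * m + 1) / 2 = m := by omega
    rw [h12] at h11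
    have h13 : (2 * m + 1) % 2 ≠ 0 := by omega
    simp only [ne_eq, Nat.add_eq_zero_iff, mul_eq_zero, OfNat.ofNat_ne_zero, false_or, one_ne_zero,
      and_false, not_false_eq_true, true_and, h13] at h11
    cases hb : t m <;> cases hb' : t' m <;> simp_all

/-- what is achieved for the number `k` -/
def Done (τ : Position → Pair → Bool) (en : ℕ → Pair) (u : ℕ) (l : List Pair) (k : ℕ) : Prop :=
  (u ≠ k → (Sure (pos τ l) isQ k ∧ pr u k ∈ l) ∨
    (∃ j, Sure (pos τ l) (fun r => r = p (2 * j)) k ∧ pr u k ∈ l) ∨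
    ∃ m, Sure (pos τ l) (fun r => r = p (2 * m + 1)) k) ∧
  (∃ x, u ≠ x ∧ Sure (pos τ l) (fun r => r = p (2 * k + 1)) x) ∧
  (u ∉ (en k).1 → en k ∈ l)

theorem Done.mono {en : ℕ → Pair} {u : ℕ} {l l' : List Pair} {k : ℕ} (hd : Done τ en u l k)
    (hl : l <:+ l') : Done τ en u l' k := by
  obtain ⟨h1, ⟨x, hx, h2⟩, h3⟩ := hd
  have hp := pos_suffix (τ := τ) hl
  refine ⟨fun hk => ?_, ⟨x, hx, h2.mono hp⟩, fun hk => hl.subset (h3 hk)⟩
  rcases h1 hk with ⟨h4, h5⟩ | ⟨j, h4, h5⟩ | ⟨m, h4⟩
  · exact Or.inl ⟨h4.mono hp, hl.subset h5⟩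
  · exact Or.inr (Or.inl ⟨j, h4.mono hp, hl.subset h5⟩)
  · exact Or.inr (Or.inr ⟨m, h4.mono hp⟩)

/-- one step of the simulation -/
theorem step (hw : HWin (ST T) τ) (en : ℕ → Pair) {u : ℕ} {l : List Pair} {I : Set ℕ}
    (hs : St τ u l I) {m : ℕ} (hm : m ∉ I) (k : ℕ) :
    ∃ l', l <:+ l' ∧ l.length < l'.length ∧ St τ u l' (insert m I) ∧ Done τ en u l' k ∧
      ∃ x, u ≠ x ∧ pr u x ∈ l' ∧ Sure (pos τ l') (fun r => r = p (2 * m + 1)) x := by
  classical
  obtain ⟨w, hw1, hw2⟩ := exists_fresh u l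
  obtain ⟨t, ht, π, hF⟩ := explore hw hs.nd (infinite_pairs u) (w := w) (fun h => h hw1) hw2
  have hu' : π.symm h = u := by
    obtain ⟨l', h1, -, -, -, h2⟩ := hF ∅ (by simp)
    rw [Equiv.symm_apply_eq]
    exact (hs.su t π (h2.mono (pos_suffix h1))).symm
  have hne : ∀ j, u ≠ π.symm (p j) := by
    intro j h'
    rw [← hu'] at h'
    simpa using π.symm.injective h'
  obtain ⟨K, hK⟩ : ∃ K, ∀ j, π k = p j → j ≤ K := by
    rcases hr : π k with _ | b | j
    · exact ⟨0, fun j h' => by simp at h'⟩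
    · exact ⟨0, fun j h' => by simp at h'⟩
    · exact ⟨j, fun i h' => by simp only [p.injEq] at h'; omega⟩
  let N := 2 * m + 1 + (2 * k + 1) + K
  obtain ⟨l1, h1, h2, h3, h4, h5⟩ := hF (pins π N ∪ (if u ∈ (en k).1 then ∅ else {en k}))
    (fun e he => by
      rcases Finset.mem_union.1 he with he | he
      · have := pins_spec he
        rwa [hu'] at this
      · split_ifs at he with h'
        · simp at he
        · rw [Finset.mem_singleton.1 he]
          exact h')
  have hu1 : Sure (pos τ l1) (fun r => r = h) u := hs.su.mono (pos_suffix h1)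
  obtain ⟨h6, h7⟩ := pinned h5 hu1 (N := N) (by omega)
    (fun e he => h4 e (Finset.mem_union_left _ he))
  have hold : ∀ x, u ≠ x → pr u x ∈ l1 → pr u x ∈ l := by
    intro x hx hm
    rcases h3 _ hm with h' | h'
    · exact h'
    · exfalso
      apply h'
      rw [pr_val hx, Sym2.mem_iff]
      exact Or.inl rfl
  -- the flexible pair
  let x := π.symm (p (2 * m + 1))
  have hux : u ≠ x := hne _
  have hx1 : pr u x ∉ l1 := by
    intro h'
    exact hm (hs.mem (h5.mono (pos_suffix h1)) (m := m) (by simp [x]) (hold x hux h') hux)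
  let l2 := pr u x :: l1
  have hl2 : l2.Nodup := List.nodup_cons.2 ⟨hx1, h2⟩
  have h12 : l1 <:+ l2 := List.suffix_cons _ _
  -- the vertex `k`
  let l3 := if u ≠ k ∧ pr u k ∉ l2 ∧ (isQ (π k) ∨ ∃ j, π k = p (2 * j)) then pr u k :: l2 else l2
  have h23 : l2 <:+ l3 := by
    simp only [l3]
    split_ifs
    · exact List.suffix_cons _ _
    · exact List.suffix_refl _
  have h13 : l1 <:+ l3 := h12.trans h23
  have hl3 : l3.Nodup := by
    simp only [l3]
    split_ifs with h'
    · exact List.nodup_cons.2 ⟨h'.2.1, hl2⟩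
    · exact hl2
  have hp := pos_suffix (τ := τ) h13
  have hsx : Sure (pos τ l3) (fun r => r = p (2 * m + 1)) x := (h6 _ (by omega)).mono hp
  have hk : u ≠ k → Sure (pos τ l3) isQ k ∧ isQ (π k) ∨
      (∃ j, Sure (pos τ l3) (fun r => r = p (2 * j)) k ∧ π k = p (2 * j)) ∨
      ∃ m, Sure (pos τ l3) (fun r => r = p (2 * m + 1)) k ∧ π k = p (2 * m + 1) := by
    intro hk
    rcases hr : π k with _ | b | j
    · exfalso
      apply hk
      rw [← hu', ← hr]
      simp
    · left
      have := (h7 b).mono hp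
      rw [← hr] at this
      exact ⟨by simpa using this, trivial⟩
    · right
      have hxj : k = π.symm (p j) := by rw [← hr]; simp
      have hj : j ≤ K := hK j hr
      have h8 := (h6 j (by omega)).mono hp
      rw [← hxj] at h8
      rcases Nat.even_or_odd' j with ⟨c, rfl | rfl⟩
      · exact Or.inl ⟨c, h8, rfl⟩
      · exact Or.inr ⟨c, h8, rfl⟩
  have hk3 : u ≠ k → (isQ (π k) ∨ ∃ j, π k = p (2 * j)) → pr u k ∈ l3 := by
    intro h8 h9
    by_cases h10 : pr u k ∈ l2
    · exact h23.subset h10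
    · simp only [l3]
      rw [if_pos ⟨h8, h10, h9⟩]
      exact List.mem_cons_self
  refine ⟨l3, h1.trans h13, ?_, ⟨hl3, hu1.mono hp, ?_⟩, ⟨?_, ?_, ?_⟩, x, hux,
    h23.subset List.mem_cons_self, hsx⟩
  · have := h1.length_le
    have h8 : l2.length = l1.length + 1 := rfl
    have := h23.length_le
    omega
  · intro y hy hym
    have hcase : pr u y ∈ l ∨ y = x ∨ (y = k ∧ (isQ (π k) ∨ ∃ j, π k = p (2 * j))) := by
      have h8 : pr u y ∈ l2 ∨ (y = k ∧ (isQ (π k) ∨ ∃ j, π k = p (2 * j))) := by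
        simp only [l3] at hym
        split_ifs at hym with h9
        · rcases List.mem_cons.1 hym with h10 | h10
          · exact Or.inr ⟨pr_inj hy h9.1 h10, h9.2.2⟩
          · exact Or.inl h10
        · exact Or.inl hym
      rcases h8 with h8 | h8
      · rcases List.mem_cons.1 h8 with h10 | h10
        · exact Or.inr (Or.inl (pr_inj hy hux h10))
        · exact Or.inl (hold y hy h10)
      · exact Or.inr (Or.inr h8)
    rcases hcase with h8 | rfl | ⟨rfl, h8⟩
    · have hp' := pos_suffix (τ := τ) (h1.trans h13)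
      rcases hs.ask y hy h8 with h9 | ⟨j, h9⟩ | ⟨m', hm', h9⟩
      · exact Or.inl (h9.mono hp')
      · exact Or.inr (Or.inl ⟨j, h9.mono hp'⟩)
      · exact Or.inr (Or.inr ⟨m', Set.mem_insert_of_mem _ hm', h9.mono hp'⟩)
    · exact Or.inr (Or.inr ⟨m, Set.mem_insert _ _, hsx⟩)
    · rcases hk hy with h9 | ⟨j, h9, -⟩ | ⟨m', -, h9⟩
      · exact Or.inl h9.1
      · exact Or.inr (Or.inl ⟨j, h9⟩)
      · exfalso
        rw [h9] at h8
        rcases h8 with h8 | ⟨j, h8⟩
        · exact h8
        · simp only [p.injEq] at h8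
          omega
  · intro h8
    rcases hk h8 with h9 | ⟨j, h9, h10⟩ | ⟨m', h9⟩
    · exact Or.inl ⟨h9.1, hk3 h8 (Or.inl h9.2)⟩
    · exact Or.inr (Or.inl ⟨j, h9, hk3 h8 (Or.inr ⟨j, h10⟩)⟩)
    · exact Or.inr (Or.inr ⟨m', h9.1⟩)
  · exact ⟨π.symm (p (2 * k + 1)), hne _, (h6 _ (by omega)).mono hp⟩
  · intro h8
    refine h13.subset (h4 _ (Finset.mem_union_right _ ?_))
    rw [if_neg h8]
    exact Finset.mem_singleton_self _

end

end Pool.Agent.X200.Gq
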