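import Mathlib
import Pool.Agent.X200.GqRed

/-!
The index game and the reduction.
-/

set_option autoImplicit false

namespace Pool.Agent.X200.Gq

open Role

/-- `ans` is a winning answering function in the index game from the base `(I0, t0)` -/
def IWin (T : Set (ℕ → Bool)) (I0 : Set ℕ) (t0 : ℕ → Bool) (ans : List ℕ → Bool) : Prop :=
  ∀ L : ℕ → List ℕ, (∀ n, L n <:+ L (n + 1)) → (∀ k, ∃ n, k ≤ (L n).length) →
    (∀ n, (L n).Nodup) → (∀ n, ∀ m ∈ L n, m ∉ I0) → ∀ w, w ∉ I0 → (∀ n, w ∉ L n) →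
    ∃ t ∈ T, ∃ t', t' ∉ T ∧ (∀ m ∈ I0, t m = t0 m ∧ t' m = t0 m) ∧
      ∀ n m l, (m :: l) <:+ L n → t m = ans (m :: l) ∧ t' m = ans (m :: l)

theorem RA_flex {t : ℕ → Bool} {m : ℕ} : RA t h (p (2 * m + 1)) ↔ t m = true := by
  simp only [RA]
  have h12 : (2 * m + 1) / 2 = m := by omega
  rw [h12]
  have h13 : (2 * m + 1) % 2 ≠ 0 := by omega
  simp [h13]

theorem RA_symm {t : ℕ → Bool} {a b : Role} (hab : RA t a b) : RA t b a :=
  SimpleGraph.Adj.symm (G := RG t) hab

theorem reduction {τ : Position → Pair → Bool} {T : Set (ℕ → Bool)} (hw : HWin (ST T) τ) :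
    ∃ (I0 : Set ℕ) (t0 : ℕ → Bool) (ans : List ℕ → Bool), I0.Finite ∧ IWin T I0 t0 ans := by
  classical
  obtain ⟨en, hen⟩ := pair_enum
  obtain ⟨u, l0, I0, t0, hs0, hI0, hbase⟩ := start hw
  have hstep : ∀ (l : List Pair) (I : Set ℕ) (m k : ℕ), ∃ l', St τ u l I → m ∉ I →
      (l <:+ l' ∧ l.length < l'.length ∧ St τ u l' (insert m I) ∧ Done τ en u l' k ∧
      ∃ x, u ≠ x ∧ pr u x ∈ l' ∧ Sure (pos τ l') (fun r => r = p (2 * m + 1)) x) := by
    intro l I m k
    by_cases h1 : St τ u l I ∧ m ∉ I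
    · obtain ⟨l', hl'⟩ := step hw en h1.1 h1.2 k
      exact ⟨l', fun _ _ => hl'⟩
    · exact ⟨l, fun h2 h3 => absurd ⟨h2, h3⟩ h1⟩
  choose f hf using hstep
  let Φ : List ℕ → List Pair := fun L => List.rec (motive := fun _ => List Pair) l0
    (fun m L r => f r (I0 ∪ {i | i ∈ L}) m L.length) L
  have hΦ0 : Φ [] = l0 := rfl
  have hΦ : ∀ m L, Φ (m :: L) = f (Φ L) (I0 ∪ {i | i ∈ L}) m L.length := fun m L => rfl
  -- good lists
  have hgood : ∀ L : List ℕ, L.Nodup → (∀ m ∈ L, m ∉ I0) → St τ u (Φ L) (I0 ∪ {i | i ∈ L}) := by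
    intro L
    induction L with
    | nil =>
      intro _ _
      rw [hΦ0]
      have : I0 ∪ {i | i ∈ ([] : List ℕ)} = I0 := by ext; simp
      rw [this]
      exact hs0
    | cons m L ih =>
      intro h1 h2
      rw [List.nodup_cons] at h1
      have h3 := ih h1.2 fun i hi => h2 i (List.mem_cons_of_mem _ hi)
      have h4 : m ∉ I0 ∪ {i | i ∈ L} := by
        rintro (h | h)
        · exact h2 m List.mem_cons_self h
        · exact h1.1 h
      have h5 := (hf _ _ m L.length h3 h4).2.2.1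
      rw [← hΦ] at h5
      have : I0 ∪ {i | i ∈ m :: L} = insert m (I0 ∪ {i | i ∈ L}) := by
        ext i
        simp only [Set.mem_union, Set.mem_ofPred_eq, List.mem_cons, Set.mem_insert_iff]
        tauto
      rw [this]
      exact h5
  have hcons : ∀ m L, (m :: L).Nodup → (∀ i ∈ m :: L, i ∉ I0) →
      (Φ L <:+ Φ (m :: L) ∧ (Φ L).length < (Φ (m :: L)).length ∧ Done τ en u (Φ (m :: L)) L.length ∧
      ∃ x, u ≠ x ∧ pr u x ∈ Φ (m :: L) ∧
        Sure (pos τ (Φ (m :: L))) (fun r => r = p (2 * m + 1)) x) := by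
    intro m L h1 h2
    rw [List.nodup_cons] at h1
    have h3 := hgood L h1.2 fun i hi => h2 i (List.mem_cons_of_mem _ hi)
    have h4 : m ∉ I0 ∪ {i | i ∈ L} := by
      rintro (h | h)
      · exact h2 m List.mem_cons_self h
      · exact h1.1 h
    have h5 := hf _ _ m L.length h3 h4
    rw [← hΦ] at h5
    exact ⟨h5.1, h5.2.1, h5.2.2.2.1, h5.2.2.2.2⟩
  have hsuf : ∀ L L' : List ℕ, L <:+ L' → L'.Nodup → (∀ i ∈ L', i ∉ I0) → Φ L <:+ Φ L' := by
    rintro L _ ⟨s, rfl⟩
    induction s with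
    | nil => exact fun _ _ => List.suffix_refl _
    | cons a s ih =>
      intro h1 h2
      have h3 := hcons a (s ++ L) h1 h2
      exact (ih (List.nodup_cons.1 h1).2 fun i hi => h2 i (List.mem_cons_of_mem _ hi)).trans h3.1
  have hlen : ∀ L : List ℕ, L.Nodup → (∀ i ∈ L, i ∉ I0) → L.length ≤ (Φ L).length := by
    intro L
    induction L with
    | nil => exact fun _ _ => Nat.zero_le _
    | cons a L ih =>
      intro h1 h2
      have h3 := hcons a L h1 h2
      have h4 := ih (List.nodup_cons.1 h1).2 fun i hi => h2 i (List.mem_cons_of_mem _ hi)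
      rw [List.length_cons]
      omega
  have hdone : ∀ L : List ℕ, L.Nodup → (∀ i ∈ L, i ∉ I0) → ∀ k < L.length,
      Done τ en u (Φ L) k := by
    intro L
    induction L with
    | nil => intro _ _ k hk; simp at hk
    | cons a L ih =>
      intro h1 h2 k hk
      have h3 := hcons a L h1 h2
      rw [List.length_cons] at hk
      rcases Nat.lt_succ_iff_lt_or_eq.1 hk with hk | rfl
      · exact (ih (List.nodup_cons.1 h1).2 (fun i hi => h2 i (List.mem_cons_of_mem _ hi)) k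
          hk).mono h3.1
      · exact h3.2.2.1
  -- the answers
  let ans : List ℕ → Bool := fun L => match L with
    | [] => true
    | m :: L => decide (∃ x, u ≠ x ∧ (pr u x, true) ∈ pos τ (Φ (m :: L)) ∧
        Sure (pos τ (Φ (m :: L))) (fun r => r = p (2 * m + 1)) x)
  have hans : ∀ m L, (m :: L).Nodup → (∀ i ∈ m :: L, i ∉ I0) → ∀ (t : ℕ → Bool) (π : ℕ ≃ Role),
      Ag (Md t π) (pos τ (Φ (m :: L))) → t m = ans (m :: L) := by
    intro m L h1 h2 t π ha
    obtain ⟨-, -, -, x, hx, hx1, hx2⟩ := hcons m L h1 h2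
    have hu := (hgood (m :: L) h1 h2).su t π ha
    obtain ⟨b, hb⟩ := exists_mem_pos (τ := τ) hx1
    have h3 := ha.adj hx hb
    rw [Md_adj, hu, hx2 t π ha, RA_flex] at h3
    cases hb' : ans (m :: L)
    · cases ht : t m
      · rfl
      · exfalso
        have h4 : ¬ ∃ x, u ≠ x ∧ (pr u x, true) ∈ pos τ (Φ (m :: L)) ∧
            Sure (pos τ (Φ (m :: L))) (fun r => r = p (2 * m + 1)) x := of_decide_eq_false hb'
        rw [h3.1 ht] at hb
        exact h4 ⟨x, hx, hb, hx2⟩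
    · have h4 : ∃ x, u ≠ x ∧ (pr u x, true) ∈ pos τ (Φ (m :: L)) ∧
            Sure (pos τ (Φ (m :: L))) (fun r => r = p (2 * m + 1)) x := of_decide_eq_true hb'
      obtain ⟨y, hy, hy1, hy2⟩ := h4
      have h5 := ha.adj hy hy1
      rw [Md_adj, hu, hy2 t π ha, RA_flex] at h5
      exact h5.2 rfl
  refine ⟨I0, t0, ans, hI0, ?_⟩
  intro L h1 h2 h3 h4 w hwI hwL
  have hw1 : ∀ n, L n <:+ L (n + 1) := h1
  have g1 : ∀ n, Φ (L n) <:+ Φ (L (n + 1)) := fun n => hsuf _ _ (h1 n) (h3 _) (h4 _)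
  have g2 : ∀ k, ∃ n, k ≤ (Φ (L n)).length := by
    intro k
    obtain ⟨n, hn⟩ := h2 k
    exact ⟨n, hn.trans (hlen _ (h3 n) (h4 n))⟩
  have g3 : ∀ n, (Φ (L n)).Nodup := fun n => (hgood _ (h3 n) (h4 n)).nd
  have gdone : ∀ k, ∃ n, Done τ en u (Φ (L n)) k := by
    intro k
    obtain ⟨n, hn⟩ := h2 (k + 1)
    exact ⟨n, hdone _ (h3 n) (h4 n) k hn⟩
  -- the missing pair
  obtain ⟨n0, hn0⟩ := gdone w
  obtain ⟨-, ⟨x, hux, hx⟩, -⟩ := hn0
  have g4 : ∀ n, pr u x ∉ Φ (L n) := by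
    intro n hn
    have hle1 := suffix_mono g1 (le_max_left n n0)
    have hle2 := suffix_mono g1 (le_max_right n n0)
    have hst := hgood _ (h3 (max n n0)) (h4 (max n n0))
    obtain ⟨t, -, π, ha⟩ := nonvac hw hst.nd
    have h5 := hst.mem ha ((hx.mono (pos_suffix hle2)) t π ha) (hle1.subset hn) hux
    rcases h5 with h5 | h5
    · exact hwI h5
    · exact hwL _ h5
  obtain ⟨G, ⟨t, ht, π, rfl⟩, G', hG', hag⟩ := chain hw (fun n => Φ (L n)) g1 g2 g3 (pr u x) g4
  have hu : π u = h := (hgood _ (h3 0) (h4 0)).su t π (hag 0).1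
  have hu' : π.symm h = u := by rw [← hu]; simp
  let t' : ℕ → Bool := fun m => decide (G'.Adj u (π.symm (p (2 * m + 1))))
  -- pairs at the hub
  have key : ∀ b, u ≠ b → (G'.Adj u b ↔ RA t' h (π b)) := by
    intro b hb
    obtain ⟨n, hn⟩ := gdone b
    rcases hn.1 hb with ⟨h5, h6⟩ | ⟨j, h5, h6⟩ | ⟨m, h5⟩
    · have h7 := transfer (hag n).1 (hag n).2 hb h6
      have h8 := h5 t π (hag n).1
      rw [← h7, Md_adj, hu]
      refine RA_same (Or.inl rfl) (Or.inl rfl) h8.ne_h.symm h8.ne_h.symm ?_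
      rintro ⟨m, ⟨-, h9⟩ | ⟨h9, -⟩⟩
      · exact h8.ne_p _ h9
      · exact h8.ne_h h9
    · have h7 := transfer (hag n).1 (hag n).2 hb h6
      have h8 := h5 t π (hag n).1
      rw [← h7, Md_adj, hu, h8]
      refine RA_same (Or.inl rfl) (Or.inl rfl) (by simp) (by simp) ?_
      rintro ⟨m, ⟨-, h9⟩ | ⟨h9, -⟩⟩
      · simp only [p.injEq] at h9
        omega
      · simp at h9
    · have h8 := h5 t π (hag n).1
      rw [h8, RA_flex]
      have h9 : π.symm (p (2 * m + 1)) = b := by rw [← h8]; simp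
      simp only [t', decide_eq_true_eq, h9]
  have hG'eq : G' = Md t' π := by
    ext a b
    rw [Md_adj]
    by_cases hab : a = b
    · subst hab
      constructor
      · intro h5; exact absurd h5 (G'.loopless.irrefl a)
      · intro h5; exact absurd h5 ((RG t').loopless.irrefl (π a))
    by_cases hau : u = a
    · subst hau
      rw [hu]
      exact key b hab
    by_cases hbu : u = b
    · subst hbu
      rw [SimpleGraph.adj_comm, hu, key a (Ne.symm hab)]
      exact ⟨RA_symm, RA_symm⟩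
    · obtain ⟨k, hk⟩ := hen (pr a b)
      obtain ⟨n, hn⟩ := gdone k
      have h5 : pr a b ∈ Φ (L n) := by
        have h6 := hn.2.2
        rw [hk] at h6
        apply h6
        rw [pr_val hab, Sym2.mem_iff]
        tauto
      rw [← transfer (hag n).1 (hag n).2 hab h5, Md_adj]
      refine RA_same (Or.inl rfl) (Or.inl rfl) (fun h' => hab (π.injective h'))
        (fun h' => hab (π.injective h')) ?_
      rintro ⟨m, ⟨h9, -⟩ | ⟨h9, -⟩⟩
      · exact hau (π.injective (hu.trans h9.symm))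
      · exact hbu (π.injective (hu.trans h9.symm))
  rw [hG'eq] at hG' hag
  refine ⟨t, ht, t', fun h5 => hG' ⟨t', h5, π, rfl⟩, ?_, ?_⟩
  · intro m hm
    have h5 : Φ [] <:+ Φ (L 0) := hsuf _ _ (List.nil_suffix) (h3 0) (h4 0)
    exact ⟨hbase m hm t π ((hag 0).1.mono (pos_suffix h5)),
      hbase m hm t' π ((hag 0).2.mono (pos_suffix h5))⟩
  · intro n m l hl
    have h5 := hsuf _ _ hl (h3 n) (h4 n)
    have h6 : (m :: l).Nodup := (h3 n).sublist hl.sublist
    have h7 : ∀ i ∈ m :: l, i ∉ I0 := fun i hi => h4 n i (hl.subset hi)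
    exact ⟨hans m l h6 h7 t π ((hag n).1.mono (pos_suffix h5)),
      hans m l h6 h7 t' π ((hag n).2.mono (pos_suffix h5))⟩

end Pool.Agent.X200.Gq
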