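import Mathlib
import Pool.Agent.X200.GqRed2

/-!
The index game.
-/

set_option autoImplicit false

namespace Pool.Agent.X200.Gq

/-- the value of a block of three bits; `3` means none -/
def val : Bool → Bool → Bool → ℕ
  | false, false, false => 3
  | true, true, true => 3
  | _, false, true => 0
  | true, _, false => 1
  | false, true, _ => 2

/-- the value of the `n`-th block -/
def yv (t : ℕ → Bool) (n : ℕ) : ℕ := val (t (4 * n)) (t (4 * n + 1)) (t (4 * n + 2))

/-- the code of a sequence -/
def code (t : ℕ → Bool) : (ℕ → ℕ) × (ℕ → Bool) := (yv t, fun n => t (4 * n + 3))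

/-- the set of sequences given by a set of codes -/
def TY (Y : Set ((ℕ → ℕ) × (ℕ → Bool))) : Set (ℕ → Bool) := {t | (∀ n, yv t n ≠ 3) ∧ code t ∈ Y}

/-- the first question in a block -/
def q1 : Bool → ℕ
  | false => 0
  | true => 1

/-- the second question in a block -/
def q2 : Bool → Bool → ℕ
  | false, true => 2
  | false, false => 1
  | true, true => 0
  | true, false => 2

/-- the third question in a block -/
def q3 : Bool → Bool → ℕ
  | false, true => 1
  | false, false => 2
  | true, true => 2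
  | true, false => 0

theorem q_facts (μ a : Bool) : q1 μ < 3 ∧ q2 μ a < 3 ∧ q3 μ a < 3 ∧ q1 μ ≠ q2 μ a ∧
    q1 μ ≠ q3 μ a ∧ q2 μ a ≠ q3 μ a := by
  cases μ <;> cases a <;> simp [q1, q2, q3]

theorem val_eq {μ a : Bool} {t : ℕ → Bool} {n : ℕ} (h1 : t (4 * n + q1 μ) = a)
    (h2 : t (4 * n + q2 μ a) = a) (h3 : yv t n ≠ 3) : yv t n = q1 μ := by
  cases μ <;> cases a <;> simp only [q1, q2, yv, add_zero] at h1 h2 h3 ⊢ <;>
    rw [h1, h2] at h3 ⊢ <;> revert h3
  · cases t (4 * n + 2) <;> simp [val]
  · cases t (4 * n + 1) <;> simp [val]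
  · cases t (4 * n) <;> simp [val]
  · cases t (4 * n + 2) <;> simp [val]

theorem val_irrel {μ a b : Bool} {t t' : ℕ → Bool} {n : ℕ} (h1 : t (4 * n + q1 μ) = a)
    (h2 : t (4 * n + q2 μ a) = b) (hab : b ≠ a) (h : ∀ m, m ≠ 4 * n + q3 μ a → t' m = t m) :
    yv t' n = yv t n := by
  have hb : b = !a := by cases a <;> cases b <;> simp_all
  subst hb
  have e1 : t' (4 * n + q1 μ) = t (4 * n + q1 μ) := h _ (by
    have := (q_facts μ a).2.2.2.2.1
    omega)
  have e2 : t' (4 * n + q2 μ a) = t (4 * n + q2 μ a) := h _ (by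
    have := (q_facts μ a).2.2.2.2.2
    omega)
  rw [h1] at e1
  rw [h2] at e2
  clear h
  cases μ <;> cases a <;> simp only [q1, q2, yv, add_zero, Bool.not_false, Bool.not_true]
    at h1 h2 e1 e2 ⊢ <;> rw [h1, h2, e1, e2]
  · cases t (4 * n + 2) <;> cases t' (4 * n + 2) <;> simp [val]
  · cases t (4 * n + 1) <;> cases t' (4 * n + 1) <;> simp [val]
  · cases t (4 * n) <;> cases t' (4 * n) <;> simp [val]
  · cases t (4 * n + 2) <;> cases t' (4 * n + 2) <;> simp [val]

/-- an exhaustive chain -/
theorem exh {α : Type} [Countable α] {l : List α} (hl : l.Nodup) {A : Set α}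
    (hA : A.Infinite) : ∃ L : ℕ → List α, L 0 = l ∧ (∀ n, L n <:+ L (n + 1)) ∧
      (∀ n, (L n).Nodup) ∧ (∀ n, ∀ e ∈ L n, e ∈ l ∨ e ∈ A) ∧ (∀ e ∈ A, ∃ n, e ∈ L n) ∧
      ∀ k, ∃ n, k ≤ (L n).length := by
  classical
  have : Nonempty α := ⟨hA.nonempty.some⟩
  obtain ⟨en, hen⟩ := exists_surjective_nat α
  let nx : ℕ → List α → List α := fun n r => if en n ∈ A ∧ en n ∉ r then en n :: r else r
  let L : ℕ → List α := fun n => Nat.rec (motive := fun _ => List α) l nx n
  have hL : ∀ n : ℕ, L (n + 1) = nx n (L n) := fun n => rfl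
  have h1 : ∀ n, L n <:+ L (n + 1) := by
    intro n
    rw [hL]
    simp only [nx]
    split_ifs
    · exact List.suffix_cons _ _
    · exact List.suffix_refl _
  have h3 : ∀ n, (L n).Nodup := by
    intro n
    induction n with
    | zero => exact hl
    | succ n ih =>
      rw [hL]
      simp only [nx]
      split_ifs with h
      · exact List.nodup_cons.2 ⟨h.2, ih⟩
      · exact ih
  have h5 : ∀ n, ∀ e ∈ L n, e ∈ l ∨ e ∈ A := by
    intro n
    induction n with
    | zero => exact fun e he => Or.inl he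
    | succ n ih =>
      intro e he
      rw [hL] at he
      simp only [nx] at he
      split_ifs at he with h
      · rcases List.mem_cons.1 he with rfl | he
        · exact Or.inr h.1
        · exact ih e he
      · exact ih e he
  have h6 : ∀ e ∈ A, ∃ n, e ∈ L n := by
    intro e he
    obtain ⟨n, rfl⟩ := hen e
    refine ⟨n + 1, ?_⟩
    rw [hL]
    simp only [nx]
    split_ifs with h
    · exact List.mem_cons_self
    · by_contra hcon
      exact h ⟨he, hcon⟩
  have h7 : ∀ F : Finset α, (∀ e ∈ F, e ∈ A) → ∃ n, ∀ e ∈ F, e ∈ L n := by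
    intro F
    induction F using Finset.induction_on with
    | empty => exact fun _ => ⟨0, by simp⟩
    | insert a s ha ih =>
      intro hF
      obtain ⟨n, hn⟩ := ih fun e he => hF e (Finset.mem_insert_of_mem he)
      obtain ⟨m, hm⟩ := h6 a (hF a (Finset.mem_insert_self _ _))
      refine ⟨max n m, fun e he => ?_⟩
      rcases Finset.mem_insert.1 he with rfl | he
      · exact (suffix_mono h1 (le_max_right n m)).subset hm
      · exact (suffix_mono h1 (le_max_left n m)).subset (hn e he)
  refine ⟨L, rfl, h1, h3, h5, h6, ?_⟩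
  intro k
  obtain ⟨F, hF1, hF2⟩ := hA.exists_subset_card_eq k
  obtain ⟨n, hn⟩ := h7 F fun e he => hF1 he
  refine ⟨n, ?_⟩
  rw [← hF2]
  refine le_trans (Finset.card_le_card (t := (L n).toFinset) fun e he => ?_)
    (List.toFinset_card_le _)
  exact List.mem_toFinset.2 (hn e he)

section

variable (I0 : Set ℕ) (t0 : ℕ → Bool) (ans : List ℕ → Bool) (N : ℕ)

/-- the list after the first question of the block -/
def l1 (μ : Bool) (n : ℕ) (L : List ℕ) : List ℕ := (4 * n + q1 μ) :: L

/-- the list after the second question of the block -/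
def l2 (μ : Bool) (n : ℕ) (L : List ℕ) : List ℕ :=
  (4 * n + q2 μ (ans (l1 μ n L))) :: l1 μ n L

/-- the list after the third question of the block -/
def l3 (μ : Bool) (n : ℕ) (L : List ℕ) : List ℕ :=
  (4 * n + q3 μ (ans (l1 μ n L))) :: l2 ans μ n L

open Classical in
/-- the play of Seeker in the modes `μ` -/
noncomputable def play (μ : ℕ → Bool) : ℕ → List ℕ
  | 0 => (List.range (4 * N)).filter fun m => m ∉ I0
  | k + 1 => (4 * (N + k) + 7) :: l3 ans (μ k) (N + k) (play μ k)

theorem mem_l3 (μ : Bool) (n : ℕ) (L : List ℕ) (m : ℕ) :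
    m ∈ l3 ans μ n L ↔ m ∈ L ∨ (4 * n ≤ m ∧ m < 4 * n + 3) := by
  simp only [l3, l2, l1, List.mem_cons]
  generalize ans ((4 * n + q1 μ) :: L) = a
  cases μ <;> cases a <;> simp only [q1, q2, q3] <;> constructor <;> intro h
  all_goals first
    | (rcases h with h | h | h | h <;> first | exact Or.inl h | (right; omega))
    | (rcases h with h | h
       · exact Or.inr (Or.inr (Or.inr h))
       · have : m = 4 * n ∨ m = 4 * n + 1 ∨ m = 4 * n + 2 := by omega
         rcases this with h | h | h <;> simp [h])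

theorem mem_play (μ : ℕ → Bool) (k m : ℕ) : m ∈ play I0 ans N μ k ↔
    (m < 4 * N ∧ m ∉ I0) ∨ (4 * N ≤ m ∧ m % 4 ≠ 3 ∧ m < 4 * (N + k)) ∨
      (m % 4 = 3 ∧ 4 * N + 7 ≤ m ∧ m < 4 * (N + k) + 4) := by
  induction k with
  | zero =>
    simp only [play, List.mem_filter, List.mem_range, decide_eq_true_eq]
    constructor
    · exact Or.inl
    · rintro (h | h | h)
      · exact h
      · omega
      · omega
  | succ k ih =>
    rw [play, List.mem_cons, mem_l3, ih]
    constructor
    · rintro (h | (h | h | h) | h)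
      · right; right; omega
      · exact Or.inl h
      · right; left; omega
      · right; right; omega
      · right; left; omega
    · rintro (h | h | h)
      · exact Or.inr (Or.inl (Or.inl h))
      · by_cases h' : m < 4 * (N + k)
        · exact Or.inr (Or.inl (Or.inr (Or.inl (by omega))))
        · exact Or.inr (Or.inr (by omega))
      · by_cases h' : m < 4 * (N + k) + 4
        · exact Or.inr (Or.inl (Or.inr (Or.inr (by omega))))
        · exact Or.inl (by omega)

theorem nodup_l2 {μ : Bool} {n : ℕ} {L : List ℕ} (hL : L.Nodup)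
    (h : ∀ m ∈ L, ¬ (4 * n ≤ m ∧ m < 4 * n + 3)) : (l2 ans μ n L).Nodup ∧
      4 * n + q3 μ (ans (l1 μ n L)) ∉ l2 ans μ n L := by
  simp only [l2]
  have hf := q_facts μ (ans (l1 μ n L))
  generalize ans (l1 μ n L) = a at hf ⊢
  simp only [l1]
  refine ⟨List.nodup_cons.2 ⟨?_, List.nodup_cons.2 ⟨?_, hL⟩⟩, ?_⟩
  · intro h'
    rcases List.mem_cons.1 h' with h' | h'
    · omega
    · exact h _ h' (by omega)
  · intro h'
    exact h _ h' (by omega)
  · intro h'
    rcases List.mem_cons.1 h' with h' | h'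
    · omega
    rcases List.mem_cons.1 h' with h' | h'
    · omega
    · exact h _ h' (by omega)

theorem nodup_play (μ : ℕ → Bool) (k : ℕ) : (play I0 ans N μ k).Nodup := by
  induction k with
  | zero => exact List.nodup_range.filter _
  | succ k ih =>
    have h1 := nodup_l2 ans (μ := μ k) (n := N + k) ih (fun m hm h' => by
      rw [mem_play] at hm
      omega)
    rw [play]
    refine List.nodup_cons.2 ⟨?_, List.nodup_cons.2 ⟨h1.2, h1.1⟩⟩
    intro h'
    rw [mem_l3, mem_play] at h'
    omega

theorem play_suffix (μ : ℕ → Bool) (k : ℕ) :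
    l3 ans (μ k) (N + k) (play I0 ans N μ k) <:+ play I0 ans N μ (k + 1) ∧
    l2 ans (μ k) (N + k) (play I0 ans N μ k) <:+ play I0 ans N μ (k + 1) ∧
    l1 (μ k) (N + k) (play I0 ans N μ k) <:+ play I0 ans N μ (k + 1) ∧
    play I0 ans N μ k <:+ play I0 ans N μ (k + 1) := by
  have h3 : l3 ans (μ k) (N + k) (play I0 ans N μ k) <:+ play I0 ans N μ (k + 1) :=
    List.suffix_cons _ _
  have h2 : l2 ans (μ k) (N + k) (play I0 ans N μ k) <:+ play I0 ans N μ (k + 1) :=
    (List.suffix_cons _ _).trans h3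
  have h1 : l1 (μ k) (N + k) (play I0 ans N μ k) <:+ play I0 ans N μ (k + 1) :=
    (List.suffix_cons _ _).trans h2
  exact ⟨h3, h2, h1, (List.suffix_cons _ _).trans h1⟩

theorem le_length_play (μ : ℕ → Bool) (k : ℕ) : k ≤ (play I0 ans N μ k).length := by
  induction k with
  | zero => exact Nat.zero_le _
  | succ k ih =>
    have := (play_suffix I0 ans N μ k).2.2.2.length_le
    have h2 : (play I0 ans N μ (k + 1)).length =
      (l3 ans (μ k) (N + k) (play I0 ans N μ k)).length + 1 := rfl
    have h3 : (l3 ans (μ k) (N + k) (play I0 ans N μ k)).length =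
      (play I0 ans N μ k).length + 3 := rfl
    omega

/-- the sequences compatible with the play in which every block takes the value of its mode -/
def Comp (μ : ℕ → Bool) : Set (ℕ → Bool) :=
  {t | (∀ m ∈ I0, t m = t0 m) ∧ (∀ k m l, (m :: l) <:+ play I0 ans N μ k → t m = ans (m :: l)) ∧
    ∀ k, yv t (N + k) = q1 (μ k)}

theorem mem_suffix {α : Type} {L : List α} {m : α} (h : m ∈ L) : ∃ l, (m :: l) <:+ L := by
  obtain ⟨s, r, rfl⟩ := List.append_of_mem h
  exact ⟨r, s, rfl⟩

theorem comp_countable (μ : ℕ → Bool) : (Comp I0 t0 ans N μ).Countable := by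
  have h1 : Set.InjOn (fun t : ℕ → Bool => t (4 * N + 3)) (Comp I0 t0 ans N μ) := by
    intro t ht t' ht' heq
    funext m
    by_cases hm : m ∈ I0
    · rw [ht.1 m hm, ht'.1 m hm]
    by_cases hm2 : m = 4 * N + 3
    · rw [hm2]; exact heq
    · have h2 : m ∈ play I0 ans N μ (m + 1) := by
        rw [mem_play]
        by_cases hm3 : m < 4 * N
        · exact Or.inl ⟨hm3, hm⟩
        · right
          by_cases hm4 : m % 4 = 3
          · right; omega
          · left; omega
      obtain ⟨l, hl⟩ := mem_suffix h2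
      rw [ht.2.1 _ m l hl, ht'.2.1 _ m l hl]
  exact Set.countable_of_injective_of_countable_image h1 (Set.to_countable _)

/-- the codes attached to the modes `μ` -/
def DI (μ : ℕ → Bool) : Set ((ℕ → ℕ) × (ℕ → Bool)) := code '' Comp I0 t0 ans N μ

theorem DI_countable (μ : ℕ → Bool) : (DI I0 t0 ans N μ).Countable :=
  (comp_countable I0 t0 ans N μ).image _

theorem DI_inj {μ μ' : ℕ → Bool} {x : (ℕ → ℕ) × (ℕ → Bool)} (h : x ∈ DI I0 t0 ans N μ)
    (h' : x ∈ DI I0 t0 ans N μ') : μ = μ' := by
  obtain ⟨t, ht, rfl⟩ := h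
  obtain ⟨t', ht', heq⟩ := h'
  funext k
  have h1 := ht.2.2 k
  have h2 := ht'.2.2 k
  have h3 := congrFun (congrArg Prod.fst heq) (N + k)
  simp only [code] at h3
  rw [h1, h2] at h3
  cases hk : μ k <;> cases hk' : μ' k <;> rw [hk, hk'] at h3 <;> simp [q1] at h3

/-- a winning answering function meets the set of codes in every mode -/
theorem idx_hit {Y : Set ((ℕ → ℕ) × (ℕ → Bool))} (hw : IWin (TY Y) I0 t0 ans)
    (hI : ∀ m ∈ I0, m < 4 * N) (μ : ℕ → Bool) : (DI I0 t0 ans N μ ∩ Y).Nonempty := by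
  classical
  have havoid : ∀ k, ∀ m ∈ play I0 ans N μ k, m ∉ I0 := by
    intro k m hm h'
    rw [mem_play] at hm
    have := hI m h'
    rcases hm with hm | hm | hm
    · exact hm.2 h'
    · omega
    · omega
  -- the first two answers coincide
  have hA : ∀ k, ans (l2 ans (μ k) (N + k) (play I0 ans N μ k)) =
      ans (l1 (μ k) (N + k) (play I0 ans N μ k)) := by
    intro k
    by_contra hne
    set P := play I0 ans N μ k with hP
    set a := ans (l1 (μ k) (N + k) P) with ha
    set c := 4 * (N + k) + q3 (μ k) a with hc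
    have h1 := nodup_l2 ans (μ := μ k) (n := N + k) (nodup_play I0 ans N μ k) (fun m hm h' => by
      rw [mem_play] at hm
      omega)
    rw [← hP] at h1
    have hcP : c ∉ l2 ans (μ k) (N + k) P := h1.2
    have hcI : c ∉ I0 := fun h' => by have := hI _ h'; omega
    have hinf : {m : ℕ | m ∉ I0 ∧ m ≠ c}.Infinite := by
      have h2 : (Set.Ioi (4 * N + c)).Infinite := Set.Ioi_infinite _
      refine h2.mono fun m hm => ?_
      simp only [Set.mem_Ioi] at hm
      exact ⟨fun h' => by have := hI _ h'; omega, by omega⟩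
    obtain ⟨L, g0, g1, g3, g4, g5, g2⟩ := exh h1.1 hinf
    have hl2I : ∀ m ∈ l2 ans (μ k) (N + k) P, m ∉ I0 := by
      intro m hm h'
      have h2 : m ∈ l3 ans (μ k) (N + k) P := List.mem_cons_of_mem _ hm
      rw [mem_l3] at h2
      rcases h2 with h2 | h2
      · exact havoid k m h2 h'
      · have := hI _ h'; omega
    obtain ⟨t, ht, t', ht', h5, h6⟩ := hw L g1 g2 g3 (fun n m hm => by
      rcases g4 n m hm with h | h
      · exact hl2I m h
      · exact h.1) c hcI (fun n hn => by
      rcases g4 n c hn with h | h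
      · exact hcP h
      · exact h.2 rfl)
    have h7 : ∀ m, m ≠ c → t' m = t m := by
      intro m hm
      by_cases hmI : m ∈ I0
      · rw [(h5 m hmI).1, (h5 m hmI).2]
      · obtain ⟨n, hn⟩ := g5 m ⟨hmI, hm⟩
        obtain ⟨l, hl⟩ := mem_suffix hn
        rw [(h6 n m l hl).1, (h6 n m l hl).2]
    have hs2 : l2 ans (μ k) (N + k) P <:+ L 0 := by rw [g0]
    have hs1 : l1 (μ k) (N + k) P <:+ L 0 := (List.suffix_cons _ _).trans hs2
    have h8 : t (4 * (N + k) + q1 (μ k)) = a := (h6 0 _ _ hs1).1
    have h9 := (h6 0 _ _ hs2).1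
    have h10 : t (4 * (N + k) + q2 (μ k) a) = ans (l2 ans (μ k) (N + k) P) := h9
    have h11 := val_irrel (t' := t') h8 h10 hne h7
    have hq := q_facts (μ k) a
    have h12 : yv t' = yv t := by
      funext n
      by_cases hn : n = N + k
      · rw [hn]; exact h11
      · simp only [yv]
        rw [h7 _ (by omega), h7 _ (by omega), h7 _ (by omega)]
    have h13 : code t' = code t := by
      simp only [code]
      rw [h12]
      congr 1
      funext n
      exact h7 _ (by omega)
    apply ht'
    refine ⟨?_, ?_⟩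
    · rw [h12]; exact ht.1
    · rw [h13]; exact ht.2
  obtain ⟨t, ht, t', ht', h5, h6⟩ := hw (play I0 ans N μ)
    (fun n => (play_suffix I0 ans N μ n).2.2.2) (fun k => ⟨k, le_length_play I0 ans N μ k⟩)
    (nodup_play I0 ans N μ) havoid (4 * N + 3) (fun h' => by have := hI _ h'; omega)
    (fun n hn => by
      rw [mem_play] at hn
      omega)
  refine ⟨code t, ⟨t, ⟨fun m hm => (h5 m hm).1, fun k m l hl => (h6 k m l hl).1, ?_⟩, rfl⟩, ht.2⟩
  intro k
  have h1 := (h6 (k + 1) _ _ (play_suffix I0 ans N μ k).2.2.1).1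
  have h2 := (h6 (k + 1) _ _ (play_suffix I0 ans N μ k).2.1).1
  have h3 := hA k
  simp only [l2] at h3
  rw [h3] at h2
  exact val_eq h1 h2 (ht.1 _)

end

end Pool.Agent.X200.Gq
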