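import Mathlib
import Pool.Agent.X200.GqIdx

/-!
Hider's plan against a strategy of Seeker.
-/

set_option autoImplicit false

namespace Pool.Agent.X200.Gq

open Role

/-- the fixed numbering -/
def π0 : ℕ ≃ Role := Role.equivNat.symm

theorem same_h {a : Role} (ha : Same h a) : a = h := by
  rcases ha with ha | ⟨ha, -⟩
  · exact ha.symm
  · exact absurd rfl ha.ne_h

theorem same_p {a : Role} {i : ℕ} (ha : Same (p i) a) : a = p i := by
  rcases ha with ha | ⟨ha, -⟩
  · exact ha.symm
  · exact absurd rfl (ha.ne_p i)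

theorem rigid' {t t' : ℕ → Bool} {π π' : ℕ ≃ Role}
    (hle : ∀ a b, (Md t π).Adj a b → (Md t' π').Adj a b) (a : ℕ) : Same (π a) (π' a) := by
  have h1 := rigid (t := t) (t' := t') (π.symm.trans π') (fun r r' hr => by
    have h2 := hle (π.symm r) (π.symm r') (by
      rw [Md_adj]
      simpa using hr)
    exact h2) (π a)
  simpa using h1

theorem mem_ST {T : Set (ℕ → Bool)} {t : ℕ → Bool} {π : ℕ ≃ Role} (h : Md t π ∈ ST T) :
    t ∈ T := by
  obtain ⟨t', ht', π', heq⟩ := h
  have h1 := rigid' (t := t) (t' := t') (π := π) (π' := π') (fun a b hab => by rwa [heq] at hab)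
  have h2 : t = t' := by
    funext m
    have h3 : (Md t π).Adj (π.symm h) (π.symm (p (2 * m + 1))) ↔ t m = true := by
      rw [Md_adj]
      simp only [Equiv.apply_symm_apply]
      exact RA_flex
    have h4 : π' (π.symm h) = h := same_h (by simpa using h1 (π.symm h))
    have h5 : π' (π.symm (p (2 * m + 1))) = p (2 * m + 1) :=
      same_p (by simpa using h1 (π.symm (p (2 * m + 1))))
    rw [heq, Md_adj, h4, h5, RA_flex] at h3
    cases hb : t m <;> cases hb' : t' m <;> simp_all
  rw [h2]
  exact ht'

/-- the graph toggled at a pair -/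
def tog (G : SimpleGraph ℕ) (w : Pair) : SimpleGraph ℕ where
  Adj a b := a ≠ b ∧ ((s(a, b) = w.1 ∧ ¬ G.Adj a b) ∨ (s(a, b) ≠ w.1 ∧ G.Adj a b))
  symm := ⟨fun a b hab => ⟨hab.1.symm, by
    rw [Sym2.eq_swap, SimpleGraph.adj_comm]
    exact hab.2⟩⟩
  loopless := ⟨fun a ha => ha.1 rfl⟩

theorem tog_mem {G : SimpleGraph ℕ} {w x : Pair} (hx : x ≠ w) :
    x.1 ∈ (tog G w).edgeSet ↔ x.1 ∈ G.edgeSet := by
  obtain ⟨a, b, hab, rfl⟩ := exists_pr x
  have h1 : s(a, b) ≠ w.1 := fun h' => hx (Subtype.ext ((pr_val hab).trans h'))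
  rw [pr_val hab, SimpleGraph.mem_edgeSet, SimpleGraph.mem_edgeSet]
  simp [tog, hab, h1]

theorem tog_adj {G : SimpleGraph ℕ} {a b : ℕ} (hab : a ≠ b) :
    (tog G (pr a b)).Adj a b ↔ ¬ G.Adj a b := by
  simp [tog, hab, pr_val hab]

theorem tog_adj' {G : SimpleGraph ℕ} {w : Pair} {a b : ℕ} (hab : a ≠ b) (hw : pr a b ≠ w) :
    (tog G w).Adj a b ↔ G.Adj a b := by
  have := tog_mem (G := G) hw
  rwa [pr_val hab, SimpleGraph.mem_edgeSet, SimpleGraph.mem_edgeSet] at this

theorem tog_notMem {T : Set (ℕ → Bool)} {t : ℕ → Bool} {π : ℕ ≃ Role} {a b : ℕ} (hab : a ≠ b)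
    (hf : ¬ Flex (π a) (π b)) : tog (Md t π) (pr a b) ∉ ST T := by
  rintro ⟨t', ht', π', heq⟩
  have h1 := tog_adj (G := Md t π) hab
  rw [heq] at h1
  have hother : ∀ c d, pr c d ≠ pr a b → c ≠ d → ((Md t' π').Adj c d ↔ (Md t π).Adj c d) := by
    intro c d hcd hne
    rw [← heq]
    exact tog_adj' hne hcd
  have hsame : ∀ x, Same (π x) (π' x) := by
    by_cases hadj : (Md t π).Adj a b
    · have hle : ∀ c d, (Md t' π').Adj c d → (Md t π).Adj c d := by
        intro c d hcd
        by_cases h2 : pr c d = pr a b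
        · have h3 : s(c, d) = s(a, b) := by
            rw [← pr_val hcd.ne, ← pr_val hab, h2]
          have h4 : s(c, d) ∈ (Md t π).edgeSet := by
            rw [h3]
            exact hadj
          exact h4
        · exact (hother c d h2 hcd.ne).1 hcd
      exact fun x => same_symm (rigid' hle x)
    · have hle : ∀ c d, (Md t π).Adj c d → (Md t' π').Adj c d := by
        intro c d hcd
        by_cases h2 : pr c d = pr a b
        · exfalso
          have h3 : s(c, d) = s(a, b) := by
            rw [← pr_val hcd.ne, ← pr_val hab, h2]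
          have h4 : s(c, d) ∈ (Md t π).edgeSet := hcd
          rw [h3] at h4
          exact hadj h4
        · exact (hother c d h2 hcd.ne).2 hcd
      exact fun x => rigid' hle x
  have h2 := RA_same (t := t) (t' := t') (hsame a) (hsame b) (fun h' => hab (π.injective h'))
    (fun h' => hab (π'.injective h')) hf
  rw [Md_adj, Md_adj] at h1
  tauto

/-- the flexible pairs -/
def fl (m : ℕ) : Pair := pr (π0.symm h) (π0.symm (p (2 * m + 1)))

theorem fl_ne (m : ℕ) : π0.symm h ≠ π0.symm (p (2 * m + 1)) := fun h' => by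
  have := π0.symm.injective h'
  simp at this

theorem fl_inj {m m' : ℕ} (hm : fl m = fl m') : m = m' := by
  have := π0.symm.injective (pr_inj (fl_ne m) (fl_ne m') hm)
  simp only [p.injEq] at this
  omega

/-- the position in the `n`-th block asked first -/
def firstR : Position → ℕ → Option ℕ
  | [], _ => none
  | x :: l, n => match firstR l n with
    | some r => some r
    | none => if x.1 = fl (4 * n) then some 0 else if x.1 = fl (4 * n + 1) then some 1 else
        if x.1 = fl (4 * n + 2) then some 2 else none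

theorem firstR_cons_some {x : Pair × Bool} {l : Position} {n r : ℕ} (h : firstR l n = some r) :
    firstR (x :: l) n = some r := by
  simp [firstR, h]

theorem firstR_cons_none {x : Pair × Bool} {l : Position} {n r : ℕ} (h : firstR l n = none)
    (hr : r < 3) (hx : x.1 = fl (4 * n + r)) : firstR (x :: l) n = some r := by
  have h1 : ∀ s, x.1 = fl (4 * n + s) ↔ s = r := by
    intro s
    rw [hx]
    constructor
    · intro h'
      have := fl_inj h'
      omega
    · rintro rfl
      rfl
  have h0 := h1 0
  rw [add_zero] at h0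
  simp only [firstR, h, h0, h1]
  interval_cases r <;> simp

theorem firstR_spec {l : Position} {n r : ℕ} (h : firstR l n = some r) :
    r < 3 ∧ ∃ x ∈ l, x.1 = fl (4 * n + r) := by
  induction l with
  | nil => simp [firstR] at h
  | cons x l ih =>
    simp only [firstR] at h
    cases hl : firstR l n with
    | some s =>
      rw [hl] at h
      simp only [Option.some.injEq] at h
      subst h
      obtain ⟨h1, y, hy, hy'⟩ := ih hl
      exact ⟨h1, y, List.mem_cons_of_mem _ hy, hy'⟩
    | none =>
      rw [hl] at h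
      simp only at h
      split_ifs at h with h1 h2 h3
      · simp only [Option.some.injEq] at h
        subst h
        exact ⟨by omega, x, List.mem_cons_self, h1⟩
      · simp only [Option.some.injEq] at h
        subst h
        exact ⟨by omega, x, List.mem_cons_self, h2⟩
      · simp only [Option.some.injEq] at h
        subst h
        exact ⟨by omega, x, List.mem_cons_self, h3⟩

open Classical in
/-- the plan of Hider -/
noncomputable def eta (z : ℕ → Bool) (l : Position) (x : Pair) : Bool :=
  if hx : ∃ m, x = fl m then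
    (if hx.choose % 4 = 3 then z (hx.choose / 4)
      else decide (hx.choose % 4 ≠ ((firstR l (hx.choose / 4)).getD (hx.choose % 4) + 1) % 3))
  else decide (x.1 ∈ (Md (fun _ => false) π0).edgeSet)

theorem eta_fl (z : ℕ → Bool) (l : Position) (m : ℕ) : eta z l (fl m) =
    if m % 4 = 3 then z (m / 4)
      else decide (m % 4 ≠ ((firstR l (m / 4)).getD (m % 4) + 1) % 3) := by
  have hx : ∃ m', fl m = fl m' := ⟨m, rfl⟩
  have h1 : hx.choose = m := (fl_inj hx.choose_spec).symm
  rw [eta, dif_pos hx, h1]

/-- the run of `σ` against the plan -/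
noncomputable def rp (σ : Position → Pair) (z : ℕ → Bool) : ℕ → Position
  | 0 => []
  | n + 1 => (σ (rp σ z n), eta z (rp σ z n) (σ (rp σ z n))) :: rp σ z n

theorem mem_possible {G : SimpleGraph ℕ} {e : ℕ → Pair} {c : ℕ → Bool}
    (h : ∀ n, (e n).1 ∈ G.edgeSet ↔ c n = true) : G ∈ possible e c := by
  intro x
  refine ⟨?_, fun hx => ?_⟩
  · rintro ⟨n, rfl, hn⟩
    exact (h n).2 hn
  · by_cases hw : ∃ n, e n = x
    · obtain ⟨n, rfl⟩ := hw
      exact Or.inl ⟨n, rfl, (h n).1 hx⟩
    · push Not at hw
      exact Or.inr hw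

/-- the completed sequence -/
def comp (F : ℕ → ℕ) (z : ℕ → Bool) (m : ℕ) : Bool :=
  if m % 4 = 3 then z (m / 4) else decide (m % 4 ≠ (F (m / 4) + 1) % 3)

theorem comp_z (F : ℕ → ℕ) (z : ℕ → Bool) (n : ℕ) : comp F z (4 * n + 3) = z n := by
  have h1 : (4 * n + 3) % 4 = 3 := by omega
  have h2 : (4 * n + 3) / 4 = n := by omega
  simp [comp, h1, h2]

theorem comp_r (F : ℕ → ℕ) (z : ℕ → Bool) (n r : ℕ) (hr : r < 3) :
    comp F z (4 * n + r) = decide (r ≠ (F n + 1) % 3) := by
  have h1 : (4 * n + r) % 4 = r := by omega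
  have h2 : (4 * n + r) / 4 = n := by omega
  have h3 : r ≠ 3 := by omega
  simp [comp, h1, h2, h3]

theorem comp_yv {F : ℕ → ℕ} {z : ℕ → Bool} {n : ℕ} (hF : F n < 3) : yv (comp F z) n = F n := by
  have h0 := comp_r F z n 0 (by omega)
  rw [add_zero] at h0
  simp only [yv, h0, comp_r F z n 1 (by omega), comp_r F z n 2 (by omega)]
  generalize F n = f at hF
  interval_cases f <;> simp [val]

theorem comp_tog {F : ℕ → ℕ} {z : ℕ → Bool} {n r : ℕ} (hF : F n < 3) (hr : r < 3) (hrF : r ≠ F n) :
    yv (Function.update (comp F z) (4 * n + r) (!comp F z (4 * n + r))) n ≠ F n := by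
  have h0 := comp_r F z n 0 (by omega)
  rw [add_zero] at h0
  have h1 := comp_r F z n 1 (by omega)
  have h2 := comp_r F z n 2 (by omega)
  simp only [yv, Function.update_apply]
  generalize F n = f at hF hrF h0 h1 h2 ⊢
  interval_cases f <;> interval_cases r <;> simp [val, h0, h1, h2] at hrF ⊢

/-- the plan against a strategy of Seeker -/
theorem plan {σ : Position → Pair} (hσ : ∀ l, White l (σ l)) (z : ℕ → Bool) :
    ∃ (e : ℕ → Pair) (c : ℕ → Bool) (t t' : ℕ → Bool), (∀ n, e n = σ (position e c n)) ∧
      (∀ n, yv t n ≠ 3) ∧ (code t).2 = z ∧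
      ((code t').2 = z ∨ ∃ n, (code t').2 = Function.update z n (!z n)) ∧ code t' ≠ code t ∧
      ∀ T : Set (ℕ → Bool), t ∈ T → t' ∉ T → ¬ SeekerWins (ST T) e c := by
  classical
  let e : ℕ → Pair := fun n => σ (rp σ z n)
  let c : ℕ → Bool := fun n => eta z (rp σ z n) (e n)
  have hpos : ∀ n, position e c n = rp σ z n := by
    intro n
    induction n with
    | zero => rfl
    | succ n ih => simp only [position, rp, ih, e, c]
  have hmem : ∀ n x, x ∈ rp σ z n ↔ ∃ j < n, x = (e j, c j) := by
    intro n x
    induction n with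
    | zero => simp [rp]
    | succ n ih =>
      simp only [rp, List.mem_cons, ih]
      constructor
      · rintro (rfl | ⟨j, hj, rfl⟩)
        · exact ⟨n, by omega, rfl⟩
        · exact ⟨j, by omega, rfl⟩
      · rintro ⟨j, hj, rfl⟩
        rcases Nat.lt_succ_iff_lt_or_eq.1 hj with h | rfl
        · exact Or.inr ⟨j, h, rfl⟩
        · exact Or.inl rfl
  have hinj : ∀ i j, i < j → e i ≠ e j := by
    intro i j hij heq
    have h1 := hσ (rp σ z j) (c i)
    apply h1
    rw [hmem]
    exact ⟨i, hij, by rw [heq]⟩
  -- the first positions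
  have hmono : ∀ i j n r, i ≤ j → firstR (rp σ z i) n = some r → firstR (rp σ z j) n = some r := by
    intro i j n r hij h1
    induction j with
    | zero =>
      obtain rfl : i = 0 := by omega
      exact h1
    | succ j ih =>
      rcases Nat.le_succ_iff.1 hij with h2 | rfl
      · exact firstR_cons_some (ih h2)
      · exact h1
  have hans : ∀ j n r, r < 3 → e j = fl (4 * n + r) →
      ∃ r', firstR (rp σ z (j + 1)) n = some r' ∧ c j = decide (r ≠ (r' + 1) % 3) := by
    intro j n r hr hj
    have h1 : (4 * n + r) % 4 = r := by omega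
    have h2 : (4 * n + r) / 4 = n := by omega
    have h3 : r ≠ 3 := by omega
    have h4 : c j = decide (r ≠ ((firstR (rp σ z j) n).getD r + 1) % 3) := by
      simp only [c]
      rw [hj, eta_fl, h1, h2, if_neg h3]
    cases hf : firstR (rp σ z j) n with
    | some s =>
      refine ⟨s, firstR_cons_some hf, ?_⟩
      rw [h4, hf]
      rfl
    | none =>
      refine ⟨r, firstR_cons_none hf hr hj, ?_⟩
      rw [h4, hf]
      rfl
  -- the final value
  have hfin : ∀ d : ℕ → ℕ, (∀ n, d n < 3) → ∃ F : ℕ → ℕ, (∀ n, F n < 3) ∧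
      (∀ j n r, firstR (rp σ z j) n = some r → F n = r) ∧
      ∀ n, (∃ j, e j = fl (4 * n + F n)) ∨ F n = d n := by
    intro d hd
    have h1 : ∀ n, ∃ f, f < 3 ∧ (∀ j r, firstR (rp σ z j) n = some r → f = r) ∧
        ((∃ j, e j = fl (4 * n + f)) ∨ f = d n) := by
      intro n
      by_cases h2 : ∃ j r, firstR (rp σ z j) n = some r
      · obtain ⟨j, r, h2⟩ := h2
        obtain ⟨h3, x, hx, hx'⟩ := firstR_spec h2
        refine ⟨r, h3, ?_, Or.inl ?_⟩
        · intro j' r' h4
          have h5 := hmono j (max j j') n r (le_max_left _ _) h2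
          have h6 := hmono j' (max j j') n r' (le_max_right _ _) h4
          rw [h5] at h6
          exact Option.some.inj h6
        · obtain ⟨i, -, rfl⟩ := (hmem _ _).1 hx
          exact ⟨i, hx'⟩
      · push Not at h2
        exact ⟨d n, hd n, fun j r h3 => absurd h3 (h2 j r), Or.inr rfl⟩
    choose F hF1 hF2 hF3 using h1
    exact ⟨F, hF1, fun j n r => hF2 n j r, hF3⟩
  have hagree : ∀ F : ℕ → ℕ, (∀ j n r, firstR (rp σ z j) n = some r → F n = r) →
      ∀ n, (e n).1 ∈ (Md (comp F z) π0).edgeSet ↔ c n = true := by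
    intro F hF n
    by_cases hx : ∃ m, e n = fl m
    · obtain ⟨m, hm⟩ := hx
      have h1 : (e n).1 ∈ (Md (comp F z) π0).edgeSet ↔ comp F z m = true := by
        rw [hm, fl, pr_val (fl_ne m), SimpleGraph.mem_edgeSet, Md_adj]
        simp only [Equiv.apply_symm_apply]
        exact RA_flex
      rw [h1]
      by_cases h3 : m % 4 = 3
      · have h4 : c n = z (m / 4) := by
          simp only [c]
          rw [hm, eta_fl, if_pos h3]
        rw [h4, comp, if_pos h3]
      · obtain ⟨r', h4, h5⟩ := hans n (m / 4) (m % 4) (by omega) (by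
          rw [hm]
          congr 1
          omega)
        rw [h5, comp, if_neg h3, hF _ _ _ h4]
    · have h4 : c n = decide ((e n).1 ∈ (Md (fun _ => false) π0).edgeSet) := by
        simp only [c]
        rw [eta, dif_neg hx]
      rw [h4, decide_eq_true_eq]
      obtain ⟨a, b, hab, heq⟩ := exists_pr (e n)
      rw [heq, pr_val hab, SimpleGraph.mem_edgeSet, SimpleGraph.mem_edgeSet, Md_adj, Md_adj]
      refine RA_same (Or.inl rfl) (Or.inl rfl) (fun h' => hab (π0.injective h'))
        (fun h' => hab (π0.injective h')) ?_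
      rintro ⟨m, ⟨h5, h6⟩ | ⟨h5, h6⟩⟩
      · refine hx ⟨m, ?_⟩
        rw [heq, fl, ← h5, ← h6]
        simp
      · refine hx ⟨m, ?_⟩
        rw [heq, fl, ← h5, ← h6, pr_comm hab]
        simp
  have hz : ∀ F, (code (comp F z)).2 = z := by
    intro F
    funext n
    exact comp_z F z n
  by_cases hw : ∃ w, ∀ n, e n ≠ w
  swap
  · -- nothing is white
    obtain ⟨F, hF1, -, -⟩ := hfin (fun _ => 0) (fun _ => by omega)
    refine ⟨e, c, comp F z, Function.update (comp F z) 3 (!comp F z 3), fun n => ?_, fun n => ?_,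
      hz F, Or.inr ⟨0, ?_⟩, ?_, ?_⟩
    · rw [hpos]
    · rw [comp_yv (hF1 n)]
      have := hF1 n
      omega
    · funext n
      have h3 := comp_z F z n
      simp only [code, Function.update_apply]
      by_cases hn : n = 0
      · subst hn
        have : comp F z 3 = z 0 := h3
        simp [this]
      · have h4 : 4 * n + 3 ≠ 3 := by omega
        rw [if_neg h4, if_neg hn, h3]
    · intro h1
      have h2 := congrFun (congrArg Prod.snd h1) 0
      simp [code] at h2
    · rintro T - - ⟨⟨w, hw'⟩, -⟩
      exact hw ⟨w, hw'⟩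
  obtain ⟨w, hw⟩ := hw
  by_cases hwf : ∃ m, w = fl m
  · obtain ⟨m, rfl⟩ := hwf
    obtain ⟨F, hF1, hF2, hF3⟩ := hfin (fun _ => (m % 4 + 1) % 3) (fun _ => by omega)
    have hprops : ∀ t' : ℕ → Bool, t' = Function.update (comp F z) m (!comp F z m) →
        ∀ T : Set (ℕ → Bool), comp F z ∈ T → t' ∉ T → ¬ SeekerWins (ST T) e c := by
      rintro t' rfl T hT hT' ⟨-, h1 | h1⟩
      · have h2 : Md (Function.update (comp F z) m (!comp F z m)) π0 ∈ possible e c := by
          refine mem_possible fun n => ?_
          rw [← hagree F hF2 n]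
          obtain ⟨a, b, hab, heq⟩ := exists_pr (e n)
          rw [heq, pr_val hab, SimpleGraph.mem_edgeSet, SimpleGraph.mem_edgeSet, Md_adj, Md_adj]
          by_cases hfx : Flex (π0 a) (π0 b)
          · obtain ⟨m', hm'⟩ := hfx
            have hne : m' ≠ m := by
              rintro rfl
              apply hw n
              rcases hm' with ⟨h5, h6⟩ | ⟨h5, h6⟩
              · rw [heq, fl, ← h5, ← h6]
                simp
              · rw [heq, fl, ← h5, ← h6, pr_comm hab]
                simp
            rcases hm' with ⟨h5, h6⟩ | ⟨h5, h6⟩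
            · rw [h5, h6, RA_flex, RA_flex, Function.update_of_ne hne]
            · rw [h5, h6]
              have h7 : ∀ s : ℕ → Bool, RA s (p (2 * m' + 1)) h ↔ s m' = true := fun s =>
                ⟨fun h8 => RA_flex.1 (RA_symm h8), fun h8 => RA_symm (RA_flex.2 h8)⟩
              rw [h7, h7, Function.update_of_ne hne]
          · exact RA_same (Or.inl rfl) (Or.inl rfl) (fun h' => hab (π0.injective h'))
              (fun h' => hab (π0.injective h')) hfx
        exact hT' (mem_ST (h1 h2))
      · have h2 : Md (comp F z) π0 ∈ possible e c := mem_possible (hagree F hF2)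
        have h3 : Md (comp F z) π0 ∈ possible e c ∩ ST T := ⟨h2, _, hT, _, rfl⟩
        rw [h1] at h3
        exact h3
    refine ⟨e, c, comp F z, Function.update (comp F z) m (!comp F z m), fun n => ?_, fun n => ?_,
      hz F, ?_, ?_, hprops _ rfl⟩
    · rw [hpos]
    · rw [comp_yv (hF1 n)]
      have := hF1 n
      omega
    · by_cases h3 : m % 4 = 3
      · right
        refine ⟨m / 4, ?_⟩
        funext n
        simp only [code, Function.update_apply]
        have h4 := comp_z F z n
        by_cases hn : n = m / 4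
        · have h5 : 4 * n + 3 = m := by omega
          rw [if_pos h5, if_pos hn, ← hn, ← h4, h5]
        · have h5 : 4 * n + 3 ≠ m := by omega
          rw [if_neg h5, if_neg hn, h4]
      · left
        funext n
        simp only [code, Function.update_apply]
        have h5 : 4 * n + 3 ≠ m := by omega
        rw [if_neg h5, comp_z]
    · intro h1
      by_cases h3 : m % 4 = 3
      · have h2 := congrFun (congrArg Prod.snd h1) (m / 4)
        have h5 : 4 * (m / 4) + 3 = m := by omega
        simp only [code, h5, Function.update_self] at h2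
        cases hb : comp F z m <;> rw [hb] at h2 <;> simp at h2
      · have h2 := congrFun (congrArg Prod.fst h1) (m / 4)
        have h5 : 4 * (m / 4) + m % 4 = m := by omega
        have h6 : m % 4 ≠ F (m / 4) := by
          intro h7
          rcases hF3 (m / 4) with ⟨j, hj⟩ | hj
          · rw [← h7, h5] at hj
            exact hw j hj
          · rw [← h7] at hj
            have : m % 4 < 3 := by omega
            omega
        have h7 := comp_tog (z := z) (hF1 (m / 4)) (r := m % 4) (by omega) h6
        rw [h5] at h7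
        simp only [code] at h2
        rw [comp_yv (hF1 _)] at h2
        exact h7 h2
  · obtain ⟨a, b, hab, rfl⟩ := exists_pr w
    obtain ⟨F, hF1, hF2, hF3⟩ := hfin (fun _ => 0) (fun _ => by omega)
    have hnf : ¬ Flex (π0 a) (π0 b) := by
      rintro ⟨m, ⟨h5, h6⟩ | ⟨h5, h6⟩⟩
      · refine hwf ⟨m, ?_⟩
        rw [fl, ← h5, ← h6]
        simp
      · refine hwf ⟨m, ?_⟩
        rw [fl, ← h5, ← h6, pr_comm hab]
        simp
    refine ⟨e, c, comp F z, Function.update (comp F z) 3 (!comp F z 3), fun n => ?_, fun n => ?_,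
      hz F, Or.inr ⟨0, ?_⟩, ?_, ?_⟩
    · rw [hpos]
    · rw [comp_yv (hF1 n)]
      have := hF1 n
      omega
    · funext n
      have h3 := comp_z F z n
      simp only [code, Function.update_apply]
      by_cases hn : n = 0
      · subst hn
        have : comp F z 3 = z 0 := h3
        simp [this]
      · have h4 : 4 * n + 3 ≠ 3 := by omega
        rw [if_neg h4, if_neg hn, h3]
    · intro h1
      have h2 := congrFun (congrArg Prod.snd h1) 0
      simp [code] at h2
    · rintro T hT - ⟨-, h1 | h1⟩
      · have h2 : tog (Md (comp F z) π0) (pr a b) ∈ possible e c := by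
          refine mem_possible fun n => ?_
          rw [← hagree F hF2 n]
          exact tog_mem (hw n)
        exact tog_notMem hab hnf (h1 h2)
      · have h2 : Md (comp F z) π0 ∈ possible e c := mem_possible (hagree F hF2)
        have h3 : Md (comp F z) π0 ∈ possible e c ∩ ST T := ⟨h2, _, hT, _, rfl⟩
        rw [h1] at h3
        exact h3

end Pool.Agent.X200.Gq
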