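import Mathlib
import Pool.Agent.X200.GqPlan

/-!
The selection of the codes and the main theorem.
-/

set_option autoImplicit false

namespace Pool.Agent.X200.Gq

open Cardinal Set

/-- recursion along a well-founded relation with choice -/
theorem exists_rec {W : Type} [Preorder W] [WellFoundedLT W] {D : Type*}
    (P : (α : W) → ((β : W) → β < α → D) → D → Prop)
    (h : ∀ α g, ∃ x, P α g x) : ∃ y : W → D, ∀ α, P α (fun β _ => y β) (y α) := by
  choose f hf using h
  let y : W → D := (wellFounded_lt (α := W)).fix (fun α g => f α g)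
  refine ⟨y, fun α => ?_⟩
  have h1 : y α = f α (fun β _ => y β) := (wellFounded_lt (α := W)).fix_eq _ α
  rw [h1]
  exact hf α _

theorem mk_reals : #(ℕ → Bool) = continuum := by
  simp

theorem select {I X : Type} (hI : #I ≤ continuum) (D : I → (ℕ → Bool) → Set X)
    (h1 : ∀ i s, (D i s).Countable) (h2 : ∀ i x, {s | x ∈ D i s}.Countable) :
    ∃ s : I → (ℕ → Bool), ∀ i j, i ≠ j → Disjoint (D i (s i)) (D j (s j)) := by
  classical
  let W : Type := (continuum : Cardinal.{0}).ord.ToType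
  have hW : #W = continuum := by rw [mk_toType, card_ord]
  obtain ⟨g⟩ : Nonempty (I ↪ W) := by
    rw [← Cardinal.le_def, hW]
    exact hI
  let D' : W → (ℕ → Bool) → Set X := fun w s => {x | ∃ i, g i = w ∧ x ∈ D i s}
  have hD' : ∀ i s, D' (g i) s = D i s := by
    intro i s
    ext x
    constructor
    · rintro ⟨j, hj, hx⟩
      rw [g.injective hj] at hx
      exact hx
    · intro hx
      exact ⟨i, rfl, hx⟩
  have h1' : ∀ w s, (D' w s).Countable := by
    intro w s
    by_cases hw : ∃ i, g i = w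
    · obtain ⟨i, rfl⟩ := hw
      rw [hD']
      exact h1 i s
    · have : D' w s = ∅ := by
        ext x
        simp only [D', mem_ofPred_eq, mem_empty_iff_false, iff_false]
        rintro ⟨i, hi, -⟩
        exact hw ⟨i, hi⟩
      rw [this]
      exact countable_empty
  have h2' : ∀ w x, {s | x ∈ D' w s}.Countable := by
    intro w x
    by_cases hw : ∃ i, g i = w
    · obtain ⟨i, rfl⟩ := hw
      simp only [hD']
      exact h2 i x
    · have : {s | x ∈ D' w s} = ∅ := by
        ext s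
        simp only [D', mem_ofPred_eq, mem_empty_iff_false, iff_false]
        rintro ⟨i, hi, -⟩
        exact hw ⟨i, hi⟩
      rw [this]
      exact countable_empty
  obtain ⟨y, hy⟩ := exists_rec (W := W) (D := ℕ → Bool) (fun w y s =>
      ∀ β hβ, Disjoint (D' w s) (D' β (y β hβ))) (by
    intro w y
    let bad : Iio w → Set (ℕ → Bool) := fun β => ⋃ x ∈ D' β.1 (y β.1 β.2), {s | x ∈ D' w s}
    have hb1 : ∀ β, #(bad β) ≤ ℵ₀ := fun β =>
      ((h1' _ _).biUnion fun x _ => h2' w x).le_aleph0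
    have hb2 : #(⋃ β, bad β : Set (ℕ → Bool)) < continuum := by
      calc #(⋃ β, bad β : Set (ℕ → Bool)) ≤ Cardinal.sum fun β => #(bad β) :=
            mk_iUnion_le_sum_mk
        _ ≤ Cardinal.sum fun _ : Iio w => ℵ₀ := sum_le_sum _ _ hb1
        _ = #(Iio w) * ℵ₀ := by rw [sum_const']
        _ < continuum := mul_lt_of_lt aleph0_le_continuum (mk_Iio_toType_ord_lt w)
            aleph0_lt_continuum
    obtain ⟨s, hs⟩ : ∃ s, s ∉ ⋃ β, bad β := by
      by_contra hcon
      push Not at hcon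
      have h3 : (⋃ β, bad β) = Set.univ := eq_univ_of_forall hcon
      rw [h3, mk_univ, mk_reals] at hb2
      exact lt_irrefl _ hb2
    refine ⟨s, fun β hβ => disjoint_left.2 fun x hx hx' => hs ?_⟩
    exact mem_iUnion.2 ⟨⟨β, hβ⟩, mem_iUnion₂.2 ⟨x, hx', hx⟩⟩)
  refine ⟨fun i => y (g i), fun i j hij => ?_⟩
  have hne : g i ≠ g j := fun h => hij (g.injective h)
  rcases lt_or_gt_of_ne hne with h | h
  · have := hy (g j) (g i) h
    simp only [hD'] at this
    exact this.symm
  · have := hy (g i) (g j) h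
    simp only [hD'] at this
    exact this

theorem mk_fun_le (α β : Type) [Countable α] [Countable β] : #(α → β) ≤ continuum := by
  rw [← power_def, ← aleph0_power_aleph0]
  exact (power_le_power_right (mk_le_aleph0 (α := β))).trans
    (power_le_power_left aleph0_ne_zero (mk_le_aleph0 (α := α)))

/-- the tasks -/
abbrev Tsk : Type := (Position → Pair) ⊕ (Set ℕ × (ℕ → Bool) × (List ℕ → Bool))

theorem mk_tsk : #Tsk ≤ continuum := by
  rw [mk_sum, mk_prod, mk_prod]
  simp only [lift_id]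
  have h1 : #(Position → Pair) ≤ continuum := mk_fun_le _ _
  have h2 : #(Set ℕ) ≤ continuum := by
    rw [mk_set, mk_nat, two_power_aleph0]
  have h3 : #(ℕ → Bool) ≤ continuum := mk_fun_le _ _
  have h4 : #(List ℕ → Bool) ≤ continuum := mk_fun_le _ _
  calc _ ≤ continuum + continuum * (continuum * continuum) :=
        add_le_add h1 (mul_le_mul' h2 (mul_le_mul' h3 h4))
    _ = continuum := by rw [continuum_mul_self, continuum_mul_self, continuum_add_self]

theorem ST_iso {T : Set (ℕ → Bool)} {G H : SimpleGraph ℕ} (φ : G ≃g H) (hG : G ∈ ST T) :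
    H ∈ ST T := by
  obtain ⟨t, ht, π, rfl⟩ := hG
  refine ⟨t, ht, φ.symm.toEquiv.trans π, ?_⟩
  ext a b
  exact (φ.symm.map_adj_iff (v := a) (w := b)).symm

/-- the main theorem -/
theorem main : ∃ S : Set (SimpleGraph ℕ),
    (∀ G H : SimpleGraph ℕ, Nonempty (G ≃g H) → G ∈ S → H ∈ S) ∧
    (¬ ∃ σ : Position → Pair, (∀ l, White l (σ l)) ∧ ∀ (e : ℕ → Pair) (c : ℕ → Bool),
      (∀ n, e n = σ (position e c n)) → SeekerWins S e c) ∧
    ¬ ∃ τ : Position → Pair → Bool, HWin S τ := by
  classical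
  have hplan : ∀ (σ : Position → Pair) (z : ℕ → Bool),
    ∃ (e : ℕ → Pair) (c : ℕ → Bool) (t t' : ℕ → Bool), (∀ l, White l (σ l)) →
      ((∀ n, e n = σ (position e c n)) ∧
      (∀ n, yv t n ≠ 3) ∧ (code t).2 = z ∧
      ((code t').2 = z ∨ ∃ n, (code t').2 = Function.update z n (!z n)) ∧ code t' ≠ code t ∧
      ∀ T : Set (ℕ → Bool), t ∈ T → t' ∉ T → ¬ SeekerWins (ST T) e c) := by
    intro σ z
    by_cases hσ : ∀ l, White l (σ l)
    · obtain ⟨e, c, t, t', h⟩ := plan hσ z
      exact ⟨e, c, t, t', fun _ => h⟩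
    · exact ⟨fun _ => pr 0 1, fun _ => true, fun _ => true, fun _ => true, fun h => absurd h hσ⟩
  choose e c t t' hp using hplan
  let bd : Set ℕ → ℕ := fun I0 => sSup I0 + 1
  let D : Tsk → (ℕ → Bool) → Set ((ℕ → ℕ) × (ℕ → Bool)) := fun i s => match i with
    | Sum.inl σ => {x | (∀ l, White l (σ l)) ∧ (x = code (t σ s) ∨ x = code (t' σ s))}
    | Sum.inr (I0, t0, ans) => DI I0 t0 ans (bd I0) s
  obtain ⟨s, hs⟩ := select mk_tsk D (by
    rintro (σ | ⟨I0, t0, ans⟩) z
    · refine Set.Countable.mono (s₂ := {code (t σ z), code (t' σ z)}) ?_ (Set.to_countable _)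
      rintro x ⟨-, hx⟩
      exact hx
    · exact DI_countable I0 t0 ans (bd I0) z) (by
    rintro (σ | ⟨I0, t0, ans⟩) x
    · have h1 : ({x.2} ∪ range fun n => Function.update x.2 n (!x.2 n)).Countable :=
        (countable_singleton _).union (countable_range _)
      refine h1.mono ?_
      rintro z ⟨hσ, hx⟩
      obtain ⟨-, -, h2, h3, -, -⟩ := hp σ z hσ
      rcases hx with rfl | rfl
      · exact Or.inl h2.symm
      · rcases h3 with h3 | ⟨n, h3⟩
        · exact Or.inl h3.symm
        · right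
          refine ⟨n, ?_⟩
          show Function.update (code (t' σ z)).2 n (!(code (t' σ z)).2 n) = z
          rw [h3]
          simp
    · refine Set.Subsingleton.countable ?_
      intro μ hμ μ' hμ'
      exact DI_inj I0 t0 ans (bd I0) hμ hμ')
  let Y : Set ((ℕ → ℕ) × (ℕ → Bool)) :=
    {x | ∃ σ : Position → Pair, (∀ l, White l (σ l)) ∧ x = code (t σ (s (Sum.inl σ)))}
  refine ⟨ST (TY Y), fun G H hGH hG => ST_iso hGH.some hG, ?_, ?_⟩
  · rintro ⟨σ, hσ, hwin⟩
    obtain ⟨h1, h2, -, -, h3, h4⟩ := hp σ (s (Sum.inl σ)) hσ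
    refine h4 (TY Y) ⟨h2, σ, hσ, rfl⟩ ?_ (hwin _ _ h1)
    rintro ⟨-, σ', hσ', heq⟩
    by_cases hc : σ = σ'
    · subst hc
      exact h3 heq
    · have h5 := hs (Sum.inl σ) (Sum.inl σ') (fun h => hc (Sum.inl.inj h))
      exact disjoint_left.1 h5 (show code (t' σ (s (Sum.inl σ))) ∈ D (Sum.inl σ) (s (Sum.inl σ))
        from ⟨hσ, Or.inr rfl⟩) ⟨hσ', Or.inl heq⟩
  · rintro ⟨τ, hτ⟩
    obtain ⟨I0, t0, ans, hI0, hw⟩ := reduction hτ
    obtain ⟨x, hx1, σ, hσ, hx2⟩ := idx_hit I0 t0 ans (bd I0) hw (fun m hm => by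
      have := le_csSup hI0.bddAbove hm
      simp only [bd]
      omega) (s (Sum.inr (I0, t0, ans)))
    have h5 := hs (Sum.inr (I0, t0, ans)) (Sum.inl σ) (by simp)
    exact disjoint_left.1 h5 hx1 ⟨hσ, Or.inl hx2⟩

end Pool.Agent.X200.Gq
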