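import Mathlib
import Pool.Agent.X200.Del.Fun

/-!
# Project GN, elimination of the fixed points
-/

set_option autoImplicit false

namespace Pool.Agent.X200.Del

open Polynomial Finset
open Pool.Agent.X328.GN (Ix nu de hm u0 w0 kap ofc S_DEL)

universe u v w

noncomputable section

/-- the coefficient ring -/
abbrev Rg (d : ℕ) := MvPolynomial (Fin (d + 1) ⊕ Fin (d + 1)) ℤ

def ga (d : ℕ) (i : Fin (d + 1)) : Rg d := MvPolynomial.X (Sum.inl i)
def gb (d : ℕ) (i : Fin (d + 1)) : Rg d := MvPolynomial.X (Sum.inr i)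

/-- `X q - p` -/
def FX {A : Type u} [CommRing A] (d : ℕ) (a b : Fin (d + 1) → A) : A[X] :=
  X * ofr d b - ofr d a

theorem map_FX {A : Type u} [CommRing A] {B : Type v} [CommRing B] (f : A →+* B) (d : ℕ)
    (a b : Fin (d + 1) → A) :
    (FX d a b).map f = FX d (fun i => f (a i)) (fun i => f (b i)) := by
  unfold FX
  rw [Polynomial.map_sub, Polynomial.map_mul, map_ofr, map_ofr, map_X]

theorem eval_FX {A : Type u} [CommRing A] (d : ℕ) (a b : Fin (d + 1) → A) (x : A) :
    (FX d a b).eval x = x * (ofr d b).eval x - (ofr d a).eval x := by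
  unfold FX
  rw [eval_sub, eval_mul, eval_X]

theorem natDegree_ofr {A : Type u} [CommRing A] (d : ℕ) (a : Fin (d + 1) → A) :
    (ofr d a).natDegree ≤ d := by
  unfold ofr
  refine natDegree_sum_le_of_forall_le _ _ fun j _ => ?_
  have := j.2
  exact (natDegree_C_mul_X_pow_le (a j) j.1).trans (by omega)

theorem coeff_ofr {A : Type u} [CommRing A] (d : ℕ) (a : Fin (d + 1) → A) :
    (ofr d a).coeff d = a (Fin.last d) := by
  unfold ofr
  rw [finsetSum_coeff, sum_eq_single (Fin.last d)]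
  · rw [coeff_C_mul, coeff_X_pow, Fin.val_last, if_pos rfl, mul_one]
  · intro j _ hj
    rw [coeff_C_mul, coeff_X_pow, if_neg, mul_zero]
    intro h
    apply hj
    ext
    rw [Fin.val_last]
    exact h.symm
  · intro h
    exact absurd (mem_univ _) h

theorem leadingCoeff_FX {A : Type u} [CommRing A] (d : ℕ) (a b : Fin (d + 1) → A)
    (hb : b (Fin.last d) ≠ 0) : (FX d a b).leadingCoeff = b (Fin.last d) := by
  have h1 : (FX d a b).natDegree ≤ d + 1 := by
    unfold FX
    refine (natDegree_sub_le _ _).trans (max_le ?_ ((natDegree_ofr d a).trans (Nat.le_succ d)))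
    refine natDegree_mul_le.trans ?_
    have := natDegree_ofr d b
    have := natDegree_X_le (R := A)
    omega
  have h2 : (FX d a b).coeff (d + 1) = b (Fin.last d) := by
    unfold FX
    rw [coeff_sub, coeff_X_mul, coeff_ofr, coeff_eq_zero_of_natDegree_lt, sub_zero]
    exact Nat.lt_succ_of_le (natDegree_ofr d a)
  have h3 : (FX d a b).natDegree = d + 1 :=
    natDegree_eq_of_le_of_coeff_ne_zero h1 (by rwa [h2])
  rw [leadingCoeff, h3, h2]

/-- roots lift along the specialization -/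
theorem lift_root {A : Type u} [CommRing A] {L : Type v} [Field L] [IsAlgClosed L] {K : Type w}
    [Field K] (j : A →+* L) (hj : Function.Injective j) (ψ : A →+* K) (P : A[X])
    (hP : ∀ x : L, (P.map j).eval x = 0 → ∃ b, j b = x) (hl : ψ P.leadingCoeff ≠ 0) (x : K)
    (hx : (P.map ψ).eval x = 0) : ∃ y : A, ψ y = x ∧ P.eval y = 0 := by
  classical
  have h0 : P.map j ≠ 0 := by
    intro h
    have h1 : P = 0 := map_injective j hj (by rw [h, Polynomial.map_zero])
    rw [h1, leadingCoeff_zero, map_zero] at hl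
    exact hl rfl
  let g : L → A := fun r => if h : ∃ b, j b = r then h.choose else 0
  have hg : ∀ r ∈ (P.map j).roots, j (g r) = r := by
    intro r hr
    have h1 : ∃ b, j b = r := hP r ((mem_roots h0).1 hr)
    show j (if h : ∃ b, j b = r then h.choose else 0) = r
    rw [dif_pos h1]
    exact h1.choose_spec
  have e1 : P.map j = C ((P.map j).leadingCoeff) * ((P.map j).roots.map (X - C ·)).prod :=
    (IsAlgClosed.splits _).eq_prod_roots
  have hlc : (P.map j).leadingCoeff = j P.leadingCoeff := leadingCoeff_map_of_injective hj P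
  have e2 : P = C P.leadingCoeff * (((P.map j).roots.map g).map (X - C ·)).prod := by
    apply map_injective j hj
    rw [Polynomial.map_mul, map_C, Polynomial.map_multiset_prod, Multiset.map_map, Multiset.map_map]
    conv_lhs => rw [e1, hlc]
    congr 2
    refine Multiset.map_congr rfl fun r hr => ?_
    show X - C r = (X - C (g r)).map j
    rw [Polynomial.map_sub, map_X, map_C, hg r hr]
  have e3 : (P.map ψ).eval x = ψ P.leadingCoeff *
      (((P.map j).roots.map g).map (fun r => x - ψ r)).prod := by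
    conv_lhs => rw [e2]
    rw [Polynomial.map_mul, map_C, Polynomial.map_multiset_prod, Multiset.map_map, eval_mul, eval_C,
      eval_multiset_prod, Multiset.map_map]
    congr 2
    refine Multiset.map_congr rfl fun r _ => ?_
    simp
  rw [e3] at hx
  have h4 := (mul_eq_zero.1 hx).resolve_left hl
  rw [Multiset.prod_eq_zero_iff, Multiset.mem_map] at h4
  obtain ⟨r, hr, hr2⟩ := h4
  refine ⟨r, (sub_eq_zero.1 hr2).symm, ?_⟩
  rw [e2, eval_mul, eval_multiset_prod, Multiset.map_map]
  have : (0 : A) ∈ (((P.map j).roots.map g).map ((fun p => eval r p) ∘ fun x => X - C x)) := by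
    rw [Multiset.mem_map]
    exact ⟨r, hr, by simp⟩
  rw [Multiset.prod_eq_zero this, mul_zero]

theorem phase1 {L : Type} [Field L] [IsAlgClosed L] {d : ℕ} (hd : 2 ≤ d) (ι : Rg d →+* L)
    (hι : Function.Injective ι) (D : MvPolynomial (Ix d) ℤ) (hD : D ≠ 0) :
    ∃ x y z : L, x ≠ y ∧ y ≠ z ∧ x ≠ z ∧
      (FX d (fun i => ι (ga d i)) (fun i => ι (gb d i))).eval x = 0 ∧
      (FX d (fun i => ι (ga d i)) (fun i => ι (gb d i))).eval y = 0 ∧
      (FX d (fun i => ι (ga d i)) (fun i => ι (gb d i))).eval z = 0 ∧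
      (ofr d (fun i => ι (gb d i))).eval z ≠ 0 ∧
      MvPolynomial.aeval (kap d (ofc d (fun i => ι (ga d i))) (ofc d (fun i => ι (gb d i))) x y z) D
        ≠ 0 := by
  obtain ⟨a', b', x', y', z', hxy, hyz, hxz, hx, hy, hz, hb, hqz, hDk⟩ :=
    exists_point (AlgebraicClosure ℚ) hd D hD
  let φ : Rg d →+* AlgebraicClosure ℚ := (MvPolynomial.aeval (R := ℤ) (Sum.elim a' b')).toRingHom
  have hφa : ∀ i, φ (ga d i) = a' i := fun i => MvPolynomial.aeval_X _ _
  have hφb : ∀ i, φ (gb d i) = b' i := fun i => MvPolynomial.aeval_X _ _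
  obtain ⟨B, _, j, ψ, e, hj, hje, hψe, hloc, hint⟩ := ext_hom ι hι φ (gb d (Fin.last d))
    (by rw [hφb]; exact hb)
  have hgb : gb d (Fin.last d) ≠ 0 := MvPolynomial.X_ne_zero _
  let P : B[X] := FX d (fun i => e (ga d i)) (fun i => e (gb d i))
  have hPe : P = (FX d (ga d) (gb d)).map e := (map_FX e d _ _).symm
  have hPj : P.map j = FX d (fun i => ι (ga d i)) (fun i => ι (gb d i)) := by
    show (FX d _ _).map j = _
    rw [map_FX]
    simp only [hje]
  have hPψ : P.map ψ = FX d a' b' := by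
    show (FX d _ _).map ψ = _
    rw [map_FX]
    simp only [hψe, hφa, hφb]
  have hlead : P.leadingCoeff = e (gb d (Fin.last d)) := by
    apply leadingCoeff_FX
    intro h
    have h2 := hψe (gb d (Fin.last d))
    rw [h, map_zero, hφb] at h2
    exact hb h2.symm
  have hlift : ∀ x : AlgebraicClosure ℚ, (ofc d a').eval x = x * (ofc d b').eval x →
      ∃ y : B, ψ y = x ∧ P.eval y = 0 := by
    intro x hx
    refine lift_root j hj ψ P ?_ ?_ x ?_
    · intro r hr
      apply hint
      refine ⟨FX d (ga d) (gb d), ?_, ?_⟩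
      · rw [leadingCoeff_FX d _ _ hgb]
      · rw [hPj] at hr
        rw [eval₂_eq_eval_map, map_FX]
        exact hr
    · rw [hlead, hψe, hφb]
      exact hb
    · rw [hPψ, eval_FX]
      exact sub_eq_zero.2 hx.symm
  obtain ⟨x, rfl, hx2⟩ := hlift x' hx
  obtain ⟨y, rfl, hy2⟩ := hlift y' hy
  obtain ⟨z, rfl, hz2⟩ := hlift z' hz
  have u1 : IsUnit (y - x) := hloc _ (by rw [map_sub]; exact sub_ne_zero.2 hxy.symm)
  have u2 : IsUnit (y - z) := hloc _ (by rw [map_sub]; exact sub_ne_zero.2 hyz)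
  have u3 : IsUnit (z - x) := hloc _ (by rw [map_sub]; exact sub_ne_zero.2 hxz.symm)
  have hbe : (fun i => ψ (e (gb d i))) = b' := by funext i; rw [hψe, hφb]
  have hae : (fun i => ψ (e (ga d i))) = a' := by funext i; rw [hψe, hφa]
  have hbj : (fun i => j (e (gb d i))) = fun i => ι (gb d i) := by funext i; rw [hje]
  have haj : (fun i => j (e (ga d i))) = fun i => ι (ga d i) := by funext i; rw [hje]
  have u4 : IsUnit ((ofr d (fun i => e (gb d i))).eval z) := hloc _ (by
    rw [eval_ofr, hbe]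
    exact hqz)
  obtain ⟨m, n, hm, hn⟩ := exists_mn x y z _ u1 u2 u3 u4
  have k1 := kap_eq ψ d (fun i => e (ga d i)) (fun i => e (gb d i)) x y z m n u1 hm hn
  have k2 := kap_eq j d (fun i => e (ga d i)) (fun i => e (gb d i)) x y z m n u1 hm hn
  rw [hbe, hae] at k1
  rw [hbj, haj] at k2
  have hev : ∀ r : B, P.eval r = 0 →
      (FX d (fun i => ι (ga d i)) (fun i => ι (gb d i))).eval (j r) = 0 := by
    intro r hr
    rw [← hPj, eval_map_apply, hr, map_zero]
  refine ⟨j x, j y, j z, fun h => hxy (congrArg ψ (hj h)), fun h => hyz (congrArg ψ (hj h)),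
    fun h => hxz (congrArg ψ (hj h)), hev x hx2, hev y hy2, hev z hz2, ?_, ?_⟩
  · have := (u4.map j).ne_zero
    rwa [eval_ofr, hbj] at this
  · rw [← k2, ← map_aev]
    rw [← k1, ← map_aev] at hDk
    intro h
    apply hDk
    have h2 : MvPolynomial.aeval
        (kr d (fun i => e (ga d i)) (fun i => e (gb d i)) x z m n) D = 0 :=
      hj (by rw [h, map_zero])
    rw [h2, map_zero]

theorem exists_alg {R : Type} [CommRing R] [IsDomain R]
    (s : AlgebraicClosure (FractionRing R)) :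
    ∃ P : R[X], P ≠ 0 ∧ P.eval₂ ((algebraMap (FractionRing R) (AlgebraicClosure (FractionRing R))).comp
      (algebraMap R (FractionRing R))) s = 0 := by
  have h1 : IsAlgebraic (FractionRing R) s := Algebra.IsAlgebraic.isAlgebraic s
  have h2 : IsAlgebraic R s := (IsFractionRing.isAlgebraic_iff R (FractionRing R) _).2 h1
  obtain ⟨P, hP, hP2⟩ := h2
  refine ⟨P, hP, ?_⟩
  rw [aeval_def] at hP2
  exact hP2

theorem phase2 {L : Type} [Field L] [IsAlgClosed L] {d : ℕ} (hd : 2 ≤ d) (ι : Rg d →+* L)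
    (hι : Function.Injective ι) (halg : ∀ s : L, ∃ P : (Rg d)[X], P ≠ 0 ∧ P.eval₂ ι s = 0)
    (D : MvPolynomial (Ix d) ℤ) (hD : D ≠ 0) :
    ∃ Δ : MvPolynomial (Fin (d + 1) ⊕ Fin (d + 1)) ℤ, Δ ≠ 0 ∧
    ∀ (K : Type u) [Field K] [IsAlgClosed K] [CharZero K] (a b : Fin (d + 1) → K),
    IsCoprime (ofc d a) (ofc d b) → MvPolynomial.aeval (Sum.elim a b) Δ ≠ 0 →
    ∃ x y z : K, x ≠ y ∧ y ≠ z ∧ x ≠ z ∧ (ofc d a).eval x = x * (ofc d b).eval x ∧
      (ofc d a).eval y = y * (ofc d b).eval y ∧ (ofc d a).eval z = z * (ofc d b).eval z ∧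
      MvPolynomial.aeval (kap d (ofc d a) (ofc d b) x y z) D ≠ 0 := by
  obtain ⟨x, y, z, hxy, hyz, hxz, hx, hy, hz, hq, hDk⟩ := phase1 hd ι hι D hD
  choose P hP0 hP using halg
  let v : Fin 8 → L := ![x, y, z, (y - x)⁻¹, (y - z)⁻¹, (z - x)⁻¹,
    ((ofr d (fun i => ι (gb d i))).eval z)⁻¹,
    (MvPolynomial.aeval (kap d (ofc d (fun i => ι (ga d i))) (ofc d (fun i => ι (gb d i))) x y z)
      D)⁻¹]
  let Δ : Rg d := ∏ i, (P (v i)).leadingCoeff
  refine ⟨Δ, Finset.prod_ne_zero_iff.2 fun i _ => leadingCoeff_ne_zero.2 (hP0 _), ?_⟩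
  intro K _ _ _ a b _ hΔ
  let φ : Rg d →+* K := (MvPolynomial.aeval (R := ℤ) (Sum.elim a b)).toRingHom
  have hφa : ∀ i, φ (ga d i) = a i := fun i => MvPolynomial.aeval_X _ _
  have hφb : ∀ i, φ (gb d i) = b i := fun i => MvPolynomial.aeval_X _ _
  obtain ⟨B, _, j, ψ, e, hj, hje, hψe, hloc, hint⟩ := ext_hom ι hι φ Δ hΔ
  have hv : ∀ i, ∃ r : B, j r = v i := fun i =>
    hint _ ⟨P (v i), Finset.dvd_prod_of_mem _ (mem_univ i), hP _⟩
  obtain ⟨x, rfl⟩ : ∃ r : B, j r = x := hv 0
  obtain ⟨y, rfl⟩ : ∃ r : B, j r = y := hv 1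
  obtain ⟨z, rfl⟩ : ∃ r : B, j r = z := hv 2
  have hunit : ∀ r : B, j r ≠ 0 → (∃ s : B, j s = (j r)⁻¹) → IsUnit r := by
    rintro r hr ⟨s, hs⟩
    apply IsUnit.of_mul_eq_one (b := s)
    apply hj
    rw [map_mul, hs, map_one, mul_inv_cancel₀ hr]
  have hbe : (fun i => ψ (e (gb d i))) = b := by funext i; rw [hψe, hφb]
  have hae : (fun i => ψ (e (ga d i))) = a := by funext i; rw [hψe, hφa]
  have hbj : (fun i => j (e (gb d i))) = fun i => ι (gb d i) := by funext i; rw [hje]
  have haj : (fun i => j (e (ga d i))) = fun i => ι (ga d i) := by funext i; rw [hje]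
  have u1 : IsUnit (y - x) := hunit _ (by rw [map_sub]; exact sub_ne_zero.2 hxy.symm)
    (by rw [map_sub]; exact hv 3)
  have u2 : IsUnit (y - z) := hunit _ (by rw [map_sub]; exact sub_ne_zero.2 hyz)
    (by rw [map_sub]; exact hv 4)
  have u3 : IsUnit (z - x) := hunit _ (by rw [map_sub]; exact sub_ne_zero.2 hxz.symm)
    (by rw [map_sub]; exact hv 5)
  have u4 : IsUnit ((ofr d (fun i => e (gb d i))).eval z) := hunit _
    (by rw [eval_ofr, hbj]; exact hq) (by rw [eval_ofr, hbj]; exact hv 6)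
  obtain ⟨m, n, hm, hn⟩ := exists_mn x y z _ u1 u2 u3 u4
  have k1 := kap_eq ψ d (fun i => e (ga d i)) (fun i => e (gb d i)) x y z m n u1 hm hn
  have k2 := kap_eq j d (fun i => e (ga d i)) (fun i => e (gb d i)) x y z m n u1 hm hn
  rw [hbe, hae] at k1
  rw [hbj, haj] at k2
  have hfix : ∀ r : B, (FX d (fun i => ι (ga d i)) (fun i => ι (gb d i))).eval (j r) = 0 →
      (ofc d a).eval (ψ r) = ψ r * (ofc d b).eval (ψ r) := by
    intro r hr
    have h1 : (FX d (fun i => e (ga d i)) (fun i => e (gb d i))).eval r = 0 := by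
      apply hj
      rw [← eval_map_apply, map_FX, haj, hbj, hr, map_zero]
    have h2 : (FX d a b).eval (ψ r) = 0 := by
      rw [← hae, ← hbe, ← map_FX, eval_map_apply, h1, map_zero]
    rw [eval_FX] at h2
    exact (sub_eq_zero.1 h2).symm
  have hD2 : IsUnit (MvPolynomial.aeval
      (kr d (fun i => e (ga d i)) (fun i => e (gb d i)) x z m n) D) := by
    apply hunit
    · rw [map_aev, k2]
      exact hDk
    · rw [map_aev, k2]
      exact hv 7
  refine ⟨ψ x, ψ y, ψ z, ?_, ?_, ?_, hfix x hx, hfix y hy, hfix z hz, ?_⟩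
  · intro h
    have := (u1.map ψ).ne_zero
    rw [map_sub, h, sub_self] at this
    exact this rfl
  · intro h
    have := (u2.map ψ).ne_zero
    rw [map_sub, h, sub_self] at this
    exact this rfl
  · intro h
    have := (u3.map ψ).ne_zero
    rw [map_sub, h, sub_self] at this
    exact this rfl
  · rw [← k1, ← map_aev]
    exact (hD2.map ψ).ne_zero

theorem t_DEL : S_DEL.{u} := by
  intro d hd D hD
  refine phase2 hd ((algebraMap (FractionRing (Rg d)) (AlgebraicClosure (FractionRing (Rg d)))).comp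
    (algebraMap (Rg d) (FractionRing (Rg d)))) ?_ exists_alg D hD
  exact (algebraMap (FractionRing (Rg d)) _).injective.comp (IsFractionRing.injective _ _)

end

end Pool.Agent.X200.Del
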