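import Mathlib
import Pool.Agent.X200.Del
import Pool.Agent.X200.Del.Nrm
import Pool.Agent.X200.Del.Pt2
import Pool.Agent.X200.Del.Clr

/-!
# Project GN, elimination of the fixed points, keeping the class of `X ^ d`
-/

set_option autoImplicit false

namespace Pool.Agent.X200.Del2

open Polynomial Finset Pool.Agent.X200.Del
open Pool.Agent.X328.GN (Ix nu de hm u0 w0 kap ofc az bz S_DEL2)

universe u v w

noncomputable section

theorem main {L : Type} [Field L] [IsAlgClosed L] {d : ℕ} (hd : 2 ≤ d) {A : Type} [CommRing A]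
    [IsDomain A] [IsIntegrallyClosed A] [Algebra (Rg d) A] [IsLocalization.Away (gb d (Fin.last d)) A]
    [Algebra A L] (hinj : Function.Injective (algebraMap A L))
    (D : MvPolynomial (Ix d) ℤ) (hD : MvPolynomial.aeval (fun _ => (0 : ℤ)) D ≠ 0) :
    ∃ Δ : MvPolynomial (Fin (d + 1) ⊕ Fin (d + 1)) ℤ,
  MvPolynomial.aeval (Sum.elim (az d) (bz d)) Δ ≠ 0 ∧
  ∀ (K : Type u) [Field K] [IsAlgClosed K] [CharZero K] (a b : Fin (d + 1) → K),
    IsCoprime (ofc d a) (ofc d b) → MvPolynomial.aeval (Sum.elim a b) Δ ≠ 0 →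
    ∃ x y z : K, x ≠ y ∧ y ≠ z ∧ x ≠ z ∧ (ofc d a).eval x = x * (ofc d b).eval x ∧
      (ofc d a).eval y = y * (ofc d b).eval y ∧ (ofc d a).eval z = z * (ofc d b).eval z ∧
      MvPolynomial.aeval (kap d (ofc d a) (ofc d b) x y z) D ≠ 0 := by
  let M := AlgebraicClosure ℚ
  let α : ℚ →+* M := algebraMap ℚ M
  let φq : Rg d →+* ℚ := (MvPolynomial.aeval (R := ℤ) (Sum.elim (az d) (bz d))).toRingHom
  let φ₀ : Rg d →+* M := α.comp φq
  have hφa : ∀ i, φ₀ (ga d i) = α (az d i) := fun i => congrArg α (MvPolynomial.aeval_X _ _)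
  have hφb : ∀ i, φ₀ (gb d i) = α (bz d i) := fun i => congrArg α (MvPolynomial.aeval_X _ _)
  have hb0 : φ₀ (gb d (Fin.last d)) ≠ 0 := by
    rw [hφb]
    exact bz_last hd
  let φA : A →+* M := IsLocalization.Away.lift (gb d (Fin.last d)) (isUnit_iff_ne_zero.2 hb0)
  have hφA : ∀ r, φA (algebraMap (Rg d) A r) = φ₀ r := fun r => IsLocalization.Away.lift_eq _ _ _
  let Cc := integralClosure A L
  have hAC : Function.Injective (algebraMap A Cc) := by
    intro a b hab
    exact hinj (congrArg Subtype.val hab)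
  obtain ⟨ψ₀, hψ₀⟩ := ext_int hAC φA
  let ca : Fin (d + 1) → Cc := fun i => algebraMap A Cc (algebraMap (Rg d) A (ga d i))
  let cb : Fin (d + 1) → Cc := fun i => algebraMap A Cc (algebraMap (Rg d) A (gb d i))
  have hψa : (fun i => ψ₀ (ca i)) = fun i => α (az d i) := by
    funext i
    show ψ₀ (algebraMap A Cc _) = _
    rw [hψ₀, hφA, hφa]
  have hψb : (fun i => ψ₀ (cb i)) = fun i => α (bz d i) := by
    funext i
    show ψ₀ (algebraMap A Cc _) = _
    rw [hψ₀, hφA, hφb]
  have hcb : cb (Fin.last d) ≠ 0 := by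
    intro h
    have h1 := congrFun hψb (Fin.last d)
    simp only [h, map_zero] at h1
    exact bz_last hd h1.symm
  have hjC : ∀ x : L, IsIntegral A x → ∃ r : Cc, (Cc.val : Cc →+* L) r = x := fun x hx => ⟨⟨x, hx⟩, rfl⟩
  have hub : IsUnit (algebraMap (Rg d) A (gb d (Fin.last d))) :=
    IsLocalization.Away.algebraMap_isUnit _
  have hlift : ∀ x : M, (FX d (fun i => α (az d i)) (fun i => α (bz d i))).eval x = 0 →
      ∃ y : Cc, ψ₀ y = x ∧ (FX d ca cb).eval y = 0 := by
    intro x hx
    refine lift_root (Cc.val : Cc →+* L) (fun r s h => Subtype.ext h) ψ₀ (FX d ca cb) ?_ ?_ x ?_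
    · intro r hr
      apply hjC
      obtain ⟨w, hw⟩ := hub.exists_left_inv
      let PA : A[X] := FX d (fun i => algebraMap (Rg d) A (ga d i)) (fun i => algebraMap (Rg d) A (gb d i))
      have hlc : PA.leadingCoeff = algebraMap (Rg d) A (gb d (Fin.last d)) :=
        leadingCoeff_FX d _ _ hub.ne_zero
      refine ⟨C w * PA, ?_, ?_⟩
      · rw [Monic, leadingCoeff_mul, leadingCoeff_C, hlc, hw]
      · rw [eval₂_mul]
        have : PA.eval₂ (algebraMap A L) r = 0 := by
          rw [eval₂_eq_eval_map, map_FX]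
          rw [map_FX] at hr
          exact hr
        rw [this, mul_zero]
    · rw [leadingCoeff_FX d _ _ hcb]
      have h1 : ψ₀ (cb (Fin.last d)) = α (bz d (Fin.last d)) := congrFun hψb (Fin.last d)
      rw [h1]
      exact bz_last hd
    · rw [map_FX, hψa, hψb]
      exact hx
  have hroot : ∀ x : M, (p1 d : M[X]).eval x = x * (q1 d : M[X]).eval x →
      (FX d (fun i => α (az d i)) (fun i => α (bz d i))).eval x = 0 := by
    intro x hx
    rw [eval_FX]
    have e1 : ofr d (fun i => α (az d i)) = (p1 d : M[X]) := ofc_az d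
    have e2 : ofr d (fun i => α (bz d i)) = (q1 d : M[X]) := ofc_bz d
    rw [e1, e2, hx, sub_self]
  obtain ⟨x, hx1, hx2⟩ := hlift 0 (hroot 0 (fix_zero hd))
  obtain ⟨y, hy1, hy2⟩ := hlift (-1) (hroot (-1) fix_neg)
  obtain ⟨z, hz1, hz2⟩ := hlift 1 (hroot 1 (fix_one hd))
  obtain ⟨s, hs0, hsK⟩ := clear.{0, 0, u} ca cb x y z D
  have hψs : ψ₀ s ≠ 0 := by
    rw [hs0]
    rw [hψa, hψb, hx1, hy1, hz1]
    have e1 : ofc d (fun i => α (az d i)) = (p1 d : M[X]) := ofc_az d
    have e2 : ofc d (fun i => α (bz d i)) = (q1 d : M[X]) := ofc_bz d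
    refine ⟨neg_ne_zero.2 one_ne_zero, ?_, one_ne_zero, ?_, ?_⟩
    · norm_num
    · rw [e2, q1_one hd]
      exact pow_ne_zero _ two_ne_zero
    · rw [e1, e2, kap_one hd]
      intro h
      apply hD
      have h2 := map_aev (Int.castRingHom M) (fun _ : Ix d => (0 : ℤ)) D
      simp only [map_zero] at h2
      rw [h] at h2
      exact (Int.cast_injective (α := M)) (by simpa using h2)
  obtain ⟨c, hc, hcK⟩ := exists_norm.{0, 0, u, 0} hAC s ψ₀ hψs
  obtain ⟨⟨r, t⟩, hrt⟩ := IsLocalization.surj (Submonoid.powers (gb d (Fin.last d))) c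
  obtain ⟨N, hN⟩ := t.2
  have hr : c * algebraMap (Rg d) A (gb d (Fin.last d)) ^ N = algebraMap (Rg d) A r := by
    rw [← map_pow]
    have : (gb d (Fin.last d)) ^ N = (t : Rg d) := hN
    rw [this]
    exact hrt
  refine ⟨r * gb d (Fin.last d), ?_, ?_⟩
  · intro h
    have h1 : φ₀ (r * gb d (Fin.last d)) = 0 := by
      show α (MvPolynomial.aeval (Sum.elim (az d) (bz d)) (r * gb d (Fin.last d))) = 0
      rw [h, map_zero]
    rw [map_mul] at h1
    rcases mul_eq_zero.1 h1 with h2 | h2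
    · rw [← hφA, ← hr, map_mul, map_pow, hφA] at h2
      rw [hψ₀] at hc
      exact (mul_ne_zero hc (pow_ne_zero _ hb0)) h2
    · exact hb0 h2
  · intro K _ _ _ a b _ hΔ
    let φ : Rg d →+* K := (MvPolynomial.aeval (R := ℤ) (Sum.elim a b)).toRingHom
    have hφa' : ∀ i, φ (ga d i) = a i := fun i => MvPolynomial.aeval_X _ _
    have hφb' : ∀ i, φ (gb d i) = b i := fun i => MvPolynomial.aeval_X _ _
    have hΔ' : φ (r * gb d (Fin.last d)) ≠ 0 := hΔ
    rw [map_mul, mul_ne_zero_iff] at hΔ'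
    obtain ⟨hr', hb'⟩ := hΔ'
    let φK : A →+* K := IsLocalization.Away.lift (gb d (Fin.last d)) (isUnit_iff_ne_zero.2 hb')
    have hφK : ∀ r, φK (algebraMap (Rg d) A r) = φ r := fun r => IsLocalization.Away.lift_eq _ _ _
    have hcφ : φK c ≠ 0 := by
      intro h
      have h2 := congrArg φK hr
      rw [map_mul, h, zero_mul, hφK] at h2
      exact hr' h2.symm
    obtain ⟨ψ, hψ, hψs'⟩ := hcK K φK hcφ
    have ha : (fun i => ψ (ca i)) = a := by
      funext i
      show ψ (algebraMap A Cc _) = _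
      rw [hψ, hφK, hφa']
    have hb : (fun i => ψ (cb i)) = b := by
      funext i
      show ψ (algebraMap A Cc _) = _
      rw [hψ, hφK, hφb']
    have h5 := (hsK K ψ).1 hψs'
    rw [ha, hb] at h5
    obtain ⟨q1', q2', q3', q4', q5'⟩ := h5
    have hfix : ∀ r : Cc, (FX d ca cb).eval r = 0 →
        (ofc d a).eval (ψ r) = ψ r * (ofc d b).eval (ψ r) := by
      intro r hr
      have h2 : (FX d a b).eval (ψ r) = 0 := by
        rw [← ha, ← hb, ← map_FX, eval_map_apply, hr, map_zero]
      rw [eval_FX] at h2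
      exact (sub_eq_zero.1 h2).symm
    exact ⟨ψ x, ψ y, ψ z, q1'.symm, q2', q3'.symm, hfix x hx2, hfix y hy2, hfix z hz2, q5'⟩

theorem t_DEL2 : S_DEL2.{u} := by
  intro d hd D hD
  have hgb : gb d (Fin.last d) ≠ 0 := MvPolynomial.X_ne_zero _
  haveI : IsIntegrallyClosed (Localization.Away (gb d (Fin.last d))) :=
    isIntegrallyClosed_of_isLocalization _ (Submonoid.powers (gb d (Fin.last d)))
      (powers_le_nonZeroDivisors_of_noZeroDivisors hgb)
  haveI : IsDomain (Localization.Away (gb d (Fin.last d))) :=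
    IsLocalization.isDomain_localization (powers_le_nonZeroDivisors_of_noZeroDivisors hgb)
  exact main (L := AlgebraicClosure (FractionRing (Localization.Away (gb d (Fin.last d))))) hd
    (A := Localization.Away (gb d (Fin.last d)))
    (by
      rw [IsScalarTower.algebraMap_eq (Localization.Away (gb d (Fin.last d)))
        (FractionRing (Localization.Away (gb d (Fin.last d))))]
      exact (algebraMap (FractionRing (Localization.Away (gb d (Fin.last d)))) _).injective.comp
        (IsFractionRing.injective _ _)) D hD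

end

end Pool.Agent.X200.Del2
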