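import Mathlib

/-!
The Z-Scott function space topology need not be regular.
-/

set_option autoImplicit false

namespace Pool.Agent.X200.ZScott

open Set Topology Filter

/-- the preimages of open sets of `Z` under continuous maps -/
def OZ (Y Z : Type) [TopologicalSpace Y] [TopologicalSpace Z] : Set (Set Y) :=
  {W | ∃ (f : C(Y, Z)) (U : Set Z), IsOpen U ∧ W = f ⁻¹' U}

/-- the Z-Scott open families -/
def ZScott (Y Z : Type) [TopologicalSpace Y] [TopologicalSpace Z] : Set (Set (Set Y)) :=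
  {H | (∀ V ∈ H, IsOpen V) ∧
    (∀ W ∈ H, W ∈ OZ Y Z → ∀ V, IsOpen V → W ⊆ V → V ∈ H) ∧
    (∀ 𝒲 ⊆ OZ Y Z, ⋃₀ 𝒲 ∈ H → ∃ 𝒱 ⊆ 𝒲, 𝒱.Finite ∧ ⋃₀ 𝒱 ∈ H)}

/-- the topology `t_1^Z` on `C(Y, Z)` -/
def t1Z (Y Z : Type) [TopologicalSpace Y] [TopologicalSpace Z] : TopologicalSpace C(Y, Z) :=
  TopologicalSpace.generateFrom
    {S | ∃ H ∈ ZScott Y Z, ∃ U : Set Z, IsOpen U ∧ S = {f : C(Y, Z) | f ⁻¹' U ∈ H}}

section general
variable {Y : Type} [TopologicalSpace Y]

theorem mem_OZ_bool {W : Set Y} : W ∈ OZ Y Bool ↔ IsClopen W := by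
  classical
  constructor
  · rintro ⟨f, U, -, rfl⟩
    exact (isClopen_discrete U).preimage f.continuous
  · intro h
    refine ⟨⟨fun y => decide (y ∈ W), ?_⟩, {true}, isOpen_discrete _, ?_⟩
    · rw [continuous_discrete_rng]
      intro b
      cases b
      · have : (fun y => decide (y ∈ W)) ⁻¹' {false} = Wᶜ := by ext y; simp
        rw [this]; exact h.compl.isOpen
      · have : (fun y => decide (y ∈ W)) ⁻¹' {true} = W := by ext y; simp
        rw [this]; exact h.isOpen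
    · ext y; simp

/-- the characteristic function of a clopen set -/
noncomputable def chi (W : Set Y) (h : IsClopen W) : C(Y, Bool) := by
  classical
  exact ⟨fun y => decide (y ∈ W), by
    rw [continuous_discrete_rng]
    intro b
    cases b
    · have : (fun y => decide (y ∈ W)) ⁻¹' {false} = Wᶜ := by ext y; simp
      rw [this]; exact h.compl.isOpen
    · have : (fun y => decide (y ∈ W)) ⁻¹' {true} = W := by ext y; simp
      rw [this]; exact h.isOpen⟩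

theorem chi_true (W : Set Y) (h : IsClopen W) : chi W h ⁻¹' {true} = W := by
  ext y; simp [chi]

theorem chi_false (W : Set Y) (h : IsClopen W) : chi W h ⁻¹' {false} = Wᶜ := by
  ext y; simp [chi]

theorem up_mem {H : Set (Set Y)} (hH : H ∈ ZScott Y Bool) {W V : Set Y} (hW : W ∈ H)
    (hWc : IsClopen W) (hV : IsOpen V) (h : W ⊆ V) : V ∈ H :=
  hH.2.1 W hW (mem_OZ_bool.2 hWc) V hV h

theorem univ_scott : {W : Set Y | IsOpen W} ∈ ZScott Y Bool :=
  ⟨fun _ h => h, fun _ _ _ _ h _ => h, fun 𝒲 _ _ => ⟨∅, empty_subset _, finite_empty, by simp⟩⟩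

theorem clopen_sUnion_finite {𝒱 : Set (Set Y)} (h : 𝒱.Finite) (h' : ∀ V ∈ 𝒱, IsClopen V) :
    IsClopen (⋃₀ 𝒱) := by
  rw [sUnion_eq_biUnion]
  exact h.isClopen_biUnion h'

theorem inter_scott {H G : Set (Set Y)} (hH : H ∈ ZScott Y Bool) (hG : G ∈ ZScott Y Bool) :
    H ∩ G ∈ ZScott Y Bool := by
  refine ⟨fun V h => hH.1 V h.1, fun W hW hWo V hV h => ⟨hH.2.1 W hW.1 hWo V hV h,
    hG.2.1 W hW.2 hWo V hV h⟩, fun 𝒲 h𝒲 hU => ?_⟩
  obtain ⟨𝒱, h1, h2, h3⟩ := hH.2.2 𝒲 h𝒲 hU.1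
  obtain ⟨𝒱', h1', h2', h3'⟩ := hG.2.2 𝒲 h𝒲 hU.2
  have hc : IsClopen (⋃₀ (𝒱 ∪ 𝒱')) := clopen_sUnion_finite (h2.union h2') fun V hV =>
    mem_OZ_bool.1 (h𝒲 (hV.elim (fun h => h1 h) (fun h => h1' h)))
  refine ⟨𝒱 ∪ 𝒱', union_subset h1 h1', h2.union h2', ?_, ?_⟩
  · exact up_mem hH h3 (clopen_sUnion_finite h2 fun V hV => mem_OZ_bool.1 (h𝒲 (h1 hV))) hc.isOpen
      (sUnion_subset_sUnion subset_union_left)
  · exact up_mem hG h3' (clopen_sUnion_finite h2' fun V hV => mem_OZ_bool.1 (h𝒲 (h1' hV))) hc.isOpen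
      (sUnion_subset_sUnion subset_union_right)

/-- basic open sets -/
def B (H G : Set (Set Y)) : Set C(Y, Bool) := {f | f ⁻¹' {true} ∈ H ∧ f ⁻¹' {false} ∈ G}

theorem clopen_preimage (f : C(Y, Bool)) (U : Set Bool) : IsClopen (f ⁻¹' U) :=
  (isClopen_discrete U).preimage f.continuous

theorem basis {S : Set C(Y, Bool)} (hS : IsOpen[t1Z Y Bool] S) : ∀ f ∈ S,
    ∃ H ∈ ZScott Y Bool, ∃ G ∈ ZScott Y Bool, f ∈ B H G ∧ B H G ⊆ S := by
  induction hS with
  | basic S hS =>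
    obtain ⟨H, hH, U, -, rfl⟩ := hS
    intro f hf
    have hf' : f ⁻¹' U ∈ H := hf
    by_cases ht : true ∈ U <;> by_cases hfa : false ∈ U
    · have hU : U = univ := by ext b; cases b <;> simp [ht, hfa]
      subst hU
      exact ⟨_, univ_scott, _, univ_scott,
        ⟨(clopen_preimage f _).isOpen, (clopen_preimage f _).isOpen⟩, fun g _ => hf'⟩
    · have hU : U = {true} := by ext b; cases b <;> simp [ht, hfa]
      subst hU
      exact ⟨H, hH, _, univ_scott, ⟨hf', (clopen_preimage f _).isOpen⟩, fun g hg => hg.1⟩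
    · have hU : U = {false} := by ext b; cases b <;> simp [ht, hfa]
      subst hU
      exact ⟨_, univ_scott, H, hH, ⟨(clopen_preimage f _).isOpen, hf'⟩, fun g hg => hg.2⟩
    · have hU : U = ∅ := by ext b; cases b <;> simp [ht, hfa]
      subst hU
      exact ⟨_, univ_scott, _, univ_scott,
        ⟨(clopen_preimage f _).isOpen, (clopen_preimage f _).isOpen⟩, fun g _ => hf'⟩
  | univ =>
    intro f _
    exact ⟨_, univ_scott, _, univ_scott,
      ⟨(clopen_preimage f _).isOpen, (clopen_preimage f _).isOpen⟩, subset_univ _⟩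
  | inter S T _ _ ihS ihT =>
    rintro f ⟨hf1, hf2⟩
    obtain ⟨H, hH, G, hG, h1, h2⟩ := ihS f hf1
    obtain ⟨H', hH', G', hG', h1', h2'⟩ := ihT f hf2
    exact ⟨H ∩ H', inter_scott hH hH', G ∩ G', inter_scott hG hG', ⟨⟨h1.1, h1'.1⟩, ⟨h1.2, h1'.2⟩⟩,
      fun g hg => ⟨h2 ⟨hg.1.1, hg.2.1⟩, h2' ⟨hg.1.2, hg.2.2⟩⟩⟩
  | sUnion 𝒮 _ ih =>
    rintro f ⟨S, hS, hf⟩
    obtain ⟨H, hH, G, hG, h1, h2⟩ := ih S hS f hf
    exact ⟨H, hH, G, hG, h1, h2.trans (subset_sUnion_of_mem hS)⟩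

end general

/-- the countable space with one non-isolated point whose neighbourhood filter is `Fin ⊗ Fin` -/
def Y : Type := Option (ℕ × ℕ)

instance : Countable Y := inferInstanceAs (Countable (Option (ℕ × ℕ)))

/-- the column `n` -/
def col (n : ℕ) : Set Y := {y | ∃ m : ℕ, y = some (n, m)}

instance : TopologicalSpace Y where
  IsOpen U := (none : Option (ℕ × ℕ)) ∈ U →
    ∀ᶠ n : ℕ in atTop, ∀ᶠ m : ℕ in atTop, (some (n, m) : Option (ℕ × ℕ)) ∈ U
  isOpen_univ := fun _ => Eventually.of_forall fun _ => Eventually.of_forall fun _ => trivial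
  isOpen_inter := by
    intro U V hU hV h
    filter_upwards [hU h.1, hV h.2] with n h1 h2
    filter_upwards [h1, h2] with m h3 h4
    exact ⟨h3, h4⟩
  isOpen_sUnion := by
    rintro 𝒮 h𝒮 ⟨U, hU, hn⟩
    filter_upwards [h𝒮 U hU hn] with n h1
    filter_upwards [h1] with m h2
    exact ⟨U, hU, h2⟩

/-- the non-isolated point -/
def pt : Y := (none : Option (ℕ × ℕ))

/-- the isolated points -/
def iso (n m : ℕ) : Y := (some (n, m) : Option (ℕ × ℕ))

theorem cases_Y (y : Y) : y = pt ∨ ∃ n m, y = iso n m := by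
  rcases y with _ | ⟨n, m⟩
  · exact Or.inl rfl
  · exact Or.inr ⟨n, m, rfl⟩

theorem iso_ne_pt (n m : ℕ) : iso n m ≠ pt := fun h => Option.some_ne_none _ h

theorem iso_inj {n m n' m' : ℕ} (h : iso n m = iso n' m') : n = n' ∧ m = m' := by
  have h1 : (n, m) = (n', m') := Option.some_injective _ h
  exact ⟨congrArg Prod.fst h1, congrArg Prod.snd h1⟩

theorem isOpen_iff {U : Set Y} : IsOpen U ↔
    (pt ∈ U → ∀ᶠ n : ℕ in atTop, ∀ᶠ m : ℕ in atTop, iso n m ∈ U) := Iff.rfl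

theorem isOpen_of {U : Set Y} (h : pt ∉ U) : IsOpen U := isOpen_iff.2 fun h' => (h h').elim

theorem clopen_singleton (n m : ℕ) : IsClopen ({iso n m} : Set Y) := by
  refine ⟨⟨isOpen_iff.2 fun _ => ?_⟩, isOpen_of fun h => iso_ne_pt n m h.symm⟩
  filter_upwards [eventually_gt_atTop n] with k hk
  refine Eventually.of_forall fun j h => ?_
  exact absurd (iso_inj h).1 hk.ne'

instance : T4Space Y := by
  have h1 : T1Space Y := ⟨fun y => by
    rcases cases_Y y with rfl | ⟨n, m, rfl⟩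
    · exact ⟨isOpen_of fun h => h rfl⟩
    · exact (clopen_singleton n m).1⟩
  have h2 : NormalSpace Y := by
    refine ⟨fun s t hs ht hst => ?_⟩
    by_cases hp : pt ∈ s
    · have hpt : pt ∉ t := fun h => disjoint_left.1 hst hp h
      exact ⟨tᶜ, t, ht.isOpen_compl, isOpen_of hpt, disjoint_left.1 hst, le_rfl,
        disjoint_compl_left⟩
    · exact ⟨s, sᶜ, isOpen_of hp, hs.isOpen_compl, le_rfl,
        fun x hx hxs => disjoint_left.1 hst hxs hx, disjoint_compl_right⟩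
  exact ⟨⟩

/-- the special Scott open family -/
def H0 : Set (Set Y) := {W | IsOpen W ∧ pt ∈ W ∧ ∀ n, ∃ m, iso n m ∈ W}

theorem H0_scott : H0 ∈ ZScott Y Bool := by
  refine ⟨fun V h => h.1, fun W hW _ V hV h => ⟨hV, h hW.2.1, fun n => ?_⟩, fun 𝒲 h𝒲 hU => ?_⟩
  · obtain ⟨m, hm⟩ := hW.2.2 n
    exact ⟨m, h hm⟩
  · obtain ⟨-, ⟨W₀, hW₀, hpt⟩, hn⟩ := hU
    have h1 := isOpen_iff.1 (mem_OZ_bool.1 (h𝒲 hW₀)).isOpen hpt
    obtain ⟨N, hN⟩ := eventually_atTop.1 h1
    choose m W hW hm using hn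
    refine ⟨insert W₀ (W '' Iio N), ?_, ((finite_Iio N).image W).insert W₀, ?_, ?_, ?_⟩
    · rintro V (rfl | ⟨n, _, rfl⟩)
      · exact hW₀
      · exact hW n
    · refine isOpen_sUnion ?_
      rintro V (rfl | ⟨n, _, rfl⟩)
      · exact (mem_OZ_bool.1 (h𝒲 hW₀)).isOpen
      · exact (mem_OZ_bool.1 (h𝒲 (hW n))).isOpen
    · exact ⟨W₀, Or.inl rfl, hpt⟩
    · intro n
      by_cases hnN : n < N
      · exact ⟨m n, W n, Or.inr ⟨n, hnN, rfl⟩, hm n⟩
      · obtain ⟨k, hk⟩ := (hN n (not_lt.1 hnN)).exists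
        exact ⟨k, W₀, Or.inl rfl, hk⟩

/-- for some column there is no finite transversal -/
theorem no_transversal {H : Set (Set Y)} (hH : H ∈ ZScott Y Bool) (hu : univ ∈ H) :
    ∃ n, ∀ T : Set ℕ, T.Finite → ∃ D ∈ H, IsClopen D ∧ ∀ m ∈ T, iso n m ∉ D := by
  by_contra hcon
  push Not at hcon
  choose T hT hT' using hcon
  let W₀ : Set Y := {y | y = pt ∨ ∃ n m, m ∉ T n ∧ y = iso n m}
  have hW₀ : IsClopen W₀ := by
    refine ⟨⟨isOpen_of fun h => h (Or.inl rfl)⟩, isOpen_iff.2 fun _ => ?_⟩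
    refine Eventually.of_forall fun n => ?_
    obtain ⟨b, hb⟩ := (hT n).bddAbove
    filter_upwards [eventually_gt_atTop b] with m hm
    exact Or.inr ⟨n, m, fun h => absurd (hb h) (not_le.2 hm), rfl⟩
  let 𝒲 : Set (Set Y) := {V | V = W₀ ∨ ∃ n m, V = {iso n m}}
  have h𝒲 : 𝒲 ⊆ OZ Y Bool := by
    rintro V (rfl | ⟨n, m, rfl⟩)
    · exact mem_OZ_bool.2 hW₀
    · exact mem_OZ_bool.2 (clopen_singleton n m)
  have hU : ⋃₀ 𝒲 = univ := by
    refine eq_univ_of_forall fun y => ?_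
    rcases cases_Y y with rfl | ⟨n, m, rfl⟩
    · exact ⟨W₀, Or.inl rfl, Or.inl rfl⟩
    · exact ⟨{iso n m}, Or.inr ⟨n, m, rfl⟩, rfl⟩
  obtain ⟨𝒱, h1, h2, h3⟩ := hH.2.2 𝒲 h𝒲 (by rw [hU]; exact hu)
  -- pick a column which contains no singleton from `𝒱`
  have h4 : (⋃ V ∈ 𝒱 \ {W₀}, V).Finite := by
    refine (h2.subset sdiff_subset).biUnion ?_
    rintro V ⟨hV, hV'⟩
    rcases h1 hV with h | ⟨n, m, rfl⟩
    · exact (hV' h).elim
    · exact finite_singleton _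
  obtain ⟨n, hn⟩ : ∃ n, ∀ m, iso n m ∉ ⋃ V ∈ 𝒱 \ {W₀}, V := by
    by_contra hcon
    push Not at hcon
    choose m hm using hcon
    refine h4.not_infinite ((Set.infinite_range_of_injective (f := fun n => iso n (m n)) ?_).mono ?_)
    · intro a b hab
      exact (iso_inj hab).1
    · rintro _ ⟨n, rfl⟩
      exact hm n
  obtain ⟨m, hm, hm'⟩ := hT' n _ h3 (clopen_sUnion_finite h2 fun V hV => mem_OZ_bool.1 (h𝒲 (h1 hV)))
  obtain ⟨V, hV, hmV⟩ := hm'
  by_cases hVW : V = W₀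
  · rw [hVW] at hmV
    rcases hmV with h | ⟨n', m', h, h'⟩
    · exact iso_ne_pt _ _ h
    · obtain ⟨rfl, rfl⟩ := iso_inj h'
      exact h hm
  · exact hn m (mem_iUnion₂.2 ⟨V, ⟨hV, hVW⟩, hmV⟩)

theorem not_regular : ¬ @RegularSpace C(Y, Bool) (t1Z Y Bool) := by
  intro hreg
  let _ := t1Z Y Bool
  have hu : IsClopen (univ : Set Y) := isClopen_univ
  have hS0 : IsOpen {f : C(Y, Bool) | f ⁻¹' {true} ∈ H0} :=
    TopologicalSpace.isOpen_generateFrom_of_mem ⟨H0, H0_scott, {true}, isOpen_discrete _, rfl⟩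
  have hf0 : chi univ hu ∈ {f : C(Y, Bool) | f ⁻¹' {true} ∈ H0} := by
    show chi univ hu ⁻¹' {true} ∈ H0
    rw [chi_true]
    exact ⟨isOpen_univ, trivial, fun n => ⟨0, trivial⟩⟩
  obtain ⟨N, hN, hNc, hNS⟩ := exists_mem_nhds_isClosed_subset (hS0.mem_nhds hf0)
  obtain ⟨H1, hH1, G1, hG1, hfB, hBN⟩ := basis (isOpen_interior (s := N)) _ (mem_interior_iff_mem_nhds.2 hN)
  have hBN' : B H1 G1 ⊆ N := hBN.trans interior_subset
  obtain ⟨hf1, hf2⟩ := hfB
  rw [chi_true] at hf1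
  rw [chi_false, compl_univ] at hf2
  have hG1' : ∀ V, IsOpen V → V ∈ G1 := fun V hV =>
    up_mem hG1 hf2 isClopen_empty hV (empty_subset _)
  obtain ⟨n, hn⟩ := no_transversal hH1 hf1
  let C : Set Y := {y | ∀ m, y ≠ iso n m}
  have hC : IsClopen C := by
    refine ⟨⟨isOpen_of fun h => h fun m hm => iso_ne_pt n m hm.symm⟩, isOpen_iff.2 fun _ => ?_⟩
    filter_upwards [eventually_gt_atTop n] with k hk
    exact Eventually.of_forall fun j m h => absurd (iso_inj h).1 hk.ne'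
  have hcl : chi C hC ∈ closure (B H1 G1) := by
    rw [mem_closure_iff]
    intro S hS hCS
    obtain ⟨H2, hH2, G2, hG2, ⟨h1, h2⟩, h3⟩ := basis hS _ hCS
    rw [chi_true] at h1
    rw [chi_false] at h2
    let 𝒲 : Set (Set Y) := {V | ∃ m, V = {iso n m}}
    have h𝒲 : 𝒲 ⊆ OZ Y Bool := by
      rintro V ⟨m, rfl⟩
      exact mem_OZ_bool.2 (clopen_singleton n m)
    have hU : ⋃₀ 𝒲 = Cᶜ := by
      ext y
      constructor
      · rintro ⟨_, ⟨m, rfl⟩, h⟩ h'
        exact h' m h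
      · intro h
        have h' : ∃ m, y = iso n m := by
          by_contra hcon
          push Not at hcon
          exact h hcon
        obtain ⟨m, rfl⟩ := h'
        exact ⟨{iso n m}, ⟨m, rfl⟩, rfl⟩
    obtain ⟨𝒱, h4, h5, h6⟩ := hG2.2.2 𝒲 h𝒲 (by rw [hU]; exact h2)
    have hK : IsClopen (⋃₀ 𝒱) := clopen_sUnion_finite h5 fun V hV => mem_OZ_bool.1 (h𝒲 (h4 hV))
    have hKC : ⋃₀ 𝒱 ⊆ Cᶜ := by rw [← hU]; exact sUnion_subset_sUnion h4
    have hT : {m | iso n m ∈ ⋃₀ 𝒱}.Finite := by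
      have h7 : (⋃₀ 𝒱).Finite := by
        refine h5.sUnion fun V hV => ?_
        obtain ⟨m, rfl⟩ := h4 hV
        exact finite_singleton _
      exact h7.preimage fun a _ b _ hab => (iso_inj hab).2
    obtain ⟨D, hD, hDc, hDT⟩ := hn _ hT
    refine ⟨chi (C ∪ D) (hC.union hDc), h3 ⟨?_, ?_⟩, ?_, ?_⟩
    · rw [chi_true]
      exact up_mem hH2 h1 hC (hC.union hDc).isOpen subset_union_left
    · rw [chi_false]
      refine up_mem hG2 h6 hK (hC.union hDc).compl.isOpen ?_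
      rintro y hy (hyC | hyD)
      · exact hKC hy hyC
      · have hyC := hKC hy
        have h' : ∃ m, y = iso n m := by
          by_contra hcon
          push Not at hcon
          exact hyC hcon
        obtain ⟨m, rfl⟩ := h'
        exact hDT m hy hyD
    · rw [chi_true]
      exact up_mem hH1 hD hDc (hC.union hDc).isOpen subset_union_right
    · exact hG1' _ (clopen_preimage _ _).isOpen
  have h8 : chi C hC ∈ N := closure_minimal hBN' hNc hcl
  have h9 : chi C hC ⁻¹' {true} ∈ H0 := hNS h8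
  rw [chi_true] at h9
  obtain ⟨m, hm⟩ := h9.2.2 n
  exact hm m rfl

theorem main : ∃ (Y Z : Type) (_ : TopologicalSpace Y) (_ : TopologicalSpace Z),
    Countable Y ∧ T4Space Y ∧ Finite Z ∧ DiscreteTopology Z ∧ CompletelyRegularSpace Z ∧
      ¬ @RegularSpace C(Y, Z) (t1Z Y Z) ∧ ¬ @CompletelyRegularSpace C(Y, Z) (t1Z Y Z) := by
  refine ⟨Y, Bool, inferInstance, inferInstance, inferInstance, inferInstance, inferInstance,
    inferInstance, inferInstance, not_regular, fun h => not_regular ?_⟩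
  let _ := t1Z Y Bool
  exact inferInstance

end Pool.Agent.X200.ZScott
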