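import Mathlib
import Pool.Agent.X200.Luzin

/-!
A product of co-sober spaces that is not co-sober.
-/

set_option autoImplicit false

namespace Pool.Agent.X200.CoSober

open Set Topology Filter

section defs
variable {X : Type*} [TopologicalSpace X]

/-- nonempty compact saturated sets -/
def KSat (G : Set X) : Prop :=
  G.Nonempty ∧ IsCompact G ∧ ∃ S : Set (Set X), (∀ U ∈ S, IsOpen U) ∧ G = ⋂₀ S

/-- k-irreducible sets -/
def KIrr (G : Set X) : Prop :=
  KSat G ∧ ∀ K₁ K₂ : Set X, KSat K₁ → KSat K₂ → G = K₁ ∪ K₂ → G = K₁ ∨ G = K₂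

/-- the upper set of a point in the specialization order -/
def up (x : X) : Set X := {y | x ∈ closure {y}}

variable (X) in
/-- co-sober spaces -/
def CoSober : Prop := T0Space X ∧ ∀ G : Set X, KIrr G → ∃ k : X, G = up k

theorem up_eq [T1Space X] (x : X) : up x = {x} := by
  ext y
  simp only [up, closure_singleton, mem_singleton_iff]
  exact ⟨fun h => h.symm, fun h => h.symm⟩

theorem ksat_of_t1 [T1Space X] {G : Set X} (h1 : G.Nonempty) (h2 : IsCompact G) : KSat G := by
  refine ⟨h1, h2, {U | ∃ x, x ∉ G ∧ U = {x}ᶜ}, ?_, ?_⟩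
  · rintro _ ⟨x, _, rfl⟩
    exact isOpen_compl_singleton
  · ext y
    constructor
    · rintro hy _ ⟨x, hx, rfl⟩ h
      rw [mem_singleton_iff] at h
      exact hx (h ▸ hy)
    · intro h
      by_contra hy
      exact h {y}ᶜ ⟨y, hy, rfl⟩ rfl

/-- T1 spaces in which all subsets are compact are co-sober -/
theorem cosober_of_noeth [T1Space X] (h : ∀ A : Set X, IsCompact A) : CoSober X := by
  refine ⟨inferInstance, fun G hG => ?_⟩
  obtain ⟨x, hx⟩ := hG.1.1
  refine ⟨x, ?_⟩
  rw [up_eq]
  by_cases hne : (G \ {x}).Nonempty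
  · have h1 : G = {x} ∪ G \ {x} := by
      rw [union_sdiff_self, eq_comm, union_eq_right]
      exact singleton_subset_iff.2 hx
    rcases hG.2 {x} (G \ {x}) (ksat_of_t1 (singleton_nonempty x) (h _)) (ksat_of_t1 hne (h _)) h1
      with h2 | h2
    · exact h2
    · exfalso
      have : x ∈ G \ {x} := h2 ▸ hx
      exact this.2 rfl
  · rw [not_nonempty_iff_eq_empty, sdiff_eq_empty] at hne
    exact Subset.antisymm hne (singleton_subset_iff.2 hx)

end defs

/-- the topology generated by the cofinite topology and the complement of `C` -/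
def topC (C : Set ℕ) : TopologicalSpace ℕ where
  IsOpen U := U = ∅ ∨ Uᶜ.Finite ∨ (C ⊆ Uᶜ ∧ (Uᶜ \ C).Finite)
  isOpen_univ := Or.inr (Or.inl (by simp))
  isOpen_inter := by
    rintro U V (rfl | hU | ⟨hU, hU'⟩) (rfl | hV | ⟨hV, hV'⟩)
    · left; simp
    · left; simp
    · left; simp
    · left; simp
    · right; left; rw [compl_inter]; exact hU.union hV
    · right; right; rw [compl_inter]
      refine ⟨hV.trans subset_union_right, ?_⟩
      rw [union_sdiff_distrib]
      exact (hU.subset sdiff_subset).union hV'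
    · left; simp
    · right; right; rw [compl_inter]
      refine ⟨hU.trans subset_union_left, ?_⟩
      rw [union_sdiff_distrib]
      exact hU'.union (hV.subset sdiff_subset)
    · right; right; rw [compl_inter]
      refine ⟨hU.trans subset_union_left, ?_⟩
      rw [union_sdiff_distrib]
      exact hU'.union hV'
  isOpen_sUnion := by
    intro s hs
    by_cases h1 : ∃ U ∈ s, Uᶜ.Finite
    · obtain ⟨U, hU, hU'⟩ := h1
      right; left
      exact hU'.subset (compl_subset_compl.2 (subset_sUnion_of_mem hU))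
    · push Not at h1
      by_cases h2 : ∃ U ∈ s, C ⊆ Uᶜ ∧ (Uᶜ \ C).Finite
      · right; right
        constructor
        · intro c hc
          rintro ⟨V, hV, hcV⟩
          rcases hs V hV with rfl | h | ⟨h, _⟩
          · exact hcV
          · exact h1 V hV h
          · exact h hc hcV
        · obtain ⟨U, hU, -, hU'⟩ := h2
          exact hU'.subset (sdiff_subset_sdiff_left
            (compl_subset_compl.2 (subset_sUnion_of_mem hU)))
      · push Not at h2
        left
        rw [sUnion_eq_empty]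
        intro V hV
        rcases hs V hV with h | h | ⟨h, h'⟩
        · exact h
        · exact (h1 V hV h).elim
        · exact (h2 V hV h h').elim

theorem topC_open {C U : Set ℕ} : IsOpen[topC C] U ↔
    (U = ∅ ∨ Uᶜ.Finite ∨ (C ⊆ Uᶜ ∧ (Uᶜ \ C).Finite)) := Iff.rfl

theorem topC_t1 (C : Set ℕ) : @T1Space ℕ (topC C) := by
  refine @T1Space.mk ℕ (topC C) fun n => ?_
  rw [← @isOpen_compl_iff _ _ (topC C), topC_open, compl_compl]
  exact Or.inr (Or.inl (finite_singleton n))

theorem topC_compact (C A : Set ℕ) : @IsCompact ℕ (topC C) A := by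
  classical
  refine @isCompact_of_finite_subcover ℕ (topC C) A fun {ι} U hU hcov => ?_
  rcases A.eq_empty_or_nonempty with rfl | hne
  · exact ⟨∅, by simp⟩
  -- a point all of whose neighbourhoods are cofinite in `A`
  have h1 : ∃ a ∈ A, ∀ V, IsOpen[topC C] V → a ∈ V → (A \ V).Finite := by
    by_cases hC : (A ∩ C).Nonempty
    · obtain ⟨a, haA, haC⟩ := hC
      refine ⟨a, haA, fun V hV haV => ?_⟩
      rcases hV with rfl | h | ⟨h, _⟩
      · exact haV.elim
      · exact h.subset fun x hx => hx.2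
      · exact (h haC haV).elim
    · obtain ⟨a, ha⟩ := hne
      refine ⟨a, ha, fun V hV haV => ?_⟩
      rcases hV with rfl | h | ⟨_, h⟩
      · exact haV.elim
      · exact h.subset fun x hx => hx.2
      · refine h.subset fun x hx => ⟨hx.2, fun hxC => hC ⟨x, hx.1, hxC⟩⟩
  obtain ⟨a, ha, hfin⟩ := h1
  obtain ⟨i₀, hi₀⟩ := mem_iUnion.1 (hcov ha)
  have h2 := hfin _ (hU i₀) hi₀
  have h3 : ∀ x, ∃ i, x ∈ A → x ∈ U i := by
    intro x
    by_cases hx : x ∈ A
    · obtain ⟨i, hi⟩ := mem_iUnion.1 (hcov hx)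
      exact ⟨i, fun _ => hi⟩
    · exact ⟨i₀, fun h => (hx h).elim⟩
  choose i hi using h3
  refine ⟨insert i₀ (h2.toFinset.image i), fun x hx => ?_⟩
  by_cases hxi : x ∈ U i₀
  · exact mem_iUnion₂.2 ⟨i₀, Finset.mem_insert_self _ _, hxi⟩
  · refine mem_iUnion₂.2 ⟨i x, Finset.mem_insert_of_mem (Finset.mem_image_of_mem i ?_), hi x hx⟩
    exact h2.mem_toFinset.2 ⟨hx, hxi⟩

theorem topC_cosober (C : Set ℕ) : @CoSober ℕ (topC C) :=
  @cosober_of_noeth ℕ (topC C) (topC_t1 C) (topC_compact C)

/-- the factors -/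
def Fac (t : TopologicalSpace ℕ) (_ : {C : Set ℕ // IsClosed[t] C}) : Type := ℕ

instance (t : TopologicalSpace ℕ) (C : {C : Set ℕ // IsClosed[t] C}) :
    TopologicalSpace (Fac t C) := topC C.1

instance (t : TopologicalSpace ℕ) (C : {C : Set ℕ // IsClosed[t] C}) : T1Space (Fac t C) :=
  topC_t1 C.1

/-- the diagonal -/
def diag (t : TopologicalSpace ℕ) (n : ℕ) : ∀ C, Fac t C := fun _ => n

theorem diag_inducing (t : TopologicalSpace ℕ) (ht : @T1Space ℕ t) :
    @Topology.IsInducing ℕ (∀ C, Fac t C) t inferInstance (diag t) := by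
  refine @Topology.IsInducing.mk _ _ t _ _ (le_antisymm ?_ ?_)
  · rw [← continuous_iff_le_induced]
    refine @continuous_pi _ _ _ t _ _ fun C => ?_
    refine @Continuous.mk _ _ t (topC C.1) _ fun U hU => ?_
    show IsOpen[t] U
    have h2 : ∀ F : Set ℕ, F.Finite → IsClosed[t] F := fun F hF => @Set.Finite.isClosed ℕ t ht F hF
    rcases hU with rfl | h | ⟨h, h'⟩
    · exact @isOpen_empty ℕ t
    · have h3 := @IsClosed.isOpen_compl _ t _ (h2 _ h)
      rwa [compl_compl] at h3
    · have h3 : IsClosed[t] (C.1 ∪ (Uᶜ \ C.1)) := @IsClosed.union _ _ _ t C.2 (h2 _ h')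
      rw [union_sdiff_self, union_eq_right.2 h] at h3
      have h4 := @IsClosed.isOpen_compl _ t _ h3
      rwa [compl_compl] at h4
  · intro U hU
    have hUc : IsClosed[t] Uᶜ := by
      rw [@isClosed_compl_iff _ t]; exact hU
    refine ⟨(fun z => z ⟨Uᶜ, hUc⟩) ⁻¹' U, ?_, rfl⟩
    have h1 : IsOpen[topC Uᶜ] U := Or.inr (Or.inr ⟨le_rfl, by simp⟩)
    have h2 : Continuous fun z : ∀ C, Fac t C => z ⟨Uᶜ, hUc⟩ := continuous_apply _
    exact h2.isOpen_preimage U h1

theorem main : ∃ (ι : Type) (X : ι → Type) (_ : ∀ i, TopologicalSpace (X i)),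
    (∀ i, CoSober (X i) ∧ T1Space (X i) ∧ Countable (X i) ∧ ∀ A : Set (X i), IsCompact A) ∧
    ¬ CoSober (∀ i, X i) := by
  obtain ⟨t, ht1, htc, hirr, hkc⟩ := Pool.Agent.X200.Luzin.exists_space
  refine ⟨{C : Set ℕ // IsClosed[t] C}, Fac t, inferInstance,
    fun C => ⟨topC_cosober C.1, topC_t1 C.1, inferInstanceAs (Countable ℕ), topC_compact C.1⟩,
    fun h => ?_⟩
  have hind := diag_inducing t ht1
  have hinj : Function.Injective (diag t) := by
    intro a b hab
    exact congrFun hab ⟨∅, @isClosed_empty ℕ t⟩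
  -- compactness of images
  have hcomp : ∀ K : Set ℕ, @IsCompact ℕ t K ↔ IsCompact (diag t '' K) := fun K =>
    @Topology.IsInducing.isCompact_iff ℕ (∀ C, Fac t C) t _ K (diag t) hind
  have hG : KIrr (range (diag t)) := by
    refine ⟨ksat_of_t1 ⟨_, 0, rfl⟩ ?_, ?_⟩
    · rw [← image_univ, ← hcomp]
      exact @CompactSpace.isCompact_univ ℕ t htc
    · intro K₁ K₂ h1 h2 h12
      have hK : ∀ K : Set (∀ C, Fac t C), KSat K → K ⊆ range (diag t) →
          IsClosed[t] (diag t ⁻¹' K) := by
        intro K hK hsub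
        apply hkc
        rw [hcomp, image_preimage_eq_of_subset hsub]
        exact hK.2.1
      have hs1 : K₁ ⊆ range (diag t) := by rw [h12]; exact subset_union_left
      have hs2 : K₂ ⊆ range (diag t) := by rw [h12]; exact subset_union_right
      have h3 : diag t ⁻¹' K₁ ∪ diag t ⁻¹' K₂ = univ := by
        rw [← preimage_union, ← h12, preimage_range]
      rcases hirr _ _ (hK _ h1 hs1) (hK _ h2 hs2) h3 with h4 | h4
      · left
        refine Subset.antisymm ?_ hs1
        rintro _ ⟨n, rfl⟩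
        have : n ∈ diag t ⁻¹' K₁ := by rw [h4]; trivial
        exact this
      · right
        refine Subset.antisymm ?_ hs2
        rintro _ ⟨n, rfl⟩
        have : n ∈ diag t ⁻¹' K₂ := by rw [h4]; trivial
        exact this
  obtain ⟨k, hk⟩ := h.2 _ hG
  rw [up_eq] at hk
  have h0 : diag t 0 = k := by
    have : diag t 0 ∈ range (diag t) := ⟨0, rfl⟩
    rw [hk] at this; exact this
  have h1 : diag t 1 = k := by
    have : diag t 1 ∈ range (diag t) := ⟨1, rfl⟩
    rw [hk] at this; exact this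
  exact absurd (hinj (h0.trans h1.symm)) (by norm_num)

end Pool.Agent.X200.CoSober
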