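import Pool.Agent.X212.Fill.Main

/-!
A paracompact subspace of a T1 product filling the countable subproducts is the whole product.
-/

namespace Pool.Agent.X200.FillPara

open Set Topology Filter Pool.Agent.Helper330.DPK.Coh Pool.Agent.X212.Fill

universe u v

variable {I : Type u} {X : I → Type v} [∀ i, TopologicalSpace (X i)]

/-- only finitely many members of a locally finite family of open sets meet a slice -/
theorem finite_slice {D : Set (∀ i, X i)} (hD : Fills D)
    (a : ∀ i, X i) {J₀ : Set I} (hJ₀ : J₀.Countable)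
    (hgood : ∀ J : Set I, J.Countable → Disjoint J J₀ → ¬ Bad X J) {ι : Type*} (v : ι → Set D)
    (hvo : ∀ l, IsOpen (v l)) (hvl : LocallyFinite v) :
    {l | ∃ z : D, z ∈ v l ∧ ∀ i ∈ J₀, z.1 i = a i}.Finite := by
  classical
  by_contra hinf
  have hinf' : {l | ∃ z : D, z ∈ v l ∧ ∀ i ∈ J₀, z.1 i = a i}.Infinite := hinf
  let f := hinf'.natEmbedding
  have h1 : ∀ n, ∃ z : D, z ∈ v (f n) ∧ ∀ i ∈ J₀, z.1 i = a i := fun n => (f n).2
  choose w hwv hwa using h1
  have h2 := fun n => exists_box ((hvo (f n)).mem_nhds (hwv n))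
  choose F U hUo hwU hFU using h2
  let J : Set I := (⋃ n, (F n : Set I)) \ J₀
  have hJ : J.Countable := (countable_iUnion fun n => (F n).countable_toSet).mono sdiff_subset
  have hb := hgood J hJ disjoint_sdiff_left
  unfold Bad at hb
  push Not at hb
  obtain ⟨c, hc⟩ := hb fun n => (w n).1
  obtain ⟨z, hzD, hz⟩ := hD (fun i => if i ∈ J₀ then a i else c i) (J ∪ J₀) (hJ.union hJ₀)
  obtain ⟨N, hN, hNf⟩ := hvl ⟨z, hzD⟩
  obtain ⟨E, G, hGo, hzG, hEG⟩ := exists_box hN
  have h3 : {n | (f n : ι) ∈ {l | (v l ∩ N).Nonempty}}.Finite :=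
    hNf.preimage (fun m _ n _ h => f.injective (Subtype.ext h))
  obtain ⟨b, hb⟩ := h3.bddAbove
  obtain ⟨m, hm, hmG⟩ := hc (E.filter fun i => i ∈ J) (by
      intro i hi
      exact (Finset.mem_filter.1 hi).2) G hGo (by
      intro i hi
      obtain ⟨hiE, hiJ⟩ := Finset.mem_filter.1 hi
      have : z i ∈ G i := hzG i hiE
      have h4 := hz i (Or.inl hiJ)
      rw [if_neg hiJ.2] at h4
      rwa [h4] at this) (b + 1)
  obtain ⟨x, hxD, hx⟩ := hD
    (fun i => if i ∈ J then (w m).1 i else if i ∈ J₀ then a i else z i)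
    (J ∪ J₀ ∪ E) ((hJ.union hJ₀).union E.countable_toSet)
  have hxN : (⟨x, hxD⟩ : D) ∈ N := by
    apply hEG
    intro i hi
    show x i ∈ G i
    rw [hx i (Or.inr hi)]
    by_cases hiJ : i ∈ J
    · rw [if_pos hiJ]
      exact hmG i (Finset.mem_filter.2 ⟨hi, hiJ⟩)
    · rw [if_neg hiJ]
      by_cases hi0 : i ∈ J₀
      · rw [if_pos hi0]
        have : z i ∈ G i := hzG i hi
        have h4 := hz i (Or.inr hi0)
        rw [if_pos hi0] at h4
        rwa [h4] at this
      · rw [if_neg hi0]
        exact hzG i hi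
  have hxv : (⟨x, hxD⟩ : D) ∈ v (f m) := by
    apply hFU
    intro i hi
    show x i ∈ U m i
    by_cases hi0 : i ∈ J₀
    · have hiJ : i ∉ J := fun h => h.2 hi0
      rw [hx i (Or.inl (Or.inr hi0)), if_neg hiJ, if_pos hi0, ← hwa m i hi0]
      exact hwU m i hi
    · have hiJ : i ∈ J := ⟨mem_iUnion.2 ⟨m, hi⟩, hi0⟩
      rw [hx i (Or.inl (Or.inl hiJ)), if_pos hiJ]
      exact hwU m i hi
  have h5 : m ≤ b := hb (show (f m : ι) ∈ {l | (v l ∩ N).Nonempty} from ⟨_, hxv, hxN⟩)
  omega

/-- There is a countable set outside of which no countable set is bad. -/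
theorem exists_good {D : Set (∀ i, X i)} (hD : Fills D) [ParacompactSpace D] (p : ∀ i, X i) :
    ∃ J₀ : Set I, J₀.Countable ∧ ∀ J : Set I, J.Countable → Disjoint J J₀ → ¬ Bad X J := by
  classical
  obtain ⟨S, hS⟩ := zorn_subset {S : Set (Set I) | (∀ J ∈ S, J.Countable ∧ Bad X J) ∧
      ∀ J ∈ S, ∀ K ∈ S, J ≠ K → Disjoint J K} (by
    intro C hC hchain
    refine ⟨⋃₀ C, ⟨?_, ?_⟩, fun s hs => subset_sUnion_of_mem hs⟩
    · rintro J ⟨s, hs, hJ⟩
      exact (hC hs).1 J hJ
    · rintro J ⟨s, hs, hJ⟩ K ⟨t, ht, hK⟩ hne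
      rcases hchain.total hs ht with h | h
      · exact (hC ht).2 J (h hJ) K hK hne
      · exact (hC hs).2 J hJ K (h hK) hne)
  have hS1 := hS.prop
  by_cases hSc : S.Countable
  · have hJ₀ : (⋃₀ S).Countable := hSc.sUnion fun J hJ => (hS1.1 J hJ).1
    refine ⟨⋃₀ S, hJ₀, ?_⟩
    intro J hJ hdisj hbad
    have hins : insert J S ⊆ S := by
      refine hS.le_of_ge (y := insert J S) ⟨?_, ?_⟩ (subset_insert _ _)
      · rintro K (rfl | hK)
        · exact ⟨hJ, hbad⟩
        · exact hS1.1 K hK
      · rintro K (rfl | hK) L (rfl | hL) hne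
        · exact absurd rfl hne
        · exact hdisj.mono_right (subset_sUnion_of_mem hL)
        · exact (hdisj.mono_right (subset_sUnion_of_mem hK)).symm
        · exact hS1.2 K hK L hL hne
    have hJS : J ∈ S := hins (mem_insert _ _)
    have hJe : J = ∅ := by
      have := hdisj.mono_right (subset_sUnion_of_mem hJS)
      simpa using this
    subst hJe
    obtain ⟨w, hw⟩ := hbad
    obtain ⟨F, hF, U, -, -, n, hn⟩ := hw p
    obtain ⟨i, hi, -⟩ := hn n le_rfl
    exact hF hi
  · exfalso
    have hcard : Cardinal.lift.{u} (Cardinal.mk W) ≤ Cardinal.lift.{0} (Cardinal.mk S) := by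
      rw [Cardinal.mk_toType, Cardinal.card_ord, Cardinal.lift_uzero]
      have h1 : Cardinal.aleph0 < Cardinal.mk S := by
        rw [← not_le, Cardinal.le_aleph0_iff_set_countable]
        exact hSc
      have h2 := Order.succ_le_of_lt h1
      rw [Cardinal.succ_aleph0] at h2
      simpa using h2
    obtain ⟨f⟩ := Cardinal.lift_mk_le'.1 hcard
    exact not_paracompact_of_bad hD p (J := fun k => (f k).1)
      (fun k => (hS1.1 _ (f k).2).1)
      (fun k l hkl => hS1.2 _ (f k).2 _ (f l).2 fun h => hkl (f.injective (Subtype.ext h)))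
      (fun k => (hS1.1 _ (f k).2).2) inferInstance

/-- A paracompact subspace filling countable subproducts of a T1 product is everything. -/
theorem eq_univ {D : Set (∀ i, X i)} (hD : Fills D) [ParacompactSpace D] [∀ i, T1Space (X i)] :
    D = univ := by
  classical
  refine eq_univ_of_forall fun x => ?_
  by_contra hx
  obtain ⟨J₀, hJ₀, hgood⟩ := exists_good hD x
  have h1 : ∀ z : D, ∃ i, z.1 i ≠ x i := by
    intro z
    by_contra h
    push Not at h
    exact hx ((funext h : z.1 = x) ▸ z.2)
  choose i hi using h1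
  obtain ⟨v, hvo, hvc, hvl, hvu⟩ := precise_refinement (fun z : D => {w : D | w.1 (i z) ∈
      ({x (i z)}ᶜ : Set (X (i z)))}) (fun z => isOpen_compl_singleton.preimage
        ((continuous_apply (i z)).comp continuous_subtype_val)) (by
      rw [eq_univ_iff_forall]
      intro z
      exact mem_iUnion.2 ⟨z, hi z⟩)
  have hfin := finite_slice hD x hJ₀ hgood v hvo hvl
  obtain ⟨w, hwD, hw⟩ := hD x (J₀ ∪ i '' {l | ∃ z : D, z ∈ v l ∧ ∀ i ∈ J₀, z.1 i = x i})
    (hJ₀.union (hfin.countable.image i))
  have hwc : (⟨w, hwD⟩ : D) ∈ ⋃ l, v l := by rw [hvc]; trivial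
  obtain ⟨l, hl⟩ := mem_iUnion.1 hwc
  have h2 := hvu l hl
  exact h2 (hw (i l) (Or.inr ⟨l, ⟨_, hl, fun j hj => hw j (Or.inl hj)⟩, rfl⟩))

theorem countable_noncompact {D : Set (∀ i, X i)} (hD : Fills D) [ParacompactSpace D]
    (p : ∀ i, X i) : {i | ¬ CompactSpace (X i)}.Countable := by
  obtain ⟨J₀, hJ₀, hgood⟩ := exists_good hD p
  refine hJ₀.mono fun i hi => ?_
  by_contra h
  exact hi (compact_factor hD p hJ₀ hgood h)

/-- The literal form of filling implies the working form. -/
theorem fills_of_restrict {D : Set (∀ i, X i)}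
    (hD : ∀ J : Set I, J.Countable → J.Nonempty → J.domRestrict '' D = univ) (hI : Nonempty I) : Fills D := by
  intro a J hJ
  obtain ⟨i⟩ := hI
  have h1 : (fun j : ↥(insert i J) => a j.1) ∈ (insert i J).domRestrict '' D := by
    rw [hD _ (hJ.insert i) (insert_nonempty _ _)]; trivial
  obtain ⟨x, hx, hxa⟩ := h1
  exact ⟨x, hx, fun j hj => congrFun hxa ⟨j, Or.inr hj⟩⟩

/-- all parts of the positive result -/
theorem main_pos {D : Set (∀ i, X i)} [T1Space (∀ i, X i)]
    (hD : ∀ J : Set I, J.Countable → J.Nonempty → J.domRestrict '' D = univ) [ParacompactSpace D] [T2Space D] :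
    (∀ i, ParacompactSpace (X i) ∧ T2Space (X i)) ∧ (Nonempty I → D = univ) ∧
      {i | ¬ CompactSpace (X i)}.Countable := by
  classical
  by_cases hne : Nonempty (∀ i, X i)
  · obtain ⟨p⟩ := hne
    haveI hT1 : ∀ i, T1Space (X i) := by
      intro i
      have hcl : IsClosedMap (fun t : X i => t) := fun s hs => by simpa using hs
      have hce : Topology.IsEmbedding (fun t : X i => Function.update p i t) := by
        refine Topology.IsEmbedding.mk ⟨?_⟩ (Function.update_injective p i)
        apply le_antisymm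
        · exact ((continuous_const (y := p)).update i continuous_id).le_induced
        · intro s hs
          refine ⟨(fun q => q i) ⁻¹' s, hs.preimage (continuous_apply i), ?_⟩
          ext t; simp
      exact hce.t1Space
    by_cases hI : Nonempty I
    · have hF := fills_of_restrict hD hI
      have hU := eq_univ hF
      refine ⟨?_, fun _ => hU, countable_noncompact hF p⟩
      subst hU
      haveI : ParacompactSpace (∀ i, X i) :=
        (Homeomorph.Set.univ (∀ i, X i)).symm.isClosedEmbedding.paracompactSpace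
      haveI : T2Space (∀ i, X i) :=
        (Homeomorph.Set.univ (∀ i, X i)).symm.isEmbedding.t2Space
      intro i
      have hce : Topology.IsEmbedding (fun t : X i => Function.update p i t) := by
        refine Topology.IsEmbedding.mk ⟨?_⟩ (Function.update_injective p i)
        apply le_antisymm
        · exact ((continuous_const (y := p)).update i continuous_id).le_induced
        · intro s hs
          refine ⟨(fun q => q i) ⁻¹' s, hs.preimage (continuous_apply i), ?_⟩
          ext t; simp
      have hcl : Topology.IsClosedEmbedding (fun t : X i => Function.update p i t) := by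
        refine ⟨hce, ?_⟩
        have : range (fun t : X i => Function.update p i t) =
            ⋂ j : {j // j ≠ i}, {q : ∀ i, X i | q j.1 = p j.1} := by
          ext q
          simp only [mem_range, mem_iInter, mem_setOf_eq]
          constructor
          · rintro ⟨t, rfl⟩ j
            exact Function.update_of_ne j.2 _ _
          · intro h
            refine ⟨q i, ?_⟩
            funext j
            by_cases hj : j = i
            · subst hj; simp
            · rw [Function.update_of_ne hj]; exact (h ⟨j, hj⟩).symm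
        rw [this]
        exact isClosed_iInter fun j => isClosed_singleton.preimage (continuous_apply j.1)
      exact ⟨hcl.paracompactSpace, hce.t2Space⟩
    · haveI : IsEmpty I := not_nonempty_iff.1 hI
      exact ⟨fun i => (hI ⟨i⟩).elim, fun h => (hI h).elim, Set.to_countable _⟩
  · have hemp : ∀ i, IsEmpty (X i) := by
      intro i
      by_contra h
      rw [not_isEmpty_iff] at h
      obtain ⟨t⟩ := h
      have h1 : (fun j : ↥({i} : Set I) => (Eq.recOn (motive := fun k _ => X k) (show i = j.1 from j.2.symm) t)) ∈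
          ({i} : Set I).domRestrict '' D := by
        rw [hD _ (countable_singleton i) (singleton_nonempty i)]; trivial
      obtain ⟨x, hx, -⟩ := h1
      exact hne ⟨x⟩
    refine ⟨fun i => ?_, ?_, ?_⟩
    · haveI := hemp i
      exact ⟨inferInstance, inferInstance⟩
    · exact fun _ => eq_univ_of_forall fun x => (hne ⟨x⟩).elim
    · have : {i | ¬ CompactSpace (X i)} = ∅ := by
        ext i
        simp only [mem_setOf_eq, mem_empty_iff_false, iff_false, not_not]
        haveI := hemp i
        infer_instance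
      rw [this]; exact countable_empty

end Pool.Agent.X200.FillPara
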