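import Mathlib
import Pool.Agent.X212.Fill.Main

/-!
A paracompact subspace of a product filling the finite subproducts, with a factor that is not
paracompact.
-/

namespace Pool.Agent.X200.FinPara

open Set Topology Filter

/-- paracompactness from levels -/
theorem paracompact_of_levels {E T : Type*} [TopologicalSpace E]
    (hzd : ∀ x : E, ∀ O ∈ 𝓝 x, ∃ V, IsClopen V ∧ x ∈ V ∧ V ⊆ O) (lvl : E → ℕ) (f : ℕ → E → T)
    (hf : ∀ n, IsLocallyConstant (f n))
    (hinj : ∀ x x', lvl x = lvl x' → f (lvl x) x = f (lvl x) x' → x = x') :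
    ParacompactSpace E := by
  classical
  refine ⟨fun α s hs hc => ?_⟩
  have h1 : ∀ x : E, ∃ a, x ∈ s a := fun x => by
    have : x ∈ ⋃ a, s a := by rw [hc]; trivial
    exact mem_iUnion.1 this
  choose a ha using h1
  have h2 : ∀ x : E, ∃ V, IsClopen V ∧ x ∈ V ∧ V ⊆ s (a x) ∧
      ∀ x' ∈ V, f (lvl x) x' = f (lvl x) x := by
    intro x
    obtain ⟨V, hV, hxV, hVs⟩ := hzd x (s (a x)) ((hs _).mem_nhds (ha x))
    refine ⟨V ∩ {x' | f (lvl x) x' = f (lvl x) x}, hV.inter ?_, ⟨hxV, rfl⟩,
      inter_subset_left.trans hVs, fun x' hx' => hx'.2⟩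
    exact (hf (lvl x)).isClopen_fiber _
  choose V hV hxV hVs hVf using h2
  let G : ℕ → Set E := fun n => ⋃ x ∈ {x | lvl x = n}, V x
  have hGo : ∀ n, IsOpen (G n) := fun n => isOpen_biUnion fun x _ => (hV x).isOpen
  have hGc : ∀ n, IsClosed (G n) := by
    intro n
    rw [← isOpen_compl_iff, isOpen_iff_mem_nhds]
    intro w hw
    have hN : {w' | f n w' = f n w} ∈ 𝓝 w := (hf n).eventually_eq w
    by_cases hex : ∃ x, lvl x = n ∧ f n x = f n w
    · obtain ⟨x, hx, hxw⟩ := hex
      have hwV : w ∉ V x := fun h => hw (mem_biUnion (show x ∈ {x | lvl x = n} from hx) h)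
      refine mem_of_superset (inter_mem hN ((hV x).compl.isOpen.mem_nhds hwV)) ?_
      rintro w' ⟨h3, h4⟩ h5
      obtain ⟨x', hx', hw'⟩ := mem_iUnion₂.1 h5
      have hx'n : lvl x' = n := hx'
      have h6 := hVf x' w' hw'
      rw [hx'n] at h6
      have h7 : x = x' := by
        apply hinj x x' (by rw [hx, hx'n])
        rw [hx, hxw, ← h6]
        exact h3.symm
      exact h4 (h7 ▸ hw')
    · refine mem_of_superset hN ?_
      intro w' h3 h5
      obtain ⟨x', hx', hw'⟩ := mem_iUnion₂.1 h5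
      have hx'n : lvl x' = n := hx'
      have h6 := hVf x' w' hw'
      rw [hx'n] at h6
      have h8 : f n w' = f n w := h3
      exact hex ⟨x', hx'n, by rw [← h6, h8]⟩
  have hwG : ∀ w, w ∈ G (lvl w) := fun w => mem_biUnion (show w ∈ {x | lvl x = lvl w} from rfl) (hxV w)
  let t : E → Set E := fun x => V x \ ⋃ m ∈ Finset.range (lvl x), G m
  refine ⟨E, t, fun x => ?_, ?_, ?_, fun x => ⟨a x, sdiff_subset.trans (hVs x)⟩⟩
  · exact (hV x).isOpen.sdiff ((Finset.range (lvl x)).finite_toSet.isClosed_biUnion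
      fun m _ => hGc m)
  · rw [eq_univ_iff_forall]
    intro w
    have hex : ∃ n, w ∈ G n := ⟨_, hwG w⟩
    obtain ⟨x, hx, hwx⟩ := mem_iUnion₂.1 (Nat.find_spec hex)
    have hxn : lvl x = Nat.find hex := hx
    refine mem_iUnion.2 ⟨x, hwx, fun h => ?_⟩
    obtain ⟨m, hm, hwm⟩ := mem_iUnion₂.1 h
    rw [Finset.mem_range, hxn] at hm
    exact Nat.find_min hex hm hwm
  · intro w
    let n := lvl w
    refine ⟨G n ∩ ⋂ m ∈ Finset.range (n+1), {w' | f m w' = f m w}, inter_mem
      ((hGo n).mem_nhds (hwG w)) ((Filter.biInter_finset_mem _).2 fun m _ =>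
        (hf m).eventually_eq w), ?_⟩
    have hfin : {x | lvl x ≤ n ∧ f (lvl x) x = f (lvl x) w}.Finite := by
      refine Set.Finite.of_injOn (f := lvl) (t := Set.Iic n) (fun x hx => hx.1) ?_ (finite_Iic n)
      intro x hx x' hx' h
      refine hinj x x' h ?_
      rw [hx.2, h, hx'.2]
    refine hfin.subset ?_
    rintro x ⟨w', ⟨hw'V, hw't⟩, hw'G, hw'f⟩
    have hle : lvl x ≤ n := by
      by_contra hlt
      exact hw't (mem_biUnion (show n ∈ ((Finset.range (lvl x) : Finset ℕ) : Set ℕ) by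
        simp; omega) hw'G)
    refine ⟨hle, ?_⟩
    have h3 := mem_iInter₂.1 hw'f (lvl x) (Finset.mem_range.2 (by omega))
    rw [← hVf x w' hw'V]
    exact h3

/-- the set of the coordinates -/
abbrev T : Type := Set ℕ → ℕ

/-- the factors: the first one is a product of discrete spaces, the others are discrete -/
def Fac : ℕ → Type := fun _ => T

instance instTopFac : (n : ℕ) → TopologicalSpace (Fac n)
  | 0 => (inferInstance : TopologicalSpace (Set ℕ → ℕ))
  | _ + 1 => (⊥ : TopologicalSpace T)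

instance instDiscFac (n : ℕ) : DiscreteTopology (Fac (n + 1)) := ⟨rfl⟩

theorem not_para : ¬ ParacompactSpace (Fac 0) := by
  intro h
  have h1 : ParacompactSpace (Set ℕ → ℕ) := h
  haveI : Uncountable (Set ℕ) := by
    rw [← Cardinal.aleph0_lt_mk_iff]
    have : Cardinal.mk (Set ℕ) = 2 ^ Cardinal.mk ℕ := Cardinal.mk_set
    rw [this, Cardinal.mk_nat]
    exact Cardinal.cantor _
  have hnc : ¬ CompactSpace ℕ := by
    rw [not_compactSpace_iff]; infer_instance
  refine Pool.Agent.X212.Fill.main (I := Set ℕ) (X := fun _ => ℕ) (fun _ => hnc) univ ?_ ?_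
  · intro a J _
    exact ⟨a, trivial, fun _ _ => rfl⟩
  · exact (Homeomorph.Set.univ (Set ℕ → ℕ)).isClosedEmbedding.paracompactSpace

instance instT2Fac : (n : ℕ) → T2Space (Fac n)
  | 0 => (inferInstance : T2Space (Set ℕ → ℕ))
  | n + 1 => (inferInstance : T2Space (Fac (n + 1)))

/-- clopen sets form a base of each factor -/
theorem zd : ∀ (n : ℕ) (x : Fac n), ∀ O ∈ 𝓝 x, ∃ V, IsClopen V ∧ x ∈ V ∧ V ⊆ O
  | 0, x, O, hO => by
    classical
    have hO' : O ∈ @nhds (Set ℕ → ℕ) _ x := hO
    obtain ⟨U, hUO, hU, hxU⟩ := mem_nhds_iff.1 hO'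
    obtain ⟨J, u, hu, hJ⟩ := isOpen_pi_iff.1 hU x hxU
    refine ⟨⋂ i ∈ J, {y : Set ℕ → ℕ | y i = x i}, ?_, ?_, ?_⟩
    · refine J.finite_toSet.isClopen_biInter fun i _ => ?_
      exact (isClopen_discrete {x i}).preimage (continuous_apply i)
    · exact mem_iInter₂.2 fun i _ => rfl
    · intro y hy
      refine hUO (hJ fun i hi => ?_)
      have : y i = x i := mem_iInter₂.1 hy i hi
      rw [this]; exact (hu i hi).2
  | n + 1, x, O, hO => ⟨{x}, isClopen_discrete _, rfl, by
      rintro _ rfl; exact mem_of_mem_nhds hO⟩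

/-- an injective code of the finite sequences -/
theorem exists_code : ∃ c : List T → T, Function.Injective c := by
  have h : Cardinal.mk (List T) = Cardinal.mk T := Cardinal.mk_list_eq_mk T
  obtain ⟨e⟩ := Cardinal.eq.1 h
  exact ⟨e, e.injective⟩

/-- the subspace -/
def D (c : List T → T) : Set (∀ n, Fac n) :=
  {x | ∃ s : List T, (∀ i, (h : i < s.length) → x i = s[i]) ∧ ∀ i, s.length ≤ i → x i = c s}

theorem fills (c : List T → T) (J : Set ℕ) (hJ : J.Finite) :
    J.domRestrict '' (D c) = univ := by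
  classical
  refine eq_univ_of_forall fun p => ?_
  obtain ⟨N, hN⟩ := hJ.bddAbove
  let p' : ℕ → T := fun i => if h : i ∈ J then p ⟨i, h⟩ else fun _ => 0
  let s : List T := (List.range (N + 1)).map p'
  have hs : s.length = N + 1 := by simp [s]
  refine ⟨fun i => if h : i < s.length then s[i] else c s, ⟨s, ?_, ?_⟩, ?_⟩
  · intro i hi
    simp only [hi, dif_pos]
  · intro i hi
    have : ¬ i < s.length := not_lt.2 hi
    simp only [this, dif_neg, not_false_eq_true]
  · funext ⟨i, hi⟩
    have hiN : i ≤ N := hN hi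
    have h1 : i < s.length := by rw [hs]; omega
    show (if h : i < s.length then s[i] else c s) = p ⟨i, hi⟩
    rw [dif_pos h1]
    have h2 : s[i] = p' i := by simp [s]
    rw [h2]
    simp only [p', hi, dif_pos]

theorem para (c : List T → T) (hc : Function.Injective c) : ParacompactSpace (D c) := by
  classical
  have hs : ∀ x : D c, ∃ s : List T, (∀ i, (h : i < s.length) → x.1 i = s[i]) ∧
      ∀ i, s.length ≤ i → x.1 i = c s := fun x => x.2
  choose s hs1 hs2 using hs
  refine paracompact_of_levels (T := T) ?_ (fun x => (s x).length) (fun n x => x.1 (n + 1)) ?_ ?_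
  · intro x O hO
    obtain ⟨O', hO', hO'O⟩ := mem_nhds_induced _ _ _ |>.1 hO
    obtain ⟨U, hUO, hU, hxU⟩ := mem_nhds_iff.1 hO'
    obtain ⟨J, u, hu, hJ⟩ := isOpen_pi_iff.1 hU x.1 hxU
    have h1 : ∀ i, ∃ V : Set (Fac i), IsClopen V ∧ x.1 i ∈ V ∧ (i ∈ J → V ⊆ u i) := by
      intro i
      by_cases hi : i ∈ J
      · obtain ⟨V, hV, hx, hVu⟩ := zd i (x.1 i) (u i) ((hu i hi).1.mem_nhds (hu i hi).2)
        exact ⟨V, hV, hx, fun _ => hVu⟩
      · exact ⟨univ, isClopen_univ, mem_univ _, fun h => (hi h).elim⟩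
    choose V hV hxV hVu using h1
    refine ⟨⋂ i ∈ J, {y : D c | y.1 i ∈ V i}, ?_, mem_iInter₂.2 fun i _ => hxV i, ?_⟩
    · refine J.finite_toSet.isClopen_biInter fun i _ => ?_
      exact (hV i).preimage ((continuous_apply i).comp continuous_subtype_val)
    · intro y hy
      refine hO'O (hUO (hJ fun i hi => hVu i hi (mem_iInter₂.1 hy i hi)))
  · intro n
    have h1 : Continuous fun x : D c => x.1 (n + 1) :=
      (continuous_apply (n + 1)).comp continuous_subtype_val
    have h2 : IsLocallyConstant (fun x : D c => (x.1 (n + 1) : Fac (n + 1))) :=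
      (IsLocallyConstant.iff_continuous _).2 h1
    exact h2
  · intro x x' h h'
    have h1 : s x = s x' := by
      apply hc
      rw [← hs2 x ((s x).length + 1) (by omega), ← hs2 x' ((s x).length + 1) (by
        have : (s x).length = (s x').length := h
        omega)]
      exact h'
    apply Subtype.ext
    funext i
    by_cases hi : i < (s x).length
    · rw [hs1 x i hi, hs1 x' i (h1 ▸ hi)]
      simp only [h1]
    · rw [hs2 x i (not_lt.1 hi), hs2 x' i (h1 ▸ not_lt.1 hi), h1]

end Pool.Agent.X200.FinPara
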