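import Mathlib

/-!
Sigma-products of discrete spaces: clopen separation (in combinatorial form).
-/

namespace Pool.Agent.X200.SigTree

open Set

variable {I V : Type*}

/-- the Sigma-product with base point the constant function `c` -/
def Sg (I : Type*) {V : Type*} (c : V) : Set (I → V) := {y | {i | y i ≠ c}.Countable}

/-- agreement on a finite set -/
def Ag (F : Finset I) (y y' : I → V) : Prop := ∀ i ∈ F, y' i = y i

theorem Ag.symm {F : Finset I} {y y' : I → V} (h : Ag F y y') : Ag F y' y :=
  fun i hi => (h i hi).symm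

theorem Ag.trans {F : Finset I} {x y z : I → V} (h : Ag F x y) (h' : Ag F y z) : Ag F x z :=
  fun i hi => (h' i hi).trans (h i hi)

theorem Ag.mono {F G : Finset I} {x y : I → V} (h : Ag G x y) (hFG : F ⊆ G) : Ag F x y :=
  fun i hi => h i (hFG hi)

section
variable (c : V) (H K : Set (I → V)) (en : (I → V) → ℕ → I)

/-- the cell of `y` -/
def cell (y : I → V) (D : Finset I) : Set (I → V) := {x | x ∈ Sg I c ∧ Ag D y x}

open Classical in
/-- a chosen point of a set -/
noncomputable def pt (d : I → V) (A : Set (I → V)) : I → V := if h : A.Nonempty then h.some else d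

open Classical in
/-- the state after `n` steps: a finite set of coordinates and a finite set of chosen points -/
noncomputable def st (d : I → V) (y : I → V) : ℕ → Finset I × Finset (I → V)
  | 0 => (∅, ∅)
  | n + 1 =>
    let s := st d y n
    let X := s.2 ∪ {pt d (cell c y s.1 ∩ H), pt d (cell c y s.1 ∩ K)}
    (s.1 ∪ X.biUnion fun x => (Finset.range (n + 1)).image (en x), X)

variable {c H K en}

theorem st_fst_mono (d y : I → V) (n : ℕ) : (st c H K en d y n).1 ⊆ (st c H K en d y (n+1)).1 := by
  classical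
  rw [st]; exact Finset.subset_union_left

theorem st_fst_mono' (d y : I → V) {m n : ℕ} (h : m ≤ n) :
    (st c H K en d y m).1 ⊆ (st c H K en d y n).1 := by
  induction n, h using Nat.le_induction with
  | base => exact Finset.Subset.refl _
  | succ n _ ih => exact ih.trans (st_fst_mono d y n)

theorem st_snd_mono (d y : I → V) (n : ℕ) : (st c H K en d y n).2 ⊆ (st c H K en d y (n+1)).2 := by
  classical
  rw [st]; exact Finset.subset_union_left

theorem st_snd_mono' (d y : I → V) {m n : ℕ} (h : m ≤ n) :
    (st c H K en d y m).2 ⊆ (st c H K en d y n).2 := by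
  induction n, h using Nat.le_induction with
  | base => exact Finset.Subset.refl _
  | succ n _ ih => exact ih.trans (st_snd_mono d y n)

theorem cell_congr {y y' : I → V} {D : Finset I} (h : Ag D y y') : cell c y D = cell c y' D := by
  ext x
  exact ⟨fun hx => ⟨hx.1, h.symm.trans hx.2⟩, fun hx => ⟨hx.1, h.trans hx.2⟩⟩

/-- the states of two functions agreeing on the current set of coordinates are the same -/
theorem st_congr (d : I → V) {y y' : I → V} (n : ℕ) (h : Ag (st c H K en d y n).1 y y') :
    ∀ m ≤ n, st c H K en d y' m = st c H K en d y m := by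
  intro m
  induction m with
  | zero => intro _; rfl
  | succ m ih =>
    intro hm
    have ih' := ih (by omega)
    have h1 : cell c y' (st c H K en d y m).1 = cell c y (st c H K en d y m).1 :=
      (cell_congr (h.mono (st_fst_mono' d y (by omega)))).symm
    rw [st, st, ih', h1]

end

/-- separation in the Sigma-product: if no point of `Sg c` is in the closure of both `H` and `K`
then there is a relatively clopen set containing `H` and missing `K`. -/
theorem sig_sep [Nonempty I] (c : V) (H K : Set (I → V))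
    (h : ∀ y ∈ Sg I c, (∃ F : Finset I, ∀ y' ∈ Sg I c, Ag F y y' → y' ∉ H) ∨
      (∃ F : Finset I, ∀ y' ∈ Sg I c, Ag F y y' → y' ∉ K)) :
    ∃ U : Set (I → V), (∀ y ∈ Sg I c, y ∈ H → y ∈ U) ∧ (∀ y ∈ Sg I c, y ∈ K → y ∉ U) ∧
      ∀ y ∈ Sg I c, ∃ F : Finset I, ∀ y' ∈ Sg I c, Ag F y y' → (y' ∈ U ↔ y ∈ U) := by
  classical
  -- enumerations of supports
  have hen : ∀ x : I → V, ∃ e : ℕ → I, x ∈ Sg I c → {i | x i ≠ c} ⊆ range e := by
    intro x
    by_cases hx : x ∈ Sg I c
    · rcases ({i | x i ≠ c}).eq_empty_or_nonempty with he | hne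
      · exact ⟨fun _ => Classical.arbitrary I, fun _ => by rw [he]; exact empty_subset _⟩
      · obtain ⟨e, he⟩ := Set.Countable.exists_eq_range hx hne
        exact ⟨e, fun _ => he.subset⟩
    · exact ⟨fun _ => Classical.arbitrary I, fun h => (hx h).elim⟩
  choose en hen using hen
  let d : I → V := fun _ => c
  let s := st c H K en d
  let C : ℕ → (I → V) → Set (I → V) := fun n y => cell c y (s y n).1
  have hyC : ∀ n, ∀ y ∈ Sg I c, y ∈ C n y := fun n y hy => ⟨hy, fun i _ => rfl⟩
  have hCc : ∀ n y y', Ag (s y n).1 y y' → ∀ m ≤ n, C m y' = C m y := by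
    intro n y y' hy m hm
    have h1 : s y' m = s y m := st_congr d n hy m hm
    show cell c y' (s y' m).1 = cell c y (s y m).1
    rw [h1]
    exact (cell_congr (hy.mono (st_fst_mono' d y hm))).symm
  -- the key claim
  have key : ∀ y ∈ Sg I c, ∃ n, ¬ (C n y ∩ H).Nonempty ∨ ¬ (C n y ∩ K).Nonempty := by
    intro y hy
    by_contra hcon
    push Not at hcon
    let xH : ℕ → I → V := fun n => pt d (C n y ∩ H)
    let xK : ℕ → I → V := fun n => pt d (C n y ∩ K)
    have hxH : ∀ n, xH n ∈ C n y ∩ H := fun n => by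
      have hne := (hcon n).1
      show pt d (C n y ∩ H) ∈ _
      unfold pt; rw [dif_pos hne]; exact hne.some_mem
    have hxK : ∀ n, xK n ∈ C n y ∩ K := fun n => by
      have hne := (hcon n).2
      show pt d (C n y ∩ K) ∈ _
      unfold pt; rw [dif_pos hne]; exact hne.some_mem
    -- chosen points belong to the state
    have hmemH : ∀ n, xH n ∈ (s y (n+1)).2 := by
      intro n
      show pt d (cell c y (s y n).1 ∩ H) ∈ (st c H K en d y (n+1)).2
      rw [st]
      exact Finset.mem_union_right _ (Finset.mem_insert_self _ _)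
    have hmemK : ∀ n, xK n ∈ (s y (n+1)).2 := by
      intro n
      show pt d (cell c y (s y n).1 ∩ K) ∈ (st c H K en d y (n+1)).2
      rw [st]
      exact Finset.mem_union_right _ (Finset.mem_insert_of_mem (Finset.mem_singleton_self _))
    have hsupp : ∀ n, ∀ x ∈ (s y n).2, ∀ k, ∃ m, en x k ∈ (s y m).1 := by
      intro n x hx k
      refine ⟨max n k + 1, ?_⟩
      show en x k ∈ (st c H K en d y (max n k + 1)).1
      rw [st]
      refine Finset.mem_union_right _ (Finset.mem_biUnion.2 ⟨x, ?_, ?_⟩)
      · exact Finset.mem_union_left _ (st_snd_mono' d y (le_max_left n k) hx)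
      · exact Finset.mem_image.2 ⟨k, Finset.mem_range.2 (by omega), rfl⟩
    let ys : I → V := fun i => if ∃ m, i ∈ (s y m).1 then y i else c
    have hys : ys ∈ Sg I c := by
      refine Countable.mono ?_ (Set.countable_iUnion fun m => ((s y m).1).countable_toSet)
      intro i hi
      by_contra hno
      apply hi
      have : ¬ ∃ m, i ∈ (s y m).1 := fun ⟨m, hm⟩ => hno (mem_iUnion.2 ⟨m, hm⟩)
      simp only [ys, this, if_false]
    have hconv : ∀ x : ℕ → I → V, (∀ n, x n ∈ C n y) → (∀ n, x n ∈ (s y (n+1)).2) →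
        ∀ F : Finset I, ∃ n, Ag F ys (x n) := by
      intro x hx hxs F
      have hN : ∃ N, ∀ i ∈ F, (∃ m, i ∈ (s y m).1) → i ∈ (s y N).1 := by
        have h1 : ∀ i, ∃ N, (∃ m, i ∈ (s y m).1) → i ∈ (s y N).1 := by
          intro i
          by_cases hi : ∃ m, i ∈ (s y m).1
          · obtain ⟨m, hm⟩ := hi
            exact ⟨m, fun _ => hm⟩
          · exact ⟨0, fun h => (hi h).elim⟩
        choose N hN using h1
        refine ⟨F.sup N, fun i hi him => st_fst_mono' d y (Finset.le_sup hi) (hN i him)⟩
      obtain ⟨N, hN⟩ := hN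
      refine ⟨N, fun i hi => ?_⟩
      by_cases hi' : ∃ m, i ∈ (s y m).1
      · simp only [ys, hi', if_true]
        exact (hx N).2 i (hN i hi hi')
      · simp only [ys, hi', if_false]
        by_contra hne
        have h2 : i ∈ range (en (x N)) := hen (x N) (hx N).1 hne
        obtain ⟨k, hk⟩ := h2
        obtain ⟨m, hm⟩ := hsupp (N+1) (x N) (hxs N) k
        exact hi' ⟨m, hk ▸ hm⟩
    rcases h ys hys with ⟨F, hF⟩ | ⟨F, hF⟩
    · obtain ⟨n, hn⟩ := hconv xH (fun n => (hxH n).1) hmemH F
      exact hF (xH n) (hxH n).1.1 hn (hxH n).2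
    · obtain ⟨n, hn⟩ := hconv xK (fun n => (hxK n).1) hmemK F
      exact hF (xK n) (hxK n).1.1 hn (hxK n).2
  -- the clopen set
  let U : Set (I → V) := {y | ∃ n, ¬ (C n y ∩ K).Nonempty ∧
    ∀ m < n, (C m y ∩ K).Nonempty ∧ (C m y ∩ H).Nonempty}
  refine ⟨U, ?_, ?_, ?_⟩
  · intro y hy hyH
    have hex := key y hy
    let n := Nat.find hex
    have hn : ¬ (C n y ∩ H).Nonempty ∨ ¬ (C n y ∩ K).Nonempty := Nat.find_spec hex
    refine ⟨n, ?_, fun m hm => ?_⟩
    · rcases hn with h1 | h1
      · exact (h1 ⟨y, hyC n y hy, hyH⟩).elim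
      · exact h1
    · have := Nat.find_min hex hm
      push Not at this
      exact ⟨this.2, this.1⟩
  · rintro y hy hyK ⟨n, hn, -⟩
    exact hn ⟨y, hyC n y hy, hyK⟩
  · intro y hy
    have hex := key y hy
    let n := Nat.find hex
    have hn : ¬ (C n y ∩ H).Nonempty ∨ ¬ (C n y ∩ K).Nonempty := Nat.find_spec hex
    have hmin : ∀ m < n, (C m y ∩ H).Nonempty ∧ (C m y ∩ K).Nonempty := by
      intro m hm
      have := Nat.find_min hex hm
      push Not at this
      exact this
    have hloc : ∀ y', Ag (s y n).1 y y' → (y' ∈ U ↔ ¬ (C n y ∩ K).Nonempty) := by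
      intro y' hy'
      have hC := hCc n y y' hy'
      constructor
      · rintro ⟨n', hn', hm'⟩
        rcases lt_trichotomy n' n with hlt | heq | hgt
        · rw [hC n' hlt.le] at hn'
          exact (hn' (hmin n' hlt).2).elim
        · rw [heq, hC n le_rfl] at hn'
          exact hn'
        · have := hm' n hgt
          rw [hC n le_rfl] at this
          rcases hn with h1 | h1
          · exact (h1 this.2).elim
          · exact h1
      · intro h1
        refine ⟨n, by rw [hC n le_rfl]; exact h1, fun m hm => ?_⟩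
        rw [hC m hm.le]
        exact ⟨(hmin m hm).2, (hmin m hm).1⟩
    refine ⟨(s y n).1, fun y' _ hy' => ?_⟩
    rw [hloc y' hy', hloc y (fun i _ => rfl)]

end Pool.Agent.X200.SigTree
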