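import Mathlib
import Pool.Agent.X200.SigTree

/-!
The fan lemma: clopen separation in spaces built from Sigma-products by fans.
-/

namespace Pool.Agent.X200.Fan

open Set Topology Filter Pool.Agent.X200.SigTree

/-- clopen separation of disjoint closed sets on the set `A` -/
def SZ {E : Type*} [TopologicalSpace E] (A : Set E) : Prop :=
  ∀ H K : Set E, IsClosed H → IsClosed K → Disjoint H K →
    ∃ U : Set E, IsClopen U ∧ H ∩ A ⊆ U ∧ Disjoint (K ∩ A) U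

theorem SZ.mono {E : Type*} [TopologicalSpace E] {A B : Set E} (h : SZ A) (hBA : B ⊆ A) : SZ B := by
  intro H K hH hK hHK
  obtain ⟨U, hU, h1, h2⟩ := h H K hH hK hHK
  exact ⟨U, hU, (inter_subset_inter_right _ hBA).trans h1,
    h2.mono_left (inter_subset_inter_right _ hBA)⟩

variable {E I V Ω : Type*} [TopologicalSpace E]

/-- the sets used as neighbourhoods of the points of the limit of a fan -/
def Nb (y : E → I → V) (A : Set E) (b : E → Option Ω) (x : E) (F : Finset I) (τ : Set Ω) : Set E :=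
  {x' | x' ∈ A ∧ Ag F (y x) (y x') ∧ (b x' = none ∨ ∃ w ∈ τ, b x' = some w)}

theorem fan [Nonempty I] (y : E → I → V) (hy : ∀ i, IsLocallyConstant fun x => y x i) (c : V)
    (A : Set E) (hA : IsClopen A) (b : E → Option Ω) (G : Ω → Finset I)
    (hlev : ∀ w, IsClopen {x | x ∈ A ∧ b x = some w})
    (hSZ : ∀ w, SZ {x | x ∈ A ∧ b x = some w})
    (hL1 : ∀ x ∈ A, b x = none → y x ∈ Sg I c)
    (hL2 : ∀ y₀ ∈ Sg I c, ∃ x ∈ A, b x = none ∧ y x = y₀)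
    (hn : ∀ x ∈ A, b x = none → ∀ O ∈ 𝓝 x, ∃ (F : Finset I) (τ : Set Ω), (∀ w ∈ τ, F ⊆ G w) ∧
      Nb y A b x F τ ⊆ O ∧ Nb y A b x F τ ∈ 𝓝 x) : SZ A := by
  classical
  intro H K hH hK hHK
  -- agreement on a finite set is an open condition
  have hag : ∀ (F : Finset I) (x : E), {x' | Ag F (y x) (y x')} ∈ 𝓝 x := by
    intro F x
    have h1 : ∀ i ∈ F, {x' | y x' i = y x i} ∈ 𝓝 x := fun i _ => (hy i).eventually_eq x
    refine mem_of_superset ((Filter.biInter_finset_mem F).2 h1) ?_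
    intro x' hx' i hi
    exact mem_iInter₂.1 hx' i hi
  -- filling of finite sets of coordinates
  have hfill : ∀ x' : E, ∀ F : Finset I, ∃ x ∈ A, b x = none ∧ Ag F (y x) (y x') := by
    intro x' F
    let y₀ : I → V := fun i => if i ∈ F then y x' i else c
    have hy₀ : y₀ ∈ Sg I c := by
      refine F.countable_toSet.mono ?_
      intro i hi
      by_contra hiF
      apply hi
      have : i ∉ F := hiF
      simp [y₀, this]
    obtain ⟨x, hxA, hxb, hxy⟩ := hL2 y₀ hy₀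
    refine ⟨x, hxA, hxb, fun i hi => ?_⟩
    rw [hxy]; simp [y₀, hi]
  -- separation on the limit
  obtain ⟨U₀, hU1, hU2, hU3⟩ := sig_sep c (y '' {x | x ∈ A ∧ b x = none ∧ x ∈ H})
    (y '' {x | x ∈ A ∧ b x = none ∧ x ∈ K}) (by
      intro y₀ hy₀
      obtain ⟨x, hxA, hxb, rfl⟩ := hL2 y₀ hy₀
      by_cases hxH : x ∈ H
      · right
        have hxK : x ∉ K := fun h => (disjoint_left.1 hHK) hxH h
        obtain ⟨F, τ, _, h2, _⟩ := hn x hxA hxb Kᶜ (hK.isOpen_compl.mem_nhds hxK)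
        refine ⟨F, ?_⟩
        rintro _ _ h ⟨x', ⟨hx'A, hx'b, hx'K⟩, rfl⟩
        exact h2 ⟨hx'A, h, Or.inl hx'b⟩ hx'K
      · left
        obtain ⟨F, τ, _, h2, _⟩ := hn x hxA hxb Hᶜ (hH.isOpen_compl.mem_nhds hxH)
        refine ⟨F, ?_⟩
        rintro _ _ h ⟨x', ⟨hx'A, hx'b, hx'H⟩, rfl⟩
        exact h2 ⟨hx'A, h, Or.inl hx'b⟩ hx'H)
  -- good neighbourhoods
  let good1 : E → Finset I → Set Ω → Prop := fun x F τ =>
    x ∈ A ∧ b x = none ∧ (∀ w ∈ τ, F ⊆ G w) ∧ Disjoint (Nb y A b x F τ) K ∧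
      ∀ x' ∈ Nb y A b x F τ, b x' = none → y x' ∈ U₀
  let good2 : E → Finset I → Set Ω → Prop := fun x F τ =>
    x ∈ A ∧ b x = none ∧ (∀ w ∈ τ, F ⊆ G w) ∧ Disjoint (Nb y A b x F τ) H ∧
      ∀ x' ∈ Nb y A b x F τ, b x' = none → y x' ∉ U₀
  have hg1 : ∀ x ∈ A, b x = none → y x ∈ U₀ → ∃ F τ, good1 x F τ ∧ Nb y A b x F τ ∈ 𝓝 x := by
    intro x hxA hxb hxU
    have hxK : x ∉ K := fun h => hU2 (y x) (hL1 x hxA hxb) ⟨x, ⟨hxA, hxb, h⟩, rfl⟩ hxU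
    obtain ⟨F₀, hF₀⟩ := hU3 (y x) (hL1 x hxA hxb)
    obtain ⟨F, τ, h1, h2, h3⟩ := hn x hxA hxb (Kᶜ ∩ {x' | Ag F₀ (y x) (y x')})
      (inter_mem (hK.isOpen_compl.mem_nhds hxK) (hag F₀ x))
    refine ⟨F, τ, ⟨hxA, hxb, h1, ?_, ?_⟩, h3⟩
    · rw [disjoint_left]; exact fun z hz => (h2 hz).1
    · intro x' hx' hx'b
      exact (hF₀ (y x') (hL1 x' hx'.1 hx'b) (h2 hx').2).2 hxU
  have hg2 : ∀ x ∈ A, b x = none → y x ∉ U₀ → ∃ F τ, good2 x F τ ∧ Nb y A b x F τ ∈ 𝓝 x := by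
    intro x hxA hxb hxU
    have hxH : x ∉ H := fun h => hxU (hU1 (y x) (hL1 x hxA hxb) ⟨x, ⟨hxA, hxb, h⟩, rfl⟩)
    obtain ⟨F₀, hF₀⟩ := hU3 (y x) (hL1 x hxA hxb)
    obtain ⟨F, τ, h1, h2, h3⟩ := hn x hxA hxb (Hᶜ ∩ {x' | Ag F₀ (y x) (y x')})
      (inter_mem (hH.isOpen_compl.mem_nhds hxH) (hag F₀ x))
    refine ⟨F, τ, ⟨hxA, hxb, h1, ?_, ?_⟩, h3⟩
    · rw [disjoint_left]; exact fun z hz => (h2 hz).1
    · intro x' hx' hx'b h
      exact hxU ((hF₀ (y x') (hL1 x' hx'.1 hx'b) (h2 hx').2).1 h)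
  choose W hW1 hW2 hW3 using fun w => hSZ w H K hH hK hHK
  let Pw : Ω → Set E := fun w => {x' | ∃ x F τ, good1 x F τ ∧ w ∈ τ ∧ Ag F (y x) (y x')}
  let Mw : Ω → Set E := fun w => {x' | ∃ x F τ, good2 x F τ ∧ w ∈ τ ∧ Ag F (y x) (y x')}
  have hdisj : ∀ w x', x' ∈ Pw w → x' ∈ Mw w → False := by
    rintro w x' ⟨x1, F1, τ1, ⟨_, _, hG1, _, hgd1⟩, hw1, ha1⟩ ⟨x2, F2, τ2, ⟨_, _, hG2, _, hgd2⟩, hw2, ha2⟩
    obtain ⟨x, hxA, hxb, hx⟩ := hfill x' (F1 ∪ F2)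
    have h1 := hgd1 x ⟨hxA, ha1.trans (hx.mono Finset.subset_union_left).symm, Or.inl hxb⟩ hxb
    exact hgd2 x ⟨hxA, ha2.trans (hx.mono Finset.subset_union_right).symm, Or.inl hxb⟩ hxb h1
  let U : Set E := {x' | x' ∈ A ∧ ((b x' = none ∧ y x' ∈ U₀) ∨
    ∃ w, b x' = some w ∧ (x' ∈ Pw w ∨ (x' ∈ W w ∧ x' ∉ Mw w)))}
  -- membership in `U` is locally constant
  have hloc : ∀ x, ∃ N ∈ 𝓝 x, ∀ x' ∈ N, (x' ∈ U ↔ x ∈ U) := by
    intro x
    by_cases hxA : x ∈ A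
    · rcases hb : b x with _ | w
      · by_cases hxU : y x ∈ U₀
        · obtain ⟨F, τ, hg, hN⟩ := hg1 x hxA hb hxU
          refine ⟨_, hN, fun x' hx' => ?_⟩
          have hxin : x ∈ U := ⟨hxA, Or.inl ⟨hb, hxU⟩⟩
          simp only [hxin, iff_true]
          refine ⟨hx'.1, ?_⟩
          rcases hx'.2.2 with h | ⟨w, hw, h⟩
          · exact Or.inl ⟨h, hg.2.2.2.2 x' hx' h⟩
          · exact Or.inr ⟨w, h, Or.inl ⟨x, F, τ, hg, hw, hx'.2.1⟩⟩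
        · obtain ⟨F, τ, hg, hN⟩ := hg2 x hxA hb hxU
          refine ⟨_, hN, fun x' hx' => ?_⟩
          have hxin : x ∉ U := by
            rintro ⟨_, ⟨_, h⟩ | ⟨w, h, _⟩⟩
            · exact hxU h
            · rw [hb] at h; cases h
          simp only [hxin, iff_false]
          rintro ⟨_, ⟨h, h'⟩ | ⟨w', hw', hh⟩⟩
          · exact hg.2.2.2.2 x' hx' h h'
          · rcases hx'.2.2 with h | ⟨w, hw, h⟩
            · rw [h] at hw'; cases hw'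
            · rw [h] at hw'
              have hww : w = w' := Option.some.inj hw'
              rw [← hww] at hh
              have hM : x' ∈ Mw w := ⟨x, F, τ, hg, hw, hx'.2.1⟩
              rcases hh with hh | hh
              · exact hdisj w x' hh hM
              · exact hh.2 hM
      · -- a point of a level
        have hN1 : {x' | x' ∈ A ∧ b x' = some w} ∈ 𝓝 x := (hlev w).isOpen.mem_nhds ⟨hxA, hb⟩
        have hN2 := hag (G w) x
        have hPc : ∀ x', Ag (G w) (y x) (y x') → (x' ∈ Pw w ↔ x ∈ Pw w) := by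
          intro x' hx'
          constructor
          · rintro ⟨x1, F, τ, hg, hw, ha⟩
            exact ⟨x1, F, τ, hg, hw, ha.trans (hx'.mono (hg.2.2.1 w hw)).symm⟩
          · rintro ⟨x1, F, τ, hg, hw, ha⟩
            exact ⟨x1, F, τ, hg, hw, ha.trans (hx'.mono (hg.2.2.1 w hw))⟩
        have hMc : ∀ x', Ag (G w) (y x) (y x') → (x' ∈ Mw w ↔ x ∈ Mw w) := by
          intro x' hx'
          constructor
          · rintro ⟨x1, F, τ, hg, hw, ha⟩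
            exact ⟨x1, F, τ, hg, hw, ha.trans (hx'.mono (hg.2.2.1 w hw)).symm⟩
          · rintro ⟨x1, F, τ, hg, hw, ha⟩
            exact ⟨x1, F, τ, hg, hw, ha.trans (hx'.mono (hg.2.2.1 w hw))⟩
        have hUw : ∀ x', x' ∈ A → b x' = some w →
            (x' ∈ U ↔ (x' ∈ Pw w ∨ (x' ∈ W w ∧ x' ∉ Mw w))) := by
          intro x' hx'A hx'b
          constructor
          · rintro ⟨_, ⟨h, _⟩ | ⟨w', hw', h⟩⟩
            · rw [hx'b] at h; cases h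
            · rw [hx'b] at hw'; cases hw'; exact h
          · exact fun h => ⟨hx'A, Or.inr ⟨w, hx'b, h⟩⟩
        by_cases hxW : x ∈ W w
        · refine ⟨_, inter_mem (inter_mem hN1 hN2) ((hW1 w).isOpen.mem_nhds hxW), ?_⟩
          rintro x' ⟨⟨⟨h1, h2⟩, h3⟩, h4⟩
          rw [hUw x' h1 h2, hUw x hxA hb, hPc x' h3, hMc x' h3]
          simp [h4, hxW]
        · refine ⟨_, inter_mem (inter_mem hN1 hN2) ((hW1 w).compl.isOpen.mem_nhds hxW), ?_⟩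
          rintro x' ⟨⟨⟨h1, h2⟩, h3⟩, h4⟩
          rw [hUw x' h1 h2, hUw x hxA hb, hPc x' h3, hMc x' h3]
          simp only [hxW, false_and, or_false]
          have : x' ∉ W w := h4
          simp [this]
    · refine ⟨Aᶜ, hA.compl.isOpen.mem_nhds hxA, fun x' hx' => ?_⟩
      exact ⟨fun h => (hx' h.1).elim, fun h => (hxA h.1).elim⟩
  refine ⟨U, ⟨?_, ?_⟩, ?_, ?_⟩
  · rw [← isOpen_compl_iff, isOpen_iff_mem_nhds]
    intro x hx
    obtain ⟨N, hN, h⟩ := hloc x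
    exact mem_of_superset hN fun x' hx' hU' => hx ((h x' hx').1 hU')
  · rw [isOpen_iff_mem_nhds]
    intro x hx
    obtain ⟨N, hN, h⟩ := hloc x
    exact mem_of_superset hN fun x' hx' => (h x' hx').2 hx
  · rintro x ⟨hxH, hxA⟩
    refine ⟨hxA, ?_⟩
    rcases hb : b x with _ | w
    · exact Or.inl ⟨rfl, hU1 (y x) (hL1 x hxA hb) ⟨x, ⟨hxA, hb, hxH⟩, rfl⟩⟩
    · refine Or.inr ⟨w, rfl, ?_⟩
      refine Or.inr ⟨hW2 w ⟨hxH, hxA, hb⟩, ?_⟩
      rintro ⟨x1, F, τ, hg, hw, ha⟩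
      exact (disjoint_left.1 hg.2.2.2.1) ⟨hxA, ha, Or.inr ⟨w, hw, hb⟩⟩ hxH
  · rw [disjoint_left]
    rintro x ⟨hxK, hxA⟩ ⟨_, ⟨hb, hxU⟩ | ⟨w, hb, hP | hP⟩⟩
    · exact hU2 (y x) (hL1 x hxA hb) ⟨x, ⟨hxA, hb, hxK⟩, rfl⟩ hxU
    · obtain ⟨x1, F, τ, hg, hw, ha⟩ := hP
      exact (disjoint_left.1 hg.2.2.2.1) ⟨hxA, ha, Or.inr ⟨w, hw, hb⟩⟩ hxK
    · exact (disjoint_left.1 (hW3 w)) ⟨hxK, hxA, hb⟩ hP.1

end Pool.Agent.X200.Fan
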