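import Mathlib
import Pool.Agent.X200.SigTree

/-!
The space `Z` (a corkscrew built from planks).
-/

namespace Pool.Agent.X200.Plank

open Set Topology Filter Pool.Agent.X200.SigTree

/-- The points of the space `Z`. -/
inductive Z (I V : Type)
  | top : Z I V
  | P (S : Finset I) (n : ℕ) (c : V) : Z I V
  | Q (S : Finset I) (n : ℕ) (R : Finset I) : Z I V
  | W (S : Finset I) (n : ℕ) (b : Bool) (R : Finset I) (c : V) (T : Finset I) : Z I V

variable {I V : Type}

open Z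

/-- The open subsets of `Z`. -/
def ZOpen (U : Set (Z I V)) : Prop :=
  (top ∈ U → ∃ (S₀ : Finset I) (N : ℕ), ∀ S, S₀ ⊆ S → ∀ n, N ≤ n →
    (∀ c, P S n c ∈ U) ∧ (∀ R, Q S n R ∈ U) ∧ ∀ b R c T, W S n b R c T ∈ U) ∧
  (∀ S n c, P S n c ∈ U → ∃ F : Finset I, ∀ R T, F ⊆ R →
    W S n false R c T ∈ U ∧ ∀ m, n = m + 1 → W S m true R c T ∈ U) ∧
  (∀ S n R, Q S n R ∈ U → ∃ (A : Set V) (F : Finset I), A.Finite ∧
    ∀ c ∉ A, ∀ T, F ⊆ T → ∀ b, W S n b R c T ∈ U)

instance : TopologicalSpace (Z I V) where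
  IsOpen := ZOpen
  isOpen_univ := ⟨fun _ => ⟨∅, 0, fun _ _ _ _ => ⟨fun _ => trivial, fun _ => trivial,
    fun _ _ _ _ => trivial⟩⟩, fun _ _ _ _ => ⟨∅, fun _ _ _ => ⟨trivial, fun _ _ => trivial⟩⟩,
    fun _ _ _ _ => ⟨∅, ∅, finite_empty, fun _ _ _ _ _ => trivial⟩⟩
  isOpen_inter := by
    classical
    rintro U U' ⟨h1, h2, h3⟩ ⟨h1', h2', h3'⟩
    refine ⟨?_, ?_, ?_⟩
    · rintro ⟨h, h'⟩
      obtain ⟨S₀, N, hU⟩ := h1 h
      obtain ⟨S₀', N', hU'⟩ := h1' h'
      refine ⟨S₀ ∪ S₀', max N N', fun S hS n hn => ?_⟩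
      have a := hU S (Finset.union_subset_left hS) n ((le_max_left _ _).trans hn)
      have a' := hU' S (Finset.union_subset_right hS) n ((le_max_right _ _).trans hn)
      exact ⟨fun c => ⟨a.1 c, a'.1 c⟩, fun R => ⟨a.2.1 R, a'.2.1 R⟩,
        fun b R c T => ⟨a.2.2 b R c T, a'.2.2 b R c T⟩⟩
    · rintro S n c ⟨h, h'⟩
      obtain ⟨F, hF⟩ := h2 S n c h
      obtain ⟨F', hF'⟩ := h2' S n c h'
      refine ⟨F ∪ F', fun R T hR => ?_⟩
      have a := hF R T (Finset.union_subset_left hR)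
      have a' := hF' R T (Finset.union_subset_right hR)
      exact ⟨⟨a.1, a'.1⟩, fun m hm => ⟨a.2 m hm, a'.2 m hm⟩⟩
    · rintro S n R ⟨h, h'⟩
      obtain ⟨A, F, hA, hF⟩ := h3 S n R h
      obtain ⟨A', F', hA', hF'⟩ := h3' S n R h'
      refine ⟨A ∪ A', F ∪ F', hA.union hA', fun c hc T hT b => ⟨?_, ?_⟩⟩
      · exact hF c (fun h => hc (Or.inl h)) T (Finset.union_subset_left hT) b
      · exact hF' c (fun h => hc (Or.inr h)) T (Finset.union_subset_right hT) b
  isOpen_sUnion := by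
    intro s hs
    refine ⟨?_, ?_, ?_⟩
    · rintro ⟨U, hU, h⟩
      obtain ⟨S₀, N, hN⟩ := (hs U hU).1 h
      exact ⟨S₀, N, fun S hS n hn => ⟨fun c => ⟨U, hU, (hN S hS n hn).1 c⟩,
        fun R => ⟨U, hU, (hN S hS n hn).2.1 R⟩, fun b R c T => ⟨U, hU, (hN S hS n hn).2.2 b R c T⟩⟩⟩
    · rintro S n c ⟨U, hU, h⟩
      obtain ⟨F, hF⟩ := (hs U hU).2.1 S n c h
      exact ⟨F, fun R T hR => ⟨⟨U, hU, (hF R T hR).1⟩, fun m hm => ⟨U, hU, (hF R T hR).2 m hm⟩⟩⟩
    · rintro S n R ⟨U, hU, h⟩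
      obtain ⟨A, F, hA, hF⟩ := (hs U hU).2.2 S n R h
      exact ⟨A, F, hA, fun c hc T hT b => ⟨U, hU, hF c hc T hT b⟩⟩

theorem zopen_iff {U : Set (Z I V)} : IsOpen U ↔ ZOpen U := Iff.rfl

/-- singletons `{W ...}` are open -/
theorem isOpen_W (S : Finset I) (n : ℕ) (b : Bool) (R : Finset I) (c : V) (T : Finset I) :
    IsOpen ({W S n b R c T} : Set (Z I V)) := by
  refine zopen_iff.2 ⟨?_, ?_, ?_⟩ <;> intros <;> simp_all

/-- basic neighbourhood of `P S n c` -/
def NP (S : Finset I) (n : ℕ) (c : V) (F : Finset I) : Set (Z I V) :=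
  {z | z = P S n c ∨ (∃ R T, F ⊆ R ∧ z = W S n false R c T) ∨
    ∃ m R T, n = m + 1 ∧ F ⊆ R ∧ z = W S m true R c T}

theorem isOpen_NP (S : Finset I) (n : ℕ) (c : V) (F : Finset I) :
    IsOpen (NP S n c F : Set (Z I V)) := by
  refine zopen_iff.2 ⟨?_, ?_, ?_⟩
  · rintro (h | ⟨R, T, _, h⟩ | ⟨m, R, T, _, _, h⟩) <;> simp at h
  · rintro S' n' c' (h | ⟨R, T, _, h⟩ | ⟨m, R, T, _, _, h⟩)
    · simp only [P.injEq] at h
      obtain ⟨rfl, rfl, rfl⟩ := h
      exact ⟨F, fun R T hR => ⟨Or.inr (Or.inl ⟨R, T, hR, rfl⟩),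
        fun m hm => Or.inr (Or.inr ⟨m, R, T, hm, hR, rfl⟩)⟩⟩
    · simp at h
    · simp at h
  · rintro S' n' R' (h | ⟨R, T, _, h⟩ | ⟨m, R, T, _, _, h⟩) <;> simp at h

/-- basic neighbourhood of `Q S n R` -/
def NQ (S : Finset I) (n : ℕ) (R : Finset I) (A : Set V) (F : Finset I) : Set (Z I V) :=
  {z | z = Q S n R ∨ ∃ b c T, c ∉ A ∧ F ⊆ T ∧ z = W S n b R c T}

theorem isOpen_NQ (S : Finset I) (n : ℕ) (R : Finset I) {A : Set V} (hA : A.Finite)
    (F : Finset I) : IsOpen (NQ S n R A F : Set (Z I V)) := by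
  refine zopen_iff.2 ⟨?_, ?_, ?_⟩
  · rintro (h | ⟨b, c, T, _, _, h⟩) <;> simp at h
  · rintro S' n' c' (h | ⟨b, c, T, _, _, h⟩) <;> simp at h
  · rintro S' n' R' (h | ⟨b, c, T, _, _, h⟩)
    · simp only [Q.injEq] at h
      obtain ⟨rfl, rfl, rfl⟩ := h
      exact ⟨A, F, hA, fun c hc T hT b => Or.inr ⟨b, c, T, hc, hT, rfl⟩⟩
    · simp at h

/-- basic neighbourhood of `top` -/
def NT (S₀ : Finset I) (N : ℕ) : Set (Z I V) :=
  {z | z = top ∨ (∃ S n c, S₀ ⊆ S ∧ N + 1 ≤ n ∧ z = P S n c) ∨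
    (∃ S n R, S₀ ⊆ S ∧ N ≤ n ∧ z = Q S n R) ∨ ∃ S n b R c T, S₀ ⊆ S ∧ N ≤ n ∧ z = W S n b R c T}

theorem isOpen_NT (S₀ : Finset I) (N : ℕ) : IsOpen (NT S₀ N : Set (Z I V)) := by
  refine zopen_iff.2 ⟨?_, ?_, ?_⟩
  · intro _
    refine ⟨S₀, N + 1, fun S hS n hn => ⟨fun c => ?_, fun R => ?_, fun b R c T => ?_⟩⟩
    · exact Or.inr (Or.inl ⟨S, n, c, hS, hn, rfl⟩)
    · exact Or.inr (Or.inr (Or.inl ⟨S, n, R, hS, by omega, rfl⟩))
    · exact Or.inr (Or.inr (Or.inr ⟨S, n, b, R, c, T, hS, by omega, rfl⟩))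
  · rintro S n c (h | ⟨S', n', c', hS, hn, h⟩ | ⟨S', n', R', _, _, h⟩ |
      ⟨S', n', b, R', c', T', _, _, h⟩)
    · simp at h
    · simp only [P.injEq] at h
      obtain ⟨rfl, rfl, rfl⟩ := h
      refine ⟨∅, fun R T _ => ⟨?_, fun m hm => ?_⟩⟩
      · exact Or.inr (Or.inr (Or.inr ⟨S, n, false, R, c, T, hS, by omega, rfl⟩))
      · exact Or.inr (Or.inr (Or.inr ⟨S, m, true, R, c, T, hS, by omega, rfl⟩))
    · simp at h
    · simp at h
  · rintro S n R (h | ⟨S', n', c', hS, hn, h⟩ | ⟨S', n', R', hS, hn, h⟩ |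
      ⟨S', n', b, R', c', T', _, _, h⟩)
    · simp at h
    · simp at h
    · simp only [Q.injEq] at h
      obtain ⟨rfl, rfl, rfl⟩ := h
      exact ⟨∅, ∅, finite_empty, fun c _ T _ b =>
        Or.inr (Or.inr (Or.inr ⟨S, n, b, R, c, T, hS, hn, rfl⟩))⟩
    · simp at h

instance [Infinite I] : T1Space (Z I V) := by
  classical
  refine ⟨fun z => ?_⟩
  rw [← isOpen_compl_iff, zopen_iff]
  refine ⟨?_, ?_, ?_⟩
  · intro _
    cases z with
    | top => exact ⟨∅, 0, fun S _ n _ => ⟨fun c => by simp, fun R => by simp,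
        fun b R c T => by simp⟩⟩
    | P S' n' c' => exact ⟨∅, n' + 1, fun S _ n hn => ⟨fun c => by
        simp only [mem_compl_iff, mem_singleton_iff, P.injEq, not_and]; intro _ h; omega,
        fun R => by simp, fun b R c T => by simp⟩⟩
    | Q S' n' R' => exact ⟨∅, n' + 1, fun S _ n hn => ⟨fun c => by simp, fun R => by
        simp only [mem_compl_iff, mem_singleton_iff, Q.injEq, not_and]; intro _ h; omega,
        fun b R c T => by simp⟩⟩
    | W S' n' b' R' c' T' => exact ⟨∅, n' + 1, fun S _ n hn => ⟨fun c => by simp,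
        fun R => by simp, fun b R c T => by
        simp only [mem_compl_iff, mem_singleton_iff, W.injEq, not_and]; intro _ h; omega⟩⟩
  · intro S n c _
    cases z with
    | top => exact ⟨∅, fun R T _ => ⟨by simp, fun m _ => by simp⟩⟩
    | P S' n' c' => exact ⟨∅, fun R T _ => ⟨by simp, fun m _ => by simp⟩⟩
    | Q S' n' R' => exact ⟨∅, fun R T _ => ⟨by simp, fun m _ => by simp⟩⟩
    | W S' n' b' R' c' T' =>
      obtain ⟨i, hi⟩ := Infinite.exists_notMem_finset R'
      refine ⟨{i}, fun R T hR => ?_⟩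
      have hne : R ≠ R' := by
        rintro rfl
        exact hi (hR (Finset.mem_singleton_self i))
      refine ⟨?_, fun m _ => ?_⟩
      · simp only [mem_compl_iff, mem_singleton_iff, W.injEq, not_and]
        intro _ _ _ h
        exact (hne h).elim
      · simp only [mem_compl_iff, mem_singleton_iff, W.injEq, not_and]
        intro _ _ _ h
        exact (hne h).elim
  · intro S n R _
    cases z with
    | top => exact ⟨∅, ∅, finite_empty, fun c _ T _ b => by simp⟩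
    | P S' n' c' => exact ⟨∅, ∅, finite_empty, fun c _ T _ b => by simp⟩
    | Q S' n' R' => exact ⟨∅, ∅, finite_empty, fun c _ T _ b => by simp⟩
    | W S' n' b' R' c' T' =>
      refine ⟨{c'}, ∅, finite_singleton c', fun c hc T _ b => ?_⟩
      simp only [mem_compl_iff, mem_singleton_iff, W.injEq, not_and]
      intro _ _ _ _ h
      exact (hc h).elim

/-! ### `Z` is not completely regular -/

section
open Cardinal

/-- small subsets of `V` -/
def Small (I : Type) (B : Set V) : Prop := #B ≤ #I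

theorem pigeon [Infinite I] (hV : #I < #V) {B : Set V} (hB : Small I B) (f : V → Finset I) :
    ∃ F, {c | c ∉ B ∧ f c = F}.Infinite := by
  by_contra hcon
  push Not at hcon
  have hI : ℵ₀ ≤ #I := aleph0_le_mk I
  have h1 : (univ : Set V) ⊆ B ∪ ⋃ F : Finset I, {c | c ∉ B ∧ f c = F} := by
    intro c _
    by_cases hc : c ∈ B
    · exact Or.inl hc
    · exact Or.inr (mem_iUnion.2 ⟨f c, hc, rfl⟩)
  have h2 : #(⋃ F : Finset I, {c | c ∉ B ∧ f c = F} : Set V) ≤ #I := by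
    refine (mk_iUnion_le _).trans ?_
    rw [mk_finset_of_infinite]
    refine (mul_le_mul' le_rfl (ciSup_le' fun F => ?_)).trans
      (mul_eq_left hI hI aleph0_ne_zero).le
    exact (lt_aleph0_iff_finite.2 (hcon F)).le
  have h3 : #V ≤ #I := by
    rw [← mk_univ]
    refine (mk_le_mk_of_subset h1).trans ((mk_union_le _ _).trans ?_)
    exact (add_le_add hB h2).trans (add_eq_self hI).le
  exact absurd hV (not_lt.2 h3)

theorem small_union [Infinite I] (A : ℕ × Finset I → Set V) (hA : ∀ k, (A k).Finite) :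
    Small I (⋃ k, A k) := by
  have hI : ℵ₀ ≤ #I := aleph0_le_mk I
  unfold Small
  refine (mk_iUnion_le _).trans ?_
  have h1 : #(ℕ × Finset I) = #I := by
    rw [mk_prod, mk_finset_of_infinite, lift_id, lift_id, mk_nat, aleph0_mul_eq hI]
  rw [h1]
  refine (mul_le_mul' le_rfl (ciSup_le' fun F => ?_)).trans
    (mul_eq_left hI hI aleph0_ne_zero).le
  exact (lt_aleph0_iff_finite.2 (hA F)).le

end

theorem tail_P {g : Z I V → ℝ} (hg : Continuous g) (S : Finset I) (n : ℕ) (c : V) {ε : ℝ}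
    (hε : 0 < ε) : ∃ F : Finset I, ∀ R T, F ⊆ R →
      |g (W S n false R c T) - g (P S n c)| < ε ∧
      ∀ m, n = m + 1 → |g (W S m true R c T) - g (P S n c)| < ε := by
  have h1 : IsOpen (g ⁻¹' Metric.ball (g (P S n c)) ε) := Metric.isOpen_ball.preimage hg
  obtain ⟨F, hF⟩ := (zopen_iff.1 h1).2.1 S n c (Metric.mem_ball_self hε)
  exact ⟨F, fun R T hR => ⟨(hF R T hR).1, fun m hm => (hF R T hR).2 m hm⟩⟩

theorem tail_Q {g : Z I V → ℝ} (hg : Continuous g) (S : Finset I) (n : ℕ) (R : Finset I) {ε : ℝ}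
    (hε : 0 < ε) : ∃ (A : Set V) (F : Finset I), A.Finite ∧ ∀ c ∉ A, ∀ T, F ⊆ T → ∀ b,
      |g (W S n b R c T) - g (Q S n R)| < ε := by
  have h1 : IsOpen (g ⁻¹' Metric.ball (g (Q S n R)) ε) := Metric.isOpen_ball.preimage hg
  obtain ⟨A, F, hA, hF⟩ := (zopen_iff.1 h1).2.2 S n R (Metric.mem_ball_self hε)
  exact ⟨A, F, hA, fun c hc T hT b => hF c hc T hT b⟩

/-- A continuous function vanishing at all points `P S 0 c` vanishes at `top`. -/
theorem not_separated [Infinite I] (hV : Cardinal.mk I < Cardinal.mk V) {g : Z I V → ℝ}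
    (hg : Continuous g) (h0 : ∀ S c, g (P S 0 c) = 0) : g top = 0 := by
  classical
  have key : ∀ (S : Finset I) (n : ℕ), ∃ B : Set V, Small I B ∧ ∀ c ∉ B, g (P S n c) = 0 := by
    intro S n
    induction n with
    | zero => exact ⟨∅, by simp [Small], fun c _ => h0 S c⟩
    | succ n ih =>
      obtain ⟨B, hB, hB0⟩ := ih
      -- smallness of `g` at the points `Q S n R`
      have hQ : ∀ k : ℕ, ∃ F : Finset I, ∀ R, F ⊆ R → |g (Q S n R)| ≤ 1 / ((k:ℝ) + 1) := by
        intro k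
        have hk : (0:ℝ) < 1 / ((k:ℝ) + 1) := by positivity
        choose f hf using fun c => tail_P hg S n c hk
        obtain ⟨F, hF⟩ := pigeon hV hB f
        refine ⟨F, fun R hR => ?_⟩
        refine le_of_forall_pos_lt_add fun δ hδ => ?_
        obtain ⟨A, F', hA, hAF⟩ := tail_Q hg S n R hδ
        obtain ⟨c, hc, hcA⟩ := (hF.sdiff hA).nonempty
        have h1 := hAF c hcA F' (Finset.Subset.refl _) false
        have h2 := (hf c R F' (by rw [hc.2]; exact hR)).1
        rw [hB0 c hc.1] at h2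
        have h3 : |g (Q S n R)| ≤ |g (W S n false R c F') - g (Q S n R)| +
            |g (W S n false R c F') - 0| := by
          have := abs_sub_le (g (Q S n R)) (g (W S n false R c F')) 0
          rw [sub_zero, abs_sub_comm (g (Q S n R))] at this
          exact this
        linarith
      choose F hF using hQ
      have hQ2 : ∀ k : ℕ × Finset I, ∃ (A : Set V) (F : Finset I), A.Finite ∧ ∀ c ∉ A, ∀ T,
          F ⊆ T → ∀ b, |g (W S n b k.2 c T) - g (Q S n k.2)| < 1 / ((k.1:ℝ) + 1) :=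
        fun k => tail_Q hg S n k.2 (by positivity)
      choose A G hA hAG using hQ2
      refine ⟨⋃ k, A k, small_union A hA, fun c hc => ?_⟩
      have hc' : ∀ k, c ∉ A k := fun k hk => hc (mem_iUnion.2 ⟨k, hk⟩)
      by_contra hne
      have hpos : 0 < |g (P S (n+1) c)| := abs_pos.2 hne
      obtain ⟨k, hk⟩ := exists_nat_one_div_lt (show 0 < |g (P S (n+1) c)| / 3 by linarith)
      obtain ⟨F2, hF2⟩ := tail_P hg S (n+1) c (show 0 < |g (P S (n+1) c)| / 3 by linarith)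
      let R := F2 ∪ F k
      have h1 := (hF2 R (G (k, R)) Finset.subset_union_left).2 n rfl
      have h2 := hAG (k, R) c (hc' _) (G (k, R)) (Finset.Subset.refl _) true
      have h3 := hF k R Finset.subset_union_right
      simp only at h2
      have h4 : |g (P S (n+1) c)| ≤ |g (W S n true R c (G (k, R))) - g (P S (n+1) c)| +
          |g (W S n true R c (G (k, R))) - g (Q S n R)| + |g (Q S n R)| := by
        have e1 := abs_sub_le (g (P S (n+1) c)) (g (W S n true R c (G (k, R)))) 0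
        have e2 := abs_sub_le (g (W S n true R c (G (k, R)))) (g (Q S n R)) 0
        rw [sub_zero, sub_zero] at e1 e2
        rw [abs_sub_comm (g (P S (n+1) c))] at e1
        linarith
      linarith
  by_contra hne
  have hpos : 0 < |g top| := abs_pos.2 hne
  have h1 : IsOpen (g ⁻¹' Metric.ball (g top) |g top|) := Metric.isOpen_ball.preimage hg
  obtain ⟨S, N, hN⟩ := (zopen_iff.1 h1).1 (Metric.mem_ball_self hpos)
  obtain ⟨B, hB, hB0⟩ := key S N
  obtain ⟨F, hF⟩ := pigeon hV hB (fun _ => (∅ : Finset I))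
  obtain ⟨c, hc⟩ := hF.nonempty
  have h2 := (hN S (Finset.Subset.refl _) N le_rfl).1 c
  have h3 : |g (P S N c) - g top| < |g top| := h2
  rw [hB0 c hc.1, zero_sub, abs_neg] at h3
  exact lt_irrefl _ h3

theorem not_completelyRegular [Infinite I] (hV : Cardinal.mk I < Cardinal.mk V) :
    ¬ CompletelyRegularSpace (Z I V) := by
  classical
  intro h
  let K : Set (Z I V) := {z | ∃ S c, z = P S 0 c}
  have hK : IsClosed K := by
    rw [← isOpen_compl_iff, zopen_iff]
    refine ⟨fun _ => ⟨∅, 1, fun S _ n hn => ⟨fun c => ?_, fun R => ?_, fun b R c T => ?_⟩⟩, ?_, ?_⟩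
    · rintro ⟨S', c', h⟩
      simp only [P.injEq] at h
      omega
    · rintro ⟨S', c', h⟩; simp at h
    · rintro ⟨S', c', h⟩; simp at h
    · intro S n c _
      exact ⟨∅, fun R T _ => ⟨by rintro ⟨S', c', h⟩; simp at h,
        fun m _ => by rintro ⟨S', c', h⟩; simp at h⟩⟩
    · intro S n R _
      exact ⟨∅, ∅, finite_empty, fun c _ T _ b => by rintro ⟨S', c', h⟩; simp at h⟩
  obtain ⟨f, hf, hf0, hf1⟩ := h.completely_regular top K hK (by rintro ⟨S', c', h⟩; simp at h)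
  have hg : Continuous (fun z => 1 - (f z : ℝ)) :=
    continuous_const.sub (continuous_subtype_val.comp hf)
  have := not_separated hV hg (fun S c => by
    have : f (P S 0 c) = 1 := hf1 ⟨S, c, rfl⟩
    simp [this])
  simp [hf0] at this

end Pool.Agent.X200.Plank
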