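import Mathlib
import Pool.Agent.X200.SigTree
import Pool.Agent.X200.Fan
import Pool.Agent.X200.Plank

/-!
The dense subspace of `Z × V ^ I` is normal.
-/

namespace Pool.Agent.X200.PlankE

open Set Topology Filter Pool.Agent.X200.SigTree Pool.Agent.X200.Fan Pool.Agent.X200.Plank

variable {I V : Type}

/-- the base point over a point of `Z` -/
def base (o : V) : Z I V → V
  | Z.P _ _ c => c
  | _ => o

/-- the edges of the corkscrew -/
inductive Ed (I V : Type)
  | p (S : Finset I) (n : ℕ) (c : V) : Ed I V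
  | q (S : Finset I) (n : ℕ) (R : Finset I) : Ed I V

open Classical in
/-- the edge to which a point belongs -/
noncomputable def edge : Z I V → (I → V) → Option (Ed I V)
  | Z.top, _ => none
  | Z.P S n c, _ => some (Ed.p S n c)
  | Z.Q S n R, _ => some (Ed.q S n R)
  | Z.W S n false R c _, y => if ∃ i ∈ R, y i = c then some (Ed.p S n c) else some (Ed.q S n R)
  | Z.W S n true R c _, y => if ∃ i ∈ R, y i = c then some (Ed.p S (n+1) c) else some (Ed.q S n R)

theorem edge_eq_none {z : Z I V} {y : I → V} : edge z y = none ↔ z = Z.top := by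
  classical
  cases z with
  | top => simp [edge]
  | P S n c => simp [edge]
  | Q S n R => simp [edge]
  | W S n b R c T => cases b <;> by_cases h : ∃ i ∈ R, y i = c <;> simp [edge, h]

theorem edge_eq_p {z : Z I V} {y : I → V} {S : Finset I} {n : ℕ} {c : V} :
    edge z y = some (Ed.p S n c) ↔ z = Z.P S n c ∨
      (∃ R T, z = Z.W S n false R c T ∧ ∃ i ∈ R, y i = c) ∨
      (∃ m R T, n = m + 1 ∧ z = Z.W S m true R c T ∧ ∃ i ∈ R, y i = c) := by
  classical
  cases z with
  | top => simp [edge]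
  | P S' n' c' => simp [edge]
  | Q S' n' R' => simp [edge]
  | W S' n' b R' c' T' =>
    cases b
    · by_cases h : ∃ i ∈ R', y i = c'
      · simp only [edge, h, if_true]
        constructor
        · intro h1
          simp only [Option.some.injEq, Ed.p.injEq] at h1
          obtain ⟨rfl, rfl, rfl⟩ := h1
          exact Or.inr (Or.inl ⟨R', T', rfl, h⟩)
        · rintro (h1 | ⟨R, T, h1, _⟩ | ⟨m, R, T, _, h1, _⟩)
          · simp at h1
          · simp only [Z.W.injEq] at h1
            obtain ⟨rfl, rfl, _, rfl, rfl, rfl⟩ := h1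
            rfl
          · simp at h1
      · simp only [edge, h, if_false]
        constructor
        · intro h1; simp at h1
        · rintro (h1 | ⟨R, T, h1, h2⟩ | ⟨m, R, T, _, h1, _⟩)
          · simp at h1
          · simp only [Z.W.injEq] at h1
            obtain ⟨rfl, rfl, _, rfl, rfl, rfl⟩ := h1
            exact (h h2).elim
          · simp at h1
    · by_cases h : ∃ i ∈ R', y i = c'
      · simp only [edge, h, if_true]
        constructor
        · intro h1
          simp only [Option.some.injEq, Ed.p.injEq] at h1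
          obtain ⟨rfl, rfl, rfl⟩ := h1
          exact Or.inr (Or.inr ⟨n', R', T', rfl, rfl, h⟩)
        · rintro (h1 | ⟨R, T, h1, _⟩ | ⟨m, R, T, hm, h1, _⟩)
          · simp at h1
          · simp at h1
          · simp only [Z.W.injEq] at h1
            obtain ⟨rfl, rfl, _, rfl, rfl, rfl⟩ := h1
            rw [hm]
      · simp only [edge, h, if_false]
        constructor
        · intro h1; simp at h1
        · rintro (h1 | ⟨R, T, h1, h2⟩ | ⟨m, R, T, _, h1, h2⟩)
          · simp at h1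
          · simp at h1
          · simp only [Z.W.injEq] at h1
            obtain ⟨rfl, rfl, _, rfl, rfl, rfl⟩ := h1
            exact (h h2).elim

theorem edge_eq_q {z : Z I V} {y : I → V} {S : Finset I} {n : ℕ} {R : Finset I} :
    edge z y = some (Ed.q S n R) ↔ z = Z.Q S n R ∨
      (∃ b c T, z = Z.W S n b R c T ∧ ∀ i ∈ R, y i ≠ c) := by
  classical
  cases z with
  | top => simp [edge]
  | P S' n' c' => simp [edge]
  | Q S' n' R' => simp [edge]
  | W S' n' b R' c' T' =>
    have key : ∀ e : Ed I V, (∀ S n R, e ≠ Ed.q S n R) → ((if ∃ i ∈ R', y i = c' then some e else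
        some (Ed.q S' n' R')) = some (Ed.q S n R) ↔ Z.W S' n' b R' c' T' = Z.Q S n R ∨
      (∃ b₁ c T, Z.W S' n' b R' c' T' = Z.W S n b₁ R c T ∧ ∀ i ∈ R, y i ≠ c)) := by
      intro e he
      by_cases h : ∃ i ∈ R', y i = c'
      · simp only [h, if_true]
        constructor
        · intro h1; exact (he _ _ _ (Option.some.inj h1)).elim
        · rintro (h1 | ⟨b1, c1, T1, h1, h2⟩)
          · simp at h1
          · simp only [Z.W.injEq] at h1
            obtain ⟨rfl, rfl, _, rfl, rfl, rfl⟩ := h1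
            obtain ⟨i, hi, hi'⟩ := h
            exact (h2 i hi hi').elim
      · simp only [h, if_false]
        constructor
        · intro h1
          simp only [Option.some.injEq, Ed.q.injEq] at h1
          obtain ⟨rfl, rfl, rfl⟩ := h1
          exact Or.inr ⟨b, c', T', rfl, fun i hi hi' => h ⟨i, hi, hi'⟩⟩
        · rintro (h1 | ⟨b1, c1, T1, h1, h2⟩)
          · simp at h1
          · simp only [Z.W.injEq] at h1
            obtain ⟨rfl, rfl, _, rfl, rfl, rfl⟩ := h1
            rfl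
    cases b
    · exact key _ (by intro S n R h; cases h)
    · exact key _ (by intro S n R h; cases h)

/-- the third coordinates of `W` -/
def wp : Z I V → Option (Bool × Finset I × Finset I)
  | Z.W _ _ b R _ T => some (b, R, T)
  | _ => none

/-- other coordinates of `W` -/
def wq : Z I V → Option (Bool × V × Finset I)
  | Z.W _ _ b _ c T => some (b, c, T)
  | _ => none

theorem exists_eq_base [Uncountable I] {c : V} {y : I → V} (hy : y ∈ Sg I c) : ∃ i, y i = c := by
  by_contra hcon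
  push Not at hcon
  have h1 : {i | y i ≠ c} = univ := by ext i; simp [hcon i]
  have h2 : (univ : Set I).Countable := by rw [← h1]; exact hy
  exact not_countable (α := I) (countable_univ_iff.1 h2)

section
variable {E : Type} [TopologicalSpace E] (z : E → Z I V) (y : E → I → V) (o : V)

/-- the description of the space `E` -/
structure Desc : Prop where
  nh : ∀ x (s : Set E), s ∈ 𝓝 x ↔ ∃ O : Set (Z I V), IsOpen O ∧ z x ∈ O ∧ ∃ F : Finset I,
    ∀ x', z x' ∈ O → Ag F (y x) (y x') → x' ∈ s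
  hb : ∀ x, y x ∈ Sg I (base o (z x))
  hs : ∀ z₀ y₀, y₀ ∈ Sg I (base o z₀) → ∃ x, z x = z₀ ∧ y x = y₀

variable {z y o}

theorem Desc.loc (h : Desc z y o) (i : I) : IsLocallyConstant fun x => y x i := by
  rw [IsLocallyConstant.iff_exists_open]
  intro x
  have h1 : {x' | y x' i = y x i} ∈ 𝓝 x := (h.nh x _).2 ⟨univ, isOpen_univ, mem_univ _, {i},
    fun x' _ hx' => hx' i (Finset.mem_singleton_self i)⟩
  obtain ⟨U, hU, hUo, hxU⟩ := mem_nhds_iff.1 h1
  exact ⟨U, hUo, hxU, fun x' hx' => hU hx'⟩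

theorem Desc.cont (h : Desc z y o) : Continuous z := by
  rw [continuous_iff_continuousAt]
  intro x s hs
  obtain ⟨U, hU, hUo, hxU⟩ := mem_nhds_iff.1 hs
  exact (h.nh x _).2 ⟨U, hUo, hxU, ∅, fun x' hx' _ => hU hx'⟩

/-- the edge is locally constant away from the top -/
theorem Desc.edge_loc [Uncountable I] (h : Desc z y o) (x : E) (hx : z x ≠ Z.top) :
    {x' | edge (z x') (y x') = edge (z x) (y x)} ∈ 𝓝 x := by
  classical
  rw [h.nh]
  rcases hz : z x with _ | ⟨S, n, c⟩ | ⟨S, n, R⟩ | ⟨S, n, b, R, c, T⟩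
  · exact (hx hz).elim
  · have hb := h.hb x
    rw [hz] at hb
    obtain ⟨i₀, hi₀⟩ := exists_eq_base hb
    refine ⟨NP S n c {i₀}, isOpen_NP S n c _, Or.inl rfl, {i₀}, ?_⟩
    intro x' hx' hag
    have hi₀' : y x' i₀ = c := (hag i₀ (Finset.mem_singleton_self _)).trans hi₀
    show edge (z x') (y x') = some (Ed.p S n c)
    rw [edge_eq_p]
    rcases hx' with h1 | ⟨R, T, hR, h1⟩ | ⟨m, R, T, hm, hR, h1⟩
    · exact Or.inl h1
    · exact Or.inr (Or.inl ⟨R, T, h1, i₀, hR (Finset.mem_singleton_self _), hi₀'⟩)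
    · exact Or.inr (Or.inr ⟨m, R, T, hm, h1, i₀, hR (Finset.mem_singleton_self _), hi₀'⟩)
  · refine ⟨NQ S n R (y x '' R) ∅, isOpen_NQ S n R (R.finite_toSet.image _) _, Or.inl rfl, R, ?_⟩
    intro x' hx' hag
    show edge (z x') (y x') = some (Ed.q S n R)
    rw [edge_eq_q]
    rcases hx' with h1 | ⟨b, c, T, hc, _, h1⟩
    · exact Or.inl h1
    · refine Or.inr ⟨b, c, T, h1, fun i hi hic => hc ⟨i, hi, ?_⟩⟩
      rw [← hag i hi, hic]
  · refine ⟨{Z.W S n b R c T}, isOpen_W _ _ _ _ _ _, rfl, R, ?_⟩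
    intro x' hx' hag
    have h1 : z x' = Z.W S n b R c T := hx'
    show edge (z x') (y x') = _
    rw [h1]
    have h2 : (∃ i ∈ R, y x' i = c) ↔ ∃ i ∈ R, y x i = c := by
      constructor
      · rintro ⟨i, hi, hi'⟩; exact ⟨i, hi, (hag i hi).symm.trans hi'⟩
      · rintro ⟨i, hi, hi'⟩; exact ⟨i, hi, (hag i hi).trans hi'⟩
    cases b <;> simp only [edge, h2]

/-- the level of an edge -/
def lev : Ed I V → ℕ
  | Ed.p _ n _ => n
  | Ed.q _ n _ => n

/-- the first coordinate of an edge -/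
def eS : Ed I V → Finset I
  | Ed.p S _ _ => S
  | Ed.q S _ _ => S

/-- near a top point, the edges are high -/
theorem edge_high {z : Z I V} {y : I → V} {S₀ : Finset I} {N : ℕ} (h : z ∈ NT S₀ (N + 1)) :
    z = Z.top ∨ ∃ e, edge z y = some e ∧ N + 1 ≤ lev e ∧ S₀ ⊆ eS e := by
  classical
  rcases h with h | ⟨S, n, c, hS, hn, h⟩ | ⟨S, n, R, hS, hn, h⟩ | ⟨S, n, b, R, c, T, hS, hn, h⟩
  · exact Or.inl h
  · exact Or.inr ⟨Ed.p S n c, by rw [h]; rfl, by show N + 1 ≤ n; omega, hS⟩
  · exact Or.inr ⟨Ed.q S n R, by rw [h]; rfl, by show N + 1 ≤ n; omega, hS⟩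
  · right
    by_cases hc : ∃ i ∈ R, y i = c
    · cases b
      · exact ⟨Ed.p S n c, by rw [h]; simp only [edge, hc, if_true], by show N + 1 ≤ n; omega, hS⟩
      · exact ⟨Ed.p S (n+1) c, by rw [h]; simp only [edge, hc, if_true],
          by show N + 1 ≤ n + 1; omega, hS⟩
    · refine ⟨Ed.q S n R, ?_, by show N + 1 ≤ n; omega, hS⟩
      rw [h]; cases b <;> simp only [edge, hc, if_false]

theorem Desc.piece_clopen [Uncountable I] (h : Desc z y o) (e : Ed I V) :
    IsClopen {x | edge (z x) (y x) = some e} := by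
  constructor
  · rw [← isOpen_compl_iff, isOpen_iff_mem_nhds]
    intro x hx
    by_cases hz : z x = Z.top
    · rw [h.nh]
      refine ⟨NT ∅ (lev e + 1), isOpen_NT _ _, Or.inl hz, ∅, fun x' hx' _ hx'' => ?_⟩
      have hx3 : edge (z x') (y x') = some e := hx''
      rcases edge_high (y := y x') hx' with h1 | ⟨e', h1, h2, _⟩
      · rw [edge_eq_none.2 h1] at hx3; cases hx3
      · rw [hx3] at h1
        have : e = e' := Option.some.inj h1
        rw [← this] at h2
        omega
    · refine mem_of_superset (h.edge_loc x hz) fun x' hx' hx'' => hx ?_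
      exact hx'.symm.trans hx''
  · rw [isOpen_iff_mem_nhds]
    intro x hx
    have hx1 : edge (z x) (y x) = some e := hx
    have hz : z x ≠ Z.top := by
      intro hz
      rw [edge_eq_none.2 hz] at hx1; cases hx1
    exact mem_of_superset (h.edge_loc x hz) fun x' hx' => hx'.trans hx1

instance [Uncountable I] : Infinite I := inferInstance

theorem clopenW [Uncountable I] (h : Desc z y o) (S : Finset I) (n : ℕ) (b : Bool) (R : Finset I)
    (c : V) (T : Finset I) : IsClopen {x | z x = Z.W S n b R c T} :=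
  IsClopen.preimage ⟨isClosed_singleton, isOpen_W S n b R c T⟩ h.cont

theorem szW [Uncountable I] (h : Desc z y o) (S : Finset I) (n : ℕ) (b : Bool) (R : Finset I)
    (c : V) (T : Finset I) : SZ {x | z x = Z.W S n b R c T} := by
  refine fan (Ω := Empty) y h.loc o _ (clopenW h S n b R c T) (fun _ => none) (fun _ => ∅)
    (fun w => w.elim) (fun w => w.elim) ?_ ?_ ?_
  · intro x hx _
    have := h.hb x
    rw [show z x = Z.W S n b R c T from hx] at this
    exact this
  · intro y₀ hy₀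
    obtain ⟨x, hx, hx'⟩ := h.hs (Z.W S n b R c T) y₀ hy₀
    exact ⟨x, hx, rfl, hx'⟩
  · intro x hx _ O hO
    obtain ⟨O', hO', hxO', F, hF⟩ := (h.nh x O).1 hO
    have hx1 : z x = Z.W S n b R c T := hx
    refine ⟨F, ∅, fun w => w.elim, ?_, ?_⟩
    · rintro x' ⟨hx', hag, _⟩
      have hx2 : z x' = Z.W S n b R c T := hx'
      exact hF x' (by rw [hx2, ← hx1]; exact hxO') hag
    · rw [h.nh]
      refine ⟨{Z.W S n b R c T}, isOpen_W _ _ _ _ _ _, hx1, F, fun x' hx' hag => ⟨hx', hag, Or.inl rfl⟩⟩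

theorem szp [Uncountable I] (h : Desc z y o) (S : Finset I) (n : ℕ) (c : V) :
    SZ {x | edge (z x) (y x) = some (Ed.p S n c)} := by
  classical
  -- points of the levels
  have hlevel : ∀ w : Bool × Finset I × Finset I, {x | x ∈ {x | edge (z x) (y x) = some (Ed.p S n c)}
      ∧ wp (z x) = some w} = {x | edge (z x) (y x) = some (Ed.p S n c)} ∩
        {x | z x = Z.W S (if w.1 then n - 1 else n) w.1 w.2.1 c w.2.2} := by
    rintro ⟨b, R, T⟩
    ext x
    simp only [mem_setOf_eq, mem_inter_iff]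
    constructor
    · rintro ⟨h1, h2⟩
      refine ⟨h1, ?_⟩
      rw [edge_eq_p] at h1
      rcases h1 with h1 | ⟨R', T', h1, _⟩ | ⟨m, R', T', hm, h1, _⟩
      · rw [h1] at h2; cases h2
      · rw [h1] at h2
        simp only [wp, Option.some.injEq, Prod.mk.injEq] at h2
        obtain ⟨rfl, rfl, rfl⟩ := h2
        simp [h1]
      · rw [h1] at h2
        simp only [wp, Option.some.injEq, Prod.mk.injEq] at h2
        obtain ⟨rfl, rfl, rfl⟩ := h2
        simp [h1, hm]
    · rintro ⟨h1, h2⟩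
      exact ⟨h1, by rw [h2]; rfl⟩
  have hnone : ∀ x, edge (z x) (y x) = some (Ed.p S n c) → wp (z x) = none → z x = Z.P S n c := by
    intro x h1 h2
    rw [edge_eq_p] at h1
    rcases h1 with h1 | ⟨R', T', h1, _⟩ | ⟨m, R', T', hm, h1, _⟩
    · exact h1
    · rw [h1] at h2; cases h2
    · rw [h1] at h2; cases h2
  refine fan (Ω := Bool × Finset I × Finset I) y h.loc c _ (h.piece_clopen _) (fun x => wp (z x))
    (fun w => w.2.1) ?_ ?_ ?_ ?_ ?_
  · intro w
    rw [hlevel]
    exact (h.piece_clopen _).inter (clopenW h _ _ _ _ _ _)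
  · intro w
    rw [hlevel]
    exact (szW h _ _ _ _ _ _).mono inter_subset_right
  · intro x hx hw
    have := h.hb x
    rw [hnone x hx hw] at this
    exact this
  · intro y₀ hy₀
    obtain ⟨x, hx, hx'⟩ := h.hs (Z.P S n c) y₀ hy₀
    exact ⟨x, by show edge (z x) (y x) = _; rw [hx]; rfl, by show wp (z x) = none; rw [hx]; rfl, hx'⟩
  · intro x hx hw O hO
    have hzx := hnone x hx hw
    obtain ⟨O', hO', hxO', F₀, hF₀⟩ := (h.nh x O).1 hO
    rw [hzx] at hxO'
    obtain ⟨F₁, hF₁⟩ := (zopen_iff.1 hO').2.1 S n c hxO'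
    have hb := h.hb x
    rw [hzx] at hb
    obtain ⟨i₀, hi₀⟩ := exists_eq_base hb
    refine ⟨F₀ ∪ F₁ ∪ {i₀}, {w | F₀ ∪ F₁ ∪ {i₀} ⊆ w.2.1}, fun w hw => hw, ?_, ?_⟩
    · rintro x' ⟨hx', hag, hw'⟩
      refine hF₀ x' ?_ (hag.mono (Finset.subset_union_left.trans Finset.subset_union_left))
      rcases hw' with hw' | ⟨⟨b, R, T⟩, hR, hw'⟩
      · rw [hnone x' hx' hw']; exact hxO'
      · have h1 : x' ∈ {x | x ∈ {x | edge (z x) (y x) = some (Ed.p S n c)} ∧
            wp (z x) = some (b, R, T)} := ⟨hx', hw'⟩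
        rw [hlevel] at h1
        have h2 : z x' = Z.W S (if b then n - 1 else n) b R c T := h1.2
        have hR' : F₁ ⊆ R := (Finset.subset_union_right.trans Finset.subset_union_left).trans hR
        have h3 := hF₁ R T hR'
        have h4 := edge_eq_p.1 hx'
        rcases h4 with h4 | ⟨R', T', h4, _⟩ | ⟨m, R', T', hm, h4, _⟩
        · rw [h4]; exact hxO'
        · rw [h4] at h2 ⊢
          simp only [Z.W.injEq] at h2
          obtain ⟨_, _, hb', rfl, _, rfl⟩ := h2
          exact h3.1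
        · rw [h4] at h2 ⊢
          simp only [Z.W.injEq] at h2
          obtain ⟨_, _, hb', rfl, _, rfl⟩ := h2
          exact h3.2 m hm
    · rw [h.nh]
      refine ⟨NP S n c (F₀ ∪ F₁ ∪ {i₀}), isOpen_NP _ _ _ _, Or.inl hzx, F₀ ∪ F₁ ∪ {i₀}, ?_⟩
      intro x' hx' hag
      have hmem : i₀ ∈ F₀ ∪ F₁ ∪ {i₀} := Finset.mem_union_right _ (Finset.mem_singleton_self _)
      have hi₀' : y x' i₀ = c := (hag i₀ hmem).trans hi₀
      rcases hx' with h1 | ⟨R, T, hR, h1⟩ | ⟨m, R, T, hm, hR, h1⟩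
      · exact ⟨edge_eq_p.2 (Or.inl h1), hag, Or.inl (by show wp (z x') = _; rw [h1]; rfl)⟩
      · exact ⟨edge_eq_p.2 (Or.inr (Or.inl ⟨R, T, h1, i₀, hR hmem, hi₀'⟩)), hag,
          Or.inr ⟨(false, R, T), hR, by show wp (z x') = _; rw [h1]; rfl⟩⟩
      · exact ⟨edge_eq_p.2 (Or.inr (Or.inr ⟨m, R, T, hm, h1, i₀, hR hmem, hi₀'⟩)), hag,
          Or.inr ⟨(true, R, T), hR, by show wp (z x') = _; rw [h1]; rfl⟩⟩

theorem szq [Uncountable I] (h : Desc z y o) (S : Finset I) (n : ℕ) (R : Finset I) :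
    SZ {x | edge (z x) (y x) = some (Ed.q S n R)} := by
  classical
  have hlevel : ∀ w : Bool × V × Finset I, {x | x ∈ {x | edge (z x) (y x) = some (Ed.q S n R)}
      ∧ wq (z x) = some w} = {x | edge (z x) (y x) = some (Ed.q S n R)} ∩
        {x | z x = Z.W S n w.1 R w.2.1 w.2.2} := by
    rintro ⟨b, c, T⟩
    ext x
    simp only [mem_setOf_eq, mem_inter_iff]
    constructor
    · rintro ⟨h1, h2⟩
      refine ⟨h1, ?_⟩
      rw [edge_eq_q] at h1
      rcases h1 with h1 | ⟨b', c', T', h1, _⟩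
      · rw [h1] at h2; cases h2
      · rw [h1] at h2
        simp only [wq, Option.some.injEq, Prod.mk.injEq] at h2
        obtain ⟨rfl, rfl, rfl⟩ := h2
        exact h1
    · rintro ⟨h1, h2⟩
      exact ⟨h1, by rw [h2]; rfl⟩
  have hnone : ∀ x, edge (z x) (y x) = some (Ed.q S n R) → wq (z x) = none → z x = Z.Q S n R := by
    intro x h1 h2
    rw [edge_eq_q] at h1
    rcases h1 with h1 | ⟨b', c', T', h1, _⟩
    · exact h1
    · rw [h1] at h2; cases h2
  refine fan (Ω := Bool × V × Finset I) y h.loc o _ (h.piece_clopen _) (fun x => wq (z x))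
    (fun w => w.2.2) ?_ ?_ ?_ ?_ ?_
  · intro w
    rw [hlevel]
    exact (h.piece_clopen _).inter (clopenW h _ _ _ _ _ _)
  · intro w
    rw [hlevel]
    exact (szW h _ _ _ _ _ _).mono inter_subset_right
  · intro x hx hw
    have := h.hb x
    rw [hnone x hx hw] at this
    exact this
  · intro y₀ hy₀
    obtain ⟨x, hx, hx'⟩ := h.hs (Z.Q S n R) y₀ hy₀
    exact ⟨x, by show edge (z x) (y x) = _; rw [hx]; rfl, by show wq (z x) = none; rw [hx]; rfl, hx'⟩
  · intro x hx hw O hO
    have hzx := hnone x hx hw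
    obtain ⟨O', hO', hxO', F₀, hF₀⟩ := (h.nh x O).1 hO
    rw [hzx] at hxO'
    obtain ⟨A₁, F₁, hA₁, hF₁⟩ := (zopen_iff.1 hO').2.2 S n R hxO'
    let F := F₀ ∪ F₁ ∪ R
    have hF0 : F₀ ⊆ F := Finset.subset_union_left.trans Finset.subset_union_left
    have hF1 : F₁ ⊆ F := Finset.subset_union_right.trans Finset.subset_union_left
    have hFR : R ⊆ F := Finset.subset_union_right
    refine ⟨F, {w | w.2.1 ∉ A₁ ∪ y x '' R ∧ F ⊆ w.2.2}, fun w hw => hw.2, ?_, ?_⟩
    · rintro x' ⟨hx', hag, hw'⟩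
      refine hF₀ x' ?_ (hag.mono hF0)
      rcases hw' with hw' | ⟨⟨b, c, T⟩, ⟨hc, hT⟩, hw'⟩
      · rw [hnone x' hx' hw']; exact hxO'
      · have h1 : x' ∈ {x | x ∈ {x | edge (z x) (y x) = some (Ed.q S n R)} ∧
            wq (z x) = some (b, c, T)} := ⟨hx', hw'⟩
        rw [hlevel] at h1
        have h2 : z x' = Z.W S n b R c T := h1.2
        rw [h2]
        exact hF₁ c (fun h => hc (Or.inl h)) T (hF1.trans hT) b
    · rw [h.nh]
      refine ⟨NQ S n R (A₁ ∪ y x '' R) F, isOpen_NQ _ _ _ (hA₁.union (R.finite_toSet.image _)) _,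
        Or.inl hzx, F, ?_⟩
      intro x' hx' hag
      rcases hx' with h1 | ⟨b, c, T, hc, hT, h1⟩
      · exact ⟨edge_eq_q.2 (Or.inl h1), hag, Or.inl (by show wq (z x') = _; rw [h1]; rfl)⟩
      · refine ⟨edge_eq_q.2 (Or.inr ⟨b, c, T, h1, fun i hi hic => hc (Or.inr ⟨i, hi, ?_⟩)⟩), hag,
          Or.inr ⟨(b, c, T), ⟨hc, hT⟩, by show wq (z x') = _; rw [h1]; rfl⟩⟩
        rw [← hag i (hFR hi), hic]

theorem sz_univ [Uncountable I] (h : Desc z y o) : SZ (univ : Set E) := by
  classical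
  have hset : ∀ e, {x | x ∈ (univ : Set E) ∧ edge (z x) (y x) = some e} =
      {x | edge (z x) (y x) = some e} := by
    intro e; ext x; simp
  refine fan (Ω := Ed I V) y h.loc o _ isClopen_univ (fun x => edge (z x) (y x)) eS ?_ ?_ ?_ ?_ ?_
  · intro e
    rw [hset]; exact h.piece_clopen e
  · intro e
    rw [hset]
    cases e with
    | p S n c => exact szp h S n c
    | q S n R => exact szq h S n R
  · intro x _ hx
    have := h.hb x
    rw [edge_eq_none.1 hx] at this
    exact this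
  · intro y₀ hy₀
    obtain ⟨x, hx, hx'⟩ := h.hs Z.top y₀ hy₀
    exact ⟨x, mem_univ _, edge_eq_none.2 hx, hx'⟩
  · intro x _ hx O hO
    have hzx := edge_eq_none.1 hx
    obtain ⟨O', hO', hxO', F₀, hF₀⟩ := (h.nh x O).1 hO
    rw [hzx] at hxO'
    obtain ⟨S₀, N, hN⟩ := (zopen_iff.1 hO').1 hxO'
    let F := F₀ ∪ S₀
    have hF0 : F₀ ⊆ F := Finset.subset_union_left
    have hF1 : S₀ ⊆ F := Finset.subset_union_right
    refine ⟨F, {e | N + 1 ≤ lev e ∧ F ⊆ eS e}, fun w hw => hw.2, ?_, ?_⟩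
    · rintro x' ⟨-, hag, hw'⟩
      refine hF₀ x' ?_ (hag.mono hF0)
      rcases hw' with hw' | ⟨e, ⟨he, hS⟩, hw'⟩
      · rw [edge_eq_none.1 hw']; exact hxO'
      · cases e with
        | p S n c =>
          have hS' : S₀ ⊆ S := hF1.trans hS
          have hn : N + 1 ≤ n := he
          rcases edge_eq_p.1 hw' with h4 | ⟨R', T', h4, _⟩ | ⟨m, R', T', hm, h4, _⟩
          · rw [h4]; exact (hN S hS' n (by omega)).1 c
          · rw [h4]; exact (hN S hS' n (by omega)).2.2 _ _ _ _
          · rw [h4]; exact (hN S hS' m (by omega)).2.2 _ _ _ _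
        | q S n R =>
          have hS' : S₀ ⊆ S := hF1.trans hS
          have hn : N + 1 ≤ n := he
          rcases edge_eq_q.1 hw' with h4 | ⟨b', c', T', h4, _⟩
          · rw [h4]; exact (hN S hS' n (by omega)).2.1 R
          · rw [h4]; exact (hN S hS' n (by omega)).2.2 _ _ _ _
    · rw [h.nh]
      refine ⟨NT F (N + 1), isOpen_NT _ _, Or.inl hzx, F, ?_⟩
      intro x' hx' hag
      rcases edge_high (y := y x') hx' with h1 | ⟨e, h1, h2, h3⟩
      · exact ⟨mem_univ _, hag, Or.inl (edge_eq_none.2 h1)⟩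
      · exact ⟨mem_univ _, hag, Or.inr ⟨e, ⟨h2, h3⟩, h1⟩⟩

theorem normal [Uncountable I] (h : Desc z y o) : NormalSpace E := by
  refine ⟨fun H K hH hK hHK => ?_⟩
  obtain ⟨U, hU, h1, h2⟩ := sz_univ h H K hH hK hHK
  rw [inter_univ] at h1 h2
  exact ⟨U, Uᶜ, hU.isOpen, hU.compl.isOpen, h1, fun x hx hxU => (disjoint_left.1 h2) hx hxU,
    disjoint_compl_right⟩

end

end Pool.Agent.X200.PlankE
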