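import Mathlib
import Pool.Agent.X200.PlankE

/-!
The product space and its dense normal subspace.
-/

namespace Pool.Agent.X200.PlankD

open Set Topology Filter Pool.Agent.X200.SigTree Pool.Agent.X200.Plank Pool.Agent.X200.PlankE

variable (I V : Type)

/-- the factors -/
def X : Option I → Type
  | none => Z I V
  | some _ => V

instance instTopX : (j : Option I) → TopologicalSpace (X I V j)
  | none => (inferInstance : TopologicalSpace (Z I V))
  | some _ => (⊥ : TopologicalSpace V)

instance instDiscX (i : I) : DiscreteTopology (X I V (some i)) := ⟨rfl⟩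

variable {I V}

/-- the first coordinate -/
def zc (x : ∀ j, X I V j) : Z I V := x none

/-- the other coordinates -/
def yc (x : ∀ j, X I V j) : I → V := fun i => x (some i)

/-- the subspace -/
def D (o : V) : Set (∀ j, X I V j) := {x | yc x ∈ Sg I (base o (zc x))}

theorem cont_zc : Continuous (zc : (∀ j, X I V j) → Z I V) := continuous_apply (none : Option I)

/-- points from coordinates -/
def mk (z : Z I V) (y : I → V) : ∀ j, X I V j
  | none => z
  | some i => y i

theorem desc (o : V) : Desc (E := D (I := I) o) (fun x => zc x.1) (fun x => yc x.1) o where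
  nh := by
    classical
    intro x s
    constructor
    · intro hs
      obtain ⟨U, hUs, hU, hxU⟩ := mem_nhds_iff.1 hs
      obtain ⟨U', hU', rfl⟩ := isOpen_induced_iff.1 hU
      obtain ⟨J, u, hu, hJ⟩ := isOpen_pi_iff.1 hU' x.1 hxU
      refine ⟨if none ∈ J then u none else univ, ?_, ?_, Finset.eraseNone J, ?_⟩
      · split_ifs with h
        · exact (hu none h).1
        · exact isOpen_univ
      · split_ifs with h
        · exact (hu none h).2
        · exact mem_univ _
      · intro x' hx' hag
        refine hUs (hJ ?_)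
        intro j hj
        cases j with
        | none =>
          have hj' : (none : Option I) ∈ J := hj
          rw [if_pos hj'] at hx'
          exact hx'
        | some i =>
          have h1 : x'.1 (some i) = x.1 (some i) := hag i (Finset.mem_eraseNone.2 hj)
          rw [h1]
          exact (hu (some i) hj).2
    · rintro ⟨O, hO, hxO, F, hF⟩
      have h1 : {x' : D (I := I) o | zc x'.1 ∈ O} ∈ 𝓝 x :=
        (hO.preimage (cont_zc.comp continuous_subtype_val)).mem_nhds hxO
      have h2 : ∀ i ∈ F, {x' : D (I := I) o | x'.1 (some i) = x.1 (some i)} ∈ 𝓝 x := by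
        intro i _
        have hc : Continuous fun x' : D (I := I) o => x'.1 (some i) :=
          (continuous_apply (some i)).comp continuous_subtype_val
        exact ((isOpen_discrete {x.1 (some i)}).preimage hc).mem_nhds rfl
      refine mem_of_superset (inter_mem h1 ((Filter.biInter_finset_mem F).2 h2)) ?_
      rintro x' ⟨h3, h4⟩
      exact hF x' h3 fun i hi => mem_iInter₂.1 h4 i hi
  hb := fun x => x.2
  hs := by
    intro z₀ y₀ hy₀
    exact ⟨⟨mk z₀ y₀, hy₀⟩, rfl, rfl⟩

instance instT1X [Infinite I] : ∀ j, T1Space (X I V j)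
  | none => (inferInstance : T1Space (Z I V))
  | some i => inferInstance

theorem fills (o : V) (J : Set (Option I)) (hJ : J.Countable) :
    J.domRestrict '' (D (I := I) o) = univ := by
  classical
  refine eq_univ_of_forall fun p => ?_
  let z₀ : Z I V := if h : none ∈ J then p ⟨none, h⟩ else Z.top
  let y₀ : I → V := fun i => if h : some i ∈ J then p ⟨some i, h⟩ else base o z₀
  refine ⟨mk z₀ y₀, ?_, ?_⟩
  · show {i | y₀ i ≠ base o z₀}.Countable
    refine (hJ.preimage (Option.some_injective I)).mono ?_
    intro i hi
    by_contra hiJ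
    apply hi
    have : some i ∉ J := hiJ
    simp only [y₀, this, dif_neg, not_false_eq_true]
  · funext j
    rcases j with ⟨_ | i, hj⟩
    · show z₀ = _
      simp only [z₀, hj, dif_pos]
    · show y₀ i = _
      simp only [y₀, hj, dif_pos]

/-- the index set -/
abbrev I₀ : Type := Set ℕ

/-- the discrete factor -/
abbrev V₀ : Type := Set (Set ℕ)

theorem card_lt : Cardinal.mk I₀ < Cardinal.mk V₀ := by
  have : Cardinal.mk V₀ = 2 ^ Cardinal.mk I₀ := Cardinal.mk_set
  rw [this]; exact Cardinal.cantor _

instance : Uncountable I₀ := by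
  rw [← Cardinal.aleph0_lt_mk_iff]
  have : Cardinal.mk I₀ = 2 ^ Cardinal.mk ℕ := Cardinal.mk_set
  rw [this, Cardinal.mk_nat]
  exact Cardinal.cantor _

theorem main : T1Space (∀ j, X I₀ V₀ j) ∧
    (∀ J : Set (Option I₀), J.Countable → J.domRestrict '' (D (I := I₀) (∅ : V₀)) = univ) ∧
    T4Space (D (I := I₀) (∅ : V₀)) ∧ ¬ CompletelyRegularSpace (X I₀ V₀ none) := by
  haveI h1 : T1Space (∀ j, X I₀ V₀ j) := inferInstance
  refine ⟨h1, fills _, ?_, not_completelyRegular card_lt⟩
  haveI : NormalSpace (D (I := I₀) (∅ : V₀)) := PlankE.normal (desc _)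
  exact ⟨⟩

end Pool.Agent.X200.PlankD
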