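import Mathlib

/-!
A well-ordered unbounded family of increasing functions.
-/

namespace Pool.Agent.X200.BScale

open Set Filter

/-- eventual domination -/
def LeS (f g : ℕ → ℕ) : Prop := ∃ n, ∀ i, n ≤ i → f i ≤ g i

theorem LeS.trans {f g h : ℕ → ℕ} (h1 : LeS f g) (h2 : LeS g h) : LeS f h := by
  obtain ⟨n, hn⟩ := h1
  obtain ⟨m, hm⟩ := h2
  exact ⟨max n m, fun i hi => (hn i (by omega)).trans (hm i (by omega))⟩

theorem LeS.refl (f : ℕ → ℕ) : LeS f f := ⟨0, fun _ _ => le_rfl⟩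

/-- recursion along a well-founded relation with choice -/
theorem exists_rec {W : Type} [Preorder W] [WellFoundedLT W] {D : Type*}
    (P : (α : W) → ((β : W) → β < α → D) → D → Prop)
    (h : ∀ α g, ∃ x, P α g x) : ∃ y : W → D, ∀ α, P α (fun β _ => y β) (y α) := by
  choose f hf using h
  let y : W → D := (wellFounded_lt (α := W)).fix (fun α g => f α g)
  refine ⟨y, fun α => ?_⟩
  have h1 : y α = f α (fun β _ => y β) := (wellFounded_lt (α := W)).fix_eq _ α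
  rw [h1]
  exact hf α _

/-- a scale -/
structure Scale (W : Type) [LinearOrder W] (f : W → ℕ → ℕ) : Prop where
  mono : ∀ α, Monotone (f α)
  le : ∀ α β, α < β → LeS (f α) (f β)
  not_le : ∀ α β, α < β → ¬ LeS (f β) (f α)
  unb : ∀ g, ∃ α, ¬ LeS (f α) g

theorem exists_scale : ∃ (W : Type) (_ : LinearOrder W) (_ : WellFoundedLT W) (f : W → ℕ → ℕ),
    Scale W f := by
  classical
  let S : Set Cardinal.{0} := {c | ∃ G : Set (ℕ → ℕ), Cardinal.mk G = c ∧ ∀ g, ∃ h ∈ G, ¬ LeS h g}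
  have hS : S.Nonempty := by
    refine ⟨_, univ, rfl, fun g => ⟨fun i => g i + 1, mem_univ _, ?_⟩⟩
    rintro ⟨n, hn⟩
    have h : g n + 1 ≤ g n := hn n le_rfl
    omega
  obtain ⟨G, hG, hGu⟩ := csInf_mem hS
  set b := sInf S with hb
  let W : Type := b.ord.ToType
  have hW : Cardinal.mk W = Cardinal.mk G := by
    rw [Cardinal.mk_toType, Cardinal.card_ord, hG]
  obtain ⟨e⟩ := Cardinal.eq.1 hW
  have hbd : ∀ (α : W) (y : (β : W) → β < α → (ℕ → ℕ)), ∃ g, ∀ β hβ, LeS (y β hβ) g := by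
    intro α y
    by_contra hcon
    push Not at hcon
    let R : Set (ℕ → ℕ) := range fun β : Iio α => y β.1 β.2
    have hR : Cardinal.mk R ∈ S := by
      refine ⟨R, rfl, fun g => ?_⟩
      obtain ⟨β, hβ, h⟩ := hcon g
      exact ⟨_, ⟨⟨β, hβ⟩, rfl⟩, h⟩
    have h1 : b ≤ Cardinal.mk R := csInf_le' hR
    have h2 : Cardinal.mk R ≤ Cardinal.mk (Iio α) := Cardinal.mk_range_le
    have h3 : Cardinal.mk (Iio α) < b := Cardinal.mk_Iio_toType_ord_lt α
    exact absurd (h1.trans h2) (not_le.2 h3)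
  obtain ⟨f, hf⟩ := exists_rec (W := W) (D := ℕ → ℕ) (fun α y x => Monotone x ∧
      (∀ β hβ, LeS (y β hβ) x ∧ ¬ LeS x (y β hβ)) ∧ ∀ i, (e α).1 i ≤ x i) (by
    intro α y
    obtain ⟨g, hg⟩ := hbd α y
    let x : ℕ → ℕ := fun i => ∑ j ∈ Finset.range (i + 1), (g j + (e α).1 j + 1)
    have hx : ∀ i, g i + (e α).1 i + 1 ≤ x i := fun i =>
      Finset.single_le_sum (f := fun j => g j + (e α).1 j + 1) (fun _ _ => Nat.zero_le _)
        (Finset.mem_range.2 (Nat.lt_succ_self i))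
    refine ⟨x, ?_, ?_, fun i => ?_⟩
    · intro i j hij
      exact Finset.sum_le_sum_of_subset (Finset.range_mono (by omega))
    · intro β hβ
      obtain ⟨n, hn⟩ := hg β hβ
      refine ⟨⟨n, fun i hi => ?_⟩, ?_⟩
      · have := hn i hi
        have := hx i
        omega
      · rintro ⟨m, hm⟩
        have h1 := hn (max n m) (le_max_left _ _)
        have h2 := hm (max n m) (le_max_right _ _)
        have h3 := hx (max n m)
        omega
    · have := hx i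
      omega)
  refine ⟨W, inferInstance, inferInstance, f, ⟨fun α => (hf α).1,
    fun α β h => ((hf β).2.1 α h).1, fun α β h => ((hf β).2.1 α h).2, fun g => ?_⟩⟩
  obtain ⟨h, hh, hhg⟩ := hGu g
  refine ⟨e.symm ⟨h, hh⟩, fun hle => hhg ?_⟩
  refine LeS.trans ⟨0, fun i _ => ?_⟩ hle
  have := (hf (e.symm ⟨h, hh⟩)).2.2 i
  rwa [e.apply_symm_apply] at this

section
variable {W : Type} [LinearOrder W] {f : W → ℕ → ℕ}

/-- countable sets are bounded -/
theorem Scale.bdd (hf : Scale W f) (s : ℕ → W) : ∃ γ, ∀ n, s n < γ := by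
  by_contra hcon
  push Not at hcon
  let g : ℕ → ℕ := fun i => (Finset.range (i + 1)).sup fun n => f (s n) i
  obtain ⟨α, hα⟩ := hf.unb g
  obtain ⟨n, hn⟩ := hcon α
  apply hα
  have h1 : LeS (f (s n)) g := ⟨n, fun i hi =>
    Finset.le_sup (f := fun n => f (s n) i) (Finset.mem_range.2 (by omega))⟩
  rcases hn.lt_or_eq with h | h
  · exact (hf.le _ _ h).trans h1
  · rw [h]; exact h1

theorem Scale.bdd_set (hf : Scale W f) {S : Set W} (hS : S.Countable) : ∃ γ, ∀ α ∈ S, α < γ := by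
  rcases S.eq_empty_or_nonempty with rfl | hne
  · obtain ⟨α, -⟩ := hf.unb fun _ => 0
    exact ⟨α, fun _ h => h.elim⟩
  · obtain ⟨s, rfl⟩ := hS.exists_eq_range hne
    obtain ⟨γ, hγ⟩ := hf.bdd s
    exact ⟨γ, by rintro _ ⟨n, rfl⟩; exact hγ n⟩

theorem Scale.tail (hf : Scale W f) (γ : W) {C : Set W} (hC : C.Countable) :
    ¬ {α | γ < α ∧ α ∉ C}.Countable := by
  intro h
  have h1 : (insert γ ({α | γ < α ∧ α ∉ C} ∪ C)).Countable := (h.union hC).insert γ
  obtain ⟨δ, hδ⟩ := hf.bdd_set h1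
  have h2 : γ < δ := hδ γ (mem_insert _ _)
  have h3 : δ ∈ insert γ ({α | γ < α ∧ α ∉ C} ∪ C) := by
    by_cases hδC : δ ∈ C
    · exact Or.inr (Or.inr hδC)
    · exact Or.inr (Or.inl ⟨h2, hδC⟩)
  exact lt_irrefl _ (hδ δ h3)

/-- unboundedness on infinite sets -/
theorem Scale.inf (hf : Scale W f) {n : ℕ → ℕ} (hn : StrictMono n) (U : ℕ → ℕ) :
    ∃ α, ∃ᶠ k in atTop, U k ≤ f α (n k) := by
  classical
  by_contra hcon
  push Not at hcon
  have hex : ∀ i, ∃ k, i ≤ n k := fun i => ⟨i, hn.id_le i⟩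
  let g : ℕ → ℕ := fun i => U (Nat.find (hex i))
  obtain ⟨α, hα⟩ := hf.unb g
  apply hα
  have h1 := hcon α
  obtain ⟨K, hK⟩ := eventually_atTop.1 h1
  refine ⟨n K + 1, fun i hi => ?_⟩
  have h2 : i ≤ n (Nat.find (hex i)) := Nat.find_spec (hex i)
  have h3 : K ≤ Nat.find (hex i) := by
    by_contra hlt
    have h4 : n (Nat.find (hex i)) < n K := hn (_root_.not_le.1 hlt)
    omega
  have h5 := hK _ h3
  exact (hf.mono α h2).trans h5.le

/-- the key lemma -/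
theorem Scale.key (hf : Scale W f) {n : ℕ → ℕ} (hn : StrictMono n) (F : ℕ → Finset W) :
    ∃ α₀, ∃ B : Set ℕ, B.Infinite ∧ ∀ α, α₀ < α → ∃ K, ∀ k ∈ B, K ≤ k →
      ∀ β ∈ F k, β < α ∧ ∀ i, n k ≤ i → f β i ≤ f α i := by
  classical
  obtain ⟨γ, hγ⟩ := hf.bdd_set (countable_iUnion fun k => (F k).countable_toSet)
  have hγ' : ∀ k, ∀ β ∈ F k, β < γ := fun k β hβ => hγ β (mem_iUnion.2 ⟨k, hβ⟩)
  have hr : ∀ k, ∃ r, ∀ β ∈ F k, ∀ i, r ≤ i → f β i ≤ f γ i := by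
    intro k
    have h1 : ∀ β : W, ∃ r, β ∈ F k → ∀ i, r ≤ i → f β i ≤ f γ i := by
      intro β
      by_cases hβ : β ∈ F k
      · obtain ⟨r, hr⟩ := hf.le β γ (hγ' k β hβ)
        exact ⟨r, fun _ => hr⟩
      · exact ⟨0, fun h => (hβ h).elim⟩
    choose r hr using h1
    exact ⟨(F k).sup r, fun β hβ i hi => hr β hβ i ((Finset.le_sup hβ).trans hi)⟩
  choose r hr using hr
  let U : ℕ → ℕ := fun k => (F k).sup fun β => (Finset.range (r k)).sup fun i => f β i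
  obtain ⟨α₁, hα₁⟩ := hf.inf hn U
  refine ⟨max γ α₁, {k | U k ≤ f α₁ (n k)}, Nat.frequently_atTop_iff_infinite.1 hα₁, ?_⟩
  intro α hα
  obtain ⟨i₁, hi₁⟩ := hf.le γ α ((le_max_left _ _).trans_lt hα)
  obtain ⟨i₂, hi₂⟩ := hf.le α₁ α ((le_max_right _ _).trans_lt hα)
  refine ⟨max i₁ i₂, fun k hk hKk β hβ => ⟨(hγ' k β hβ).trans ((le_max_left _ _).trans_lt hα),
    fun i hi => ?_⟩⟩
  have hkn : k ≤ n k := hn.id_le k
  have e1 : i₁ ≤ n k := (le_max_left _ _).trans (hKk.trans hkn)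
  have e2 : i₂ ≤ n k := (le_max_right _ _).trans (hKk.trans hkn)
  by_cases hir : r k ≤ i
  · exact (hr k β hβ i hir).trans (hi₁ i (e1.trans hi))
  · have h1 : f β i ≤ U k :=
      (Finset.le_sup (f := fun i => f β i) (Finset.mem_range.2 (_root_.not_le.1 hir))).trans
        (Finset.le_sup (f := fun β => (Finset.range (r k)).sup fun i => f β i) hβ)
    exact h1.trans ((show U k ≤ f α₁ (n k) from hk).trans ((hi₂ _ e2).trans (hf.mono α hi)))

/-- cliques -/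
def Cliq (f : W → ℕ → ℕ) (n : ℕ) (A : Set W) : Prop :=
  ∀ α ∈ A, ∀ β ∈ A, α < β → ∀ i, n ≤ i → f α i ≤ f β i

theorem Cliq.mono {n : ℕ} {A B : Set W} (h : Cliq f n B) (hAB : A ⊆ B) : Cliq f n A :=
  fun α hα β hβ => h α (hAB hα) β (hAB hβ)

theorem Scale.finite_cliq (hf : Scale W f) (F : Finset W) : ∃ N, ∀ n, N ≤ n → Cliq f n F := by
  classical
  have h1 : ∀ p : W × W, ∃ r, p.1 < p.2 → ∀ i, r ≤ i → f p.1 i ≤ f p.2 i := by
    intro p
    by_cases hp : p.1 < p.2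
    · obtain ⟨r, hr⟩ := hf.le _ _ hp
      exact ⟨r, fun _ => hr⟩
    · exact ⟨0, fun h => (hp h).elim⟩
  choose r hr using h1
  refine ⟨(F ×ˢ F).sup r, fun n hn α hα β hβ hαβ i hi => hr (α, β) hαβ i ?_⟩
  exact (Finset.le_sup (f := r) (Finset.mem_product.2 ⟨hα, hβ⟩)).trans (hn.trans hi)

/-- cliques are countable -/
theorem Scale.cliq_countable [WellFoundedLT W] (hf : Scale W f) {n : ℕ} {A : Set W}
    (hA : Cliq f n A) : A.Countable := by
  classical
  have h1 : ∀ α : A, ∃ p : ℕ × ℕ, (∃ β ∈ A, α.1 < β) → n ≤ p.1 ∧ f α.1 p.1 = p.2 ∧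
      ∀ β ∈ A, α.1 < β → p.2 < f β p.1 := by
    intro α
    by_cases hex : ∃ β ∈ A, α.1 < β
    · obtain ⟨δ, ⟨hδA, hδ⟩, hmin⟩ := WellFounded.has_min (wellFounded_lt (α := W))
        {β | β ∈ A ∧ α.1 < β} (by obtain ⟨β, hβ⟩ := hex; exact ⟨β, hβ⟩)
      have h2 : ¬ ∀ i, n ≤ i → f δ i ≤ f α.1 i := fun h => hf.not_le _ _ hδ ⟨n, h⟩
      push Not at h2
      obtain ⟨i, hi, hlt⟩ := h2
      refine ⟨(i, f α.1 i), fun _ => ⟨hi, rfl, fun β hβ hαβ => ?_⟩⟩
      have h3 : δ ≤ β := not_lt.1 (hmin β ⟨hβ, hαβ⟩)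
      rcases h3.lt_or_eq with h4 | h4
      · exact hlt.trans_le (hA δ hδA β hβ h4 i hi)
      · rw [← h4]; exact hlt
    · exact ⟨(0, 0), fun h => (hex h).elim⟩
  choose p hp using h1
  -- the non-maximal elements
  have h2 : {α : A | ∃ β ∈ A, α.1 < β}.Countable := by
    rw [Set.countable_iff_exists_injOn]
    obtain ⟨e⟩ : Nonempty (ℕ × ℕ ≃ ℕ) := ⟨Nat.pairEquiv⟩
    refine ⟨fun α => e (p α), ?_⟩
    intro α hα β hβ hαβ
    have hpp : p α = p β := e.injective hαβ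
    by_contra hne
    rcases lt_trichotomy α.1 β.1 with h | h | h
    · have h3 := (hp α hα).2.2 β.1 β.2 h
      rw [hpp, (hp β hβ).2.1] at h3
      exact lt_irrefl _ h3
    · exact hne (Subtype.ext h)
    · have h3 := (hp β hβ).2.2 α.1 α.2 h
      rw [← hpp, (hp α hα).2.1] at h3
      exact lt_irrefl _ h3
  have h3 : {α : A | ¬ ∃ β ∈ A, α.1 < β}.Countable := by
    refine Set.Subsingleton.countable ?_
    intro α hα β hβ
    rcases lt_trichotomy α.1 β.1 with h | h | h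
    · exact (hα ⟨β.1, β.2, h⟩).elim
    · exact Subtype.ext h
    · exact (hβ ⟨α.1, α.2, h⟩).elim
  have h4 : (univ : Set A).Countable := by
    refine (h2.union h3).mono fun α _ => ?_
    by_cases h : ∃ β ∈ A, α.1 < β
    · exact Or.inl h
    · exact Or.inr h
  exact Set.countable_univ_iff.1 h4

end

end Pool.Agent.X200.BScale
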