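import Mathlib

/-!
A power of the two-point space that is selectively highly divergent.
-/

namespace Pool.Agent.X200.ShdCube

open Set Topology Filter

/-- Selectively highly divergent spaces. -/
def SHD (X : Type*) [TopologicalSpace X] : Prop :=
  ∀ U : ℕ → Set X, (∀ n, IsOpen (U n) ∧ (U n).Nonempty) →
    ∃ x : ℕ → X, (∀ n, x n ∈ U n) ∧
      ¬ ∃ (k : ℕ → ℕ) (a : X), StrictMono k ∧ Tendsto (fun m => x (k m)) atTop (𝓝 a)

/-- the index set -/
abbrev I : Type := ℕ → Bool

theorem I_uncountable (C : Set I) (hC : C.Countable) (Φ : (ℕ → Bool) → I)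
    (hΦ : Function.Injective Φ) : ∃ t, Φ t ∉ C := by
  have h4 : Cardinal.mk (ℕ → Bool) = 2 ^ Cardinal.aleph0 := by simp
  by_contra hcon
  push Not at hcon
  have h1 : (range Φ).Countable := hC.mono (by rintro _ ⟨t, rfl⟩; exact hcon t)
  have h2 : Countable (ℕ → Bool) := by
    have : Countable (range Φ) := h1
    exact (Equiv.ofInjective Φ hΦ).countable_iff.2 this
  have h3 : Cardinal.mk (ℕ → Bool) ≤ Cardinal.aleph0 := Cardinal.mk_le_aleph0_iff.2 h2
  rw [h4] at h3
  exact absurd h3 (not_le.2 (Cardinal.cantor _))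

theorem shd_cube : SHD (I → Bool) := by
  classical
  intro U hU
  have h1 : ∀ n, ∃ (F : Finset I) (z : I → Bool), ∀ x : I → Bool, (∀ i ∈ F, x i = z i) → x ∈ U n := by
    intro n
    obtain ⟨z, hz⟩ := (hU n).2
    obtain ⟨F, u, hu, huU⟩ := isOpen_pi_iff.1 (hU n).1 z hz
    refine ⟨F, z, fun x hx => huU fun i hi => ?_⟩
    rw [hx i hi]; exact (hu i hi).2
  choose F z hFz using h1
  let x : ℕ → I → Bool := fun n i => if i ∈ F n then z n i else i n
  refine ⟨x, fun n => hFz n _ fun i hi => by simp [x, hi], ?_⟩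
  rintro ⟨k, a, hk, ha⟩
  -- sequences that oscillate along `k`
  let Φ : (ℕ → Bool) → I := fun t n =>
    if h : ∃ m, k m = n then
      (if h.choose % 3 = 0 then true else if h.choose % 3 = 1 then false else t (h.choose / 3))
    else false
  have hΦ : ∀ t m, Φ t (k m) =
      (if m % 3 = 0 then true else if m % 3 = 1 then false else t (m / 3)) := by
    intro t m
    have h : ∃ m', k m' = k m := ⟨m, rfl⟩
    have hm : h.choose = m := hk.injective h.choose_spec
    simp only [Φ, dif_pos h, hm]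
  have hinj : Function.Injective Φ := by
    intro t t' htt
    funext m
    have h1 := congrFun htt (k (3 * m + 2))
    rw [hΦ, hΦ] at h1
    have h2 : (3 * m + 2) % 3 = 2 := by omega
    have h3 : (3 * m + 2) / 3 = m := by omega
    simpa [h2, h3] using h1
  obtain ⟨t, ht⟩ := I_uncountable (⋃ n, (F n : Set I))
    (countable_iUnion fun n => (F n).countable_toSet) Φ hinj
  have hnot : ∀ n, Φ t ∉ F n := fun n hn => ht (mem_iUnion.2 ⟨n, hn⟩)
  have hconv := (tendsto_pi_nhds.1 ha) (Φ t)
  rw [nhds_discrete, tendsto_pure] at hconv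
  obtain ⟨M, hM⟩ := eventually_atTop.1 hconv
  have e0 := hM (3 * M) (by omega)
  have e1 := hM (3 * M + 1) (by omega)
  simp only [x, hnot, if_false] at e0 e1
  rw [hΦ] at e0 e1
  have h2 : (3 * M) % 3 = 0 := by omega
  have h3 : (3 * M + 1) % 3 = 1 := by omega
  simp only [h2, h3, if_true, one_ne_zero, if_false] at e0 e1
  rw [← e0] at e1
  exact absurd e1 (by simp)

end Pool.Agent.X200.ShdCube
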