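import Mathlib
import Pool.Agent.X200.BScale
import Pool.Agent.X200.ShdCube

/-!
A selectively highly divergent Tychonoff space whose Stone-Cech compactification is not
selectively highly divergent.
-/

namespace Pool.Agent.X200.ShdBeta

open Set Topology Filter Pool.Agent.X200.BScale Pool.Agent.X200.ShdCube

/-- a compact selectively highly divergent space -/
abbrev Q : Type := I → Bool

section
variable {W : Type} [LinearOrder W]

theorem bfalse {b : Bool} (h : b ≠ true) : b = false := by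
  cases b
  · rfl
  · exact (h rfl).elim

/-- support -/
def supp (x : W → Bool) : Set W := {α | x α = true}

open Classical in
/-- indicator -/
noncomputable def ind (A : Set W) : W → Bool := fun α => decide (α ∈ A)

theorem supp_ind (A : Set W) : supp (ind A) = A := by
  ext α; simp [supp, ind]

/-- the second coordinate of a point of level `n` -/
def lv (n : ℕ) (q : Q) : ℕ → Q ⊕ Unit := fun m => if m = n then Sum.inl q else Sum.inr ()

/-- the second coordinate of a limit point -/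
def lim : ℕ → Q ⊕ Unit := fun _ => Sum.inr ()

/-- the ambient compact space -/
abbrev T (W : Type) : Type := (W → Bool) × (ℕ → Q ⊕ Unit)

variable (f : W → ℕ → ℕ)

/-- the space -/
def XS : Set (T W) :=
  {p | (∃ n q, p.2 = lv n q ∧ Cliq f n (supp p.1)) ∨ (p.2 = lim ∧ ¬ (supp p.1).Countable)}

variable {f}

theorem cont_lv (n : ℕ) : Continuous (lv n) := by
  refine continuous_pi fun m => ?_
  by_cases h : m = n
  · have : (fun q => lv n q m) = fun q => Sum.inl q := by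
      funext q; simp [lv, h]
    rw [this]; exact continuous_inl
  · have : (fun q => lv n q m) = fun _ => Sum.inr () := by
      funext q; simp [lv, h]
    rw [this]; exact continuous_const

theorem nb_pi {x : W → Bool} {O : Set (W → Bool)} (hO : O ∈ 𝓝 x) :
    ∃ J : Finset W, ∀ x', (∀ α ∈ J, x' α = x α) → x' ∈ O := by
  obtain ⟨U, hU, hUo, hx⟩ := mem_nhds_iff.1 hO
  obtain ⟨J, u, hu, hJ⟩ := isOpen_pi_iff.1 hUo x hx
  refine ⟨J, fun x' hx' => hU (hJ fun α hα => ?_)⟩
  rw [hx' α hα]; exact (hu α hα).2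

theorem near_level {x : W → Bool} {z : ℕ → Q ⊕ Unit} {O : Set (T W)} (hO : O ∈ 𝓝 (x, z)) :
    ∃ J : Finset W, ∃ V ∈ 𝓝 z, ∀ x' z', (∀ α ∈ J, x' α = x α) → z' ∈ V → (x', z') ∈ O := by
  obtain ⟨U, hU, V, hV, hUV⟩ := mem_nhds_prod_iff.1 hO
  obtain ⟨J, hJ⟩ := nb_pi hU
  exact ⟨J, V, hV, fun x' z' hx' hz' => hUV ⟨hJ x' hx', hz'⟩⟩

theorem lv_near {V : Set (ℕ → Q ⊕ Unit)} (hV : V ∈ 𝓝 lim) : ∃ N, ∀ n, N ≤ n → ∀ q, lv n q ∈ V := by
  obtain ⟨U, hU, hUo, hx⟩ := mem_nhds_iff.1 hV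
  obtain ⟨J, u, hu, hJ⟩ := isOpen_pi_iff.1 hUo _ hx
  refine ⟨J.sup id + 1, fun n hn q => hU (hJ fun m hm => ?_)⟩
  have h1 : m ≤ J.sup id := Finset.le_sup (f := id) hm
  have h2 : m ≠ n := by omega
  have h3 : lv n q m = lim m := by simp [lv, lim, h2]
  rw [h3]; exact (hu m hm).2

theorem near_limit {x : W → Bool} {O : Set (T W)} (hO : O ∈ 𝓝 (x, lim)) :
    ∃ (J : Finset W) (N : ℕ), ∀ n, N ≤ n → ∀ q x', (∀ α ∈ J, x' α = x α) → (x', lv n q) ∈ O := by
  obtain ⟨J, V, hV, h⟩ := near_level hO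
  obtain ⟨N, hN⟩ := lv_near hV
  exact ⟨J, N, fun n hn q x' hx' => h x' _ hx' (hN n hn q)⟩

/-- nonempty open sets contain small pieces of levels -/
theorem open_piece (hf : Scale W f) {p : T W} (hp : p ∈ XS f) {O : Set (T W)} (hO : O ∈ 𝓝 p) :
    ∃ (n : ℕ) (F : Finset W) (R : Set Q), IsOpen R ∧ R.Nonempty ∧ Cliq f n F ∧
      ∀ q ∈ R, (ind (F : Set W), lv n q) ∈ O := by
  classical
  obtain ⟨x, z⟩ := p
  have hagree : ∀ J : Finset W, ∀ α ∈ J, ind ((J.filter fun α => x α = true : Finset W) : Set W) α = x α := by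
    intro J α hα
    by_cases h : x α = true
    · simp [ind, hα, h]
    · simp [ind, h]
  rcases hp with ⟨n, q, hz, hc⟩ | ⟨hz, -⟩
  · have hz' : z = lv n q := hz
    subst hz'
    obtain ⟨J, V, hV, h⟩ := near_level hO
    obtain ⟨V', hV', hV'o, hmem⟩ := mem_nhds_iff.1 hV
    refine ⟨n, J.filter fun α => x α = true, lv n ⁻¹' V', hV'o.preimage (cont_lv n), ⟨q, hmem⟩,
      hc.mono ?_, fun q' hq' => h _ _ (hagree J) (hV' hq')⟩
    intro α hα
    exact (Finset.mem_filter.1 hα).2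
  · have hz' : z = lim := hz
    subst hz'
    obtain ⟨J, N, h⟩ := near_limit hO
    obtain ⟨N', hN'⟩ := hf.finite_cliq (J.filter fun α => x α = true)
    exact ⟨max N N', J.filter fun α => x α = true, univ, isOpen_univ, univ_nonempty,
      hN' _ (le_max_right _ _), fun q _ => h _ (le_max_left _ _) q _ (hagree J)⟩

/-- The space is selectively highly divergent. -/
theorem shd (hf : Scale W f) : SHD (XS f) := by
  classical
  intro U hU
  have h1 : ∀ k, ∃ (n : ℕ) (F : Finset W) (R : Set Q), IsOpen R ∧ R.Nonempty ∧ Cliq f n F ∧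
      ∀ q ∈ R, ∀ h : (ind (F : Set W), lv n q) ∈ XS f, (⟨_, h⟩ : XS f) ∈ U k := by
    intro k
    obtain ⟨p, hp⟩ := (hU k).2
    obtain ⟨O, hO, hOU⟩ := isOpen_induced_iff.1 (hU k).1
    have hpO : p.1 ∈ O := by
      have : p ∈ Subtype.val ⁻¹' O := by rw [hOU]; exact hp
      exact this
    obtain ⟨n, F, R, hR, hRne, hF, h⟩ := open_piece hf p.2 (hO.mem_nhds hpO)
    refine ⟨n, F, R, hR, hRne, hF, fun q hq hX => ?_⟩
    rw [← hOU]; exact h q hq
  choose n F R hR hRne hF hRU using h1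
  obtain ⟨r, hrR, hr⟩ := shd_cube R fun k => ⟨hR k, hRne k⟩
  have hmem : ∀ k, (ind (F k : Set W), lv (n k) (r k)) ∈ XS f := fun k =>
    Or.inl ⟨n k, r k, rfl, by rw [supp_ind]; exact hF k⟩
  refine ⟨fun k => ⟨_, hmem k⟩, fun k => hRU k _ (hrR k) (hmem k), ?_⟩
  rintro ⟨k, a, hk, ha⟩
  have ha' : Tendsto (fun m => (ind (F (k m) : Set W), lv (n (k m)) (r (k m)))) atTop (𝓝 a.1) :=
    (continuous_subtype_val.tendsto a).comp ha
  rcases a.2 with ⟨n₀, q, hz, -⟩ | ⟨-, hunc⟩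
  · -- a level
    have h2 : Tendsto (fun m => lv (n (k m)) (r (k m)) n₀) atTop (𝓝 (a.1.2 n₀)) :=
      ((continuous_apply n₀).comp continuous_snd).continuousAt.tendsto.comp ha'
    rw [hz] at h2
    have h3 : lv n₀ q n₀ = Sum.inl q := by simp [lv]
    rw [h3] at h2
    have h4 : ∀ᶠ m in atTop, lv (n (k m)) (r (k m)) n₀ ∈ range (Sum.inl : Q → Q ⊕ Unit) :=
      h2.eventually (isOpen_range_inl.mem_nhds ⟨q, rfl⟩)
    have h5 : ∀ᶠ m in atTop, lv (n (k m)) (r (k m)) n₀ = Sum.inl (r (k m)) := by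
      refine h4.mono fun m hm => ?_
      obtain ⟨q', hq'⟩ := hm
      by_cases h : n₀ = n (k m)
      · simp [lv, h]
      · simp [lv, h] at hq'
    have h6 : Tendsto (fun m => (Sum.inl (r (k m)) : Q ⊕ Unit)) atTop (𝓝 (Sum.inl q)) :=
      h2.congr' h5
    have h7 : Tendsto (fun m => r (k m)) atTop (𝓝 q) :=
      (Topology.IsEmbedding.inl.tendsto_nhds_iff).2 h6
    exact hr ⟨k, q, hk, h7⟩
  · apply hunc
    refine (countable_iUnion fun m => (F m).countable_toSet).mono fun α hα => ?_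
    have h2 : Tendsto (fun m => ind (F (k m) : Set W) α) atTop (𝓝 (a.1.1 α)) :=
      ((continuous_apply α).comp continuous_fst).continuousAt.tendsto.comp ha'
    rw [nhds_discrete, tendsto_pure] at h2
    obtain ⟨m, hm⟩ := h2.exists
    have h3 : a.1.1 α = true := hα
    rw [h3] at hm
    refine mem_iUnion.2 ⟨k m, ?_⟩
    simpa [ind] using hm

/-- accumulation at points of uncountable support -/
theorem acc (hf : Scale W f) (x : ℕ → W → Bool) (n : ℕ → ℕ) (hn : StrictMono n)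
    (hx : ∀ j, Cliq f (n j) (supp (x j))) (a : W → Bool) (ha : ∀ α, ∀ᶠ j in atTop, x j α = a α)
    (J : ℕ → Finset W) :
    ∃ α₀, ∀ y : Set W, (∀ α ∈ y, a α = true ∨ (α₀ < α ∧ ∀ j, α ∉ J j)) →
      (∀ α, a α = true → α ∈ y) → ∀ (J' : Finset W) (N : ℕ), ∃ j, N ≤ n j ∧ ∃ A : Set W,
        Cliq f (n j) A ∧ (∀ α ∈ J j, (α ∈ A ↔ x j α = true)) ∧ ∀ α ∈ J', (α ∈ A ↔ α ∈ y) := by
  classical
  obtain ⟨α₀, B, hB, hkey⟩ := hf.key hn fun j => (J j).filter fun α => x j α = true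
  refine ⟨α₀, fun y hy1 hy2 J' N => ?_⟩
  obtain ⟨N₂, hN₂⟩ := hf.finite_cliq J'
  have e1 : ∀ᶠ j in atTop, ∀ α ∈ J', x j α = a α := (Filter.eventually_all_finset J').2 fun α _ => ha α
  have e2 : ∀ᶠ j in atTop, N ≤ n j := hn.tendsto_atTop.eventually_ge_atTop N
  have e3 : ∀ᶠ j in atTop, N₂ ≤ n j := hn.tendsto_atTop.eventually_ge_atTop N₂
  have e4 : ∀ᶠ j in atTop, ∀ α ∈ J', α₀ < α → j ∈ B →
      ∀ β ∈ (J j).filter (fun α => x j α = true), β < α ∧ ∀ i, n j ≤ i → f β i ≤ f α i := by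
    refine (Filter.eventually_all_finset J').2 fun α _ => ?_
    by_cases hα : α₀ < α
    · obtain ⟨K, hK⟩ := hkey α hα
      exact eventually_atTop.2 ⟨K, fun j hj _ hjB => hK j hjB hj⟩
    · exact Filter.Eventually.of_forall fun j h => (hα h).elim
  obtain ⟨j, hjB, h1, h2, h3, h4⟩ :=
    ((Nat.frequently_atTop_iff_infinite.2 hB).and_eventually (e1.and (e2.and (e3.and e4)))).exists
  have h4' : ∀ α ∈ J', α₀ < α → ∀ β, β ∈ J j → x j β = true →
      β < α ∧ ∀ i, n j ≤ i → f β i ≤ f α i := fun α hα hα0 β hβ hβ' =>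
    h4 α hα hα0 hjB β (Finset.mem_filter.2 ⟨hβ, hβ'⟩)
  refine ⟨j, h2, {α | (α ∈ J j ∧ x j α = true) ∨ (α ∈ J' ∧ α ∈ y)}, ?_, ?_, ?_⟩
  · rintro α (⟨hα, hα'⟩ | ⟨hα, hα'⟩) β (⟨hβ, hβ'⟩ | ⟨hβ, hβ'⟩) hαβ
    · exact hx j α hα' β hβ' hαβ
    · rcases hy1 β hβ' with h | ⟨h, -⟩
      · exact hx j α hα' β ((h1 β hβ).trans h) hαβ
      · exact (h4' β hβ h α hα hα').2
    · rcases hy1 α hα' with h | ⟨h, -⟩
      · exact hx j α ((h1 α hα).trans h) β hβ' hαβ
      · exact absurd (h4' α hα h β hβ hβ').1 (not_lt.2 hαβ.le)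
    · exact hN₂ (n j) h3 α hα β hβ hαβ
  · intro α hα
    constructor
    · rintro (⟨_, h⟩ | ⟨hα', hαy⟩)
      · exact h
      · rcases hy1 α hαy with h | ⟨-, h⟩
        · exact (h1 α hα').trans h
        · exact (h j hα).elim
    · intro h; exact Or.inl ⟨hα, h⟩
  · intro α hα
    constructor
    · rintro (⟨_, h⟩ | ⟨_, h⟩)
      · exact hy2 α ((h1 α hα).symm.trans h)
      · exact h
    · intro h; exact Or.inr ⟨hα, h⟩

/-- a continuous function does not oscillate along a pointwise convergent sequence -/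
theorem no_osc (hf : Scale W f) (g : XS f → ℝ) (hg : Continuous g) (x : ℕ → W → Bool) (q : ℕ → Q)
    (n : ℕ → ℕ) (hn : StrictMono n) (hx : ∀ j, Cliq f (n j) (supp (x j))) (a : W → Bool)
    (ha : ∀ α, ∀ᶠ j in atTop, x j α = a α) (pt : ℕ → XS f)
    (hpt : ∀ j, (pt j).1 = (x j, lv (n j) (q j))) {c d : ℝ} (hcd : c < d)
    (h0 : ∃ᶠ j in atTop, g (pt j) < c) (h1 : ∃ᶠ j in atTop, d < g (pt j)) : False := by
  classical
  obtain ⟨φ₀, hφ₀, hg0⟩ := Filter.extraction_of_frequently_atTop h0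
  obtain ⟨φ₁, hφ₁, hg1⟩ := Filter.extraction_of_frequently_atTop h1
  -- neighbourhoods at levels
  have hlev : ∀ (S : Set ℝ), IsOpen S → ∀ j, g (pt j) ∈ S → ∃ J : Finset W, ∀ p : XS f,
      p.1.2 = lv (n j) (q j) → (∀ α ∈ J, p.1.1 α = x j α) → g p ∈ S := by
    intro S hS j hj
    obtain ⟨O, hO, hOg⟩ := isOpen_induced_iff.1 (hS.preimage hg)
    have hmem : (pt j).1 ∈ O := by
      have : pt j ∈ Subtype.val ⁻¹' O := by rw [hOg]; exact hj
      exact this
    rw [hpt] at hmem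
    obtain ⟨J, V, hV, h⟩ := near_level (hO.mem_nhds hmem)
    refine ⟨J, fun p hp1 hp2 => ?_⟩
    have : p ∈ Subtype.val ⁻¹' O := by
      show p.1 ∈ O
      have := h p.1.1 p.1.2 hp2 (by rw [hp1]; exact mem_of_mem_nhds hV)
      exact this
    rw [hOg] at this; exact this
  choose J₀ hJ₀ using fun j => hlev (Iio c) isOpen_Iio (φ₀ j) (hg0 j)
  choose J₁ hJ₁ using fun j => hlev (Ioi d) isOpen_Ioi (φ₁ j) (hg1 j)
  obtain ⟨α₀, hα₀⟩ := acc hf (fun j => x (φ₀ j)) (fun j => n (φ₀ j)) (hn.comp hφ₀)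
    (fun j => hx _) a (fun α => hφ₀.tendsto_atTop.eventually (ha α)) J₀
  obtain ⟨α₁, hα₁⟩ := acc hf (fun j => x (φ₁ j)) (fun j => n (φ₁ j)) (hn.comp hφ₁)
    (fun j => hx _) a (fun α => hφ₁.tendsto_atTop.eventually (ha α)) J₁
  let C : Set W := (⋃ j, (J₀ j : Set W)) ∪ ⋃ j, (J₁ j : Set W)
  have hC : C.Countable := (countable_iUnion fun j => (J₀ j).countable_toSet).union
    (countable_iUnion fun j => (J₁ j).countable_toSet)
  let y : Set W := {α | a α = true} ∪ {α | max α₀ α₁ < α ∧ α ∉ C}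
  have hy : ¬ y.Countable := fun h => hf.tail (max α₀ α₁) hC (h.mono subset_union_right)
  have hyX : (ind y, lim) ∈ XS f := Or.inr ⟨rfl, by rw [supp_ind]; exact hy⟩
  -- neighbourhoods of the limit point
  have hlimn : ∀ (S : Set ℝ), IsOpen S → g ⟨_, hyX⟩ ∈ S → ∃ (J : Finset W) (N : ℕ),
      ∀ p : XS f, (∃ m, N ≤ m ∧ ∃ q, p.1.2 = lv m q) → (∀ α ∈ J, (p.1.1 α = true ↔ α ∈ y)) → g p ∈ S := by
    intro S hS hj
    obtain ⟨O, hO, hOg⟩ := isOpen_induced_iff.1 (hS.preimage hg)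
    have hmem : ((ind y, lim) : T W) ∈ O := by
      have : (⟨_, hyX⟩ : XS f) ∈ Subtype.val ⁻¹' O := by rw [hOg]; exact hj
      exact this
    obtain ⟨J, N, h⟩ := near_limit (hO.mem_nhds hmem)
    refine ⟨J, N, ?_⟩
    rintro p ⟨m, hm, q, hq⟩ hp
    have : p ∈ Subtype.val ⁻¹' O := by
      show p.1 ∈ O
      have h2 := h m hm q p.1.1 (fun α hα => by
        have h3 := hp α hα
        by_cases hαy : α ∈ y
        · rw [h3.2 hαy]; simp [ind, hαy]
        · have h4 : p.1.1 α = false := bfalse fun h => hαy (h3.1 h)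
          rw [h4]; simp [ind, hαy])
      have h5 : p.1 = (p.1.1, lv m q) := by rw [← hq]
      rw [h5]; exact h2
    rw [hOg] at this; exact this
  have hle : g ⟨_, hyX⟩ ≤ c := by
    by_contra hcon
    obtain ⟨J', N, h⟩ := hlimn (Ioi c) isOpen_Ioi (not_le.1 hcon)
    obtain ⟨j, hj, A, hA1, hA2, hA3⟩ := hα₀ y (by
      rintro α (h | ⟨h, h'⟩)
      · exact Or.inl h
      · exact Or.inr ⟨(le_max_left _ _).trans_lt h, fun j hj => h' (Or.inl (mem_iUnion.2 ⟨j, hj⟩))⟩)
      (fun α hα => Or.inl hα) J' N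
    have hmem : (ind A, lv (n (φ₀ j)) (q (φ₀ j))) ∈ XS f :=
      Or.inl ⟨_, _, rfl, by rw [supp_ind]; exact hA1⟩
    have k1 := h ⟨_, hmem⟩ ⟨_, hj, _, rfl⟩ (fun α hα => by
      rw [← hA3 α hα]; simp [ind])
    have k2 := hJ₀ j ⟨_, hmem⟩ rfl (fun α hα => by
      have := hA2 α hα
      show ind A α = x (φ₀ j) α
      by_cases hαA : α ∈ A
      · rw [this.1 hαA]; simp [ind, hαA]
      · have h4 : x (φ₀ j) α = false := bfalse fun h => hαA (this.2 h)
        rw [h4]; simp [ind, hαA])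
    exact lt_irrefl _ (lt_trans (show c < g _ from k1) (show g _ < c from k2))
  have hge : d ≤ g ⟨_, hyX⟩ := by
    by_contra hcon
    obtain ⟨J', N, h⟩ := hlimn (Iio d) isOpen_Iio (not_le.1 hcon)
    obtain ⟨j, hj, A, hA1, hA2, hA3⟩ := hα₁ y (by
      rintro α (h | ⟨h, h'⟩)
      · exact Or.inl h
      · exact Or.inr ⟨(le_max_right _ _).trans_lt h, fun j hj => h' (Or.inr (mem_iUnion.2 ⟨j, hj⟩))⟩)
      (fun α hα => Or.inl hα) J' N
    have hmem : (ind A, lv (n (φ₁ j)) (q (φ₁ j))) ∈ XS f :=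
      Or.inl ⟨_, _, rfl, by rw [supp_ind]; exact hA1⟩
    have k1 := h ⟨_, hmem⟩ ⟨_, hj, _, rfl⟩ (fun α hα => by
      rw [← hA3 α hα]; simp [ind])
    have k2 := hJ₁ j ⟨_, hmem⟩ rfl (fun α hα => by
      have := hA2 α hα
      show ind A α = x (φ₁ j) α
      by_cases hαA : α ∈ A
      · rw [this.1 hαA]; simp [ind, hαA]
      · have h4 : x (φ₁ j) α = false := bfalse fun h => hαA (this.2 h)
        rw [h4]; simp [ind, hαA])
    exact lt_irrefl _ (lt_trans (show g _ < d from k1) (show d < g _ from k2))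
  exact absurd hcd (not_lt.2 (hge.trans hle))

/-! ### The Stone-Cech compactification -/

variable (f) in
/-- the points of level `n` -/
def lev (n : ℕ) : Set (XS f) := {p | p.1.2 n ∈ range (Sum.inl : Q → Q ⊕ Unit)}

theorem lev_spec {n : ℕ} {p : XS f} (hp : p ∈ lev f n) :
    ∃ q, p.1.2 = lv n q ∧ Cliq f n (supp p.1.1) := by
  obtain ⟨q', hq'⟩ := hp
  rcases p.2 with ⟨m, q, hz, hc⟩ | ⟨hz, _⟩
  · rw [hz] at hq'
    by_cases h : n = m
    · subst h; exact ⟨q, hz, hc⟩
    · simp [lv, h] at hq'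
  · rw [hz] at hq'
    simp [lim] at hq'

theorem mem_lev {n : ℕ} {p : XS f} {q : Q} (hp : p.1.2 = lv n q) : p ∈ lev f n := by
  refine ⟨q, ?_⟩
  rw [hp]; simp [lv]

theorem isClopen_lev (n : ℕ) : IsClopen (lev f n) := by
  have h1 : Continuous fun p : XS f => p.1.2 n :=
    (continuous_apply n).comp (continuous_snd.comp continuous_subtype_val)
  exact ⟨isClosed_range_inl.preimage h1, isOpen_range_inl.preimage h1⟩

theorem isClosed_cliq (n : ℕ) : IsClosed {x : W → Bool | Cliq f n (supp x)} := by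
  have h1 : {x : W → Bool | Cliq f n (supp x)} = ⋂ (α : W) (β : W) (_ : α < β)
      (_ : ∃ i, n ≤ i ∧ ¬ f α i ≤ f β i), {x | ¬ (x α = true ∧ x β = true)} := by
    ext x
    simp only [mem_iInter]
    constructor
    · rintro h α β hαβ ⟨i, hi, hi'⟩ ⟨h1, h2⟩
      exact hi' (h α h1 β h2 hαβ i hi)
    · intro h α hα β hβ hαβ i hi
      by_contra hi'
      exact h α β hαβ ⟨i, hi, hi'⟩ ⟨hα, hβ⟩
  rw [h1]
  refine isClosed_iInter fun α => isClosed_iInter fun β => isClosed_iInter fun _ =>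
    isClosed_iInter fun _ => ?_
  have h3 : ∀ γ : W, IsOpen {x : W → Bool | x γ = true} := fun γ => by
    have hc : Continuous fun x : W → Bool => x γ := continuous_apply γ
    exact (isOpen_discrete ({true} : Set Bool)).preimage hc
  have h2 : IsOpen {x : W → Bool | x α = true ∧ x β = true} := (h3 α).inter (h3 β)
  exact h2.isClosed_compl

theorem isCompact_lev (n : ℕ) : IsCompact (lev f n) := by
  rw [Subtype.isCompact_iff]
  have h1 : Subtype.val '' lev f n = {p : T W | p.2 ∈ range (lv n)} ∩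
      {p : T W | Cliq f n (supp p.1)} := by
    ext p
    constructor
    · rintro ⟨p, hp, rfl⟩
      obtain ⟨q, hq, hc⟩ := lev_spec hp
      exact ⟨⟨q, hq.symm⟩, hc⟩
    · rintro ⟨⟨q, hq⟩, hc⟩
      exact ⟨⟨p, Or.inl ⟨n, q, hq.symm, hc⟩⟩, mem_lev hq.symm, rfl⟩
  rw [h1]
  refine IsClosed.isCompact (IsClosed.inter ?_ ?_)
  · exact (isCompact_range (cont_lv n)).isClosed.preimage continuous_snd
  · exact (isClosed_cliq n).preimage continuous_fst

theorem not_shd_beta [WellFoundedLT W] (hf : Scale W f) : ¬ SHD (StoneCech (XS f)) := by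
  classical
  intro hS
  -- clopen sets of the compactification
  let h : ℕ → XS f → Bool := fun n p => decide (p ∈ lev f n)
  have hh : ∀ n, Continuous (h n) := by
    intro n
    refine (IsLocallyConstant.iff_continuous _).1 ?_
    rw [IsLocallyConstant.iff_exists_open]
    intro p
    by_cases hp : p ∈ lev f n
    · refine ⟨lev f n, (isClopen_lev n).isOpen, hp, fun p' hp' => ?_⟩
      simp [h, hp, hp']
    · refine ⟨(lev f n)ᶜ, (isClopen_lev n).compl.isOpen, hp, fun p' hp' => ?_⟩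
      have : p' ∉ lev f n := hp'
      simp [h, hp, this]
  let V : ℕ → Set (StoneCech (XS f)) := fun n => stoneCechExtend (hh n) ⁻¹' {true}
  have hVo : ∀ n, IsOpen (V n) := fun n =>
    (isOpen_discrete _).preimage (continuous_stoneCechExtend (hh n))
  have hext : ∀ n p, stoneCechExtend (hh n) (stoneCechUnit p) = h n p := fun n p =>
    congrFun (stoneCechExtend_extends (hh n)) p
  have hV : ∀ n, V n ⊆ stoneCechUnit '' lev f n := by
    intro n z hz
    by_contra hcon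
    have hcl : IsClosed (stoneCechUnit '' lev f n) :=
      ((isCompact_lev n).image continuous_stoneCechUnit).isClosed
    obtain ⟨_, ⟨hw1, hw2⟩, ⟨p, rfl⟩⟩ := denseRange_stoneCechUnit.inter_open_nonempty
      (V n ∩ (stoneCechUnit '' lev f n)ᶜ) ((hVo n).inter hcl.isOpen_compl) ⟨z, hz, hcon⟩
    have h1 : stoneCechExtend (hh n) (stoneCechUnit p) = true := hw1
    rw [hext] at h1
    have h2 : p ∈ lev f n := by simpa [h] using h1
    exact hw2 ⟨p, h2, rfl⟩
  have hVne : ∀ n, (V n).Nonempty := by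
    intro n
    have hmem : (ind (∅ : Set W), lv n (fun _ => false)) ∈ XS f :=
      Or.inl ⟨n, _, rfl, by rw [supp_ind]; intro α hα; exact hα.elim⟩
    refine ⟨stoneCechUnit ⟨_, hmem⟩, ?_⟩
    show stoneCechExtend (hh n) _ = true
    rw [hext]
    have : (⟨_, hmem⟩ : XS f) ∈ lev f n := mem_lev rfl
    simp [h, this]
  obtain ⟨z, hz, hno⟩ := hS V fun n => ⟨hVo n, hVne n⟩
  choose p hp hpz using fun n => hV n (hz n)
  choose q hq hc using fun n => lev_spec (hp n)
  -- a pointwise convergent subsequence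
  let C : Set W := ⋃ n, supp (p n).1.1
  have hC : C.Countable := countable_iUnion fun n => hf.cliq_countable (hc n)
  have hC' : Countable C := hC
  obtain ⟨b, k, hk, hb⟩ := CompactSpace.tendsto_subseq (fun n => fun i : C => (p n).1.1 i)
  let a : W → Bool := fun i => if h : i ∈ C then b ⟨i, h⟩ else false
  have ha : ∀ α, ∀ᶠ j in atTop, (p (k j)).1.1 α = a α := by
    intro α
    by_cases hα : α ∈ C
    · have h1 := (tendsto_pi_nhds.1 hb) ⟨α, hα⟩
      rw [nhds_discrete, tendsto_pure] at h1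
      refine h1.mono fun j hj => ?_
      simp only [a, dif_pos hα]
      exact hj
    · refine Filter.Eventually.of_forall fun j => ?_
      simp only [a, dif_neg hα]
      exact bfalse fun h => hα (mem_iUnion.2 ⟨k j, h⟩)
  apply hno
  obtain ⟨w, hw⟩ := exists_clusterPt_of_compactSpace (Filter.map (fun j => z (k j)) atTop)
  refine ⟨k, w, hk, ?_⟩
  refine le_nhds_of_unique_clusterPt fun w' hw' => ?_
  by_contra hne
  obtain ⟨G, hG0, hG1, -⟩ := exists_continuous_zero_one_of_isClosed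
    (isClosed_singleton (x := w)) (isClosed_singleton (x := w'))
    (by rw [disjoint_singleton]; exact fun h => hne h.symm)
  have hG0' : G w = 0 := hG0 rfl
  have hG1' : G w' = 1 := hG1 rfl
  have f0 : ∃ᶠ j in atTop, G (z (k j)) < 1 / 3 := by
    have h1 : G ⁻¹' Iio (1 / 3) ∈ 𝓝 w := (isOpen_Iio.preimage G.continuous).mem_nhds (by
      show G w < 1 / 3
      rw [hG0']; norm_num)
    exact (mapClusterPt_iff_frequently.1 hw) _ h1
  have f1 : ∃ᶠ j in atTop, 2 / 3 < G (z (k j)) := by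
    have h1 : G ⁻¹' Ioi (2 / 3) ∈ 𝓝 w' := (isOpen_Ioi.preimage G.continuous).mem_nhds (by
      show 2 / 3 < G w'
      rw [hG1']; norm_num)
    exact (mapClusterPt_iff_frequently.1 hw') _ h1
  refine no_osc hf (fun p => G (stoneCechUnit p)) (G.continuous.comp continuous_stoneCechUnit)
    (fun j => (p (k j)).1.1) (fun j => q (k j)) k hk (fun j => hc (k j)) a ha (fun j => p (k j))
    (fun j => ?_) (c := 1 / 3) (d := 2 / 3) (by norm_num) ?_ ?_
  · rw [← hq (k j)]
  · refine f0.mono fun j hj => ?_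
    rw [hpz]; exact hj
  · refine f1.mono fun j hj => ?_
    rw [hpz]; exact hj

theorem not_compact : ¬ CompactSpace (XS f) := by
  classical
  intro hcs
  have hcl : IsClosed (XS f) := (isCompact_iff_compactSpace.2 hcs).isClosed
  have h1 : ((ind ∅, lim) : T W) ∉ XS f := by
    rintro (⟨n, q, hz, -⟩ | ⟨-, h⟩)
    · have := congrFun hz n
      simp [lim, lv] at this
    · rw [supp_ind] at h
      exact h countable_empty
  obtain ⟨J, N, h⟩ := near_limit (hcl.isOpen_compl.mem_nhds h1)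
  exact h N le_rfl (fun _ => false) (ind ∅) (fun _ _ => rfl)
    (Or.inl ⟨N, _, rfl, by rw [supp_ind]; intro α hα; exact hα.elim⟩)

end

theorem main : ∃ (X : Type) (_ : TopologicalSpace X), T35Space X ∧ ¬ CompactSpace X ∧ SHD X ∧
    ¬ SHD (StoneCech X) := by
  obtain ⟨W, _, _, f, hf⟩ := exists_scale
  exact ⟨XS f, inferInstance, inferInstance, not_compact, shd hf, not_shd_beta hf⟩

end Pool.Agent.X200.ShdBeta
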