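import Mathlib
import Pool.Agent.X200.JensFus

/-!
An abstract fusion lemma for perfect subsets of the Cantor space.
-/

set_option autoImplicit false

namespace Pool.Agent.X200.Sac

open Set Topology Filter Pool.Agent.X200.Jens

/-- families of allowed pieces -/
structure Good (𝒜 : Set (Set K)) : Prop where
  cl : ∀ A ∈ 𝒜, IsClosed A
  nt : ∀ A ∈ 𝒜, A.Nontrivial
  cut : ∀ A ∈ 𝒜, ∀ C, IsClopen C → (A ∩ C).Nonempty → ∃ A' ∈ 𝒜, A' ⊆ A ∩ C

theorem Good.split {𝒜 : Set (Set K)} (h : Good 𝒜) (A : 𝒜) (n : ℕ) :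
    ∃ B : Bool → 𝒜, (∀ b, (B b : Set K) ⊆ A) ∧
      (∀ b, ∀ y ∈ (B b : Set K), ∀ z ∈ (B b : Set K), ∀ k < n, y k = z k) ∧
      Disjoint (B false : Set K) (B true : Set K) := by
  obtain ⟨y, hy, z, hz, hyz⟩ := h.nt A A.2
  obtain ⟨m, hm⟩ := cyl_sep hyz.symm
  let N := max m n
  let w : Bool → K := fun b => if b then z else y
  have hw : ∀ b, w b ∈ (A : Set K) := by
    intro b; cases b
    · exact hy
    · exact hz
  have h1 : ∀ b, ∃ B ∈ 𝒜, B ⊆ (A : Set K) ∩ cyl (w b) N := fun b =>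
    h.cut A A.2 _ (isClopen_cyl _ _) ⟨w b, hw b, mem_cyl _ _⟩
  choose B hB hB' using h1
  refine ⟨fun b => ⟨B b, hB b⟩, fun b => (hB' b).trans inter_subset_left, ?_, ?_⟩
  · intro b u hu v hv k hk
    have h2 := (hB' b hu).2 k (hk.trans_le (le_max_right m n))
    have h3 := (hB' b hv).2 k (hk.trans_le (le_max_right m n))
    rw [h2, h3]
  · rw [disjoint_left]
    intro u hu hv
    apply hm
    intro k hk
    have h2 := (hB' false hu).2 k (hk.trans_le (le_max_left m n))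
    have h3 := (hB' true hv).2 k (hk.trans_le (le_max_left m n))
    have h4 : u k = y k := h2
    have h5 : u k = z k := h3
    rw [← h4, ← h5]

theorem fusion {J : Type} {𝒜 : Set (Set K)} (h : Good 𝒜) (P : J → Set K) (hP : ∀ j, P j ∈ 𝒜)
    (R : ℕ → (J × List Bool → Set K) → Prop)
    (hR : ∀ n (T : J × List Bool → Set K), (∀ i, T i ∈ 𝒜) →
      ∃ T' : J × List Bool → Set K, (∀ i, T' i ∈ 𝒜) ∧ (∀ i, T' i ⊆ T i) ∧ R n T') :
    ∃ (T : ℕ → J × List Bool → Set K) (r : J → Set K),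
      (∀ n, R n (T n)) ∧ (∀ n i, T n i ∈ 𝒜) ∧ (∀ j, IsClosed (r j)) ∧ (∀ j, Pf (r j)) ∧
      (∀ j, (r j).Nonempty) ∧ (∀ j, r j ⊆ P j) ∧
      (∀ n j, ∀ y ∈ r j, ∃ v ∈ V n, y ∈ T n (j, v)) ∧
      (∀ n i, ∀ y ∈ T n i, ∀ z ∈ T n i, ∀ k < n, y k = z k) := by
  classical
  have hsp := h.split
  choose B hB1 hB2 hB3 using hsp
  have hR' : ∀ n (T : J × List Bool → 𝒜), ∃ T' : J × List Bool → 𝒜,
      (∀ i, (T' i : Set K) ⊆ T i) ∧ R n (fun i => T' i) := by
    intro n T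
    obtain ⟨T', h1, h2, h3⟩ := hR n (fun i => T i) (fun i => (T i).2)
    exact ⟨fun i => ⟨T' i, h1 i⟩, h2, h3⟩
  choose D hD1 hD2 using hR'
  let S : ℕ → (J × List Bool → 𝒜) → J × List Bool → 𝒜 := fun n T i =>
    B (T (i.1, i.2.tail)) (n + 1) (i.2.headD false)
  let P' : J → 𝒜 := fun j => ⟨P j, hP j⟩
  obtain ⟨T, hT0, hTs⟩ : ∃ T : ℕ → J × List Bool → 𝒜, (T 0 = D 0 fun i => P' i.1) ∧
      ∀ n, T (n + 1) = D (n + 1) (S n (T n)) :=
    ⟨fun n => Nat.rec (D 0 fun i => P' i.1) (fun n T => D (n + 1) (S n T)) n, rfl, fun _ => rfl⟩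
  have hTB : ∀ n i, (T (n + 1) i).1 ⊆ (B (T n (i.1, i.2.tail)) (n + 1) (i.2.headD false)).1 := by
    intro n i; rw [hTs]; exact hD1 _ _ i
  have hsub : ∀ (n : ℕ) (j : J) (v : List Bool), (T (n + 1) (j, v)).1 ⊆ (T n (j, v.tail)).1 := by
    intro n j v y hy
    have h1 := hTB n (j, v) hy
    exact hB1 (T n (j, v.tail)) (n + 1) (v.headD false) h1
  have hsmall : ∀ n i, ∀ y ∈ (T n i : Set K), ∀ z ∈ (T n i : Set K), ∀ k < n, y k = z k := by
    intro n i y hy z hz k hk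
    cases n with
    | zero => omega
    | succ n => exact hB2 _ _ _ y (hTB n i hy) z (hTB n i hz) k hk
  have hdis : ∀ n j v, Disjoint (T (n + 1) (j, false :: v) : Set K) (T (n + 1) (j, true :: v)) :=
    fun n j v => (hB3 (T n (j, v)) (n + 1)).mono (hTB n (j, false :: v)) (hTB n (j, true :: v))
  have tail_V : ∀ {s : ℕ} {v : List Bool}, v ∈ V (s + 1) → v.tail ∈ V s := by
    intro s v hv
    rw [mem_V] at hv ⊢
    rw [List.length_tail, hv]; rfl
  let U : J → ℕ → Set K := fun j s => ⋃ v ∈ V s, (T s (j, v) : Set K)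
  have hU : ∀ j s, U j (s + 1) ⊆ U j s := by
    intro j s y hy
    obtain ⟨v, hv, hyv⟩ := mem_iUnion₂.1 hy
    exact mem_iUnion₂.2 ⟨v.tail, tail_V hv, hsub s j v hyv⟩
  have hUa : ∀ j, Antitone (U j) := fun j => antitone_nat_of_succ_le (hU j)
  let r : J → Set K := fun j => ⋂ s, U j s
  have hrU : ∀ j s, r j ⊆ U j s := fun j s => iInter_subset _ s
  have hUcl : ∀ j s, IsClosed (U j s) := fun j s =>
    (V s).finite_toSet.isClosed_biUnion fun v _ => h.cl _ (T s (j, v)).2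
  have hrcl : ∀ j, IsClosed (r j) := fun j => isClosed_iInter (hUcl j)
  -- every piece meets `r j`
  have hrne : ∀ j s, ∀ v ∈ V s, (r j ∩ (T s (j, v) : Set K)).Nonempty := by
    intro j s v hv
    let w : ℕ → List Bool := fun n => List.replicate n false ++ v
    have hw : ∀ n, w n ∈ V (n + s) := by
      intro n; rw [mem_V] at hv ⊢; simp [w, hv]
    have hwt : ∀ n, (w (n + 1)).tail = w n := fun n => by simp [w, List.replicate_succ]
    have h2 : ∀ n, (T ((n + 1) + s) (j, w (n + 1)) : Set K) ⊆ T (n + s) (j, w n) := by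
      intro n
      have := hsub (n + s) j (w (n + 1))
      rw [hwt] at this
      rwa [show n + 1 + s = n + s + 1 by omega]
    obtain ⟨y, hy⟩ := IsCompact.nonempty_iInter_of_sequence_nonempty_isCompact_isClosed
      (fun n => (T (n + s) (j, w n) : Set K)) h2 (fun n => (h.nt _ (T _ _).2).nonempty)
      (h.cl _ (T _ _).2).isCompact (fun n => h.cl _ (T _ _).2)
    rw [mem_iInter] at hy
    refine ⟨y, mem_iInter.2 fun n => ?_, ?_⟩
    · exact hUa j (Nat.le_add_right n s) (mem_iUnion₂.2 ⟨w n, hw n, hy n⟩)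
    · have := hy 0
      simpa [w] using this
  refine ⟨fun n i => T n i, r, ?_, fun n i => (T n i).2, hrcl, ?_, ?_, ?_, ?_, hsmall⟩
  · intro n
    cases n with
    | zero =>
      show R 0 fun i => (T 0 i).1
      rw [hT0]
      exact hD2 0 _
    | succ n =>
      show R (n + 1) fun i => (T (n + 1) i).1
      rw [hTs]
      exact hD2 (n + 1) _
  · -- perfect
    intro j C hCc ⟨y, hyr, hyC⟩
    obtain ⟨n, hn⟩ := cyl_sub hCc.isOpen hyC
    obtain ⟨v, hv, hyv⟩ := mem_iUnion₂.1 (hrU j n hyr)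
    have h3 : (T n (j, v) : Set K) ⊆ C := fun z hz => hn fun k hk => hsmall n _ z hz y hyv k hk
    have hv' : ∀ b : Bool, (b :: v) ∈ V (n + 1) := by
      intro b; rw [mem_V] at hv ⊢; simp [hv]
    obtain ⟨y0, hy0, hy0'⟩ := hrne j (n + 1) _ (hv' false)
    obtain ⟨y1, hy1, hy1'⟩ := hrne j (n + 1) _ (hv' true)
    have h4 : ∀ b, (T (n + 1) (j, b :: v) : Set K) ⊆ C := fun b => (hsub n j (b :: v)).trans h3
    exact ⟨y0, ⟨hy0, h4 _ hy0'⟩, y1, ⟨hy1, h4 _ hy1'⟩, (hdis n j v).ne_of_mem hy0' hy1'⟩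
  · intro j
    obtain ⟨y, hy, -⟩ := hrne j 0 [] (mem_V.2 rfl)
    exact ⟨y, hy⟩
  · intro j y hy
    obtain ⟨v, -, hyv⟩ := mem_iUnion₂.1 (hrU j 0 hy)
    have h1 : (T 0 (j, v) : Set K) ⊆ P' j := by rw [hT0]; exact hD1 _ _ (j, v)
    exact h1 hyv
  · intro n j y hy
    obtain ⟨v, hv, hyv⟩ := mem_iUnion₂.1 (hrU j n hy)
    exact ⟨v, hv, hyv⟩

end Pool.Agent.X200.Sac
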