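import Mathlib
import Pool.Agent.X200.SacFus

/-!
Products of perfect sets and countably many Borel sets.
-/

set_option autoImplicit false

namespace Pool.Agent.X200.Sac

open Set Topology Filter Pool.Agent.X200.Jens

theorem good_pf (S : Set K) : Good {A | IsClosed A ∧ A.Nonempty ∧ Pf A ∧ A ⊆ S} where
  cl := fun _ h => h.1
  nt := fun A h => by
    have := h.2.2.1 univ isClopen_univ (by simpa using h.2.1)
    simpa using this
  cut := fun A h C hC hne => ⟨A ∩ C, ⟨h.1.inter hC.isClosed, hne, h.2.2.1.inter hC,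
    inter_subset_left.trans h.2.2.2⟩, Subset.rfl⟩

theorem good_clopen : Good {A : Set K | IsClopen A ∧ A.Nonempty} where
  cl := fun _ h => h.1.isClosed
  nt := fun A h => by
    have := pf_clopen h.1 univ isClopen_univ (by simpa using h.2)
    simpa using this
  cut := fun A h C hC hne => ⟨A ∩ C, ⟨h.1.inter hC, hne⟩, Subset.rfl⟩

theorem exists_box {I : Type} [Finite I] {U : Set (I → K)} (hU : IsOpen U) {y : I → K}
    (hy : y ∈ U) : ∃ C : I → Set K, (∀ i, IsClopen (C i) ∧ y i ∈ C i) ∧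
      ∀ z : I → K, (∀ i, z i ∈ C i) → z ∈ U := by
  obtain ⟨u, hu, huU⟩ := isOpen_pi_iff'.1 hU y hy
  have h1 : ∀ i, ∃ C : Set K, IsClopen C ∧ y i ∈ C ∧ C ⊆ u i := fun i =>
    exists_clopen (hu i).1 (hu i).2
  choose C hC1 hC2 hC3 using h1
  exact ⟨C, fun i => ⟨hC1 i, hC2 i⟩, fun z hz => huU fun i _ => hC3 i (hz i)⟩

theorem shrink {I : Type} [Fintype I] {O : Set (I → K)} (hO : IsOpen O) (hd : Dense O)
    (Sg : Finset (I → List Bool)) (T : I × List Bool → Set K)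
    (hT : ∀ i, IsClopen (T i) ∧ (T i).Nonempty) :
    ∃ T' : I × List Bool → Set K, (∀ i, IsClopen (T' i) ∧ (T' i).Nonempty) ∧
      (∀ i, T' i ⊆ T i) ∧ ∀ σ ∈ Sg, ∀ y : I → K, (∀ i, y i ∈ T' (i, σ i)) → y ∈ O := by
  classical
  induction Sg using Finset.induction_on with
  | empty => exact ⟨T, hT, fun _ => Subset.rfl, by simp⟩
  | insert σ s hσ ih =>
    obtain ⟨T1, h1, h2, h3⟩ := ih
    have hbo : IsOpen {y : I → K | ∀ i, y i ∈ T1 (i, σ i)} := by
      rw [setOf_forall]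
      exact isOpen_iInter_of_finite fun i => (h1 (i, σ i)).1.isOpen.preimage (continuous_apply i)
    have hbn : {y : I → K | ∀ i, y i ∈ T1 (i, σ i)}.Nonempty :=
      ⟨fun i => (h1 (i, σ i)).2.some, fun i => (h1 (i, σ i)).2.some_mem⟩
    obtain ⟨y0, hy1, hy2⟩ := hd.inter_open_nonempty _ hbo hbn
    obtain ⟨C, hC, hCO⟩ := exists_box hO hy2
    refine ⟨fun i => if i.2 = σ i.1 then T1 i ∩ C i.1 else T1 i, ?_, ?_, ?_⟩
    · rintro ⟨i, v⟩
      by_cases hv : v = σ i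
      · simp only [hv, if_true]
        exact ⟨(h1 _).1.inter (hC i).1, ⟨y0 i, hy1 i, (hC i).2⟩⟩
      · simp only [hv, if_false]
        exact h1 _
    · rintro ⟨i, v⟩
      by_cases hv : v = σ i
      · simp only [hv, if_true]
        exact inter_subset_left.trans (h2 _)
      · simp only [hv, if_false]
        exact h2 _
    · intro τ hτ y hy
      rcases Finset.mem_insert.1 hτ with rfl | hτ
      · apply hCO
        intro i
        have := hy i
        simp only [if_true] at this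
        exact this.2
      · apply h3 τ hτ
        intro i
        have := hy i
        by_cases hv : τ i = σ i
        · simp only [hv, if_true] at this
          rw [hv]
          exact this.1
        · simp only [hv, if_false] at this
          exact this

theorem generic_box {I : Type} [Fintype I] {O : ℕ → Set (I → K)} (hO : ∀ n, IsOpen (O n))
    (hd : ∀ n, Dense (O n)) (C : I → Set K) (hC : ∀ i, IsClopen (C i) ∧ (C i).Nonempty) :
    ∃ r : I → Set K, (∀ i, IsClosed (r i) ∧ (r i).Nonempty ∧ Pf (r i) ∧ r i ⊆ C i) ∧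
      ∀ y : I → K, (∀ i, y i ∈ r i) → ∀ n, y ∈ O n := by
  classical
  obtain ⟨T, r, h1, h2, h3, h4, h5, h6, h7, h8⟩ := fusion good_clopen C hC
    (fun n T => ∀ σ : I → List Bool, (∀ i, σ i ∈ V n) → ∀ y : I → K,
      (∀ i, y i ∈ T (i, σ i)) → y ∈ O n) (by
      intro n T hT
      obtain ⟨T', hT1, hT2, hT3⟩ := shrink (hO n) (hd n) (Fintype.piFinset fun _ => V n) T hT
      exact ⟨T', hT1, hT2, fun σ hσ y hy => hT3 σ (Fintype.mem_piFinset.2 hσ) y hy⟩)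
  refine ⟨r, fun i => ⟨h3 i, h5 i, h4 i, h6 i⟩, fun y hy n => ?_⟩
  have h9 := fun i => h7 n i (y i) (hy i)
  choose σ hσ hyσ using h9
  exact h1 n σ hσ y hyσ

theorem exists_map {A : Set K} (hcl : IsClosed A) (hne : A.Nonempty) (hpf : Pf A) :
    ∃ f : K → K, range f ⊆ A ∧ Continuous f ∧ Function.Injective f := by
  let _ := TopologicalSpace.upgradeIsCompletelyMetrizable K
  refine Perfect.exists_nat_bool_injection ⟨hcl, ?_⟩ hne
  intro x hx
  rw [accPt_iff_nhds]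
  intro U hU
  obtain ⟨U', hU'U, hU'o, hxU'⟩ := mem_nhds_iff.1 hU
  obtain ⟨C, hC, hxC, hCU⟩ := exists_clopen hU'o hxU'
  obtain ⟨z, hz, hzx⟩ := (hpf C hC ⟨x, hx, hxC⟩).exists_ne x
  exact ⟨z, ⟨hU'U (hCU hz.2), hz.1⟩, hzx⟩

theorem image_pf {f : K → K} (hf : Continuous f) (hi : Function.Injective f) {A : Set K}
    (hA : IsClosed A ∧ A.Nonempty ∧ Pf A) :
    IsClosed (f '' A) ∧ (f '' A).Nonempty ∧ Pf (f '' A) := by
  refine ⟨(hA.1.isCompact.image hf).isClosed, hA.2.1.image f, ?_⟩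
  intro C hC ⟨y, hy, hyC⟩
  obtain ⟨x, hx, rfl⟩ := hy
  obtain ⟨u, hu, v, hv, huv⟩ := hA.2.2 (f ⁻¹' C) (hC.preimage hf) ⟨x, hx, hyC⟩
  exact ⟨f u, ⟨⟨u, hu.1, rfl⟩, hu.2⟩, f v, ⟨⟨v, hv.1, rfl⟩, hv.2⟩, fun h => huv (hi h)⟩

theorem prod_lemma {I : Type} [Fintype I] (P : I → Set K)
    (hP : ∀ i, IsClosed (P i) ∧ (P i).Nonempty ∧ Pf (P i)) (D : ℕ → Set (I → K))
    (hD : ∀ k, MeasurableSet (D k)) :
    ∃ P' : I → Set K, (∀ i, IsClosed (P' i) ∧ (P' i).Nonempty ∧ Pf (P' i) ∧ P' i ⊆ P i) ∧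
      ((∃ k, ∀ y : I → K, (∀ i, y i ∈ P' i) → y ∈ D k) ∨
        ∀ k, ∀ y : I → K, (∀ i, y i ∈ P' i) → y ∉ D k) := by
  classical
  have h1 := fun i => exists_map (hP i).1 (hP i).2.1 (hP i).2.2
  choose f hf1 hf2 hf3 using h1
  let F : (I → K) → I → K := fun y i => f i (y i)
  have hF : Continuous F := continuous_pi fun i => (hf2 i).comp (continuous_apply i)
  have h2 : ∀ k, MeasurableSet (F ⁻¹' D k) := fun k => (hD k).preimage hF.measurable
  have h3 := fun k => (h2 k).residualEq_isOpen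
  choose u hu1 hu2 using h3
  have h4 : ∀ᶠ y in residual (I → K), ∀ k, (y ∈ F ⁻¹' D k ↔ y ∈ u k) :=
    eventually_countable_forall.2 fun k => eventuallyEq_set.1 (hu2 k)
  obtain ⟨t, ht1, ht2, ht3⟩ := mem_residual.1 h4
  obtain ⟨O, hO1, hO2⟩ := isGδ_iff_eq_iInter_nat.1 ht2
  have hO3 : ∀ n, Dense (O n) := fun n => ht3.mono (hO2 ▸ iInter_subset O n)
  have key : ∀ C : I → Set K, (∀ i, IsClopen (C i) ∧ (C i).Nonempty) →
      ∃ r : I → Set K, (∀ i, IsClosed (r i) ∧ (r i).Nonempty ∧ Pf (r i) ∧ r i ⊆ C i) ∧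
      ∀ y : I → K, (∀ i, y i ∈ r i) → ∀ k, (y ∈ F ⁻¹' D k ↔ y ∈ u k) := by
    intro C hC
    obtain ⟨r, hr1, hr2⟩ := generic_box hO1 hO3 C hC
    refine ⟨r, hr1, fun y hy => ht1 ?_⟩
    rw [hO2]
    exact mem_iInter.2 (hr2 y hy)
  have fin : ∀ r : I → Set K, (∀ i, IsClosed (r i) ∧ (r i).Nonempty ∧ Pf (r i)) →
      (∀ i, IsClosed (f i '' r i) ∧ (f i '' r i).Nonempty ∧ Pf (f i '' r i) ∧
        f i '' r i ⊆ P i) ∧ ∀ y : I → K, (∀ i, y i ∈ f i '' r i) →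
          ∃ z : I → K, (∀ i, z i ∈ r i) ∧ F z = y := by
    intro r hr
    refine ⟨fun i => ?_, fun y hy => ?_⟩
    · obtain ⟨a, b, c⟩ := image_pf (hf2 i) (hf3 i) (hr i)
      refine ⟨a, b, c, ?_⟩
      rintro _ ⟨z, -, rfl⟩
      exact hf1 i ⟨z, rfl⟩
    · choose z hz1 hz2 using hy
      exact ⟨z, hz1, funext hz2⟩
  by_cases hk : ∃ k, (u k).Nonempty
  · obtain ⟨k, y0, hy0⟩ := hk
    obtain ⟨C, hC1, hC2⟩ := exists_box (hu1 k) hy0
    obtain ⟨r, hr1, hr2⟩ := key C fun i => ⟨(hC1 i).1, ⟨_, (hC1 i).2⟩⟩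
    obtain ⟨a, b⟩ := fin r fun i => ⟨(hr1 i).1, (hr1 i).2.1, (hr1 i).2.2.1⟩
    refine ⟨fun i => f i '' r i, a, Or.inl ⟨k, fun y hy => ?_⟩⟩
    obtain ⟨z, hz, rfl⟩ := b y hy
    exact (hr2 z hz k).2 (hC2 z fun i => (hr1 i).2.2.2 (hz i))
  · push Not at hk
    obtain ⟨r, hr1, hr2⟩ := key (fun _ => univ) fun i => ⟨isClopen_univ, univ_nonempty⟩
    obtain ⟨a, b⟩ := fin r fun i => ⟨(hr1 i).1, (hr1 i).2.1, (hr1 i).2.2.1⟩
    refine ⟨fun i => f i '' r i, a, Or.inr fun k y hy hyD => ?_⟩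
    obtain ⟨z, hz, rfl⟩ := b y hy
    have := (hr2 z hz k).1 hyD
    rw [hk k] at this
    exact this

end Pool.Agent.X200.Sac
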