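import Mathlib
import Pool.Agent.X200.SacProd

/-!
One step of the construction: either some finite set kills the sequence of families, or a
diagonal sequence contains everything built from a countable set and a sequence of smaller
perfect sets.
-/

set_option autoImplicit false

namespace Pool.Agent.X200.Sac

open Set Topology Filter Pool.Agent.X200.Jens

abbrev M : Type := ℕ → ℤ

/-- the embedding of the Cantor space -/
def c (y : K) : M := fun k => if y k then 1 else 0

theorem continuous_c : Continuous c := by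
  refine continuous_pi fun k => ?_
  have h1 : Continuous (fun b : Bool => if b then (1 : ℤ) else 0) := continuous_of_discreteTopology
  exact h1.comp (continuous_apply k)

theorem injective_c : Function.Injective c := by
  intro x y h
  funext k
  have h1 := congrFun h k
  simp only [c] at h1
  cases hx : x k <;> cases hy : y k <;> simp [hx, hy] at h1 ⊢

/-- the subgroup generated by (the copy of) a set -/
def L (X : Set K) : Submodule ℤ M := Submodule.span ℤ (c '' X)

theorem L_mono {X Y : Set K} (h : X ⊆ Y) : L X ≤ L Y := Submodule.span_mono (image_mono h)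

theorem L_dec {X Y : Set K} {g : M} (hg : g ∈ L (X ∪ Y)) :
    ∃ h ∈ L X, ∃ l : K →₀ ℤ, (l.support : Set K) ⊆ Y ∧ g = h + ∑ z ∈ l.support, l z • c z := by
  rw [L, image_union, Submodule.span_union, Submodule.mem_sup] at hg
  obtain ⟨h, hh, b, hb, rfl⟩ := hg
  obtain ⟨l, hl, rfl⟩ := (Finsupp.mem_span_image_iff_linearCombination ℤ).1 hb
  exact ⟨h, hh, l, hl, rfl⟩

theorem L_countable {X : Set K} (hX : X.Countable) : ((L X : Submodule ℤ M) : Set M).Countable := by
  have := hX.to_subtype
  have h1 : ((L X : Submodule ℤ M) : Set M) ⊆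
      range fun l : X →₀ ℤ => l.sum fun z a => a • c z := by
    intro g hg
    have h2 : g ∈ Submodule.span ℤ (range fun z : X => c z) := by
      rw [L, image_eq_range] at hg
      exact hg
    obtain ⟨l, hl⟩ := (Finsupp.mem_span_range_iff_exists_finsupp).1 h2
    exact ⟨l, hl⟩
  exact (countable_range _).mono h1

/-- the finite index set of step `n` -/
def Ix (n : ℕ) : Finset (ℕ × List Bool) := Finset.range (n + 1) ×ˢ V n

variable {p : ℕ}

/-- the combinations which are used in step `n` -/
def D (h : ℕ → M) (U : ℕ → ℕ → Set (Fin p → M)) (n k : ℕ) : Set (Ix n → K) :=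
  {y | ∀ m : Fin p → Ix n → ℤ, (∀ a i, m a i ∈ Icc (-(n : ℤ)) n) → ∀ q : Fin p → ℕ,
    (∀ a, q a ∈ Iic n) → (fun a => (∑ i, m a i • c (y i)) + h (q a)) ∈ U n k}

theorem measurable_D (h : ℕ → M) {U : ℕ → ℕ → Set (Fin p → M)}
    (hU : ∀ n k, MeasurableSet (U n k)) (n k : ℕ) : MeasurableSet (D h U n k) := by
  unfold D
  simp only [setOf_forall]
  refine MeasurableSet.iInter fun m => MeasurableSet.iInter fun _ => MeasurableSet.iInter fun q =>
    MeasurableSet.iInter fun _ => ?_
  have hc : Continuous fun y : Ix n → K => fun a => (∑ i, m a i • c (y i)) + h (q a) := by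
    refine continuous_pi fun a => Continuous.add ?_ continuous_const
    refine continuous_finsetSum _ fun i _ => ?_
    have h1 : Continuous fun y : Ix n → K => c (y i) := continuous_c.comp (continuous_apply i)
    exact h1.const_smul (m a i)
  exact (hU n k).preimage hc.measurable

theorem finite_combos (h : ℕ → M) (n : ℕ) (y : Ix n → K) :
    {g : Fin p → M | ∃ m : Fin p → Ix n → ℤ, (∀ a i, m a i ∈ Icc (-(n : ℤ)) n) ∧ ∃ q : Fin p → ℕ,
      (∀ a, q a ∈ Iic n) ∧ g = fun a => (∑ i, m a i • c (y i)) + h (q a)}.Finite := by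
  have h1 : {m : Fin p → Ix n → ℤ | ∀ a, m a ∈ {f : Ix n → ℤ | ∀ i, f i ∈ Icc (-(n : ℤ)) n}}.Finite :=
    Set.Finite.pi' fun a => Set.Finite.pi' fun i => finite_Icc _ _
  have h2 : {q : Fin p → ℕ | ∀ a, q a ∈ Iic n}.Finite := Set.Finite.pi' fun a => finite_Iic _
  refine ((h1.prod h2).image fun w : (Fin p → Ix n → ℤ) × (Fin p → ℕ) =>
    (fun a => (∑ i, w.1 a i • c (y i)) + h (w.2 a) : Fin p → M)).subset ?_
  rintro g ⟨m, hm, q, hq, rfl⟩
  exact ⟨(m, q), ⟨hm, hq⟩, rfl⟩

theorem stage {S X0 : Set K} (hX0 : X0.Countable) (P : ℕ → Set K)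
    (hP : ∀ j, IsClosed (P j) ∧ (P j).Nonempty ∧ Pf (P j) ∧ P j ⊆ S)
    (U : ℕ → ℕ → Set (Fin p → M)) (hU : ∀ n k, MeasurableSet (U n k)) :
    (∃ n, ∃ Z : Set K, Z.Finite ∧ Z ⊆ S ∧ ∃ H : Set (Fin p → M), H.Finite ∧
      (∀ g ∈ H, ∀ a, g a ∈ L (X0 ∪ Z)) ∧ ∀ k, ¬ H ⊆ U n k) ∨
    (∃ r : ℕ → Set K, (∀ j, IsClosed (r j) ∧ (r j).Nonempty ∧ Pf (r j) ∧ r j ⊆ P j) ∧
      ∃ κ : ℕ → ℕ, ∀ g : Fin p → M, (∀ a, g a ∈ L (X0 ∪ ⋃ j, r j)) →
        ∀ᶠ n in atTop, g ∈ U n (κ n)) := by
  classical
  obtain ⟨h, hh⟩ := (L_countable hX0).exists_eq_range ⟨0, (L X0).zero_mem⟩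
  have hhm : ∀ n, h n ∈ L X0 := fun n => by
    have : h n ∈ range h := ⟨n, rfl⟩
    rw [← hh] at this
    exact this
  by_cases hbad : ∃ n, ∃ y : Ix n → K, (∀ i, y i ∈ S) ∧ ∀ k, y ∉ D h U n k
  · left
    obtain ⟨n, y, hyS, hy⟩ := hbad
    refine ⟨n, range y, finite_range y, by rintro _ ⟨i, rfl⟩; exact hyS i, _,
      finite_combos (p := p) h n y, ?_, ?_⟩
    · rintro g ⟨m, hm, q, hq, rfl⟩ a
      refine (L _).add_mem ((L _).sum_mem fun i _ => (L _).smul_mem _ ?_)
        (L_mono subset_union_left (hhm _))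
      exact Submodule.subset_span ⟨y i, Or.inr ⟨i, rfl⟩, rfl⟩
    · intro k hk
      exact hy k fun m hm q hq => hk ⟨m, hm, q, hq, rfl⟩
  · right
    push Not at hbad
    obtain ⟨T, r, h1, h2, h3, h4, h5, h6, h7, h8⟩ := fusion (good_pf S) P hP
      (fun n T => ∃ k, ∀ y : Ix n → K, (∀ i : Ix n, y i ∈ T i) → y ∈ D h U n k) (by
        intro n T hT
        obtain ⟨P', hP1, hP2⟩ := prod_lemma (fun i : Ix n => T i)
          (fun i => ⟨(hT i).1, (hT i).2.1, (hT i).2.2.1⟩) (fun k => D h U n k)
          (measurable_D h hU n)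
        have hk : ∃ k, ∀ y : Ix n → K, (∀ i, y i ∈ P' i) → y ∈ D h U n k := by
          rcases hP2 with hk | hk
          · exact hk
          · exfalso
            obtain ⟨k, hk'⟩ := hbad n (fun i => (hP1 i).2.1.some)
              (fun i => (hT i).2.2.2 ((hP1 i).2.2.2 (hP1 i).2.1.some_mem))
            exact hk k _ (fun i => (hP1 i).2.1.some_mem) hk'
        obtain ⟨k, hk⟩ := hk
        refine ⟨fun i => if hi : i ∈ Ix n then P' ⟨i, hi⟩ else T i, ?_, ?_, k, ?_⟩
        · intro i
          by_cases hi : i ∈ Ix n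
          · simp only [hi, dif_pos]
            obtain ⟨a, b, c', d⟩ := hP1 ⟨i, hi⟩
            exact ⟨a, b, c', d.trans (hT i).2.2.2⟩
          · simp only [hi, dif_neg, not_false_iff]
            exact hT i
        · intro i
          by_cases hi : i ∈ Ix n
          · simp only [hi, dif_pos]
            exact (hP1 ⟨i, hi⟩).2.2.2
          · simp only [hi, dif_neg, not_false_iff]
            exact Subset.rfl
        · intro y hy
          apply hk
          intro i
          have := hy i
          simpa only [i.2, dif_pos] using this)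
    choose κ hκ using h1
    refine ⟨r, fun j => ⟨h3 j, h5 j, h4 j, h6 j⟩, κ, fun g hg => ?_⟩
    have h9 := fun a => L_dec (hg a)
    choose b hb l hl hgl using h9
    have h10 : ∀ a, ∃ q, h q = b a := fun a => by
      have : b a ∈ ((L X0 : Submodule ℤ M) : Set M) := hb a
      rw [hh] at this
      exact this
    choose q hq using h10
    let F : Finset K := Finset.univ.biUnion fun a => (l a).support
    have hF : ∀ z ∈ F, ∃ j, z ∈ r j := by
      intro z hz
      obtain ⟨a, -, ha⟩ := Finset.mem_biUnion.1 hz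
      exact mem_iUnion.1 (hl a ha)
    have hF' : ∀ z : K, ∃ j, z ∈ F → z ∈ r j := by
      intro z
      by_cases hz : z ∈ F
      · obtain ⟨j, hj⟩ := hF z hz
        exact ⟨j, fun _ => hj⟩
      · exact ⟨0, fun h => absurd h hz⟩
    choose j hj using hF'
    have hd : ∀ z w : K, ∃ k, z ≠ w → z k ≠ w k := by
      intro z w
      by_cases hzw : z = w
      · exact ⟨0, fun h => absurd hzw h⟩
      · obtain ⟨k, hk⟩ := Function.ne_iff.1 hzw
        exact ⟨k, fun _ => hk⟩
    choose d hd using hd
    have e1 : ∀ᶠ n in atTop, ∀ a, q a ≤ n :=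
      eventually_all.2 fun a => eventually_ge_atTop _
    have e2 : ∀ᶠ n : ℕ in atTop, ∀ a, ∀ z ∈ F, (l a z).natAbs ≤ n :=
      eventually_all.2 fun a => (Filter.eventually_all_finset F).2 fun z _ => eventually_ge_atTop _
    have e3 : ∀ᶠ n : ℕ in atTop, ∀ z ∈ F, j z ≤ n :=
      (Filter.eventually_all_finset F).2 fun z _ => eventually_ge_atTop _
    have e4 : ∀ᶠ n : ℕ in atTop, ∀ z ∈ F, ∀ w ∈ F, d z w < n :=
      (Filter.eventually_all_finset F).2 fun z _ =>
        (Filter.eventually_all_finset F).2 fun w _ => eventually_gt_atTop _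
    filter_upwards [e1, e2, e3, e4] with n f1 f2 f3 f4
    have h11 : ∀ z : F, ∃ v ∈ V n, z.1 ∈ T n (j z, v) := fun z => h7 n (j z) z (hj z z.2)
    choose v hv hzv using h11
    let e : F → Ix n := fun z => ⟨(j z, v z), Finset.mk_mem_product
      (Finset.mem_range.2 (Nat.lt_succ_of_le (f3 z z.2))) (hv z)⟩
    have he : Function.Injective e := by
      intro z w hzw
      by_contra hne
      have hne' : z.1 ≠ w.1 := fun h => hne (Subtype.ext h)
      have h12 : (j z.1, v z) = (j w.1, v w) := congrArg Subtype.val hzw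
      have h13 := hzv z
      rw [h12] at h13
      exact hd _ _ hne' (h8 n _ _ h13 _ (hzv w) _ (f4 z z.2 w w.2))
    have hne : ∀ i : Ix n, ∃ x, x ∈ T n i := fun i => (h2 n i).2.1
    choose x0 hx0 using hne
    let y : Ix n → K := Function.extend e (fun z => z.1) x0
    let m : Fin p → Ix n → ℤ := fun a => Function.extend e (fun z => l a z.1) 0
    have hy : ∀ z, y (e z) = z.1 := fun z => he.extend_apply _ _ _
    have hm : ∀ a z, m a (e z) = l a z.1 := fun a z => he.extend_apply _ _ _
    have hm0 : ∀ a i, (¬ ∃ z, e z = i) → m a i = 0 := fun a i hi => by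
      simp only [m, Function.extend_apply' _ _ _ hi, Pi.zero_apply]
    have hyT : ∀ i : Ix n, y i ∈ T n i := by
      intro i
      by_cases hi : ∃ z, e z = i
      · obtain ⟨z, rfl⟩ := hi
        rw [hy]
        exact hzv z
      · simp only [y, Function.extend_apply' _ _ _ hi]
        exact hx0 i
    have key := hκ n y hyT m (by
      intro a i
      by_cases hi : ∃ z, e z = i
      · obtain ⟨z, rfl⟩ := hi
        rw [hm]
        have := f2 a z z.2
        constructor <;> omega
      · rw [hm0 a i hi]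
        constructor <;> omega) q (fun a => f1 a)
    have hsum : ∀ a, (∑ i, m a i • c (y i)) + h (q a) = g a := by
      intro a
      rw [hgl a, hq, add_comm]
      congr 1
      have h14 : ∑ z ∈ (l a).support, l a z • c z = ∑ z ∈ F, l a z • c z := by
        refine Finset.sum_subset (Finset.subset_biUnion_of_mem (fun a => (l a).support)
          (Finset.mem_univ a)) fun z _ hz => ?_
        rw [Finsupp.notMem_support_iff.1 hz, zero_smul]
      rw [h14, ← Finset.sum_coe_sort F]
      symm
      refine Finset.sum_of_injOn e he.injOn (fun _ _ => Finset.mem_coe.2 (Finset.mem_univ _))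
        (fun i _ hi => ?_) fun z _ => ?_
      · rw [hm0 a i, zero_smul]
        rintro ⟨z, rfl⟩
        exact hi ⟨z, Finset.mem_coe.2 (Finset.mem_univ _), rfl⟩
      · rw [hm, hy]
    have : g = fun a => (∑ i, m a i • c (y i)) + h (q a) := funext fun a => (hsum a).symm
    rw [this]
    exact key

end Pool.Agent.X200.Sac
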