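import Mathlib
import Pool.Agent.X200.FullSus
import Pool.Agent.X200.SacStage

/-!
The recursive construction.
-/

set_option autoImplicit false

namespace Pool.Agent.X200.Sac

open Set Topology Filter Pool.Agent.X200.Jens Pool.Agent.Helper330.DPK.Coh
open Pool.Agent.X200.FullSus (exists_rec')

/-- a level: countably many perfect sets, and the points added at this level -/
abbrev Vt : Type := (ℕ → Set K) × Set K

/-- the tasks -/
abbrev Task : Type := Σ p : ℕ, ℕ → ℕ → {B : Set (Fin p → M) // MeasurableSet B}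

/-- the disposition of a task -/
def Dec (t : Task) (X0 : Set K) (v : Vt) : Prop :=
  (∃ n, ∃ H : Set (Fin t.1 → M), H.Finite ∧ (∀ g ∈ H, ∀ a, g a ∈ L (X0 ∪ v.2)) ∧
    ∀ k, ¬ H ⊆ (t.2 n k).1) ∨
  ((v.2 ⊆ ⋃ j, v.1 j) ∧ ∃ κ : ℕ → ℕ, ∀ g : Fin t.1 → M, (∀ a, g a ∈ L (X0 ∪ ⋃ j, v.1 j)) →
    ∀ᶠ n in atTop, g ∈ (t.2 n (κ n)).1)

/-- the requirements for level `α` -/
structure Req (τ : W → Task) (Φ : W → Vt) (α : W) (v : Vt) : Prop where
  pf : ∀ n, IsClosed (v.1 n) ∧ (v.1 n).Nonempty ∧ Pf (v.1 n)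
  cut : ∀ n C, IsClopen C → (v.1 n ∩ C).Nonempty → ∃ m, v.1 m ⊆ v.1 n ∩ C
  all : ∀ C : Set K, IsClopen C → C.Nonempty → ∃ m, v.1 m ⊆ C
  low : ∀ β < α, ∀ n, v.1 n ⊆ ⋃ m, (Φ β).1 m
  ref : ∀ β < α, ∀ m, ∃ n, v.1 n ⊆ (Φ β).1 m
  cnt : v.2.Countable
  pts : ∀ β < α, v.2 ⊆ ⋃ m, (Φ β).1 m
  new : ∃ x ∈ v.2, ∀ β < α, x ∉ (Φ β).2
  dec : Dec (τ α) (⋃ β ∈ Iio α, (Φ β).2) v

theorem Req.congr {τ : W → Task} {Φ Φ' : W → Vt} {α : W} {v : Vt}
    (h : ∀ β < α, Φ β = Φ' β) (hr : Req τ Φ α v) : Req τ Φ' α v where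
  pf := hr.pf
  cut := hr.cut
  all := hr.all
  low := fun β hβ => h β hβ ▸ hr.low β hβ
  ref := fun β hβ => h β hβ ▸ hr.ref β hβ
  cnt := hr.cnt
  pts := fun β hβ => h β hβ ▸ hr.pts β hβ
  new := by
    obtain ⟨x, hx, hx'⟩ := hr.new
    exact ⟨x, hx, fun β hβ => h β hβ ▸ hx' β hβ⟩
  dec := by
    have h1 : (⋃ β ∈ Iio α, (Φ' β).2) = ⋃ β ∈ Iio α, (Φ β).2 :=
      iUnion₂_congr fun β hβ => by rw [h β hβ]
    rw [h1]
    exact hr.dec

theorem exists_new {A X0 : Set K} (hA : IsClosed A ∧ A.Nonempty ∧ Pf A) (hX0 : X0.Countable) :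
    ∃ x ∈ A, x ∉ X0 := by
  by_contra hcon
  push Not at hcon
  obtain ⟨f, hf1, -, hf3⟩ := exists_map hA.1 hA.2.1 hA.2.2
  have h1 : (range f).Countable := hX0.mono fun x hx => hcon x (hf1 hx)
  have h3 : Cardinal.mk K = 2 ^ Cardinal.aleph0 := by simp [K]
  have h2 : Countable K := by
    have := h1.to_subtype
    exact (Equiv.ofInjective f hf3).countable_iff.2 this
  have h4 := Cardinal.mk_le_aleph0_iff.2 h2
  rw [h3] at h4
  exact absurd h4 (not_le.2 (Cardinal.cantor _))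

theorem mkLevel (r : ℕ → Set K) (hr : ∀ j, IsClosed (r j) ∧ (r j).Nonempty ∧ Pf (r j)) :
    ∃ A : ℕ → Set K, (∀ n, IsClosed (A n) ∧ (A n).Nonempty ∧ Pf (A n)) ∧
      (∀ n C, IsClopen C → (A n ∩ C).Nonempty → ∃ m, A m ⊆ A n ∩ C) ∧
      (∀ n, ∃ j, A n ⊆ r j) ∧ ∀ j, ∃ n, A n = r j := by
  classical
  have : Countable (TopologicalSpace.Clopens K) :=
    TopologicalSpace.Clopens.countable_iff_secondCountable.2 inferInstance
  let I : Type := {p : ℕ × TopologicalSpace.Clopens K // (r p.1 ∩ (p.2 : Set K)).Nonempty}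
  have hI : Nonempty I := ⟨⟨(0, ⊤), by simpa using (hr 0).2.1⟩⟩
  obtain ⟨g, hg⟩ := exists_surjective_nat I
  refine ⟨fun n => r (g n).1.1 ∩ ((g n).1.2 : Set K), ?_, ?_, ?_, ?_⟩
  · exact fun n => ⟨(hr _).1.inter (g n).1.2.isClopen.isClosed, (g n).2,
      (hr _).2.2.inter (g n).1.2.isClopen⟩
  · intro n C hC h
    have h' : (r (g n).1.1 ∩ (((g n).1.2 : Set K) ∩ C)).Nonempty := by
      rw [← inter_assoc]; exact h
    obtain ⟨m, hm⟩ := hg ⟨((g n).1.1, (g n).1.2 ⊓ ⟨C, hC⟩), h'⟩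
    refine ⟨m, Eq.subset ?_⟩
    show r (g m).1.1 ∩ ((g m).1.2 : Set K) = (r (g n).1.1 ∩ ((g n).1.2 : Set K)) ∩ C
    rw [hm]
    exact (inter_assoc _ _ _).symm
  · exact fun n => ⟨_, inter_subset_left⟩
  · intro j
    obtain ⟨n, hn⟩ := hg ⟨(j, ⊤), by simpa using (hr j).2.1⟩
    refine ⟨n, ?_⟩
    show r (g n).1.1 ∩ ((g n).1.2 : Set K) = r j
    rw [hn]
    simp

theorem exists_req (τ : W → Task) {Φ : W → Vt} {α : W}
    (hr : ∀ β < α, Req τ Φ β (Φ β)) : ∃ v, Req τ Φ α v := by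
  classical
  let S : Set K := {y | ∀ β < α, y ∈ ⋃ m, (Φ β).1 m}
  let X0 : Set K := ⋃ β ∈ Iio α, (Φ β).2
  have hX0 : X0.Countable := (countable_Iio α).biUnion fun β hβ => (hr β hβ).cnt
  let 𝒜 : Set (Set K) := {A | IsClopen A ∧ A.Nonempty} ∪ ⋃ β ∈ Iio α, range (Φ β).1
  have hcC : Countable (TopologicalSpace.Clopens K) :=
    TopologicalSpace.Clopens.countable_iff_secondCountable.2 inferInstance
  have h𝒜c : 𝒜.Countable := by
    refine Countable.union ?_ ((countable_Iio α).biUnion fun β _ => countable_range _)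
    refine (countable_range fun C : TopologicalSpace.Clopens K => (C : Set K)).mono ?_
    rintro A ⟨hA, -⟩
    exact ⟨⟨A, hA⟩, rfl⟩
  have hcase : ∀ A ∈ 𝒜, (IsClopen A ∧ A.Nonempty) ∨ ∃ β < α, ∃ m, (Φ β).1 m = A := by
    rintro A (hA | hA)
    · exact Or.inl hA
    · obtain ⟨β, hβ, m, hm⟩ := mem_iUnion₂.1 hA
      exact Or.inr ⟨β, hβ, m, hm⟩
  have hmem : ∀ β < α, ∀ m, (Φ β).1 m ∈ 𝒜 := fun β hβ m =>
    Or.inr (mem_iUnion₂.2 ⟨β, hβ, m, rfl⟩)
  have hgood : Good 𝒜 := by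
    refine ⟨?_, ?_, ?_⟩
    · intro A hA
      rcases hcase A hA with h | ⟨β, hβ, m, rfl⟩
      · exact h.1.isClosed
      · exact ((hr β hβ).pf m).1
    · intro A hA
      rcases hcase A hA with h | ⟨β, hβ, m, rfl⟩
      · exact good_clopen.nt A h
      · have h1 := (hr β hβ).pf m
        simpa using h1.2.2 univ isClopen_univ (by simpa using h1.2.1)
    · intro A hA C hC hne
      rcases hcase A hA with h | ⟨β, hβ, m, rfl⟩
      · exact ⟨A ∩ C, Or.inl ⟨h.1.inter hC, hne⟩, Subset.rfl⟩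
      · obtain ⟨n, hn⟩ := (hr β hβ).cut m C hC hne
        exact ⟨_, hmem β hβ n, hn⟩
  -- enumeration of the earlier levels
  obtain ⟨e, he⟩ : ∃ e : ℕ → W, Iio α ⊆ range e := by
    rcases (Iio α).eq_empty_or_nonempty with h | h
    · exact ⟨fun _ => α, by rw [h]; exact empty_subset _⟩
    · obtain ⟨e, he⟩ := (countable_Iio α).exists_eq_range h
      exact ⟨e, he.subset⟩
  obtain ⟨T, r, h1, h2, h3, h4, h5, h6, h7, h8⟩ := fusion hgood (fun t : 𝒜 => t.1) (fun t => t.2)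
    (fun n T => e n < α → ∀ i, T i ⊆ ⋃ m, (Φ (e n)).1 m) (by
      intro n T hT
      by_cases hn : e n < α
      · have h1 : ∀ i, ∃ A ∈ 𝒜, A ⊆ T i ∧ A ⊆ ⋃ m, (Φ (e n)).1 m := by
          intro i
          rcases hcase (T i) (hT i) with h | ⟨γ, hγ, m, hm⟩
          · obtain ⟨m, hm⟩ := (hr _ hn).all (T i) h.1 h.2
            exact ⟨_, hmem _ hn m, hm, subset_iUnion _ m⟩
          · rw [← hm]
            rcases lt_trichotomy γ (e n) with h | h | h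
            · obtain ⟨k, hk⟩ := (hr _ hn).ref γ h m
              exact ⟨_, hmem _ hn k, hk, subset_iUnion _ k⟩
            · refine ⟨_, hmem _ hγ m, Subset.rfl, ?_⟩
              rw [h]
              exact subset_iUnion (Φ (e n)).1 m
            · exact ⟨_, hmem _ hγ m, Subset.rfl, (hr _ hγ).low _ h m⟩
        choose T' h1 h2 h3 using h1
        exact ⟨T', h1, h2, fun _ => h3⟩
      · exact ⟨T, hT, fun _ => Subset.rfl, fun h => absurd h hn⟩)
  have hrS : ∀ t, r t ⊆ S := by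
    intro t y hy β hβ
    obtain ⟨n, rfl⟩ := he hβ
    obtain ⟨v, -, hyv⟩ := h7 n t y hy
    exact h1 n hβ _ hyv
  have h𝒜ne : Nonempty 𝒜 := ⟨⟨univ, Or.inl ⟨isClopen_univ, univ_nonempty⟩⟩⟩
  have := h𝒜c.to_subtype
  obtain ⟨g, hg⟩ := exists_surjective_nat 𝒜
  -- the final form of the level
  have fin : ∀ r' : ℕ → Set K, (∀ j, IsClosed (r' j) ∧ (r' j).Nonempty ∧ Pf (r' j) ∧
      r' j ⊆ r (g j)) → ∀ Y : Set K, Y.Countable → Y ⊆ S → (∃ x ∈ Y, x ∉ X0) →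
      (∀ A : ℕ → Set K, (⋃ n, A n) = ⋃ j, r' j → Dec (τ α) X0 (A, Y)) → ∃ v, Req τ Φ α v := by
    intro r' hr' Y hY hYS hYn hdec
    obtain ⟨A, a1, a2, a3, a4⟩ := mkLevel r' fun j => ⟨(hr' j).1, (hr' j).2.1, (hr' j).2.2.1⟩
    have a5 : ∀ t ∈ 𝒜, ∃ n, A n ⊆ t := by
      intro t ht
      obtain ⟨j, hj⟩ := hg ⟨t, ht⟩
      obtain ⟨n, hn⟩ := a4 j
      refine ⟨n, hn ▸ (hr' j).2.2.2.trans ?_⟩
      have := h6 (g j)
      rw [hj] at this ⊢
      exact this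
    have a6 : ∀ n, A n ⊆ S := by
      intro n
      obtain ⟨j, hj⟩ := a3 n
      exact hj.trans ((hr' j).2.2.2.trans (hrS _))
    refine ⟨(A, Y), a1, a2, fun C hC hne => a5 C (Or.inl ⟨hC, hne⟩),
      fun β hβ n y hy => a6 n hy β hβ, fun β hβ m => a5 _ (hmem β hβ m), hY,
      fun β hβ y hy => hYS hy β hβ, ?_, hdec A ?_⟩
    · obtain ⟨x, hx, hx'⟩ := hYn
      exact ⟨x, hx, fun β hβ hxβ => hx' (mem_iUnion₂.2 ⟨β, hβ, hxβ⟩)⟩
    · refine Subset.antisymm (iUnion_subset fun n => ?_) (iUnion_subset fun j => ?_)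
      · obtain ⟨j, hj⟩ := a3 n
        exact hj.trans (subset_iUnion _ j)
      · obtain ⟨n, hn⟩ := a4 j
        rw [← hn]
        exact subset_iUnion _ n
  have hP : ∀ j, IsClosed (r (g j)) ∧ (r (g j)).Nonempty ∧ Pf (r (g j)) ∧ r (g j) ⊆ S :=
    fun j => ⟨h3 _, h5 _, h4 _, hrS _⟩
  rcases stage (p := (τ α).1) hX0 (fun j => r (g j)) hP (fun n k => ((τ α).2 n k).1)
    (fun n k => ((τ α).2 n k).2) with ⟨n, Z, hZ, hZS, H, hH, hHL, hHU⟩ | ⟨r', hr', κ, hκ⟩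
  · obtain ⟨x, hx, hx'⟩ := exists_new ⟨(hP 0).1, (hP 0).2.1, (hP 0).2.2.1⟩ hX0
    refine fin (fun j => r (g j)) (fun j => ⟨(hP j).1, (hP j).2.1, (hP j).2.2.1, Subset.rfl⟩)
      (Z ∪ {x}) (hZ.countable.union (countable_singleton x))
      (union_subset hZS (singleton_subset_iff.2 (hrS _ hx))) ⟨x, Or.inr rfl, hx'⟩ fun A hA => ?_
    refine Or.inl ⟨n, H, hH, fun g hg a => ?_, hHU⟩
    exact L_mono (union_subset_union_right _ subset_union_left) (hHL g hg a)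
  · obtain ⟨x, hx, hx'⟩ := exists_new ⟨(hr' 0).1, (hr' 0).2.1, (hr' 0).2.2.1⟩ hX0
    refine fin r' hr' {x} (countable_singleton x)
      (singleton_subset_iff.2 ((hP 0).2.2.2 ((hr' 0).2.2.2 hx))) ⟨x, rfl, hx'⟩ fun A hA => ?_
    refine Or.inr ⟨?_, κ, fun g hg => ?_⟩
    · show {x} ⊆ ⋃ j, A j
      rw [hA]
      exact singleton_subset_iff.2 (mem_iUnion.2 ⟨0, hx⟩)
    · refine hκ g fun a => ?_
      have := hg a
      have h9 : (⋃ j, (A, ({x} : Set K)).1 j) = ⋃ j, r' j := hA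
      rw [h9] at this
      exact this

theorem exists_system (τ : W → Task) : ∃ Φ : W → Vt, ∀ α, Req τ Φ α (Φ α) :=
  exists_rec' (V := Vt) (fun Φ α v => Req τ Φ α v) (fun _ _ _ _ h1 h2 => h2.congr h1)
    fun _ _ h => exists_req τ h

/-- the set of all points -/
theorem exists_set (τ : W → Task) : ∃ X : Set K, Cardinal.aleph 1 ≤ Cardinal.mk X ∧
    ∀ α, (∃ n, ∃ H : Set (Fin (τ α).1 → M), H.Finite ∧ (∀ g ∈ H, ∀ a, g a ∈ L X) ∧
      ∀ k, ¬ H ⊆ ((τ α).2 n k).1) ∨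
    ∃ κ : ℕ → ℕ, ∀ g : Fin (τ α).1 → M, (∀ a, g a ∈ L X) →
      ∀ᶠ n in atTop, g ∈ ((τ α).2 n (κ n)).1 := by
  obtain ⟨Φ, hΦ⟩ := exists_system τ
  refine ⟨⋃ α, (Φ α).2, ?_, fun α => ?_⟩
  · have h1 := fun α => (hΦ α).new
    choose x hx hx' using h1
    have hinj : Function.Injective fun α : W => (⟨x α, mem_iUnion.2 ⟨α, hx α⟩⟩ :
        (⋃ α, (Φ α).2 : Set K)) := by
      intro α β hαβ
      have h2 : x α = x β := congrArg Subtype.val hαβ
      rcases lt_trichotomy α β with h | h | h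
      · exact absurd (h2 ▸ hx α) (hx' β α h)
      · exact h
      · exact absurd (h2.symm ▸ hx β) (hx' α β h)
    have := Cardinal.mk_le_of_injective hinj
    rwa [Pool.Agent.X200.FullSus.mk_W] at this
  · rcases (hΦ α).dec with ⟨n, H, hH, hHL, hHU⟩ | ⟨hY, κ, hκ⟩
    · refine Or.inl ⟨n, H, hH, fun g hg a => L_mono ?_ (hHL g hg a), hHU⟩
      exact union_subset (iUnion₂_subset fun β _ => subset_iUnion (fun β => (Φ β).2) β)
        (subset_iUnion (fun β => (Φ β).2) α)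
    · refine Or.inr ⟨κ, fun g hg => hκ g fun a => L_mono ?_ (hg a)⟩
      refine iUnion_subset fun β => ?_
      rcases lt_trichotomy β α with h | h | h
      · exact subset_union_of_subset_left (subset_iUnion₂ (s := fun β _ => (Φ β).2) β h) _
      · subst h
        exact subset_union_of_subset_right hY _
      · exact subset_union_of_subset_right ((hΦ β).pts α h) _

end Pool.Agent.X200.Sac
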