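import Mathlib
import Pool.Agent.X200.SacRec

/-!
Under CH there is a subgroup of `ℤ ^ ℕ` of size continuum, all of whose finite powers satisfy
`S_1(B_Ω, B_Γ)`.
-/

set_option autoImplicit false

namespace Pool.Agent.X200.Sac

open Set Topology Filter Pool.Agent.X200.Jens Pool.Agent.Helper330.DPK.Coh

/-- `ω`-covers -/
def IsOmega {Y : Type} (𝒰 : Set (Set Y)) : Prop :=
  ⋃₀ 𝒰 = univ ∧ univ ∉ 𝒰 ∧ ∀ F : Set Y, F.Finite → ∃ U ∈ 𝒰, F ⊆ U

/-- `γ`-covers -/
def IsGamma {Y : Type} (𝒰 : Set (Set Y)) : Prop :=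
  ⋃₀ 𝒰 = univ ∧ 𝒰.Infinite ∧ ∀ y : Y, {U ∈ 𝒰 | y ∉ U}.Finite

/-- countable families of Borel sets -/
def BorelFam (Y : Type) [TopologicalSpace Y] : Set (Set (Set Y)) :=
  {𝒰 | 𝒰.Countable ∧ ∀ U ∈ 𝒰, @MeasurableSet Y (borel Y) U}

/-- families of open sets -/
def OpenFam (Y : Type) [TopologicalSpace Y] : Set (Set (Set Y)) := {𝒰 | ∀ U ∈ 𝒰, IsOpen U}

/-- the selection principle `S_1(𝒜, ℬ)` -/
def S1 {Y : Type} (𝒜 ℬ : Set (Set (Set Y))) : Prop :=
  ∀ 𝒰 : ℕ → Set (Set Y), (∀ n, 𝒰 n ∈ 𝒜) → ∃ U : ℕ → Set Y, (∀ n, U n ∈ 𝒰 n) ∧ range U ∈ ℬ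

/-- `S_1(B_Ω, B_Γ)` -/
def S1Borel (Y : Type) [TopologicalSpace Y] : Prop :=
  S1 {𝒰 ∈ BorelFam Y | IsOmega 𝒰} {𝒰 ∈ BorelFam Y | IsGamma 𝒰}

/-- `S_1(Ω, Γ)` -/
def S1Open (Y : Type) [TopologicalSpace Y] : Prop :=
  S1 {𝒰 ∈ OpenFam Y | IsOmega 𝒰} {𝒰 ∈ OpenFam Y | IsGamma 𝒰}

theorem isGamma_range {Y : Type} {U : ℕ → Set Y} (hne : ∀ n, U n ≠ univ)
    (h : ∀ y, ∀ᶠ n in atTop, y ∈ U n) : IsGamma (range U) := by
  refine ⟨?_, ?_, ?_⟩
  · rw [eq_univ_iff_forall]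
    intro y
    obtain ⟨n, hn⟩ := (h y).exists
    exact ⟨U n, ⟨n, rfl⟩, hn⟩
  · intro hfin
    have : Finite (range U) := hfin
    obtain ⟨V, hV⟩ := Finite.exists_infinite_fiber (fun n : ℕ => (⟨U n, n, rfl⟩ : range U))
    obtain ⟨V, m, rfl⟩ := V
    apply hne m
    rw [eq_univ_iff_forall]
    intro y
    have h1 : ((fun n : ℕ => (⟨U n, n, rfl⟩ : range U)) ⁻¹' {⟨U m, m, rfl⟩}).Infinite :=
      Set.infinite_coe_iff.1 hV
    obtain ⟨n, hn, hn'⟩ := ((Nat.frequently_atTop_iff_infinite.2 h1).and_eventually (h y)).exists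
    have h2 : U n = U m := congrArg Subtype.val hn
    exact h2 ▸ hn'
  · intro y
    have h1 : {n | y ∉ U n}.Finite := by
      have := h y
      rw [← Nat.cofinite_eq_atTop] at this
      exact this
    refine (h1.image U).subset ?_
    rintro _ ⟨⟨n, rfl⟩, hn⟩
    exact ⟨n, hn, rfl⟩

theorem countable_subcover {Y : Type} [TopologicalSpace Y] [SecondCountableTopology Y]
    {𝒰 : Set (Set Y)} (ho : ∀ U ∈ 𝒰, IsOpen U) (h : IsOmega 𝒰) :
    ∃ 𝒱 ⊆ 𝒰, 𝒱.Countable ∧ IsOmega 𝒱 := by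
  have h1 : ∀ q : ℕ, ∃ T : Set 𝒰, T.Countable ∧
      (⋃ U ∈ T, {f : Fin q → Y | ∀ i, f i ∈ U.1}) = ⋃ U : 𝒰, {f : Fin q → Y | ∀ i, f i ∈ U.1} := by
    intro q
    refine TopologicalSpace.isOpen_iUnion_countable
      (fun U : 𝒰 => {f : Fin q → Y | ∀ i, f i ∈ U.1}) fun U => ?_
    rw [setOf_forall]
    exact isOpen_iInter_of_finite fun i => (ho U U.2).preimage (continuous_apply i)
  choose T hT1 hT2 using h1
  have key : ∀ F : Set Y, F.Finite → ∃ U ∈ ⋃ q, Subtype.val '' T q, F ⊆ U := by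
    intro F hF
    obtain ⟨q, f, hf⟩ : ∃ (q : ℕ) (f : Fin q → Y), range f = F := by
      have := hF.to_subtype
      obtain ⟨q, ⟨e⟩⟩ := Finite.exists_equiv_fin F
      refine ⟨q, fun i => (e.symm i).1, ?_⟩
      rw [show (fun i => (e.symm i).1) = Subtype.val ∘ e.symm from rfl, range_comp,
        e.symm.surjective.range_eq, image_univ, Subtype.range_coe]
    obtain ⟨U, hU, hFU⟩ := h.2.2 F hF
    have h2 : f ∈ ⋃ U : 𝒰, {f : Fin q → Y | ∀ i, f i ∈ U.1} :=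
      mem_iUnion.2 ⟨⟨U, hU⟩, fun i => hFU (hf ▸ mem_range_self i)⟩
    rw [← hT2 q] at h2
    obtain ⟨U', hU', h3⟩ := mem_iUnion₂.1 h2
    refine ⟨U'.1, mem_iUnion.2 ⟨q, U', hU', rfl⟩, ?_⟩
    rw [← hf]
    rintro _ ⟨i, rfl⟩
    exact h3 i
  have hsub : (⋃ q, Subtype.val '' T q) ⊆ 𝒰 := by
    refine iUnion_subset fun q => ?_
    rintro _ ⟨U, -, rfl⟩
    exact U.2
  refine ⟨⋃ q, Subtype.val '' T q, hsub, countable_iUnion fun q => (hT1 q).image _, ?_,
    fun h' => h.2.1 (hsub h'), key⟩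
  rw [eq_univ_iff_forall]
  intro y
  obtain ⟨U, hU, hy⟩ := key {y} (finite_singleton y)
  exact ⟨U, hU, hy rfl⟩

theorem open_of_borel {Y : Type} [TopologicalSpace Y] [SecondCountableTopology Y]
    (h : S1Borel Y) : S1Open Y := by
  intro 𝒰 h𝒰
  have h1 := fun n => countable_subcover (h𝒰 n).1 (h𝒰 n).2
  choose 𝒱 h1 h2 h3 using h1
  obtain ⟨U, hU1, hU2⟩ := h 𝒱 fun n => ⟨⟨h2 n, fun V hV => by
    refine MeasurableSpace.measurableSet_generateFrom ?_
    exact (h𝒰 n).1 V (h1 n hV)⟩, h3 n⟩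
  refine ⟨U, fun n => h1 n (hU1 n), ?_, hU2.2⟩
  rintro _ ⟨n, rfl⟩
  exact (h𝒰 n).1 _ (h1 n (hU1 n))

/-- the final property of the set -/
def Fine (X : Set K) : Prop :=
  ∀ t : Task, (∃ n, ∃ H : Set (Fin t.1 → M), H.Finite ∧ (∀ g ∈ H, ∀ a, g a ∈ L X) ∧
      ∀ k, ¬ H ⊆ (t.2 n k).1) ∨
    ∃ κ : ℕ → ℕ, ∀ g : Fin t.1 → M, (∀ a, g a ∈ L X) → ∀ᶠ n in atTop, g ∈ (t.2 n (κ n)).1

theorem borel_of_fine {X : Set K} (hX : Fine X) {p : ℕ} {Y : Type} [TopologicalSpace Y]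
    (j : Y → Fin p → M) (hj : IsInducing j) (hi : Function.Injective j)
    (hr : ∀ g : Fin p → M, (∀ a, g a ∈ L X) ↔ g ∈ range j) : S1Borel Y := by
  classical
  intro 𝒰 h𝒰
  have h1 : ∀ n, ∃ B : ℕ → Set Y, 𝒰 n = range B := fun n => by
    obtain ⟨U, hU, -⟩ := (h𝒰 n).2.2.2 ∅ finite_empty
    exact (h𝒰 n).1.1.exists_eq_range ⟨U, hU⟩
  choose B hB using h1
  have h2 : ∀ n k, ∃ C : Set (Fin p → M), MeasurableSet C ∧ j ⁻¹' C = B n k := by
    intro n k
    have h3 : @MeasurableSet Y (borel Y) (B n k) := (h𝒰 n).1.2 _ (hB n ▸ mem_range_self k)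
    have h4 : borel Y = (borel (Fin p → M)).comap j := by
      rw [hj.eq_induced, borel_comap]
    rw [h4, MeasurableSpace.measurableSet_comap] at h3
    obtain ⟨C, hC, hC'⟩ := h3
    refine ⟨C, ?_, hC'⟩
    rw [BorelSpace.measurable_eq (α := Fin p → M)]
    exact hC
  choose C hC hCB using h2
  have hne : ∀ n k, B n k ≠ univ := fun n k h => (h𝒰 n).2.2.1 (h ▸ hB n ▸ mem_range_self k)
  rcases hX ⟨p, fun n k => ⟨C n k, hC n k⟩⟩ with ⟨n, H, hH, hHL, hHU⟩ | ⟨κ, hκ⟩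
  · exfalso
    obtain ⟨U, hU, hHU'⟩ := (h𝒰 n).2.2.2 (j ⁻¹' H) (hH.preimage hi.injOn)
    rw [hB n] at hU
    obtain ⟨k, rfl⟩ := hU
    apply hHU k
    intro g hg
    obtain ⟨y, rfl⟩ := (hr g).1 (hHL g hg)
    have h5 : y ∈ B n k := hHU' hg
    rw [← hCB] at h5
    exact h5
  · refine ⟨fun n => B n (κ n), fun n => hB n ▸ mem_range_self _, ⟨countable_range _, ?_⟩, ?_⟩
    · rintro _ ⟨n, rfl⟩
      exact (h𝒰 n).1.2 _ (hB n ▸ mem_range_self _)
    · refine isGamma_range (fun n => hne _ _) fun y => ?_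
      filter_upwards [hκ (j y) ((hr _).2 ⟨y, rfl⟩)] with n hn
      rw [← hCB]
      exact hn

theorem mk_borel_le (p : ℕ) :
    Cardinal.mk {s : Set (Fin p → M) // MeasurableSet s} ≤ Cardinal.continuum.{0} := by
  have h1 : (inferInstance : MeasurableSpace (Fin p → M)) =
      MeasurableSpace.generateFrom (TopologicalSpace.countableBasis (Fin p → M)) := by
    rw [BorelSpace.measurable_eq (α := Fin p → M)]
    exact (TopologicalSpace.isBasis_countableBasis (Fin p → M)).borel_eq_generateFrom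
  have h2 := MeasurableSpace.cardinal_measurableSet_le_continuum
    (s := TopologicalSpace.countableBasis (Fin p → M))
    ((Cardinal.le_aleph0_iff_set_countable.2
      (TopologicalSpace.countable_countableBasis (Fin p → M))).trans
        Cardinal.aleph0_le_continuum)
  rw [← h1] at h2
  exact h2

theorem mk_fun_le {S : Type} (h : Cardinal.mk S ≤ Cardinal.continuum.{0}) :
    Cardinal.mk (ℕ → S) ≤ Cardinal.continuum.{0} := by
  rw [← Cardinal.power_def, Cardinal.mk_nat]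
  calc Cardinal.mk S ^ Cardinal.aleph0
      ≤ Cardinal.continuum ^ Cardinal.aleph0 := Cardinal.power_le_power_right h
    _ = Cardinal.continuum := Cardinal.continuum_power_aleph0

theorem mk_task_le : Cardinal.mk Task ≤ Cardinal.continuum.{0} := by
  rw [Cardinal.mk_sigma]
  refine (Cardinal.sum_le_mk_mul_iSup _).trans ?_
  have h1 : (⨆ p : ℕ, Cardinal.mk (ℕ → ℕ → {B : Set (Fin p → M) // MeasurableSet B})) ≤
      Cardinal.continuum.{0} := ciSup_le' fun p => mk_fun_le (mk_fun_le (mk_borel_le p))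
  calc Cardinal.mk ℕ * _ ≤ Cardinal.aleph0 * Cardinal.continuum :=
        mul_le_mul' (by simp) h1
    _ = Cardinal.continuum := Cardinal.aleph0_mul_continuum

theorem exists_fine (hCH : Cardinal.continuum.{0} = Cardinal.aleph 1) :
    ∃ X : Set K, Cardinal.aleph 1 ≤ Cardinal.mk X ∧ Fine X := by
  have h1 : Cardinal.mk Task ≤ Cardinal.mk W := by
    rw [Pool.Agent.X200.FullSus.mk_W, ← hCH]
    exact mk_task_le
  have hne : Nonempty Task := ⟨⟨0, fun _ _ => ⟨∅, MeasurableSet.empty⟩⟩⟩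
  obtain ⟨f⟩ := h1
  obtain ⟨X, hX1, hX2⟩ := exists_set (Function.invFun f)
  refine ⟨X, hX1, fun t => ?_⟩
  have h2 := hX2 (f t)
  rw [Function.leftInverse_invFun f.injective t] at h2
  exact h2

theorem main (hCH : Cardinal.continuum.{0} = Cardinal.aleph 1) :
    ∃ G : AddSubgroup (ℕ → ℤ), Cardinal.mk G = Cardinal.continuum ∧ S1Borel G ∧ S1Open G ∧
      ∀ p : ℕ, S1Borel (Fin p → G) ∧ S1Open (Fin p → G) := by
  obtain ⟨X, hX1, hX2⟩ := exists_fine hCH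
  let G : AddSubgroup (ℕ → ℤ) := (L X).toAddSubgroup
  have hG : ∀ g : M, g ∈ G ↔ g ∈ L X := fun g => Submodule.mem_toAddSubgroup _
  have hpow : ∀ p : ℕ, S1Borel (Fin p → G) := by
    intro p
    refine borel_of_fine hX2 (fun (f : Fin p → G) a => (f a : M)) ?_ ?_ ?_
    · exact IsInducing.piMap fun _ => IsInducing.subtypeVal
    · intro f f' h
      funext a
      exact Subtype.ext (congrFun h a)
    · intro g
      constructor
      · intro hg
        exact ⟨fun a => ⟨g a, (hG _).2 (hg a)⟩, rfl⟩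
      · rintro ⟨f, rfl⟩ a
        exact (hG _).1 (f a).2
  have hone : S1Borel G := by
    refine borel_of_fine (p := 1) hX2 (fun (f : G) _ => (f : M)) ?_ ?_ ?_
    · have h1 : IsInducing fun (f : M) (_ : Fin 1) => f :=
        (Homeomorph.funUnique (Fin 1) M).symm.isInducing
      exact h1.comp IsInducing.subtypeVal
    · intro f f' h
      exact Subtype.ext (congrFun h 0)
    · intro g
      constructor
      · intro hg
        refine ⟨⟨g 0, (hG _).2 (hg 0)⟩, ?_⟩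
        funext a
        rw [Subsingleton.elim a 0]
      · rintro ⟨f, rfl⟩ a
        exact (hG _).1 f.2
  have h2c : SecondCountableTopology G :=
    (IsInducing.subtypeVal (t := {g : M | g ∈ G})).secondCountableTopology
  refine ⟨G, le_antisymm ?_ ?_, hone, open_of_borel hone, fun p => ⟨hpow p, open_of_borel (hpow p)⟩⟩
  · refine (Cardinal.mk_set_le _).trans ?_
    exact mk_fun_le (by simpa using Cardinal.aleph0_le_continuum)
  · rw [hCH]
    refine hX1.trans ?_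
    exact Cardinal.mk_le_of_injective (f := fun x : X => (⟨c x.1, (hG _).2
      (Submodule.subset_span ⟨x.1, x.2, rfl⟩)⟩ : G)) fun x y h =>
        Subtype.ext (injective_c (congrArg Subtype.val h))

end Pool.Agent.X200.Sac
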