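import Mathlib

/-!
A metrizable space whose topology is the intersection of finitely many zero-dimensional topologies
is finite-dimensional.
-/

namespace Pool.Agent.X200.Sn

open Set Topology Filter

/-- The covering dimension of `(X, t)` is at most `n`: every finite open cover has a finite open
refinement such that every point lies in at most `n + 1` of its members. -/
def DimLE {X : Type*} (t : TopologicalSpace X) (n : ℕ) : Prop :=
  ∀ (k : ℕ) (U : Fin k → Set X), (∀ i, IsOpen[t] (U i)) → (⋃ i, U i) = univ →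
    ∃ (l : ℕ) (V : Fin l → Set X), (∀ j, IsOpen[t] (V j)) ∧ (⋃ j, V j) = univ ∧
      (∀ j, ∃ i, V j ⊆ U i) ∧ ∀ x, {j | x ∈ V j}.ncard ≤ n + 1

/-- `μ` is an extension of `t` that is metrizable and has covering dimension zero. -/
def IsMdimExt {X : Type*} (t μ : TopologicalSpace X) : Prop :=
  (∀ U, IsOpen[t] U → IsOpen[μ] U) ∧ @TopologicalSpace.MetrizableSpace X μ ∧ DimLE μ 0

/-- `t` is the intersection of the family `τ` of metrizable zero-dimensional extensions of `t`. -/
def IsInter {X ι : Type*} (t : TopologicalSpace X) (τ : ι → TopologicalSpace X) : Prop :=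
  (∀ i, IsMdimExt t (τ i)) ∧ ∀ U, IsOpen[t] U ↔ ∀ i, IsOpen[τ i] U

/-! ### Counting minimum transversals -/

theorem count {α : Type*} [Finite α] (E : Set (Finset α)) (m j : ℕ)
    (hcard : ∀ A ∈ E, A.card ≤ m)
    (hmin : ∀ Q : Finset α, (∀ A ∈ E, ∃ a ∈ A, a ∈ Q) → j ≤ Q.card) :
    ∀ (r : ℕ) (S : Finset α), S.card + r = j →
      {Q : Finset α | S ⊆ Q ∧ Q.card = j ∧ ∀ A ∈ E, ∃ a ∈ A, a ∈ Q}.ncard ≤ m ^ r := by
  classical
  intro r
  induction r with
  | zero =>
    intro S hS
    rw [pow_zero, Set.ncard_le_one (Set.toFinite _)]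
    have h1 : ∀ Q ∈ {Q : Finset α | S ⊆ Q ∧ Q.card = j ∧ ∀ A ∈ E, ∃ a ∈ A, a ∈ Q}, Q = S := by
      rintro Q ⟨h1, h2, -⟩
      exact (Finset.eq_of_subset_of_card_le h1 (by omega)).symm
    intro Q hQ Q' hQ'
    rw [h1 Q hQ, h1 Q' hQ']
  | succ r ih =>
    intro S hS
    have h1 : ¬ ∀ A ∈ E, ∃ a ∈ A, a ∈ S := fun h => by
      have := hmin S h
      omega
    push Not at h1
    obtain ⟨A, hA, hAS⟩ := h1
    have h2 : {Q : Finset α | S ⊆ Q ∧ Q.card = j ∧ ∀ A ∈ E, ∃ a ∈ A, a ∈ Q} ⊆
        ⋃ a ∈ A, {Q : Finset α | insert a S ⊆ Q ∧ Q.card = j ∧ ∀ A ∈ E, ∃ a ∈ A, a ∈ Q} := by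
      rintro Q ⟨h1, h2, h3⟩
      obtain ⟨a, haA, haQ⟩ := h3 A hA
      exact mem_iUnion₂.2 ⟨a, haA, Finset.insert_subset haQ h1, h2, h3⟩
    refine (Set.ncard_le_ncard h2 (Set.toFinite _)).trans
      ((Finset.set_ncard_biUnion_le _ _).trans ?_)
    have h3 : ∀ a ∈ A, {Q : Finset α |
        insert a S ⊆ Q ∧ Q.card = j ∧ ∀ A ∈ E, ∃ a ∈ A, a ∈ Q}.ncard ≤ m ^ r := by
      intro a ha
      apply ih
      rw [Finset.card_insert_of_notMem (hAS a ha)]
      omega
    refine (Finset.sum_le_sum h3).trans ?_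
    rw [Finset.sum_const, smul_eq_mul, pow_succ, mul_comm]
    exact Nat.mul_le_mul_left _ (hcard A hA)

/-! ### Neighbourhoods -/

theorem union_nhds {X ι : Type*} [t : TopologicalSpace X] [T2Space X] [FirstCountableTopology X]
    [Nonempty ι] (τ : ι → TopologicalSpace X)
    (hle : ∀ i U, IsOpen U → IsOpen[τ i] U) (hinter : ∀ U, (∀ i, IsOpen[τ i] U) → IsOpen U)
    (x : X) (N : ι → Set X) (hN : ∀ i, IsOpen[τ i] (N i)) (hx : ∀ i, x ∈ N i) :
    (⋃ i, N i) ∈ 𝓝 x := by
  by_contra hcon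
  have h1 : x ∈ closure (⋃ i, N i)ᶜ := by
    rw [mem_closure_iff_nhds']
    intro s hs
    by_contra hne
    push Not at hne
    apply hcon
    refine mem_of_superset hs fun y hy => ?_
    by_contra hyN
    exact hne ⟨y, hyN⟩ hy
  obtain ⟨u, hu, hux⟩ := mem_closure_iff_seq_limit.1 h1
  have h2 : IsClosed (insert x (range u)) := hux.isCompact_insert_range.isClosed
  have h3 : IsOpen (range u)ᶜ := by
    apply hinter
    intro i
    have h4 : (range u)ᶜ = (insert x (range u))ᶜ ∪ N i := by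
      ext y
      constructor
      · intro hy
        by_cases hyx : y = x
        · right; rw [hyx]; exact hx i
        · left
          rintro (h | h)
          · exact hyx h
          · exact hy h
      · rintro (hy | hy)
        · exact fun h => hy (Or.inr h)
        · rintro ⟨n, rfl⟩
          exact hu n (mem_iUnion.2 ⟨i, hy⟩)
    rw [h4]
    exact @IsOpen.union _ _ _ (τ i) (hle i _ h2.isOpen_compl) (hN i)
  obtain ⟨i⟩ := ‹Nonempty ι›
  have h5 : x ∈ (range u)ᶜ := by
    rintro ⟨n, hn⟩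
    exact hu n (mem_iUnion.2 ⟨i, hn ▸ hx i⟩)
  obtain ⟨n, hn⟩ := (hux.eventually (h3.mem_nhds h5)).exists
  exact hn ⟨n, rfl⟩

/-! ### Extending relatively open sets -/

/-- the canonical extension of a relatively open subset of `A` -/
def Ext {X : Type*} [PseudoEMetricSpace X] (A W : Set X) : Set X :=
  {x | Metric.infEDist x W < Metric.infEDist x (A \ W)}

theorem isOpen_Ext {X : Type*} [PseudoEMetricSpace X] (A W : Set X) : IsOpen (Ext A W) :=
  isOpen_lt Metric.continuous_infEDist Metric.continuous_infEDist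

theorem subset_Ext {X : Type*} [PseudoEMetricSpace X] {A W G : Set X} (hG : IsOpen G)
    (hW : G ∩ A = W) : W ⊆ Ext A W := by
  intro x hx
  show Metric.infEDist x W < Metric.infEDist x (A \ W)
  rw [Metric.infEDist_zero_of_mem hx, pos_iff_ne_zero, ne_eq,
    ← Metric.mem_closure_iff_infEDist_zero, mem_closure_iff]
  intro h
  rw [← hW] at hx
  obtain ⟨y, hyG, hyA, hyW⟩ := h G hG hx.1
  exact hyW (hW ▸ ⟨hyG, hyA⟩)

theorem common_Ext {X ι : Type*} [PseudoEMetricSpace X] {A : Set X} {W : ι → Set X}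
    (hWA : ∀ i, W i ⊆ A) {s : Finset ι} (hs : s.Nonempty) {x : X} (hx : ∀ i ∈ s, x ∈ Ext A (W i)) :
    ∃ a ∈ A, ∀ i ∈ s, a ∈ W i := by
  have h1 : ∀ i ∈ s, Metric.infEDist x A < Metric.infEDist x (A \ W i) := by
    intro i hi
    refine lt_of_le_of_lt ?_ (hx i hi)
    exact Metric.infEDist_anti (hWA i)
  have h2 : Metric.infEDist x A < s.inf' hs fun i => Metric.infEDist x (A \ W i) := by
    rw [Finset.lt_inf'_iff]; exact h1
  obtain ⟨a, ha, hxa⟩ := Metric.infEDist_lt_iff.1 h2
  refine ⟨a, ha, fun i hi => ?_⟩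
  by_contra hai
  have h3 : s.inf' hs (fun i => Metric.infEDist x (A \ W i)) ≤ Metric.infEDist x (A \ W i) :=
    Finset.inf'_le _ hi
  have h4 : Metric.infEDist x (A \ W i) ≤ edist x a := Metric.infEDist_le_edist_of_mem ⟨ha, hai⟩
  exact absurd hxa (not_lt.2 (h3.trans h4))

/-! ### The main bound -/

/-- A zero-dimensional topology has a partition, given by a function, refining a finite cover. -/
theorem exists_partition {X : Type*} {t : TopologicalSpace X} (h0 : DimLE t 0) {k : ℕ}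
    (U : Fin k → Set X) (hU : ∀ i, IsOpen[t] (U i)) (hcov : (⋃ i, U i) = univ) :
    ∃ p : X → Fin k, (∀ y, y ∈ U (p y)) ∧ ∀ a, IsOpen[t] {y | p y = a} := by
  obtain ⟨l, V, hV, hVc, hVU, hV1⟩ := h0 k U hU hcov
  choose a ha using hVU
  have h1 : ∀ y, ∃ j, y ∈ V j := fun y => by
    have : y ∈ ⋃ j, V j := by rw [hVc]; trivial
    exact mem_iUnion.1 this
  choose q hq using h1
  have hq' : ∀ y j, y ∈ V j → j = q y := by
    intro y j hj
    have h2 := hV1 y
    rw [zero_add, Set.ncard_le_one_iff_eq (Set.toFinite _)] at h2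
    rcases h2 with h2 | ⟨b, h2⟩
    · have : j ∈ ({j | y ∈ V j} : Set (Fin l)) := hj
      rw [h2] at this
      exact this.elim
    · have e1 : j ∈ ({j | y ∈ V j} : Set (Fin l)) := hj
      have e2 : q y ∈ ({j | y ∈ V j} : Set (Fin l)) := hq y
      rw [h2] at e1 e2
      rw [mem_singleton_iff.1 e1, mem_singleton_iff.1 e2]
  refine ⟨fun y => a (q y), fun y => ha _ (hq y), fun b => ?_⟩
  have h3 : {y | a (q y) = b} = ⋃ j ∈ {j | a j = b}, V j := by
    ext y
    simp only [mem_setOf_eq, mem_iUnion, exists_prop]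
    constructor
    · intro h
      exact ⟨q y, h, hq y⟩
    · rintro ⟨j, hj, hy⟩
      rw [← hq' y j hy]; exact hj
  rw [h3]
  exact @isOpen_biUnion _ _ t _ _ fun j _ => hV j

theorem dim_bound {X : Type*} [MetricSpace X] {ι : Type*} [Fintype ι] [Nonempty ι]
    (τ : ι → TopologicalSpace X) (hle : ∀ i U, IsOpen U → IsOpen[τ i] U)
    (hinter : ∀ U, (∀ i, IsOpen[τ i] U) → IsOpen U) (h0 : ∀ i, DimLE (τ i) 0) (n : ℕ)
    (hn : ∑ j ∈ Finset.Icc 1 (Fintype.card ι), (Fintype.card ι) ^ j ≤ n + 1) :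
    DimLE (inferInstance : TopologicalSpace X) n := by
  classical
  intro k U hU hcov
  by_cases hX : Nonempty X
  swap
  · exact ⟨0, fun j => j.elim0, fun j => j.elim0, by
      rw [eq_univ_iff_forall]; intro x; exact (hX ⟨x⟩).elim, fun j => j.elim0,
      fun x => (hX ⟨x⟩).elim⟩
  -- shrink the cover
  obtain ⟨U', hcov', hU', hcl⟩ := exists_iUnion_eq_closure_subset hU (fun x => toFinite _) hcov
  -- the partitions
  choose p hpU hpo using fun i => exists_partition (h0 i) U' (fun a => hle i _ (hU' a)) hcov'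
  let A : X → Finset (ι × Fin k) := fun y => Finset.univ.image fun i => (i, p i y)
  have hAmem : ∀ y q, q ∈ A y ↔ p q.1 y = q.2 := by
    intro y q
    simp only [A, Finset.mem_image, Finset.mem_univ, true_and]
    constructor
    · rintro ⟨i, rfl⟩; rfl
    · intro h; exact ⟨q.1, by rw [h]⟩
  have hAcard : ∀ y, (A y).card ≤ Fintype.card ι := fun y => Finset.card_image_le
  let LC : X → Finset (ι × Fin k) → Prop := fun x Q => ∀ᶠ y in 𝓝 x, ∃ q ∈ A y, q ∈ Q
  have hLCA : ∀ x, LC x (A x) := by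
    intro x
    have h1 := union_nhds τ hle hinter x (fun i => {y | p i y = p i x}) (fun i => hpo i _)
      (fun i => rfl)
    refine mem_of_superset h1 fun y hy => ?_
    obtain ⟨i, hi⟩ := mem_iUnion.1 hy
    exact ⟨(i, p i x), (hAmem y _).2 hi, (hAmem x _).2 rfl⟩
  have hcex : ∀ x, ∃ c, ∃ Q, LC x Q ∧ Q.card = c := fun x => ⟨_, A x, hLCA x, rfl⟩
  let c : X → ℕ := fun x => Nat.find (hcex x)
  have hc1 : ∀ x, ∃ Q, LC x Q ∧ Q.card = c x := fun x => Nat.find_spec (hcex x)
  have hc2 : ∀ x Q, LC x Q → c x ≤ Q.card := fun x Q h => Nat.find_min' (hcex x) ⟨Q, h, rfl⟩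
  have hcm : ∀ x, c x ≤ Fintype.card ι := fun x => (hc2 x _ (hLCA x)).trans (hAcard x)
  have hLC0 : ∀ x, ¬ LC x ∅ := by
    intro x h
    obtain ⟨y, q, _, hq⟩ := h.exists
    simp at hq
  have hcpos : ∀ x, 1 ≤ c x := by
    intro x
    obtain ⟨Q, hQ, hQc⟩ := hc1 x
    rcases Nat.eq_zero_or_pos (c x) with h | h
    · rw [h, Finset.card_eq_zero] at hQc
      rw [hQc] at hQ
      exact (hLC0 x hQ).elim
    · exact h
  -- types near a point
  let E : X → Set (Finset (ι × Fin k)) := fun x => {B | ∃ᶠ y in 𝓝 x, A y = B}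
  have hLCE : ∀ x Q, LC x Q ↔ ∀ B ∈ E x, ∃ q ∈ B, q ∈ Q := by
    intro x Q
    constructor
    · intro h B hB
      obtain ⟨y, hy, hy'⟩ := (hB.and_eventually h).exists
      rw [← hy]; exact hy'
    · intro h
      have h1 : ∀ᶠ y in 𝓝 x, ∀ B, A y = B → B ∈ E x := by
        rw [Filter.eventually_all]
        intro B
        by_cases hB : B ∈ E x
        · exact Filter.Eventually.of_forall fun y _ => hB
        · have h2 : ¬ ∃ᶠ y in 𝓝 x, A y = B := hB
          rw [Filter.not_frequently] at h2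
          exact h2.mono fun y hy hy' => (hy hy').elim
      exact h1.mono fun y hy => h _ (hy _ rfl)
  -- number of minimum local covers
  have hcount : ∀ x, {Q : Finset (ι × Fin k) | Q.card = c x ∧ LC x Q}.ncard ≤
      (Fintype.card ι) ^ (c x) := by
    intro x
    have h1 := count (E x) (Fintype.card ι) (c x) (by
      intro B hB
      obtain ⟨y, hy⟩ := Filter.Frequently.exists hB
      rw [← hy]; exact hAcard y) (fun Q hQ => hc2 x Q ((hLCE x Q).2 hQ)) (c x) ∅ (by simp)
    refine (Set.ncard_le_ncard ?_ (Set.toFinite _)).trans h1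
    rintro Q ⟨h2, h3⟩
    exact ⟨Finset.empty_subset _, h2, (hLCE x Q).1 h3⟩
  -- the sets
  let W : Finset (ι × Fin k) → Set X := fun Q => {x | c x = Q.card ∧ LC x Q}
  have hWcl : ∀ Q x, x ∈ W Q → ∀ q ∈ Q, x ∈ U q.2 := by
    intro Q x hx q hq
    apply hcl q.2
    have h1 : ¬ LC x (Q.erase q) := by
      intro h
      have h2 := hc2 x _ h
      rw [hx.1] at h2
      have h3 := Finset.card_erase_lt_of_mem hq
      omega
    have h2 : ∃ᶠ y in 𝓝 x, ¬ ∃ q' ∈ A y, q' ∈ Q.erase q := by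
      intro h
      apply h1
      exact h.mono fun y hy => not_not.1 hy
    rw [mem_closure_iff_frequently]
    refine (h2.and_eventually hx.2).mono ?_
    rintro y ⟨h3, q', h4, h5⟩
    have h6 : q' = q := by
      by_contra hne
      exact h3 ⟨q', h4, Finset.mem_erase.2 ⟨hne, h5⟩⟩
    rw [h6] at h4
    rw [← (hAmem y q).1 h4]
    exact hpU q.1 y
  let V : Finset (ι × Fin k) → Set X := fun Q => {x | x ∈ Ext {x | c x = Q.card} (W Q) ∧
    ∃ h : Q.Nonempty, x ∈ U (h.choose).2}
  have hVo : ∀ Q, IsOpen (V Q) := by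
    intro Q
    by_cases hQ : Q.Nonempty
    · have : V Q = Ext {x | c x = Q.card} (W Q) ∩ U (hQ.choose).2 := by
        ext x
        exact ⟨fun h => ⟨h.1, h.2.2⟩, fun h => ⟨h.1, hQ, h.2⟩⟩
      rw [this]
      exact (isOpen_Ext _ _).inter (hU _)
    · have : V Q = ∅ := by
        ext x
        constructor
        · rintro ⟨_, h, _⟩
          exact (hQ h).elim
        · exact fun h => h.elim
      rw [this]; exact isOpen_empty
  have hVcov : ∀ x, ∃ Q, x ∈ V Q := by
    intro x
    obtain ⟨Q, hQ, hQc⟩ := hc1 x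
    have hxW : x ∈ W Q := ⟨hQc.symm, hQ⟩
    have hne : Q.Nonempty := by
      rw [← Finset.card_pos, hQc]; exact hcpos x
    refine ⟨Q, ?_, hne, hWcl Q x hxW _ hne.choose_spec⟩
    refine subset_Ext (G := {x | LC x Q}) isOpen_setOfPred_eventually_nhds ?_ hxW
    ext y
    exact ⟨fun h => ⟨h.2, h.1⟩, fun h => ⟨h.2, h.1⟩⟩
  have hord : ∀ x, {Q | x ∈ V Q}.ncard ≤ n + 1 := by
    intro x
    refine le_trans ?_ hn
    have h1 : {Q | x ∈ V Q} ⊆
        ⋃ j ∈ Finset.Icc 1 (Fintype.card ι), {Q | x ∈ V Q ∧ Q.card = j} := by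
      intro Q hQ
      obtain ⟨a, ha, -⟩ := common_Ext (A := {x | c x = Q.card}) (W := fun _ : Unit => W Q)
        (s := {()}) (x := x) (fun _ y hy => hy.1) (Finset.singleton_nonempty _) (by
          intro _ _
          exact hQ.1)
      have ha' : c a = Q.card := ha
      refine mem_iUnion₂.2 ⟨Q.card, Finset.mem_Icc.2 ⟨?_, ?_⟩, hQ, rfl⟩
      · rw [← ha']; exact hcpos a
      · rw [← ha']; exact hcm a
    refine (Set.ncard_le_ncard h1 (Set.toFinite _)).trans
      ((Finset.set_ncard_biUnion_le _ _).trans (Finset.sum_le_sum fun j _ => ?_))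
    rcases {Q | x ∈ V Q ∧ Q.card = j}.eq_empty_or_nonempty with h | hne
    · rw [h]; simp
    · let s : Finset (Finset (ι × Fin k)) := Finset.univ.filter fun Q => x ∈ V Q ∧ Q.card = j
      have hs : s.Nonempty := by
        obtain ⟨Q, hQ⟩ := hne
        exact ⟨Q, Finset.mem_filter.2 ⟨Finset.mem_univ _, hQ⟩⟩
      obtain ⟨a, ha, haW⟩ := common_Ext (A := {x | c x = j})
        (W := fun Q : Finset (ι × Fin k) => if Q.card = j then W Q else ∅) (s := s) (x := x) (by
          intro Q y hy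
          by_cases h : Q.card = j
          · rw [if_pos h] at hy
            rw [← h]; exact hy.1
          · rw [if_neg h] at hy
            exact hy.elim) hs (by
          intro Q hQ
          obtain ⟨-, hxV, hQj⟩ := Finset.mem_filter.1 hQ
          rw [if_pos hQj, ← hQj]
          exact hxV.1)
      have ha' : c a = j := ha
      refine le_trans (Set.ncard_le_ncard ?_ (Set.toFinite _)) ((hcount a).trans_eq (by rw [ha']))
      rintro Q ⟨hxV, hQj⟩
      have := haW Q (Finset.mem_filter.2 ⟨Finset.mem_univ _, hxV, hQj⟩)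
      rw [if_pos hQj] at this
      exact ⟨this.1.symm, this.2⟩
  let e := Fintype.equivFin (Finset (ι × Fin k))
  refine ⟨_, fun j => V (e.symm j), fun j => hVo _, ?_, ?_, ?_⟩
  · rw [eq_univ_iff_forall]
    intro x
    obtain ⟨Q, hQ⟩ := hVcov x
    exact mem_iUnion.2 ⟨e Q, by rw [e.symm_apply_apply]; exact hQ⟩
  · intro j
    by_cases hQ : (e.symm j).Nonempty
    · exact ⟨(hQ.choose).2, fun x hx => hx.2.2⟩
    · obtain ⟨x⟩ := hX
      have : x ∈ ⋃ i, U i := by rw [hcov]; trivial
      obtain ⟨i, _⟩ := mem_iUnion.1 this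
      exact ⟨i, fun x hx => (hQ hx.2.1).elim⟩
  · intro x
    refine le_trans ?_ (hord x)
    refine Set.ncard_le_ncard_of_injOn e.symm (fun j hj => hj) e.symm.injective.injOn
      (Set.toFinite _)

/-- The version for metrizable spaces and arbitrary finite families. -/
theorem dim_bound' {X : Type*} (t : TopologicalSpace X) (ht : @TopologicalSpace.MetrizableSpace X t) {ι : Type*}
    [Finite ι] (τ : ι → TopologicalSpace X) (h0 : ∀ i, DimLE (τ i) 0)
    (hτ : ∀ U, IsOpen[t] U ↔ ∀ i, IsOpen[τ i] U) :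
    DimLE t ((∑ j ∈ Finset.Icc 1 (Nat.card ι), (Nat.card ι) ^ j) - 1) := by
  classical
  have hfin := Fintype.ofFinite ι
  rcases isEmpty_or_nonempty ι with hι | hι
  · -- the discrete case
    intro k U hU hcov
    have h1 : ∀ x, ∃ i, x ∈ U i := fun x => by
      have : x ∈ ⋃ i, U i := by rw [hcov]; trivial
      exact mem_iUnion.1 this
    choose p hp using h1
    refine ⟨k, fun i => {x | p x = i}, fun i => (hτ _).2 fun j => (hι.false j).elim, ?_, ?_, ?_⟩
    · rw [eq_univ_iff_forall]; intro x; exact mem_iUnion.2 ⟨p x, rfl⟩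
    · exact fun i => ⟨i, fun x hx => by
        have : p x = i := hx
        rw [← this]; exact hp x⟩
    · intro x
      refine le_trans ?_ (Nat.le_add_left 1 _)
      rw [Set.ncard_le_one (Set.toFinite _)]
      intro a ha b hb
      exact (show p x = a from ha).symm.trans hb
  · letI := @TopologicalSpace.metrizableSpaceMetric X t ht
    rw [Nat.card_eq_fintype_card]
    refine dim_bound τ (fun i U hU => (hτ U).1 hU i) (fun U hU => (hτ U).2 hU) h0 _ ?_
    omega

end Pool.Agent.X200.Sn
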