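import Mathlib
import Pool.Agent.X200.SnLower

/-!
The topology of a countable-dimensional metrizable space is the intersection of a sequence of
metrizable zero-dimensional extensions.
-/

namespace Pool.Agent.X200.Sn

open Set Topology Filter

/-- Strong zero-dimensionality: partitions into small open sets. -/
theorem strong {M : Type*} [MetricSpace M] (h : DimLE (inferInstance : TopologicalSpace M) 0)
    {ε : ℝ} (hε : 0 < ε) : ∃ p : M → M, (∀ a, IsOpen {y | p y = a}) ∧ ∀ y, dist y (p y) < ε := by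
  classical
  obtain ⟨v, hvo, hvc, hvl, hvu⟩ := precise_refinement (fun a : M => Metric.ball a ε)
    (fun a => Metric.isOpen_ball) (by
      rw [eq_univ_iff_forall]
      intro y
      exact mem_iUnion.2 ⟨y, Metric.mem_ball_self hε⟩)
  obtain ⟨F, hFc, hFcl, hFv⟩ := exists_iUnion_eq_closed_subset hvo (fun x => hvl.point_finite x) hvc
  have h1 : ∀ a, ∃ C, IsClopen C ∧ F a ⊆ C ∧ C ⊆ v a := by
    intro a
    obtain ⟨p, hp1, hp2⟩ := exists_partition h (k := 2) ![v a, (F a)ᶜ] (by
      intro i
      fin_cases i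
      · exact hvo a
      · exact (hFcl a).isOpen_compl) (by
      rw [eq_univ_iff_forall]
      intro y
      by_cases hy : y ∈ F a
      · exact mem_iUnion.2 ⟨0, hFv a hy⟩
      · exact mem_iUnion.2 ⟨1, hy⟩)
    refine ⟨{y | p y = 0}, ⟨?_, hp2 0⟩, ?_, ?_⟩
    · rw [← isOpen_compl_iff]
      have : {y | p y = 0}ᶜ = {y | p y = 1} := by
        ext y
        constructor
        · intro hy
          have hy' : p y ≠ 0 := hy
          show p y = 1
          omega
        · intro hy hy'
          have e1 : p y = 1 := hy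
          have e2 : p y = 0 := hy'
          omega
      rw [this]; exact hp2 1
    · intro y hy
      by_contra hy'
      have hy2 : p y ≠ 0 := hy'
      have hy3 : p y = 1 := by omega
      have h4 := hp1 y
      rw [hy3] at h4
      exact h4 hy
    · intro y hy
      have hy2 : p y = 0 := hy
      have h4 := hp1 y
      rw [hy2] at h4
      exact h4
  choose C hC hFC hCv using h1
  have hCl : LocallyFinite C := hvl.subset hCv
  have wf : WellFounded (WellOrderingRel : M → M → Prop) := WellOrderingRel.isWellOrder.wf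
  have hne : ∀ y, {a | y ∈ C a}.Nonempty := by
    intro y
    have : y ∈ ⋃ a, F a := by rw [hFc]; trivial
    obtain ⟨a, ha⟩ := mem_iUnion.1 this
    exact ⟨a, hFC a ha⟩
  let p : M → M := fun y => wf.min {a | y ∈ C a} (hne y)
  have hp : ∀ y, y ∈ C (p y) := fun y => wf.min_mem _ (hne y)
  refine ⟨p, fun a => ?_, fun y => hvu _ (hCv _ (hp y))⟩
  have h2 : {y | p y = a} = C a \ ⋃ b : {b // WellOrderingRel b a}, C b.1 := by
    ext y
    constructor
    · intro hy
      have hy' : p y = a := hy
      refine ⟨hy' ▸ hp y, fun hy2 => ?_⟩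
      obtain ⟨b, hb⟩ := mem_iUnion.1 hy2
      have h3 : ¬ WellOrderingRel b.1 (p y) := wf.not_lt_min _ (show b.1 ∈ {a | y ∈ C a} from hb)
      exact h3 (hy' ▸ b.2)
    · rintro ⟨hy1, hy2⟩
      show p y = a
      rcases trichotomous_of WellOrderingRel (p y) a with h3 | h3 | h3
      · exact (hy2 (mem_iUnion.2 ⟨⟨p y, h3⟩, hp y⟩)).elim
      · exact h3
      · exact (wf.not_lt_min _ (show a ∈ {a | y ∈ C a} from hy1) h3).elim
  rw [h2]
  exact (hC a).isOpen.sdiff ((hCl.comp_injective Subtype.val_injective).isClosed_iUnion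
    fun b => (hC b.1).isClosed)

/-- Disjoint families of open sets around a zero-dimensional subspace. -/
theorem enlarge {X : Type*} [MetricSpace X] (Y : Set X)
    (hY : DimLE (inferInstance : TopologicalSpace Y) 0) :
    ∃ O : ℕ → Y → Set X, (∀ n a, IsOpen (O n a)) ∧ (∀ n a b x, x ∈ O n a → x ∈ O n b → a = b) ∧
      (∀ n, ∀ y ∈ Y, ∃ a, y ∈ O n a) ∧ ∀ n a, O n a ⊆ Metric.ball a.1 (1 / ((n : ℝ) + 1)) := by
  classical
  have h1 : ∀ n : ℕ, ∃ p : Y → Y, (∀ a, IsOpen {y | p y = a}) ∧ ∀ y, dist y (p y) < 1 / ((n : ℝ) + 1) :=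
    fun n => strong hY (by positivity)
  choose p hp1 hp2 using h1
  let P : ℕ → Y → Set X := fun n a => Subtype.val '' {y | p n y = a}
  have hPY : ∀ n a, P n a ⊆ Y := by
    rintro n a _ ⟨y, _, rfl⟩; exact y.2
  refine ⟨fun n a => Ext Y (P n a) ∩ Metric.ball a.1 (1 / ((n : ℝ) + 1)),
    fun n a => (isOpen_Ext _ _).inter Metric.isOpen_ball, ?_, ?_, fun n a => inter_subset_right⟩
  · intro n a b x hxa hxb
    obtain ⟨z, -, hz⟩ := common_Ext (A := Y) (W := P n) (hPY n) (s := {a, b})
      (Finset.insert_nonempty _ _) (x := x) (by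
        intro i hi
        rcases Finset.mem_insert.1 hi with rfl | hi
        · exact hxa.1
        · rw [Finset.mem_singleton.1 hi]; exact hxb.1)
    obtain ⟨y, hy, hyz⟩ := hz a (Finset.mem_insert_self _ _)
    obtain ⟨y', hy', hyz'⟩ := hz b (Finset.mem_insert_of_mem (Finset.mem_singleton_self _))
    have h2 : y = y' := Subtype.ext (hyz.trans hyz'.symm)
    have h3 : p n y = a := hy
    have h4 : p n y' = b := hy'
    rw [← h3, ← h4, h2]
  · intro n y hy
    refine ⟨p n ⟨y, hy⟩, ?_, ?_⟩
    · obtain ⟨G, hG, hGP⟩ := isOpen_induced_iff.1 (hp1 n (p n ⟨y, hy⟩))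
      refine subset_Ext hG ?_ (⟨⟨y, hy⟩, rfl, rfl⟩ : y ∈ P n (p n ⟨y, hy⟩))
      ext z
      constructor
      · rintro ⟨hzG, hzY⟩
        exact ⟨⟨z, hzY⟩, by rw [← hGP]; exact hzG, rfl⟩
      · rintro ⟨w, hw, rfl⟩
        rw [← hGP] at hw
        exact ⟨hw, w.2⟩
    · exact hp2 n ⟨y, hy⟩

/-- the topology in which the points outside `M` are isolated -/
def tauM {X : Type*} (t : TopologicalSpace X) (M : Set X) : TopologicalSpace X where
  IsOpen U := ∀ x ∈ U, x ∈ M → U ∈ 𝓝 x
  isOpen_univ := fun _ _ _ => univ_mem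
  isOpen_inter := fun _ _ h1 h2 x hx hM => inter_mem (h1 x hx.1 hM) (h2 x hx.2 hM)
  isOpen_sUnion := by
    rintro s hs x ⟨U, hU, hxU⟩ hM
    exact mem_of_superset (hs U hU x hxU hM) (subset_sUnion_of_mem hU)

/-- the metric -/
noncomputable def newMetric {X : Type*} [MetricSpace X] (h : X → ℝ) (h0 : ∀ x, 0 ≤ h x) :
    MetricSpace X := by
  classical
  exact
  { dist := fun x y => if x = y then 0 else dist x y + max (h x) (h y)
    dist_self := fun x => by simp
    dist_comm := fun x y => by
      by_cases hxy : x = y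
      · rw [if_pos hxy, if_pos hxy.symm]
      · rw [if_neg hxy, if_neg (Ne.symm hxy), dist_comm, max_comm]
    dist_triangle := fun x y z => by
      by_cases hxz : x = z
      · rw [if_pos hxz]
        refine add_nonneg ?_ ?_
        · split_ifs
          · exact le_rfl
          · exact add_nonneg dist_nonneg (le_max_of_le_left (h0 _))
        · split_ifs
          · exact le_rfl
          · exact add_nonneg dist_nonneg (le_max_of_le_left (h0 _))
      · by_cases hxy : x = y
        · rw [if_pos hxy, zero_add, hxy]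
        · by_cases hyz : y = z
          · rw [if_pos hyz, add_zero, hyz]
          · rw [if_neg hxz, if_neg hxy, if_neg hyz]
            have h1 := dist_triangle x y z
            have h2 : max (h x) (h z) ≤ max (h x) (h y) + max (h y) (h z) := by
              apply max_le
              · exact (le_max_left _ _).trans (le_add_of_nonneg_right (le_max_of_le_left (h0 _)))
              · exact (le_max_right _ _).trans (le_add_of_nonneg_left (le_max_of_le_left (h0 _)))
            linarith
    eq_of_dist_eq_zero := fun {x y} hxy => by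
      by_contra hne
      rw [if_neg hne] at hxy
      have h1 : 0 < dist x y := dist_pos.2 hne
      have h2 : 0 ≤ max (h x) (h y) := le_max_of_le_left (h0 _)
      linarith }

theorem metrizable_of_metric {X : Type*} [MetricSpace X] : TopologicalSpace.MetrizableSpace X :=
  inferInstance

theorem tauM_metrizable {X : Type*} [MetricSpace X] (M : Set X) (G : ℕ → Set X)
    (hG : ∀ n, IsOpen (G n)) (hM : M = ⋂ n, G n) :
    @TopologicalSpace.MetrizableSpace X (tauM inferInstance M) := by
  classical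
  have hex : ∀ x, x ∉ M → ∃ n, x ∉ G n := by
    intro x hx
    rw [hM, mem_iInter] at hx
    push Not at hx
    exact hx
  let h : X → ℝ := fun x => if hx : x ∉ M then 1 / ((Nat.find (hex x hx) : ℝ) + 1) else 0
  have h0 : ∀ x, 0 ≤ h x := by
    intro x
    by_cases hx : x ∉ M
    · simp only [h, dif_pos hx]; positivity
    · simp only [h, dif_neg hx]; exact le_rfl
  have hpos : ∀ x, x ∉ M → 0 < h x := by
    intro x hx
    simp only [h, dif_pos hx]; positivity
  have hzero : ∀ x ∈ M, h x = 0 := by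
    intro x hx
    have : ¬ x ∉ M := not_not.2 hx
    simp only [h, dif_neg this]
  have hsmall : ∀ x ∈ M, ∀ ε > 0, {y | h y < ε} ∈ 𝓝 x := by
    intro x hx ε hε
    obtain ⟨n, hn⟩ := exists_nat_one_div_lt hε
    have h1 : (⋂ m ∈ Finset.range (n + 1), G m) ∈ 𝓝 x := by
      refine (Filter.biInter_finset_mem _).2 fun m _ => (hG m).mem_nhds ?_
      rw [hM] at hx
      exact mem_iInter.1 hx m
    refine mem_of_superset h1 fun y hy => ?_
    show h y < ε
    by_cases hyM : y ∉ M
    · simp only [h, dif_pos hyM]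
      refine lt_of_le_of_lt ?_ hn
      have h2 : n + 1 ≤ Nat.find (hex y hyM) := by
        rw [Nat.le_find_iff]
        intro m hm hy2
        exact hy2 (mem_iInter₂.1 hy m (Finset.mem_range.2 hm))
      apply one_div_le_one_div_of_le (by positivity)
      have : ((n + 1 : ℕ) : ℝ) ≤ (Nat.find (hex y hyM) : ℝ) := by exact_mod_cast h2
      push_cast at this
      linarith
    · simp only [h, dif_neg hyM]; exact hε
  have hmet : @TopologicalSpace.MetrizableSpace X
      (newMetric h h0).toUniformSpace.toTopologicalSpace :=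
    @metrizable_of_metric X (newMetric h h0)
  suffices hs : (newMetric h h0).toUniformSpace.toTopologicalSpace = tauM inferInstance M by
    rw [hs] at hmet; exact hmet
  refine TopologicalSpace.ext (funext fun U => propext ?_)
  have key : IsOpen[(newMetric h h0).toUniformSpace.toTopologicalSpace] U ↔
      ∀ x ∈ U, ∃ ε > 0, ∀ y, (if y = x then 0 else dist y x + max (h y) (h x)) < ε → y ∈ U := by
    exact @Metric.isOpen_iff X (newMetric h h0).toPseudoMetricSpace U
  refine key.trans ?_
  constructor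
  · intro hU x hxU hxM
    obtain ⟨ε, hε, hb⟩ := hU x hxU
    refine mem_of_superset (inter_mem (Metric.ball_mem_nhds x (half_pos hε))
      (hsmall x hxM (ε / 2) (half_pos hε))) ?_
    rintro y ⟨hy1, hy2⟩
    apply hb
    split_ifs with hyx
    · exact hε
    · have e1 : dist y x < ε / 2 := hy1
      have e2 : h y < ε / 2 := hy2
      rw [hzero x hxM, max_eq_left (h0 y)]
      linarith
  · intro hU x hxU
    by_cases hxM : x ∈ M
    · obtain ⟨ε, hε, hb⟩ := Metric.mem_nhds_iff.1 (hU x hxU hxM)
      refine ⟨ε, hε, fun y hy => ?_⟩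
      by_cases hyx : y = x
      · rw [hyx]; exact hxU
      · rw [if_neg hyx] at hy
        apply hb
        have : 0 ≤ max (h y) (h x) := le_max_of_le_left (h0 _)
        show dist y x < ε
        linarith
    · refine ⟨h x, hpos x hxM, fun y hy => ?_⟩
      by_cases hyx : y = x
      · rw [hyx]; exact hxU
      · rw [if_neg hyx] at hy
        have h1 : 0 ≤ dist y x := dist_nonneg
        have h2 : h x ≤ max (h y) (h x) := le_max_right _ _
        linarith

/-- The extension attached to a zero-dimensional subspace. -/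
theorem exists_ext {X : Type*} [MetricSpace X] (Y : Set X)
    (hY : DimLE (inferInstance : TopologicalSpace Y) 0) :
    ∃ M : Set X, Y ⊆ M ∧ IsMdimExt (inferInstance : TopologicalSpace X) (tauM inferInstance M) := by
  classical
  obtain ⟨O, hO, hOd, hOc, hOb⟩ := enlarge Y hY
  let M : Set X := ⋂ n, ⋃ a, O n a
  have hYM : Y ⊆ M := by
    intro y hy
    refine mem_iInter.2 fun n => ?_
    obtain ⟨a, ha⟩ := hOc n y hy
    exact mem_iUnion.2 ⟨a, ha⟩
  refine ⟨M, hYM, fun U hU x hx _ => hU.mem_nhds hx,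
    tauM_metrizable M _ (fun n => isOpen_iUnion fun a => hO n a) rfl, ?_⟩
  -- zero-dimensionality
  intro k U hU hcov
  have hU' : ∀ i x, x ∈ U i → x ∈ M → U i ∈ 𝓝 x := fun i x hx hM => hU i x hx hM
  have hcell : ∀ n (y : M), ∃ a, y.1 ∈ O n a := fun n y => mem_iUnion.1 (mem_iInter.1 y.2 n)
  choose a ha using hcell
  let cell : ℕ → M → Set X := fun n y => ⋂ m ∈ Finset.range (n + 1), O m (a m y)
  have hcello : ∀ n y, IsOpen (cell n y) := fun n y =>
    isOpen_biInter_finset fun m _ => hO m _
  have hcelly : ∀ n (y : M), y.1 ∈ cell n y := fun n y => mem_iInter₂.2 fun m _ => ha m y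
  have hcelle : ∀ n (y z : M), z.1 ∈ cell n y → ∀ m ≤ n, cell m z = cell m y := by
    intro n y z hz m hm
    have h1 : ∀ l ∈ Finset.range (m + 1), a l z = a l y := by
      intro l hl
      have hl' : l ∈ Finset.range (n + 1) := by
        rw [Finset.mem_range] at hl ⊢; omega
      exact hOd l _ _ z.1 (ha l z) (mem_iInter₂.1 hz l hl')
    exact iInter₂_congr fun l hl => by rw [h1 l hl]
  have hgood : ∀ y : M, ∃ n, ∃ i, cell n y ⊆ U i := by
    intro y
    have : y.1 ∈ ⋃ i, U i := by rw [hcov]; trivial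
    obtain ⟨i, hi⟩ := mem_iUnion.1 this
    obtain ⟨ε, hε, hb⟩ := Metric.mem_nhds_iff.1 (hU' i y.1 hi y.2)
    obtain ⟨n, hn⟩ := exists_nat_one_div_lt (half_pos hε)
    refine ⟨n, i, fun z hz => hb ?_⟩
    have h1 := hOb n _ (mem_iInter₂.1 hz n (Finset.mem_range.2 (by omega)))
    have h2 := hOb n _ (ha n y)
    have h3 := dist_triangle_right z y.1 (a n y).1
    rw [Metric.mem_ball] at h1 h2 ⊢
    linarith
  let N : M → ℕ := fun y => Nat.find (hgood y)
  have hN : ∀ y, ∃ i, cell (N y) y ⊆ U i := fun y => Nat.find_spec (hgood y)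
  let q : M → Fin k := fun y => (hN y).choose
  have hq : ∀ y, cell (N y) y ⊆ U (q y) := fun y => (hN y).choose_spec
  have hchoose : ∀ (S S' : Set X) (_ : S = S') (h : ∃ i, S ⊆ U i) (h' : ∃ i, S' ⊆ U i),
      h.choose = h'.choose := by
    rintro S _ rfl h h'; rfl
  have hqc : ∀ (y z : M), z.1 ∈ cell (N y) y → q z = q y := by
    intro y z hz
    have h1 : N z = N y := by
      apply le_antisymm
      · apply Nat.find_min'
        rw [hcelle (N y) y z hz (N y) le_rfl]
        exact hN y
      · rw [Nat.le_find_iff]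
        intro m hm
        rw [hcelle (N y) y z hz m hm.le]
        exact Nat.find_min (hgood y) hm
    apply hchoose
    rw [h1]
    exact hcelle (N y) y z hz _ le_rfl
  -- the disjoint open sets around `M`
  let Wf : Fin k → Set X := fun i => {x | ∃ h : x ∈ M, q ⟨x, h⟩ = i}
  have hWM : ∀ i, Wf i ⊆ M := fun i x hx => hx.1
  have hWrel : ∀ i, ∃ G : Set X, IsOpen G ∧ G ∩ M = Wf i := by
    intro i
    refine ⟨⋃ y ∈ {y : M | q y = i}, cell (N y) y, isOpen_biUnion fun y _ => hcello _ _, ?_⟩
    ext x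
    constructor
    · rintro ⟨hx, hxM⟩
      obtain ⟨y, hy, hxy⟩ := mem_iUnion₂.1 hx
      exact ⟨hxM, (hqc y ⟨x, hxM⟩ hxy).trans hy⟩
    · rintro ⟨hxM, hx⟩
      exact ⟨mem_iUnion₂.2 ⟨⟨x, hxM⟩, hx, hcelly _ _⟩, hxM⟩
  let V₀ : Fin k → Set X := fun i => Ext M (Wf i) ∩ interior (U i)
  have hV₀ : ∀ i, IsOpen (V₀ i) := fun i => (isOpen_Ext _ _).inter isOpen_interior
  have hV₀d : ∀ i j x, x ∈ V₀ i → x ∈ V₀ j → i = j := by
    intro i j x hi hj
    obtain ⟨z, -, hz⟩ := common_Ext (A := M) (W := Wf) hWM (s := {i, j})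
      (Finset.insert_nonempty _ _) (x := x) (by
        intro l hl
        rcases Finset.mem_insert.1 hl with rfl | hl
        · exact hi.1
        · rw [Finset.mem_singleton.1 hl]; exact hj.1)
    obtain ⟨h1, h2⟩ := hz i (Finset.mem_insert_self _ _)
    obtain ⟨h1', h2'⟩ := hz j (Finset.mem_insert_of_mem (Finset.mem_singleton_self _))
    rw [← h2, ← h2']
  have hV₀M : ∀ x (hx : x ∈ M), x ∈ V₀ (q ⟨x, hx⟩) := by
    intro x hx
    obtain ⟨G, hG, hGW⟩ := hWrel (q ⟨x, hx⟩)
    refine ⟨subset_Ext hG hGW ⟨hx, rfl⟩, ?_⟩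
    rw [mem_interior_iff_mem_nhds]
    exact hU' _ x (hq ⟨x, hx⟩ (hcelly _ _)) hx
  have hsel : ∀ x, ∃ i, x ∈ U i := fun x => by
    have : x ∈ ⋃ i, U i := by rw [hcov]; trivial
    exact mem_iUnion.1 this
  choose s hs using hsel
  refine ⟨k, fun i => V₀ i ∪ {x | (∀ j, x ∉ V₀ j) ∧ s x = i}, ?_, ?_, ?_, ?_⟩
  · rintro i x (hx | ⟨hx, -⟩) hxM
    · exact mem_of_superset ((hV₀ i).mem_nhds hx) subset_union_left
    · exact (hx _ (hV₀M x hxM)).elim
  · rw [eq_univ_iff_forall]
    intro x
    by_cases hx : ∃ j, x ∈ V₀ j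
    · obtain ⟨j, hj⟩ := hx
      exact mem_iUnion.2 ⟨j, Or.inl hj⟩
    · push Not at hx
      exact mem_iUnion.2 ⟨s x, Or.inr ⟨hx, rfl⟩⟩
  · intro i
    refine ⟨i, ?_⟩
    rintro x (hx | ⟨_, hx⟩)
    · exact interior_subset hx.2
    · rw [← hx]; exact hs x
  · intro x
    rw [zero_add, Set.ncard_le_one (Set.toFinite _)]
    rintro i (hi | ⟨hi, hi'⟩) j (hj | ⟨hj, hj'⟩)
    · exact hV₀d i j x hi hj
    · exact (hj i hi).elim
    · exact (hi j hj).elim
    · rw [← hi', ← hj']

/-- countable-dimensional spaces -/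
def CountableDim {X : Type*} (t : TopologicalSpace X) : Prop :=
  ∃ Y : ℕ → Set X, (⋃ k, Y k) = univ ∧
    ∀ k, DimLE (TopologicalSpace.induced (Subtype.val : Y k → X) t) 0

theorem upper {X : Type*} (t : TopologicalSpace X)
    (ht : @TopologicalSpace.MetrizableSpace X t) (hc : CountableDim t) :
    ∃ τ : ℕ → TopologicalSpace X, IsInter t τ := by
  letI := @TopologicalSpace.metrizableSpaceMetric X t ht
  obtain ⟨Y, hY, hY0⟩ := hc
  choose M hYM hM using fun k => exists_ext (Y k) (hY0 k)
  refine ⟨fun k => tauM inferInstance (M k), hM, fun U => ⟨fun hU i => (hM i).1 U hU, fun hU => ?_⟩⟩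
  refine isOpen_iff_mem_nhds.2 fun x hx => ?_
  have : x ∈ ⋃ k, Y k := by rw [hY]; trivial
  obtain ⟨k, hk⟩ := mem_iUnion.1 this
  exact hU k x hx (hYM k hk)

end Pool.Agent.X200.Sn
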